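import Pool.Agent.H2.GEN.LabT
import Pool.Agent.H80.GEN.Chn

/-!
# The system of the chains of two-sided labels

Row 351. `Tch l k K a w P`: a chain of two-sided labels (`Pool.GEN.ChN`) of the coordinates `l` and
of the target `k`, on a radius and a window which may be larger than `2 ^ (-a)` and `2 ^ (-w)`, with
the precision `2 ^ (-P)` of the target, where one digit of the radius counts for one digit of the
precision. Nothing is assumed about the precisions of the labels of the coordinates `l`, which are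
the sides of the natural boxes, and about the gradients.

This is a system of labels (`lsys`) which has the slope law and the trivial labels in every class;
so every class has a subclass in which the thresholds of all the chains are numbers (`thr_lsys`).
-/

set_option autoImplicit false

namespace Pool.LBN

open Finset Real MvPolynomial
open Pool.Agent.H49.Ent Pool.Agent.H32.Dense Pool.STK Pool.KA Pool.KSAT Pool.K2S Pool.PB Pool.S6C
open Pool.GEN (bt bd PtT LnT DepC NBx ChOK ChN Chn)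
open Pool.LBT (LSys Slo Tri ThrOf)
open Pool.LEV (Law)

variable {n J : ℕ}

/-- The chain of the coordinates `l` and of the target `k`. -/
def cof (l : List (Fin n)) (k : Fin n) (i : ℕ) : Fin n := (l ++ [k]).getD i k

theorem cof_lt {l : List (Fin n)} {k : Fin n} {i : ℕ} (hi : i < l.length) : cof l k i = l[i] := by
  unfold cof
  rw [List.getD_append _ _ _ _ hi, List.getD_eq_getElem _ _ hi]

theorem cof_ge {l : List (Fin n)} {k : Fin n} {i : ℕ} (hi : l.length ≤ i) : cof l k i = k := by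
  unfold cof
  rcases hi.eq_or_lt with rfl | hi
  · rw [List.getD_append_right _ _ _ _ le_rfl]
    simp
  · rw [List.getD_eq_default]
    simp only [List.length_append, List.length_cons, List.length_nil]
    omega

theorem cof_len (l : List (Fin n)) (k : Fin n) : cof l k l.length = k := cof_ge le_rfl

theorem cof_take {l : List (Fin n)} {k : Fin n} {i j : ℕ} (hij : i ≤ j) (hj : j < l.length) :
    cof (l.take j) l[j] i = cof l k i := by
  have e : (l.take j).length = j := by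
    rw [List.length_take]
    omega
  rcases hij.eq_or_lt with rfl | hij
  · rw [cof_ge e.le, cof_lt hj]
  · rw [cof_lt (by omega), cof_lt (hij.trans hj), List.getElem_take]

/-- **Labels of the target `k`** over the coordinates `l`. -/
def Tch (l : List (Fin n)) (k : Fin n) (K a w P : ℕ) : Stat n := fun J F A =>
  ∃ (a₀ w₀ e : ℕ) (g : ℕ → ℕ), w₀ ≤ a₀ ∧ a₀ ≤ a ∧ w₀ ≤ w ∧ P + a₀ ≤ g l.length + a ∧
    (∀ i ≤ l.length, g i ≤ J) ∧ ChN F (cof l k) (l.length + 1) (fun _ => K) a₀ w₀ e g A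

/-! ### Elementary facts -/

/-- Chains only depend on their coordinates, precisions and classes before the end. -/
theorem chn_congr {F : Fam n J} {c c' : ℕ → Fin n} {r : ℕ} {K K' : ℕ → ℕ} {a w e : ℕ}
    {g g' : ℕ → ℕ} {A : F.Ω → Prop} (h : ChN F c r K a w e g A) (hc : ∀ i < r, c i = c' i)
    (hK : ∀ i < r, K i ≤ K' i) (hg : ∀ i < r, g i = g' i) : ChN F c' r K' a w e g' A := by
  obtain ⟨G, H, h⟩ := h
  have d0 : ∀ i : ℕ, DepC c' i (0 : MvPolynomial (Option (Fin n)) ℝ) := by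
    intro i b b' _ _
    rw [map_zero, map_zero]
  have dd : ∀ i < r, ∀ P : MvPolynomial (Option (Fin n)) ℝ, DepC c i P → DepC c' i P := by
    intro i hi P hP b b' h1 h2
    refine hP b b' h1 fun l hl => ?_
    rw [hc l (hl.trans hi)]
    exact h2 l hl
  have hb : ∀ {y : PtT F} {t : ℝ} {i : ℕ} {b : Option (Fin n) → ℝ}, i < r →
      NBx c' (fun l => if l < r then G y l else 0) g' a t i b → NBx c (G y) g a t i b := by
    intro y t i b hi hb
    refine ⟨hb.1, fun l hl => ?_⟩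
    have h1 := hb.2 l hl
    simp only [if_pos (hl.trans hi)] at h1
    rw [hc l (hl.trans hi), hg l (hl.trans hi)]
    exact h1
  refine ⟨fun y i => if i < r then G y i else 0, fun s i => if i < r then H s i else 0,
    fun y i => ?_, fun s i => ?_, fun y i => ?_, fun s i => ?_, fun ω hω i hi => ?_,
    fun ω hω i hi b hbx => ?_, fun ω hω i hi b hbx l hl => ?_⟩
  · split_ifs with hi
    · exact (h.degG y i).trans (hK i hi)
    · rw [totalDegree_zero]
      exact Nat.zero_le _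
  · split_ifs with hi
    · exact (h.degH s i).trans (hK i hi)
    · rw [totalDegree_zero]
      exact Nat.zero_le _
  · split_ifs with hi
    · exact dd i hi _ (h.depG y i)
    · exact d0 i
  · split_ifs with hi
    · exact dd i hi _ (h.depH s i)
    · exact d0 i
  · rw [if_pos hi, ← hc i hi, ← hg i hi]
    exact h.pos ω hω i hi
  · rw [if_pos hi, if_pos hi, ← hg i hi]
    exact h.agr ω hω i hi b (hb hi hbx)
  · have e1 : Pool.GEN.nlp g l i = Pool.GEN.nlp g' l i := by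
      unfold Pool.GEN.nlp
      rw [hg i hi, Finset.sup_congr rfl fun j hj =>
        hg j ((Finset.mem_Icc.1 hj).2.trans_lt hi)]
    rw [if_pos hi, ← hc l (hl.trans hi), ← e1]
    exact h.lip ω hω i hi b (hb hi hbx) l hl

theorem Tch.her (l : List (Fin n)) (k : Fin n) (K a w P J : ℕ) (F : Fam n J) :
    Hered (Tch l k K a w P J F) := by
  rintro A B hB ⟨a₀, w₀, e, g, h1, h2, h3, h4, h5, h⟩
  exact ⟨a₀, w₀, e, g, h1, h2, h3, h4, h5, ChN.hered F _ _ _ _ _ _ _ A B hB h⟩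

theorem Tch.anti {l : List (Fin n)} {k : Fin n} {K a w P P' J : ℕ} {F : Fam n J}
    {A : F.Ω → Prop} (hP : P' ≤ P) (h : Tch l k K a w P J F A) : Tch l k K a w P' J F A := by
  obtain ⟨a₀, w₀, e, g, h1, h2, h3, h4, h5, h⟩ := h
  exact ⟨a₀, w₀, e, g, h1, h2, h3, by omega, h5, h⟩

theorem Tch.mono {l : List (Fin n)} {k : Fin n} {K K' a a' w w' P J : ℕ} {F : Fam n J}
    {A : F.Ω → Prop} (hK : K ≤ K') (ha : a ≤ a') (hw : w ≤ w') (h : Tch l k K a w P J F A) :
    Tch l k K' a' w' P J F A := by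
  obtain ⟨a₀, w₀, e, g, h1, h2, h3, h4, h5, h⟩ := h
  exact ⟨a₀, w₀, e, g, h1, h2.trans ha, h3.trans hw, by omega, h5, h.cls fun _ _ => hK⟩

/-- **The slope**. -/
theorem Tch.slope {l : List (Fin n)} {k : Fin n} {K a w P v : ℕ} {F : Fam n J}
    {A : F.Ω → Prop} (h : Tch l k K a w P J F A) : Tch l k K (a + v) w (P + v) J F A := by
  obtain ⟨a₀, w₀, e, g, h1, h2, h3, h4, h5, h⟩ := h
  exact ⟨a₀, w₀, e, g, h1, by omega, h3, by omega, h5, h⟩

/-- A chain is a label of its last coordinate. -/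
theorem Tch.of_ch {F : Fam n J} {l : List (Fin n)} {k : Fin n} {c : ℕ → Fin n} {K : ℕ → ℕ}
    {K₀ a w e P : ℕ} {g : ℕ → ℕ} {A : F.Ω → Prop} (h : ChN F c (l.length + 1) K a w e g A)
    (hc : ∀ i ≤ l.length, c i = cof l k i) (hK : ∀ i ≤ l.length, K i ≤ K₀) (hwa : w ≤ a)
    (hg : ∀ i ≤ l.length, g i ≤ J) (hP : P ≤ g l.length) : Tch l k K₀ a w P J F A :=
  ⟨a, w, e, g, hwa, le_rfl, le_rfl, by omega, hg, chn_congr h (fun i hi => hc i (by omega))
    (fun i hi => hK i (by omega)) fun _ _ => rfl⟩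

/-- The precisions of the coordinates `l` are precisions of labels. -/
theorem Tch.base {F : Fam n J} {l : List (Fin n)} {k : Fin n} {K : ℕ → ℕ} {K₀ a w e : ℕ}
    {g : ℕ → ℕ} {A : F.Ω → Prop} (h : ChN F (cof l k) (l.length + 1) K a w e g A)
    (hK : ∀ i ≤ l.length, K i ≤ K₀) (hwa : w ≤ a) (hg : ∀ i ≤ l.length, g i ≤ J) (j : ℕ)
    (hj : j < l.length) : Tch (l.take j) l[j] K₀ a w (g j) J F A := by
  have e1 : (l.take j).length = j := by
    rw [List.length_take]
    omega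
  obtain ⟨G, H, h⟩ := h
  have h1 : ChN F (cof l k) ((l.take j).length + 1) K a w e g A :=
    ⟨G, H, h.mono (by omega) (fun _ => le_rfl) le_rfl le_rfl⟩
  refine Tch.of_ch h1 (fun i hi => ?_) (fun i hi => hK i (by omega)) hwa
    (fun i hi => hg i (by omega)) (by rw [e1])
  exact (cof_take (by omega) hj).symm

/-! ### Trivial labels -/

theorem near_pt (F : Fam n J) (i : Fin n) (ω : F.Ω) :
    |F.x ω i - ((F.X J ω i : ℤ) : ℝ) / 2 ^ J| ≤ 1 / 2 ^ J := by
  have hr0 : (0 : ℝ) < 2 ^ J := by positivity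
  have a1 := Int.floor_le ((2 : ℝ) ^ J * F.x ω i)
  have a2 := Int.lt_floor_add_one ((2 : ℝ) ^ J * F.x ω i)
  have e : F.x ω i - ((F.X J ω i : ℤ) : ℝ) / 2 ^ J =
      (2 ^ J * F.x ω i - ((⌊(2 : ℝ) ^ J * F.x ω i⌋ : ℤ) : ℝ)) / 2 ^ J := by
    change F.x ω i - ((⌊(2 : ℝ) ^ J * F.x ω i⌋ : ℤ) : ℝ) / 2 ^ J = _
    field_simp
  rw [e, abs_div, abs_of_pos hr0]
  refine div_le_div_of_nonneg_right ?_ hr0.le
  rw [abs_le]
  constructor <;> linarith

theorem near_win (F : Fam n J) (i : Fin n) {w : ℕ} (hw : w ≤ J) (ω : F.Ω) :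
    |F.x ω i - F.x1 w ω i| ≤ 1 / 2 ^ w := by
  have hw0 : (0 : ℝ) < 2 ^ w := by positivity
  have b1 := T1_real F hw ω
  have e : F.x ω i - F.x1 w ω i = (2 ^ w * F.t ω - F.T1 w ω) / 2 ^ w * F.d ω i := by
    unfold Fam.x Fam.x1
    field_simp
    ring
  rw [e, abs_mul]
  have b2 : |(2 ^ w * F.t ω - F.T1 w ω) / 2 ^ w| ≤ 1 / 2 ^ w := by
    rw [abs_div, abs_of_pos hw0]
    refine div_le_div_of_nonneg_right ?_ hw0.le
    rw [abs_le]
    constructor <;> linarith [b1.1, b1.2]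
  calc _ ≤ 1 / 2 ^ w * 1 := mul_le_mul b2 (F.dir ω i) (abs_nonneg _) (by positivity)
    _ = _ := mul_one _

/-- **The trivial chains**: constants. -/
theorem ch_trivial (F : Fam n J) (c : ℕ → Fin n) (r : ℕ) (K : ℕ → ℕ) (a e : ℕ) {w P : ℕ}
    (hP : P + 1 ≤ w) (hw : w ≤ J) (A : F.Ω → Prop) : ChN F c r K a w e (fun _ => P) A := by
  refine ⟨fun y i => C ((y.1 (c i) : ℝ) / 2 ^ J),
    fun s i => C (s.1.1 (c i) + (s.2.2 : ℝ) / 2 ^ w * s.1.2 (c i)), ?_⟩
  have e1 : (1 : ℝ) / 2 ^ J ≤ 1 / 2 ^ (P + 1) := inv_mono (hP.trans hw)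
  have e2 : (1 : ℝ) / 2 ^ w ≤ 1 / 2 ^ (P + 1) := inv_mono hP
  have e3 : (1 : ℝ) / 2 ^ (P + 1) = 1 / 2 ^ P / 2 := by rw [pow_succ]; field_simp
  have e4 : (0 : ℝ) < 1 / 2 ^ P := by positivity
  refine ⟨fun y i => ?_, fun s i => ?_, fun y i b b' _ _ => ?_, fun s i b b' _ _ => ?_,
    fun ω _ i _ => ?_, fun ω _ i _ b _ => ?_, fun ω _ i _ b _ l _ => ?_⟩
  · rw [totalDegree_C]
    exact Nat.zero_le _
  · rw [totalDegree_C]
    exact Nat.zero_le _
  · rw [eval_C, eval_C]
  · rw [eval_C, eval_C]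
  · have h1 := near_pt F (c i) ω
    rw [eval_C]
    change |F.x ω (c i) - ((F.X J ω (c i) : ℤ) : ℝ) / 2 ^ J| ≤ 1 / 2 ^ P
    linarith
  · have h1 := near_pt F (c i) ω
    have h2 := near_win F (c i) hw ω
    rw [eval_C, eval_C]
    change |((F.X J ω (c i) : ℤ) : ℝ) / 2 ^ J - F.x1 w ω (c i)| ≤ 1 / 2 ^ P
    rw [abs_le] at h1 h2 ⊢
    constructor <;> linarith [h1.1, h1.2, h2.1, h2.2]
  · rw [pderiv_C, map_zero, abs_zero]
    positivity

theorem Tch.trivial {F : Fam n J} {l : List (Fin n)} {k : Fin n} {K a w P : ℕ}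
    (hP : P + 1 ≤ w) (hw : w ≤ J) (hwa : w ≤ a) (A : F.Ω → Prop) : Tch l k K a w P J F A :=
  Tch.of_ch (ch_trivial F (cof l k) _ (fun _ => K) a 0 hP hw A) (fun _ _ => rfl)
    (fun _ _ => le_rfl) hwa (fun _ _ => by omega) le_rfl

/-! ### Closed labels -/

/-- **Closed labels are labels of the chain.** -/
theorem Tch.of_lb {F : Fam n J} {l : List (Fin n)} {k : Fin n} {c : ℕ → Fin n} {K : ℕ → ℕ}
    {K₀ a w ρ e q P : ℕ} {g : ℕ → ℕ} {A : F.Ω → Prop} (hq : q ≤ J)
    (h : ∀ i ≤ l.length, Pool.GEN.Lb F ((range i).image c) (c i) (K i) e q w ρ (g i) A)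
    (hc : ∀ i ≤ l.length, c i = cof l k i) (hK : ∀ i ≤ l.length, K i ≤ K₀)
    (ha : ρ + (e + n + 3) * (l.length + 1) ≤ a)
    (hg : ∀ i < l.length, ρ + (e + n + 3) * (l.length + 1) ≤ g i) (hwa : w ≤ a)
    (hgJ : ∀ i ≤ l.length, g i ≤ J) (hP : P ≤ g l.length) : Tch l k K₀ a w P J F A :=
  Tch.of_ch (ChN.of_lb (r := l.length + 1) hq (fun i hi => h i (by omega)) ha
    fun i hi => hg i (by omega)) hc hK hwa hgJ hP

/-! ### The system of labels -/

/-- **The system of the chain labels**: the charts are pairs of a list (the base) and a coordinate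
(the target). -/
def lsys (n : ℕ) : LSys n where
  ι := List (Fin n) × Fin n
  T i := Tch i.1 i.2
  her i K a w P J F := Tch.her i.1 i.2 K a w P J F
  anti h := Tch.anti h
  mono hK ha hw _ _ h := Tch.mono hK ha hw h

instance : Countable (lsys n).ι := inferInstanceAs (Countable (List (Fin n) × Fin n))

theorem slo_lsys (S : PCl n) : Slo (lsys n) S := by
  intro i K
  refine ⟨K, fun w₀ hw₀ η hη => ⟨1, one_pos, 0, fun J _ F A _ a w v P Q _ _ _ _ hQ hT =>
    ⟨A, fun _ h => h, ?_, ?_⟩⟩⟩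
  · have h1 : Real.exp (-(η * J)) ≤ 1 := by
      rw [Real.exp_le_one_iff]
      have : 0 ≤ η * (J : ℝ) := by positivity
      linarith
    calc _ ≤ 1 * Pe F.p A := mul_le_mul_of_nonneg_right h1 (Pe_nonneg F.isLaw A)
      _ = _ := one_mul _
  · have h1 : Q ≤ P + v := by
      have : (Q : ℝ) ≤ ((P + v : ℕ) : ℝ) := by
        push_cast
        have : 0 ≤ η * (J : ℝ) := by positivity
        linarith
      exact_mod_cast this
    exact Tch.anti h1 (Tch.slope hT)

theorem tri_lsys (S : PCl n) : Tri (lsys n) S := by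
  intro i
  refine ⟨0, fun η hη => ⟨1, one_pos, ?_⟩⟩
  obtain ⟨J₁, hJ₁⟩ := exists_nat_ge (1 / η)
  refine ⟨J₁, fun J hJ F A _ w P hw hP => ⟨A, fun _ h => h, ?_, ?_⟩⟩
  · have h1 : Real.exp (-(η * J)) ≤ 1 := by
      rw [Real.exp_le_one_iff]
      have : 0 ≤ η * (J : ℝ) := by positivity
      linarith
    calc _ ≤ 1 * Pe F.p A := mul_le_mul_of_nonneg_right h1 (Pe_nonneg F.isLaw A)
      _ = _ := one_mul _
  · have hJ' : (J₁ : ℝ) ≤ J := by exact_mod_cast hJ
    have e1 : 1 / η ≤ J := hJ₁.trans hJ'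
    rw [div_le_iff₀ hη] at e1
    have e2 : P + 1 ≤ w := by
      have : ((P + 1 : ℕ) : ℝ) ≤ w := by
        push_cast
        linarith
      exact_mod_cast this
    exact Tch.trivial e2 hw le_rfl A

/-- **The thresholds of the chain labels** are numbers of a subclass, for all bases and targets at
once. No property of the class is used. -/
theorem thr_lsys {S : PCl n} (hS : S.Ne) :
    ∃ (S' : PCl n) (L : List (Fin n) × Fin n → ℝ → ℝ → ℝ), S'.Ne ∧
      (∀ (τ : ℝ) (J : ℕ) (F : Fam n J) (A : F.Ω → Prop), S'.St τ J F A → S.St τ J F A) ∧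
      ThrOf (lsys n) S' L :=
  Pool.LBT.thr (lsys n) S hS (slo_lsys S) (tri_lsys S)

/-! ### Absence and the two kinds of thresholds -/

/-- No chain of two-sided labels has a target which is better than the threshold. -/
theorem no_chn {S : PCl n} {L : List (Fin n) × Fin n → ℝ → ℝ → ℝ} (h : ThrOf (lsys n) S L)
    (l : List (Fin n)) (k : Fin n) (K : ℕ → ℕ) (a w : ℚ) {h' : ℝ} (h0 : 0 ≤ w) (h1 : w ≤ a)
    (h2 : a ≤ 1) (h3 : 0 < h') (h4 : L (l, k) a w + h' ≤ 1) :
    Bas S (fun J F A => ∀ (c : ℕ → Fin n) (e : ℕ) (g : ℕ → ℕ),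
      (∀ i ≤ l.length, c i = cof l k i) → (∀ i < l.length, g i ≤ J) →
      g l.length = ⌊(L (l, k) a w + h') * J⌋₊ →
      ¬ ChN F c (l.length + 1) K ⌊(a : ℝ) * J⌋₊ ⌊(w : ℝ) * J⌋₊ e g A) := by
  obtain ⟨K₀, hK₀⟩ : ∃ K₀, ∀ i ≤ l.length, K i ≤ K₀ := by
    refine ⟨∑ i ∈ range (l.length + 1), K i, fun i hi => ?_⟩
    exact Finset.single_le_sum (f := K) (fun _ _ => Nat.zero_le _) (mem_range.2 (by omega))
  obtain ⟨τ, hτ, J₁, hb⟩ := h.no (l, k) K₀ a w h' h0 h1 h2 h3 h4
  refine ⟨τ, hτ, J₁, fun J hJ F A hA c e g hc hg hg' hch => hb J hJ F A hA ?_⟩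
  have hJ0 : (0 : ℝ) ≤ J := Nat.cast_nonneg J
  refine Tch.of_ch hch hc hK₀ (Nat.floor_le_floor (mul_le_mul_of_nonneg_right
    (by exact_mod_cast h1) hJ0)) (fun i hi => ?_) hg'.ge
  rcases hi.eq_or_lt with rfl | hi
  · rw [hg']
    refine Nat.floor_le_of_le ?_
    calc _ ≤ 1 * (J : ℝ) := mul_le_mul_of_nonneg_right h4 hJ0
      _ = J := one_mul _
  · exact hg i hi

end Pool.LBN
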