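import Pool.Agent.H67.GEN.WfU

/-!
# The micro input, in the weakest form

`MicW P ρ`: almost every row which is not full, with a positive derivative of the diagonal level,
is uniformly free from the window. This is what the assembly needs (`rowsW`), and it follows from
the form with cells (`micW_of_micB`).
-/

set_option autoImplicit false

namespace Pool.STR

open MeasureTheory Set Filter Topology Pool.LEV

/-- **(M)**: almost all rows which are not full are uniformly free from the window. -/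
def MicW (P : ℝ → ℝ → ℝ) (ρ : ℝ → ℝ) : Prop :=
  ∀ᵐ Q : ℝ, 0 < Q → Q < 1 → 0 < Lv P (Q, 0) → DifferentiableAt ℝ (fun Q => Lv P (Q, 0)) Q →
    0 < deriv (fun Q => Lv P (Q, 0)) Q → DifferentiableAt ℝ ρ Q → deriv ρ Q < 1 → WfU P Q

/-- The form with cells is stronger. -/
theorem micW_of_micB {P : ℝ → ℝ → ℝ} (hP : Law P) {ρ : ℝ → ℝ} (hM : MicB P ρ) : MicW P ρ :=
  wfu_of_micB hP hM

/-- Almost all rows of macroscopic windows are full. -/
theorem fullW {P : ℝ → ℝ → ℝ} (hP : Law P) {ρ : ℝ → ℝ} (hJ : JmpN P ρ) (hM : MicW P ρ)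
    (hS : StaU P ρ) : ∀ᵐ Q : ℝ, 0 < Q → Q < 1 → 0 < Lv P (Q, 0) → DifferentiableAt ℝ ρ Q →
      1 ≤ deriv ρ Q := by
  have hn : ∀ n : ℕ, (0 : ℝ) < 1 / ((n : ℝ) + 1) := fun n => by positivity
  have hg : ∀ᵐ Q : ℝ, DifferentiableAt ℝ (fun Q => Lv P (Q, 0)) Q := by
    have : LipschitzWith 1 (fun Q => Lv P (Q, 0)) := by
      refine LipschitzWith.of_dist_le_mul fun x y => ?_
      refine ((Lv_lip hP).dist_le_mul _ _).trans ?_
      rw [Prod.dist_eq]
      simp
    exact this.ae_differentiableAt_real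
  have hgm : Monotone (fun Q => Lv P (Q, 0)) := fun x y hxy => Lv_mono hP ⟨hxy, le_rfl⟩
  filter_upwards [hM, hg, ae_all_iff.2 fun n => hJ _ (hn n),
    ae_all_iff.2 fun n => hS _ (hn n)] with Q k1 k2 k3 k4 h0 h1 hw hd
  by_contra hcon
  push Not at hcon
  obtain ⟨n, hn'⟩ := exists_nat_one_div_lt (sub_pos.2 hcon)
  have h2 : deriv ρ Q < 1 - 1 / ((n : ℝ) + 1) := by linarith
  have hg0 : 0 ≤ deriv (fun Q => Lv P (Q, 0)) Q := hgm.deriv_nonneg
  rcases eq_or_lt_of_le hg0 with h3 | h3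
  · exact absurd (k3 n h0 h1 hw k2 h3.symm hd) (not_le.2 h2)
  · exact absurd (k4 n h0 h1 hw k2 h3 (k1 h0 h1 hw k2 h3 hd hcon) hd) (not_le.2 h2)

/-- **The assembly.** The rows above the diagonal threshold of a macroscopic window cost the full
price. -/
theorem rowsW {P : ℝ → ℝ → ℝ} (hP : Law P) {ρ : ℝ → ℝ} {w : ℝ} (hw : 0 < w) (hw1 : w ≤ 1)
    (hG0 : 0 ≤ P w w) (hG : P w w ≤ 1) (hr : MonotoneOn ρ (Icc (P w w) 1)) (hJ : JmpN P ρ)
    (hM : MicW P ρ) (hS : StaU P ρ) : 1 - P w w ≤ ρ 1 - ρ (P w w) := by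
  refine cost hr hG ?_
  filter_upwards [fullW hP hJ hM hS] with Q hQ h1 h2 hd
  have h0 : 0 < Q := hG0.trans_lt h1
  refine hQ h0 h2 ?_ hd
  rw [Lv_eq le_rfl zero_le_one h0.le h2.le]
  refine lt_of_lt_of_le hw (le_csInf ⟨1, one_mem zero_le_one⟩ ?_)
  rintro a ⟨a1, a2, a3⟩
  by_contra hc
  push Not at hc
  rcases a3 with a3 | a3
  · rw [sub_zero] at a3
    have := hP.mono a1 le_rfl hc.le hc.le le_rfl hw1
    linarith
  · linarith

end Pool.STR
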