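import Pool.Agent.H39.GEN.Cnum

/-!
# Thin and fat thresholds: thin near the window, or steep

`P` is the threshold over the fat boxes, `PN` the one over the thin boxes, `P ≤ PN`; a gain of `PN`
at one small depth makes `P` `K`-steep at the window (`DPS`).

`thin_or_steep`: at almost every window either `PN a w ≤ P w w + (a - w) + o (r)` on the whole box
of size `8 r` (`ThinAt`), or `P` is `K`-steep there (`SteepAt`). So, if `P` is the threshold of the
fattest boxes up to a small multiple of `r`, then `PN` is the same number up to `o (r)`: `dfT` is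
the defect of this statement, which is `o (r)` at almost every window (`dfT_ae`, `dfT_use`).

`lam_ae`: the thin threshold is affine at almost every window: the slope of `PN a w - P w w` in
`a - w` is one, or it is the slope of the diagonal (if this slope is at most `K`).
-/

set_option autoImplicit false

namespace Pool.STR

open MeasureTheory Set Filter Topology
open Pool.LEV (Law)
open Pool.QNT (diff_ae dens_pt affB_of)

/-- The thin threshold is the number of the fattest boxes near the window, up to `o (r)`. -/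
def ThinAt (PN P : ℝ → ℝ → ℝ) (g : ℝ) : Prop :=
  ∀ e : ℝ, 0 < e → ∃ r₀ : ℝ, 0 < r₀ ∧ ∀ r : ℝ, 0 < r → r < r₀ → ∀ a w : ℝ, g - 8 * r ≤ w →
    w ≤ a → a ≤ g + 8 * r → PN a w ≤ P w w + (a - w) + e * r

/-- The threshold is `K`-steep near the window, up to `o (r)`. -/
def SteepAt (K : ℝ) (P : ℝ → ℝ → ℝ) (g : ℝ) : Prop :=
  ∀ e : ℝ, 0 < e → ∃ r₀ : ℝ, 0 < r₀ ∧ ∀ r : ℝ, 0 < r → r < r₀ → ∀ a w : ℝ, g - 8 * r ≤ w →
    w ≤ a → a ≤ g + 8 * r → P w w + K * (a - w) ≤ P a w + e * r

/-- The threshold has the slope `l` in the depth near the window, up to `o (r)`. -/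
def LamAt (P : ℝ → ℝ → ℝ) (g l : ℝ) : Prop :=
  ∀ e : ℝ, 0 < e → ∃ r₀ : ℝ, 0 < r₀ ∧ ∀ r : ℝ, 0 < r → r < r₀ → ∀ a w : ℝ, g - 8 * r ≤ w →
    w ≤ a → a ≤ g + 8 * r → |P a w - P w w - l * (a - w)| ≤ e * r

variable {P PN : ℝ → ℝ → ℝ}

/-- No gain over the thin boxes up to the depth `x₀`. -/
def ThE (PN P : ℝ → ℝ → ℝ) (x₀ w : ℝ) : Prop :=
  ∀ x : ℝ, 0 < x → x ≤ x₀ → PN (w + x) w ≤ P w w + x

/-- **Thin on the whole box**, at the points of density. -/
theorem thin_box (hN : Law PN) {g : ℝ} (hg0 : 0 < g) (hg1 : g < 1)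
    (hd : DifferentiableAt ℝ (fun a => P a a) g) {q₀ : ℝ} (hq₀ : 0 < q₀) {W : Set ℝ}
    (hE : ∀ w ∈ W, w + q₀ ≤ 1 ∧ ThE PN P q₀ w)
    (hW : Tendsto (fun r => volume (W ∩ Metric.closedBall g r) / volume (Metric.closedBall g r))
      (𝓝[>] 0) (𝓝 1)) : ThinAt PN P g := by
  intro e he
  obtain ⟨S, hS⟩ : ∃ S, S = |deriv (fun a => P a a) g| := ⟨_, rfl⟩
  have hS0 : 0 ≤ S := by rw [hS]; exact abs_nonneg _
  obtain ⟨r₁, hr₁, h1⟩ := affB_of hd (M := 16) (e := e / 4) (by norm_num) (by linarith)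
  obtain ⟨η, hη⟩ : ∃ η, η = min (1 / 16) (e / (64 * (S + 1))) := ⟨_, rfl⟩
  have hη0 : 0 < η := by rw [hη]; exact lt_min (by norm_num) (by positivity)
  have hη1 : η ≤ 1 / 16 := by rw [hη]; exact min_le_left _ _
  have hη2 : (S + 1) * (16 * η) ≤ e / 4 := by
    have h3 : η ≤ e / (64 * (S + 1)) := by rw [hη]; exact min_le_right _ _
    rw [le_div_iff₀ (by positivity)] at h3
    nlinarith
  obtain ⟨t₀, ht₀, h2⟩ := dens_pt hW hη0 (by linarith)
  refine ⟨min (min r₁ (t₀ / 16)) (min (min (g / 32) ((1 - g) / 32)) (q₀ / 32)),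
    lt_min (lt_min hr₁ (by linarith)) (lt_min (lt_min (by linarith) (by linarith)) (by linarith)),
    fun r hr hr' a w hw hwa ha => ?_⟩
  have m1 : r < r₁ := (hr'.trans_le (min_le_left _ _)).trans_le (min_le_left _ _)
  have m2 : r < t₀ / 16 := (hr'.trans_le (min_le_left _ _)).trans_le (min_le_right _ _)
  have m5 := hr'.trans_le (min_le_right _ _)
  have m3 : r < g / 32 := (m5.trans_le (min_le_left _ _)).trans_le (min_le_left _ _)
  have m4 : r < (1 - g) / 32 := (m5.trans_le (min_le_left _ _)).trans_le (min_le_right _ _)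
  have m6 : r < q₀ / 32 := m5.trans_le (min_le_right _ _)
  obtain ⟨u, hu⟩ : ∃ u, u = η * (16 * r) := ⟨_, rfl⟩
  have hηr : u ≤ r := by rw [hu]; nlinarith
  have hηr0 : 0 < u := by rw [hu]; positivity
  have hSu : (S + 1) * u ≤ e / 4 * r := by
    calc (S + 1) * u = (S + 1) * (16 * η) * r := by rw [hu]; ring
      _ ≤ e / 4 * r := mul_le_mul_of_nonneg_right hη2 hr.le
  have hwg : |w + u - g| ≤ 16 * r := by
    rw [abs_le]
    constructor <;> linarith
  obtain ⟨w', hw', l1, l2⟩ := h2 (16 * r) (by linarith) (by linarith) (w + u) hwg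
  rw [← hu, add_sub_cancel_right] at l1
  obtain ⟨e1, e2⟩ := hE w' hw'
  have k1 := e2 (a - w + u) (by linarith) (by linarith)
  have k2 := hN.mono (a := a) (a' := w' + (a - w + u)) (w := w) (w' := w') (by linarith) hwa
    (by linarith) l1 (by linarith) (by linarith)
  have k3 : P w' w' - P w w ≤ e / 4 * r + e / 4 * r + S * u := by
    have j1 := abs_le.1 (h1 r hr m1 w (by
      rw [abs_le]
      constructor <;> linarith))
    have j2 := abs_le.1 (h1 r hr m1 w' (by
      rw [abs_le]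
      constructor <;> linarith))
    have j3 : |deriv (fun a => P a a) g * (w' - w)| ≤ S * u := by
      rw [abs_mul, ← hS, abs_of_nonneg (show 0 ≤ w' - w by linarith)]
      exact mul_le_mul_of_nonneg_left (by linarith) hS0
    have j4 := abs_le.1 j3
    linarith [j1.1, j1.2, j2.1, j2.2, j4.1, j4.2]
  have her : 0 < e * r := mul_pos he hr
  linarith

/-- **Thin near the window, or steep**, at almost every window. -/
theorem thin_or_steep (hP : Law P) (hN : Law PN) {K : ℝ} {G : Set ℝ}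
    (hG : ∀ᵐ w : ℝ, w ∈ G → 0 < w → w < 1 → P w w < 1 → DPS K PN P w) :
    ∀ᵐ g : ℝ, g ∈ G → 0 < g → g < 1 → P g g < 1 → ThinAt PN P g ∨ SteepAt K P g := by
  obtain ⟨W, hW⟩ : ∃ W : ℕ → Set ℝ, W = fun (p : ℕ) => {w | w + 1 / ((p : ℝ) + 1) ≤ 1 ∧
      ThE PN P (1 / ((p : ℝ) + 1)) w} := ⟨_, rfl⟩
  have hmono : ∀ x y : ℝ, 0 ≤ x → x ≤ y → y ≤ 1 → P x x ≤ P y y := fun x y h0 h1 h2 =>
    hP.mono h0 le_rfl h1 h1 le_rfl h2
  have hall : ∀ᵐ g : ℝ, ∀ p : ℕ, g ∈ W p → Tendsto
      (fun r => volume (W p ∩ Metric.closedBall g r) / volume (Metric.closedBall g r))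
      (𝓝[>] 0) (𝓝 1) := by
    rw [ae_all_iff]
    exact fun p => ae_imp_of_ae_restrict (Besicovitch.ae_tendsto_measure_inter_div volume (W p))
  filter_upwards [diff_ae hmono, hall, hG, steep_ae hP K] with g hg1 hg2 hg3 hg4 hgG h0 h1 h2
  have hd := hg1 h0 h1
  obtain ⟨m, hm, hm'⟩ := hg3 hgG h0 h1 h2
  by_cases hex : ∃ q : ℝ, 0 < q ∧ q < m ∧ g + q ≤ 1 ∧ P g g + q < PN (g + q) g
  · obtain ⟨q, q1, q2, q3, q4⟩ := hex
    exact Or.inr (hg4 h0 h1 (hm' q q1 q2 q3 q4)).2.1
  push Not at hex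
  left
  obtain ⟨j, hj⟩ := exists_nat_one_div_lt (lt_min hm (show (0 : ℝ) < 1 - g by linarith))
  have hj1 := hj.trans_le (min_le_left _ _)
  have hj2 := hj.trans_le (min_le_right _ _)
  have hq0 : (0 : ℝ) < 1 / ((j : ℝ) + 1) := by positivity
  have hgW : g ∈ W j := by
    rw [hW]
    exact ⟨by linarith, fun x a1 a2 => hex x a1 (by linarith) (by linarith)⟩
  exact thin_box hN h0 h1 hd hq0 (W := W j) (fun w hw => by
      rw [hW] at hw
      exact hw) (hg2 j hgW)

/-- **The thin threshold is affine** at almost every window. -/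
theorem lam_ae (hP : Law P) (hN : Law PN) {K : ℝ} {G : Set ℝ}
    (hle : ∀ a w : ℝ, 0 ≤ w → w ≤ a → a ≤ 1 → P a w ≤ PN a w)
    (hdia : ∀ a : ℝ, 0 ≤ a → a ≤ 1 → PN a a = P a a)
    (hG : ∀ᵐ w : ℝ, w ∈ G → 0 < w → w < 1 → P w w < 1 → DPS K PN P w) :
    ∀ᵐ g : ℝ, g ∈ G → 0 < g → g < 1 → P g g < 1 → deriv (fun a => P a a) g ≤ K →
      LamAt PN g 1 ∨ (LamAt PN g (deriv (fun a => P a a) g) ∧ StaAt PN g ∧ StaAt P g) := by
  have hmono : ∀ x y : ℝ, 0 ≤ x → x ≤ y → y ≤ 1 → P x x ≤ P y y := fun x y h0 h1 h2 =>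
    hP.mono h0 le_rfl h1 h1 le_rfl h2
  filter_upwards [thin_or_steep hP hN hG, diff_ae hmono] with g k1 k2 hgG h0 h1 h2 hK
  have hd := k2 h0 h1
  have hcont : ContinuousAt (fun a => P a a) g := hd.continuousAt
  obtain ⟨ρ₀, hρ₀, hρ⟩ : ∃ ρ₀ : ℝ, 0 < ρ₀ ∧ ∀ x : ℝ, |x - g| < ρ₀ → P x x < (1 + P g g) / 2 := by
    have h3 : ∀ᶠ x in 𝓝 g, P x x < (1 + P g g) / 2 :=
      hcont.eventually (gt_mem_nhds (by show P g g < _; linarith))
    obtain ⟨ρ₀, hρ₀, h4⟩ := Metric.eventually_nhds_iff.1 h3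
    exact ⟨ρ₀, hρ₀, fun x hx => h4 (by rw [Real.dist_eq]; exact hx)⟩
  rcases k1 hgG h0 h1 h2 with hT | hS
  · left
    intro e he
    obtain ⟨r₀, hr₀, h3⟩ := hT e he
    refine ⟨min (min r₀ (ρ₀ / 16)) (min (min (g / 16) ((1 - g) / 16)) ((1 - P g g) / 64)),
      lt_min (lt_min hr₀ (by linarith)) (lt_min (lt_min (by linarith) (by linarith))
        (by linarith)), fun r hr hr' a w hw hwa ha => ?_⟩
    have m1 : r < r₀ := (hr'.trans_le (min_le_left _ _)).trans_le (min_le_left _ _)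
    have m2 : r < ρ₀ / 16 := (hr'.trans_le (min_le_left _ _)).trans_le (min_le_right _ _)
    have m5 := hr'.trans_le (min_le_right _ _)
    have m3 : r < g / 16 := (m5.trans_le (min_le_left _ _)).trans_le (min_le_left _ _)
    have m4 : r < (1 - g) / 16 := (m5.trans_le (min_le_left _ _)).trans_le (min_le_right _ _)
    have m6 : r < (1 - P g g) / 64 := m5.trans_le (min_le_right _ _)
    have j1 := h3 r hr m1 a w hw hwa ha
    have j2 := hN.slope w w (a - w) (by linarith) le_rfl (by linarith) (by linarith)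
    rw [add_sub_cancel] at j2
    have j3 := hdia w (by linarith) (by linarith)
    have j4 := hρ w (by
      rw [abs_lt]
      constructor <;> linarith)
    rw [min_eq_right (by linarith)] at j2
    have her : 0 < e * r := mul_pos he hr
    rw [abs_le]
    constructor <;> linarith
  · right
    have hsta : StaAt P g := sta_of_steep hd hK hS
    have hstN : StaAt PN g := by
      intro e he
      obtain ⟨r₀, hr₀, h3⟩ := hsta e he
      refine ⟨min r₀ (min (g / 16) ((1 - g) / 16)), lt_min hr₀ (lt_min (by linarith)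
        (by linarith)), fun r hr hr' a w hw hwa ha => ?_⟩
      have m5 := hr'.trans_le (min_le_right _ _)
      have m3 : r < g / 16 := m5.trans_le (min_le_left _ _)
      have m4 : r < (1 - g) / 16 := m5.trans_le (min_le_right _ _)
      have j1 := h3 r hr (hr'.trans_le (min_le_left _ _)) a w hw hwa ha
      have j2 := hdia a (by linarith) (by linarith)
      have j3 := hle a w (by linarith) hwa (by linarith)
      linarith
    refine ⟨?_, hstN, hsta⟩
    intro e he
    obtain ⟨r₀, hr₀, h3⟩ := hstN (e / 4) (by linarith)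
    obtain ⟨r₁, hr₁, h4⟩ := affB_of hd (M := 8) (e := e / 4) (by norm_num) (by linarith)
    refine ⟨min (min r₀ r₁) (min (g / 16) ((1 - g) / 16)), lt_min (lt_min hr₀ hr₁)
      (lt_min (by linarith) (by linarith)), fun r hr hr' a w hw hwa ha => ?_⟩
    have m1 : r < r₀ := (hr'.trans_le (min_le_left _ _)).trans_le (min_le_left _ _)
    have m2 : r < r₁ := (hr'.trans_le (min_le_left _ _)).trans_le (min_le_right _ _)
    have m5 := hr'.trans_le (min_le_right _ _)
    have m3 : r < g / 16 := m5.trans_le (min_le_left _ _)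
    have m4 : r < (1 - g) / 16 := m5.trans_le (min_le_right _ _)
    have j1 := h3 r hr m1 a w hw hwa ha
    have j2 := hN.mono_w a w a (by linarith) hwa le_rfl (by linarith)
    have j3 := hdia a (by linarith) (by linarith)
    have j4 := hdia w (by linarith) (by linarith)
    have j5 := abs_le.1 (h4 r hr m2 w (by
      rw [abs_le]
      constructor <;> linarith))
    have j6 := abs_le.1 (h4 r hr m2 a (by
      rw [abs_le]
      constructor <;> linarith))
    have j7 : deriv (fun a => P a a) g * (a - w) =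
        deriv (fun a => P a a) g * (a - g) - deriv (fun a => P a a) g * (w - g) := by ring
    have her : 0 < e * r := mul_pos he hr
    rw [abs_le]
    constructor <;> linarith [j5.1, j5.2, j6.1, j6.2]

/-- `d` is a defect of the thin threshold on the box of size `7 r`. -/
def ThB (PN P : ℝ → ℝ → ℝ) (g r d : ℝ) : Prop :=
  0 ≤ d ∧ ∀ a w : ℝ, g - 7 * r ≤ w → w ≤ a → a ≤ g + 7 * r → PN a w ≤ P w w + (a - w) + d

/-- The fat threshold is near the number of the fattest boxes, on the box of size `7 r`. -/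
def NIs (P : ℝ → ℝ → ℝ) (g r : ℝ) : Prop :=
  ∀ a w : ℝ, g - 7 * r ≤ w → w ≤ a → a ≤ g + 7 * r → P a w ≤ P w w + (a - w) + r

open Classical in
/-- **The defect of the thin threshold**, where the fat threshold is near the fattest boxes. -/
noncomputable def dfT (PN P : ℝ → ℝ → ℝ) (g r : ℝ) : ℝ :=
  if NIs P g r then (if ∃ d, ThB PN P g r d then sInf {d | ThB PN P g r d} else r) else 0

/-- **The defect is `o (r)`** at almost every window. -/
theorem dfT_ae (hP : Law P) (hN : Law PN) {K : ℝ} (hK : 2 ≤ K) {G : Set ℝ}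
    (hG : ∀ᵐ w : ℝ, w ∈ G → 0 < w → w < 1 → P w w < 1 → DPS K PN P w) :
    ∀ᵐ g : ℝ, g ∈ G → 0 < g → g < 1 → P g g < 1 → ∀ e : ℝ, 0 < e → ∃ r₀ : ℝ, 0 < r₀ ∧
      ∀ r : ℝ, 0 < r → r < r₀ → dfT PN P g r ≤ e * r := by
  filter_upwards [thin_or_steep hP hN hG] with g k1 hgG h0 h1 h2 e he
  rcases k1 hgG h0 h1 h2 with hT | hS
  · obtain ⟨r₀, hr₀, h3⟩ := hT e he
    refine ⟨r₀, hr₀, fun r hr hr' => ?_⟩
    have her : 0 < e * r := mul_pos he hr
    have h4 : ThB PN P g r (e * r) := ⟨her.le, fun a w b1 b2 b3 =>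
      h3 r hr hr' a w (by linarith) b2 (by linarith)⟩
    unfold dfT
    split_ifs with c1 c2
    · exact csInf_le ⟨0, fun d hd => hd.1⟩ h4
    · exact absurd ⟨_, h4⟩ c2
    · exact her.le
  · obtain ⟨r₀, hr₀, h3⟩ := hS 1 one_pos
    refine ⟨r₀, hr₀, fun r hr hr' => ?_⟩
    have her : 0 < e * r := mul_pos he hr
    have h4 : ¬ NIs P g r := fun h => by
      have j1 := h (g + 7 * r) (g - 7 * r) le_rfl (by linarith) le_rfl
      have j2 := h3 r hr hr' (g + 7 * r) (g - 7 * r) (by linarith) (by linarith) (by linarith)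
      have j3 : 2 * (g + 7 * r - (g - 7 * r)) ≤ K * (g + 7 * r - (g - 7 * r)) :=
        mul_le_mul_of_nonneg_right hK (by linarith)
      linarith
    unfold dfT
    rw [if_neg h4]
    exact her.le

/-- **The use of the defect.** -/
theorem dfT_use {g r d : ℝ} (h : dfT PN P g r ≤ d) (hr : d < r) (hI : NIs P g r)
    {a w : ℝ} (hw : g - 7 * r ≤ w) (hwa : w ≤ a) (ha : a ≤ g + 7 * r) :
    PN a w ≤ P w w + (a - w) + d := by
  unfold dfT at h
  rw [if_pos hI] at h
  split_ifs at h with c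
  · refine le_of_forall_pos_le_add fun ε hε => ?_
    obtain ⟨d', hd', hlt⟩ := exists_lt_of_csInf_lt c (lt_of_le_of_lt h (show d < d + ε by linarith))
    have := hd'.2 a w hw hwa ha
    linarith
  · linarith

end Pool.STR
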