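import Pool.Agent.H39.GEN.DichT
import Pool.Agent.H77.STAT.TopI

/-!
# The micro statement and the static statement from the dichotomy

The data `CellD` of charts and orders. `CellD.dich`: if for every order the threshold of the target
over the order is iso or static at almost every window of the order, then it is enough to exclude
the cells at the iso windows: at the static windows there are no cells, and there are no front cells
at all. At the iso windows all numbers are affine on the whole box, and the threshold of the target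
is `Q + (a - g) + (S - 1) (w - g)` there (`AdS`).

`NoJS`: the form with joint cells. `NoBS`: the form with boxes, the slope `S` of the target is
larger than one and the rows are not full.

`dich_full`: the charts and orders of `Pool.STR.CellD.FullI`, with the same strategy.
-/

set_option autoImplicit false

namespace Pool.STR

open MeasureTheory Set Filter Topology Pool.LEV

theorem StaD.mono {P : ℝ → ℝ → ℝ} {g r d d' : ℝ} (hd : d ≤ d') (h : StaD P g r d) :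
    StaD P g r d' := fun a w h1 h2 h3 => (h a w h1 h2 h3).trans (by linarith)

theorem IsoE.mono {P : ℝ → ℝ → ℝ} {g r d d' : ℝ} (hd : d ≤ d') (h : IsoE P g r d) :
    IsoE P g r d' := by
  obtain ⟨S, h⟩ := h
  exact ⟨S, fun a w h1 h2 h3 => (h a w h1 h2 h3).trans hd⟩

namespace CellD

variable {P : ℝ → ℝ → ℝ} {ρ : ℝ → ℝ} (E : CellD P ρ)

/-- **The properties of the selected charts at an iso window**, with the error `e r` on the box;
`S` is the slope of the target. -/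
structure AdS (c e : ℝ) (k : E.α × E.O) (Q g r S : ℝ) : Prop where
  ade : E.AdE c e k Q g r
  val : P g g = Q
  S1 : 1 ≤ S
  cS : c * S ≤ 1
  dgP : AffB (fun w => P w w) Q S g (8 * r) (e * r)
  dgB : AffB (fun w => E.PB k w w) Q S g (7 * r) (e * r)
  iso : ∀ a w : ℝ, g - 7 * r ≤ w → w ≤ a → a ≤ g + 7 * r →
    |E.PB k a w - Q - (a - g) - (S - 1) * (w - g)| ≤ e * r

/-- The properties; the chart, the order and the error. -/
def AdS2 (c : ℝ) (k : (E.α × E.O) × ℝ) (Q g r : ℝ) : Prop := ∃ S : ℝ, E.AdS c k.2 k.1 Q g r S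

/-- **No joint cells at the iso windows.** -/
def NoJS : Prop := NoJB2 ρ E.PB2 E.R2 E.AdS2 E.df2

/-- **No boxes at the iso windows** with a slope larger than one and nonfull rows. -/
def NoBS : Prop :=
  ∀ c β h : ℝ, 0 < c → 0 < β → 0 < h → ∃ ε : ℝ, 0 < ε ∧ ε ≤ 1 ∧ ∃ M : ℝ, 0 < M ∧
    ∀ (k : E.α × E.O) (Q g r S : ℝ), 0 < r → 8 * r < g → 8 * r < 1 - g →
      8 * r < Q → 8 * r < 1 - Q → r ≤ ε → E.AdS c ε k Q g r S → 1 + β ≤ S →
      NfB ρ h (ε * r) (Q - M * r) (Q + M * r) → E.dfr k g r ≤ ε * r → False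

/-- The exact facts on an order at a row. -/
structure OrF (c Q g : ℝ) (o : E.O) : Prop where
  val : P g g = Q
  S1 : 1 ≤ deriv (fun a => P a a) g
  cS : c * deriv (fun a => P a a) g ≤ 1
  S0j : ∀ j, 0 ≤ deriv (E.D o j) g
  cSj : ∀ j, c * deriv (E.D o j) g ≤ 1
  lv : ∀ x, Lv (E.PB (x, o)) (Q, 0) = g

/-- The facts on the box, with the error `d`. -/
structure BxF (g r : ℝ) (k : E.α × E.O) (d : ℝ) : Prop where
  dgP : AffB (fun w => P w w) (P g g) (deriv (fun a => P a a) g) g (8 * r) d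
  dgB : AffB (fun w => E.PB k w w) (P g g) (deriv (fun a => P a a) g) g (7 * r) d
  dj : ∀ j, AffB (E.D k.2 j) (E.D k.2 j g) (deriv (E.D k.2 j) g) g (8 * r) d

theorem BxF.mono {E : CellD P ρ} {g r d d' : ℝ} {k : E.α × E.O} (h : E.BxF g r k d)
    (hd : d ≤ d') : E.BxF g r k d' :=
  ⟨fun w hw => (h.dgP w hw).trans hd, fun w hw => (h.dgB w hw).trans hd,
    fun j w hw => (h.dj j w hw).trans hd⟩

/-- **All orders at a row.** -/
theorem ordE (hP : Law P) : ∃ N' : Set ℝ, volume N' = 0 ∧ E.N ⊆ N' ∧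
      ∀ Q : ℝ, RowD P ρ N'ᶜ Q → ∀ o, Lv P (Q, 0) ∈ E.G o →
        ∃ c : ℝ, 0 < c ∧ E.OrF c Q (Lv P (Q, 0)) o ∧
          (∀ c' : ℝ, 0 < c' → c' ≤ c → ∃ r₀ : ℝ, 0 < r₀ ∧ ∀ r : ℝ, 0 < r → r < r₀ → ∀ x,
            SlpL (fun w => E.PB (x, o) w w) c' (Lv P (Q, 0)) r) ∧
          ∀ e : ℝ, 0 < e → ∃ r₀ : ℝ, 0 < r₀ ∧ ∀ r : ℝ, 0 < r → r < r₀ → ∀ x,
            E.BxF (Lv P (Q, 0)) r (x, o) (e * r) := by
  obtain ⟨α, O, J, cα, cO, fJ, m, PB, be, D, f, G, Ad', df, N, hPB, hle, hbe, hdia, hDm, hD0, hD1,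
    hG, hPG, hN, hch⟩ := E
  classical
  obtain ⟨B, hB⟩ : ∃ B : α × O → ℝ → ℝ, B = fun k a => PB k (cl a) (cl a) := ⟨_, rfl⟩
  have hBm : ∀ k, Monotone (B k) := by
    intro k x y hxy
    rw [hB]
    exact (hPB k).mono (cl_nonneg _) le_rfl (cl_mono hxy) (cl_mono hxy) le_rfl (cl_le_one _)
  obtain ⟨W, hW⟩ : ∃ W : O → Set ℝ, W = fun o =>
    {a | a ∈ G o ∧ 0 < a ∧ a < 1 ∧ ∀ x, ContinuousAt (B (x, o)) a} := ⟨_, rfl⟩
  have hWd : ∀ x o, ∀ a ∈ W o, P a a ≤ PB (x, o) a a := by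
    intro x o a ha
    rw [hW] at ha
    obtain ⟨h1, h2, h3, h4⟩ := ha
    have h5 : Tendsto (B (x, o)) (𝓝[>] a) (𝓝 (B (x, o) a)) := (h4 x).tendsto.mono_left
      nhdsWithin_le_nhds
    have h6 : ∀ᶠ y in 𝓝[>] a, P a a ≤ B (x, o) y := by
      filter_upwards [Ioo_mem_nhdsGT h3] with y hy
      rw [hB]
      simp only
      rw [cl_of_mem (by linarith [hy.1]) hy.2.le]
      exact hPG x o a h1 h2 h3 y hy.1 hy.2.le
    have h7 := ge_of_tendsto h5 h6
    rw [hB] at h7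
    simp only at h7
    rwa [cl_of_mem h2.le h3.le] at h7
  have hDgC : ∀ x o, DgC P (W o) (fun a => PB (x, o) a a) := fun x o =>
    ⟨fun u v h0 h1 h2 => (hPB (x, o)).mono h0 le_rfl h1 h1 le_rfl h2,
      fun u h0 h1 => hle (x, o) u u h0 le_rfl h1, fun u hu => hWd x o u hu⟩
  -- the windows without exceptions
  have hDc : ∀ o j, Monotone fun a => D o j (cl a) := fun o j x y hxy =>
    hDm o j _ _ (cl_nonneg _) (cl_mono hxy) (cl_le_one _)
  have hfa : ∀ᵐ g : ℝ, (∀ o, g ∈ W o → Tendsto (fun r => volume (W o ∩ Metric.closedBall g r) /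
        volume (Metric.closedBall g r)) (𝓝[>] 0) (𝓝 1)) ∧
      (∀ k, ContinuousAt (B k) g) ∧ (∀ p : O × J, 0 < g → g < 1 → DifferentiableAt ℝ (D p.1 p.2) g) ∧
      (0 < g → g < 1 → DifferentiableAt ℝ (fun a => P a a) g) := by
    have h1 := ae_all_iff.2 fun o : O =>
      ae_imp_of_ae_restrict (Besicovitch.ae_tendsto_measure_inter_div volume (W o))
    have h2 : ∀ᵐ g : ℝ, ∀ k, ContinuousAt (B k) g := ae_all_iff.2 fun k => by
      filter_upwards [(hBm k).ae_differentiableAt] with g hg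
      exact hg.continuousAt
    have h3 : ∀ᵐ g : ℝ, ∀ p : O × J, 0 < g → g < 1 → DifferentiableAt ℝ (D p.1 p.2) g :=
      ae_all_iff.2 fun p => by
        filter_upwards [(hDc p.1 p.2).ae_differentiableAt] with g hg h0 h1
        refine hg.congr_of_eventuallyEq ?_
        filter_upwards [Ioo_mem_nhds h0 h1] with x hx
        rw [cl_of_mem hx.1.le hx.2.le]
    filter_upwards [h1, h2, h3, diag_aeC hP] with g k2 k3 k4 k5
    exact ⟨k2, k3, k4, k5⟩
  obtain ⟨N', hN'⟩ : ∃ N' : Set ℝ, N' = N ∪ {g : ℝ | ¬ (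
      (∀ o, g ∈ W o → Tendsto (fun r => volume (W o ∩ Metric.closedBall g r) /
        volume (Metric.closedBall g r)) (𝓝[>] 0) (𝓝 1)) ∧
      (∀ k, ContinuousAt (B k) g) ∧ (∀ p : O × J, 0 < g → g < 1 → DifferentiableAt ℝ (D p.1 p.2) g) ∧
      (0 < g → g < 1 → DifferentiableAt ℝ (fun a => P a a) g))} := ⟨_, rfl⟩
  have hN'0 : volume N' = 0 := by
    rw [hN']
    exact measure_union_null hN (ae_iff.1 hfa)
  refine ⟨N', hN'0, by rw [hN']; exact subset_union_left, fun Q hrow o ho => ?_⟩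
  have hmem := hrow.mem
  rw [hN'] at hmem
  simp only [compl_union, mem_inter_iff, mem_compl_iff, mem_ofPred_eq, not_not] at hmem
  obtain ⟨hgN, f2, f3, f4, f5⟩ := hmem
  have hg0 := hrow.g0
  have hg1 := hrow.g1
  obtain ⟨g, hg⟩ : ∃ g, g = Lv P (Q, 0) := ⟨_, rfl⟩
  obtain ⟨Cd, hCd, rd, hrd, hbd⟩ := diag_bdB hP hrow.Q0 hrow.Q1 hg (by rw [hg]; exact hg0)
    (by rw [hg]; exact hg1) hrow.dif hrow.dpos
  rw [← hg] at hg0 hg1 f2 f3 f4 f5 ho ⊢
  -- the value on the diagonal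
  have hPg : P g g = Q := by
    have h1 : |P g g - Q| ≤ 0 := by
      refine le_of_forall_pos_le_add fun d hd => ?_
      obtain ⟨r, hr⟩ : ∃ r, r = min (rd / 2) (d / Cd) := ⟨_, rfl⟩
      have hr0 : 0 < r := by rw [hr]; exact lt_min (by linarith) (by positivity)
      have hr1 : r < rd := by
        have : r ≤ rd / 2 := by rw [hr]; exact min_le_left _ _
        linarith
      have hr2 : r ≤ d / Cd := by rw [hr]; exact min_le_right _ _
      rw [le_div_iff₀ hCd] at hr2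
      have := hbd r hr0 hr1 g (by rw [sub_self, abs_zero]; exact hr0.le)
      linarith
    have h2 := abs_nonneg (P g g - Q)
    have h3 := abs_eq_zero.1 (le_antisymm h1 h2)
    linarith
  obtain ⟨S, hS⟩ : ∃ S, S = deriv (fun a => P a a) g := ⟨_, rfl⟩
  have hdif := f5 hg0 hg1
  have hS1 : 1 ≤ S := by
    by_contra hc
    push Not at hc
    obtain ⟨r₁, hr₁, h1⟩ := affB_of hdif (M := 1) (e := (1 - S) / 2) one_pos (by linarith)
    obtain ⟨r, hr⟩ : ∃ r, r = min (r₁ / 2) (min (1 - g) (1 - Q)) := ⟨_, rfl⟩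
    have hQ1 := hrow.Q1
    have hr0 : 0 < r := by
      rw [hr]
      exact lt_min (by linarith) (lt_min (by linarith) (by linarith))
    have hr1 : r < r₁ := by
      have : r ≤ r₁ / 2 := by rw [hr]; exact min_le_left _ _
      linarith
    have hr2 : r ≤ 1 - g := by rw [hr]; exact (min_le_right _ _).trans (min_le_left _ _)
    have hr3 : r ≤ 1 - Q := by rw [hr]; exact (min_le_right _ _).trans (min_le_right _ _)
    have h2 := (abs_le.1 (h1 r hr0 hr1 (g + r) (by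
      rw [add_sub_cancel_left, abs_of_pos hr0, one_mul]))).2
    rw [← hS, add_sub_cancel_left, hPg] at h2
    have h3 := hP.slope g g r hg0.le le_rfl hr0.le (by linarith)
    rw [hPg, min_eq_right (by linarith)] at h3
    have h4 := hP.mono_w (g + r) g (g + r) hg0.le (by linarith) le_rfl (by linarith)
    have h5 : (1 - S) / 2 * r = r / 2 - S * r / 2 := by ring
    have h6 : S * r < 1 * r := mul_lt_mul_of_pos_right hc hr0
    linarith
  have hS0 : 0 ≤ S := by linarith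
  have hWo : g ∈ W o := by
    rw [hW]
    exact ⟨ho, hg0, hg1, fun x => f3 (x, o)⟩
  have hdens := f2 o hWo
  obtain ⟨cB, hcB, rB, hrB, hsB⟩ := dgC_slp hg0 hg1 hWo hdif hPg hS hS0 hdens
  have hSD0 : ∀ j, 0 ≤ deriv (D o j) g := fun j =>
    deriv_nn_of (t := 1 - g) (by linarith) (f4 (o, j) hg0 hg1)
      (fun x h0 h1 => hDm o j g x hg0.le h0 (by linarith))
  obtain ⟨cD', hcD'⟩ : ∃ cD' : J → ℝ, cD' = fun j => 1 / (deriv (D o j) g + 1) := ⟨_, rfl⟩
  have hcD'0 : ∀ j, 0 < cD' j := fun j => by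
    rw [hcD']
    have := hSD0 j
    positivity
  have hfin : (Set.range fun j : Option J => j.elim 1 cD').Finite := Set.finite_range _
  have hinf0 : 0 < ⨅ j : Option J, j.elim 1 cD' := by
    obtain ⟨j, hj⟩ := exists_eq_ciInf_of_finite (f := fun j : Option J => j.elim 1 cD')
    rw [← hj]
    cases j with
    | none => exact one_pos
    | some j => exact hcD'0 j
  have hinf : ∀ j : J, (⨅ j : Option J, j.elim 1 cD') ≤ cD' j := fun j =>
    ciInf_le hfin.bddBelow (some j)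
  have hSp : 0 < S := by linarith
  obtain ⟨c, hcdef⟩ : ∃ c, c = min (min cB (1 / S)) (⨅ j : Option J, j.elim 1 cD') := ⟨_, rfl⟩
  have hc0 : 0 < c := by
    rw [hcdef]
    exact lt_min (lt_min hcB (by positivity)) hinf0
  have ccB : c ≤ cB := by rw [hcdef]; exact (min_le_left _ _).trans (min_le_left _ _)
  have ccS : c * S ≤ 1 := by
    have : c ≤ 1 / S := by rw [hcdef]; exact (min_le_left _ _).trans (min_le_right _ _)
    rwa [le_div_iff₀ hSp] at this
  have cc5 : ∀ j, c * deriv (D o j) g ≤ 1 := fun j => by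
    have h1 : c ≤ 1 / (deriv (D o j) g + 1) := by
      rw [hcdef]
      exact (min_le_right _ _).trans ((hinf j).trans (by rw [hcD']))
    have h2 := hSD0 j
    rw [le_div_iff₀ (by linarith)] at h1
    linarith
  refine ⟨c, hc0, ⟨hPg, by rw [← hS]; exact hS1, by rw [← hS]; exact ccS, hSD0, cc5, fun x => ?_⟩,
    fun c' hc'0 hc' => ⟨rB, hrB, fun r hr hr' x => hsB r hr hr' c' hc'0 (hc'.trans ccB) _
      (hDgC x o)⟩, fun e he => ?_⟩
  · -- the level of the row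
    show Lv (PB (x, o)) (Q, 0) = g
    refine le_antisymm ?_ ?_
    · refine lev_le (P := PB (x, o)) (Q := cl Q) (q := cl 0) ⟨?_, hg1.le, Or.inl ?_⟩
      · rw [cl_of_mem le_rfl zero_le_one]
        exact hg0.le
      · rw [cl_of_mem le_rfl zero_le_one, sub_zero, cl_of_mem hrow.Q0.le hrow.Q1.le, ← hPg]
        exact hWd x o g hWo
    · rw [hg]
      exact lv_anti (hPB (x, o)) (hle (x, o)) (Q, 0)
  · obtain ⟨r₄, hr₄, hAf⟩ := dgC_aff hg0 hg1 hdif hPg hS hS0 hdens he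
    obtain ⟨r₅, hr₅, hDf⟩ : ∃ r₅ : ℝ, 0 < r₅ ∧ ∀ r : ℝ, 0 < r → r < r₅ → ∀ j,
        AffB (D o j) (D o j g) (deriv (D o j) g) g (8 * r) (e * r) := by
      have h1 : ∀ j : J, ∃ r₀ : ℝ, 0 < r₀ ∧ ∀ r : ℝ, 0 < r → r < r₀ →
        AffB (D o j) (D o j g) (deriv (D o j) g) g (8 * r) (e * r) := fun j =>
        affB_of (f4 (o, j) hg0 hg1) (by norm_num) he
      choose rJ hrJ hJ using h1
      have hfin' : (Set.range fun j : Option J => j.elim 1 rJ).Finite := Set.finite_range _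
      refine ⟨⨅ j : Option J, j.elim 1 rJ, ?_, fun r hr hr' j => hJ j r hr (hr'.trans_le
        (ciInf_le hfin'.bddBelow (some j)))⟩
      obtain ⟨j, hj⟩ := exists_eq_ciInf_of_finite (f := fun j : Option J => j.elim 1 rJ)
      rw [← hj]
      cases j with
      | none => exact one_pos
      | some j => exact hrJ j
    refine ⟨min r₄ r₅, lt_min hr₄ hr₅, fun r hr hr' x => ?_⟩
    obtain ⟨hP8, hB7⟩ := hAf r hr (hr'.trans_le (min_le_left _ _))
    refine ⟨?_, ?_, hDf r hr (hr'.trans_le (min_le_right _ _))⟩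
    · rw [hPg, ← hS]
      exact hP8
    · rw [hPg, ← hS]
      exact hB7 _ (hDgC x o)

/-- All orders at the rows without exceptions. -/
def OrdP (N' : Set ℝ) : Prop := ∀ Q : ℝ, RowD P ρ N'ᶜ Q → ∀ o, Lv P (Q, 0) ∈ E.G o →
  ∃ c : ℝ, 0 < c ∧ E.OrF c Q (Lv P (Q, 0)) o ∧
    (∀ c' : ℝ, 0 < c' → c' ≤ c → ∃ r₀ : ℝ, 0 < r₀ ∧ ∀ r : ℝ, 0 < r → r < r₀ → ∀ x,
      SlpL (fun w => E.PB (x, o) w w) c' (Lv P (Q, 0)) r) ∧
    ∀ e : ℝ, 0 < e → ∃ r₀ : ℝ, 0 < r₀ ∧ ∀ r : ℝ, 0 < r → r < r₀ → ∀ x,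
      E.BxF (Lv P (Q, 0)) r (x, o) (e * r)

theorem OrF.mono {E : CellD P ρ} {c c' Q g : ℝ} {o : E.O} (h : E.OrF c Q g o) (hc : c' ≤ c) :
    E.OrF c' Q g o :=
  ⟨h.val, h.S1, (mul_le_mul_of_nonneg_right hc (zero_le_one.trans h.S1)).trans h.cS, h.S0j,
    fun j => (mul_le_mul_of_nonneg_right hc (h.S0j j)).trans (h.cSj j), h.lv⟩

/-- All properties on the box with the error `d`; `b`: the flag of a static window. -/
structure FxF (b : Bool) (g r : ℝ) (k : E.α × E.O) (d : ℝ) : Prop where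
  pos : 0 < d
  bx : E.BxF g r k d
  iso : b = false → IsoE (E.PB k) g r d
  sta : b = true → StaD (E.PB k) g r d
  nf : NfB ρ (1 - deriv ρ (P g g)) d (P g g - r * r / d) (P g g + r * r / d)

theorem FxF.mono {E : CellD P ρ} {b : Bool} {g r d d' : ℝ} {k : E.α × E.O}
    (h : E.FxF b g r k d) (hd : d ≤ d') : E.FxF b g r k d' := by
  have h0 := h.pos
  have h1 : r * r / d' ≤ r * r / d :=
    div_le_div_of_nonneg_left (mul_self_nonneg r) h0 hd
  exact ⟨h0.trans_le hd, h.bx.mono hd, fun hb => IsoE.mono hd (h.iso hb),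
    fun hb => StaD.mono hd (h.sta hb),
    fun Q₁ Q₂ k1 k2 k3 => (h.nf Q₁ Q₂ (by linarith) k2 (by linarith)).trans (by linarith)⟩

/-- **The orders with the flag of the window**: iso (`false`) or static (`true`). -/
noncomputable def dich (N' : Set ℝ) (hN' : volume N' = 0) (hsub : E.N ⊆ N') (hord : E.OrdP N')
    (PT : E.O → ℝ → ℝ → ℝ) (hPT : ∀ x o, E.PB (x, o) = PT o)
    (hC : ∀ᵐ g : ℝ, 0 < g → g < 1 →
      (∃ a', g < a' ∧ a' ≤ 1 ∧ ρ 1 - ρ (P a' a') < 1 - P a' a') →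
        ∀ o, g ∈ E.G o → IsoAt (PT o) g ∨ StaAt (PT o) g) : CellD P ρ where
  α := E.α
  O := E.O × Bool
  J := E.J
  cα := E.cα
  cO := by
    have := E.cO
    infer_instance
  fJ := E.fJ
  m := E.m
  PB k := E.PB (k.1, k.2.1)
  be k := E.be (k.1, k.2.1)
  D o := E.D o.1
  f o := E.f o.1
  G o := {g | g ∈ E.G o.1 ∧ (o.2 = false → IsoAt (PT o.1) g) ∧ (o.2 = true → StaAt (PT o.1) g)}
  Ad' c k Q g r := E.Ad' c (k.1, k.2.1) Q g r ∧ E.OrF c Q g k.2.1 ∧
    SlpL (fun w => E.PB (k.1, k.2.1) w w) c g r ∧ c ≤ 1 - deriv ρ Q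
  df k g r := max (E.df (k.1, k.2.1) g r) (dfi (E.FxF k.2.2 g r (k.1, k.2.1)))
  N := N'
  hPB k := E.hPB _
  hle k := E.hle _
  hbe k := E.hbe _
  hdia x o := E.hdia x o.1
  hDm o := E.hDm o.1
  hD0 o := E.hD0 o.1
  hD1 o := E.hD1 o.1
  hG := by
    filter_upwards [E.hG, hC] with g h1 h2 h3 h4 h5
    obtain ⟨o, ho⟩ := h1 h3 h4 h5
    rcases h2 h3 h4 h5 o ho with h6 | h6
    · exact ⟨(o, false), ho, fun _ => h6, fun h => absurd h (by simp)⟩
    · exact ⟨(o, true), ho, fun h => absurd h (by simp), fun _ => h6⟩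
  hPG x o g hg := E.hPG x o.1 g hg.1
  hN := hN'
  hch := by
    filter_upwards [E.hch] with Q hQ hrow o ho
    have hrow' : RowD P ρ E.Nᶜ Q := { hrow with mem := fun h => hrow.mem (hsub h) }
    obtain ⟨cA, hcA, hA⟩ := hQ hrow' o.1 ho.1
    obtain ⟨c₁, hc₁, hOr, hsl, hbx⟩ := hord Q hrow o.1 ho.1
    have hh : 0 < 1 - deriv ρ Q := by linarith [hrow.rlt]
    refine ⟨min cA (min c₁ (1 - deriv ρ Q)), lt_min hcA (lt_min hc₁ hh),
      fun c' hc' hc'' e he => ?_⟩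
    have m1 : c' ≤ cA := hc''.trans (min_le_left _ _)
    have m2 : c' ≤ c₁ := (hc''.trans (min_le_right _ _)).trans (min_le_left _ _)
    have m3 : c' ≤ 1 - deriv ρ Q := (hc''.trans (min_le_right _ _)).trans (min_le_right _ _)
    obtain ⟨k, r₀, hr₀, hk⟩ := hA c' hc' m1 e he
    obtain ⟨r₁, hr₁, hsl⟩ := hsl c' hc' m2
    obtain ⟨r₂, hr₂, hbx⟩ := hbx e he
    obtain ⟨r₃, hr₃, hfl⟩ : ∃ r₃ : ℝ, 0 < r₃ ∧ ∀ r : ℝ, 0 < r → r < r₃ →
        (o.2 = false → IsoE (PT o.1) (Lv P (Q, 0)) r (e * r)) ∧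
        (o.2 = true → StaD (PT o.1) (Lv P (Q, 0)) r (e * r)) := by
      rcases hb : o.2 with _ | _
      · obtain ⟨r₃, hr₃, h⟩ := ho.2.1 hb e he
        exact ⟨r₃, hr₃, fun r h1 h2 => ⟨fun _ => h r h1 h2, fun h => absurd h (by simp)⟩⟩
      · obtain ⟨r₃, hr₃, h⟩ := ho.2.2 hb e he
        exact ⟨r₃, hr₃, fun r h1 h2 => ⟨fun h => absurd h (by simp), fun _ => h r h1 h2⟩⟩
    obtain ⟨r₄, hr₄, hnf⟩ := nfB_of hrow.rdif hrow.rlt le_rfl (η := e) (M := 1 / e) he
      (by positivity)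
    refine ⟨k, min (min r₀ r₁) (min r₂ (min r₃ r₄)),
      lt_min (lt_min hr₀ hr₁) (lt_min hr₂ (lt_min hr₃ hr₄)), fun r hr hr' => ?_⟩
    have n1 : r < r₀ := (hr'.trans_le (min_le_left _ _)).trans_le (min_le_left _ _)
    have n2 : r < r₁ := (hr'.trans_le (min_le_left _ _)).trans_le (min_le_right _ _)
    have n3 := hr'.trans_le (min_le_right _ _)
    have n4 : r < r₂ := n3.trans_le (min_le_left _ _)
    have n5 : r < r₃ := (n3.trans_le (min_le_right _ _)).trans_le (min_le_left _ _)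
    have n6 : r < r₄ := (n3.trans_le (min_le_right _ _)).trans_le (min_le_right _ _)
    obtain ⟨h1, h2⟩ := hk r hr n1
    obtain ⟨h3, h4⟩ := hfl r hr n5
    refine ⟨⟨h1, hOr.mono m2, hsl r hr n2 (k r), m3⟩, max_le h2 ?_⟩
    have her : 0 < e * r := mul_pos he hr
    refine dfi_le her.le ⟨her, hbx r hr n4 (k r), fun hb => ?_, fun hb => ?_, ?_⟩
    · rw [hPT]
      exact h3 hb
    · rw [hPT]
      exact h4 hb
    · rw [hOr.val]
      have e1 : r * r / (e * r) = 1 / e * r := by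
        field_simp
      rw [e1]
      exact hnf r hr n6

section dich

variable {N' : Set ℝ} {hN' : volume N' = 0} {hsub : E.N ⊆ N'} {hord : E.OrdP N'}
  {PT : E.O → ℝ → ℝ → ℝ} {hPT : ∀ x o, E.PB (x, o) = PT o}
  {hC : ∀ᵐ g : ℝ, 0 < g → g < 1 →
      (∃ a', g < a' ∧ a' ≤ 1 ∧ ρ 1 - ρ (P a' a') < 1 - P a' a') →
        ∀ o, g ∈ E.G o → IsoAt (PT o) g ∨ StaAt (PT o) g}

/-- The properties of the selected charts of the order with the flag. -/
theorem dich_ad {c : ℝ} {k : E.α × E.O × Bool} {Q g r : ℝ}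
    (h : (E.dich N' hN' hsub hord PT hPT hC).Ad c k Q g r) :
    E.Ad c (k.1, k.2.1) Q g r ∧ E.OrF c Q g k.2.1 ∧
      SlpL (fun w => E.PB (k.1, k.2.1) w w) c g r ∧ c ≤ 1 - deriv ρ Q := by
  obtain ⟨h1, h2, h3, h4, h5, h6⟩ := h
  exact ⟨⟨h1, h2, h3, h4.1, h5⟩, h6⟩

theorem dich_dfr (k : E.α × E.O × Bool) (g r : ℝ) :
    E.dfr (k.1, k.2.1) g r ≤ (E.dich N' hN' hsub hord PT hPT hC).dfr k g r :=
  max_le ((le_max_left _ _).trans (le_max_left _ _)) (le_max_right _ _)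

theorem dich_dfi (k : E.α × E.O × Bool) (g r : ℝ) :
    dfi (E.FxF k.2.2 g r (k.1, k.2.1)) ≤ (E.dich N' hN' hsub hord PT hPT hC).dfr k g r :=
  (le_max_right _ _).trans (le_max_left _ _)

/-- All properties on the box, from the defect. -/
theorem dich_fx {k : E.α × E.O × Bool} {g r d : ℝ} (hd : 0 < d) (hd1 : 2 * d ≤ 1)
    (h : (E.dich N' hN' hsub hord PT hPT hC).dfr k g r ≤ d) :
    E.FxF k.2.2 g r (k.1, k.2.1) (2 * d) :=
  dfi_spec (fun _ _ hdd hx => hx.mono hdd)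
    (lt_of_le_of_lt ((dich_dfi E k g r).trans h) (by linarith)) hd1

/-- The properties at an iso window. -/
theorem ads_of {c e d : ℝ} {k : E.α × E.O} {Q g r : ℝ} (hr : 0 < r)
    (he : 0 < e) (he1 : e ≤ 1) (hd0 : 0 ≤ d) (hde : 5 * d ≤ e * r)
    (had : E.Ad c k Q g r) (hor : E.OrF c Q g k.2) (hsl : SlpL (fun w => E.PB k w w) c g r)
    (hx : E.BxF g r k d) (hi : IsoE (E.PB k) g r d) :
    E.AdS c e k Q g r (deriv (fun a => P a a) g) := by
  have hP8 : AffB (fun w => P w w) Q (deriv (fun a => P a a) g) g (8 * r) (e * r) :=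
    fun w hw => by
      have := hx.dgP w hw
      rw [hor.val] at this
      linarith
  have hB7 : AffB (fun w => E.PB k w w) Q (deriv (fun a => P a a) g) g (7 * r) (e * r) :=
    fun w hw => by
      have := hx.dgB w hw
      rw [hor.val] at this
      linarith
  refine ⟨⟨had, he, he1, hor.lv k.1, ⟨_, hor.S1, hor.cS, hP8, hB7⟩, hsl, fun j => ⟨_, hor.S0j j,
    hor.cSj j, fun w hw => (hx.dj j w hw).trans (by linarith)⟩⟩, hor.val, hor.S1, hor.cS, hP8, hB7,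
    fun a w k1 k2 k3 => ?_⟩
  -- the threshold of the chart is affine
  obtain ⟨S', hS'⟩ := hi
  have j1 := abs_le.1 (hS' a w (by linarith) k2 (by linarith))
  have j2 := abs_le.1 (hS' w w (by linarith) le_rfl (by linarith))
  have j3 := abs_le.1 (hx.dgB w (by rw [abs_le]; constructor <;> linarith))
  have j4 := abs_le.1 (hx.dgB g (by rw [sub_self, abs_zero]; linarith))
  simp only [sub_self, mul_zero, sub_zero] at j4
  simp only at j3
  rw [hor.val] at j3 j4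
  have e1 : (S' - 1) * (w - g) = S' * (w - g) - (w - g) := by ring
  have e2 : (deriv (fun a => P a a) g - 1) * (w - g) =
      deriv (fun a => P a a) g * (w - g) - (w - g) := by ring
  rw [e1] at j1 j2
  rw [e2, abs_le]
  constructor <;> linarith [j1.1, j1.2, j2.1, j2.2, j3.1, j3.2, j4.1, j4.2]

/-- **No front cells.** -/
theorem dich_noF : (E.dich N' hN' hsub hord PT hPT hC).NoF := by
  intro c β h' h1 h2 h3
  obtain ⟨ε, hε⟩ : ∃ ε, ε = min (min (β / 8) (c / 12)) (1 / 80) := ⟨_, rfl⟩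
  have hε0 : 0 < ε := by
    rw [hε]
    exact lt_min (lt_min (by linarith) (by linarith)) (by norm_num)
  have hε1 : ε ≤ 1 / 80 := by rw [hε]; exact min_le_right _ _
  have hε2 : ε ≤ β / 8 := by rw [hε]; exact (min_le_left _ _).trans (min_le_left _ _)
  have hε3 : ε ≤ c / 12 := by rw [hε]; exact (min_le_left _ _).trans (min_le_right _ _)
  refine ⟨c / 4, by linarith, 1, one_pos, ε, hε0,
    fun k Q g r p X al be k0 hX k2 k3 k4 k5 k6 k7 k8 k9 => ?_⟩
  have hXr : X ≤ r := by linarith [k7.dep, k7.dep']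
  have hεX : 0 < ε * X := mul_pos hε0 hX
  have hεX1 : ε * X ≤ 1 / 80 * X := mul_le_mul_of_nonneg_right hε1 hX.le
  have hfx := dich_fx E hεX (by linarith) k9
  obtain ⟨had, hor, hsl, hcρ⟩ := dich_ad E k6
  have hL : Law (E.PB (k.1, k.2.1)) := E.hPB _
  have hlv := hor.lv k.1
  rcases hb : k.2.2 with _ | _
  · have hi := hfx.iso hb
    have hS := ads_of E k0 (e := 10 * (ε * X) / r) (by positivity) (by
      rw [div_le_one k0]
      linarith) (by linarith) (by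
      rw [div_mul_cancel₀ _ k0.ne']
      linarith) had hor hsl hfx.bx hi
    refine iso_noF hL h1 hS.S1 hS.cS hε0 hε1 (by linarith) (by linarith) hX k2 k3 k4 k5 hlv k7
      fun a w j1 j2 j3 => ?_
    have := hS.iso a w j1 j2 j3
    rwa [div_mul_cancel₀ _ k0.ne'] at this
  · exact sta_noF hL hε0 (by linarith) (by linarith) h2 hX k2 k3 k4 k5 hlv k7 (hfx.sta hb)

/-- **No joint cells**, if there are none at the iso windows. -/
theorem dich_noJ (hJ : E.NoJS) : (E.dich N' hN' hsub hord PT hPT hC).NoJ := by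
  intro c β T h' h1 h2 h3 h4
  obtain ⟨ε₀, hε₀, H⟩ := hJ c β T h' h1 h2 h3 h4
  obtain ⟨ε, hε⟩ : ∃ ε, ε = min (min (β / 4) (ε₀ / 10)) (1 / 80) := ⟨_, rfl⟩
  have hε0 : 0 < ε := by
    rw [hε]
    exact lt_min (lt_min (by linarith) (by linarith)) (by norm_num)
  have hε1 : ε ≤ 1 / 80 := by rw [hε]; exact min_le_right _ _
  have hε2 : ε ≤ β / 4 := by rw [hε]; exact (min_le_left _ _).trans (min_le_left _ _)
  have hε3 : ε ≤ ε₀ / 10 := by rw [hε]; exact (min_le_left _ _).trans (min_le_right _ _)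
  refine ⟨ε, hε0, fun k Q g r y X lamN muN lam mu k1 k2 k3 k4 k5 k6 k7 k8 k9 => ?_⟩
  have hX := k7.pos
  have hXr : X ≤ r := by linarith [k7.dep, k7.dep']
  have hεX : 0 < ε * X := mul_pos hε0 hX
  have hεX1 : ε * X ≤ 1 / 80 * X := mul_le_mul_of_nonneg_right hε1 hX.le
  have hεX3 : ε * X ≤ ε₀ / 10 * X := mul_le_mul_of_nonneg_right hε3 hX.le
  have hε₀X : 0 < ε₀ * X := mul_pos hε₀ hX
  have e3 : ε₀ / 10 * X = ε₀ * X / 10 := by ring
  have hfx := dich_fx E hεX (by linarith) k9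
  obtain ⟨had, hor, hsl, hcρ⟩ := dich_ad E k6
  have hL : Law (E.PB (k.1, k.2.1)) := E.hPB _
  rcases hb : k.2.2 with _ | _
  · have hi := hfx.iso hb
    have hS := ads_of E k1 (e := 10 * (ε * X) / r) (by positivity) (by
      rw [div_le_one k1]
      linarith) (by linarith) (by
      rw [div_mul_cancel₀ _ k1.ne']
      linarith) had hor hsl hfx.bx hi
    refine H ((k.1, k.2.1), 10 * (ε * X) / r) Q g r y X lamN muN lam mu k1 k2 k3 k4 k5 ⟨_, hS⟩
      (k7.mono (by linarith)) (fun Q₁ Q₂ j1 j2 j3 => (k8 Q₁ Q₂ j1 j2 j3).trans (by linarith)) ?_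
    refine max_le ((dich_dfr E k g r).trans (k9.trans (by linarith))) ?_
    rw [div_mul_cancel₀ _ k1.ne']
    linarith
  · exact sta_noJ hL (by linarith) h2 k2 k3 k7.toJCell (hfx.sta hb)

/-- **No joint cells**, if there are no boxes at the iso windows. -/
theorem dich_noJB (hJ : E.NoBS) : (E.dich N' hN' hsub hord PT hPT hC).NoJ := by
  intro c β T h' h1 h2 h3 h4
  obtain ⟨ε₀, hε₀, hε₀1, M, hM, H⟩ := hJ c (β / 2) c h1 (by linarith) h1
  obtain ⟨ε, hε⟩ : ∃ ε, ε = min (min (β / 80) (ε₀ / 10)) (min (1 / 80) (1 / (2 * M))) := ⟨_, rfl⟩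
  have hε0 : 0 < ε := by
    rw [hε]
    exact lt_min (lt_min (by linarith) (by linarith)) (lt_min (by norm_num) (by positivity))
  have hε1 : ε ≤ 1 / 80 := by rw [hε]; exact (min_le_right _ _).trans (min_le_left _ _)
  have hε4 : ε ≤ 1 / (2 * M) := by rw [hε]; exact (min_le_right _ _).trans (min_le_right _ _)
  have hε2 : ε ≤ β / 80 := by rw [hε]; exact (min_le_left _ _).trans (min_le_left _ _)
  have hε3 : ε ≤ ε₀ / 10 := by rw [hε]; exact (min_le_left _ _).trans (min_le_right _ _)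
  refine ⟨ε, hε0, fun k Q g r y X lamN muN lam mu k1 k2 k3 k4 k5 k6 k7 k8 k9 => ?_⟩
  have hX := k7.pos
  have hdep := k7.dep
  have hdep' := k7.dep'
  have hXr : X ≤ r := by linarith
  have hεX : 0 < ε * X := mul_pos hε0 hX
  have hεX1 : ε * X ≤ 1 / 80 * X := mul_le_mul_of_nonneg_right hε1 hX.le
  have hεXr : ε * X ≤ ε * r := mul_le_mul_of_nonneg_left hXr hε0.le
  have hεr : ε * r ≤ ε₀ / 10 * r := mul_le_mul_of_nonneg_right hε3 k1.le
  have hε₀r : 0 < ε₀ * r := mul_pos hε₀ k1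
  have e3 : ε₀ / 10 * r = ε₀ * r / 10 := by ring
  have hfx := dich_fx E hεX (by linarith) k9
  obtain ⟨had, hor, hsl, hcρ⟩ := dich_ad E k6
  have hL : Law (E.PB (k.1, k.2.1)) := E.hPB _
  rcases hb : k.2.2 with _ | _
  swap
  · exact sta_noJ hL (by linarith) h2 k2 k3 k7.toJCell (hfx.sta hb)
  have hi := hfx.iso hb
  have hS := ads_of E k1 (e := 10 * (ε * X) / r) (by positivity) (by
    rw [div_le_one k1]
    linarith) (by linarith) (by
    rw [div_mul_cancel₀ _ k1.ne']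
    linarith) had hor hsl hfx.bx hi
  obtain ⟨S, hSS⟩ : ∃ S, S = deriv (fun a => P a a) g := ⟨_, rfl⟩
  rw [← hSS] at hS
  -- the slope of the target
  have hβS : 1 + β / 2 ≤ S := by
    have hw := abs_le.1 (le_trans (by linarith) k7.win : |y.1 - g| ≤ 3 * r)
    have haf := (abs_le.1 (k7.aff (y.1 + X, y.2 - X) (by
      rw [Prod.dist_eq, Real.dist_eq, Real.dist_eq]
      simp only [add_sub_cancel_left, sub_sub_cancel_left, abs_neg, abs_of_pos hX, max_self,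
        le_refl]))).1
    simp only [Nw, add_sub_cancel_left, sub_sub_cancel_left] at haf
    have e1 : y.1 + X + (y.2 - X) = y.1 + y.2 := by ring
    rw [e1] at haf
    have i1 := (abs_le.1 (hS.iso (y.1 + y.2) (y.1 + X) (by linarith) (by linarith)
      (by linarith))).2
    have i2 := (abs_le.1 (hS.iso (y.1 + y.2) y.1 (by linarith) (by linarith) (by linarith))).1
    rw [div_mul_cancel₀ _ k1.ne'] at i1 i2
    have hgam := mul_le_mul_of_nonneg_right k7.gam hX.le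
    have e2 : (muN + β) * X = muN * X + β * X := by ring
    have e4 : muN * (-X) = -(muN * X) := by ring
    have e5 : (S - 1) * (y.1 + X - g) = (S - 1) * (y.1 - g) + (S - 1) * X := by ring
    have hPB : (E.dich N' hN' hsub hord PT hPT hC).PB k = E.PB (k.1, k.2.1) := rfl
    rw [hPB] at haf
    have hβX : ε * X ≤ β / 80 * X := mul_le_mul_of_nonneg_right hε2 hX.le
    have e6 : β / 80 * X = β * X / 80 := by ring
    have hβX0 : 0 < β * X := mul_pos h2 hX
    have k10 : (β / 2) * X ≤ (S - 1) * X := by linarith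
    have := le_of_mul_le_mul_right k10 hX
    linarith
  -- the rows
  have hdfr := (dich_dfr E k g r).trans k9
  have hrε : r ≤ ε₀ := by
    have h5 : r * r ≤ ε * X := (le_max_right _ _).trans hdfr
    have h6 : r * r ≤ ε * r := h5.trans hεXr
    have h7 := le_of_mul_le_mul_right h6 k1
    linarith
  refine H (k.1, k.2.1) Q g r S k1 k2 k3 k4 k5 hrε ?_ hβS (fun Q₁ Q₂ j1 j2 j3 => ?_)
    (hdfr.trans (by linarith))
  · -- the error
    have hee : 10 * (ε * X) / r ≤ ε₀ := by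
      rw [div_le_iff₀ k1]
      linarith
    have hee' : 10 * (ε * X) / r * r ≤ ε₀ * r := mul_le_mul_of_nonneg_right hee k1.le
    exact ⟨⟨hS.ade.ad, hε₀, hε₀1, hS.ade.lv, by
      obtain ⟨S', a1, a2, a3, a4⟩ := hS.ade.dg
      exact ⟨S', a1, a2, fun w hw => (a3 w hw).trans hee', fun w hw => (a4 w hw).trans hee'⟩,
      hS.ade.sl, fun j => by
      obtain ⟨S', a1, a2, a3⟩ := hS.ade.dj j
      exact ⟨S', a1, a2, fun w hw => (a3 w hw).trans hee'⟩⟩, hS.val, hS.S1, hS.cS,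
      fun w hw => (hS.dgP w hw).trans hee', fun w hw => (hS.dgB w hw).trans hee',
      fun a w a1 a2 a3 => (hS.iso a w a1 a2 a3).trans hee'⟩
  · have h5 := hfx.nf Q₁ Q₂
    rw [hor.val] at h5
    have h6 : M * r ≤ r * r / (2 * (ε * X)) := by
      rw [le_div_iff₀ (by linarith)]
      have h7 : ε * (2 * M) ≤ 1 := by rwa [le_div_iff₀ (by positivity)] at hε4
      have h8 : M * r * (2 * (ε * X)) = ε * (2 * M) * (r * X) := by ring
      have h9 : ε * (2 * M) * (r * X) ≤ 1 * (r * r) :=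
        mul_le_mul h7 (mul_le_mul_of_nonneg_left hXr k1.le) (by positivity) zero_le_one
      linarith
    have h7 := h5 (by linarith) j2 (by linarith)
    have h8 : (1 - (1 - deriv ρ Q)) * (Q₂ - Q₁) ≤ (1 - c) * (Q₂ - Q₁) :=
      mul_le_mul_of_nonneg_right (by linarith) (by linarith)
    linarith

end dich

/-- **The micro input from the dichotomy.** -/
theorem micW_dich (hP : Law P) (hP01 : ∀ a : ℝ, 0 ≤ a → a ≤ 1 → 0 ≤ P a a ∧ P a a ≤ 1)
    (hρ : LipschitzWith 1 ρ) (hJ : E.NoJS ∨ E.NoBS) (PT : E.O → ℝ → ℝ → ℝ)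
    (hPT : ∀ x o, E.PB (x, o) = PT o)
    (hC : ∀ᵐ g : ℝ, 0 < g → g < 1 →
      (∃ a', g < a' ∧ a' ≤ 1 ∧ ρ 1 - ρ (P a' a') < 1 - P a' a') →
        ∀ o, g ∈ E.G o → IsoAt (PT o) g ∨ StaAt (PT o) g) : MicW P ρ := by
  obtain ⟨N', h1, h2, h3⟩ := E.ordE hP
  refine (E.dich N' h1 h2 h3 PT hPT hC).mic hP hP01 hρ ?_ (dich_noF E)
  rcases hJ with hJ | hJ
  · exact dich_noJ E hJ
  · exact dich_noJB E hJ

/-- A strategy for more cells. -/
theorem gmI_anti {κ : Type*} {L : κ → ℕ → ℝ → ℝ → ℝ} {OK OK' : κ → ℝ → ℝ → Prop} {n : ℕ}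
    {σ : ℕ → ℝ} {a : ℝ} {W : Set ℝ} {Att : κ → Set (ℝ × ℝ)} (h : ∀ x e r, OK' x e r → OK x e r)
    (hG : GmI L OK n σ a W Att) : GmI L OK' n σ a W Att := by
  intro s
  obtain ⟨ε, hε, e, he, r₁, hr₁, K, H⟩ := hG s
  exact ⟨ε, hε, e, he, r₁, hr₁, K, fun x r b k1 k2 k3 k4 => H x r b k1 k2 k3 (h _ _ _ k4)⟩

/-- **The charts and orders with the same strategy.** -/
theorem dich_full (hP : Law P) (hJ : E.NoJS ∨ E.NoBS)
    (nn : ∀ k a, 0 ≤ a → a ≤ 1 → 0 ≤ E.PB k a a)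
    (play : ∃ (W' : E.O → Set ℝ) (Att : E.O → E.α → Set (ℝ × ℝ)) (Z : Set ℝ),
      (∀ o, MeasurableSet (W' o)) ∧ (∀ o, ∀ᵐ g : ℝ, g ∈ E.G o → 0 < g → g < 1 → g ∈ W' o) ∧
      (∀ o x, AttN (Att o x)) ∧ volume Z = 0 ∧
      (∀ᵐ Q : ℝ, RowD P ρ Zᶜ Q → ∀ o, Lv P (Q, 0) ∈ E.G o → ∀ j,
        E.D o (E.f o j) (Lv P (Q, 0)) < 1 ∧ (deriv (E.D o (E.f o j)) (Lv P (Q, 0)) = 1 ∨
          ∀ x a w, 0 ≤ w → w ≤ a → a ≤ 1 → E.be (x, o) j a w ≤ E.be (x, o) j w w + (a - w))) ∧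
      ∀ᵐ Q : ℝ, RowD P ρ Zᶜ Q → E.PlayI W' Att Q)
    (PT : E.O → ℝ → ℝ → ℝ) (hPT : ∀ x o, E.PB (x, o) = PT o)
    (hC : ∀ᵐ g : ℝ, 0 < g → g < 1 →
      (∃ a', g < a' ∧ a' ≤ 1 ∧ ρ 1 - ρ (P a' a') < 1 - P a' a') →
        ∀ o, g ∈ E.G o → IsoAt (PT o) g ∨ StaAt (PT o) g) : ∃ E' : CellD P ρ, E'.FullI := by
  obtain ⟨N', h1, h2, h3⟩ := E.ordE hP
  refine ⟨E.dich N' h1 h2 h3 PT hPT hC, ?_, dich_noF E, fun k a h0 h1' => nn _ a h0 h1', ?_⟩
  · rcases hJ with hJ | hJ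
    · exact dich_noJ E hJ
    · exact dich_noJB E hJ
  obtain ⟨W', Att, Z, p1, p2, p3, p4, p5, p6⟩ := play
  refine ⟨fun o => W' o.1, fun o => Att o.1, Z, fun o => p1 o.1, fun o => ?_, fun o => p3 o.1, p4,
    ?_, ?_⟩
  · filter_upwards [p2 o.1] with g hg h
    exact hg h.1
  · filter_upwards [p5] with Q hQ hrow o ho
    exact hQ hrow o.1 ho.1
  · filter_upwards [p6] with Q hQ hrow o c g hO hσ
    have hO' : E.RowO W' Q o.1 c g :=
      ⟨hO.eq, hO.g0, hO.g1, hO.val, hO.mem.1, hO.dns, hO.dif, hO.der, hO.difD, hO.c0⟩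
    refine gmI_anti (fun x e r hx => ?_) (hQ hrow o.1 c g hO' hσ)
    exact ⟨(dich_ad E hx.1).1, (dich_dfr E (x, o) g _).trans hx.2⟩

/-- **The windows of the orders are iso or static** for the threshold of the target over the
order, if macroscopic gain implies that it is static. -/
theorem hC_of {PT : E.O → ℝ → ℝ → ℝ} (hL : ∀ o, Law (PT o)) (hP : Law P)
    (hP1 : ∀ a : ℝ, 0 ≤ a → a ≤ 1 → P a a ≤ 1) (hle : ∀ o, LeT (PT o) P)
    (h : ∀ o, ∀ᵐ g : ℝ, 0 < g → g < 1 →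
      (∃ a', g < a' ∧ a' ≤ 1 ∧ ρ 1 - ρ (P a' a') < 1 - P a' a') → g ∈ E.G o → PT o g g < 1 →
        Mac (PT o) g → StaAt (PT o) g) :
    ∀ᵐ g : ℝ, 0 < g → g < 1 →
      (∃ a', g < a' ∧ a' ≤ 1 ∧ ρ 1 - ρ (P a' a') < 1 - P a' a') →
        ∀ o, g ∈ E.G o → IsoAt (PT o) g ∨ StaAt (PT o) g := by
  have := E.cO
  have h1 := ae_all_iff.2 h
  have h2 : ∀ᵐ g : ℝ, ∀ o, 0 < g → g < 1 → PT o g g < 1 → IsoAt (PT o) g ∨ Mac (PT o) g :=
    ae_all_iff.2 fun o => isoS_or_mac (hL o)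
  filter_upwards [h1, h2] with g k1 k2 h3 h4 h5 o ho
  have hlt : PT o g g < 1 := by
    obtain ⟨a', l1, l2, l3⟩ := h5
    have j1 : PT o g g ≤ P g g := hle o g g h3 le_rfl h4.le
    have j2 : P g g ≤ P a' a' := hP.mono h3.le le_rfl l1.le l1.le le_rfl l2
    have j3 := hP1 a' (by linarith) l2
    rcases j3.eq_or_lt with h6 | h6
    · rw [h6] at l3
      simp at l3
    · linarith
  rcases k2 o h3 h4 hlt with h6 | h6
  · exact Or.inl h6
  · exact Or.inr (k1 o h3 h4 h5 ho hlt h6)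

end CellD

end Pool.STR
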