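import Pool.Agent.H39.GEN.Cnum
import Pool.Agent.H60.GEN.CelI

/-!
# Static thresholds for the class numbers

`NumI.macSta_of`: the statement `MacSta` (static thresholds at the windows with macroscopic gain)
from one window: at almost every window with macroscopic gain the threshold over the fattest boxes
is `K`-steep for every `K` below the slope of its diagonal. `NumI.macSta_two`: the form with the
slopes at most `2` separated, where a gain over thin boxes gives `2`-steep thresholds (`DPS 2`).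
-/

set_option autoImplicit false

namespace Pool.STR

open MeasureTheory Set Filter Topology Pool.LEV Pool.RTS

namespace NumI

variable {P : ℝ → ℝ → ℝ} {ρ : ℝ → ℝ} (nk : NumI P ρ)

/-- **Static thresholds from steep ones.** -/
theorem macSta_of (h : ∀ o : nk.O, ∀ᵐ g : ℝ, 0 < g → g < 1 →
    (∃ a', g < a' ∧ a' ≤ 1 ∧ ρ 1 - ρ (P a' a') < 1 - P a' a') → g ∈ nk.Gs o → nk.PT o g g < 1 →
      Mac (nk.PT o) g → ∀ K : ℝ, K < deriv (fun a => nk.PT o a a) g → StK K (nk.PT o) g) :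
    nk.MacSta := by
  intro o
  filter_upwards [h o, sta_ae (nk.hPT o)] with g k1 k2 h0 h1 h2 h3 h4 h5
  exact k2 h0 h1 (k1 h0 h1 h2 h3 h4 h5)

/-- **The slopes at most `2` and the others.** -/
theorem macSta_two (PN : nk.O → ℝ → ℝ → ℝ)
    (hle : ∀ o (a w : ℝ), 0 ≤ w → w ≤ a → a ≤ 1 → nk.PT o a w ≤ PN o a w)
    (h1 : ∀ o : nk.O, ∀ᵐ g : ℝ, 0 < g → g < 1 →
      (∃ a', g < a' ∧ a' ≤ 1 ∧ ρ 1 - ρ (P a' a') < 1 - P a' a') → g ∈ nk.Gs o → nk.PT o g g < 1 →
        Mac (nk.PT o) g → deriv (fun a => nk.PT o a a) g ≤ 2 → DPS 2 (PN o) (nk.PT o) g)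
    (h2 : ∀ o : nk.O, ∀ᵐ g : ℝ, 0 < g → g < 1 →
      (∃ a', g < a' ∧ a' ≤ 1 ∧ ρ 1 - ρ (P a' a') < 1 - P a' a') → g ∈ nk.Gs o → nk.PT o g g < 1 →
        Mac (nk.PT o) g → 2 < deriv (fun a => nk.PT o a a) g → StaAt (nk.PT o) g) :
    nk.MacSta := by
  intro o
  filter_upwards [h1 o, h2 o, steep_ae (nk.hPT o) 2] with g k1 k2 k3 a0 a1 a2 a3 a4 a5
  rcases le_or_gt (deriv (fun a => nk.PT o a a) g) 2 with h | h
  · exact (k3 a0 a1 ((k1 a0 a1 a2 a3 a4 a5 h).stk a0 a1 a4 a5 (hle o))).2.2 h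
  · exact k2 a0 a1 a2 a3 a4 a5 h

end NumI

end Pool.STR
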