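import Pool.Agent.H39.GEN.DichF
import Pool.Agent.H39.GEN.CnumI

/-!
# The dichotomy only at the windows of nonfull rows

`RowG P ρ g`: the window `g` is the window of a nonfull row. `CellD.dichR`: as `CellD.dich`, but the
target has to be iso or static only at the windows of nonfull rows. So the static thresholds are
needed only there: `NumI.MacStaR` instead of `NumI.MacSta` in `NumI.fullR`.
-/

set_option autoImplicit false

namespace Pool.STR

open MeasureTheory Set Filter Topology Pool.LEV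

/-- **The window of a nonfull row.** -/
def RowG (P : ℝ → ℝ → ℝ) (ρ : ℝ → ℝ) (g : ℝ) : Prop :=
  ∃ Q : ℝ, RowD P ρ Set.univ Q ∧ Lv P (Q, 0) = g

/-- **The row of the window**: it is the value of the diagonal, and it is not full. -/
theorem RowG.row {P : ℝ → ℝ → ℝ} {ρ : ℝ → ℝ} {g : ℝ} (h : RowG P ρ g) (hP : Law P) :
    0 < P g g ∧ P g g < 1 ∧ Lv P (P g g, 0) = g ∧ DifferentiableAt ℝ ρ (P g g) ∧
      deriv ρ (P g g) < 1 ∧ RowD P ρ Set.univ (P g g) := by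
  obtain ⟨Q, hrow, hg⟩ := h
  obtain ⟨C, hC, r₀, hr₀, hb⟩ := diag_bdB hP hrow.Q0 hrow.Q1 hg.symm (by rw [← hg]; exact hrow.g0)
    (by rw [← hg]; exact hrow.g1) hrow.dif hrow.dpos
  have hval : P g g = Q := by
    by_contra hne
    have hpos : 0 < |P g g - Q| := abs_pos.2 (sub_ne_zero.2 hne)
    obtain ⟨r, hr⟩ : ∃ r, r = min (r₀ / 2) (|P g g - Q| / (2 * C)) := ⟨_, rfl⟩
    have hr0 : 0 < r := by
      rw [hr]
      exact lt_min (by linarith) (by positivity)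
    have hr1 : r < r₀ := by
      have : r ≤ r₀ / 2 := by rw [hr]; exact min_le_left _ _
      linarith
    have hr2 : r ≤ |P g g - Q| / (2 * C) := by rw [hr]; exact min_le_right _ _
    rw [le_div_iff₀ (by positivity)] at hr2
    have h1 := hb r hr0 hr1 g (by rw [sub_self, abs_zero]; exact hr0.le)
    linarith
  rw [hval]
  exact ⟨hrow.Q0, hrow.Q1, hg, hrow.rdif, hrow.rlt, hrow⟩

/-- The row is smaller than one. -/
theorem RowG.lt {P : ℝ → ℝ → ℝ} {ρ : ℝ → ℝ} {g : ℝ} (h : RowG P ρ g) (hP : Law P) : P g g < 1 :=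
  (h.row hP).2.1

namespace CellD

variable {P : ℝ → ℝ → ℝ} {ρ : ℝ → ℝ} (E : CellD P ρ)

/-- **The orders with the flag of the window**: iso (`false`) or static (`true`). -/
noncomputable def dichR (N' : Set ℝ) (hN' : volume N' = 0) (hsub : E.N ⊆ N') (hord : E.OrdP N')
    (PT : E.O → ℝ → ℝ → ℝ) (hPT : ∀ x o, E.PB (x, o) = PT o)
    (hC : ∀ᵐ g : ℝ, 0 < g → g < 1 → RowG P ρ g →
        ∀ o, g ∈ E.G o → IsoAt (PT o) g ∨ StaAt (PT o) g) : CellD P ρ where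
  α := E.α
  O := E.O × Bool
  J := E.J
  cα := E.cα
  cO := by
    have := E.cO
    infer_instance
  fJ := E.fJ
  m := E.m
  PB k := E.PB (k.1, k.2.1)
  be k := E.be (k.1, k.2.1)
  D o := E.D o.1
  f o := E.f o.1
  G o := {g | g ∈ E.G o.1 ∧ (RowG P ρ g →
    (o.2 = false → IsoAt (PT o.1) g) ∧ (o.2 = true → StaAt (PT o.1) g))}
  Ad' c k Q g r := E.Ad' c (k.1, k.2.1) Q g r ∧ E.OrF c Q g k.2.1 ∧
    SlpL (fun w => E.PB (k.1, k.2.1) w w) c g r ∧ c ≤ 1 - deriv ρ Q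
  df k g r := max (E.df (k.1, k.2.1) g r) (dfi (E.FxF k.2.2 g r (k.1, k.2.1)))
  N := N'
  hPB k := E.hPB _
  hle k := E.hle _
  hbe k := E.hbe _
  hdia x o := E.hdia x o.1
  hDm o := E.hDm o.1
  hD0 o := E.hD0 o.1
  hD1 o := E.hD1 o.1
  hG := by
    filter_upwards [E.hG, hC] with g h1 h2 h3 h4 h5
    obtain ⟨o, ho⟩ := h1 h3 h4 h5
    by_cases hrow : RowG P ρ g
    · rcases h2 h3 h4 hrow o ho with h6 | h6
      · exact ⟨(o, false), ho, fun _ => ⟨fun _ => h6, fun h => absurd h (by simp)⟩⟩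
      · exact ⟨(o, true), ho, fun _ => ⟨fun h => absurd h (by simp), fun _ => h6⟩⟩
    · exact ⟨(o, false), ho, fun h => absurd h hrow⟩
  hPG x o g hg := E.hPG x o.1 g hg.1
  hN := hN'
  hch := by
    filter_upwards [E.hch] with Q hQ hrow o ho
    have hrow' : RowD P ρ E.Nᶜ Q := { hrow with mem := fun h => hrow.mem (hsub h) }
    obtain ⟨cA, hcA, hA⟩ := hQ hrow' o.1 ho.1
    obtain ⟨c₁, hc₁, hOr, hsl, hbx⟩ := hord Q hrow o.1 ho.1
    have hh : 0 < 1 - deriv ρ Q := by linarith [hrow.rlt]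
    have hflag := ho.2 ⟨Q, { hrow with mem := Set.mem_univ _ }, rfl⟩
    refine ⟨min cA (min c₁ (1 - deriv ρ Q)), lt_min hcA (lt_min hc₁ hh),
      fun c' hc' hc'' e he => ?_⟩
    have m1 : c' ≤ cA := hc''.trans (min_le_left _ _)
    have m2 : c' ≤ c₁ := (hc''.trans (min_le_right _ _)).trans (min_le_left _ _)
    have m3 : c' ≤ 1 - deriv ρ Q := (hc''.trans (min_le_right _ _)).trans (min_le_right _ _)
    obtain ⟨k, r₀, hr₀, hk⟩ := hA c' hc' m1 e he
    obtain ⟨r₁, hr₁, hsl⟩ := hsl c' hc' m2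
    obtain ⟨r₂, hr₂, hbx⟩ := hbx e he
    obtain ⟨r₃, hr₃, hfl⟩ : ∃ r₃ : ℝ, 0 < r₃ ∧ ∀ r : ℝ, 0 < r → r < r₃ →
        (o.2 = false → IsoE (PT o.1) (Lv P (Q, 0)) r (e * r)) ∧
        (o.2 = true → StaD (PT o.1) (Lv P (Q, 0)) r (e * r)) := by
      rcases hb : o.2 with _ | _
      · obtain ⟨r₃, hr₃, h⟩ := hflag.1 hb e he
        exact ⟨r₃, hr₃, fun r h1 h2 => ⟨fun _ => h r h1 h2, fun h => absurd h (by simp)⟩⟩
      · obtain ⟨r₃, hr₃, h⟩ := hflag.2 hb e he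
        exact ⟨r₃, hr₃, fun r h1 h2 => ⟨fun h => absurd h (by simp), fun _ => h r h1 h2⟩⟩
    obtain ⟨r₄, hr₄, hnf⟩ := nfB_of hrow.rdif hrow.rlt le_rfl (η := e) (M := 1 / e) he
      (by positivity)
    refine ⟨k, min (min r₀ r₁) (min r₂ (min r₃ r₄)),
      lt_min (lt_min hr₀ hr₁) (lt_min hr₂ (lt_min hr₃ hr₄)), fun r hr hr' => ?_⟩
    have n1 : r < r₀ := (hr'.trans_le (min_le_left _ _)).trans_le (min_le_left _ _)
    have n2 : r < r₁ := (hr'.trans_le (min_le_left _ _)).trans_le (min_le_right _ _)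
    have n3 := hr'.trans_le (min_le_right _ _)
    have n4 : r < r₂ := n3.trans_le (min_le_left _ _)
    have n5 : r < r₃ := (n3.trans_le (min_le_right _ _)).trans_le (min_le_left _ _)
    have n6 : r < r₄ := (n3.trans_le (min_le_right _ _)).trans_le (min_le_right _ _)
    obtain ⟨h1, h2⟩ := hk r hr n1
    obtain ⟨h3, h4⟩ := hfl r hr n5
    refine ⟨⟨h1, hOr.mono m2, hsl r hr n2 (k r), m3⟩, max_le h2 ?_⟩
    have her : 0 < e * r := mul_pos he hr
    refine dfi_le her.le ⟨her, hbx r hr n4 (k r), fun hb => ?_, fun hb => ?_, ?_⟩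
    · rw [hPT]
      exact h3 hb
    · rw [hPT]
      exact h4 hb
    · rw [hOr.val]
      have e1 : r * r / (e * r) = 1 / e * r := by
        field_simp
      rw [e1]
      exact hnf r hr n6

section dichR

variable {N' : Set ℝ} {hN' : volume N' = 0} {hsub : E.N ⊆ N'} {hord : E.OrdP N'}
  {PT : E.O → ℝ → ℝ → ℝ} {hPT : ∀ x o, E.PB (x, o) = PT o}
  {hC : ∀ᵐ g : ℝ, 0 < g → g < 1 → RowG P ρ g →
        ∀ o, g ∈ E.G o → IsoAt (PT o) g ∨ StaAt (PT o) g}

/-- The properties of the selected charts of the order with the flag. -/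
theorem dichR_ad {c : ℝ} {k : E.α × E.O × Bool} {Q g r : ℝ}
    (h : (E.dichR N' hN' hsub hord PT hPT hC).Ad c k Q g r) :
    E.Ad c (k.1, k.2.1) Q g r ∧ E.OrF c Q g k.2.1 ∧
      SlpL (fun w => E.PB (k.1, k.2.1) w w) c g r ∧ c ≤ 1 - deriv ρ Q := by
  obtain ⟨h1, h2, h3, h4, h5, h6⟩ := h
  exact ⟨⟨h1, h2, h3, h4.1, h5⟩, h6⟩

theorem dichR_dfr (k : E.α × E.O × Bool) (g r : ℝ) :
    E.dfr (k.1, k.2.1) g r ≤ (E.dichR N' hN' hsub hord PT hPT hC).dfr k g r :=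
  max_le ((le_max_left _ _).trans (le_max_left _ _)) (le_max_right _ _)

theorem dichR_dfi (k : E.α × E.O × Bool) (g r : ℝ) :
    dfi (E.FxF k.2.2 g r (k.1, k.2.1)) ≤ (E.dichR N' hN' hsub hord PT hPT hC).dfr k g r :=
  (le_max_right _ _).trans (le_max_left _ _)

/-- All properties on the box, from the defect. -/
theorem dichR_fx {k : E.α × E.O × Bool} {g r d : ℝ} (hd : 0 < d) (hd1 : 2 * d ≤ 1)
    (h : (E.dichR N' hN' hsub hord PT hPT hC).dfr k g r ≤ d) :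
    E.FxF k.2.2 g r (k.1, k.2.1) (2 * d) :=
  dfi_spec (fun _ _ hdd hx => hx.mono hdd)
    (lt_of_le_of_lt ((dichR_dfi E k g r).trans h) (by linarith)) hd1

/-- **No front cells.** -/
theorem dichR_noF : (E.dichR N' hN' hsub hord PT hPT hC).NoF := by
  intro c β h' h1 h2 h3
  obtain ⟨ε, hε⟩ : ∃ ε, ε = min (min (β / 8) (c / 12)) (1 / 80) := ⟨_, rfl⟩
  have hε0 : 0 < ε := by
    rw [hε]
    exact lt_min (lt_min (by linarith) (by linarith)) (by norm_num)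
  have hε1 : ε ≤ 1 / 80 := by rw [hε]; exact min_le_right _ _
  have hε2 : ε ≤ β / 8 := by rw [hε]; exact (min_le_left _ _).trans (min_le_left _ _)
  have hε3 : ε ≤ c / 12 := by rw [hε]; exact (min_le_left _ _).trans (min_le_right _ _)
  refine ⟨c / 4, by linarith, 1, one_pos, ε, hε0,
    fun k Q g r p X al be k0 hX k2 k3 k4 k5 k6 k7 k8 k9 => ?_⟩
  have hXr : X ≤ r := by linarith [k7.dep, k7.dep']
  have hεX : 0 < ε * X := mul_pos hε0 hX
  have hεX1 : ε * X ≤ 1 / 80 * X := mul_le_mul_of_nonneg_right hε1 hX.le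
  have hfx := dichR_fx E hεX (by linarith) k9
  obtain ⟨had, hor, hsl, hcρ⟩ := dichR_ad E k6
  have hL : Law (E.PB (k.1, k.2.1)) := E.hPB _
  have hlv := hor.lv k.1
  rcases hb : k.2.2 with _ | _
  · have hi := hfx.iso hb
    have hS := ads_of E k0 (e := 10 * (ε * X) / r) (by positivity) (by
      rw [div_le_one k0]
      linarith) (by linarith) (by
      rw [div_mul_cancel₀ _ k0.ne']
      linarith) had hor hsl hfx.bx hi
    refine iso_noF hL h1 hS.S1 hS.cS hε0 hε1 (by linarith) (by linarith) hX k2 k3 k4 k5 hlv k7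
      fun a w j1 j2 j3 => ?_
    have := hS.iso a w j1 j2 j3
    rwa [div_mul_cancel₀ _ k0.ne'] at this
  · exact sta_noF hL hε0 (by linarith) (by linarith) h2 hX k2 k3 k4 k5 hlv k7 (hfx.sta hb)

/-- **No joint cells**, if there are none at the iso windows. -/
theorem dichR_noJ (hJ : E.NoJS) : (E.dichR N' hN' hsub hord PT hPT hC).NoJ := by
  intro c β T h' h1 h2 h3 h4
  obtain ⟨ε₀, hε₀, H⟩ := hJ c β T h' h1 h2 h3 h4
  obtain ⟨ε, hε⟩ : ∃ ε, ε = min (min (β / 4) (ε₀ / 10)) (1 / 80) := ⟨_, rfl⟩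
  have hε0 : 0 < ε := by
    rw [hε]
    exact lt_min (lt_min (by linarith) (by linarith)) (by norm_num)
  have hε1 : ε ≤ 1 / 80 := by rw [hε]; exact min_le_right _ _
  have hε2 : ε ≤ β / 4 := by rw [hε]; exact (min_le_left _ _).trans (min_le_left _ _)
  have hε3 : ε ≤ ε₀ / 10 := by rw [hε]; exact (min_le_left _ _).trans (min_le_right _ _)
  refine ⟨ε, hε0, fun k Q g r y X lamN muN lam mu k1 k2 k3 k4 k5 k6 k7 k8 k9 => ?_⟩
  have hX := k7.pos
  have hXr : X ≤ r := by linarith [k7.dep, k7.dep']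
  have hεX : 0 < ε * X := mul_pos hε0 hX
  have hεX1 : ε * X ≤ 1 / 80 * X := mul_le_mul_of_nonneg_right hε1 hX.le
  have hεX3 : ε * X ≤ ε₀ / 10 * X := mul_le_mul_of_nonneg_right hε3 hX.le
  have hε₀X : 0 < ε₀ * X := mul_pos hε₀ hX
  have e3 : ε₀ / 10 * X = ε₀ * X / 10 := by ring
  have hfx := dichR_fx E hεX (by linarith) k9
  obtain ⟨had, hor, hsl, hcρ⟩ := dichR_ad E k6
  have hL : Law (E.PB (k.1, k.2.1)) := E.hPB _
  rcases hb : k.2.2 with _ | _
  · have hi := hfx.iso hb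
    have hS := ads_of E k1 (e := 10 * (ε * X) / r) (by positivity) (by
      rw [div_le_one k1]
      linarith) (by linarith) (by
      rw [div_mul_cancel₀ _ k1.ne']
      linarith) had hor hsl hfx.bx hi
    refine H ((k.1, k.2.1), 10 * (ε * X) / r) Q g r y X lamN muN lam mu k1 k2 k3 k4 k5 ⟨_, hS⟩
      (k7.mono (by linarith)) (fun Q₁ Q₂ j1 j2 j3 => (k8 Q₁ Q₂ j1 j2 j3).trans (by linarith)) ?_
    refine max_le ((dichR_dfr E k g r).trans (k9.trans (by linarith))) ?_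
    rw [div_mul_cancel₀ _ k1.ne']
    linarith
  · exact sta_noJ hL (by linarith) h2 k2 k3 k7.toJCell (hfx.sta hb)

/-- **No joint cells**, if there are no boxes at the iso windows. -/
theorem dichR_noJB (hJ : E.NoBS) : (E.dichR N' hN' hsub hord PT hPT hC).NoJ := by
  intro c β T h' h1 h2 h3 h4
  obtain ⟨ε₀, hε₀, hε₀1, M, hM, H⟩ := hJ c (β / 2) c h1 (by linarith) h1
  obtain ⟨ε, hε⟩ : ∃ ε, ε = min (min (β / 80) (ε₀ / 10)) (min (1 / 80) (1 / (2 * M))) := ⟨_, rfl⟩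
  have hε0 : 0 < ε := by
    rw [hε]
    exact lt_min (lt_min (by linarith) (by linarith)) (lt_min (by norm_num) (by positivity))
  have hε1 : ε ≤ 1 / 80 := by rw [hε]; exact (min_le_right _ _).trans (min_le_left _ _)
  have hε4 : ε ≤ 1 / (2 * M) := by rw [hε]; exact (min_le_right _ _).trans (min_le_right _ _)
  have hε2 : ε ≤ β / 80 := by rw [hε]; exact (min_le_left _ _).trans (min_le_left _ _)
  have hε3 : ε ≤ ε₀ / 10 := by rw [hε]; exact (min_le_left _ _).trans (min_le_right _ _)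
  refine ⟨ε, hε0, fun k Q g r y X lamN muN lam mu k1 k2 k3 k4 k5 k6 k7 k8 k9 => ?_⟩
  have hX := k7.pos
  have hdep := k7.dep
  have hdep' := k7.dep'
  have hXr : X ≤ r := by linarith
  have hεX : 0 < ε * X := mul_pos hε0 hX
  have hεX1 : ε * X ≤ 1 / 80 * X := mul_le_mul_of_nonneg_right hε1 hX.le
  have hεXr : ε * X ≤ ε * r := mul_le_mul_of_nonneg_left hXr hε0.le
  have hεr : ε * r ≤ ε₀ / 10 * r := mul_le_mul_of_nonneg_right hε3 k1.le
  have hε₀r : 0 < ε₀ * r := mul_pos hε₀ k1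
  have e3 : ε₀ / 10 * r = ε₀ * r / 10 := by ring
  have hfx := dichR_fx E hεX (by linarith) k9
  obtain ⟨had, hor, hsl, hcρ⟩ := dichR_ad E k6
  have hL : Law (E.PB (k.1, k.2.1)) := E.hPB _
  rcases hb : k.2.2 with _ | _
  swap
  · exact sta_noJ hL (by linarith) h2 k2 k3 k7.toJCell (hfx.sta hb)
  have hi := hfx.iso hb
  have hS := ads_of E k1 (e := 10 * (ε * X) / r) (by positivity) (by
    rw [div_le_one k1]
    linarith) (by linarith) (by
    rw [div_mul_cancel₀ _ k1.ne']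
    linarith) had hor hsl hfx.bx hi
  obtain ⟨S, hSS⟩ : ∃ S, S = deriv (fun a => P a a) g := ⟨_, rfl⟩
  rw [← hSS] at hS
  -- the slope of the target
  have hβS : 1 + β / 2 ≤ S := by
    have hw := abs_le.1 (le_trans (by linarith) k7.win : |y.1 - g| ≤ 3 * r)
    have haf := (abs_le.1 (k7.aff (y.1 + X, y.2 - X) (by
      rw [Prod.dist_eq, Real.dist_eq, Real.dist_eq]
      simp only [add_sub_cancel_left, sub_sub_cancel_left, abs_neg, abs_of_pos hX, max_self,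
        le_refl]))).1
    simp only [Nw, add_sub_cancel_left, sub_sub_cancel_left] at haf
    have e1 : y.1 + X + (y.2 - X) = y.1 + y.2 := by ring
    rw [e1] at haf
    have i1 := (abs_le.1 (hS.iso (y.1 + y.2) (y.1 + X) (by linarith) (by linarith)
      (by linarith))).2
    have i2 := (abs_le.1 (hS.iso (y.1 + y.2) y.1 (by linarith) (by linarith) (by linarith))).1
    rw [div_mul_cancel₀ _ k1.ne'] at i1 i2
    have hgam := mul_le_mul_of_nonneg_right k7.gam hX.le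
    have e2 : (muN + β) * X = muN * X + β * X := by ring
    have e4 : muN * (-X) = -(muN * X) := by ring
    have e5 : (S - 1) * (y.1 + X - g) = (S - 1) * (y.1 - g) + (S - 1) * X := by ring
    have hPB : (E.dichR N' hN' hsub hord PT hPT hC).PB k = E.PB (k.1, k.2.1) := rfl
    rw [hPB] at haf
    have hβX : ε * X ≤ β / 80 * X := mul_le_mul_of_nonneg_right hε2 hX.le
    have e6 : β / 80 * X = β * X / 80 := by ring
    have hβX0 : 0 < β * X := mul_pos h2 hX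
    have k10 : (β / 2) * X ≤ (S - 1) * X := by linarith
    have := le_of_mul_le_mul_right k10 hX
    linarith
  -- the rows
  have hdfr := (dichR_dfr E k g r).trans k9
  have hrε : r ≤ ε₀ := by
    have h5 : r * r ≤ ε * X := (le_max_right _ _).trans hdfr
    have h6 : r * r ≤ ε * r := h5.trans hεXr
    have h7 := le_of_mul_le_mul_right h6 k1
    linarith
  refine H (k.1, k.2.1) Q g r S k1 k2 k3 k4 k5 hrε ?_ hβS (fun Q₁ Q₂ j1 j2 j3 => ?_)
    (hdfr.trans (by linarith))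
  · -- the error
    have hee : 10 * (ε * X) / r ≤ ε₀ := by
      rw [div_le_iff₀ k1]
      linarith
    have hee' : 10 * (ε * X) / r * r ≤ ε₀ * r := mul_le_mul_of_nonneg_right hee k1.le
    exact ⟨⟨hS.ade.ad, hε₀, hε₀1, hS.ade.lv, by
      obtain ⟨S', a1, a2, a3, a4⟩ := hS.ade.dg
      exact ⟨S', a1, a2, fun w hw => (a3 w hw).trans hee', fun w hw => (a4 w hw).trans hee'⟩,
      hS.ade.sl, fun j => by
      obtain ⟨S', a1, a2, a3⟩ := hS.ade.dj j
      exact ⟨S', a1, a2, fun w hw => (a3 w hw).trans hee'⟩⟩, hS.val, hS.S1, hS.cS,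
      fun w hw => (hS.dgP w hw).trans hee', fun w hw => (hS.dgB w hw).trans hee',
      fun a w a1 a2 a3 => (hS.iso a w a1 a2 a3).trans hee'⟩
  · have h5 := hfx.nf Q₁ Q₂
    rw [hor.val] at h5
    have h6 : M * r ≤ r * r / (2 * (ε * X)) := by
      rw [le_div_iff₀ (by linarith)]
      have h7 : ε * (2 * M) ≤ 1 := by rwa [le_div_iff₀ (by positivity)] at hε4
      have h8 : M * r * (2 * (ε * X)) = ε * (2 * M) * (r * X) := by ring
      have h9 : ε * (2 * M) * (r * X) ≤ 1 * (r * r) :=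
        mul_le_mul h7 (mul_le_mul_of_nonneg_left hXr k1.le) (by positivity) zero_le_one
      linarith
    have h7 := h5 (by linarith) j2 (by linarith)
    have h8 : (1 - (1 - deriv ρ Q)) * (Q₂ - Q₁) ≤ (1 - c) * (Q₂ - Q₁) :=
      mul_le_mul_of_nonneg_right (by linarith) (by linarith)
    linarith

end dichR

/-- **The charts and orders with the same strategy.** -/
theorem dich_fullR (hP : Law P) (hJ : E.NoJS ∨ E.NoBS)
    (nn : ∀ k a, 0 ≤ a → a ≤ 1 → 0 ≤ E.PB k a a)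
    (play : ∃ (W' : E.O → Set ℝ) (Att : E.O → E.α → Set (ℝ × ℝ)) (Z : Set ℝ),
      (∀ o, MeasurableSet (W' o)) ∧ (∀ o, ∀ᵐ g : ℝ, g ∈ E.G o → 0 < g → g < 1 → g ∈ W' o) ∧
      (∀ o x, AttN (Att o x)) ∧ volume Z = 0 ∧
      (∀ᵐ Q : ℝ, RowD P ρ Zᶜ Q → ∀ o, Lv P (Q, 0) ∈ E.G o → ∀ j,
        E.D o (E.f o j) (Lv P (Q, 0)) < 1 ∧ (deriv (E.D o (E.f o j)) (Lv P (Q, 0)) = 1 ∨
          ∀ x a w, 0 ≤ w → w ≤ a → a ≤ 1 → E.be (x, o) j a w ≤ E.be (x, o) j w w + (a - w))) ∧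
      ∀ᵐ Q : ℝ, RowD P ρ Zᶜ Q → E.PlayI W' Att Q)
    (PT : E.O → ℝ → ℝ → ℝ) (hPT : ∀ x o, E.PB (x, o) = PT o)
    (hC : ∀ᵐ g : ℝ, 0 < g → g < 1 → RowG P ρ g →
        ∀ o, g ∈ E.G o → IsoAt (PT o) g ∨ StaAt (PT o) g) : ∃ E' : CellD P ρ, E'.FullI := by
  obtain ⟨N', h1, h2, h3⟩ := E.ordE hP
  refine ⟨E.dichR N' h1 h2 h3 PT hPT hC, ?_, dichR_noF E, fun k a h0 h1' => nn _ a h0 h1', ?_⟩
  · rcases hJ with hJ | hJ
    · exact dichR_noJ E hJ
    · exact dichR_noJB E hJ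
  obtain ⟨W', Att, Z, p1, p2, p3, p4, p5, p6⟩ := play
  refine ⟨fun o => W' o.1, fun o => Att o.1, Z, fun o => p1 o.1, fun o => ?_, fun o => p3 o.1, p4,
    ?_, ?_⟩
  · filter_upwards [p2 o.1] with g hg h
    exact hg h.1
  · filter_upwards [p5] with Q hQ hrow o ho
    exact hQ hrow o.1 ho.1
  · filter_upwards [p6] with Q hQ hrow o c g hO hσ
    have hO' : E.RowO W' Q o.1 c g :=
      ⟨hO.eq, hO.g0, hO.g1, hO.val, hO.mem.1, hO.dns, hO.dif, hO.der, hO.difD, hO.c0⟩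
    refine gmI_anti (fun x e r hx => ?_) (hQ hrow o.1 c g hO' hσ)
    exact ⟨(dichR_ad E hx.1).1, (dichR_dfr E (x, o) g _).trans hx.2⟩

/-- **The windows of the orders are iso or static** for the threshold of the target over the
order, if macroscopic gain implies that it is static. -/
theorem hC_ofR {PT : E.O → ℝ → ℝ → ℝ} (hL : ∀ o, Law (PT o)) (hP : Law P)
    (hle : ∀ o, LeT (PT o) P)
    (h : ∀ o, ∀ᵐ g : ℝ, 0 < g → g < 1 → RowG P ρ g → g ∈ E.G o → PT o g g < 1 →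
        Mac (PT o) g → StaAt (PT o) g) :
    ∀ᵐ g : ℝ, 0 < g → g < 1 → RowG P ρ g →
        ∀ o, g ∈ E.G o → IsoAt (PT o) g ∨ StaAt (PT o) g := by
  have := E.cO
  have h1 := ae_all_iff.2 h
  have h2 : ∀ᵐ g : ℝ, ∀ o, 0 < g → g < 1 → PT o g g < 1 → IsoAt (PT o) g ∨ Mac (PT o) g :=
    ae_all_iff.2 fun o => isoS_or_mac (hL o)
  filter_upwards [h1, h2] with g k1 k2 h3 h4 h5 o ho
  have hlt : PT o g g < 1 := (hle o g g h3 le_rfl h4.le).trans_lt (h5.lt hP)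
  rcases k2 o h3 h4 hlt with h6 | h6
  · exact Or.inl h6
  · exact Or.inr (k1 o h3 h4 h5 ho hlt h6)

end CellD

namespace NumI

variable {P : ℝ → ℝ → ℝ} {ρ : ℝ → ℝ} (nk : NumI P ρ)

/-- **Static thresholds** at the windows with macroscopic gain, for nonfull rows. -/
def MacStaR : Prop := ∀ o : nk.O, ∀ᵐ g : ℝ, 0 < g → g < 1 → RowG P ρ g → g ∈ nk.Gs o →
  nk.PT o g g < 1 → Mac (nk.PT o) g → StaAt (nk.PT o) g

variable {α : Type} {cα : Countable α} {Ad' : ℝ → α × nk.O → ℝ → ℝ → ℝ → Prop}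
  {df : α × nk.O → ℝ → ℝ → ℝ} {N : Set ℝ} {hN : volume N = 0}
  {hch : ∀ᵐ Q : ℝ, RowD P ρ Nᶜ Q → ∀ o : nk.O, Lv P (Q, 0) ∈ nk.Gd o →
      ∃ c : ℝ, 0 < c ∧ ∀ c' : ℝ, 0 < c' → c' ≤ c → ∀ e : ℝ, 0 < e →
        ∃ (k : ℝ → α) (r₀ : ℝ), 0 < r₀ ∧ ∀ r : ℝ, 0 < r → r < r₀ →
          Ad' c' (k r, o) Q (Lv P (Q, 0)) r ∧ df (k r, o) (Lv P (Q, 0)) r ≤ e * r}

/-- **The charts and orders of `FullI`**, from the static thresholds at the nonfull rows. -/
theorem fullR (hP : Law P)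
    (hJ : (nk.cell α cα Ad' df N hN hch).NoJS ∨ (nk.cell α cα Ad' df N hN hch).NoBS)
    (hplay : Play (nk.cell α cα Ad' df N hN hch)) (hM : nk.MacStaR) :
    ∃ E' : CellD P ρ, E'.FullI := by
  refine CellD.dich_fullR (E := nk.cell α cα Ad' df N hN hch) hP hJ
    (fun k a h0 h1 => nk.cell_nn k a h0 h1) hplay (fun o => nk.PT o) (fun _ _ => rfl) ?_
  refine CellD.hC_ofR (E := nk.cell α cα Ad' df N hN hch) (fun o => nk.hPT o) hP
    (fun o => nk.hle o) fun o => ?_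
  filter_upwards [hM o] with g h1 h2 h3 h4 h5 h6 h7
  exact h1 h2 h3 h4 h5.1 h6 h7

/-- **Static thresholds from steep ones.** -/
theorem macStaR_of (h : ∀ o : nk.O, ∀ᵐ g : ℝ, 0 < g → g < 1 → RowG P ρ g → g ∈ nk.Gs o →
    nk.PT o g g < 1 → Mac (nk.PT o) g → ∀ K : ℝ, K < deriv (fun a => nk.PT o a a) g →
      StK K (nk.PT o) g) : nk.MacStaR := by
  intro o
  filter_upwards [h o, sta_ae (nk.hPT o)] with g k1 k2 h0 h1 h2 h3 h4 h5
  exact k2 h0 h1 (k1 h0 h1 h2 h3 h4 h5)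

/-- **The slopes at most `2` and the others.** -/
theorem macStaR_two (PN : nk.O → ℝ → ℝ → ℝ)
    (hle : ∀ o (a w : ℝ), 0 ≤ w → w ≤ a → a ≤ 1 → nk.PT o a w ≤ PN o a w)
    (h1 : ∀ o : nk.O, ∀ᵐ g : ℝ, 0 < g → g < 1 → RowG P ρ g → g ∈ nk.Gs o → nk.PT o g g < 1 →
        Mac (nk.PT o) g → deriv (fun a => nk.PT o a a) g ≤ 2 → DPS 2 (PN o) (nk.PT o) g)
    (h2 : ∀ o : nk.O, ∀ᵐ g : ℝ, 0 < g → g < 1 → RowG P ρ g → g ∈ nk.Gs o → nk.PT o g g < 1 →
        Mac (nk.PT o) g → 2 < deriv (fun a => nk.PT o a a) g → StaAt (nk.PT o) g) :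
    nk.MacStaR := by
  intro o
  filter_upwards [h1 o, h2 o, steep_ae (nk.hPT o) 2] with g k1 k2 k3 a0 a1 a2 a3 a4 a5
  rcases le_or_gt (deriv (fun a => nk.PT o a a) g) 2 with h | h
  · exact (k3 a0 a1 ((k1 a0 a1 a2 a3 a4 a5 h).stk a0 a1 a4 a5 (hle o))).2.2 h
  · exact k2 a0 a1 a2 a3 a4 a5 h

end NumI

end Pool.STR
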