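import Pool.Agent.H39.GEN.BlowM
import Pool.Agent.H39.GEN.MicW

/-!
# Cells at a row which is not free from the window

`cell_row`: let the row `Q` be not uniformly free from the window. Then there are cells at
arbitrarily small scales `r`: either fronts, where the level of the target has a slope at most `s`
in the direction of the row, or cells of size `X`, `δ r ≤ X`, in the plane `(w, q)` of windows and
depths, on which the threshold of the target and all the other levels are affine up to `ε X`, with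
slopes at most `T`; the slope of the target in the window at a fixed radius is at least `β`. The
numbers are chosen in the order `β`, `s`, `T`, `ε`, `δ`, `r`.

The other levels must be monotone and bounded by `C r` on the boxes of size `r`; this is the case
if they are between the values of a function which is differentiable at the window of the row
(`lvBox_diag`).
-/

set_option autoImplicit false

namespace Pool.STR

open MeasureTheory Set Filter Topology Pool.LEV

/-! ### Levels near the diagonal -/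

/-- Levels between the values of a function which is differentiable at `g`. -/
theorem lvBox_diag {R : ℝ × ℝ → ℝ} {D : ℝ → ℝ} {g s r₀ : ℝ} (hr₀ : 0 < r₀)
    (hD : HasDerivAt D s g)
    (hm : ∀ y y', y ≤ y' → WBox g r₀ y → WBox g r₀ y' → R y ≤ R y')
    (hlo : ∀ y, WBox g r₀ y → D y.1 ≤ R y) (hup : ∀ y, WBox g r₀ y → R y ≤ D (y.1 + y.2)) :
    ∃ r₁ : ℝ, 0 < r₁ ∧ ∀ r : ℝ, 0 < r → r < r₁ → LvBox R g (D g) (3 * (|s| + 1)) r := by
  have h1 := hD.isLittleO.def (show (0 : ℝ) < 1 from one_pos)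
  obtain ⟨d, hd, h2⟩ := Metric.eventually_nhds_iff.1 h1
  have h3 : ∀ x : ℝ, |x - g| < d → |D x - D g| ≤ (|s| + 1) * |x - g| := by
    intro x hx
    have h4 := h2 (y := x) (by rw [Real.dist_eq]; exact hx)
    rw [Real.norm_eq_abs, Real.norm_eq_abs, one_mul, smul_eq_mul] at h4
    have h5 := abs_add_le (D x - D g - (x - g) * s) ((x - g) * s)
    rw [sub_add_cancel, abs_mul] at h5
    linarith
  refine ⟨min r₀ (d / 3), lt_min hr₀ (by positivity), fun r hr hr' => ?_⟩
  have k1 : r < r₀ := lt_of_lt_of_le hr' (min_le_left _ _)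
  have k2 : r < d / 3 := lt_of_lt_of_le hr' (min_le_right _ _)
  have hb : ∀ y, WBox g r y → WBox g r₀ y := fun y hy =>
    ⟨hy.1.trans (by linarith), hy.2.1, hy.2.2.trans k1.le⟩
  have hs : 0 < |s| + 1 := by positivity
  refine ⟨fun y y' hy h h' => hm y y' hy (hb y h) (hb y' h'), fun y hy => ?_⟩
  have e1 := hlo y (hb y hy)
  have e2 := hup y (hb y hy)
  obtain ⟨y1, y2, y3⟩ := hy
  have e3 := h3 y.1 (by linarith)
  have y4 : |y.1 + y.2 - g| ≤ 3 * r := by
    rw [abs_le] at y1 ⊢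
    constructor <;> linarith [y1.1, y1.2]
  have e4 := h3 (y.1 + y.2) (by linarith)
  have e5 : (|s| + 1) * |y.1 - g| ≤ (|s| + 1) * (3 * r) :=
    mul_le_mul_of_nonneg_left (by linarith) hs.le
  have e6 : (|s| + 1) * |y.1 + y.2 - g| ≤ (|s| + 1) * (3 * r) :=
    mul_le_mul_of_nonneg_left y4 hs.le
  rw [abs_le] at e3 e4 ⊢
  constructor <;> linarith [e3.1, e4.2]

/-- The threshold as a function of the window and of the depth. -/
def Nw (P : ℝ → ℝ → ℝ) (y : ℝ × ℝ) : ℝ := P (y.1 + y.2) y.1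

/-- Two-sided thresholds. -/
theorem lvBox_law {P : ℝ → ℝ → ℝ} (hP : Law P) {g s : ℝ} (hg : 0 < g) (hg1 : g < 1)
    (hD : HasDerivAt (fun w => P w w) s g) :
    ∃ r₁ : ℝ, 0 < r₁ ∧ ∀ r : ℝ, 0 < r → r < r₁ → LvBox (Nw P) g (P g g) (3 * (|s| + 1)) r := by
  obtain ⟨r₀, hr₀⟩ : ∃ r₀, r₀ = min (g / 2) ((1 - g) / 3) := ⟨_, rfl⟩
  have h0 : 0 < r₀ := by
    rw [hr₀]
    exact lt_min (by linarith) (by linarith)
  have h1 : r₀ ≤ g / 2 := by rw [hr₀]; exact min_le_left _ _
  have h2 : r₀ ≤ (1 - g) / 3 := by rw [hr₀]; exact min_le_right _ _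
  refine lvBox_diag (D := fun w => P w w) h0 hD (fun y y' hy h h' => ?_) (fun y h => ?_)
    fun y h => ?_
  · obtain ⟨a1, a2, a3⟩ := h
    obtain ⟨b1, b2, b3⟩ := h'
    rw [abs_le] at a1 b1
    have c1 : y.1 ≤ y'.1 := hy.1
    have c2 : y.2 ≤ y'.2 := hy.2
    have d1 : 0 ≤ y.1 := by linarith [a1.1]
    have d2 : y'.1 + y'.2 ≤ 1 := by linarith [b1.2]
    exact hP.mono d1 (by linarith) (by linarith) c1 (by linarith) d2
  · obtain ⟨a1, a2, a3⟩ := h
    rw [abs_le] at a1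
    have d1 : 0 ≤ y.1 := by linarith [a1.1]
    have d2 : y.1 + y.2 ≤ 1 := by linarith [a1.2]
    exact hP.mono d1 le_rfl (by linarith) le_rfl (by linarith) d2
  · obtain ⟨a1, a2, a3⟩ := h
    rw [abs_le] at a1
    have d1 : 0 ≤ y.1 := by linarith [a1.1]
    have d2 : y.1 + y.2 ≤ 1 := by linarith [a1.2]
    exact hP.mono d1 (by linarith) le_rfl (by linarith) le_rfl d2

/-! ### The chart of the target -/

/-- Smaller cells. -/
theorem Affn.shrink {a : ℝ × ℝ → ℝ} {ε ε' X X' al be : ℝ} {p : ℝ × ℝ} (h : Affn a ε p X al be)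
    (hX : X' ≤ X) (hε : ε * X ≤ ε' * X') : Affn a ε' p X' al be :=
  fun p' hp' => (h p' (hp'.trans hX)).trans hε

/-- **The threshold is affine in the plane of the windows and depths** if the level function is
affine with a positive slope in the row. -/
theorem Affn.chart {P : ℝ → ℝ → ℝ} (hP : Law P) {ε s X al be : ℝ} {p : ℝ × ℝ}
    (hA : Affn (Lv P) ε p X al be) (hX : 0 < X) (hs : 0 < s) (hal : s ≤ al) (hε : 0 < ε)
    (hεs : ε ≤ s / 8) (hbe : 0 ≤ be) (hab : al + be ≤ 1) (h1 : X ≤ p.1) (h2 : p.1 + X ≤ 1)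
    (h3 : X ≤ p.2) (h4 : X ≤ Lv P p - p.2) (h5 : Lv P p + X ≤ 1) :
    Affn (Nw P) (32 * ε / s ^ 2) (Lv P p - p.2, p.2) (s / 8 * X) (1 / al) ((1 - be) / al) ∧
      |Nw P (Lv P p - p.2, p.2) - p.1| ≤ 2 * ε * X / s := by
  obtain ⟨w, hw⟩ : ∃ w, w = Lv P p - p.2 := ⟨_, rfl⟩
  obtain ⟨η, hη⟩ : ∃ η, η = 2 * ε * X / s := ⟨_, rfl⟩
  rw [← hw, ← hη]
  have hal0 : 0 < al := hs.trans_le hal
  have hs1 : s ≤ 1 := by linarith
  have hη0 : 0 < η := by rw [hη]; positivity
  have hηX : η ≤ X / 4 := by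
    rw [hη, div_le_iff₀ hs]
    nlinarith
  have hηs : η * s = 2 * ε * X := by
    rw [hη]
    field_simp
  have hηal : 2 * ε * X ≤ al * η := by
    rw [← hηs]
    nlinarith
  have hεX : 0 < ε * X := mul_pos hε hX
  -- the values
  have key : ∀ y : ℝ × ℝ, dist y (w, p.2) ≤ s / 8 * X →
      |Nw P y - (p.1 + (1 / al * (y.1 - w) + (1 - be) / al * (y.2 - p.2)))| ≤ η := by
    intro y hy
    rw [Prod.dist_eq, Real.dist_eq, Real.dist_eq] at hy
    have y1 : |y.1 - w| ≤ s / 8 * X := (le_max_left _ _).trans hy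
    have y2 : |y.2 - p.2| ≤ s / 8 * X := (le_max_right _ _).trans hy
    have hsX : s / 8 * X ≤ X / 8 := by nlinarith
    obtain ⟨D, hD⟩ : ∃ D, D = 1 / al * (y.1 - w) + (1 - be) / al * (y.2 - p.2) := ⟨_, rfl⟩
    rw [← hD]
    have hDal : al * D = y.1 - w + (1 - be) * (y.2 - p.2) := by
      rw [hD]
      field_simp
    have hDX : |D| ≤ X / 4 := by
      have e1 : |al * D| ≤ s / 8 * X + s / 8 * X := by
        rw [hDal]
        refine (abs_add_le _ _).trans (add_le_add y1 ?_)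
        rw [abs_mul, abs_of_nonneg (by linarith : (0 : ℝ) ≤ 1 - be)]
        calc (1 - be) * |y.2 - p.2| ≤ 1 * |y.2 - p.2| :=
              mul_le_mul_of_nonneg_right (by linarith) (abs_nonneg _)
          _ ≤ s / 8 * X := by rw [one_mul]; exact y2
      rw [abs_mul, abs_of_pos hal0] at e1
      have e2 : s * |D| ≤ al * |D| := mul_le_mul_of_nonneg_right hal (abs_nonneg _)
      have e3 : s * |D| ≤ s * (X / 4) := by linarith
      exact le_of_mul_le_mul_left e3 hs
    rw [abs_le] at hDX y1 y2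
    have hq0 : 0 ≤ y.2 := by linarith [y2.1]
    have hy0 : 0 ≤ y.1 := by linarith [y1.1]
    have ha1 : y.1 + y.2 ≤ 1 := by
      have : w + p.2 = Lv P p := by rw [hw]; ring
      linarith [y1.2, y2.2]
    have hq1 : y.2 ≤ 1 := by linarith
    have hdist : ∀ t : ℝ, |t| ≤ X / 2 → dist (p.1 + t, y.2) p ≤ X := by
      intro t ht
      rw [Prod.dist_eq, Real.dist_eq, Real.dist_eq]
      simp only [add_sub_cancel_left]
      refine max_le (ht.trans (by linarith)) ?_
      rw [abs_le]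
      constructor <;> linarith [y2.1, y2.2]
    have hval : ∀ t : ℝ, |t| ≤ X / 2 → |lev P (p.1 + t) y.2 - (Lv P p + (al * t +
        be * (y.2 - p.2)))| ≤ ε * X := by
      intro t ht
      have e1 := hA (p.1 + t, y.2) (hdist t ht)
      rw [abs_le] at ht
      rw [Lv_eq hq0 hq1 (by linarith) (by linarith)] at e1
      simp only [add_sub_cancel_left] at e1
      have e2 : lev P (p.1 + t) y.2 - (Lv P p + (al * t + be * (y.2 - p.2))) =
          lev P (p.1 + t) y.2 - Lv P p - (al * t + be * (y.2 - p.2)) := by ring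
      rw [e2]
      exact e1
    have hwy : w = Lv P p - p.2 := hw
    have eN : Nw P y = P (y.1 + y.2) (y.1 + y.2 - y.2) := by
      unfold Nw
      rw [add_sub_cancel_right]
    rw [abs_le]
    constructor
    · -- the row is reached
      have t1 : |D - η| ≤ X / 2 := by
        rw [abs_le]
        constructor <;> linarith
      have e1 := (abs_le.1 (hval (D - η) t1)).2
      have e2 : lev P (p.1 + (D - η)) y.2 < y.1 + y.2 := by
        have e3 : al * (D - η) = al * D - al * η := by ring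
        rw [e3, hDal] at e1
        nlinarith
      have e4 := le_of_lev_lt hP hq0 hq1 e2 ha1
      rw [← eN] at e4
      linarith
    · have t1 : |D + η| ≤ X / 2 := by
        rw [abs_le]
        constructor <;> linarith
      have e1 := (abs_le.1 (hval (D + η) t1)).1
      have e2 : y.1 + y.2 < lev P (p.1 + (D + η)) y.2 := by
        have e3 : al * (D + η) = al * D + al * η := by ring
        rw [e3, hDal] at e1
        nlinarith
      have e4 := lt_of_lt_lev (P := P) hq1 (by linarith) e2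
      rw [← eN] at e4
      linarith
  have hc := key (w, p.2) (by rw [dist_self]; positivity)
  simp only [sub_self, mul_zero, add_zero] at hc
  refine ⟨fun y hy => ?_, hc⟩
  have h6 := key y hy
  have e1 : 32 * ε / s ^ 2 * (s / 8 * X) = 2 * η := by
    rw [hη]
    field_simp
    ring
  rw [e1]
  simp only
  rw [abs_le] at h6 hc ⊢
  constructor <;> linarith [h6.1, h6.2, hc.1, hc.2]

/-! ### Cells at a row -/

/-- **A joint cell** of the row `Q` at the scale `r`: the place `y` in the plane of the windows and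
depths, of size `X`. -/
structure JCell {ι : Type*} (P : ℝ → ℝ → ℝ) (R : ι → ℝ × ℝ → ℝ) (Q g r ε β T : ℝ) (y : ℝ × ℝ)
    (X lamN muN : ℝ) (lam mu : ι → ℝ) : Prop where
  pos : 0 < X
  row : |Nw P y - Q| ≤ 3 * r
  win : |y.1 - g| + X ≤ 3 * r
  dep : X ≤ y.2
  dep' : y.2 + X ≤ r
  aff : Affn (Nw P) ε y X lamN muN
  one : 1 ≤ muN
  gam : muN + β ≤ lamN
  top : lamN ≤ T
  affs : ∀ j, Affn (R j) ε y X (lam j) (mu j)
  lam0 : ∀ j, 0 ≤ lam j
  lamT : ∀ j, lam j ≤ T
  mu0 : ∀ j, 0 ≤ mu j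
  muT : ∀ j, mu j ≤ T

/-- **Cells at a row which is not free from the window.** -/
theorem cell_row {ι : Type*} [Fintype ι] {P : ℝ → ℝ → ℝ} (hP : Law P) {R : ι → ℝ × ℝ → ℝ}
    {Q g C : ℝ} {V : ι → ℝ} (hQ0 : 0 < Q) (hQ1 : Q < 1) (hg : g = Lv P (Q, 0)) (hg0 : 0 < g)
    (hg1 : g < 1) (hC : 0 ≤ C)
    (hbox : ∃ r₀ : ℝ, 0 < r₀ ∧ ∀ r : ℝ, 0 < r → r < r₀ → ∀ j, LvBox (R j) g (V j) C r)
    (hW : ¬ WfU P Q) : ∃ β : ℝ, 0 < β ∧ ∀ s : ℝ, 0 < s → ∃ T : ℝ, 0 < T ∧ ∀ ε : ℝ, 0 < ε →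
      ∃ δ : ℝ, 0 < δ ∧ ∀ r₁ : ℝ, 0 < r₁ → ∃ r : ℝ, 0 < r ∧ r < r₁ ∧
        ((∃ (p : ℝ × ℝ) (X al be : ℝ), |p.1 - Q| ≤ 2 * r ∧ δ * r ≤ X ∧ X ≤ p.2 ∧ p.2 + X ≤ r ∧
          0 ≤ al ∧ al ≤ s ∧ β ≤ be ∧ al + be ≤ 1 ∧ Affn (Lv P) ε p X al be) ∨
        ∃ (y : ℝ × ℝ) (X lamN muN : ℝ) (lam mu : ι → ℝ), δ * r ≤ X ∧
          JCell P R Q g r ε β T y X lamN muN lam mu) := by
  unfold WfU at hW
  push Not at hW
  obtain ⟨ε₀, hε₀, hW⟩ := hW
  obtain ⟨C', hC'⟩ : ∃ C', C' = 3 / 2 * C := ⟨_, rfl⟩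
  have hC'0 : 0 ≤ C' := by rw [hC']; positivity
  refine ⟨ε₀ / 2, half_pos hε₀, fun s hs => ?_⟩
  obtain ⟨s', hs'⟩ : ∃ s', s' = min s 1 := ⟨_, rfl⟩
  have hs'0 : 0 < s' := by rw [hs']; exact lt_min hs one_pos
  have hs's : s' ≤ s := by rw [hs']; exact min_le_left _ _
  have hs'1 : s' ≤ 1 := by rw [hs']; exact min_le_right _ _
  -- the bound of the slopes
  have hTex : ∃ T : ℝ, 0 < T ∧ 1 / s' ≤ T ∧
      Fintype.card ι * (10 * C' / T) < s' * (ε₀ / 4 * (ε₀ / 4)) := by
    obtain ⟨c, hc⟩ : ∃ c, c = s' * (ε₀ / 4 * (ε₀ / 4)) := ⟨_, rfl⟩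
    have hc0 : 0 < c := by rw [hc]; positivity
    obtain ⟨A, hA⟩ : ∃ A, A = (Fintype.card ι : ℝ) * (10 * C') := ⟨_, rfl⟩
    have hA0 : 0 ≤ A := by rw [hA]; positivity
    obtain ⟨T, hT⟩ : ∃ T, T = 1 / s' + (A + 1) / c := ⟨_, rfl⟩
    have h1 : 0 < 1 / s' := by positivity
    have h2 : 0 < (A + 1) / c := by positivity
    have hT0 : 0 < T := by rw [hT]; linarith
    refine ⟨T, hT0, by rw [hT]; linarith, ?_⟩
    rw [← hc]
    have e1 : (Fintype.card ι : ℝ) * (10 * C' / T) = A / T := by rw [hA]; ring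
    rw [e1, div_lt_iff₀ hT0]
    have e2 : c * ((A + 1) / c) = A + 1 := by field_simp
    have e3 : c * T = c * (1 / s') + (A + 1) := by rw [hT, mul_add, e2]
    have e4 : 0 < c * (1 / s') := by positivity
    linarith
  obtain ⟨T, hT, hT1, hT2⟩ := hTex
  refine ⟨T, hT, fun ε hε => ?_⟩
  obtain ⟨ε₁, hε₁⟩ : ∃ ε₁, ε₁ = min (s' / 8) (ε * s' ^ 2 / 32) := ⟨_, rfl⟩
  have hε₁0 : 0 < ε₁ := by
    rw [hε₁]
    exact lt_min (by positivity) (by positivity)
  have hε₁1 : ε₁ ≤ s' / 8 := by rw [hε₁]; exact min_le_left _ _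
  have hε₁2 : ε₁ ≤ ε * s' ^ 2 / 32 := by rw [hε₁]; exact min_le_right _ _
  have hss : s' ^ 2 ≤ s' := by nlinarith
  have hε₁3 : ε₁ ≤ ε * s' / 8 := by nlinarith
  have hε₁4 : ε₁ ≤ ε := by nlinarith
  obtain ⟨δ, hδ, H⟩ := blowM (ι := ι) hε₀ hε₁0 hs'0 hT hC'0 hT2
  refine ⟨s' / 8 * δ, by positivity, fun r₁ hr₁ => ?_⟩
  obtain ⟨r₀, hr₀, hbox⟩ := hbox
  obtain ⟨ρ, hρ⟩ : ∃ ρ, ρ = min r₁ (min (r₀ / 2) (min (Q / 4) (min ((1 - Q) / 4)
    (min (g / 4) ((1 - g) / 4))))) := ⟨_, rfl⟩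
  have hρ0 : 0 < ρ := by
    rw [hρ]
    exact lt_min hr₁ (lt_min (by linarith) (lt_min (by linarith) (lt_min (by linarith)
      (lt_min (by linarith) (by linarith)))))
  obtain ⟨r, hr, hrρ, Q', hQ', hgr⟩ := hW ρ hρ0
  have l1 : r < r₁ := lt_of_lt_of_le hrρ (by rw [hρ]; exact min_le_left _ _)
  have l2 : r < r₀ / 2 := lt_of_lt_of_le hrρ (by
    rw [hρ]; exact (min_le_right _ _).trans (min_le_left _ _))
  have l3 : r < Q / 4 := lt_of_lt_of_le hrρ (by
    rw [hρ]; exact (min_le_right _ _).trans ((min_le_right _ _).trans (min_le_left _ _)))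
  have l4 : r < (1 - Q) / 4 := lt_of_lt_of_le hrρ (by
    rw [hρ]
    exact (min_le_right _ _).trans ((min_le_right _ _).trans ((min_le_right _ _).trans
      (min_le_left _ _))))
  have l5 : r < g / 4 := lt_of_lt_of_le hrρ (by
    rw [hρ]
    exact (min_le_right _ _).trans ((min_le_right _ _).trans ((min_le_right _ _).trans
      ((min_le_right _ _).trans (min_le_left _ _)))))
  have l6 : r < (1 - g) / 4 := lt_of_lt_of_le hrρ (by
    rw [hρ]
    exact (min_le_right _ _).trans ((min_le_right _ _).trans ((min_le_right _ _).trans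
      ((min_le_right _ _).trans (min_le_right _ _)))))
  have hgQ : |Lv P (Q', 0) - g| ≤ r := by
    have h1 := (Lv_lip hP).dist_le_mul (Q', 0) (Q, 0)
    rw [Real.dist_eq, NNReal.coe_one, one_mul, Prod.dist_eq, ← hg] at h1
    refine h1.trans (max_le ?_ ?_)
    · exact hQ'
    · rw [dist_self]; exact hr.le
  have hwb : ∀ y, WBox (Lv P (Q', 0)) r y → WBox g (3 / 2 * r) y := by
    intro y hy
    refine ⟨?_, hy.2.1, hy.2.2.trans (by linarith)⟩
    have := abs_sub_le y.1 (Lv P (Q', 0)) g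
    linarith [hy.1]
  have hlv : ∀ j, LvBox (R j) (Lv P (Q', 0)) (V j) C' r := by
    intro j
    have h1 := hbox (3 / 2 * r) (by positivity) (by linarith) j
    refine ⟨fun y y' hy h h' => h1.mono y y' hy (hwb y h) (hwb y' h'), fun y hy => ?_⟩
    refine (h1.bd y (hwb y hy)).trans (le_of_eq ?_)
    rw [hC']
    ring
  obtain ⟨p, X, al, be, c1, c2, c3, c4, c5, c6, c7, c8, c9, c10⟩ :=
    H (Lv P) R (Lv_lip hP) (Lv_mono hP) Q' r V hr hgr.le hlv
  have hX0 : 0 < X := lt_of_lt_of_le (by positivity) c2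
  have hpQ : |p.1 - Q| ≤ 2 * r := by
    have := abs_sub_le p.1 Q' Q
    linarith
  refine ⟨r, hr, l1, ?_⟩
  have hδX : s' / 8 * δ * r ≤ s' / 8 * X := by
    have := mul_le_mul_of_nonneg_left c2 (show (0 : ℝ) ≤ s' / 8 by positivity)
    linarith
  have hsX : s' / 8 * X ≤ X := by nlinarith
  rcases le_or_gt al s' with hal | hal
  · left
    refine ⟨p, X, al, be, hpQ, by linarith, c3, c4, c6, hal.trans hs's, c7, c8,
      c9.shrink le_rfl (mul_le_mul_of_nonneg_right hε₁4 hX0.le)⟩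
  · right
    rcases c10 with c10 | c10
    · exact absurd c10 (not_le.2 hal)
    choose lam mu m1 m2 m3 m4 m5 using c10
    have hXr : X ≤ r := by linarith
    have hab := abs_le.1 hpQ
    have hwd : |Lv P p - p.2 - g| + X ≤ 3 * r := by
      have := abs_sub_le (Lv P p - p.2) (Lv P (Q', 0)) g
      linarith
    have hwd1 : |Lv P p - p.2 - g| ≤ 3 * r - X := by linarith
    rw [abs_le] at hwd1
    obtain ⟨k1, k2⟩ := Affn.chart hP c9 hX0 hs'0 hal.le hε₁0 hε₁1 (by linarith) c8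
      (by linarith) (by linarith) c3 (by linarith) (by
        by_contra hcc
        linarith)
    have hal0 : 0 < al := hs'0.trans hal
    refine ⟨(Lv P p - p.2, p.2), s' / 8 * X, 1 / al, (1 - be) / al, lam, mu, hδX, ?_, ?_, ?_, ?_,
      ?_, ?_, ?_, ?_, ?_, fun j => ?_, m1, m2, m3, m4⟩
    · positivity
    · refine (abs_sub_le _ p.1 _).trans ?_
      have e1 : 2 * ε₁ * X / s' ≤ r := by
        rw [div_le_iff₀ hs'0]
        nlinarith
      linarith
    · show |Lv P p - p.2 - g| + s' / 8 * X ≤ 3 * r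
      linarith
    · show s' / 8 * X ≤ p.2
      linarith
    · show p.2 + s' / 8 * X ≤ r
      linarith
    · refine k1.shrink le_rfl (mul_le_mul_of_nonneg_right ?_ (by positivity))
      rw [div_le_iff₀ (by positivity)]
      linarith
    · rw [le_div_iff₀ hal0]
      linarith
    · rw [div_add' _ _ _ hal0.ne', div_le_div_iff_of_pos_right hal0]
      nlinarith
    · refine le_trans ?_ hT1
      exact one_div_le_one_div_of_le hs'0 hal.le
    · refine (m5 j).shrink hsX ?_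
      have e1 : ε * (s' / 8 * X) = ε * s' / 8 * X := by ring
      rw [e1]
      exact mul_le_mul_of_nonneg_right hε₁3 hX0.le

end Pool.STR
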