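import Pool.Agent.H39.GEN.DichT
import Pool.Agent.H90.ISO.Quant

/-!
# Steep thresholds at the windows with macroscopic gain, and the slope in the window

`steep_ae`: at almost every window a threshold which is `K`-steep at the window (at all small
depths, `StK`) is `K`-steep on the whole box, up to `o (r)`, and it is static if the slope of the
diagonal is at most `K`. `sta_ae`: static, if it is `K`-steep for every `K` below this slope.

`DPS K PN PT w`: a gain over the thin boxes at one small depth (`PT w w + q < PN (w + q) w`) gives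
`K`-steep thresholds over the fat boxes at all small depths. `mac_steep`: the same conclusions at
almost every window with macroscopic gain.

`slow_ae`: finitely many thresholds, static at the windows of a set `E`. At almost every window `g`
of `E` there are radii `a` as near to `g` as one wants (in a set of full measure) such that the
thresholds at the radius `a` have derivatives in the window at `g` with a small sum.
-/

set_option autoImplicit false

namespace Pool.STR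

open MeasureTheory Set Filter Topology
open Pool.LEV (Law)
open Pool.QNT (diff_ae dens_pt affB_of)

/-- **Gain at one depth gives steep thresholds at all small depths.** -/
def DPS (K : ℝ) (PN PT : ℝ → ℝ → ℝ) (w : ℝ) : Prop :=
  ∃ m : ℝ, 0 < m ∧ ∀ q : ℝ, 0 < q → q < m → w + q ≤ 1 → PT w w + q < PN (w + q) w →
    ∃ x₀ : ℝ, 0 < x₀ ∧ ∀ x : ℝ, 0 < x → x ≤ x₀ → w + x ≤ 1 → PT w w + K * x ≤ PT (w + x) w

/-- The threshold is `K`-steep up to the depth `x₀`. -/
def StE (K : ℝ) (P : ℝ → ℝ → ℝ) (x₀ w : ℝ) : Prop :=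
  ∀ x : ℝ, 0 ≤ x → x ≤ x₀ → P w w + K * x ≤ P (w + x) w

variable {P : ℝ → ℝ → ℝ}

/-- **Steep on the whole box**, at the points of density of the steep windows. -/
theorem steep_box (hP : Law P) {g : ℝ} (hg0 : 0 < g) (hg1 : g < 1)
    (hd : DifferentiableAt ℝ (fun a => P a a) g) {K q₀ : ℝ} (hq₀ : 0 < q₀) {W : Set ℝ}
    (hE : ∀ w ∈ W, w + q₀ ≤ 1 ∧ StE K P q₀ w)
    (hW : Tendsto (fun r => volume (W ∩ Metric.closedBall g r) / volume (Metric.closedBall g r))
      (𝓝[>] 0) (𝓝 1)) {e : ℝ} (he : 0 < e) :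
    ∃ r₀ : ℝ, 0 < r₀ ∧ ∀ r : ℝ, 0 < r → r < r₀ → ∀ a w : ℝ, g - 8 * r ≤ w → w ≤ a →
      a ≤ g + 8 * r → P w w + K * (a - w) ≤ P a w + e * r := by
  obtain ⟨S, hS⟩ : ∃ S, S = |deriv (fun a => P a a) g| := ⟨_, rfl⟩
  have hS0 : 0 ≤ S := by rw [hS]; exact abs_nonneg _
  obtain ⟨r₁, hr₁, h1⟩ := affB_of hd (M := 16) (e := e / 4) (by norm_num) (by linarith)
  obtain ⟨η, hη⟩ : ∃ η, η = min (1 / 16) (e / (64 * (S + 1))) := ⟨_, rfl⟩
  have hη0 : 0 < η := by rw [hη]; exact lt_min (by norm_num) (by positivity)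
  have hη1 : η ≤ 1 / 16 := by rw [hη]; exact min_le_left _ _
  have hη2 : S * (16 * η) ≤ e / 4 := by
    have h3 : η ≤ e / (64 * (S + 1)) := by rw [hη]; exact min_le_right _ _
    rw [le_div_iff₀ (by positivity)] at h3
    nlinarith
  obtain ⟨t₀, ht₀, h2⟩ := dens_pt hW hη0 (by linarith)
  refine ⟨min (min r₁ (t₀ / 16)) (min (min (g / 32) ((1 - g) / 32)) (q₀ / 16)),
    lt_min (lt_min hr₁ (by linarith)) (lt_min (lt_min (by linarith) (by linarith)) (by linarith)),
    fun r hr hr' a w hw hwa ha => ?_⟩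
  have m1 : r < r₁ := (hr'.trans_le (min_le_left _ _)).trans_le (min_le_left _ _)
  have m2 : r < t₀ / 16 := (hr'.trans_le (min_le_left _ _)).trans_le (min_le_right _ _)
  have m5 := hr'.trans_le (min_le_right _ _)
  have m3 : r < g / 32 := (m5.trans_le (min_le_left _ _)).trans_le (min_le_left _ _)
  have m4 : r < (1 - g) / 32 := (m5.trans_le (min_le_left _ _)).trans_le (min_le_right _ _)
  have m6 : r < q₀ / 16 := m5.trans_le (min_le_right _ _)
  have hηr : η * (16 * r) ≤ r := by nlinarith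
  have hηr0 : 0 < η * (16 * r) := by positivity
  have hwg : |w - g| ≤ 8 * r := by
    rw [abs_le]
    constructor <;> linarith
  obtain ⟨w', hw', l1, l2⟩ := h2 (16 * r) (by linarith) (by linarith) w (hwg.trans (by linarith))
  obtain ⟨e1, e2⟩ := hE w' hw'
  have k1 := e2 (a - w) (by linarith) (by linarith)
  have k2 := hP.mono (a := w' + (a - w)) (a' := a) (w := w') (w' := w) (by linarith) (by linarith)
    (by linarith) l2 hwa (by linarith)
  have k3 : P w w - P w' w' ≤ e / 4 * r + e / 4 * r + e / 4 * r := by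
    have j1 := abs_le.1 (h1 r hr m1 w (hwg.trans (by linarith)))
    have j2 := abs_le.1 (h1 r hr m1 w' (by
      have := abs_le.1 hwg
      rw [abs_le]
      constructor <;> linarith))
    have j3 : |deriv (fun a => P a a) g * (w - w')| ≤ e / 4 * r := by
      rw [abs_mul, ← hS, abs_of_nonneg (show 0 ≤ w - w' by linarith)]
      calc S * (w - w') ≤ S * (η * (16 * r)) := mul_le_mul_of_nonneg_left (by linarith) hS0
        _ = S * (16 * η) * r := by ring
        _ ≤ e / 4 * r := mul_le_mul_of_nonneg_right hη2 hr.le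
    have j4 := abs_le.1 j3
    linarith [j1.1, j1.2, j2.1, j2.2, j4.1, j4.2]
  have her : 0 < e * r := mul_pos he hr
  linarith

/-- **Static**, if the threshold is as steep as its diagonal. -/
theorem sta_of_steep {g : ℝ} (hd : DifferentiableAt ℝ (fun a => P a a) g) {K : ℝ}
    (hs : deriv (fun a => P a a) g ≤ K)
    (h : ∀ e : ℝ, 0 < e → ∃ r₀ : ℝ, 0 < r₀ ∧ ∀ r : ℝ, 0 < r → r < r₀ → ∀ a w : ℝ,
      g - 8 * r ≤ w → w ≤ a → a ≤ g + 8 * r → P w w + K * (a - w) ≤ P a w + e * r) :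
    StaAt P g := by
  intro e he
  obtain ⟨r₀, hr₀, h1⟩ := h (e / 4) (by linarith)
  obtain ⟨r₁, hr₁, h2⟩ := affB_of hd (M := 8) (e := e / 4) (by norm_num) (by linarith)
  refine ⟨min r₀ r₁, lt_min hr₀ hr₁, fun r hr hr' a w hw hwa ha => ?_⟩
  have m1 := hr'.trans_le (min_le_left _ _)
  have m2 := hr'.trans_le (min_le_right _ _)
  have k1 := h1 r hr m1 a w hw hwa ha
  have k2 := abs_le.1 (h2 r hr m2 w (by
    rw [abs_le]
    constructor <;> linarith))
  have k3 := abs_le.1 (h2 r hr m2 a (by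
    rw [abs_le]
    constructor <;> linarith))
  have k4 : deriv (fun a => P a a) g * (a - w) ≤ K * (a - w) :=
    mul_le_mul_of_nonneg_right hs (by linarith)
  have k5 : deriv (fun a => P a a) g * (a - w) =
      deriv (fun a => P a a) g * (a - g) - deriv (fun a => P a a) g * (w - g) := by ring
  have her : 0 < e * r := mul_pos he hr
  linarith [k2.1, k2.2, k3.1, k3.2]

/-- The threshold is `K`-steep at the window, at all small depths. -/
def StK (K : ℝ) (P : ℝ → ℝ → ℝ) (w : ℝ) : Prop :=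
  ∃ x₀ : ℝ, 0 < x₀ ∧ ∀ x : ℝ, 0 < x → x ≤ x₀ → w + x ≤ 1 → P w w + K * x ≤ P (w + x) w

/-- **Steep at a window, then steep on the box**, at almost every window. -/
theorem steep_ae (hP : Law P) (K : ℝ) : ∀ᵐ g : ℝ, 0 < g → g < 1 → StK K P g →
    DifferentiableAt ℝ (fun a => P a a) g ∧
    (∀ e : ℝ, 0 < e → ∃ r₀ : ℝ, 0 < r₀ ∧ ∀ r : ℝ, 0 < r → r < r₀ → ∀ a w : ℝ,
      g - 8 * r ≤ w → w ≤ a → a ≤ g + 8 * r → P w w + K * (a - w) ≤ P a w + e * r) ∧
    (deriv (fun a => P a a) g ≤ K → StaAt P g) := by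
  obtain ⟨W, hW⟩ : ∃ W : ℕ → Set ℝ, W = fun (p : ℕ) => {w | w + 1 / ((p : ℝ) + 1) ≤ 1 ∧
      StE K P (1 / ((p : ℝ) + 1)) w} := ⟨_, rfl⟩
  have hmono : ∀ x y : ℝ, 0 ≤ x → x ≤ y → y ≤ 1 → P x x ≤ P y y := fun x y h0 h1 h2 =>
    hP.mono h0 le_rfl h1 h1 le_rfl h2
  have hall : ∀ᵐ g : ℝ, ∀ p : ℕ, g ∈ W p → Tendsto
      (fun r => volume (W p ∩ Metric.closedBall g r) / volume (Metric.closedBall g r))
      (𝓝[>] 0) (𝓝 1) := by
    rw [ae_all_iff]
    exact fun p => ae_imp_of_ae_restrict (Besicovitch.ae_tendsto_measure_inter_div volume (W p))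
  filter_upwards [diff_ae hmono, hall] with g hg1 hg2 h0 h1 hK
  have hd := hg1 h0 h1
  obtain ⟨x₀, hx₀, hx⟩ := hK
  obtain ⟨j, hj⟩ := exists_nat_one_div_lt (lt_min hx₀ (show (0 : ℝ) < 1 - g by linarith))
  have hj1 := hj.trans_le (min_le_left _ _)
  have hj2 := hj.trans_le (min_le_right _ _)
  have hq0 : (0 : ℝ) < 1 / ((j : ℝ) + 1) := by positivity
  have hgW : g ∈ W j := by
    rw [hW]
    refine ⟨by linarith, fun x a1 a2 => ?_⟩
    rcases a1.eq_or_lt with a3 | a3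
    · rw [← a3, mul_zero, add_zero, add_zero]
    · exact hx x a3 (a2.trans hj1.le) (by linarith)
  have hbox := fun (e : ℝ) (he : 0 < e) => steep_box hP h0 h1 hd hq0 (K := K)
    (W := W j) (fun w hw => by
      rw [hW] at hw
      exact hw) (hg2 j hgW) he
  exact ⟨hd, hbox, fun hs => sta_of_steep hd hs hbox⟩

/-- **Steep of every order below the slope of the diagonal, then static.** -/
theorem sta_ae (hP : Law P) : ∀ᵐ g : ℝ, 0 < g → g < 1 →
    (∀ K : ℝ, K < deriv (fun a => P a a) g → StK K P g) → StaAt P g := by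
  have h1 : ∀ᵐ g : ℝ, ∀ K : ℚ, 0 < g → g < 1 → StK K P g →
      DifferentiableAt ℝ (fun a => P a a) g ∧
      (∀ e : ℝ, 0 < e → ∃ r₀ : ℝ, 0 < r₀ ∧ ∀ r : ℝ, 0 < r → r < r₀ → ∀ a w : ℝ,
        g - 8 * r ≤ w → w ≤ a → a ≤ g + 8 * r → P w w + K * (a - w) ≤ P a w + e * r) ∧
      (deriv (fun a => P a a) g ≤ K → StaAt P g) := ae_all_iff.2 fun K => steep_ae hP K
  filter_upwards [h1] with g k1 h0 h2 hK e he
  obtain ⟨K, hK1, hK2⟩ := exists_rat_btwn
    (show deriv (fun a => P a a) g - e / 64 < deriv (fun a => P a a) g by linarith)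
  obtain ⟨hd, k2, -⟩ := k1 K h0 h2 (hK K hK2)
  obtain ⟨r₀, hr₀, k3⟩ := k2 (e / 4) (by linarith)
  obtain ⟨r₁, hr₁, k4⟩ := affB_of hd (M := 8) (e := e / 8) (by norm_num) (by linarith)
  refine ⟨min r₀ r₁, lt_min hr₀ hr₁, fun r hr hr' a w hw hwa ha => ?_⟩
  have m1 := hr'.trans_le (min_le_left _ _)
  have m2 := hr'.trans_le (min_le_right _ _)
  have j1 := k3 r hr m1 a w hw hwa ha
  have j2 := abs_le.1 (k4 r hr m2 w (by
    rw [abs_le]
    constructor <;> linarith))
  have j3 := abs_le.1 (k4 r hr m2 a (by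
    rw [abs_le]
    constructor <;> linarith))
  have j4 : (deriv (fun a => P a a) g - K) * (a - w) ≤ e / 64 * (16 * r) :=
    mul_le_mul (by linarith) (by linarith) (by linarith) (by linarith)
  have j5 : (deriv (fun a => P a a) g - K) * (a - w) =
      deriv (fun a => P a a) g * (a - g) - deriv (fun a => P a a) g * (w - g) - K * (a - w) := by
    ring
  have her : 0 < e * r := mul_pos he hr
  linarith [j2.1, j2.2, j3.1, j3.2]

/-- Gain at one depth, at a window with macroscopic gain. -/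
theorem DPS.stk {K g : ℝ} {PN : ℝ → ℝ → ℝ} (h : DPS K PN P g) (h0 : 0 < g) (h1 : g < 1)
    (h2 : P g g < 1) (hM : Mac P g)
    (hle : ∀ a w : ℝ, 0 ≤ w → w ≤ a → a ≤ 1 → P a w ≤ PN a w) : StK K P g := by
  obtain ⟨m, hm, hm'⟩ := h
  obtain ⟨q, hq⟩ : ∃ q, q = min (m / 2) (min ((1 - g) / 2) ((1 - P g g) / 2)) := ⟨_, rfl⟩
  have hq0 : 0 < q := by
    rw [hq]
    exact lt_min (by linarith) (lt_min (by linarith) (by linarith))
  have hq1 : q < m := by
    have : q ≤ m / 2 := by rw [hq]; exact min_le_left _ _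
    linarith
  have hq2 : g + q < 1 := by
    have : q ≤ (1 - g) / 2 := by rw [hq]; exact (min_le_right _ _).trans (min_le_left _ _)
    linarith
  have hq3 : P g g + q < 1 := by
    have : q ≤ (1 - P g g) / 2 := by rw [hq]; exact (min_le_right _ _).trans (min_le_right _ _)
    linarith
  have hMq := hM (g + q) (by linarith) hq2.le (by rw [add_sub_cancel_left]; exact hq3)
  rw [add_sub_cancel_left] at hMq
  exact hm' q hq0 hq1 hq2.le (hMq.trans_le (hle (g + q) g h0.le (by linarith) hq2.le))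

/-- **The windows with macroscopic gain are steep.** -/
theorem mac_steep (hP : Law P) {K : ℝ} {PN : ℝ → ℝ → ℝ} {G : Set ℝ}
    (hle : ∀ a w : ℝ, 0 ≤ w → w ≤ a → a ≤ 1 → P a w ≤ PN a w)
    (hG : ∀ᵐ w : ℝ, w ∈ G → 0 < w → w < 1 → P w w < 1 → DPS K PN P w) :
    ∀ᵐ g : ℝ, g ∈ G → 0 < g → g < 1 → P g g < 1 → Mac P g →
      DifferentiableAt ℝ (fun a => P a a) g ∧
      (∀ e : ℝ, 0 < e → ∃ r₀ : ℝ, 0 < r₀ ∧ ∀ r : ℝ, 0 < r → r < r₀ → ∀ a w : ℝ,
        g - 8 * r ≤ w → w ≤ a → a ≤ g + 8 * r → P w w + K * (a - w) ≤ P a w + e * r) ∧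
      (deriv (fun a => P a a) g ≤ K → StaAt P g) := by
  filter_upwards [hG, steep_ae hP K] with g k1 k2 hgG h0 h1 h2 hM
  exact k2 h0 h1 ((k1 hgG h0 h1 h2).stk h0 h1 h2 hM hle)

/-- At a point of density the set has at least half of the interval to the right. -/
theorem dens_half {F : Set ℝ} {g : ℝ}
    (hF : Tendsto (fun r => volume (F ∩ Metric.closedBall g r) / volume (Metric.closedBall g r))
      (𝓝[>] 0) (𝓝 1)) : ∃ t₀ : ℝ, 0 < t₀ ∧ ∀ t : ℝ, 0 < t → t < t₀ →
      ENNReal.ofReal (t / 2) ≤ volume (F ∩ Ioo g (g + t)) := by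
  have h1 : ∀ᶠ r in 𝓝[>] (0 : ℝ), ENNReal.ofReal (3 / 4) <
      volume (F ∩ Metric.closedBall g r) / volume (Metric.closedBall g r) := by
    refine hF.eventually_const_lt ?_
    rw [ENNReal.ofReal_lt_one]
    norm_num
  obtain ⟨r₂, hr₂, h2⟩ := mem_nhdsGT_iff_exists_Ioo_subset.1 h1
  have hr₂' : (0 : ℝ) < r₂ := hr₂
  refine ⟨r₂, hr₂', fun t ht ht' => ?_⟩
  have h3 := h2 (show t ∈ Ioo 0 r₂ from ⟨ht, ht'⟩)
  simp only [Set.mem_ofPred_eq, Real.volume_closedBall] at h3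
  by_contra hcon
  push Not at hcon
  have h4 : F ∩ Metric.closedBall g t ⊆ Icc (g - t) g ∪ (F ∩ Ioo g (g + t)) ∪ {g + t} := by
    rintro y ⟨hy, hyb⟩
    rw [Metric.mem_closedBall, Real.dist_eq] at hyb
    have hyb' := abs_le.1 hyb
    by_cases hy1 : y ≤ g
    · exact Or.inl (Or.inl ⟨by linarith, hy1⟩)
    push Not at hy1
    by_cases hy2 : y = g + t
    · exact Or.inr hy2
    · exact Or.inl (Or.inr ⟨hy, hy1, lt_of_le_of_ne (by linarith) hy2⟩)
  have h5 : volume (F ∩ Metric.closedBall g t) ≤ ENNReal.ofReal (3 / 4 * (2 * t)) := by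
    refine (measure_mono h4).trans ((measure_union_le _ _).trans ?_)
    rw [Real.volume_singleton, add_zero]
    refine (measure_union_le _ _).trans ?_
    rw [Real.volume_Icc]
    refine (add_le_add le_rfl hcon.le).trans ?_
    rw [← ENNReal.ofReal_add (by linarith) (by linarith)]
    exact ENNReal.ofReal_le_ofReal (by linarith)
  have h7 : volume (F ∩ Metric.closedBall g t) / ENNReal.ofReal (2 * t) ≤
      ENNReal.ofReal (3 / 4) := by
    refine ENNReal.div_le_of_le_mul ?_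
    rwa [← ENNReal.ofReal_mul (by norm_num)]
  exact absurd h3 (not_lt.2 h7)

/-- The clamp to `[0, a]`. -/
private noncomputable def ca (a x : ℝ) : ℝ := max 0 (min x a)

private theorem ca_mono {a : ℝ} : Monotone (ca a) := fun _ _ h =>
  max_le_max le_rfl (min_le_min_right a h)

private theorem ca_nonneg {a x : ℝ} : 0 ≤ ca a x := le_max_left _ _

private theorem ca_le {a x : ℝ} (ha : 0 ≤ a) : ca a x ≤ a := max_le ha (min_le_right _ _)

private theorem ca_of {a x : ℝ} (h0 : 0 ≤ x) (h1 : x ≤ a) : ca a x = x := by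
  unfold ca
  rw [min_eq_left h1, max_eq_right h0]

/-- The integral of a sum of derivatives. -/
theorem int_deriv_le {ι : Type*} [Fintype ι] {f : ι → ℝ → ℝ} (hf : ∀ i, Monotone (f i))
    {x y κ : ℝ} (hxy : x ≤ y) (hκ : 0 ≤ κ) {B : Set ℝ} (hB : B ⊆ Ioo x y)
    (h : ∀ᵐ w : ℝ, w ∈ B → κ ≤ ∑ i, deriv (f i) w) :
    κ * (volume B).toReal ≤ ∑ i, (f i y - f i x) := by
  have h1 : ∀ i, IntervalIntegrable (deriv (f i)) volume x y := fun i =>
    ((hf i).monotoneOn _).intervalIntegrable_deriv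
  have h2 : ∀ i, ∫ w in x..y, deriv (f i) w ≤ f i y - f i x := fun i => by
    have h3 := ((hf i).monotoneOn (uIcc x y)).intervalIntegral_deriv_mem_uIcc
    rw [uIcc_of_le (by linarith [hf i hxy]), mem_Icc] at h3
    exact h3.2
  have h4 : ∫ w in x..y, ∑ i, deriv (f i) w = ∑ i, ∫ w in x..y, deriv (f i) w :=
    intervalIntegral.integral_finsetSum fun i _ => h1 i
  have hI : IntegrableOn (fun w => ∑ i, deriv (f i) w) (Ioc x y) := by
    have h5 := fun i => (intervalIntegrable_iff_integrableOn_Ioc_of_le hxy).1 (h1 i)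
    exact integrable_finsetSum _ fun i _ => h5 i
  have hnn : ∀ w, 0 ≤ ∑ i, deriv (f i) w := fun w =>
    Finset.sum_nonneg fun i _ => (hf i).deriv_nonneg
  -- the measurable set
  obtain ⟨A, hA⟩ : ∃ A : Set ℝ, A = {w | κ ≤ ∑ i, deriv (f i) w} ∩ Ioc x y := ⟨_, rfl⟩
  have hAm : MeasurableSet A := by
    rw [hA]
    refine MeasurableSet.inter (measurableSet_le measurable_const ?_) measurableSet_Ioc
    exact Finset.measurable_sum _ fun i _ => measurable_deriv _
  have hAs : A ⊆ Ioc x y := by rw [hA]; exact inter_subset_right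
  have hBA : volume B ≤ volume A := by
    refine measure_mono_ae ?_
    filter_upwards [h] with w hw hwB
    show w ∈ A
    rw [hA]
    exact ⟨hw hwB, Ioo_subset_Ioc_self (hB hwB)⟩
  have hAf : volume A ≠ ⊤ := ne_top_of_le_ne_top (by
    rw [Real.volume_Ioc]
    exact ENNReal.ofReal_ne_top) (measure_mono hAs)
  have h6 : κ * (volume A).toReal ≤ ∫ w in A, ∑ i, deriv (f i) w := by
    have h7 : ∫ _ in A, κ = κ * (volume A).toReal := by
      rw [setIntegral_const, smul_eq_mul, mul_comm]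
      rfl
    rw [← h7]
    refine setIntegral_mono_on (integrableOn_const hAf) (hI.mono_set hAs) hAm fun w hw => ?_
    rw [hA] at hw
    exact hw.1
  have h8 : ∫ w in A, ∑ i, deriv (f i) w ≤ ∫ w in Ioc x y, ∑ i, deriv (f i) w :=
    setIntegral_mono_set hI (Eventually.of_forall hnn) (Eventually.of_forall hAs)
  rw [intervalIntegral.integral_of_le hxy] at h4
  have h9 : ∑ i, ∫ w in x..y, deriv (f i) w ≤ ∑ i, (f i y - f i x) :=
    Finset.sum_le_sum fun i _ => h2 i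
  have h10 : (volume B).toReal ≤ (volume A).toReal := ENNReal.toReal_mono hAf hBA
  have h11 := mul_le_mul_of_nonneg_left h10 hκ
  linarith

/-- **Small slopes in the window**, at almost every static window. -/
theorem slow_ae {ι : Type*} [Fintype ι] {P : ι → ℝ → ℝ → ℝ} (hP : ∀ i, Law (P i)) {E : Set ℝ}
    (hE : ∀ᵐ g : ℝ, g ∈ E → ∀ i, StaAt (P i) g) {R : ℝ → ℝ → Prop}
    (hR : ∀ᵐ a : ℝ, 0 < a → a < 1 → ∀ᵐ w : ℝ, 0 < w → w < a → R w a) :
    ∀ᵐ g : ℝ, g ∈ E → 0 < g → g < 1 → ∀ κ : ℝ, 0 < κ → ∃ a : ℝ, g < a ∧ a < g + κ ∧ a < 1 ∧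
      R g a ∧ ∃ d : ι → ℝ, (∀ i, HasDerivAt (fun w => P i a w) (d i) g) ∧ (∀ i, 0 ≤ d i) ∧
        ∑ i, d i < κ := by
  obtain ⟨F, hF⟩ : ∃ F : ℕ → Set ℝ, F = fun (p : ℕ) => {g | (∀ i, StaAt (P i) g) ∧ 0 < g ∧ g < 1 ∧
      ∀ a : ℝ, g < a → a < g + 1 / ((p : ℝ) + 1) → a < 1 → R g a →
        ¬ ∃ d : ι → ℝ, (∀ i, HasDerivAt (fun w => P i a w) (d i) g) ∧ (∀ i, 0 ≤ d i) ∧
          ∑ i, d i < 1 / ((p : ℝ) + 1)} := ⟨_, rfl⟩
  have hall : ∀ᵐ g : ℝ, ∀ p : ℕ, g ∈ F p → Tendsto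
      (fun r => volume (F p ∩ Metric.closedBall g r) / volume (Metric.closedBall g r))
      (𝓝[>] 0) (𝓝 1) := by
    rw [ae_all_iff]
    exact fun p => ae_imp_of_ae_restrict (Besicovitch.ae_tendsto_measure_inter_div volume (F p))
  filter_upwards [hE, hall] with g hg1 hg2 hgE h0 h1 κ hκ
  by_contra hcon
  obtain ⟨p, hp⟩ := exists_nat_one_div_lt hκ
  obtain ⟨μ, hμ⟩ : ∃ μ : ℝ, μ = 1 / ((p : ℝ) + 1) := ⟨_, rfl⟩
  have hμ0 : 0 < μ := by rw [hμ]; positivity
  have hgF : g ∈ F p := by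
    rw [hF]
    refine ⟨hg1 hgE, h0, h1, fun a a1 a2 a3 a4 hd => hcon ⟨a, a1, by linarith, a3, a4, ?_⟩⟩
    obtain ⟨d, b1, b2, b3⟩ := hd
    exact ⟨d, b1, b2, b3.trans hp⟩
  obtain ⟨t₀, ht₀, hhalf⟩ := dens_half (hg2 p hgF)
  -- the static windows
  obtain ⟨e, he⟩ : ∃ e : ℝ, e = μ / (2 * (Fintype.card ι + 1)) := ⟨_, rfl⟩
  have he0 : 0 < e := by rw [he]; positivity
  have hst : ∃ r₀ : ℝ, 0 < r₀ ∧ ∀ i, ∀ r : ℝ, 0 < r → r < r₀ → StaD (P i) g r (e * r) := by
    have hs := fun i => hg1 hgE i e he0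
    choose r₀ hr₀ hs' using hs
    by_cases hne : Nonempty ι
    · refine ⟨Finset.univ.inf' Finset.univ_nonempty r₀, (Finset.lt_inf'_iff _).2 fun i _ => hr₀ i,
        fun i r hr hr' => hs' i r hr (hr'.trans_le (Finset.inf'_le _ (Finset.mem_univ i)))⟩
    · exact ⟨1, one_pos, fun i => (hne ⟨i⟩).elim⟩
  obtain ⟨r₀, hr₀, hsta⟩ := hst
  -- a radius
  obtain ⟨δ, hδ⟩ : ∃ δ, δ = min (min t₀ μ) (min r₀ (1 - g)) := ⟨_, rfl⟩
  have hδ0 : 0 < δ := by
    rw [hδ]
    exact lt_min (lt_min ht₀ hμ0) (lt_min hr₀ (by linarith))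
  obtain ⟨a, ha, haR⟩ : ∃ a ∈ Ioo g (g + δ), (0 < a → a < 1 → ∀ᵐ w : ℝ, 0 < w → w < a → R w a) := by
    by_contra hno
    have e1 : Ioo g (g + δ) ⊆ {a | ¬ (0 < a → a < 1 → ∀ᵐ w : ℝ, 0 < w → w < a → R w a)} := by
      exact fun a ha hc => hno ⟨a, ha, hc⟩
    have e2 : volume (Ioo g (g + δ)) = 0 := measure_mono_null e1 (ae_iff.1 hR)
    rw [Real.volume_Ioo, add_sub_cancel_left, ENNReal.ofReal_eq_zero] at e2
    linarith
  have d1 : a - g < t₀ := by
    have : δ ≤ t₀ := by rw [hδ]; exact (min_le_left _ _).trans (min_le_left _ _)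
    linarith [ha.2]
  have d2 : a - g < μ := by
    have : δ ≤ μ := by rw [hδ]; exact (min_le_left _ _).trans (min_le_right _ _)
    linarith [ha.2]
  have d3 : a - g < r₀ := by
    have : δ ≤ r₀ := by rw [hδ]; exact (min_le_right _ _).trans (min_le_left _ _)
    linarith [ha.2]
  have d4 : a < 1 := by
    have : δ ≤ 1 - g := by rw [hδ]; exact (min_le_right _ _).trans (min_le_right _ _)
    linarith [ha.2]
  have ha0 : 0 < a := h0.trans ha.1
  have haR' := haR ha0 d4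
  -- the monotone functions of the window
  obtain ⟨f, hf⟩ : ∃ f : ι → ℝ → ℝ, f = fun i w => P i a (ca a w) := ⟨_, rfl⟩
  have hfm : ∀ i, Monotone (f i) := fun i x y hxy => by
    rw [hf]
    exact (hP i).mono_w a _ _ ca_nonneg (ca_mono hxy) (ca_le ha0.le) d4.le
  have hfe : ∀ i w, 0 < w → w < a → f i =ᶠ[𝓝 w] fun w => P i a w := fun i w b1 b2 => by
    rw [hf]
    filter_upwards [Ioo_mem_nhds b1 b2] with x hx
    show P i a (ca a x) = P i a x
    rw [ca_of hx.1.le hx.2.le]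
  have hdf : ∀ᵐ w : ℝ, ∀ i, DifferentiableAt ℝ (f i) w :=
    ae_all_iff.2 fun i => (hfm i).ae_differentiableAt
  have hkey : ∀ᵐ w : ℝ, w ∈ F p ∩ Ioo g a → μ ≤ ∑ i, deriv (f i) w := by
    filter_upwards [haR', hdf] with w b1 b2 b3
    obtain ⟨b4, b5, b6⟩ := b3
    rw [hF] at b4
    obtain ⟨-, c1, c2, c3⟩ := b4
    by_contra hlt
    push Not at hlt
    refine c3 a b6 (by linarith) d4 (b1 c1 b6) ⟨fun i => deriv (f i) w, fun i => ?_, fun i =>
      (hfm i).deriv_nonneg, by rw [← hμ]; exact hlt⟩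
    exact (b2 i).hasDerivAt.congr_of_eventuallyEq (hfe i w c1 b6).symm
  have hint := int_deriv_le hfm ha.1.le hμ0.le (B := F p ∩ Ioo g a) inter_subset_right hkey
  have hmeas : (a - g) / 2 ≤ (volume (F p ∩ Ioo g a)).toReal := by
    have e1 := hhalf (a - g) (by linarith [ha.1]) d1
    rw [add_sub_cancel] at e1
    have e2 : volume (F p ∩ Ioo g a) ≠ ⊤ := ne_top_of_le_ne_top (by
      rw [Real.volume_Ioo]
      exact ENNReal.ofReal_ne_top) (measure_mono inter_subset_right)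
    exact (ENNReal.ofReal_le_iff_le_toReal e2).1 e1
  have hup : ∑ i, (f i a - f i g) ≤ (Fintype.card ι : ℝ) * (e * (a - g)) := by
    have e1 : ∀ i, f i a - f i g ≤ e * (a - g) := fun i => by
      have e2 := hsta i (a - g) (by linarith [ha.1]) d3 a g (by linarith [ha.1]) ha.1.le
        (by linarith [ha.1])
      rw [hf]
      show P i a (ca a a) - P i a (ca a g) ≤ _
      rw [ca_of ha0.le le_rfl, ca_of h0.le ha.1.le]
      linarith
    calc ∑ i, (f i a - f i g) ≤ ∑ _i : ι, e * (a - g) := Finset.sum_le_sum fun i _ => e1 i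
      _ = (Fintype.card ι : ℝ) * (e * (a - g)) := by
        rw [Finset.sum_const, Finset.card_univ, nsmul_eq_mul]
  -- the contradiction
  have hcard : (Fintype.card ι : ℝ) * e < μ / 2 := by
    rw [he]
    have : (0 : ℝ) ≤ Fintype.card ι := by positivity
    rw [mul_div_assoc', div_lt_iff₀ (by positivity)]
    nlinarith
  have hag : 0 < a - g := by linarith [ha.1]
  have k1 := mul_le_mul_of_nonneg_left hmeas hμ0.le
  have k2 := mul_lt_mul_of_pos_right hcard hag
  have k3 : (Fintype.card ι : ℝ) * (e * (a - g)) = (Fintype.card ι : ℝ) * e * (a - g) := by ring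
  have k4 : μ / 2 * (a - g) = μ * ((a - g) / 2) := by ring
  linarith

/-- The form with the increments at the window. -/
theorem slow_inc {ι : Type*} [Fintype ι] {P : ι → ℝ → ℝ → ℝ} {a g κ : ℝ} {d : ι → ℝ}
    (h : ∀ i, HasDerivAt (fun w => P i a w) (d i) g) (hd : ∑ i, d i < κ) :
    ∃ s₀ : ℝ, 0 < s₀ ∧ ∀ s : ℝ, 0 < s → s < s₀ → ∑ i, (P i a (g + s) - P i a g) ≤ κ * s := by
  have h1 : HasDerivAt (fun w => ∑ i, P i a w) (∑ i, d i) g := HasDerivAt.fun_sum fun i _ => h i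
  have h2 := h1.isLittleO.def (show 0 < κ - ∑ i, d i by linarith)
  obtain ⟨s₀, hs₀, h3⟩ := Metric.eventually_nhds_iff.1 h2
  refine ⟨s₀, hs₀, fun s hs hs' => ?_⟩
  have h4 := h3 (y := g + s) (by rw [Real.dist_eq, add_sub_cancel_left, abs_of_pos hs]; exact hs')
  rw [Real.norm_eq_abs, Real.norm_eq_abs, smul_eq_mul, add_sub_cancel_left, abs_of_pos hs] at h4
  have h5 := (abs_le.1 h4).2
  rw [Finset.sum_sub_distrib]
  have h6 : (κ - ∑ i, d i) * s = κ * s - s * ∑ i, d i := by ring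
  linarith

end Pool.STR
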