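import Pool.Agent.H2.GEN.ChT

/-!
# The thresholds of the system of all chains

The thresholds of the system `Pool.LBN.lsys` (chains with any gradients) are thresholds along the
chains for every exponent of the gradients: no chain of any gradients is better (`no_unif`), and
`ChThr` holds for every `θ`.
-/

set_option autoImplicit false

namespace Pool.LBN

open Finset Real MvPolynomial
open Pool.Agent.H49.Ent Pool.Agent.H32.Dense Pool.STK Pool.KA Pool.KSAT Pool.K2S Pool.PB Pool.S6C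
open Pool.GEN (bt bd PtT LnT DepC NBx ChOK ChN Chn ChThr)
open Pool.LBT (LSys Slo Tri ThrOf)
open Pool.LEV (Law)
open Pool.CHT (bet)

variable {n : ℕ} {S : PCl n} {P : List (Fin n) × Fin n → ℝ → ℝ → ℝ}

/-- **No better label**, uniformly: no chain of natural exponents, of the radius and of the window
of the threshold or larger, of any sides and any gradients, has a better label of its last
coordinate. -/
theorem no_unif (hP : ThrOf (lsys n) S P) (c : ℕ → Fin n) (i : ℕ) (K : ℕ → ℕ) (a w : ℚ)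
    (h : ℝ) (hw : 0 ≤ w) (hwa : w ≤ a) (ha : a ≤ 1) (hh : 0 < h) (h1 : bet P c i a w + h ≤ 1) :
    Bas S (fun J F A => ∀ (a₀ w₀ e₀ : ℕ) (g : ℕ → ℕ), w₀ ≤ a₀ → a₀ ≤ ⌊(a : ℝ) * J⌋₊ →
      w₀ ≤ ⌊(w : ℝ) * J⌋₊ → (∀ l ≤ i, g l ≤ J) →
      ⌊(bet P c i a w + h) * J⌋₊ + a₀ ≤ g i + ⌊(a : ℝ) * J⌋₊ →
      ¬ ChN F c (i + 1) K a₀ w₀ e₀ g A) := by
  obtain ⟨K₀, hK₀⟩ : ∃ K₀, K₀ = (range (i + 1)).sup K := ⟨_, rfl⟩
  refine Bas.mono 0 (hP.no ((List.range i).map c, c i) K₀ a w h hw hwa ha hh h1) ?_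
  intro J _ F A hn a₀ w₀ e₀ g k1 k2 k3 k5 k6 k7
  refine hn ?_
  have hlen : ((List.range i).map c).length = i := by simp
  refine ⟨a₀, w₀, e₀, g, k1, k2, k3, ?_, ?_, ?_⟩
  · change ⌊(bet P c i a w + h) * J⌋₊ + a₀ ≤ g ((List.range i).map c).length + ⌊(a : ℝ) * J⌋₊
    rw [hlen]
    exact k6
  · change ∀ j ≤ ((List.range i).map c).length, g j ≤ J
    rw [hlen]
    exact k5
  · change ChN F (cof ((List.range i).map c) (c i)) (((List.range i).map c).length + 1)
      (fun _ => K₀) a₀ w₀ e₀ g A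
    rw [hlen]
    refine chn_congr k7 (fun l hl => ?_) (fun l hl => ?_) fun _ _ => rfl
    · rcases Nat.lt_or_ge l i with h2 | h2
      · rw [cof_lt (by rw [hlen]; exact h2)]
        simp
      · have : l = i := by omega
        subst this
        rw [cof_ge hlen.le]
    · rw [hK₀]
      exact Finset.le_sup (f := K) (mem_range.2 hl)

/-- **The thresholds along a chain**, for every bound of the gradients. -/
theorem chThr_of (hP : ThrOf (lsys n) S P) (c : ℕ → Fin n) (r : ℕ) (θ : ℝ) :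
    ChThr S c r θ (bet P c) where
  low := fun i _ a w h0 h1 h2 => hP.low _ a w h0 h1 h2
  up := fun i _ a w h0 h1 h2 => hP.up _ a w h0 h1 h2
  mono := fun i _ a a' w w' h0 h1 h2 h3 h4 h5 => (hP.law _).mono h0 h1 h2 h3 h4 h5
  slope := fun i _ a w v h0 h1 h2 h3 => (hP.law _).slope a w v h0 h1 h2 h3
  no := by
    intro i _ K a w e' h g h0 h1 h2 _ hh hb hg
    refine Bas.mono 0 (no_unif hP c i K a w h h0 h1 h2 hh hb) ?_
    intro J _ F A hn hC
    have hJ : (0 : ℝ) ≤ J := Nat.cast_nonneg J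
    have hwR : (w : ℝ) ≤ a := by exact_mod_cast h1
    refine hn ⌊(a : ℝ) * J⌋₊ ⌊(w : ℝ) * J⌋₊ ⌊e' * J⌋₊ _
      (Nat.floor_le_floor (mul_le_mul_of_nonneg_right hwR hJ)) le_rfl le_rfl (fun l hl => ?_)
      ?_ hC
    · show ⌊(if l = i then bet P c i a w + h else g l) * J⌋₊ ≤ J
      refine Pool.LBT.fl_le' ?_ J
      split_ifs with h3
      · exact hb
      · have h4 : l < i := lt_of_le_of_ne hl h3
        have h5 : bet P c l a w ≤ 1 :=
          hP.up _ a w (by exact_mod_cast h0) hwR (by exact_mod_cast h2)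
        linarith [hg l h4]
    · show _ ≤ ⌊(if i = i then bet P c i a w + h else g i) * J⌋₊ + _
      rw [if_pos rfl]

end Pool.LBN
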