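import Pool.Agent.H39.GEN.Psb
import Pool.Agent.H99.GEN.GrC
import Pool.Agent.H9.ZC.Zact

/-!
# The closed code of a chain and the coordinates of a zoom

`cod_of`: the closed code of a chain whose radius is the window, on a part of constant proportion.
`Nea`: the coordinates of the zoom are functions of the sheared coordinates.
`zoom_ch`: the entropy of the coordinates of the zoom, from the entropy of the sheared coordinates.
-/

set_option autoImplicit false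

namespace Pool.PSI

open Finset Real MvPolynomial
open Pool.Agent.H49.Ent Pool.Agent.H32.Dense Pool.STK Pool.KA Pool.KSAT Pool.K2S Pool.PB Pool.S6C
open Pool.GEN Pool.CHT Pool.SHR Pool.ZCL Pool.ZLC
open Pool.STAT (PN TriN)
open Pool.STAT.CLO

variable {m n J : ℕ}

/-- **The closed code of a chain**, on a part of constant proportion. -/
theorem cod_of (n K : ℕ) : ∃ C : ℕ, 1 ≤ C ∧ ∀ {m J : ℕ} {F : Fam m J} {c : ℕ → Fin m}
    {D a w e : ℕ} {g : ℕ → ℕ} {A : F.Ω → Prop} {G : PtT F → ℕ → MvPolynomial (Option (Fin m)) ℝ}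
    {H : LnT F → ℕ → MvPolynomial (Option (Fin m)) ℝ}, D ≤ K → w ≤ a → a ≤ J →
    Set.InjOn c (Set.Iio n) → ChOK F c n (fun _ => D) a w e g A G H →
    ∃ (B : F.Ω → Prop) (z : PtT F → LV) (z' : LnT F → LV)
      (P : LV → ℕ → MvPolynomial (Option (Fin m)) ℝ), Sub B A ∧ Pe F.p A ≤ C * Pe F.p B ∧
      Cod F c n C C a a g B G z z' P := by
  obtain ⟨c', hc', hclo⟩ := Pool.GRD.clo1 n K
  obtain ⟨c₂, hc₂⟩ := pow_unbounded_of_one_lt (((c' : ℝ) * 1 * 2) ^ c') (one_lt_two (α := ℝ))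
  refine ⟨c' + c₂, by omega, ?_⟩
  intro m J F c D a w e g A G H hD hwa haJ hc hL
  have hinj : Inj c n := fun l hl l' hl' h => hc hl hl' h
  obtain ⟨z, z', P, B, hBA, hPe, htri, hdeg, hcls, hnr, -⟩ := hclo m J F c (fun _ => D) a w e g A
    G H hwa haJ hinj (fun _ _ => hD) hL
  refine ⟨B, z, z', fun v i => Pool.GRD.tb c (P v (i + 1)), hBA, hPe.trans ?_, hcls,
    fun v i => (Pool.GRD.tb_deg c _).trans ((hdeg v _).trans (Nat.le_add_right _ _)),
    fun v i b b' h0 hb => Pool.GRD.tb_dep c (htri v (i + 1)) h0 fun k hk => ?_,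
    fun ω hω i hi b hb => ?_⟩
  · refine mul_le_mul_of_nonneg_right ?_ (Pe_nonneg F.isLaw B)
    exact_mod_cast Nat.le_add_right _ _
  · obtain ⟨l, hl, rfl⟩ := mem_image.1 hk
    exact hb l (mem_range.1 hl)
  · obtain ⟨X, hX⟩ : ∃ X : ℕ → ℝ, X = Pool.GRD.pb c b := ⟨_, rfl⟩
    have hX0 : X 0 = b none := by
      rw [hX]
      exact if_pos rfl
    have hXs : ∀ l, X (l + 1) = b (some (c l)) := by
      intro l
      rw [hX]
      exact if_neg (by omega)
    have hGs : ∀ l < n, eval X (Gs c n a G (ptr F J ω) (l + 1)) = eval b (G (ptr F J ω) l) := by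
      intro l hl
      unfold Gs
      rw [sy_succ hl]
      exact eval_tr hinj hl.le (hL.depG _ l) hX0.symm fun l' _ => (hXs l').symm
    have hbox : Bxr 2 (gg a g) (Gs c n a G (ptr F J ω)) (i + 1) X := by
      intro j hj
      rcases Nat.eq_zero_or_pos j with h0 | h0
      · subst h0
        have h2 : gg a g 0 = a := if_pos rfl
        rw [h2]
        unfold Gs
        rw [sy_zero, eval_C, hX0, tp_eq]
        have h3 := t_cell F haJ ω
        have h4 := hb.1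
        have h5 : (2 : ℝ) / 2 ^ a = 1 / 2 ^ a + 1 / 2 ^ a := by ring
        rw [h5]
        rw [abs_le] at h3 h4 ⊢
        constructor <;> linarith [h3.1, h3.2, h4.1, h4.2]
      · obtain ⟨j, rfl⟩ : ∃ j', j = j' + 1 := ⟨j - 1, by omega⟩
        have h2 : gg a g (j + 1) = g j := if_neg (by omega)
        rw [h2, hGs j (by omega), hXs]
        exact (hb.2 j (by omega)).trans (div_le_div_of_nonneg_right (by norm_num) (by positivity))
    obtain ⟨-, h2⟩ := hnr ω (hω)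
    have h3 := h2 (i + 1) (by omega) (by omega) 2 (by norm_num) X hbox
    have h4 : gg a g (i + 1) = g i := if_neg (by omega)
    rw [h4, hGs i hi, hcls ω hω] at h3
    rw [Pool.GRD.eval_tb, ← hX, abs_sub_comm]
    refine h3.trans (div_le_div_of_nonneg_right ?_ (by positivity))
    exact hc₂.le.trans (pow_le_pow_right₀ (by norm_num) (by omega))

/-! ### The coordinates of the zoom -/

/-- Differences. -/
theorem L_sub {κ : Type} (C : Crd m κ) (k : κ) (x y : Fin m → ℝ) (i : Fin m) :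
    C.L k (fun j => x j - y j) i = C.L k x i - C.L k y i := by
  have h := C.lin k x y (-1) i
  have e : (fun j => x j + -1 * y j) = fun j => x j - y j := by
    funext j
    ring
  rw [e] at h
  rw [h]
  ring

/-- **The coordinates of the zoom are functions of the sheared coordinates.** A vector `y`: if its
sheared coordinates `y (c i) - v (c i) y (c l)`, `i ≠ l`, are at most `2 ^ (M i - J)` then the
coordinates `e j`, `j ≠ lt`, in the zoom are at most `2 ^ (c₀ - J)`, and if moreover `y (c l)` is at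
most `2 ^ (-Q)` then the coordinate `e lt` is at most `2 ^ (c₀ - Q')`. -/
def Nea {κ : Type} (C : Crd m κ) (k : κ) (v : Fin m → ℝ) (c : ℕ → Fin m) (l r : ℕ) (M : ℕ → ℕ)
    (e : Fin n → Fin m) (lt : Fin n) (J Q Q' c₀ : ℕ) : Prop :=
  ∀ y : Fin m → ℝ, (∀ i ≤ r, i ≠ l → |y (c i) - v (c i) * y (c l)| ≤ 1 / 2 ^ (J - M i)) →
    (∀ j, j ≠ lt → |C.L k y (e j)| ≤ 2 ^ c₀ / 2 ^ J) ∧
    (|y (c l)| ≤ 1 / 2 ^ Q → |C.L k y (e lt)| ≤ 2 ^ c₀ / 2 ^ Q')

/-- **The entropy of the coordinates of the zoom.** -/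
theorem zoom_ch {F : Fam m J} {w J' : ℕ} (h : w + J' = J) {κ : Type} (C : Crd m κ)
    (z' : LnT F → κ) (e : Fin n → Fin m) {q : F.Ω → ℝ} (hq : IsLaw q) {c : ℕ → Fin m}
    {l r Q Qz c₀ s : ℕ} {M : ℕ → ℕ} {lt : Fin n} {b : Fin s → Fin n} (hb : ∀ i, b i ≠ lt)
    (hQz : Qz ≤ J') {v : PtT F → Fin m → ℝ} {v' : κ → Fin m → ℝ}
    (hv : ∀ ω, 0 < q ω → v (ptr F J ω) = v' (z' (slam F w ω)))
    (hN : ∀ ω, 0 < q ω → Nea C (z' (slam F w ω)) (v (ptr F J ω)) c l r M e lt J Q (w + Qz) c₀) :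
    CH q (fun ω => ((zfc F w J' h.le C (fun ω => z' (slam F w ω)) e).X Qz ω lt,
      fun i => (zfc F w J' h.le C (fun ω => z' (slam F w ω)) e).X J' ω (b i)))
      (zfc F w J' h.le C (fun ω => z' (slam F w ω)) e).W ≤
    CH q (fun ω => (F.X Q ω (c l), fun i : Fin (r + 1) => Cz F c l v M i ω))
      (fun ω => (z' (slam F w ω), F.W ω)) + (s + 1) * ((c₀ + 6) * Real.log 2) := by
  have h0 := hq.nonneg
  obtain ⟨g, hg⟩ : ∃ g : F.Ω → κ, g = fun ω => z' (slam F w ω) := ⟨_, rfl⟩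
  rw [← hg]
  have hgv : ∀ ω, g ω = z' (slam F w ω) := fun ω => by rw [hg]
  have pJ : (0 : ℝ) < 2 ^ J' := by positivity
  have pw : (0 : ℝ) < 2 ^ w := by positivity
  obtain ⟨Y, hY⟩ : ∃ Y : F.Ω → ℤ × (Fin (r + 1) → ℤ), Y = fun ω => (F.X Q ω (c l),
    fun i : Fin (r + 1) => Cz F c l v M i ω) := ⟨_, rfl⟩
  rw [← hY]
  obtain ⟨x, hx⟩ : ∃ x : F.Ω → Fin n → ℝ, x = (zfc F w J' h.le C g e).x := ⟨_, rfl⟩
  obtain ⟨W, hWd⟩ : ∃ W : F.Ω → ℕ × ((((ℕ × κ) × ((Fin m → ℤ) × (Fin m → ℤ))) × F.ζ)),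
    W = (zfc F w J' h.le C g e).W := ⟨_, rfl⟩
  suffices hmain : CH q (fun ω => (⌊(2 : ℝ) ^ Qz * x ω lt⌋, fun i => ⌊(2 : ℝ) ^ J' * x ω (b i)⌋))
      W ≤ CH q Y (fun ω => (z' (slam F w ω), F.W ω)) + (s + 1) * ((c₀ + 6) * Real.log 2) by
    rw [hx, hWd] at hmain
    exact hmain
  have hW : ∀ ω ω', W ω = W ω' → F.T ω = F.T ω' ∧ F.blab w C g ω = F.blab w C g ω' ∧
      g ω = g ω' ∧ F.W ω = F.W ω' := by
    intro ω ω' hh
    rw [hWd] at hh
    obtain ⟨h1, h2⟩ := (zcw_iff h C g e).1 hh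
    obtain ⟨-, b2, -, -, b5⟩ := Box.split_lab F h2
    exact ⟨h1, h2, b2, Prod.ext h1 b5⟩
  -- the near coordinates
  have key : ∀ ω ω', 0 < q ω → 0 < q ω' → Y ω = Y ω' → W ω = W ω' →
      (∀ j, j ≠ lt → |x ω' j - x ω j| ≤ 2 ^ (c₀ + 3) / 2 ^ J') ∧
      |x ω' lt - x ω lt| ≤ 2 ^ (c₀ + 3) / 2 ^ Qz := by
    intro ω ω' hω hω' hYY hWW
    obtain ⟨hT, hl, hgg, -⟩ := hW ω ω' hWW
    obtain ⟨b1, -, b3, b4, -⟩ := Box.split_lab F hl
    rw [hY] at hYY
    have a1 := Prod.ext_iff.mp hYY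
    have hvv : v (ptr F J ω) = v (ptr F J ω') := by
      rw [hv ω hω, hv ω' hω', ← hgv, ← hgv, hgg]
    have htb : tb F w ω = tb F w ω' := by
      unfold tb Fam.t
      rw [hT, b1]
    obtain ⟨n1, n2⟩ := hN ω hω (fun j => F.x ω' j - F.x ω j) (fun i hi hil => by
      have a2 : Cz F c l v M i ω = Cz F c l v M i ω' := congrFun a1.2 ⟨i, by omega⟩
      rw [Cz_ne hil, Cz_ne hil] at a2
      have a3 := fl_near a2
      rw [abs_sub_comm, zco_sub hvv] at a3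
      refine le_trans (le_of_eq ?_) a3
      congr 1
      ring)
    rw [← hgv] at n1 n2
    have hz : ∀ j, |x ω' j - x ω j| ≤
        2 ^ w * |C.L (g ω) (fun j => F.x ω' j - F.x ω j) (e j)| + 6 / 2 ^ J' := by
      intro j
      have c1 := zfc_x F h.le C g e ω j
      have c2 := zfc_x F h.le C g e ω' j
      rw [← hx] at c1 c2
      rw [← b3, ← b4, ← htb, ← hgg] at c2
      rw [L_sub]
      have c3 : (2 : ℝ) ^ w * |C.L (g ω) (F.x ω') (e j) - C.L (g ω) (F.x ω) (e j)| =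
          |2 ^ w * C.L (g ω) (F.x ω') (e j) - 2 ^ w * C.L (g ω) (F.x ω) (e j)| := by
        rw [← mul_sub, abs_mul, abs_of_pos pw]
      rw [c3]
      have c4 := le_abs_self (2 ^ w * C.L (g ω) (F.x ω') (e j) - 2 ^ w * C.L (g ω) (F.x ω) (e j))
      have c5 := neg_abs_le (2 ^ w * C.L (g ω) (F.x ω') (e j) - 2 ^ w * C.L (g ω) (F.x ω) (e j))
      have c6 : (6 : ℝ) / 2 ^ J' = 3 / 2 ^ J' + 3 / 2 ^ J' := by ring
      rw [c6]
      rw [abs_le] at c1 c2 ⊢
      constructor <;> linarith [c1.1, c1.2, c2.1, c2.2]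
    have hp3 : ∀ p : ℕ, (2 : ℝ) ^ c₀ / 2 ^ p + 6 / 2 ^ p ≤ 2 ^ (c₀ + 3) / 2 ^ p := by
      intro p
      rw [← add_div]
      refine div_le_div_of_nonneg_right ?_ (by positivity)
      have : (1 : ℝ) ≤ 2 ^ c₀ := one_le_pow₀ (by norm_num)
      rw [pow_add]
      linarith
    refine ⟨fun j hj => ?_, ?_⟩
    · refine (hz j).trans (le_trans ?_ (hp3 J'))
      have d1 := mul_le_mul_of_nonneg_left (n1 j hj) pw.le
      have d2 : (2 : ℝ) ^ w * (2 ^ c₀ / 2 ^ J) = 2 ^ c₀ / 2 ^ J' := by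
        have d3 : (2 : ℝ) ^ J = 2 ^ w * 2 ^ J' := by rw [← h, pow_add]
        rw [d3]
        field_simp
      linarith
    · refine (hz lt).trans (le_trans ?_ (hp3 Qz))
      have a4 : F.X Q ω (c l) = F.X Q ω' (c l) := a1.1
      have a5 := fl_near (p := Q) (x := F.x ω (c l)) (y := F.x ω' (c l)) a4
      rw [abs_sub_comm] at a5
      have d1 := mul_le_mul_of_nonneg_left (n2 a5) pw.le
      have d2 : (2 : ℝ) ^ w * (2 ^ c₀ / 2 ^ (w + Qz)) = 2 ^ c₀ / 2 ^ Qz := by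
        rw [pow_add]
        field_simp
      have d4 : (6 : ℝ) / 2 ^ J' ≤ 6 / 2 ^ Qz := by
        refine div_le_div_of_nonneg_left (by norm_num) (by positivity) ?_
        exact pow_le_pow_right₀ (by norm_num) hQz
      linarith
  -- the entropies
  have h1 : CH q (fun ω => ⌊(2 : ℝ) ^ Qz * x ω lt⌋) (fun ω => (Y ω, W ω)) ≤
      (c₀ + 6) * Real.log 2 := by
    have h2 := ch_fl hq (fun ω => x ω lt) Qz (c₀ + 3) (fun ω => (Y ω, W ω))
      (fun ω ω' hω hω' hh => (key ω ω' hω hω' (Prod.ext_iff.mp hh).1 (Prod.ext_iff.mp hh).2).2)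
    refine h2.trans (le_of_eq ?_)
    push_cast
    ring
  have h2 : CH q (fun ω i => ⌊(2 : ℝ) ^ J' * x ω (b i)⌋) (fun ω => (Y ω, W ω)) ≤
      s * ((c₀ + 6) * Real.log 2) := by
    obtain ⟨Xi, hXi⟩ : ∃ Xi : ℕ → F.Ω → ℤ, Xi = fun i ω => if hi : i < s then
      ⌊(2 : ℝ) ^ J' * x ω (b ⟨i, hi⟩)⌋ else 0 := ⟨_, rfl⟩
    have h3 := rng_le' h0 Xi (fun ω => (Y ω, W ω)) (fun _ => (c₀ + 6) * Real.log 2) s
      (fun i hi => by
        have h4 := ch_fl hq (fun ω => x ω (b ⟨i, hi⟩)) J' (c₀ + 3) (fun ω => (Y ω, W ω))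
          (fun ω ω' hω hω' hh => (key ω ω' hω hω' (Prod.ext_iff.mp hh).1
            (Prod.ext_iff.mp hh).2).1 _ (hb _))
        have h5 : Xi i = fun ω => ⌊(2 : ℝ) ^ J' * x ω (b ⟨i, hi⟩)⌋ := by
          rw [hXi]
          funext ω
          exact dif_pos hi
        rw [h5]
        refine h4.trans (le_of_eq ?_)
        push_cast
        ring)
    rw [Finset.sum_const, Finset.card_range, nsmul_eq_mul] at h3
    refine le_trans (le_of_eq ?_) h3
    congr 1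
    funext ω i
    rw [hXi]
    simp only [i.2, dif_pos]
  have h3 := CH_le_add h0 (fun ω => (⌊(2 : ℝ) ^ Qz * x ω lt⌋, fun i => ⌊(2 : ℝ) ^ J' * x ω (b i)⌋))
    Y W
  have h4 := CH_subadd h0 (fun ω => ⌊(2 : ℝ) ^ Qz * x ω lt⌋) (fun ω i => ⌊(2 : ℝ) ^ J' * x ω (b i)⌋)
    (fun ω => (Y ω, W ω))
  have h5 : CH q Y W ≤ CH q Y (fun ω => (z' (slam F w ω), F.W ω)) := by
    refine CH_mono_cond h0 fun ω ω' _ _ hh => ?_
    obtain ⟨-, -, b2, b3⟩ := hW ω ω' hh
    rw [hgv, hgv] at b2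
    exact Prod.ext b2 b3
  have h6 : ((s : ℝ) + 1) * ((c₀ + 6) * Real.log 2) = s * ((c₀ + 6) * Real.log 2) +
      (c₀ + 6) * Real.log 2 := by ring
  rw [h6]
  linarith

end Pool.PSI
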