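import Pool.Agent.H39.GEN.Pse
import Pool.Agent.H77.Z4.Mvt

/-!
# The closed codes of the nodes of the data

`codC`: the constant of the codes of chains of `n` labels of degree `K`.
`mevc_of`: the data on large parts of all events, with the codes, from the data without the codes.
-/

set_option autoImplicit false

namespace Pool.PSI

open Finset Real MvPolynomial
open Pool.Agent.H49.Ent Pool.Agent.H32.Dense Pool.STK Pool.KA Pool.KSAT Pool.K2S Pool.PB Pool.S6C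
open Pool.GEN Pool.CHT Pool.Z3 Pool.Z4
open Pool.STAT.CLO

variable {m : ℕ}

/-- The constant of the codes. -/
noncomputable def codC (n K : ℕ) : ℕ := (cod_of n K).choose

theorem codC_pos (n K : ℕ) : 1 ≤ codC n K := (cod_of n K).choose_spec.1

/-- **The closed codes of finitely many chains**, one family, with one constant for each degree. -/
theorem codes_famK (n : ℕ) {J : ℕ} {F : Fam m J} {c : ℕ → Fin m}
    {ι : Type} {D a w e : ι → ℕ} {g : ι → ℕ → ℕ}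
    {T : ι → PtT F → ℕ → MvPolynomial (Option (Fin m)) ℝ}
    {TH : ι → LnT F → ℕ → MvPolynomial (Option (Fin m)) ℝ} {w1 : ℕ} (p : ι → Prop) (L : List ι)
    (hc : Set.InjOn c (Set.Iio n)) : ∀ {B : F.Ω → Prop} {V : Type} {z : PtT F → V}
    {z' : LnT F → V},
    (∀ q ∈ L, w q ≤ a q ∧ a q ≤ J ∧
      ChOK F c n (fun _ => D q) (a q) (w q) (e q) (g q) B (T q) (TH q)) →
    (∀ q ∈ L, p q → a q = w1) → (∀ ω, B ω → z (ptr F J ω) = z' (slam F w1 ω)) →
    ∃ (B' : F.Ω → Prop) (V₁ : Type) (z₁ : PtT F → V₁) (z₁' : LnT F → V₁) (f : V₁ → V),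
      Sub B' B ∧ Pe F.p B ≤ (L.map fun q => (codC n (D q) : ℝ)).prod * Pe F.p B' ∧
      (∀ ω, B' ω → z₁ (ptr F J ω) = z₁' (slam F w1 ω)) ∧ (∀ y, f (z₁ y) = z y) ∧
      (∀ s, f (z₁' s) = z' s) ∧ ∀ q ∈ L,
        (∃ (V₂ : Type) (z₂ : PtT F → V₂) (z₂' : LnT F → V₂)
          (P₂ : V₂ → ℕ → MvPolynomial (Option (Fin m)) ℝ),
          Cod F c n (codC n (D q)) (codC n (D q)) (a q) (a q) (g q) B' (T q) z₂ z₂' P₂) ∧
        (p q → ∃ P₁ : V₁ → ℕ → MvPolynomial (Option (Fin m)) ℝ,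
          Cod F c n (codC n (D q)) (codC n (D q)) (a q) w1 (g q) B' (T q) z₁ z₁' P₁) := by
  classical
  induction L with
  | nil =>
    intro B V z z' _ _ hz
    refine ⟨B, V, z, z', id, fun _ h => h, by simp, hz, fun _ => rfl, fun _ => rfl, ?_⟩
    intro q hq
    exact absurd hq List.not_mem_nil
  | cons q L ih =>
    intro B V z z' hL hp hz
    obtain ⟨B₁, V₁, z₁, z₁', f, hB₁, hP₁, hz₁, hf, hf', hall⟩ := ih
      (fun x hx => hL x (List.mem_cons_of_mem q hx)) (fun x hx => hp x (List.mem_cons_of_mem q hx))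
      hz
    obtain ⟨h2, h3, h4⟩ := hL q List.mem_cons_self
    obtain ⟨B₂, zq, zq', Pq, hB₂, hP₂, hcod⟩ := (cod_of n (D q)).choose_spec.2 le_rfl h2 h3 hc
      (h4.sub hB₁)
    change Pe F.p B₁ ≤ (codC n (D q) : ℝ) * Pe F.p B₂ at hP₂
    change Cod F c n (codC n (D q)) (codC n (D q)) (a q) (a q) (g q) B₂ (T q) zq zq' Pq at hcod
    have hpr : 0 ≤ (L.map fun q => (codC n (D q) : ℝ)).prod :=
      List.prod_nonneg fun x hx => by
        obtain ⟨y, -, rfl⟩ := List.mem_map.1 hx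
        positivity
    have hPP : Pe F.p B ≤ ((q :: L).map fun q => (codC n (D q) : ℝ)).prod * Pe F.p B₂ := by
      rw [List.map_cons, List.prod_cons, mul_comm (codC n (D q) : ℝ), mul_assoc]
      exact hP₁.trans (mul_le_mul_of_nonneg_left hP₂ hpr)
    by_cases hpq : p q
    · have haq := hp q List.mem_cons_self hpq
      have hcl : ∀ ω, B₂ ω → (z₁ (ptr F J ω), zq (ptr F J ω)) =
          (z₁' (slam F w1 ω), zq' (slam F w1 ω)) := by
        intro ω hω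
        have h5 := hcod.cls ω hω
        rw [haq] at h5
        rw [hz₁ ω (hB₂ ω hω), h5]
      refine ⟨B₂, V₁ × LV, fun y => (z₁ y, zq y), fun s => (z₁' s, zq' s), fun v => f v.1,
        fun ω hω => hB₁ ω (hB₂ ω hω), hPP, hcl, fun y => hf y, fun s => hf' s, ?_⟩
      intro x hx
      rcases List.mem_cons.1 hx with rfl | hx
      · refine ⟨⟨_, _, _, _, hcod⟩, fun _ => ⟨fun v => Pq v.2, ?_⟩⟩
        have h6 : Cod F c n (codC n (D x)) (codC n (D x)) (a x) w1 (g x) B₂ (T x) zq zq' Pq := by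
          have h7 := hcod
          rw [haq] at h7 ⊢
          exact h7
        exact h6.comp Prod.snd hcl fun _ => rfl
      · obtain ⟨⟨V₂, z₂, z₂', P₂, h5⟩, h6⟩ := hall x hx
        refine ⟨⟨V₂, z₂, z₂', P₂, h5.sub hB₂⟩, fun hpx => ?_⟩
        obtain ⟨P₁, h7⟩ := h6 hpx
        exact ⟨fun v => P₁ v.1, (h7.sub hB₂).comp Prod.fst hcl fun _ => rfl⟩
    · refine ⟨B₂, V₁, z₁, z₁', f, fun ω hω => hB₁ ω (hB₂ ω hω), hPP,
        fun ω hω => hz₁ ω (hB₂ ω hω), hf, hf', ?_⟩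
      intro x hx
      rcases List.mem_cons.1 hx with rfl | hx
      · exact ⟨⟨_, _, _, _, hcod⟩, fun h => absurd h hpq⟩
      · obtain ⟨⟨V₂, z₂, z₂', P₂, h5⟩, h6⟩ := hall x hx
        refine ⟨⟨V₂, z₂, z₂', P₂, h5.sub hB₂⟩, fun hpx => ?_⟩
        obtain ⟨P₁, h7⟩ := h6 hpx
        exact ⟨P₁, h7.sub hB₂⟩

/-- The data of the nodes with their codes. -/
noncomputable def co (M : MDat) (r : ℕ) : MDat where
  D := M.D
  k := fun a w => codC (r + 1) (M.D a w)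
  d := M.d
  ψ := fun q => M.ψ q / 2
  e := M.e
  E := M.E
  ϱ := M.ϱ

/-- **The data with the codes** from the data without the codes. -/
theorem mevc_of {S : PCl m} {M : MDat} {w₁ E₁ : ℝ} {c : ℕ → Fin m} {r l : ℕ}
    {β : ℕ → ℝ → ℝ → ℝ} {Vd : Rq → Prop} (hc : Set.InjOn c (Set.Iio (r + 1)))
    (hVd : ∀ q, Vd q → q.w ≤ q.a ∧ q.a ≤ 1) (hψ : ∀ q, Vd q → 0 < M.ψ q)
    (H : MEvt S M w₁ E₁ c r l β Vd) : MEvC S (co M r) w₁ E₁ c r l β Vd := by
  classical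
  intro L h hh
  obtain ⟨K, hK, hb⟩ := H L h hh
  obtain ⟨Cp, hCp⟩ : ∃ Cp : ℝ, Cp = (L.map fun q => (codC (r + 1) (M.D q.1.a q.1.w) : ℝ)).prod :=
    ⟨_, rfl⟩
  have hCp0 : 0 < Cp := by
    rw [hCp]
    refine List.prod_pos fun x hx => ?_
    obtain ⟨y, -, rfl⟩ := List.mem_map.1 hx
    have := codC_pos (r + 1) (M.D y.1.a y.1.w)
    positivity
  obtain ⟨ψ, hψ0, hψL⟩ := lst_pos (f := fun q : {q : Rq // Vd q} => M.ψ q.1)
    (fun q => hψ q.1 q.2) L
  obtain ⟨J₁, hJ₁⟩ := share_ex (ψ := ψ / 2) (κ := 1 / Cp) (by positivity) (by positivity)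
  refine ⟨K * Cp, by positivity, hb.mono J₁ ?_⟩
  rintro J hJ F A ⟨B, hBA, hPB, V, z, z', cb, hz, hN, hs, hq⟩
  have hJr : (0 : ℝ) ≤ J := Nat.cast_nonneg J
  choose! T TH hq using hq
  obtain ⟨B', V₁, z₁, z₁', f, hB', hP', hz₁, hf, hf', hall⟩ := codes_famK (r + 1) (F := F) (c := c)
    (ι := {q : Rq // Vd q}) (D := fun q => M.D q.1.a q.1.w) (a := fun q => ⌊q.1.a * J⌋₊)
    (w := fun q => ⌊q.1.w * J⌋₊) (e := fun q => ⌊(M.E + q.1.σ) * J⌋₊) (g := fun q => M.g β q.1 J)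
    (T := T) (TH := TH) (w1 := ⌊w₁ * J⌋₊) (fun q => q.1.a = w₁) L hc
    (B := B) (z := z) (z' := z') (fun q hqL => by
      obtain ⟨h2, h3⟩ := hVd q.1 q.2
      refine ⟨Nat.floor_le_floor (mul_le_mul_of_nonneg_right h2 hJr), ?_, (hq q hqL).nod.top⟩
      have h4 : ⌊q.1.a * (J : ℝ)⌋₊ ≤ ⌊(J : ℝ)⌋₊ :=
        Nat.floor_le_floor (mul_le_of_le_one_left hJr h3)
      rwa [Nat.floor_natCast] at h4)
    (fun q _ h => by rw [h]) hz
  rw [← hCp] at hP'
  have hsh : 1 / Cp * Pe F.p B ≤ Pe F.p B' := by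
    rw [one_div, inv_mul_le_iff₀ hCp0]
    exact hP'
  have e1 : (fun y => cb (f (z₁ y))) = fun y => cb (z y) := funext fun y => by rw [hf]
  refine ⟨B', fun ω h => hBA ω (hB' ω h), ?_, V₁, z₁, z₁', fun v => cb (f v), hz₁, ?_, ?_⟩
  · rw [mul_assoc]
    exact hPB.trans (mul_le_mul_of_nonneg_left hP' hK.le)
  · intro ω hω
    simp only [hf']
    exact hN ω (hB' ω hω)
  · refine ⟨hz₁, fun ω hω i h1 h2 => ?_, fun q hqL => ⟨T q, TH q, ⟨?_, ?_⟩, ?_⟩⟩
    · simp only [hf']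
      exact hs ω (hB' ω hω) i h1 h2
    · refine (hq q hqL).nod.sub hB' hsh (Real.exp_pos _).le ?_
      have h1 : Real.exp (-(1 * (M.ψ q.1) * J)) = Real.exp (-(1 * (M.ψ q.1 / 2) * J)) *
          Real.exp (-(M.ψ q.1 / 2 * J)) := by
        rw [← Real.exp_add]
        congr 1
        ring
      rw [h1]
      refine mul_le_mul_of_nonneg_left (le_trans ?_ (hJ₁ J hJ)) (Real.exp_pos _).le
      refine Real.exp_le_exp.2 (neg_le_neg (mul_le_mul_of_nonneg_right ?_ hJr))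
      have := hψL q hqL
      linarith
    · intro ω hω i h1 h2
      have h3 := (hq q hqL).shr ω (hB' ω hω) i h1 h2
      have e2 : (fun y => dcb c l (cb (f (z₁ y)))) = fun y => dcb c l (cb (z y)) :=
        funext fun y => by rw [hf]
      rw [← e2] at h3
      exact h3
    · obtain ⟨h1, h2⟩ := hall q hqL
      exact ⟨h1, h2⟩

end Pool.PSI
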