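import Pool.Agent.H39.GEN.Psg
import Pool.Agent.H39.GEN.Psh
import Pool.Agent.H77.Z4.Gd

/-!
# The requirement of (Psi2) from the data

`shr_of_shY`: the shear for larger steps. `gdA_ex`, `gdB_ex`: the requirement `PsD` of (Psi2).
`psi2_gdA`, `psi2_gdB`: the statement (Psi2) in the form of the inequality between two windows.
-/

set_option autoImplicit false

namespace Pool.PSI

open Finset Real MvPolynomial
open Pool.Agent.H49.Ent Pool.Agent.H32.Dense Pool.STK Pool.KA Pool.KSAT Pool.K2S Pool.PB Pool.S6C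
open Pool.GEN Pool.CHT Pool.SHR Pool.ZCL Pool.ZLC Pool.ZCO Pool.ONE Pool.PKG Pool.Z3 Pool.Z4
open Pool.STAT.CLO

/-- **The shear for larger steps.** -/
theorem shr_of_shY (D : ℕ) : ∃ C : ℕ, ∀ {m J : ℕ} {F : Fam m J} {c : ℕ → Fin m}
    {l i a h x y : ℕ} {g : ℕ → ℕ} {G : PtT F → ℕ → MvPolynomial (Option (Fin m)) ℝ}
    {v : PtT F → Fin m → ℝ} {ω : F.Ω}, (G (ptr F J ω) i).totalDegree ≤ D → y ≤ g l + x →
    ShY F c l a y g G v h i ω → Shr F c l a g G v (C * (x + 1) + h) i ω := by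
  obtain ⟨C, hC, hgr⟩ := grow_one (D + 1)
  obtain ⟨c₀, hc₀⟩ := pow_unbounded_of_one_lt C (one_lt_two (α := ℝ))
  refine ⟨c₀ + D + 1, ?_⟩
  intro m J F c l i a h x y g G v ω hdeg hyx hS b hb s hs
  obtain ⟨f, hf⟩ : ∃ f : Polynomial ℝ,
      f = (MvPolynomial.aeval (lnv (v (ptr F J ω)) b) (G (ptr F J ω) i) -
        Polynomial.C (eval b (G (ptr F J ω) i)) -
        Polynomial.C (v (ptr F J ω) (c i)) * Polynomial.X).comp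
        (Polynomial.C s * Polynomial.X) := ⟨_, rfl⟩
  have hfe : ∀ τ, f.eval τ = eval (mvp (v (ptr F J ω)) (s * τ) b) (G (ptr F J ω) i) -
      eval b (G (ptr F J ω) i) - s * τ * v (ptr F J ω) (c i) := by
    intro τ
    rw [hf, Polynomial.eval_comp, Polynomial.eval_sub, Polynomial.eval_sub, eval_lnv]
    simp only [Polynomial.eval_mul, Polynomial.eval_C, Polynomial.eval_X]
    ring
  have hfd : f.natDegree ≤ D + 1 := by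
    rw [hf]
    refine Polynomial.natDegree_comp_le.trans ?_
    have h1 : (MvPolynomial.aeval (lnv (v (ptr F J ω)) b) (G (ptr F J ω) i) -
        Polynomial.C (eval b (G (ptr F J ω) i)) -
        Polynomial.C (v (ptr F J ω) (c i)) * Polynomial.X).natDegree ≤ D + 1 := by
      refine (Polynomial.natDegree_sub_le _ _).trans (max_le ?_ ?_)
      · refine (Polynomial.natDegree_sub_le _ _).trans (max_le ?_ ?_)
        · exact (natDegree_lnv _ b hdeg).trans (Nat.le_succ _)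
        · rw [Polynomial.natDegree_C]
          exact Nat.zero_le _
      · exact ((Polynomial.natDegree_C_mul_le _ _).trans Polynomial.natDegree_X_le).trans
          (by omega)
    have h2 : (Polynomial.C s * Polynomial.X : Polynomial ℝ).natDegree ≤ 1 :=
      (Polynomial.natDegree_C_mul_le _ _).trans Polynomial.natDegree_X_le
    calc _ ≤ (D + 1) * 1 := Nat.mul_le_mul h1 h2
      _ = D + 1 := mul_one _
  have hsx : |s| ≤ 2 ^ x / 2 ^ y := by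
    refine hs.trans ?_
    rw [div_le_div_iff₀ (by positivity) (by positivity), one_mul, ← pow_add]
    exact pow_le_pow_right₀ one_le_two (by omega)
  have h1 := hgr f (2 ^ h / 2 ^ g i) x (D + 1) hfd le_rfl (fun τ hτ => by
    rw [hfe]
    refine hS b hb _ ?_
    rw [abs_mul, abs_of_nonneg (div_nonneg hτ.1 (by positivity))]
    calc |s| * (τ / 2 ^ x) ≤ 2 ^ x / 2 ^ y * (1 / 2 ^ x) :=
          mul_le_mul hsx (div_le_div_of_nonneg_right hτ.2 (by positivity))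
            (div_nonneg hτ.1 (by positivity)) (by positivity)
      _ = _ := by field_simp)
  rw [hfe, mul_one] at h1
  refine h1.trans ?_
  calc C * 2 ^ (x * (D + 1)) * (2 ^ h / 2 ^ g i)
      ≤ 2 ^ c₀ * 2 ^ (x * (D + 1)) * (2 ^ h / 2 ^ g i) :=
        mul_le_mul_of_nonneg_right (mul_le_mul_of_nonneg_right hc₀.le (by positivity))
          (by positivity)
    _ = 2 ^ (c₀ + x * (D + 1) + h) / 2 ^ g i := by rw [pow_add, pow_add]; ring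
    _ ≤ _ := div_le_div_of_nonneg_right (pow_le_pow_right₀ (by norm_num) (by nlinarith))
        (by positivity)

/-- A larger loss. -/
theorem shr_mono {m J : ℕ} {F : Fam m J} {c : ℕ → Fin m} {l a h h' i : ℕ} {g : ℕ → ℕ}
    {G : PtT F → ℕ → MvPolynomial (Option (Fin m)) ℝ} {v : PtT F → Fin m → ℝ} {ω : F.Ω}
    (H : Shr F c l a g G v h i ω) (hh : h ≤ h') : Shr F c l a g G v h' i ω :=
  fun b hb s hs => (H b hb s hs).trans (div_le_div_of_nonneg_right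
    (pow_le_pow_right₀ one_le_two hh) (by positivity))

/-- The floor of a sum. -/
theorem fl_split (a d : ℝ) : ⌊a⌋₊ ≤ ⌊a - d⌋₊ + (⌊d⌋₊ + 1) := by
  have h1 := Nat.lt_floor_add_one (a - d)
  have h2 := Nat.lt_floor_add_one d
  have h3 : ⌊a⌋₊ < ⌊a - d⌋₊ + (⌊d⌋₊ + 1) + 1 := by
    refine (Nat.floor_lt' (by omega)).2 ?_
    push_cast
    linarith
  omega

section

variable {n : ℕ} {hn : 2 ≤ n} {σ : Equiv.Perm (Fin (n - 1))} {l : ℕ}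

/-- The shear of full size of a node, from the shear of the data. -/
theorem nds_shr {M : MDat} {β : ℕ → ℝ → ℝ → ℝ} {q : Rq} {D₀ C : ℕ}
    (hC : ∀ {m J : ℕ} {F : Fam m J} {c : ℕ → Fin m}
      {l i a h x y : ℕ} {g : ℕ → ℕ} {G : PtT F → ℕ → MvPolynomial (Option (Fin m)) ℝ}
      {v : PtT F → Fin m → ℝ} {ω : F.Ω}, (G (ptr F J ω) i).totalDegree ≤ D₀ → y ≤ g l + x →
      ShY F c l a y g G v h i ω → Shr F c l a g G v (C * (x + 1) + h) i ω)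
    (hD₀ : M.D q.a q.w ≤ D₀) (hlam : q.lam = 0) (hd0 : 0 ≤ M.d q l) (hη0 : 0 ≤ q.η) {η ν : ℝ}
    {J : ℕ}
    (hJ : 2 * (C : ℝ) + 2 ≤ (η - (C * M.d q l + q.η)) * J) {F : Fam n J} {A : F.Ω → Prop}
    {V : Type} {z : PtT F → V} {cb : V → Fin n → ℝ} {c : ℕ → Fin n} {r : ℕ}
    {T : PtT F → ℕ → MvPolynomial (Option (Fin n)) ℝ}
    {TH : LnT F → ℕ → MvPolynomial (Option (Fin n)) ℝ}
    (N : NdS ν M c r l β q F A z cb T TH) :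
    ∀ ω, A ω → ∀ i, l < i → i < r + 1 → Shr F c l ⌊q.a * J⌋₊ (M.g β q J) T
      (fun y => dcb c l (cb (z y))) ⌊η * J⌋₊ i ω := by
  intro ω hω i h1 h2
  have hJr : (0 : ℝ) ≤ J := Nat.cast_nonneg J
  have h3 := N.shr ω hω i h1 h2
  rw [hlam, add_zero] at h3
  refine shr_mono (hC ((N.nod.top.degG _ i).trans hD₀) (x := ⌊M.d q l * J⌋₊ + 1) ?_ h3) ?_
  · have h4 := fl_split (β l q.a q.w * (J : ℝ)) (M.d q l * J)
    have e1 : β l q.a q.w * (J : ℝ) - M.d q l * J = (β l q.a q.w - M.d q l) * J := by ring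
    rw [e1] at h4
    exact h4
  · refine Nat.le_floor ?_
    push_cast
    have h4 : ((⌊M.d q l * (J : ℝ)⌋₊ : ℕ) : ℝ) ≤ M.d q l * J := Nat.floor_le (by positivity)
    have h5 : ((⌊q.η * (J : ℝ)⌋₊ : ℕ) : ℝ) ≤ q.η * J := Nat.floor_le (by positivity)
    have hC0 : (0 : ℝ) ≤ C := Nat.cast_nonneg C
    have h6 := mul_le_mul_of_nonneg_left h4 hC0
    have e1 : (η - (C * M.d q l + q.η)) * (J : ℝ) = η * J - C * (M.d q l * J) - q.η * J := by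
      ring
    rw [e1] at hJ
    linarith

/-- **The requirement of (Psi2), case A.** -/
theorem gdA_ex (D₀ : ℕ) : ∃ C : ℕ, ∀ {n : ℕ} {hn : 2 ≤ n} {σ : Equiv.Perm (Fin (n - 1))}
    {l : ℕ} {hl : l < n - 1} {M : MDat} {w₁ wb : ℝ} {β : ℕ → ℝ → ℝ → ℝ} {Vd : Rq → Prop}
    {Dr₁ Dr₂ : ℕ} {η₁ η₂ σ₁ σ₂ : ℝ}, Vd ⟨w₁, w₁, 0, Dr₁, η₁, σ₁⟩ → Vd ⟨wb, wb, 0, Dr₂, η₂, σ₂⟩ →
    ∀ {D k : ℕ}, M.D w₁ w₁ ≤ D → M.D wb wb ≤ D → M.D wb wb ≤ D₀ → M.k w₁ w₁ ≤ D →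
    M.k wb wb ≤ D → M.k w₁ w₁ ≤ k → M.k wb wb ≤ k → 0 ≤ w₁ → w₁ ≤ 1 → 0 ≤ M.E →
    ∀ {δ μ η Qb x₀ : ℝ}, 0 ≤ δ → 0 ≤ μ → 0 < x₀ → 0 ≤ σ₁ → 0 ≤ σ₂ → 0 ≤ η₂ →
    (∀ i ≤ n - 1, 0 ≤ β i w₁ w₁ ∧ 0 ≤ M.d ⟨w₁, w₁, 0, Dr₁, η₁, σ₁⟩ i ∧
      M.E + σ₁ + β i w₁ w₁ ≤ 1 - μ) →
    (∀ i ≤ n - 1, 0 ≤ β i wb wb ∧ 0 ≤ M.d ⟨wb, wb, 0, Dr₂, η₂, σ₂⟩ i ∧
      M.E + σ₂ + β i wb wb + x₀ ≤ 1 - μ) →
    C * M.d ⟨wb, wb, 0, Dr₂, η₂, σ₂⟩ l + η₂ < η → 0 ≤ Qb → Qb ≤ 1 →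
    Qb * (1 - w₁) ≤ β l wb wb - w₁ →
    GdA hn σ hl M w₁ β Vd (PsD w₁ wb (cc hn σ) l (n - 1) D k (fun i => β i w₁ w₁)
      (M.d ⟨w₁, w₁, 0, Dr₁, η₁, σ₁⟩) (fun i => β i wb wb) (M.d ⟨wb, wb, 0, Dr₂, η₂, σ₂⟩) 0 δ μ η Qb
      (ez hn σ l) (lst hn)) := by
  obtain ⟨C, hC⟩ := shr_of_shY D₀
  refine ⟨C, ?_⟩
  intro n hn σ l hl M w₁ wb β Vd Dr₁ Dr₂ η₁ η₂ σ₁ σ₂ hq₁ hq₂ D k hD₁ hD₂ hD₀ hk₁ hk₂ hk₁' hk₂' hw0
    hw1 hE δ μ η Qb x₀ hδ hμ hx₀ hσ₁ hσ₂ hη₂ hb1 hb2 hη hQ0 hQ1 hQb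
  obtain ⟨q₁, hq₁d⟩ : ∃ q₁ : Rq, q₁ = ⟨w₁, w₁, 0, Dr₁, η₁, σ₁⟩ := ⟨_, rfl⟩
  obtain ⟨q₂, hq₂d⟩ : ∃ q₂ : Rq, q₂ = ⟨wb, wb, 0, Dr₂, η₂, σ₂⟩ := ⟨_, rfl⟩
  obtain ⟨J₀, hJ₀⟩ := Pool.GEN.lin (2 * (C : ℝ) + 2)
    (show 0 < η - (C * M.d ⟨wb, wb, 0, Dr₂, η₂, σ₂⟩ l + η₂) by linarith)
  refine ⟨[⟨_, hq₁⟩, ⟨_, hq₂⟩], x₀, hx₀, J₀, ?_⟩
  intro h hh hh' J hJ F A V z z' cb hc hM
  obtain ⟨T₁, TH₁, hN₁, hK₁⟩ := hM.nod ⟨_, hq₁⟩ List.mem_cons_self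
  obtain ⟨T₂, TH₂, hN₂, hK₂⟩ := hM.nod ⟨_, hq₂⟩ (List.mem_cons_of_mem _ List.mem_cons_self)
  obtain ⟨P₁, hc1⟩ := hK₁.one rfl
  obtain ⟨V₂, z₂, z₂', P₂, hc2⟩ := hK₂.own
  have hd0 := (hb2 l (by omega)).2.1
  have hη0 : 0 ≤ η := by
    have : 0 ≤ (C : ℝ) * M.d ⟨wb, wb, 0, Dr₂, η₂, σ₂⟩ l := by positivity
    linarith
  have hshr := nds_shr (q := ⟨wb, wb, 0, Dr₂, η₂, σ₂⟩) hC hD₀ rfl hd0 hη₂ (hJ₀ J hJ) hN₂
  refine psD_A (E₁ := M.E + σ₁) (E₂ := M.E + σ₂) (x := h) (k₀ := max (M.k w₁ w₁) (M.k wb wb)) hl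
    hw0 hw1 hD₁ hD₂ (max_le hk₁ hk₂) (max_le hk₁' hk₂') (by linarith) (by linarith) hh.le hη0 hδ hμ
    hb1 (fun i hi => ?_) hQ0 hQ1 hQb (fun i hi => ?_) (fun i h1 h2 => ?_) hM.cls
    (fun ω hω i h1 h2 => ?_) (fun ω hω => ?_) hN₁.nod.top (hc1.mono le_rfl (le_max_left _ _)
      (le_max_left _ _)) hN₂.nod.top (hc2.mono le_rfl (le_max_right _ _) (le_max_right _ _))
    (v₀ := fun y => dcb (cc hn σ) l (cb (z y))) (fun ω hω => ⟨dcb_u _, fun j hj =>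
      dcb_lt (cc_injOn hn σ) (by omega) _ hj, fun i h1 h2 =>
      dcb_gt (cc_injOn hn σ) _ h1 (by omega)⟩) fun ω hω i h1 h2 => hshr ω hω i h1 (by omega)
  · obtain ⟨h1, h2, h3⟩ := hb2 i hi
    exact ⟨h1, h2, by linarith⟩
  · constructor
    · intro h1
      obtain ⟨j, h2, h3, h4⟩ := mem_Lts.1 h1
      have := cc_inj' hn σ (by omega) (by omega) h4
      omega
    · intro h1
      exact mem_Lts.2 ⟨i, h1, by omega, rfl⟩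
  · rw [if_neg (cc_ne hn σ h2)]
  · rw [hM.cls ω hω]
    exact hM.sml ω hω i h1 h2
  · rw [hM.cls ω hω]
    exact hc ω hω

/-- **The requirement of (Psi2), case B.** -/
theorem gdB_ex (D₀ : ℕ) : ∃ C : ℕ, ∀ {n : ℕ} {hn : 2 ≤ n} {σ : Equiv.Perm (Fin (n - 1))}
    {l : ℕ} {hl : l < n - 1} {M : MDat} {w₁ wb xs : ℝ} {β : ℕ → ℝ → ℝ → ℝ} {Vd : Rq → Prop}
    {Dr₁ Dr₂ : ℕ} {η₁ η₂ σ₁ σ₂ : ℝ}, Vd ⟨w₁, w₁, 0, Dr₁, η₁, σ₁⟩ → Vd ⟨wb, wb, 0, Dr₂, η₂, σ₂⟩ →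
    ∀ {D k : ℕ}, M.D w₁ w₁ ≤ D → M.D wb wb ≤ D → M.D wb wb ≤ D₀ → M.k w₁ w₁ ≤ D →
    M.k wb wb ≤ D → M.k w₁ w₁ ≤ k → M.k wb wb ≤ k → 0 ≤ w₁ → w₁ ≤ 1 → 0 ≤ M.E → 0 ≤ xs →
    ∀ {δ μ η Qb x₀ : ℝ}, 3 * x₀ ≤ δ → 0 < x₀ → 0 ≤ σ₁ → 0 ≤ σ₂ → 0 ≤ η₂ →
    (∀ i ≤ n - 1, 0 ≤ β i w₁ w₁ ∧ 0 ≤ M.d ⟨w₁, w₁, 0, Dr₁, η₁, σ₁⟩ i ∧
      M.E + σ₁ + β i w₁ w₁ ≤ 1 - μ) →
    (∀ i ≤ n - 1, 0 ≤ β i wb wb ∧ 0 ≤ M.d ⟨wb, wb, 0, Dr₂, η₂, σ₂⟩ i ∧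
      M.E + σ₂ + β i wb wb + x₀ ≤ 1 - μ) →
    C * M.d ⟨wb, wb, 0, Dr₂, η₂, σ₂⟩ l + η₂ < η → 0 ≤ Qb → Qb ≤ 1 →
    Qb * (1 - w₁) ≤ β l wb wb - xs - w₁ → β l wb wb + 2 * x₀ ≤ 1 →
    β (n - 1) wb wb + xs + 2 * x₀ ≤ 1 →
    GdB hn σ hl M w₁ xs β Vd (PsD w₁ wb (cc hn σ) l (n - 1) D k (fun i => β i w₁ w₁)
      (M.d ⟨w₁, w₁, 0, Dr₁, η₁, σ₁⟩) (fun i => β i wb wb) (M.d ⟨wb, wb, 0, Dr₂, η₂, σ₂⟩) xs δ μ η
      Qb (ez hn σ l) (lst hn)) := by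
  obtain ⟨C, hC⟩ := shr_of_shY D₀
  refine ⟨C, ?_⟩
  intro n hn σ l hl M w₁ wb xs β Vd Dr₁ Dr₂ η₁ η₂ σ₁ σ₂ hq₁ hq₂ D k hD₁ hD₂ hD₀ hk₁ hk₂ hk₁' hk₂'
    hw0 hw1 hE hxs δ μ η Qb x₀ hδ hx₀ hσ₁ hσ₂ hη₂ hb1 hb2 hη hQ0 hQ1 hQb hbl hbN
  obtain ⟨J₁, hJ₁⟩ := Pool.GEN.lin (2 * (C : ℝ) + 2)
    (show 0 < η - (C * M.d ⟨wb, wb, 0, Dr₂, η₂, σ₂⟩ l + η₂) by linarith)
  obtain ⟨J₂, hJ₂⟩ := Pool.GEN.lin (4 : ℝ) hx₀
  refine ⟨[⟨_, hq₁⟩, ⟨_, hq₂⟩], x₀, hx₀, max J₁ J₂, ?_⟩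
  intro h hh hh' J hJ F A V z z' cb hc hM
  have hJr : (0 : ℝ) ≤ J := Nat.cast_nonneg J
  obtain ⟨T₁, TH₁, hN₁, hK₁⟩ := hM.nod ⟨_, hq₁⟩ List.mem_cons_self
  obtain ⟨T₂, TH₂, hN₂, hK₂⟩ := hM.nod ⟨_, hq₂⟩ (List.mem_cons_of_mem _ List.mem_cons_self)
  obtain ⟨P₁, hc1⟩ := hK₁.one rfl
  obtain ⟨V₂, z₂, z₂', P₂, hc2⟩ := hK₂.own
  have hd0 := (hb2 l (by omega)).2.1
  have hη0 : 0 ≤ η := by
    have : 0 ≤ (C : ℝ) * M.d ⟨wb, wb, 0, Dr₂, η₂, σ₂⟩ l := by positivity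
    linarith
  have hshr := nds_shr (q := ⟨wb, wb, 0, Dr₂, η₂, σ₂⟩) hC hD₀ rfl hd0 hη₂
    (hJ₁ J ((le_max_left _ _).trans hJ)) hN₂
  refine psD_B (E₁ := M.E + σ₁) (E₂ := M.E + σ₂) (x := h) (k₀ := max (M.k w₁ w₁) (M.k wb wb))
    (δ₀ := x₀) hl hw0 hw1 hD₁ hD₂ (max_le hk₁ hk₂) (max_le hk₁' hk₂') (by linarith) (by linarith)
    hh.le hη0 hxs hx₀.le hδ hb1 (fun i hi => ?_) hQ0 hQb hQ1 hbl hbN
    (hJ₂ J ((le_max_right _ _).trans hJ)) (Lts_le (cc_injOn hn σ) (by omega) (by omega) le_rfl)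
    (fun i hi => ?_) (fun i h1 h2 => le_rfl) hM.cls
    (fun ω hω i h1 h2 => ?_) (fun ω hω => ?_) hN₁.nod.top (hc1.mono le_rfl (le_max_left _ _)
      (le_max_left _ _)) hN₂.nod.top (hc2.mono le_rfl (le_max_right _ _) (le_max_right _ _))
    (v₀ := fun y => dcb (cc hn σ) l (cb (z y))) (fun ω hω => ⟨dcb_u _, fun j hj =>
      dcb_lt (cc_injOn hn σ) (by omega) _ hj, fun i h1 h2 =>
      dcb_gt (cc_injOn hn σ) _ h1 (by omega)⟩) fun ω hω i h1 h2 => hshr ω hω i h1 (by omega)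
  · obtain ⟨h1, h2, h3⟩ := hb2 i hi
    exact ⟨h1, h2, by linarith⟩
  · constructor
    · intro h1
      obtain ⟨j, h2, h3, h4⟩ := mem_Lts.1 h1
      have := cc_inj' hn σ (by omega) (by omega) h4
      omega
    · rintro ⟨h1, h2⟩
      exact mem_Lts.2 ⟨i, h1, h2, rfl⟩
  · rw [hM.cls ω hω]
    exact hM.sml ω hω i h1 h2
  · rw [hM.cls ω hω]
    obtain ⟨h1, h2, h3⟩ := hc ω hω
    refine ⟨h1, le_trans (pow_le_pow_right₀ one_le_two (Nat.floor_le_floor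
      (mul_le_mul_of_nonneg_right (by linarith) hJr))) h2, h3.trans ?_⟩
    exact mul_le_mul_of_nonneg_left (pow_le_pow_right₀ one_le_two (Nat.floor_le_floor
      (mul_le_mul_of_nonneg_right (by linarith) hJr))) (by norm_num)

end

section

variable {n : ℕ} {hn : 2 ≤ n} {S : PCl n} {P : ℝ → ℝ → ℝ} {r : ℝ → ℝ}
  {P' : ℕ → List (Fin n) × Fin n → ℝ → ℝ → ℝ} {Λ : Finset (Fin n) → Fin n → ℝ → ℝ → ℝ}

/-- The numbers of a node and of its labels. -/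
structure PsN (hn : 2 ≤ n) (P : ℝ → ℝ → ℝ) (P' : ℕ → List (Fin n) × Fin n → ℝ → ℝ → ℝ) (o : Od n)
    (M : MDat) (β : ℕ → ℝ → ℝ → ℝ) (Vd : Rq → Prop) (w : ℝ) : Prop where
  eq : ∀ i ≤ n - 1, β i w w = LL hn P P' o (i + 1) w w
  le : ∀ i ≤ n - 1, LL hn P P' o (i + 1) w w + M.E + 2 * M.ϱ ≤ 1
  vd : ∀ (Dr : ℕ) (η σ : ℝ), 0 < η → 0 < σ → σ ≤ M.ϱ → Vd ⟨w, w, 0, Dr, η, σ⟩

/-- The laws of the numbers. -/
theorem ll_law (H : Pk hn S P r P' Λ) {o : Od n} {i : ℕ} (hi : i ≤ n - 1) :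
    Pool.LEV.Law (LL hn P P' o (i + 1)) ∧ ∀ a w : ℝ, 0 ≤ w → w ≤ a → a ≤ 1 →
      a ≤ LL hn P P' o (i + 1) a w ∧ LL hn P P' o (i + 1) a w ≤ 1 := by
  rcases Nat.lt_or_ge i (n - 1) with h1 | h1
  · rw [LL_low (by omega) (by omega)]
    exact ⟨(H.cht o.2).law _, fun a w h0 h1 h2 =>
      ⟨(H.cht o.2).low _ a w h0 h1 h2, (H.cht o.2).up _ a w h0 h1 h2⟩⟩
  · have h2 : i = n - 1 := by omega
    rw [h2, LL_lst]
    exact ⟨H.tgs.law (), fun a w h0 h1 h2 => ⟨H.tgs.low () a w h0 h1 h2,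
      H.tgs.up () a w h0 h1 h2⟩⟩

/-- **(Psi2) in the form of the inequality between two windows, case A.** -/
theorem psi2_gdA (H : Pk hn S P r P' Λ) (hTop : Pool.TOP.TopS n) (hF : FZX (n - 1))
    {o : Od n} {l : ℕ} (hl : l < n - 1) {w₁ wb : ℝ} (hw0 : 0 < w₁) (hwb : w₁ < wb)
    (hw : wb ∈ Gs P r P' Λ o) {M : MDat} {β : ℕ → ℝ → ℝ → ℝ} {Vd : Rq → Prop} (hE : 0 ≤ M.E)
    (hϱ : 0 < M.ϱ) (hd : ∀ q, Vd q → ∀ i ≤ n - 1, 0 ≤ M.d q i ∧ M.d q i ≤ q.σ)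
    (N1 : PsN hn P P' o M β Vd w₁) (N2 : PsN hn P P' o M β Vd wb) {h : ℝ} (hh : 0 < h) :
    ∃ q : {R : DtP n // GdA hn o.1.1 hl M w₁ β Vd R}, ZPr S w₁ (ez hn o.1.1 l) q.1
      (fun J G A => CH (Pool.Agent.H49.Ent.cond G.p A True)
        (fun ω => (G.X ⌊nmz w₁ 0 (LL hn P P' o (l + 1) wb wb) * J⌋₊ ω (lst hn),
          fun i : Fin (n - 1) => G.X J ω (bse i))) G.W ≤
        (ebz hn P r P' o l w₁ wb 0 + h) * Real.log 2 * J) := by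
  have hwb1 : wb < 1 := hw.1.1.2.1
  have h1w : 0 < 1 - w₁ := by linarith
  obtain ⟨hLP, hPb⟩ := ll_law (o := o) H (i := n - 1) le_rfl
  obtain ⟨hLl, hLb⟩ := ll_law (o := o) H (i := l) hl.le
  obtain ⟨σ₀, hσ₀, hps⟩ := H.psi2 hTop hF hl hw0 hwb hw le_rfl (b1 := fun i => β i w₁ w₁)
    (b2 := fun i => β i wb wb) N1.eq N2.eq (ez hn o.1.1 l) hh
  obtain ⟨D, hD⟩ : ∃ D : ℕ, D = max (max (M.D w₁ w₁) (M.D wb wb)) (max (M.k w₁ w₁) (M.k wb wb)) :=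
    ⟨_, rfl⟩
  have D1 : M.D w₁ w₁ ≤ D := by rw [hD]; exact (le_max_left _ _).trans (le_max_left _ _)
  have D2 : M.D wb wb ≤ D := by rw [hD]; exact (le_max_right _ _).trans (le_max_left _ _)
  have D3 : M.k w₁ w₁ ≤ D := by rw [hD]; exact (le_max_left _ _).trans (le_max_right _ _)
  have D4 : M.k wb wb ≤ D := by rw [hD]; exact (le_max_right _ _).trans (le_max_right _ _)
  obtain ⟨η₀, hη₀, hps⟩ := hps D D (M.ϱ / 2) (by positivity)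
  obtain ⟨C, hgd⟩ := gdA_ex (M.D wb wb)
  obtain ⟨s, hs⟩ : ∃ s : ℝ, s = min (min σ₀ (M.ϱ / 2)) (min (min w₁ (wb - w₁))
    (η₀ / (4 * (C + 1)))) := ⟨_, rfl⟩
  have s0 : 0 < s := by
    rw [hs]
    exact lt_min (lt_min hσ₀ (by positivity)) (lt_min (lt_min hw0 (by linarith)) (by positivity))
  have s1 : s ≤ σ₀ := by rw [hs]; exact (min_le_left _ _).trans (min_le_left _ _)
  have s2 : s ≤ M.ϱ / 2 := by rw [hs]; exact (min_le_left _ _).trans (min_le_right _ _)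
  have s3 : s ≤ w₁ := by
    rw [hs]
    exact (min_le_right _ _).trans ((min_le_left _ _).trans (min_le_left _ _))
  have s4 : s ≤ wb - w₁ := by
    rw [hs]
    exact (min_le_right _ _).trans ((min_le_left _ _).trans (min_le_right _ _))
  have s5 : C * s ≤ η₀ / 4 := by
    have h1 : s ≤ η₀ / (4 * (C + 1)) := by rw [hs]; exact (min_le_right _ _).trans (min_le_right _ _)
    rw [le_div_iff₀ (by positivity)] at h1
    have h2 : s * (4 * ((C : ℝ) + 1)) = 4 * (C * s) + 4 * s := by ring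
    linarith
  have v1 := N1.vd 0 1 s one_pos s0 (by linarith)
  have v2 := N2.vd 0 (η₀ / 4) s (by positivity) s0 (by linarith)
  have d1 := hd _ v1
  have d2 := hd _ v2
  have hPw : LL hn P P' o (n - 1 + 1) w₁ w₁ + (wb - w₁) ≤ LL hn P P' o (n - 1 + 1) wb wb := by
    have h1 := hLP.slope w₁ w₁ (wb - w₁) hw0.le le_rfl (by linarith) (by linarith)
    rw [add_sub_cancel] at h1
    have h2 := hLP.mono_w wb w₁ wb hw0.le hwb.le le_rfl hwb1.le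
    have h3 := N2.le (n - 1) le_rfl
    rcases min_choice 1 (LL hn P P' o (n - 1 + 1) w₁ w₁ + (wb - w₁)) with h4 | h4
    · rw [h4] at h1
      linarith
    · rw [h4] at h1
      linarith
  have hβ1 := N1.eq (n - 1) le_rfl
  have hβ2 := N2.eq (n - 1) le_rfl
  have e1 := d1 (n - 1) le_rfl
  have e2 := d2 (n - 1) le_rfl
  have e3 := d2 l hl.le
  have hP0 := (hPb w₁ w₁ hw0.le le_rfl (by linarith)).1
  have hl0 := (hLb wb wb (by linarith) le_rfl hwb1.le)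
  have hz := hps (d1 := M.d ⟨w₁, w₁, 0, 0, 1, s⟩) (d2 := M.d ⟨wb, wb, 0, 0, η₀ / 4, s⟩)
    (δ := 0) (η := η₀) (fun i hi => ⟨(d1 i hi).1, (d1 i hi).2.trans s1⟩)
    (fun i hi => ⟨(d2 i hi).1, (d2 i hi).2.trans s1⟩) (by
      simp only at e1 ⊢
      rw [hβ1]
      linarith) (by
      simp only at e1 e2 ⊢
      rw [hβ1, hβ2]
      linarith) le_rfl hσ₀.le hη₀.le le_rfl
  refine ⟨⟨_, hgd (hl := hl) (μ := M.ϱ / 2) (x₀ := M.ϱ / 2) (δ := 0) (η := η₀)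
    (Qb := nmz w₁ 0 (LL hn P P' o (l + 1) wb wb)) (D := D) (k := D) v1 v2 D1 D2 le_rfl D3 D4 D3 D4
    hw0.le (by linarith) hE le_rfl (by positivity) (by positivity) s0.le s0.le (by positivity)
    (fun i hi => ?_) (fun i hi => ?_) ?_ ?_ ?_ ?_⟩, hz⟩
  · have h1 := N1.le i hi
    have h2 := (ll_law (o := o) H hi).2 w₁ w₁ hw0.le le_rfl (by linarith)
    rw [N1.eq i hi]
    exact ⟨by linarith, (d1 i hi).1, by linarith⟩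
  · have h1 := N2.le i hi
    have h2 := (ll_law (o := o) H hi).2 wb wb (by linarith) le_rfl hwb1.le
    rw [N2.eq i hi]
    exact ⟨by linarith, (d2 i hi).1, by linarith⟩
  · have h1 : (C : ℝ) * M.d ⟨wb, wb, 0, 0, η₀ / 4, s⟩ l ≤ C * s :=
      mul_le_mul_of_nonneg_left e3.2 (Nat.cast_nonneg C)
    linarith
  · unfold nmz
    exact div_nonneg (by linarith) h1w.le
  · unfold nmz
    rw [div_le_one h1w]
    linarith
  · have h1 := nmz_mul (x := 0) (show w₁ < 1 by linarith) (LL hn P P' o (l + 1) wb wb)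
    rw [N2.eq l hl.le]
    linarith

/-- **(Psi2) in the form of the inequality between two windows, case B.** The number of the shear
is small against the level of the target. -/
theorem psi2_gdB' (H : Pk hn S P r P' Λ) (hTop : Pool.TOP.TopS n) (hF : FZX (n - 1))
    {o : Od n} {l : ℕ} (hl : l < n - 1) {w₁ wb xs : ℝ} (hw0 : 0 < w₁) (hwb : w₁ < wb)
    (hw : wb ∈ Gs P r P' Λ o) (hx0 : 0 ≤ xs) (hx1 : w₁ + xs ≤ LL hn P P' o (l + 1) w₁ w₁)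
    {M : MDat} (hE : 0 ≤ M.E) {β : ℕ → ℝ → ℝ → ℝ} (hxP : β (n - 1) wb wb + xs < 1)
    {Vd : Rq → Prop} (hϱ : 0 < M.ϱ) (hd : ∀ q, Vd q → ∀ i ≤ n - 1, 0 ≤ M.d q i ∧ M.d q i ≤ q.σ)
    (N1 : PsN hn P P' o M β Vd w₁) (N2 : PsN hn P P' o M β Vd wb) {h : ℝ} (hh : 0 < h) :
    ∃ q : {R : DtP n // GdB hn o.1.1 hl M w₁ xs β Vd R}, ZPr S w₁ (ez hn o.1.1 l) q.1
      (fun J G A => CH (Pool.Agent.H49.Ent.cond G.p A True)
        (fun ω => (G.X ⌊nmz w₁ xs (LL hn P P' o (l + 1) wb wb) * J⌋₊ ω (lst hn),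
          fun i : Fin (n - 1) => G.X J ω (bse i))) G.W ≤
        (ebz hn P r P' o l w₁ wb xs + h) * Real.log 2 * J) := by
  have hwb1 : wb < 1 := hw.1.1.2.1
  have h1w : 0 < 1 - w₁ := by linarith
  obtain ⟨hLP, hPb⟩ := ll_law (o := o) H (i := n - 1) le_rfl
  obtain ⟨hLl, hLb⟩ := ll_law (o := o) H (i := l) hl.le
  obtain ⟨σ₀, hσ₀, hps⟩ := H.psi2 hTop hF hl hw0 hwb hw hx0 (b1 := fun i => β i w₁ w₁)
    (b2 := fun i => β i wb wb) N1.eq N2.eq (ez hn o.1.1 l) hh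
  obtain ⟨D, hD⟩ : ∃ D : ℕ, D = max (max (M.D w₁ w₁) (M.D wb wb)) (max (M.k w₁ w₁) (M.k wb wb)) :=
    ⟨_, rfl⟩
  have D1 : M.D w₁ w₁ ≤ D := by rw [hD]; exact (le_max_left _ _).trans (le_max_left _ _)
  have D2 : M.D wb wb ≤ D := by rw [hD]; exact (le_max_right _ _).trans (le_max_left _ _)
  have D3 : M.k w₁ w₁ ≤ D := by rw [hD]; exact (le_max_left _ _).trans (le_max_right _ _)
  have D4 : M.k wb wb ≤ D := by rw [hD]; exact (le_max_right _ _).trans (le_max_right _ _)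
  obtain ⟨η₀, hη₀, hps⟩ := hps D D (M.ϱ / 2) (by positivity)
  obtain ⟨C, hgd⟩ := gdB_ex (M.D wb wb)
  obtain ⟨s, hs⟩ : ∃ s : ℝ, s = min (min σ₀ (M.ϱ / 2)) (min (min w₁ (wb - w₁))
    (η₀ / (4 * (C + 1)))) := ⟨_, rfl⟩
  have s0 : 0 < s := by
    rw [hs]
    exact lt_min (lt_min hσ₀ (by positivity)) (lt_min (lt_min hw0 (by linarith)) (by positivity))
  have s1 : s ≤ σ₀ := by rw [hs]; exact (min_le_left _ _).trans (min_le_left _ _)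
  have s2 : s ≤ M.ϱ / 2 := by rw [hs]; exact (min_le_left _ _).trans (min_le_right _ _)
  have s3 : s ≤ w₁ := by
    rw [hs]
    exact (min_le_right _ _).trans ((min_le_left _ _).trans (min_le_left _ _))
  have s4 : s ≤ wb - w₁ := by
    rw [hs]
    exact (min_le_right _ _).trans ((min_le_left _ _).trans (min_le_right _ _))
  have s5 : C * s ≤ η₀ / 4 := by
    have h1 : s ≤ η₀ / (4 * (C + 1)) := by rw [hs]; exact (min_le_right _ _).trans (min_le_right _ _)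
    rw [le_div_iff₀ (by positivity)] at h1
    have h2 : s * (4 * ((C : ℝ) + 1)) = 4 * (C * s) + 4 * s := by ring
    linarith
  obtain ⟨x₀, hx₀⟩ : ∃ x₀ : ℝ, x₀ = min (min (M.ϱ / 2) (σ₀ / 3))
    ((1 - (β (n - 1) wb wb + xs)) / 2) := ⟨_, rfl⟩
  have x0 : 0 < x₀ := by
    rw [hx₀]
    exact lt_min (lt_min (by positivity) (by positivity)) (by linarith)
  have x1 : x₀ ≤ M.ϱ / 2 := by rw [hx₀]; exact (min_le_left _ _).trans (min_le_left _ _)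
  have x2 : 3 * x₀ ≤ σ₀ := by
    have : x₀ ≤ σ₀ / 3 := by rw [hx₀]; exact (min_le_left _ _).trans (min_le_right _ _)
    linarith
  have x3 : x₀ ≤ (1 - (β (n - 1) wb wb + xs)) / 2 := by rw [hx₀]; exact min_le_right _ _
  have v1 := N1.vd 0 1 s one_pos s0 (by linarith)
  have v2 := N2.vd 0 (η₀ / 4) s (by positivity) s0 (by linarith)
  have d1 := hd _ v1
  have d2 := hd _ v2
  have hPw : LL hn P P' o (n - 1 + 1) w₁ w₁ + (wb - w₁) ≤ LL hn P P' o (n - 1 + 1) wb wb := by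
    have h1 := hLP.slope w₁ w₁ (wb - w₁) hw0.le le_rfl (by linarith) (by linarith)
    rw [add_sub_cancel] at h1
    have h2 := hLP.mono_w wb w₁ wb hw0.le hwb.le le_rfl hwb1.le
    have h3 := N2.le (n - 1) le_rfl
    rcases min_choice 1 (LL hn P P' o (n - 1 + 1) w₁ w₁ + (wb - w₁)) with h4 | h4
    · rw [h4] at h1
      linarith
    · rw [h4] at h1
      linarith
  have hlw : LL hn P P' o (l + 1) w₁ w₁ ≤ LL hn P P' o (l + 1) wb wb :=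
    hLl.mono hw0.le le_rfl hwb.le hwb.le le_rfl hwb1.le
  have hβ1 := N1.eq (n - 1) le_rfl
  have hβ2 := N2.eq (n - 1) le_rfl
  have e1 := d1 (n - 1) le_rfl
  have e2 := d2 (n - 1) le_rfl
  have e3 := d2 l hl.le
  have hP0 := (hPb w₁ w₁ hw0.le le_rfl (by linarith)).1
  have hl0 := (hLb wb wb (by linarith) le_rfl hwb1.le)
  have hz := hps (d1 := M.d ⟨w₁, w₁, 0, 0, 1, s⟩) (d2 := M.d ⟨wb, wb, 0, 0, η₀ / 4, s⟩)
    (δ := σ₀) (η := η₀) (fun i hi => ⟨(d1 i hi).1, (d1 i hi).2.trans s1⟩)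
    (fun i hi => ⟨(d2 i hi).1, (d2 i hi).2.trans s1⟩) (by
      simp only at e1 ⊢
      rw [hβ1]
      linarith) (by
      simp only at e1 e2 ⊢
      rw [hβ1, hβ2]
      linarith) hσ₀.le le_rfl hη₀.le le_rfl
  refine ⟨⟨_, hgd (hl := hl) (μ := M.ϱ / 2) (x₀ := x₀) (δ := σ₀) (η := η₀) (xs := xs)
    (Qb := nmz w₁ xs (LL hn P P' o (l + 1) wb wb)) (D := D) (k := D) v1 v2 D1 D2 le_rfl D3 D4 D3 D4
    hw0.le (by linarith) hE hx0 x2 x0 s0.le s0.le (by positivity)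
    (fun i hi => ?_) (fun i hi => ?_) ?_ ?_ ?_ ?_ ?_ ?_⟩, hz⟩
  · have h1 := N1.le i hi
    have h2 := (ll_law (o := o) H hi).2 w₁ w₁ hw0.le le_rfl (by linarith)
    rw [N1.eq i hi]
    exact ⟨by linarith, (d1 i hi).1, by linarith⟩
  · have h1 := N2.le i hi
    have h2 := (ll_law (o := o) H hi).2 wb wb (by linarith) le_rfl hwb1.le
    rw [N2.eq i hi]
    exact ⟨by linarith, (d2 i hi).1, by linarith⟩
  · have h1 : (C : ℝ) * M.d ⟨wb, wb, 0, 0, η₀ / 4, s⟩ l ≤ C * s :=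
      mul_le_mul_of_nonneg_left e3.2 (Nat.cast_nonneg C)
    linarith
  · unfold nmz
    exact div_nonneg (by linarith) h1w.le
  · unfold nmz
    rw [div_le_one h1w]
    linarith
  · have h1 := nmz_mul (x := xs) (show w₁ < 1 by linarith) (LL hn P P' o (l + 1) wb wb)
    rw [N2.eq l hl.le]
    linarith
  · have h1 := N2.le l hl.le
    rw [N2.eq l hl.le]
    linarith
  · linarith

end

end Pool.PSI
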