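import Pool.Agent.H39.GEN.Zfe
import Pool.Agent.H27.TOP.All
import Pool.Agent.H45.EXA.Crd

/-!
# The deficit of the target goes to a rough coordinate

In a class `S` of dimension `n` (later: a class of sheared families) the last coordinate is rough,
with a slope larger than one, at the windows of a set `E`. Then the rows of the last coordinate have
deficit at most `h` at these windows (`RgFull`), so the rate of the last coordinate is large
(`rg_mainE`). On the other hand the rate is bounded by an entropy (`zfin`).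

`v_low`: the other coordinates are full, by the rows over fewer coordinates (`RW`).
-/

set_option autoImplicit false

namespace Pool.ZFN

open MeasureTheory Set Filter Topology
open Finset (range univ)
open Pool.Agent.H49.Ent Pool.Agent.H32.Dense Pool.STK Pool.KA Pool.KSAT Pool.K2S Pool.PB Pool.S6C
open Pool.GEN Pool.ONE Pool.EXW Pool.TOP
open Pool.LEV (Law Lv)
open Pool.STR (MicW)
open Pool.LBT (LSys ThrOf)
open Pool.ALL (RateOf numxI)
open Pool.GRW (ini_fam)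
open Pool.GEN.N83 (oth)

variable {n : ℕ}

/-- From the class to the events of subexponential probability of its members. -/
theorem bas_sh {S : PCl n} {Φ : Stat n} (h : Bas S Φ) :
    ∃ κ : ℝ, 0 < κ ∧ Bas S (fun J F A => ∀ B : F.Ω → Prop, Sub B A →
      Real.exp (-(κ * J)) * Pe F.p A ≤ Pe F.p B → Φ J F B) := by
  obtain ⟨τ, hτ, J₁, h⟩ := h
  refine ⟨τ / 2, by positivity, τ / 2, by positivity, J₁, fun J hJ F A hA B hB hP => ?_⟩
  refine h J hJ F B ?_
  have h1 := S.res (τ' := τ / 2) (by positivity) hA hB hP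
  rwa [add_halves] at h1

/-- **The active coordinate is full**, in a subclass. -/
theorem act_full (hF : FZX 1) {al : ℝ} {g₀ : ℝ → ℝ} (hal : 0 < al)
    (hg₀ : ∀ ε : ℝ, 0 < ε → 0 < g₀ ε) {N : ℚ → ℚ → ℝ} (hN : ActM N al g₀) {S : PCl n}
    (hB : ClB N S) {κ : Fin n} (hκ : (κ : ℕ) = 0) :
    ∃ S' : PCl n, S'.Ne ∧
      (∀ (τ : ℝ) (J : ℕ) (F : Fam n J) (A : F.Ω → Prop), S'.St τ J F A → S.St τ J F A) ∧
      ∀ h : ℝ, 0 < h → Bas S' (fun J F A => (1 - h) * Real.log 2 * J ≤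
        CH (Pool.Agent.H49.Ent.cond F.p A True) (fun ω => F.X J ω κ) F.W) := by
  have hl2 : 0 < Real.log 2 := Real.log_pos one_lt_two
  have hC := hB.clx hN
  obtain ⟨S', L, h5, h6, hL⟩ := lamw S hC.ne
  have hC' := hC.sub h5 h6
  have htm := Pool.GEN.N83.clx_tmc hC'
  have hpos : Bas S' (fun _ F A => 0 < Pe F.p A) :=
    ⟨1, one_pos, 0, fun J _ F A hA => hC'.pos 1 J F A hA⟩
  have hact : ActB N S' κ := hC'.actb κ hκ
  obtain ⟨D, hD, hcov⟩ := wv_cover hL (n := 1) (φ := fun _ => κ) (κ := 0) (fun w hw0 hw1 =>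
    hL.act hC'.ne hal (hN.q hg₀) hact hpos hw0 hw1)
  refine ⟨S', h5, h6, fun h hh => ?_⟩
  obtain ⟨w, hwD, hw0, hwh⟩ := (hD.dense_compl ℝ).exists_between
    (show (0 : ℝ) < min (h / 2) (1 / 2) from lt_min (by linarith) (by norm_num))
  have hw1 : w < 1 := by
    have := min_le_right (h / 2) (1 / 2 : ℝ)
    linarith
  have hwh' : w < h / 2 := hwh.trans_le (min_le_left _ _)
  obtain ⟨σ, ⟨-, -, hg, hc⟩, hσ⟩ := hcov w hw0 hw1 hwD
  have hexa := vst_exa hF hC'.ne (by norm_num) htm hL hal hg₀ hN hpos (ε := (fun _ => κ) ∘ σ)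
    (fun a b _ => Subsingleton.elim a b) (fun k _ => hact) hw0 hw1 hg hc
    (ρ := h / 2) (by linarith)
  have hvs : vs L ((fun _ => κ) ∘ σ) w 1 = w := by
    have e1 := vs_succ L ((fun _ => κ) ∘ σ) w (0 : Fin 1)
    unfold vn at e1
    have e2 : (Finset.Iio (0 : Fin 1)).image ((fun _ => κ) ∘ σ) = ∅ := by
      rw [Finset.image_eq_empty]
      rfl
    rw [e2] at e1
    simpa using e1.trans (hL.act hC'.ne hal (hN.q hg₀) hact hpos hw0.le hw1)
  refine (hexa.and hpos).mono 0 ?_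
  rintro J - F A ⟨h1, hA⟩
  have hJ0 : (0 : ℝ) ≤ J := Nat.cast_nonneg J
  have h2 := h1 Unit (fun _ => ()) (fun _ => ()) (fun _ _ => rfl)
  rw [Fin.sum_univ_one] at h2
  simp only [Fin.val_zero, zero_add] at h2
  rw [hvs] at h2
  have hq := isLaw_cond F.isLaw hA
  have h3 : CH (Pool.Agent.H49.Ent.cond F.p A True)
      (fun ω (j : Fin 1) => F.X J ω (((fun _ => κ) ∘ σ) j)) (fun ω => ((), F.W ω)) ≤
      CH (Pool.Agent.H49.Ent.cond F.p A True) (fun ω => F.X J ω κ) F.W := by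
    refine (CH_mono_left hq.nonneg (X' := fun ω => F.X J ω κ) fun ω ω' _ _ hh => ?_).trans
      (CH_mono_cond hq.nonneg fun ω ω' _ _ hh => ?_)
    · funext j
      exact (Prod.ext_iff.mp hh).1
    · exact (Prod.ext_iff.mp hh).2
  have h4 : (1 - h) * Real.log 2 * J ≤ (1 - w - h / 2) * Real.log 2 * J := by
    refine mul_le_mul_of_nonneg_right (mul_le_mul_of_nonneg_right (by linarith) hl2.le) hJ0
  linarith

/-- **The other coordinates are full**, in a subclass: each one over the coordinates before it, if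
it has no stable label of a better precision at a small window. -/
theorem v_low (hn : 2 ≤ n) (hF : FZX 1) (hW : ∀ k, 2 ≤ k → k < n → RW k) {al : ℝ} {g₀ : ℝ → ℝ}
    (hal : 0 < al) (hg₀ : ∀ ε : ℝ, 0 < ε → 0 < g₀ ε) {N : ℚ → ℚ → ℝ} (hN : ActM N al g₀)
    {S : PCl n} (hB : ClB N S) {v : ℕ → Fin n} (hv0 : (v 0 : ℕ) = 0)
    (hvi : ∀ i < n - 1, ∀ j < n - 1, v i = v j → i = j) {Q : ℕ → ℝ} (hQ0 : ∀ i, 0 ≤ Q i)
    {R : ℝ} (hR : 0 ≤ R)
    (hΦ : ∀ i, 1 ≤ i → i < n - 1 → ∀ h : ℝ, 0 < h → Q i + h ≤ 1 → ∃ d : ℝ, 0 < d ∧ ∀ K : ℕ,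
      Bas S (fun J F A =>
        ¬ LbR R F ((range i).image v) (v i) K ⌊d * J⌋₊ ⌊(Q i + h) * J⌋₊ A)) :
    ∃ S' : PCl n, S'.Ne ∧
      (∀ (τ : ℝ) (J : ℕ) (F : Fam n J) (A : F.Ω → Prop), S'.St τ J F A → S.St τ J F A) ∧
      ∀ h : ℝ, 0 < h → Bas S' (fun J F A =>
        (1 + (∑ i ∈ range (n - 2), (1 - Q (i + 1))) - h) * Real.log 2 * J ≤
        CH (Pool.Agent.H49.Ent.cond F.p A True) (fun ω (l : Fin (n - 1)) => F.X J ω (v l))
          F.W) := by
  classical
  have hl2 : 0 < Real.log 2 := Real.log_pos one_lt_two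
  obtain ⟨S', h5, h6, h7⟩ := act_full hF hal hg₀ hN hB (κ := v 0) hv0
  have hC := (hB.clx hN).sub h5 h6
  have htm := Pool.GEN.N83.clx_tmc hC
  have hpos : Bas S' (fun _ F A => 0 < Pe F.p A) :=
    ⟨1, one_pos, 0, fun J _ F A hA => hC.pos 1 J F A hA⟩
  refine ⟨S', h5, h6, fun h hh => ?_⟩
  have hn0 : (0 : ℝ) < n := by exact_mod_cast (by omega : 0 < n)
  obtain ⟨e, he⟩ : ∃ e : ℝ, e = h / n := ⟨_, rfl⟩
  have he0 : 0 < e := by rw [he]; positivity
  -- the rows
  obtain ⟨b, hb⟩ : ∃ b : ℕ → ℝ, b = fun i => if i = 0 then 1 - e else 1 - Q i - e := ⟨_, rfl⟩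
  have hrow : ∀ i : Fin (n - 1), Bas S' (fun J F A => b i * Real.log 2 * J ≤
      CH (Pool.Agent.H49.Ent.cond F.p A True) (fun ω => F.X J ω (v i))
        (fun ω => ((fun l' : Fin (i : ℕ) => F.X J ω (v l')), F.W ω))) := by
    intro i
    rcases Nat.eq_zero_or_pos (i : ℕ) with hi | hi
    · refine ((h7 e he0).and hpos).mono 0 ?_
      rintro J - F A ⟨h1, hA⟩
      have hq := isLaw_cond F.isLaw hA
      have h2 : CH (Pool.Agent.H49.Ent.cond F.p A True) (fun ω => F.X J ω (v 0)) F.W ≤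
          CH (Pool.Agent.H49.Ent.cond F.p A True) (fun ω => F.X J ω (v 0))
          (fun ω => ((fun l' : Fin (i : ℕ) => F.X J ω (v l')), F.W ω)) := by
        refine CH_mono_cond hq.nonneg fun ω ω' _ _ hh => Prod.ext ?_ hh
        funext l'
        have := l'.2
        omega
      rw [hb]
      simp only [hi, if_true]
      exact h1.trans h2
    · rcases le_or_gt 1 (Q i + e) with hQ1 | hQ1
      · refine hpos.mono 0 fun J _ F A hA => ?_
        have hq := isLaw_cond F.isLaw hA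
        have hJ0 : (0 : ℝ) ≤ J := Nat.cast_nonneg J
        have h1 : b i * Real.log 2 * J ≤ 0 := by
          have h2 : b i ≤ 0 := by
            rw [hb]
            simp only [if_neg hi.ne']
            linarith
          have h3 : b i * Real.log 2 ≤ 0 := mul_nonpos_of_nonpos_of_nonneg h2 hl2.le
          exact mul_nonpos_of_nonpos_of_nonneg h3 hJ0
        exact h1.trans (CH_nonneg hq.nonneg _ _)
      obtain ⟨d₀, hd₀, hno⟩ := hΦ i hi i.2 (e / 2) (by linarith) (by linarith)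
      obtain ⟨d, hd⟩ : ∃ d : ℝ, d = min d₀ (1 / 2) := ⟨_, rfl⟩
      have hd0 : 0 < d := by rw [hd]; exact lt_min hd₀ (by norm_num)
      have hdd : d ≤ d₀ := by rw [hd]; exact min_le_left _ _
      have hd1 : d ≤ 1 / 2 := by rw [hd]; exact min_le_right _ _
      obtain ⟨Q', hQ'⟩ : ∃ Q', Q' = Q i + e / 2 := ⟨_, rfl⟩
      have hQ'0 : 0 < Q' := by
        have := hQ0 i
        rw [hQ']
        linarith
      obtain ⟨w, hw⟩ : ∃ w, w = min (d / 2) Q' := ⟨_, rfl⟩
      have hw0 : 0 < w := by rw [hw]; exact lt_min (by linarith) hQ'0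
      have hwd : w ≤ d / 2 := by rw [hw]; exact min_le_left _ _
      have hwQ : w ≤ Q' := by rw [hw]; exact min_le_right _ _
      have hcard : ((range (i : ℕ)).image v).card = i := by
        rw [Finset.card_image_of_injOn, Finset.card_range]
        intro a ha b' hb' hab
        have ha' := Finset.mem_range.1 (Finset.mem_coe.1 ha)
        have hb'' := Finset.mem_range.1 (Finset.mem_coe.1 hb')
        have := i.2
        exact hvi a (by omega) b' (by omega) hab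
      have hRW := hW (i + 1) (by omega) (by have := i.2; omega) al g₀ hal hg₀ N hN n 6 S'
        (by norm_num) htm ((range (i : ℕ)).image v) (v i) (v 0) (fun hmem => by
          obtain ⟨j, hj, hj2⟩ := Finset.mem_image.1 hmem
          have hj' := Finset.mem_range.1 hj
          have := i.2
          have := hvi j (by omega) i i.2 hj2
          omega) (Finset.mem_image.2 ⟨0, Finset.mem_range.2 hi, rfl⟩) (by rw [hcard])
        (hC.actb _ hv0) R w Q' (d - w) (e / 2) hR hw0 hwQ (by rw [hQ']; linarith)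
        (by linarith) (by linarith) (by linarith) (fun K => by
          have h1 := Bas.sub h6 (hno K)
          refine h1.mono 0 fun J _ F A k1 k2 => k1 ?_
          have hJ0 : (0 : ℝ) ≤ J := Nat.cast_nonneg J
          rw [add_sub_cancel] at k2
          rw [hQ'] at k2
          exact k2.win' (Nat.floor_le_floor (mul_le_mul_of_nonneg_right hdd hJ0)))
      refine (hRW.and hpos).mono 0 ?_
      rintro J - F A ⟨h1, hA⟩
      have hq := isLaw_cond F.isLaw hA
      have hJ0 : (0 : ℝ) ≤ J := Nat.cast_nonneg J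
      have h2 := h1 Unit (fun _ => ()) (fun _ => ()) (fun _ _ => rfl)
      have h3 : rowH F A (v i) ((range (i : ℕ)).image v) ⌊Q' * J⌋₊ (fun _ => ()) ≤
          CH (Pool.Agent.H49.Ent.cond F.p A True) (fun ω => F.X J ω (v i))
          (fun ω => ((fun l' : Fin (i : ℕ) => F.X J ω (v l')), F.W ω)) := by
        unfold rowH
        refine CH_mono_cond hq.nonneg fun ω ω' _ _ hh => ?_
        have a1 := (Prod.ext_iff.mp (Prod.ext_iff.mp hh).2)
        refine Prod.ext (funext fun l' => ?_) (Prod.ext_iff.mp a1.2).2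
        have a2 : ub ((range (i : ℕ)).image v) (F.X J ω) (v l') =
            ub ((range (i : ℕ)).image v) (F.X J ω') (v l') := congrFun a1.1 (v l')
        have a3 : v l' ∈ (range (i : ℕ)).image v :=
          Finset.mem_image.2 ⟨l', Finset.mem_range.2 l'.2, rfl⟩
        unfold ub at a2
        rw [if_pos a3, if_pos a3] at a2
        exact a2
      have h4 : b i * Real.log 2 * J = (1 - Q' - e / 2) * Real.log 2 * J := by
        rw [hb]
        simp only [if_neg hi.ne']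
        rw [hQ']
        ring
      rw [h4]
      exact h2.trans h3
  refine ((Bas.fin hrow).and hpos).mono 0 ?_
  rintro J - F A ⟨h1, hA⟩
  have hq := isLaw_cond F.isLaw hA
  have hJ0 : (0 : ℝ) ≤ J := Nat.cast_nonneg J
  have h2 := ini_fam hq.nonneg (fun l ω => F.X J ω (v l)) F.W (fun i => b i * Real.log 2 * J)
    (n - 1) (fun l hl => h1 ⟨l, hl⟩)
  refine le_trans ?_ h2
  rw [← Finset.sum_mul, ← Finset.sum_mul]
  refine mul_le_mul_of_nonneg_right (mul_le_mul_of_nonneg_right ?_ hl2.le) hJ0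
  have e1 : n - 1 = (n - 2) + 1 := by omega
  rw [e1, Finset.sum_range_succ']
  have e2 : b 0 = 1 - e := by rw [hb]; simp
  have e3 : ∑ i ∈ range (n - 2), b (i + 1) =
      (∑ i ∈ range (n - 2), (1 - Q (i + 1))) - ((n - 2 : ℕ) : ℝ) * e := by
    have e5 : ∑ i ∈ range (n - 2), b (i + 1) = ∑ i ∈ range (n - 2), ((1 - Q (i + 1)) - e) := by
      refine Finset.sum_congr rfl fun i _ => ?_
      rw [hb]
      simp only [Nat.add_eq_zero_iff, one_ne_zero, and_false, if_false]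
    rw [e5, Finset.sum_sub_distrib (fun i => 1 - Q (i + 1)) (fun _ => e), Finset.sum_const,
      Finset.card_range, nsmul_eq_mul]
  rw [e2, e3]
  have e4 : (((n - 2 : ℕ) : ℝ) + 1) * e ≤ h := by
    have : (((n - 2 : ℕ) : ℝ) + 1) ≤ n := by
      have : n - 2 + 1 ≤ n := by omega
      exact_mod_cast this
    calc (((n - 2 : ℕ) : ℝ) + 1) * e ≤ n * e := mul_le_mul_of_nonneg_right this he0.le
      _ = h := by rw [he]; field_simp
  linarith

/-- **The deficit of the target goes to a rough coordinate.** -/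
theorem zfin (hn : 2 ≤ n) (hF : FZX 1) (hW : ∀ k, 2 ≤ k → k < n → RW k) {al : ℝ} {g₀ : ℝ → ℝ}
    (hal : 0 < al) (hg₀ : ∀ ε : ℝ, 0 < ε → 0 < g₀ ε) {N : ℚ → ℚ → ℝ} (hN : ActM N al g₀)
    {S : PCl n} (hB : ClB N S) {v : ℕ → Fin n} (hv0 : (v 0 : ℕ) = 0)
    (hvi : ∀ i < n - 1, ∀ j < n - 1, v i = v j → i = j) (hvl : ∀ i < n - 1, v i ≠ lst hn)
    {Q : ℕ → ℝ} (hQ0 : ∀ i, 0 ≤ Q i) {R : ℝ} (hR : 0 ≤ R)
    (hΦ₂ : ∀ i, 1 ≤ i → i < n - 1 → ∀ h : ℝ, 0 < h → Q i + h ≤ 1 → ∃ d : ℝ, 0 < d ∧ ∀ K : ℕ,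
      Bas S (fun J F A =>
        ¬ LbR R F ((range i).image v) (v i) K ⌊d * J⌋₊ ⌊(Q i + h) * J⌋₊ A))
    {U : ℝ → ℝ → ℝ} {D σ : ℝ → ℝ} {b₁ : ℝ} (hb₁ : b₁ ≤ 1)
    (hΦ₁ : ∀ a w : ℚ, 0 < w → w ≤ a → (a : ℝ) < b₁ → ∀ (K : ℕ) (h : ℝ), 0 < h →
      Bas S (fun J F A => ¬ (tgs (lst hn)).T () K ⌊(a : ℝ) * J⌋₊ ⌊(w : ℝ) * J⌋₊
        ⌊(U a w + h) * J⌋₊ J F A))
    (hΨ₁ : ∀ w : ℚ, 0 < w → (w : ℝ) < b₁ → D w ≤ 1 ∧ ∀ h : ℝ, 0 < h → ∃ K : ℕ,
      ∀ τ : ℝ, 0 < τ → Bas S (fun J F A => ∃ B : F.Ω → Prop, Sub B A ∧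
        Real.exp (-(τ * J)) * Pe F.p A ≤ Pe F.p B ∧
        (tgs (lst hn)).T () K ⌊(w : ℝ) * J⌋₊ ⌊(w : ℝ) * J⌋₊ ⌊(D w - h) * J⌋₊ J F B))
    {Qb eb : ℝ} (hQb0 : 0 ≤ Qb) (hQb1 : Qb ≤ 1)
    (hΨ₂ : ∀ h : ℝ, 0 < h → Bas S (fun J F A =>
      CH (Pool.Agent.H49.Ent.cond F.p A True)
        (fun ω => (F.X ⌊Qb * J⌋₊ ω (lst hn), fun l : Fin (n - 1) => F.X J ω (v l))) F.W ≤
        (eb + h) * Real.log 2 * J))
    {E : Set ℝ} {s₀ h₀ : ℝ} (hs : 1 < s₀) (hh₀ : h₀ ≤ 1)
    (hE : ∀ w ∈ E, 0 < w ∧ w < b₁ ∧ s₀ ≤ σ w ∧ RgUp U w (D w) (σ w) ∧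
      DgLo (fun _ w => D w) w (D w) (σ w) ∧ 0 < D w ∧ D w < Qb)
    (hM : ∀ (S' : PCl n) (P : ℝ → ℝ → ℝ) (r : ℝ → ℝ), ClX (fun _ => 0) (fun _ => 1) al g₀ 2 0 N S' →
      (∀ (τ : ℝ) (J : ℕ) (F : Fam n J) (A : F.Ω → Prop), S'.St τ J F A → S.St τ J F A) →
      ThrOf (tgs (lst hn)) S' (fun _ => P) → RateOf S' (lst hn) r → RgFull P r h₀ E) :
    ENNReal.ofReal ((1 - h₀) * s₀) * volume E ≤
      ENNReal.ofReal (eb - (1 + ∑ i ∈ range (n - 2), (1 - Q (i + 1)))) := by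
  have hl2 : 0 < Real.log 2 := Real.log_pos one_lt_two
  obtain ⟨S₁, h1, h2, hlow⟩ := v_low hn hF hW hal hg₀ hN hB hv0 hvi hQ0 hR hΦ₂
  have hC₁ := (hB.clx hN).sub h1 h2
  obtain ⟨S₂, P, rr, hC, h3, hT, hrr⟩ := numxI (hasThr_tgs (lst hn)) hC₁
  have hsub : ∀ (τ : ℝ) (J : ℕ) (F : Fam n J) (A : F.Ω → Prop), S₂.St τ J F A → S.St τ J F A :=
    fun τ J F A hA => h2 τ J F A (h3 τ J F A hA)
  have hpos : Bas S₂ (fun _ F A => 0 < Pe F.p A) :=
    ⟨1, one_pos, 0, fun J _ F A hA => hC.pos 1 J F A hA⟩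
  obtain ⟨r, hr⟩ : ∃ r, r = rr (lst hn) (univ.erase (lst hn)) := ⟨_, rfl⟩
  have hrate : RateOf S₂ (lst hn) r := by
    rw [hr]
    exact (hrr _ _).of
  have hL : Law (P ()) := hT.law ()
  have hFull := hM S₂ (P ()) r hC hsub hT hrate
  -- the thresholds are rough
  have hup : ∀ a w : ℚ, 0 < w → w ≤ a → (a : ℝ) < b₁ → P () a w ≤ U a w := by
    intro a w hw hwa ha
    by_contra hcon
    push Not at hcon
    have hw' : (0 : ℝ) < w := by exact_mod_cast hw
    have hwa' : (w : ℝ) ≤ a := by exact_mod_cast hwa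
    have hPa : (a : ℝ) ≤ P () a w := hT.low () a w hw'.le hwa' (by linarith)
    obtain ⟨h, hh⟩ : ∃ h, h = min ((P () a w - U a w) / 2) (P () a w / 2) := ⟨_, rfl⟩
    have hh0 : 0 < h := by
      rw [hh]
      exact lt_min (by linarith) (by linarith)
    have hh1 : h ≤ (P () a w - U a w) / 2 := by rw [hh]; exact min_le_left _ _
    have hh2 : h ≤ P () a w / 2 := by rw [hh]; exact min_le_right _ _
    obtain ⟨K, hK⟩ := hT.att () a w h hw' hwa' (by linarith) hh0 (by linarith)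
    have hno := Bas.sub hsub (hΦ₁ a w hw hwa ha K h hh0)
    refine bas_no hC.ne ((hK.and hno).mono 0 ?_)
    rintro J - F A ⟨k1, k2⟩
    refine k2 ((tgs (lst hn)).anti (Nat.floor_le_floor (mul_le_mul_of_nonneg_right ?_
      (Nat.cast_nonneg J))) k1)
    linarith
  have hlo : ∀ w : ℚ, 0 < w → (w : ℝ) < b₁ → D w ≤ P () w w := by
    intro w hw hw1
    by_contra hcon
    push Not at hcon
    have hw' : (0 : ℝ) < w := by exact_mod_cast hw
    obtain ⟨hD1, hlab⟩ := hΨ₁ w hw hw1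
    obtain ⟨h, hh⟩ : ∃ h, h = (D w - P () w w) / 2 := ⟨_, rfl⟩
    have hh0 : 0 < h := by rw [hh]; linarith
    obtain ⟨K, hK⟩ := hlab h hh0
    have hno := hT.no () K w w h hw.le le_rfl (by
      have : (w : ℝ) ≤ 1 := by linarith
      exact_mod_cast this) hh0 (by linarith)
    obtain ⟨τ, hτ, hno⟩ := bas_sh hno
    refine bas_no hC.ne (((Bas.sub hsub (hK τ hτ)).and hno).mono 0 ?_)
    rintro J - F A ⟨⟨B, k1, k2, k3⟩, k4⟩
    refine k4 B k1 k2 ((tgs (lst hn)).anti (Nat.floor_le_floor (mul_le_mul_of_nonneg_right ?_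
      (Nat.cast_nonneg J))) k3)
    linarith
  -- the windows
  have hE' : ∀ w ∈ E, 0 < w ∧ w < 1 ∧ s₀ ≤ σ w ∧ RgUp (P ()) w (D w) (σ w) ∧
      DgLo (P ()) w (D w) (σ w) ∧ 0 < D w ∧ D w < Qb := by
    intro g hg
    obtain ⟨h4, h5, h6, h7, h8, h9, h10⟩ := hE g hg
    have hσ : 0 < σ g := by linarith
    refine ⟨h4, by linarith, h6, fun e he => ?_, fun e he => ?_, h9, h10⟩
    · obtain ⟨r₁, hr₁, k1⟩ := h7 (e / 4) (by linarith)
      refine ⟨min (r₁ / 2) (min (g / 4) ((b₁ - g) / 4)), lt_min (by linarith)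
        (lt_min (by linarith) (by linarith)), fun r hr0 hr' a w hw hwa ha => ?_⟩
      have m1 : r < r₁ / 2 := hr'.trans_le (min_le_left _ _)
      have m2 : r < g / 4 := (hr'.trans_le (min_le_right _ _)).trans_le (min_le_left _ _)
      have m3 : r < (b₁ - g) / 4 := (hr'.trans_le (min_le_right _ _)).trans_le (min_le_right _ _)
      obtain ⟨δ, hδ⟩ : ∃ δ, δ = min (r / 2) (e * r / (4 * (σ g + 1))) := ⟨_, rfl⟩
      have hδ0 : 0 < δ := by
        rw [hδ]
        exact lt_min (by linarith) (by positivity)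
      have hδ1 : δ ≤ r / 2 := by rw [hδ]; exact min_le_left _ _
      have hδ2 : δ ≤ e * r / (4 * (σ g + 1)) := by rw [hδ]; exact min_le_right _ _
      rw [le_div_iff₀ (by linarith)] at hδ2
      obtain ⟨w', hw1, hw2⟩ := exists_rat_btwn (show w < w + δ by linarith)
      obtain ⟨a', ha1, ha2⟩ := exists_rat_btwn (show max a w' < max a w' + δ by linarith)
      have j1 := le_max_left a (w' : ℝ)
      have j2 := le_max_right a (w' : ℝ)
      have j3 : max a (w' : ℝ) ≤ a + δ := max_le (by linarith) (by linarith)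
      have hw'0 : (0 : ℝ) < w' := by linarith
      have k2 := hup a' w' (by exact_mod_cast hw'0) (by
        have : (w' : ℝ) ≤ a' := by linarith
        exact_mod_cast this) (by linarith)
      have k3 := hL.mono (a := a) (a' := a') (w := w) (w' := w') (by linarith) hwa (by linarith)
        hw1.le (by linarith) (by linarith)
      have k4 := k1 (2 * r) (by linarith) (by linarith) a' w' (by linarith) (by linarith)
        (by linarith)
      have k5 : σ g * ((w' : ℝ) - g) ≤ σ g * (w - g) + σ g * δ := by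
        have := mul_le_mul_of_nonneg_left (show (w' : ℝ) - g ≤ w - g + δ by linarith) hσ.le
        linarith
      have k6 : (a' : ℝ) - w' ≤ a - w + 2 * δ := by linarith
      have k7 : δ * (4 * (σ g + 1)) = 4 * (σ g * δ) + 4 * δ := by ring
      rw [k7] at hδ2
      have k8 : e / 4 * (2 * r) = e * r / 2 := by ring
      have k9 : 0 ≤ σ g * δ := by positivity
      linarith
    · obtain ⟨r₁, hr₁, k1⟩ := h8 (e / 4) (by linarith)
      refine ⟨min (r₁ / 2) (min (g / 4) ((b₁ - g) / 4)), lt_min (by linarith)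
        (lt_min (by linarith) (by linarith)), fun r hr0 hr' u hu1 hu2 => ?_⟩
      have m1 : r < r₁ / 2 := hr'.trans_le (min_le_left _ _)
      have m2 : r < g / 4 := (hr'.trans_le (min_le_right _ _)).trans_le (min_le_left _ _)
      have m3 : r < (b₁ - g) / 4 := (hr'.trans_le (min_le_right _ _)).trans_le (min_le_right _ _)
      obtain ⟨δ, hδ⟩ : ∃ δ, δ = min (r / 2) (e * r / (4 * (σ g + 1))) := ⟨_, rfl⟩
      have hδ0 : 0 < δ := by
        rw [hδ]
        exact lt_min (by linarith) (by positivity)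
      have hδ1 : δ ≤ r / 2 := by rw [hδ]; exact min_le_left _ _
      have hδ2 : δ ≤ e * r / (4 * (σ g + 1)) := by rw [hδ]; exact min_le_right _ _
      rw [le_div_iff₀ (by linarith)] at hδ2
      obtain ⟨u', hv1, hv2⟩ := exists_rat_btwn (show u - δ < u by linarith)
      have hu'0 : (0 : ℝ) < u' := by linarith
      have k2 := hlo u' (by exact_mod_cast hu'0) (by linarith)
      have k3 := hL.mono (a := u') (a' := u) (w := u') (w' := u) hu'0.le le_rfl hv2.le hv2.le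
        le_rfl (by linarith)
      have k4 := k1 (2 * r) (by linarith) (by linarith) u' (by linarith) (by linarith)
      simp only at k4
      have k5 : σ g * (u - g) - σ g * δ ≤ σ g * ((u' : ℝ) - g) := by
        have := mul_le_mul_of_nonneg_left (show u - g - δ ≤ (u' : ℝ) - g by linarith) hσ.le
        linarith
      have k7 : δ * (4 * (σ g + 1)) = 4 * (σ g * δ) + 4 * δ := by ring
      rw [k7] at hδ2
      have k8 : e / 4 * (2 * r) = e * r / 2 := by ring
      have k9 : 0 < e * r := mul_pos he hr0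
      linarith
  have hmain := rg_mainE hL hrate.lip hrate.mono hFull hh₀ hs le_rfl hQb0 hQb1 hE'
  refine hmain.trans (ENNReal.ofReal_le_ofReal ?_)
  rw [hrate.zero, sub_zero]
  -- the count
  obtain ⟨vv, hvv⟩ : ∃ vv, vv = 1 + ∑ i ∈ range (n - 2), (1 - Q (i + 1)) := ⟨_, rfl⟩
  rw [← hvv] at hlow ⊢
  by_contra hcon
  push Not at hcon
  obtain ⟨x, hx⟩ : ∃ x, x = (r Qb - (eb - vv)) / 4 := ⟨_, rfl⟩
  have hx0 : 0 < x := by rw [hx]; linarith
  have hnum := hrate.num Qb hQb0 hQb1 (x * Real.log 2) (by positivity)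
  refine bas_no hC.ne ((((Bas.sub h3 (hlow x hx0)).and (Bas.sub hsub (hΨ₂ x hx0))).and
    (hnum.and hpos)).mono 1 ?_)
  rintro J hJ F A ⟨⟨k1, k2⟩, k3, hA⟩
  have hJ0 : (0 : ℝ) < J := by exact_mod_cast hJ
  have hq := isLaw_cond F.isLaw hA
  have hch := CH_chain hq.nonneg (fun ω => F.X ⌊Qb * J⌋₊ ω (lst hn))
    (fun ω (l : Fin (n - 1)) => F.X J ω (v l)) F.W
  have hoth : CH (Pool.Agent.H49.Ent.cond F.p A True) (fun ω => F.X ⌊Qb * J⌋₊ ω (lst hn))
      (fun ω => oth (lst hn) J F (ptr F J ω)) ≤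
      CH (Pool.Agent.H49.Ent.cond F.p A True) (fun ω => F.X ⌊Qb * J⌋₊ ω (lst hn))
        (fun ω => ((fun l : Fin (n - 1) => F.X J ω (v l)), F.W ω)) := by
    refine CH_mono_cond hq.nonneg fun ω ω' _ _ hh => ?_
    have h4 : oth (lst hn) J F (ptr F J ω) = oth (lst hn) J F (ptr F J ω') := hh
    have h5 := Prod.ext_iff.mp h4
    refine Prod.ext (funext fun l => ?_) h5.2
    have h6 := congrFun h5.1 (v l)
    have h7 : Function.update (F.X J ω) (lst hn) 0 (v l) =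
      Function.update (F.X J ω') (lst hn) 0 (v l) := h6
    rwa [Function.update_of_ne (hvl l l.2), Function.update_of_ne (hvl l l.2)] at h7
  rw [abs_le] at k3
  have k4 : (vv - x) * Real.log 2 * J + (r Qb * Real.log 2 * J - x * Real.log 2 * J) ≤
      (eb + x) * Real.log 2 * J := by linarith [k3.1]
  have k5 : r Qb = eb - vv + 4 * x := by rw [hx]; ring
  rw [k5] at k4
  have k6 : 0 < x * Real.log 2 * J := by positivity
  have k7 : (vv - x) * Real.log 2 * J + ((eb - vv + 4 * x) * Real.log 2 * J -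
      x * Real.log 2 * J) = (eb + x) * Real.log 2 * J + x * Real.log 2 * J := by ring
  linarith

/-- The hypothesis of `zfin` on the rows, from the micro statement for the rows of large deficit. -/
theorem rgFull_locE {η : ℝ → ℝ} (hM : LocE n η MicE) (hn : 2 ≤ n)
    (hZ : ∀ k, 1 ≤ k → k < n → FZX k) {D : ℝ} (hD : 0 < D) (hD1 : D ≤ 1)
    (hE : Ext n ((1 + η D) * D)) {al : ℝ} {g₀ : ℝ → ℝ} (hal : 0 < al)
    (hg₀ : ∀ ε : ℝ, 0 < ε → 0 < g₀ ε) {N : ℚ → ℚ → ℝ} {S : PCl n} {P : ℝ → ℝ → ℝ} {r : ℝ → ℝ}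
    (hS : ClX (fun _ => 0) (fun _ => 1) al g₀ 2 0 N S) (hT : ThrOf (tgs (lst hn)) S (fun _ => P))
    (hr : RateOf S (lst hn) r) (E : Set ℝ) : RgFull P r ((1 - η D) * D) E :=
  rgFull_micE (hT.law ()) hr.lip (hM hn hZ D hD hD1 hE al g₀ (fun _ => 0) (fun _ => 1) hal hg₀
    ⟨fun _ _ _ => le_rfl, fun _ => le_rfl, fun _ => zero_le_one, fun _ _ => rfl,
      fun _ => one_pos⟩ 2 0 N S two_pos hS P r hT hr) E

/-- The hypothesis of `zfin` on the rows, from the micro input for the rows of large deficit. -/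
theorem rgFull_locRt {η : ℝ → ℝ} (hM : LocE n η fun P r h => MicW P (rt r h)) (hn : 2 ≤ n)
    (hZ : ∀ k, 1 ≤ k → k < n → FZX k) {D : ℝ} (hD : 0 < D) (hD1 : D ≤ 1) (hη : η D ≤ 1)
    (hE : Ext n ((1 + η D) * D)) {al : ℝ} {g₀ : ℝ → ℝ} (hal : 0 < al)
    (hg₀ : ∀ ε : ℝ, 0 < ε → 0 < g₀ ε) {N : ℚ → ℚ → ℝ} {S : PCl n} {P : ℝ → ℝ → ℝ} {r : ℝ → ℝ}
    (hS : ClX (fun _ => 0) (fun _ => 1) al g₀ 2 0 N S) (hT : ThrOf (tgs (lst hn)) S (fun _ => P))
    (hr : RateOf S (lst hn) r) (E : Set ℝ) : RgFull P r ((1 - η D) * D) E :=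
  rgFull_rt (hT.law ()) hr.lip hr.mono (mul_nonneg (by linarith) hD.le)
    (hM hn hZ D hD hD1 hE al g₀ (fun _ => 0) (fun _ => 1) hal hg₀
      ⟨fun _ _ _ => le_rfl, fun _ => le_rfl, fun _ => zero_le_one, fun _ _ => rfl,
        fun _ => one_pos⟩ 2 0 N S two_pos hS P r hT hr) E

end Pool.ZFN
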