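import Pool.Agent.H39.GEN.Pgd
import Pool.Agent.H77.Z4.Zw
import Pool.Agent.H82.ZF.Pr

/-!
# The inequality between two windows from the data on the events of the class

`zbun_or`: the statements on the zooms hold in one of the two cases. `zw_mevt`: the inequality for
the windows between `w₁` and `w₁ + δ` from the data `MEvt` on the events of the class.
-/

set_option autoImplicit false

namespace Pool.Z4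

open MeasureTheory Set Filter Topology
open Finset (range univ)
open Pool.Agent.H49.Ent Pool.Agent.H32.Dense Pool.STK Pool.KA Pool.KSAT Pool.K2S Pool.PB Pool.S6C
open Pool.GEN Pool.ONE Pool.EXW Pool.TOP Pool.ZCL Pool.ZLC Pool.ZFN Pool.ZCO Pool.PKG Pool.CHT
open Pool.LBT (ThrOf)
open Pool.LEV (Law)
open Pool.ALL (RateOf)
open Pool.PSI (PsN co psi2_gdA psi2_gdB' mevc_of)

variable {n : ℕ} {hn : 2 ≤ n} {S : PCl n} {P : ℝ → ℝ → ℝ} {r : ℝ → ℝ}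
  {P' : ℕ → List (Fin n) × Fin n → ℝ → ℝ → ℝ} {Λ : Finset (Fin n) → Fin n → ℝ → ℝ → ℝ}
  {o : Od n} {l : ℕ} {w₁ : ℝ} {δ : ℚ} {M : MDat} {Vd : Rq → Prop} {β : ℕ → ℝ → ℝ → ℝ}
  {lamf LU : ℝ → ℝ → ℝ}

/-- The numbers with the constants of the codes. -/
theorem Zwd.co (Z : Zwd hn P r P' Λ o l w₁ δ M Vd β lamf LU) :
    Zwd hn P r P' Λ o l w₁ δ (Pool.PSI.co M (n - 1)) Vd β lamf LU where
  l1 := Z.l1
  ln := Z.ln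
  δ0 := Z.δ0
  g1 := Z.g1
  gR := Z.gR
  gb := Z.gb
  bet := Z.bet
  ok := ⟨Z.ok.ϱ0, Z.ok.E0, Z.ok.E1, fun q => half_pos (Z.ok.ψ0 q), Z.ok.d0⟩
  num := Z.num
  vd := Z.vd
  lam := Z.lam
  lu := Z.lu
  near := Z.near

/-- The numbers at the window `w₁`. -/
theorem Zwd.psn1 (Z : Zwd hn P r P' Λ o l w₁ δ M Vd β lamf LU) : PsN hn P P' o M β Vd w₁ where
  eq i hi := Z.bet i hi _ _
  le i hi := by
    have h1 := Z.num w₁ (Or.inl rfl) i hi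
    rwa [Z.bet i hi] at h1
  vd Dr η σ hη hσ hσ2 := by
    have h1 := Z.vd 0 0 le_rfl le_rfl Z.δ0.le Dr η σ hη hσ hσ2
    simp only [Rat.cast_zero, add_zero] at h1
    rwa [Z.lam.1] at h1

/-- The numbers at the window `w₁ + δ`. -/
theorem Zwd.psn2 (Z : Zwd hn P r P' Λ o l w₁ δ M Vd β lamf LU) :
    PsN hn P P' o M β Vd (w₁ + δ) where
  eq i hi := Z.bet i hi _ _
  le i hi := by
    have h1 := Z.num _ (Or.inr rfl) i hi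
    rwa [Z.bet i hi] at h1
  vd Dr η σ hη hσ hσ2 := by
    have h1 := Z.vd δ δ Z.δ0.le le_rfl le_rfl Dr η σ hη hσ hσ2
    rwa [Z.lam.2] at h1

/-- **The statements on the zooms hold in one of the two cases.** -/
theorem zbun_or' (Z : Zwd hn P r P' Λ o l w₁ δ M Vd β lamf LU) (H : Pk hn S P r P' Λ)
    (hTop : Pool.TOP.TopS n) (hF : FZX (n - 1)) (hne : S.Ne) {E₁ : ℝ} (hE₁ : 0 ≤ E₁)
    (hE : β (n - 1) (w₁ + δ) (w₁ + δ) + E₁ < 1) (hVd : ∀ q, Vd q → q.w ≤ q.a ∧ q.a ≤ 1)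
    (hM₀ : MEvt S M w₁ E₁ (cc hn o.1.1) (n - 1) l β Vd) :
    ZBun hn S P r P' Λ o l w₁ (w₁ + δ) 0
      (fun R : {R : DtP n // GdA hn o.1.1 Z.ln (Pool.PSI.co M (n - 1)) w₁ β Vd R} => R.1)
      (Ngr w₁ δ) LU ∨
    ∃ xs : ℝ, 0 ≤ xs ∧ xs ≤ E₁ ∧ w₁ + xs ≤ LL hn P P' o (l + 1) w₁ w₁ ∧
      ZBun hn S P r P' Λ o l w₁ (w₁ + δ) xs
        (fun R : {R : DtP n // GdB hn o.1.1 Z.ln (Pool.PSI.co M (n - 1)) w₁ xs β Vd R} => R.1)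
        (Ngr w₁ δ) LU := by
  have hl := Z.ln
  have hδ0 : (0 : ℝ) < δ := by exact_mod_cast Z.δ0
  have hw0 : 0 < w₁ := Z.g1.1.1.1
  have hw1 : w₁ < 1 := Z.g1.1.1.2.1
  have hb1 : w₁ + δ < 1 := Z.gb.1.1.2.1
  have hMC := mevc_of (cc_injOn hn o.1.1) hVd (fun q _ => Z.ok.ψ0 q) hM₀
  have Z' := Z.co
  rcases zreq_of hn o.1.1 hne Z.l1 hl hE₁ Z'.ok.ψ0 hMC with hA | ⟨xs, hx0, hx1, hB⟩
  · exact Or.inl (zbun_A Z' H hF hA (Pool.ZFI.psi1_A H hTop hF hl hw0 hw1 hb1.le)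
      fun h hh => psi2_gdA H hTop hF hl hw0 (by linarith) Z.gb Z'.ok.E0 Z'.ok.ϱ0 Z'.ok.d0
        Z'.psn1 Z'.psn2 hh)
  · have hxs : w₁ + xs ≤ LL hn P P' o (l + 1) w₁ w₁ :=
      xs_le H.tmc hw0 (show w₁ < w₁ + δ by linarith) hb1 hB Z.near
        (fun a w ε => ngr_dense a w ε) (lt := lst hn) (e := ez hn o.1.1 l)
        fun p hp a w hw hwa h1 h2 K U h hU hh hq => phi1_B (hl := hl) Z'.vd Z'.ok.ϱ0
          Z'.ok.E0 Z'.ok.E1 Z'.ok.ψ0 (fun q hq => (Z'.ok.d0 q hq l (by omega)).1) hw0 hb1 Z.lu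
          hp hw hwa h1 h2 K hU hh hq
    exact Or.inr ⟨xs, hx0, hx1, hxs, zbun_B Z' H hF hx0 hB
      (Pool.ZFI.psi1_B H hTop hF hl hw0 hw1 hb1.le hx0)
      fun h hh => psi2_gdB' H hTop hF hl hw0 (by linarith) Z.gb hx0 hxs Z'.ok.E0 (by linarith)
        Z'.ok.ϱ0 Z'.ok.d0 Z'.psn1 Z'.psn2 hh⟩

/-- The number of the shear is at most `M.E`. -/
theorem Zwd.e1 (Z : Zwd hn P r P' Λ o l w₁ δ M Vd β lamf LU) {E₁ : ℝ} (hE : E₁ ≤ M.E) :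
    β (n - 1) (w₁ + δ) (w₁ + δ) + E₁ < 1 := by
  have h1 := Z.num _ (Or.inr rfl) (n - 1) le_rfl
  have h2 := Z.ok.ϱ0
  linarith

/-- The statements on the zooms, if the number of the shear is at most `M.E`. -/
theorem zbun_or (Z : Zwd hn P r P' Λ o l w₁ δ M Vd β lamf LU) (H : Pk hn S P r P' Λ)
    (hTop : Pool.TOP.TopS n) (hF : FZX (n - 1)) (hne : S.Ne) {E₁ : ℝ} (hE₁ : 0 ≤ E₁)
    (hE : E₁ ≤ M.E) (hVd : ∀ q, Vd q → q.w ≤ q.a ∧ q.a ≤ 1)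
    (hM₀ : MEvt S M w₁ E₁ (cc hn o.1.1) (n - 1) l β Vd) :
    ZBun hn S P r P' Λ o l w₁ (w₁ + δ) 0
      (fun R : {R : DtP n // GdA hn o.1.1 Z.ln (Pool.PSI.co M (n - 1)) w₁ β Vd R} => R.1)
      (Ngr w₁ δ) LU ∨
    ∃ xs : ℝ, 0 ≤ xs ∧ xs ≤ E₁ ∧ w₁ + xs ≤ LL hn P P' o (l + 1) w₁ w₁ ∧
      ZBun hn S P r P' Λ o l w₁ (w₁ + δ) xs
        (fun R : {R : DtP n // GdB hn o.1.1 Z.ln (Pool.PSI.co M (n - 1)) w₁ xs β Vd R} => R.1)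
        (Ngr w₁ δ) LU :=
  zbun_or' Z H hTop hF hne hE₁ (Z.e1 hE) hVd hM₀

/-- **The inequality between two windows** from the data on the events of the class. -/
theorem zw_mevt' (Z : Zwd hn P r P' Λ o l w₁ δ M Vd β lamf LU) (H : Pk hn S P r P' Λ)
    (hTop : Pool.TOP.TopS n) (hF1 : FZX 1) (hF : FZX (n - 1)) (hW : ∀ k, 2 ≤ k → k < n → RW k)
    {s : Fin n → ℝ} {d : ℕ → ℝ} {al : ℝ} {g₀ : ℝ → ℝ} {e₀ : ℝ} {K₀ : ℕ} {N : ℚ → ℚ → ℝ}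
    (hal : 0 < al) (hg₀ : ∀ ε : ℝ, 0 < ε → 0 < g₀ ε) (hC : ClX s d al g₀ e₀ K₀ N S)
    {E₁ : ℝ} (hE₁ : 0 ≤ E₁) (hE : β (n - 1) (w₁ + δ) (w₁ + δ) + E₁ < 1)
    (hVd : ∀ q, Vd q → q.w ≤ q.a ∧ q.a ≤ 1)
    (hM₀ : MEvt S M w₁ E₁ (cc hn o.1.1) (n - 1) l β Vd)
    {A : Set ℝ} {σ : ℝ → ℝ} {s₀ h₀ : ℝ} (hs : 1 < s₀) (hh₀ : h₀ ≤ 1)
    (hA : ∀ x ∈ A, w₁ < x → x < w₁ + δ → s₀ ≤ σ x ∧ LL hn P P' o (l + 1) x x < 1 ∧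
      RgUp LU x (LL hn P P' o (l + 1) x x) (σ x) ∧
      DgLo (LL hn P P' o (l + 1)) x (LL hn P P' o (l + 1) x x) (σ x) ∧
      ContinuousAt (fun v => LL hn P P' o (l + 1) v v) x ∧ Nogap (Gs P r P' Λ o) x)
    (hM : ∀ (S' : PCl n) (P : ℝ → ℝ → ℝ) (r : ℝ → ℝ), ClX (fun _ => 0) (fun _ => 1) al
      (fun x => min (g₀ (x / 2)) 1) 2 0 (NZR S (cc hn o.1.1 0) (al + 1) w₁) S' →
      ThrOf (tgs (lst hn)) S' (fun _ => P) → RateOf S' (lst hn) r → ∀ E, RgFull P r h₀ E) :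
    ENNReal.ofReal ((1 - h₀) * s₀) * volume (A ∩ Ioo w₁ (w₁ + δ)) ≤
      ENNReal.ofReal (LL hn P P' o (l + 1) (w₁ + δ) (w₁ + δ) - LL hn P P' o (l + 1) w₁ w₁ -
        (P (w₁ + δ) (w₁ + δ) - P w₁ w₁ - (r (P (w₁ + δ) (w₁ + δ)) - r (P w₁ w₁)))) := by
  rcases zbun_or' Z H hTop hF hC.ne hE₁ hE hVd hM₀ with hB | ⟨xs, hx0, -, -, hB⟩
  · exact zw_of Z H hF1 hW hal hg₀ hC le_rfl hB hs hh₀ hA hM
  · exact zw_of Z H hF1 hW hal hg₀ hC hx0 hB hs hh₀ hA hM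

/-- The inequality, if the number of the shear is at most `M.E`. -/
theorem zw_mevt (Z : Zwd hn P r P' Λ o l w₁ δ M Vd β lamf LU) (H : Pk hn S P r P' Λ)
    (hTop : Pool.TOP.TopS n) (hF1 : FZX 1) (hF : FZX (n - 1)) (hW : ∀ k, 2 ≤ k → k < n → RW k)
    {s : Fin n → ℝ} {d : ℕ → ℝ} {al : ℝ} {g₀ : ℝ → ℝ} {e₀ : ℝ} {K₀ : ℕ} {N : ℚ → ℚ → ℝ}
    (hal : 0 < al) (hg₀ : ∀ ε : ℝ, 0 < ε → 0 < g₀ ε) (hC : ClX s d al g₀ e₀ K₀ N S)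
    {E₁ : ℝ} (hE₁ : 0 ≤ E₁) (hE : E₁ ≤ M.E) (hVd : ∀ q, Vd q → q.w ≤ q.a ∧ q.a ≤ 1)
    (hM₀ : MEvt S M w₁ E₁ (cc hn o.1.1) (n - 1) l β Vd)
    {A : Set ℝ} {σ : ℝ → ℝ} {s₀ h₀ : ℝ} (hs : 1 < s₀) (hh₀ : h₀ ≤ 1)
    (hA : ∀ x ∈ A, w₁ < x → x < w₁ + δ → s₀ ≤ σ x ∧ LL hn P P' o (l + 1) x x < 1 ∧
      RgUp LU x (LL hn P P' o (l + 1) x x) (σ x) ∧
      DgLo (LL hn P P' o (l + 1)) x (LL hn P P' o (l + 1) x x) (σ x) ∧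
      ContinuousAt (fun v => LL hn P P' o (l + 1) v v) x ∧ Nogap (Gs P r P' Λ o) x)
    (hM : ∀ (S' : PCl n) (P : ℝ → ℝ → ℝ) (r : ℝ → ℝ), ClX (fun _ => 0) (fun _ => 1) al
      (fun x => min (g₀ (x / 2)) 1) 2 0 (NZR S (cc hn o.1.1 0) (al + 1) w₁) S' →
      ThrOf (tgs (lst hn)) S' (fun _ => P) → RateOf S' (lst hn) r → ∀ E, RgFull P r h₀ E) :
    ENNReal.ofReal ((1 - h₀) * s₀) * volume (A ∩ Ioo w₁ (w₁ + δ)) ≤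
      ENNReal.ofReal (LL hn P P' o (l + 1) (w₁ + δ) (w₁ + δ) - LL hn P P' o (l + 1) w₁ w₁ -
        (P (w₁ + δ) (w₁ + δ) - P w₁ w₁ - (r (P (w₁ + δ) (w₁ + δ)) - r (P w₁ w₁)))) :=
  zw_mevt' Z H hTop hF1 hF hW hal hg₀ hC hE₁ (Z.e1 hE) hVd hM₀ hs hh₀ hA hM

end Pool.Z4
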