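import Pool.Agent.H39.GEN.Zfn
import Pool.Agent.H56.ALL.Ext
import Pool.Agent.H56.ALL.Rt

/-!
# Rows at rough windows, with deficits

`RgFull P r h E`: the rows of the rough windows in `E` with a slope larger than one have deficits at
most `h`. This follows from `MicE P r h` (and from `MicW P r` for `h = 0`). `rg_mainE`: there are many
such rows.
-/

set_option autoImplicit false

namespace Pool.ZFN

open MeasureTheory Set Filter Topology
open Pool.LEV (Law Lv)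
open Pool.STR
open Pool.ONE (MicE rt rtd rt_lip rt_deriv)

variable {P : ℝ → ℝ → ℝ} {ρ : ℝ → ℝ} {h : ℝ}

/-- **The rows of the rough windows** in `E` with a slope larger than one have deficits at most
`h`. -/
def RgFull (P : ℝ → ℝ → ℝ) (ρ : ℝ → ℝ) (h : ℝ) (E : Set ℝ) : Prop :=
  ∀ᵐ Q : ℝ, 0 < Q → Q < 1 → ∀ g ∈ E, ∀ σ : ℝ, 0 < g → g < 1 → 1 < σ → RgUp P g Q σ →
    DgLo P g Q σ → 1 - h ≤ deriv ρ Q

theorem RgFull.sub {E E' : Set ℝ} (hE : E ⊆ E') (hR : RgFull P ρ h E') : RgFull P ρ h E := by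
  filter_upwards [hR] with Q h1 h2 h3 g hg
  exact h1 h2 h3 g (hE hg)

theorem rgFull_micE (hP : Law P) (hρ : LipschitzWith 1 ρ) (hM : MicE P ρ h) (E : Set ℝ) :
    RgFull P ρ h E := by
  filter_upwards [hM, hρ.ae_differentiableAt_real] with Q h1 h2 h3 h4 g _ σ h5 h6 h7 h8 h9
  by_contra hcon
  push Not at hcon
  have hσ : 0 < σ := by linarith
  have k1 := lv_eq hP h5 h6 hσ h3 h4 h8 h9
  have k2 := lv_deriv hP h5 h6 hσ h3 h4 h8 h9
  refine not_wfu hP h5 h6 h7 h3 h4 h8 h9 (h1 h3 h4 ?_ k2.differentiableAt ?_ h2 hcon)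
  · rw [k1]
    exact h5
  · rw [k2.deriv]
    positivity

theorem rgFull_micW (hP : Law P) (hρ : LipschitzWith 1 ρ) (hM : MicW P ρ) (E : Set ℝ) :
    RgFull P ρ 0 E := by
  filter_upwards [full_rg hP hρ hM] with Q h1 h2 h3 g _ σ h5 h6 h7 h8 h9
  rw [sub_zero]
  exact h1 h2 h3 g σ h5 h6 h7 h8 h9

/-- From the micro input for the rows of large deficit. -/
theorem rgFull_rt (hP : Law P) (hρ : LipschitzWith 1 ρ) (hρm : Monotone ρ) (hh : 0 ≤ h)
    (hM : MicW P (rt ρ h)) (E : Set ℝ) : RgFull P ρ h E := by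
  filter_upwards [rgFull_micW hP (rt_lip hρ hρm) hM E, rt_deriv (h := h) hρ hρm] with Q h1 h2 h3 h4 g hg
    σ h5 h6 h7 h8 h9
  have h10 := h1 h3 h4 g hg σ h5 h6 h7 h8 h9
  rw [sub_zero, h2.deriv] at h10
  unfold rtd at h10
  split_ifs at h10
  · assumption
  · linarith

/-- **There are many rows of small deficit.** -/
theorem rg_mainE (hP : Law P) (hρ : LipschitzWith 1 ρ) (hρm : Monotone ρ) {E : Set ℝ}
    (hM : RgFull P ρ h E) (hh : h ≤ 1) {D σ : ℝ → ℝ} {s₀ Q₀ Qb : ℝ} (hs : 1 < s₀) (h0 : 0 ≤ Q₀)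
    (h01 : Q₀ ≤ Qb) (hb : Qb ≤ 1) (hE : ∀ w ∈ E, 0 < w ∧ w < 1 ∧ s₀ ≤ σ w ∧
      RgUp P w (D w) (σ w) ∧ DgLo P w (D w) (σ w) ∧ Q₀ < D w ∧ D w < Qb) :
    ENNReal.ofReal ((1 - h) * s₀) * volume E ≤ ENNReal.ofReal (ρ Qb - ρ Q₀) := by
  obtain ⟨f, hf⟩ : ∃ f : ℝ → ℝ, f = fun Q => Lv P (Q, 0) := ⟨_, rfl⟩
  have hs0 : 0 < s₀ := by linarith
  have hder : ∀ w ∈ E, HasDerivAt f (1 / σ w) (D w) ∧ f (D w) = w := by
    intro w hw
    obtain ⟨h1, h2, h3, h4, h5, h6, h7⟩ := hE w hw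
    rw [hf]
    exact ⟨lv_deriv hP h1 h2 (by linarith) (by linarith) (by linarith) h4 h5,
      lv_eq hP h1 h2 (by linarith) (by linarith) (by linarith) h4 h5⟩
  have h1 : volume E ≤ ENNReal.ofReal (1 / s₀) * volume (D '' E) := by
    refine (measure_mono (t := f '' (D '' E)) fun w hw => ?_).trans (image_le ?_)
    · exact ⟨D w, ⟨w, hw, rfl⟩, (hder w hw).2⟩
    · rintro _ ⟨w, hw, rfl⟩
      refine ⟨(hder w hw).1.differentiableAt, ?_⟩
      have h2 := (hE w hw).2.2.1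
      have h3 : 0 < σ w := by linarith
      rw [(hder w hw).1.deriv, abs_of_pos (by positivity)]
      exact one_div_le_one_div_of_le hs0 h2
  obtain ⟨M, hMd⟩ : ∃ M, M = Ioo Q₀ Qb ∩ {Q | 1 - h ≤ deriv ρ Q} := ⟨_, rfl⟩
  have hMm : MeasurableSet M := by
    rw [hMd]
    exact measurableSet_Ioo.inter (measurableSet_le measurable_const (measurable_deriv ρ))
  have h2 : volume (D '' E) ≤ volume M := by
    refine measure_mono_ae ?_
    filter_upwards [hM] with Q hQ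
    rintro ⟨w, hw, rfl⟩
    obtain ⟨a1, a2, a3, a4, a5, a6, a7⟩ := hE w hw
    rw [hMd]
    exact ⟨⟨a6, a7⟩, hQ (by linarith) (by linarith) w hw (σ w) a1 a2 (by linarith) a4 a5⟩
  have hAC := (hρ.lipschitzOnWith (s := uIcc Q₀ Qb)).absolutelyContinuousOnInterval
  have hint : ∫ Q in Q₀..Qb, deriv ρ Q = ρ Qb - ρ Q₀ := hAC.integral_deriv_eq_sub
  have hii : IntegrableOn (deriv ρ) (Ioc Q₀ Qb) := by
    have h3 := hAC.intervalIntegrable_deriv
    rwa [intervalIntegrable_iff_integrableOn_Ioc_of_le h01] at h3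
  have h3 : ENNReal.ofReal (1 - h) * volume M ≤ ENNReal.ofReal (ρ Qb - ρ Q₀) := by
    rw [← hint, intervalIntegral.integral_of_le h01,
      ofReal_integral_eq_lintegral_ofReal hii (Eventually.of_forall fun Q => hρm.deriv_nonneg)]
    calc ENNReal.ofReal (1 - h) * volume M = ∫⁻ _ in M, ENNReal.ofReal (1 - h) := by
          rw [setLIntegral_const]
      _ ≤ ∫⁻ Q in M, ENNReal.ofReal (deriv ρ Q) := by
          refine setLIntegral_mono' hMm fun Q hQ => ?_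
          rw [hMd] at hQ
          exact ENNReal.ofReal_le_ofReal hQ.2
      _ ≤ ∫⁻ Q in Ioc Q₀ Qb, ENNReal.ofReal (deriv ρ Q) := by
          refine lintegral_mono_set fun Q hQ => ?_
          rw [hMd] at hQ
          exact ⟨hQ.1.1, hQ.1.2.le⟩
  calc ENNReal.ofReal ((1 - h) * s₀) * volume E ≤
        ENNReal.ofReal ((1 - h) * s₀) * (ENNReal.ofReal (1 / s₀) * volume (D '' E)) := by gcongr
    _ = ENNReal.ofReal (1 - h) * volume (D '' E) := by
        rw [← mul_assoc, ← ENNReal.ofReal_mul (mul_nonneg (by linarith) hs0.le), mul_assoc,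
          mul_one_div_cancel hs0.ne', mul_one]
    _ ≤ ENNReal.ofReal (1 - h) * volume M := by gcongr
    _ ≤ _ := h3

end Pool.ZFN
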