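import Pool.Agent.H39.GEN.MicW

/-!
# Rows at rough windows, from freedom of the window: numbers

`RgUp P g D σ`: near the window `g` the threshold is at most the one of the fattest boxes, where
the diagonal is `D + σ (w - g)`; `DgLo P g D σ`: the diagonal is at least this number. Then the
level `Lv P (D, 0)` is `g` with the derivative `1 / σ`, and the row `D` is not free from the window
if `1 < σ` (`not_wfu`). So the statement `MicW P ρ` says that almost all such rows are full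
(`full_rg`), and there are many of them (`rg_main`).
-/

set_option autoImplicit false

namespace Pool.ZFN

open MeasureTheory Set Filter Topology
open Pool.LEV (Law Lv lev lset Lv_eq lev_le le_lev lev_le_one lset_bdd one_mem Lv_lip Lv_mono)
open Pool.STR

variable {P : ℝ → ℝ → ℝ} {ρ : ℝ → ℝ}

/-- **Rough from above** near the window `g`: the threshold is at most the one of the fattest
boxes, up to `o (r)`. -/
def RgUp (P : ℝ → ℝ → ℝ) (g D σ : ℝ) : Prop :=
  ∀ e : ℝ, 0 < e → ∃ r₁ : ℝ, 0 < r₁ ∧ ∀ r : ℝ, 0 < r → r < r₁ → ∀ a w : ℝ, g - r ≤ w → w ≤ a →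
    a ≤ g + r → P a w ≤ D + σ * (w - g) + (a - w) + e * r

/-- **The diagonal from below** near the window `g`. -/
def DgLo (P : ℝ → ℝ → ℝ) (g D σ : ℝ) : Prop :=
  ∀ e : ℝ, 0 < e → ∃ r₁ : ℝ, 0 < r₁ ∧ ∀ r : ℝ, 0 < r → r < r₁ → ∀ v : ℝ, g - r ≤ v →
    v ≤ g + r → D + σ * (v - g) - e * r ≤ P v v

/-- The level of the rows near `D`. -/
theorem lev_near (hP : Law P) {g D σ : ℝ} (hg0 : 0 < g) (hg1 : g < 1) (hσ : 0 < σ) (hD0 : 0 < D)
    (hD1 : D < 1) (hU : RgUp P g D σ) (hL : DgLo P g D σ) {ε : ℝ} (hε : 0 < ε) (hε1 : ε ≤ 1 / 2) :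
    ∃ r₁ : ℝ, 0 < r₁ ∧ ∀ r : ℝ, 0 < r → r < r₁ → ∀ Q : ℝ, |Q - D| ≤ σ * r / 2 →
      |Lv P (Q, 0) - (g + (Q - D) / σ)| ≤ ε * r := by
  obtain ⟨r₂, hr₂, h2⟩ := hU (σ * ε / 2) (by positivity)
  obtain ⟨r₃, hr₃, h3⟩ := hL (σ * ε / 2) (by positivity)
  refine ⟨min (min r₂ r₃) (min (min g (1 - g)) (min (D / σ) ((1 - D) / σ))), ?_,
    fun r hr hr' Q hQ => ?_⟩
  · exact lt_min (lt_min hr₂ hr₃) (lt_min (lt_min hg0 (by linarith))
      (lt_min (by positivity) (div_pos (by linarith) hσ)))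
  have m1 : r < r₂ := (hr'.trans_le (min_le_left _ _)).trans_le (min_le_left _ _)
  have m2 : r < r₃ := (hr'.trans_le (min_le_left _ _)).trans_le (min_le_right _ _)
  have m3 := hr'.trans_le (min_le_right _ _)
  have m4 : r < g := (m3.trans_le (min_le_left _ _)).trans_le (min_le_left _ _)
  have m5 : r < 1 - g := (m3.trans_le (min_le_left _ _)).trans_le (min_le_right _ _)
  have m6 : r < D / σ := (m3.trans_le (min_le_right _ _)).trans_le (min_le_left _ _)
  have m7 : r < (1 - D) / σ := (m3.trans_le (min_le_right _ _)).trans_le (min_le_right _ _)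
  rw [lt_div_iff₀ hσ] at m6 m7
  obtain ⟨x, hx⟩ : ∃ x, x = (Q - D) / σ := ⟨_, rfl⟩
  have hxσ : σ * x = Q - D := by
    rw [hx]
    field_simp
  have hx1 : |x| ≤ r / 2 := by
    have h4 : |σ * x| ≤ σ * r / 2 := by rw [hxσ]; exact hQ
    rw [abs_mul, abs_of_pos hσ] at h4
    have h5 : σ * |x| ≤ σ * (r / 2) := by linarith
    exact le_of_mul_le_mul_left h5 hσ
  have hx2 := abs_le.1 hx1
  have hQ2 := abs_le.1 hQ
  have hQ0 : 0 ≤ Q := by nlinarith
  have hQ1 : Q ≤ 1 := by nlinarith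
  have hεr : ε * r ≤ r / 2 := by nlinarith
  have hεr0 : 0 < ε * r := mul_pos hε hr
  rw [← hx, Lv_eq le_rfl zero_le_one hQ0 hQ1, abs_le]
  constructor
  · -- the lower bound
    obtain ⟨v, hv⟩ : ∃ v, v = g + x - ε * r := ⟨_, rfl⟩
    have h4 := h2 r hr m1 v v (by linarith) le_rfl (by linarith)
    have h5 : P v v < Q := by
      have h6 : D + σ * (v - g) = Q - σ * (ε * r) := by
        rw [hv]
        linear_combination hxσ
      have h7 : 0 < σ * (ε * r) := by positivity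
      have h8 : σ * ε / 2 * r = σ * (ε * r) / 2 := by ring
      linarith
    have h6 : v ≤ lev P Q 0 := by
      refine le_csInf ⟨1, one_mem zero_le_one⟩ ?_
      rintro a ⟨k1, k2, k3⟩
      by_contra hcon
      push Not at hcon
      rcases k3 with k3 | k3
      · rw [sub_zero] at k3
        have h7 := hP.mono (a := a) (a' := v) (w := a) (w' := v) k1 le_rfl hcon.le hcon.le le_rfl
          (by linarith)
        linarith
      · linarith
    linarith
  · -- the upper bound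
    obtain ⟨v, hv⟩ : ∃ v, v = g + x + ε * r := ⟨_, rfl⟩
    have h4 := h3 r hr m2 v (by linarith) (by linarith)
    have h5 : Q ≤ P v v := by
      have h6 : D + σ * (v - g) = Q + σ * (ε * r) := by
        rw [hv]
        linear_combination hxσ
      have h7 : 0 < σ * (ε * r) := by positivity
      have h8 : σ * ε / 2 * r = σ * (ε * r) / 2 := by ring
      linarith
    have h6 : lev P Q 0 ≤ v := by
      refine lev_le ⟨by linarith, by linarith, Or.inl ?_⟩
      rw [sub_zero]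
      exact h5
    linarith

/-- **The level of a rough row.** -/
theorem lv_eq (hP : Law P) {g D σ : ℝ} (hg0 : 0 < g) (hg1 : g < 1) (hσ : 0 < σ) (hD0 : 0 < D)
    (hD1 : D < 1) (hU : RgUp P g D σ) (hL : DgLo P g D σ) : Lv P (D, 0) = g := by
  by_contra hne
  have hpos : 0 < |Lv P (D, 0) - g| := abs_pos.2 (sub_ne_zero.2 hne)
  obtain ⟨r₁, hr₁, h1⟩ := lev_near hP hg0 hg1 hσ hD0 hD1 hU hL (ε := 1 / 2) (by norm_num) le_rfl
  have h2 := h1 (min (r₁ / 2) |Lv P (D, 0) - g|) (lt_min (by linarith) hpos)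
    (lt_of_le_of_lt (min_le_left _ _) (by linarith)) D (by
      rw [sub_self, abs_zero]
      have : 0 < min (r₁ / 2) |Lv P (D, 0) - g| := lt_min (by linarith) hpos
      positivity)
  rw [sub_self, zero_div, add_zero] at h2
  have h3 : min (r₁ / 2) |Lv P (D, 0) - g| ≤ |Lv P (D, 0) - g| := min_le_right _ _
  linarith

/-- **The derivative of the level at a rough row.** -/
theorem lv_deriv (hP : Law P) {g D σ : ℝ} (hg0 : 0 < g) (hg1 : g < 1) (hσ : 0 < σ) (hD0 : 0 < D)
    (hD1 : D < 1) (hU : RgUp P g D σ) (hL : DgLo P g D σ) :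
    HasDerivAt (fun Q => Lv P (Q, 0)) (1 / σ) D := by
  rw [hasDerivAt_iff_isLittleO, Asymptotics.isLittleO_iff]
  intro c hc
  obtain ⟨ε, hε⟩ : ∃ ε, ε = min (1 / 2) (c * σ / 2) := ⟨_, rfl⟩
  have hε0 : 0 < ε := by rw [hε]; exact lt_min (by norm_num) (by positivity)
  have hε1 : ε ≤ 1 / 2 := by rw [hε]; exact min_le_left _ _
  have hε2 : ε ≤ c * σ / 2 := by rw [hε]; exact min_le_right _ _
  obtain ⟨r₁, hr₁, h1⟩ := lev_near hP hg0 hg1 hσ hD0 hD1 hU hL hε0 hε1
  have h2 : ∀ᶠ Q in 𝓝 D, |Q - D| < σ * r₁ / 2 := by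
    have h3 : Tendsto (fun Q : ℝ => |Q - D|) (𝓝 D) (𝓝 |D - D|) := by
      have : Continuous fun Q : ℝ => |Q - D| := by fun_prop
      exact this.tendsto D
    rw [sub_self, abs_zero] at h3
    exact h3.eventually (gt_mem_nhds (by positivity))
  filter_upwards [h2] with Q hQ
  rw [lv_eq hP hg0 hg1 hσ hD0 hD1 hU hL, Real.norm_eq_abs, Real.norm_eq_abs, smul_eq_mul]
  by_cases hQD : Q = D
  · subst hQD
    rw [lv_eq hP hg0 hg1 hσ hD0 hD1 hU hL]
    simp
  have hpos : 0 < |Q - D| := abs_pos.2 (sub_ne_zero.2 hQD)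
  obtain ⟨r, hr⟩ : ∃ r, r = 2 * |Q - D| / σ := ⟨_, rfl⟩
  have hrσ : σ * r = 2 * |Q - D| := by
    rw [hr]
    field_simp
  have hr0 : 0 < r := by rw [hr]; positivity
  have hr1 : r < r₁ := by
    have h4 : σ * r < σ * r₁ := by linarith
    exact lt_of_mul_lt_mul_left h4 hσ.le
  have h4 := h1 r hr0 hr1 Q (by linarith)
  have h5 : Lv P (Q, 0) - g - (Q - D) * (1 / σ) = Lv P (Q, 0) - (g + (Q - D) / σ) := by ring
  rw [h5]
  refine h4.trans ?_
  calc ε * r ≤ c * σ / 2 * r := mul_le_mul_of_nonneg_right hε2 hr0.le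
    _ = c / 2 * (σ * r) := by ring
    _ = c * |Q - D| := by rw [hrσ]; ring

/-- **A rough row is not free from the window.** -/
theorem not_wfu (hP : Law P) {g D σ : ℝ} (hg0 : 0 < g) (hg1 : g < 1) (hσ : 1 < σ) (hD0 : 0 < D)
    (hD1 : D < 1) (hU : RgUp P g D σ) (hL : DgLo P g D σ) : ¬ WfU P D := by
  intro hW
  obtain ⟨c, hc⟩ : ∃ c, c = (σ - 1) / (2 * σ) := ⟨_, rfl⟩
  have hσ0 : 0 < σ := by linarith
  have hc0 : 0 < c := by rw [hc]; exact div_pos (by linarith) (by linarith)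
  have hcσ : σ * c = (σ - 1) / 2 := by
    rw [hc]
    field_simp
  have hc1 : c ≤ 1 := by
    by_contra h
    push Not at h
    have : σ * 1 < σ * c := mul_lt_mul_of_pos_left h hσ0
    linarith
  obtain ⟨r₁, hr₁, h1⟩ := hW (c / 2) (by linarith)
  obtain ⟨r₂, hr₂, h2⟩ := hU ((σ - 1) / 8) (by linarith)
  obtain ⟨r, hr⟩ : ∃ r, r = min (min (r₁ / 2) (r₂ / 4)) (min (g / 2) ((1 - g) / 4)) := ⟨_, rfl⟩
  have hr0 : 0 < r := by
    rw [hr]
    exact lt_min (lt_min (by linarith) (by linarith)) (lt_min (by linarith) (by linarith))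
  have hr1 : r ≤ r₁ / 2 := by
    rw [hr]
    exact (min_le_left _ _).trans (min_le_left _ _)
  have hr2 : r ≤ r₂ / 4 := by
    rw [hr]
    exact (min_le_left _ _).trans (min_le_right _ _)
  have hr3 : r ≤ g / 2 := by
    rw [hr]
    exact (min_le_right _ _).trans (min_le_left _ _)
  have hr4 : r ≤ (1 - g) / 4 := by
    rw [hr]
    exact (min_le_right _ _).trans (min_le_right _ _)
  have h3 := h1 r hr0 (by linarith) D (by rw [sub_self, abs_zero]; exact hr0.le)
  rw [lv_eq hP hg0 hg1 hσ0 hD0 hD1 hU hL] at h3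
  have hcr : c * r ≤ r := by nlinarith
  have h4 : g + c * r ≤ Lv P (D, r) := by
    rw [Lv_eq hr0.le (by linarith) hD0.le hD1.le]
    refine le_csInf ⟨1, one_mem (by linarith)⟩ ?_
    rintro a ⟨k1, k2, k3⟩
    by_contra hcon
    push Not at hcon
    rcases k3 with k3 | k3
    · obtain ⟨v, hv⟩ : ∃ v, v = g + c * r := ⟨_, rfl⟩
      have h5 := hP.mono (a := a) (a' := v) (w := a - r) (w' := v - r) (by linarith) (by linarith)
        (by linarith) (by linarith) (by linarith) (by linarith)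
      have hcr0 : 0 < c * r := mul_pos hc0 hr0
      have h6 := h2 (2 * r) (by linarith) (by linarith) v (v - r) (by linarith) (by linarith)
        (by linarith)
      have h7 : σ * (v - r - g) = (σ - 1) / 2 * r - σ * r := by
        rw [hv]
        linear_combination r * hcσ
      have h8 : 0 < (σ - 1) * r := mul_pos (by linarith) hr0
      have h9 : v - (v - r) = r := by ring
      rw [h7, h9] at h6
      nlinarith
    · linarith
  have h5 : 0 < c * r := mul_pos hc0 hr0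
  linarith

/-- **The rough rows are full**, if `MicW` holds. -/
theorem full_rg (hP : Law P) (hρ : LipschitzWith 1 ρ) (hM : MicW P ρ) :
    ∀ᵐ Q : ℝ, 0 < Q → Q < 1 → ∀ g σ : ℝ, 0 < g → g < 1 → 1 < σ → RgUp P g Q σ → DgLo P g Q σ →
      1 ≤ deriv ρ Q := by
  filter_upwards [hM, hρ.ae_differentiableAt] with Q h1 h2 h3 h4 g σ h5 h6 h7 h8 h9
  by_contra hcon
  push Not at hcon
  have hσ : 0 < σ := by linarith
  have k1 := lv_eq hP h5 h6 hσ h3 h4 h8 h9
  have k2 := lv_deriv hP h5 h6 hσ h3 h4 h8 h9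
  refine not_wfu hP h5 h6 h7 h3 h4 h8 h9 (h1 h3 h4 ?_ k2.differentiableAt ?_ h2 hcon)
  · rw [k1]
    exact h5
  · rw [k2.deriv]
    positivity

/-- The image of a set under a function with bounded derivative there. -/
theorem image_le {f : ℝ → ℝ} {A : Set ℝ} {C : ℝ} (hA : ∀ x ∈ A, DifferentiableAt ℝ f x ∧ |deriv f x| ≤ C) :
    volume (f '' A) ≤ ENNReal.ofReal C * volume A := by
  obtain ⟨B, hB⟩ : ∃ B, B = toMeasurable volume A ∩
      ({x | DifferentiableAt ℝ f x} ∩ {x | |deriv f x| ≤ C}) := ⟨_, rfl⟩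
  have hBm : MeasurableSet B := by
    rw [hB]
    refine (measurableSet_toMeasurable _ _).inter ((measurableSet_of_differentiableAt ℝ f).inter ?_)
    exact measurableSet_le (measurable_deriv f).abs measurable_const
  have hAB : A ⊆ B := by
    rw [hB]
    exact fun x hx => ⟨subset_toMeasurable _ _ hx, hA x hx⟩
  have hBA : volume B ≤ volume A := by
    rw [hB]
    exact (measure_mono inter_subset_left).trans (measure_toMeasurable A).le
  have h2 : volume (f '' B) ≤ ∫⁻ x in B, ENNReal.ofReal |(ContinuousLinearMap.toSpanSingleton ℝ (deriv f x)).det| := by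
    refine addHaar_image_le_lintegral_abs_det_fderiv volume hBm fun x hx => ?_
    rw [hB] at hx
    exact (hx.2.1.hasDerivAt.hasFDerivAt).hasFDerivWithinAt
  calc volume (f '' A) ≤ volume (f '' B) := measure_mono (image_mono hAB)
    _ ≤ _ := h2
    _ ≤ ∫⁻ _ in B, ENNReal.ofReal C := by
        refine setLIntegral_mono' hBm fun x hx => ?_
        rw [hB] at hx
        refine ENNReal.ofReal_le_ofReal ?_
        simpa using hx.2.2
    _ = ENNReal.ofReal C * volume B := by rw [setLIntegral_const]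
    _ ≤ ENNReal.ofReal C * volume A := by gcongr

/-- **There are many full rows.** -/
theorem rg_main (hP : Law P) (hρ : LipschitzWith 1 ρ) (hρm : Monotone ρ) (hM : MicW P ρ)
    {E : Set ℝ} {D σ : ℝ → ℝ} {s₀ Q₀ Qb : ℝ} (hs : 1 < s₀) (h0 : 0 ≤ Q₀) (h01 : Q₀ ≤ Qb)
    (hb : Qb ≤ 1) (hE : ∀ w ∈ E, 0 < w ∧ w < 1 ∧ s₀ ≤ σ w ∧ RgUp P w (D w) (σ w) ∧
      DgLo P w (D w) (σ w) ∧ Q₀ < D w ∧ D w < Qb) :
    ENNReal.ofReal s₀ * volume E ≤ ENNReal.ofReal (ρ Qb - ρ Q₀) := by
  obtain ⟨f, hf⟩ : ∃ f : ℝ → ℝ, f = fun Q => Lv P (Q, 0) := ⟨_, rfl⟩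
  have hs0 : 0 < s₀ := by linarith
  have hder : ∀ w ∈ E, HasDerivAt f (1 / σ w) (D w) ∧ f (D w) = w := by
    intro w hw
    obtain ⟨h1, h2, h3, h4, h5, h6, h7⟩ := hE w hw
    rw [hf]
    exact ⟨lv_deriv hP h1 h2 (by linarith) (by linarith) (by linarith) h4 h5,
      lv_eq hP h1 h2 (by linarith) (by linarith) (by linarith) h4 h5⟩
  have h1 : volume E ≤ ENNReal.ofReal (1 / s₀) * volume (D '' E) := by
    refine (measure_mono (t := f '' (D '' E)) fun w hw => ?_).trans (image_le ?_)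
    · exact ⟨D w, ⟨w, hw, rfl⟩, (hder w hw).2⟩
    · rintro _ ⟨w, hw, rfl⟩
      refine ⟨(hder w hw).1.differentiableAt, ?_⟩
      have h2 := (hE w hw).2.2.1
      have h3 : 0 < σ w := by linarith
      rw [(hder w hw).1.deriv, abs_of_pos (by positivity)]
      exact one_div_le_one_div_of_le hs0 h2
  obtain ⟨M, hMd⟩ : ∃ M, M = Ioo Q₀ Qb ∩ {Q | 1 ≤ deriv ρ Q} := ⟨_, rfl⟩
  have hMm : MeasurableSet M := by
    rw [hMd]
    exact measurableSet_Ioo.inter (measurableSet_le measurable_const (measurable_deriv ρ))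
  have h2 : volume (D '' E) ≤ volume M := by
    refine measure_mono_ae ?_
    filter_upwards [full_rg hP hρ hM] with Q hQ
    rintro ⟨w, hw, rfl⟩
    obtain ⟨a1, a2, a3, a4, a5, a6, a7⟩ := hE w hw
    rw [hMd]
    exact ⟨⟨a6, a7⟩, hQ (by linarith) (by linarith) w (σ w) a1 a2 (by linarith) a4 a5⟩
  have hAC := (hρ.lipschitzOnWith (s := uIcc Q₀ Qb)).absolutelyContinuousOnInterval
  have hint : ∫ Q in Q₀..Qb, deriv ρ Q = ρ Qb - ρ Q₀ := hAC.integral_deriv_eq_sub
  have hii : IntegrableOn (deriv ρ) (Ioc Q₀ Qb) := by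
    have h3 := hAC.intervalIntegrable_deriv
    rwa [intervalIntegrable_iff_integrableOn_Ioc_of_le h01] at h3
  have h3 : volume M ≤ ENNReal.ofReal (ρ Qb - ρ Q₀) := by
    rw [← hint, intervalIntegral.integral_of_le h01,
      ofReal_integral_eq_lintegral_ofReal hii (Eventually.of_forall fun Q => hρm.deriv_nonneg)]
    calc volume M = ∫⁻ _ in M, 1 := by rw [setLIntegral_const, one_mul]
      _ ≤ ∫⁻ Q in M, ENNReal.ofReal (deriv ρ Q) := by
          refine setLIntegral_mono' hMm fun Q hQ => ?_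
          rw [hMd] at hQ
          rw [← ENNReal.ofReal_one]
          exact ENNReal.ofReal_le_ofReal hQ.2
      _ ≤ ∫⁻ Q in Ioc Q₀ Qb, ENNReal.ofReal (deriv ρ Q) := by
          refine lintegral_mono_set fun Q hQ => ?_
          rw [hMd] at hQ
          exact ⟨hQ.1.1, hQ.1.2.le⟩
  calc ENNReal.ofReal s₀ * volume E ≤
        ENNReal.ofReal s₀ * (ENNReal.ofReal (1 / s₀) * volume (D '' E)) := by gcongr
    _ = volume (D '' E) := by
        rw [← mul_assoc, ← ENNReal.ofReal_mul hs0.le, mul_one_div_cancel hs0.ne',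
          ENNReal.ofReal_one, one_mul]
    _ ≤ _ := h2.trans h3

end Pool.ZFN
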