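import Pool.Agent.H39.GEN.IsoT
import Pool.Agent.H60.GEN.Dich

/-!
# Static and iso windows of a threshold

`IsoAt P g`: near the window `g` the threshold `P` is affine with the slope one in the radius, up to
`o (r)` on the box of size `r`; that is, it is the threshold over the fattest boxes. `StaAt P g`:
near `g` it does not depend on the window.

`sta_noJ`, `sta_noF`: at a static window there are no cells. `iso_noF`: at an iso window there are
no front cells. `iso_or_sta`: at almost every window one of the two cases holds, if a window with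
macroscopic gain (`Mac`) is static.

`MicR P ρ Φ`: the micro input for the rows with their window in `Φ`. `IsoD.micR_iso`: the iso
windows, from a box form (`IsoD.NoIS`), in which one may use that `P` is iso on the box: there a
label with a larger precision contradicts the definition of the threshold. `micR_of_sta`: the static
windows.
-/

set_option autoImplicit false

namespace Pool.STR

open MeasureTheory Set Filter Topology Pool.LEV

/-- The threshold does not depend on the window, up to `d`, on the box of size `8 r`. -/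
def StaD (P : ℝ → ℝ → ℝ) (g r d : ℝ) : Prop :=
  ∀ a w : ℝ, g - 8 * r ≤ w → w ≤ a → a ≤ g + 8 * r → P a a ≤ P a w + d

/-- The threshold is affine with the slope one in the radius, up to `d`, on the box of size `8 r`. -/
def IsoE (P : ℝ → ℝ → ℝ) (g r d : ℝ) : Prop :=
  ∃ S : ℝ, ∀ a w : ℝ, g - 8 * r ≤ w → w ≤ a → a ≤ g + 8 * r →
    |P a w - P g g - (a - g) - (S - 1) * (w - g)| ≤ d

/-- **A static window.** -/
def StaAt (P : ℝ → ℝ → ℝ) (g : ℝ) : Prop :=
  ∀ e : ℝ, 0 < e → ∃ r₀ : ℝ, 0 < r₀ ∧ ∀ r : ℝ, 0 < r → r < r₀ → StaD P g r (e * r)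

/-- **An iso window.** -/
def IsoAt (P : ℝ → ℝ → ℝ) (g : ℝ) : Prop :=
  ∀ e : ℝ, 0 < e → ∃ r₀ : ℝ, 0 < r₀ ∧ ∀ r : ℝ, 0 < r → r < r₀ → IsoE P g r (e * r)

/-- **The micro input** for the rows with their window in a set. -/
def MicR (P : ℝ → ℝ → ℝ) (ρ : ℝ → ℝ) (Φ : ℝ → Prop) : Prop :=
  ∀ᵐ Q : ℝ, 0 < Q → Q < 1 → 0 < Lv P (Q, 0) → DifferentiableAt ℝ (fun Q => Lv P (Q, 0)) Q →
    0 < deriv (fun Q => Lv P (Q, 0)) Q → DifferentiableAt ℝ ρ Q → deriv ρ Q < 1 →
      Φ (Lv P (Q, 0)) → WfU P Q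

/-- **The micro input from two kinds of windows.** -/
theorem micW_of_or {P : ℝ → ℝ → ℝ} (hP : Law P) {ρ : ℝ → ℝ} {Φ Ψ : ℝ → Prop}
    (h : ∀ᵐ g : ℝ, 0 < g → g < 1 → Φ g ∨ Ψ g) (h1 : MicR P ρ Φ) (h2 : MicR P ρ Ψ) : MicW P ρ := by
  have hgm : Monotone (fun Q => Lv P (Q, 0)) := fun x y hxy => Lv_mono hP ⟨hxy, le_rfl⟩
  filter_upwards [ae_notMem_of_null hgm (ae_iff.1 h), h1, h2] with Q hQ k1 k2 a b c d e f g
  have h3 := hQ d e
  simp only [not_not] at h3
  rcases h3 c (lv_lt_one hP d e) with h4 | h4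
  · exact k1 a b c d e f g h4
  · exact k2 a b c d e f g h4

/-- A row at a static window is free from the window. -/
theorem wfu_of_sta {P : ℝ → ℝ → ℝ} (hP : Law P) {Q g : ℝ} (hQ0 : 0 < Q) (hQ1 : Q < 1)
    (hg : g = Lv P (Q, 0)) (hg0 : 0 < g) (hg1 : g < 1) (h : StaAt P g) : WfU P Q := by
  intro ε hε
  obtain ⟨e, he⟩ : ∃ e, e = min (ε / 3) (1 / 4) := ⟨_, rfl⟩
  have he0 : 0 < e := by rw [he]; exact lt_min (by linarith) (by norm_num)
  have he1 : e ≤ ε / 3 := by rw [he]; exact min_le_left _ _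
  have he2 : e ≤ 1 / 4 := by rw [he]; exact min_le_right _ _
  obtain ⟨r₀, hr₀, hsta⟩ := h e he0
  refine ⟨min r₀ (min (min (g / 8) ((1 - g) / 8)) (min (Q / 8) ((1 - Q) / 8))), ?_,
    fun r hr hr' Q' hQ' => ?_⟩
  · exact lt_min hr₀ (lt_min (lt_min (by linarith) (by linarith))
      (lt_min (by linarith) (by linarith)))
  have m1 : r < r₀ := hr'.trans_le (min_le_left _ _)
  have n1 := hr'.trans_le (min_le_right _ _)
  have m2 : r < g / 8 := (n1.trans_le (min_le_left _ _)).trans_le (min_le_left _ _)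
  have m3 : r < (1 - g) / 8 := (n1.trans_le (min_le_left _ _)).trans_le (min_le_right _ _)
  have m4 : r < Q / 8 := (n1.trans_le (min_le_right _ _)).trans_le (min_le_left _ _)
  have m5 : r < (1 - Q) / 8 := (n1.trans_le (min_le_right _ _)).trans_le (min_le_right _ _)
  have her : 0 < e * r := mul_pos he0 hr
  have her1 : e * r ≤ 1 / 4 * r := mul_le_mul_of_nonneg_right he2 hr.le
  have her2 : e * r ≤ ε / 3 * r := mul_le_mul_of_nonneg_right he1 hr.le
  obtain ⟨q1, q2⟩ := abs_le.1 hQ'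
  have hL : |Lv P (Q', 0) - g| ≤ r := by
    have h5 := (Lv_lip hP).dist_le_mul (Q', 0) (Q, 0)
    rw [Real.dist_eq, ← hg, NNReal.coe_one, one_mul, Prod.dist_eq, Real.dist_eq, Real.dist_eq,
      sub_zero, abs_zero] at h5
    exact h5.trans (max_le hQ' hr.le)
  have hL' := abs_le.1 hL
  obtain ⟨a, ha⟩ : ∃ a, a = Lv P (Q', 0) + e * r := ⟨_, rfl⟩
  have b1 : cl Q' ≤ P a (a - cl 0) :=
    le_of_lev_lt hP (cl_nonneg _) (cl_le_one _) (show Lv P (Q', 0) < a by linarith) (by linarith)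
  rw [cl_of_mem (by linarith) (by linarith), cl_of_mem le_rfl zero_le_one, sub_zero] at b1
  have b2 := hsta r hr m1 a (a - r) (by linarith) (by linarith) (by linarith)
  have b4 := hP.slope a (a - r) (e * r) (by linarith) (by linarith) her.le (by linarith)
  have b5 : Q' ≤ P (a + e * r) (a - r) := le_trans (le_min (by linarith) (by linarith)) b4
  have b6 : P (a + e * r) (a - r) ≤ P (a + e * r) (a + e * r - r) :=
    hP.mono_w _ _ _ (by linarith) (by linarith) (by linarith) (by linarith)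
  have b7 : Lv P (Q', r) ≤ a + e * r := by
    refine lev_le (P := P) (Q := cl Q') (q := cl r) ⟨?_, by linarith, Or.inl ?_⟩
    · rw [cl_of_mem hr.le (by linarith)]
      linarith
    · rw [cl_of_mem (by linarith) (by linarith), cl_of_mem hr.le (by linarith)]
      linarith
  have e3 : ε / 3 * r = ε * r / 3 := by ring
  have e4 : 0 < ε * r := mul_pos hε hr
  linarith

/-- **The rows at static windows.** -/
theorem micR_of_sta {P : ℝ → ℝ → ℝ} (hP : Law P) {ρ : ℝ → ℝ} {Ψ : ℝ → Prop}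
    (h : ∀ᵐ g : ℝ, 0 < g → g < 1 →
      (∃ a', g < a' ∧ a' ≤ 1 ∧ ρ 1 - ρ (P a' a') < 1 - P a' a') → Ψ g → StaAt P g)
    (hρ : LipschitzWith 1 ρ) : MicR P ρ Ψ := by
  have hgm : Monotone (fun Q => Lv P (Q, 0)) := fun x y hxy => Lv_mono hP ⟨hxy, le_rfl⟩
  filter_upwards [ae_notMem_of_null hgm (ae_iff.1 h)] with Q hQ a1 b1 c1 d1 e1 f1 g1 h1
  have h3 := hQ d1 e1
  simp only [not_not] at h3
  have hlt := lv_lt_one hP d1 e1
  have hrow : RowD P ρ univ Q := ⟨a1, b1, c1, hlt, mem_univ _, d1, e1, f1, g1⟩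
  obtain ⟨cR, hcR, hR⟩ := adR_of hP hρ hrow
  obtain ⟨g, hg⟩ : ∃ g, g = Lv P (Q, 0) := ⟨_, rfl⟩
  rw [← hg] at h3 c1 hlt h1 hR
  refine wfu_of_sta hP a1 b1 hg c1 hlt (h3 c1 hlt ?_ h1)
  obtain ⟨r₀, hr₀, h1⟩ := hR cR hcR le_rfl
  obtain ⟨r, hr⟩ : ∃ r, r = min (r₀ / 2) ((1 - g) / 8) := ⟨_, rfl⟩
  have hr0 : 0 < r := by rw [hr]; exact lt_min (by linarith) (by linarith)
  have hr1 : r < r₀ := by
    have : r ≤ r₀ / 2 := by rw [hr]; exact min_le_left _ _
    linarith
  have hr2 : r ≤ (1 - g) / 8 := by rw [hr]; exact min_le_right _ _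
  have h2 := h1 r hr0 hr1
  have h3 := h2.row (g + r) (by rw [add_sub_cancel_left, abs_of_pos hr0]; linarith)
  have h4 := h2.pos (P (g + r) (g + r)) (by linarith)
  exact ⟨g + r, by linarith, by linarith, by linarith⟩

/-! ### The iso box -/

/-- The numbers on an iso box, with the slope `S` of the diagonal. -/
theorem iso_box {P : ℝ → ℝ → ℝ} {Q S g r e : ℝ} (her : 0 ≤ e * r) (hr : 0 ≤ r)
    (hA : AffB (fun w => P w w) Q S g (8 * r) (e * r)) (h : IsoE P g r (e * r)) (a w : ℝ)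
    (h1 : g - 8 * r ≤ w) (h2 : w ≤ a) (h3 : a ≤ g + 8 * r) :
    |P a w - Q - (a - g) - (S - 1) * (w - g)| ≤ 5 * (e * r) := by
  obtain ⟨S', h⟩ := h
  have k1 := abs_le.1 (h a w h1 h2 h3)
  have k2 := abs_le.1 (h w w h1 le_rfl (h2.trans h3))
  have k3 := abs_le.1 (hA w (by rw [abs_le]; constructor <;> linarith))
  have k4 := abs_le.1 (hA g (by rw [sub_self, abs_zero]; linarith))
  simp only [sub_self, mul_zero, sub_zero] at k4
  simp only at k3
  have e1 : (S' - 1) * (w - g) = S' * (w - g) - (w - g) := by ring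
  have e2 : (S - 1) * (w - g) = S * (w - g) - (w - g) := by ring
  rw [e1] at k1 k2
  rw [e2, abs_le]
  constructor <;> linarith [k1.1, k1.2, k2.1, k2.2, k3.1, k3.2, k4.1, k4.2]

/-- The threshold of a chart on an iso box. -/
theorem iso_boxB {P B : ℝ → ℝ → ℝ} (hP : Law P) (hP1 : ∀ a : ℝ, 0 ≤ a → a ≤ 1 → P a a ≤ 1)
    (hB : Law B) (hle : LeT B P) {Q S g r e : ℝ} (her : 0 ≤ e * r) (hr : 0 < r) (hg0 : 8 * r < g)
    (hg1 : 8 * r < 1 - g) (hA : AffB (fun w => P w w) Q S g (8 * r) (e * r))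
    (hA' : AffB (fun w => B w w) Q S g (7 * r) (e * r)) (h : IsoE P g r (e * r)) (a w : ℝ)
    (h1 : g - 7 * r ≤ w) (h2 : w ≤ a) (h3 : a ≤ g + 7 * r) :
    |B a w - Q - (a - g) - (S - 1) * (w - g)| ≤ 5 * (e * r) := by
  have k1 := abs_le.1 (iso_box her hr.le hA h a w (by linarith) h2 (by linarith))
  have k2 := hle a w (by linarith) h2 (by linarith)
  have k3 := (abs_le.1 (hA' w (by rw [abs_le]; constructor <;> linarith))).1
  simp only at k3
  have k4 := hB.slope w w (a - w) (by linarith) le_rfl (by linarith) (by linarith)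
  rw [add_sub_cancel] at k4
  have k5 : P a w ≤ 1 := (hP.mono_w a w a (by linarith) h2 le_rfl (by linarith)).trans
    (hP1 a (by linarith) (by linarith))
  have e2 : (S - 1) * (w - g) = S * (w - g) - (w - g) := by ring
  rw [e2] at k1 ⊢
  rw [abs_le]
  constructor
  · rcases min_le_iff.1 k4 with k6 | k6
    · linarith [k1.1, k1.2]
    · linarith [k1.1, k1.2]
  · linarith [k1.1, k1.2]

/-! ### The least error -/

/-- The least error with which the statement holds, at most one. -/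
noncomputable def dfi (Φ : ℝ → Prop) : ℝ := sInf ({d | 0 ≤ d ∧ Φ d} ∪ {1})

theorem dfi_le {Φ : ℝ → Prop} {d : ℝ} (h0 : 0 ≤ d) (h : Φ d) : dfi Φ ≤ d := by
  refine csInf_le ⟨0, ?_⟩ (Or.inl ⟨h0, h⟩)
  rintro x (⟨h1, -⟩ | h1)
  · exact h1
  · rw [mem_singleton_iff] at h1
    rw [h1]
    exact zero_le_one

theorem dfi_spec {Φ : ℝ → Prop} (hΦ : ∀ d d' : ℝ, d ≤ d' → Φ d → Φ d') {d : ℝ} (h : dfi Φ < d)
    (h1 : d ≤ 1) : Φ d := by
  obtain ⟨x, hx, hxd⟩ := exists_lt_of_csInf_lt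
    (s := {d | 0 ≤ d ∧ Φ d} ∪ {1}) ⟨1, Or.inr (mem_singleton 1)⟩ h
  rcases hx with ⟨-, hx⟩ | hx
  · exact hΦ x d hxd.le hx
  · rw [mem_singleton_iff] at hx
    linarith

/-! ### No cells at the static windows -/

/-- **No joint cell** where the threshold does not depend on the window. -/
theorem sta_noJ {ι : Type*} {P : ℝ → ℝ → ℝ} (hP : Law P) {R : ι → ℝ × ℝ → ℝ}
    {Q g r ε β T X lamN muN : ℝ} {y : ℝ × ℝ} {lam mu : ι → ℝ} (hε : 4 * ε ≤ β) (hβ : 0 < β)
    (h1 : 8 * r < g) (h2 : 8 * r < 1 - g) (hc : JCell P R Q g r ε β T y X lamN muN lam mu)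
    (hs : StaD P g r (2 * (ε * X))) : False := by
  have hX := hc.pos
  have hd1 := hc.dep
  have hd2 := hc.dep'
  have hw := abs_le.1 (le_trans (by linarith) hc.win : |y.1 - g| ≤ 3 * r)
  have hst := hs (y.1 + y.2) y.1 (by linarith) (by linarith) (by linarith)
  have hmo : P (y.1 + y.2) (y.1 + X) ≤ P (y.1 + y.2) (y.1 + y.2) :=
    hP.mono_w _ _ _ (by linarith) (by linarith) le_rfl (by linarith)
  have haf := (abs_le.1 (hc.aff (y.1 + X, y.2 - X) (by
    rw [Prod.dist_eq, Real.dist_eq, Real.dist_eq]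
    simp only [add_sub_cancel_left, sub_sub_cancel_left, abs_neg, abs_of_pos hX, max_self, le_refl]
    ))).1
  simp only [Nw, add_sub_cancel_left, sub_sub_cancel_left] at haf
  have e1 : y.1 + X + (y.2 - X) = y.1 + y.2 := by ring
  rw [e1] at haf
  have hgam := mul_le_mul_of_nonneg_right hc.gam hX.le
  have hβX := mul_le_mul_of_nonneg_right hε hX.le
  have hβ0 : 0 < β * X := mul_pos hβ hX
  have e2 : (muN + β) * X = muN * X + β * X := by ring
  have e3 : 4 * ε * X = 4 * (ε * X) := by ring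
  have e4 : muN * (-X) = -(muN * X) := by ring
  linarith

/-- The levels of the rows near `Q`. -/
theorem lv_near {P : ℝ → ℝ → ℝ} (hP : Law P) {Q g r : ℝ} (hlv : Lv P (Q, 0) = g) {q : ℝ × ℝ}
    (h1 : |q.1 - Q| ≤ 2 * r) (h2 : 0 ≤ q.2) (h3 : q.2 ≤ 2 * r) : |Lv P q - g| ≤ 2 * r := by
  have h5 := (Lv_lip hP).dist_le_mul q (Q, 0)
  rw [Real.dist_eq, hlv, NNReal.coe_one, one_mul, Prod.dist_eq, Real.dist_eq, Real.dist_eq,
    sub_zero, abs_of_nonneg h2] at h5
  exact h5.trans (max_le h1 h3)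

/-- **No front cell** where the threshold does not depend on the window. -/
theorem sta_noF {P : ℝ → ℝ → ℝ} (hP : Law P) {Q g r ε β s X al be : ℝ} {p : ℝ × ℝ}
    (hε0 : 0 < ε) (hε1 : ε ≤ 1 / 4) (hε : 8 * ε ≤ β) (hβ : 0 < β) (hX : 0 < X)
    (h1 : 8 * r < g) (h2 : 8 * r < 1 - g) (h3 : 8 * r < Q) (h4 : 8 * r < 1 - Q)
    (hlv : Lv P (Q, 0) = g) (hc : FrCell P Q r ε β s p X al be)
    (hs : StaD P g r (2 * (ε * X))) : False := by
  have hd1 := hc.dep
  have hd2 := hc.dep'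
  have hXr : X ≤ r := by linarith
  have hεX : 0 < ε * X := mul_pos hε0 hX
  have hεX1 : ε * X ≤ 1 / 4 * X := mul_le_mul_of_nonneg_right hε1 hX.le
  have hrow := abs_le.1 hc.row
  have hL := abs_le.1 (lv_near hP hlv hc.row (by linarith) (by linarith))
  obtain ⟨Q', q, rfl⟩ : ∃ Q' q : ℝ, p = (Q', q) := ⟨p.1, p.2, rfl⟩
  simp only at hd1 hd2 hrow hL
  have haf := (abs_le.1 (hc.aff (Q', q + X) (by
    rw [Prod.dist_eq, Real.dist_eq, Real.dist_eq]
    simp only [sub_self, abs_zero, add_sub_cancel_left, abs_of_pos hX]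
    exact (max_eq_right hX.le).le))).1
  simp only [sub_self, mul_zero, zero_add, add_sub_cancel_left] at haf
  obtain ⟨a, ha⟩ : ∃ a, a = Lv P (Q', q) + ε * X := ⟨_, rfl⟩
  have b1 : cl Q' ≤ P a (a - cl q) :=
    le_of_lev_lt hP (cl_nonneg _) (cl_le_one _) (show Lv P (Q', q) < a by linarith)
      (by linarith)
  rw [cl_of_mem (by linarith) (by linarith), cl_of_mem (by linarith) (by linarith)] at b1
  have b2 := hs a (a - (q + X)) (by linarith) (by linarith) (by linarith)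
  have b3 : P a (a - q) ≤ P a a :=
    hP.mono_w _ _ _ (by linarith) (by linarith) le_rfl (by linarith)
  have b4 := hP.slope a (a - (q + X)) (2 * (ε * X)) (by linarith) (by linarith) (by linarith)
    (by linarith)
  have b5 : Q' ≤ P (a + 2 * (ε * X)) (a - (q + X)) := le_trans (le_min (by linarith)
    (by linarith)) b4
  have b6 : P (a + 2 * (ε * X)) (a - (q + X)) ≤
      P (a + 2 * (ε * X)) (a + 2 * (ε * X) - (q + X)) :=
    hP.mono_w _ _ _ (by linarith) (by linarith) (by linarith) (by linarith)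
  have b7 : Lv P (Q', q + X) ≤ a + 2 * (ε * X) := by
    refine lev_le (P := P) (Q := cl Q') (q := cl (q + X)) ⟨?_, by linarith, Or.inl ?_⟩
    · rw [cl_of_mem (by linarith) (by linarith)]
      linarith
    · rw [cl_of_mem (by linarith) (by linarith), cl_of_mem (by linarith) (by linarith)]
      linarith
  have hβX := mul_le_mul_of_nonneg_right hc.be0 hX.le
  have hβX' := mul_le_mul_of_nonneg_right hε hX.le
  have hβ0 : 0 < β * X := mul_pos hβ hX
  have e3 : 8 * ε * X = 8 * (ε * X) := by ring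
  linarith

/-- **No front cell** where the threshold is iso. -/
theorem iso_noF {P : ℝ → ℝ → ℝ} (hP : Law P) {c Q g r ε β s X al be S : ℝ} {p : ℝ × ℝ}
    (hc0 : 0 < c) (hS : 1 ≤ S) (hcS : c * S ≤ 1)
    (hε0 : 0 < ε) (hε1 : ε ≤ 1 / 80) (hε : 12 * ε ≤ c) (hs : 4 * s ≤ c) (hX : 0 < X)
    (h1 : 8 * r < g) (h2 : 8 * r < 1 - g) (h3 : 8 * r < Q) (h4 : 8 * r < 1 - Q)
    (hlv : Lv P (Q, 0) = g) (hc : FrCell P Q r ε β s p X al be)
    (hI : ∀ a w : ℝ, g - 7 * r ≤ w → w ≤ a → a ≤ g + 7 * r →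
      |P a w - Q - (a - g) - (S - 1) * (w - g)| ≤ 10 * (ε * X)) : False := by
  have hd1 := hc.dep
  have hd2 := hc.dep'
  have hXr : X ≤ r := by linarith
  have hεX : 0 < ε * X := mul_pos hε0 hX
  have hεX1 : ε * X ≤ 1 / 80 * X := mul_le_mul_of_nonneg_right hε1 hX.le
  have hrow := abs_le.1 hc.row
  obtain ⟨Q', q, rfl⟩ : ∃ Q' q : ℝ, p = (Q', q) := ⟨p.1, p.2, rfl⟩
  simp only at hd1 hd2 hrow
  have hL := abs_le.1 (lv_near hP hlv hc.row (by linarith) (by linarith))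
  -- the direction of smaller rows, or of larger rows
  have haf := (abs_le.1 (hc.aff (Q' + X, q) (by
    rw [Prod.dist_eq, Real.dist_eq, Real.dist_eq]
    simp only [sub_self, abs_zero, add_sub_cancel_left, abs_of_pos hX]
    exact (max_eq_left hX.le).le))).2
  simp only [sub_self, mul_zero, add_zero, add_sub_cancel_left] at haf
  obtain ⟨L₁, hL₁⟩ : ∃ L₁, L₁ = Lv P (Q', q) := ⟨_, rfl⟩
  obtain ⟨L₂, hL₂⟩ : ∃ L₂, L₂ = Lv P (Q' + X, q) := ⟨_, rfl⟩
  rw [← hL₁, ← hL₂] at haf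
  rw [← hL₁] at hL
  have hlip : |L₂ - L₁| ≤ X := by
    have h5 := (Lv_lip hP).dist_le_mul (Q' + X, q) (Q', q)
    rw [Real.dist_eq, ← hL₁, ← hL₂, NNReal.coe_one, one_mul, Prod.dist_eq, Real.dist_eq,
      Real.dist_eq] at h5
    simp only [sub_self, abs_zero, add_sub_cancel_left, abs_of_pos hX] at h5
    exact h5.trans (max_le le_rfl hX.le)
  have hlip' := abs_le.1 hlip
  obtain ⟨a, ha⟩ : ∃ a, a = L₂ + ε * X := ⟨_, rfl⟩
  obtain ⟨a', ha'⟩ : ∃ a', a' = L₁ - ε * X := ⟨_, rfl⟩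
  have hlow : q ≤ L₁ := by
    rw [hL₁]
    have := le_lev (P := P) (Q := cl Q') (q := cl q) (cl_le_one _)
    rw [cl_of_mem (by linarith) (by linarith), cl_of_mem (by linarith) (by linarith)] at this
    show q ≤ lev P (cl Q') (cl q)
    rw [cl_of_mem (by linarith) (by linarith), cl_of_mem (by linarith) (by linarith)]
    exact this
  have b1 : cl (Q' + X) ≤ P a (a - cl q) :=
    le_of_lev_lt hP (cl_nonneg _) (cl_le_one _) (show Lv P (Q' + X, q) < a by
      rw [← hL₂]; linarith) (by linarith)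
  rw [cl_of_mem (by linarith) (by linarith), cl_of_mem (by linarith) (by linarith)] at b1
  have b2 : P a' (a' - cl q) < cl Q' :=
    lt_of_lt_lev (cl_le_one _) (by
      rw [cl_of_mem (by linarith) (by linarith)]
      linarith) (show a' < Lv P (Q', q) by rw [← hL₁]; linarith)
  rw [cl_of_mem (by linarith) (by linarith), cl_of_mem (by linarith) (by linarith)] at b2
  have k1 := (abs_le.1 (hI a (a - q) (by linarith) (by linarith) (by linarith))).2
  have k2 := (abs_le.1 (hI a' (a' - q) (by linarith) (by linarith) (by linarith))).1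
  have e1 : (S - 1) * (a - q - g) - (S - 1) * (a' - q - g) = S * (a - a') - (a - a') := by ring
  have k3 : X - 20 * (ε * X) ≤ S * (a - a') := by linarith
  have hda : 0 ≤ a - a' ∨ a - a' < 0 := le_or_gt 0 (a - a')
  have hS0 : 0 < S := by linarith
  have k4 : 0 < a - a' := by
    rcases hda with h | h
    · rcases h.eq_or_lt with h' | h'
      · rw [← h', mul_zero] at k3
        linarith
      · exact h'
    · have := mul_neg_of_pos_of_neg hS0 h
      linarith
  have k5 : c * (X - 20 * (ε * X)) ≤ a - a' := by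
    have h5 := mul_le_mul_of_nonneg_left k3 hc0.le
    have h6 := mul_le_mul_of_nonneg_right hcS k4.le
    have e2 : c * (S * (a - a')) = c * S * (a - a') := by ring
    linarith
  have k6 : 3 / 4 * X ≤ X - 20 * (ε * X) := by linarith
  have k7 := mul_le_mul_of_nonneg_left k6 hc0.le
  have hcX : 0 < c * X := mul_pos hc0 hX
  have k8 : al * X ≤ s * X := mul_le_mul_of_nonneg_right hc.als hX.le
  have k9 : 4 * s * X ≤ c * X := mul_le_mul_of_nonneg_right hs hX.le
  have k10 : 12 * ε * X ≤ c * X := mul_le_mul_of_nonneg_right hε hX.le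
  have e3 : c * (3 / 4 * X) = 3 / 4 * (c * X) := by ring
  have e4 : 4 * s * X = 4 * (s * X) := by ring
  have e5 : 12 * ε * X = 12 * (ε * X) := by ring
  linarith

/-! ### The box form -/

namespace IsoD

variable {P : ℝ → ℝ → ℝ} {ρ : ℝ → ℝ} (E : IsoD P ρ)

/-- **No iso box** with a slope of the target larger than one and nonfull rows. -/
def NoIS : Prop :=
  ∀ c β h : ℝ, 0 < c → 0 < β → 0 < h → ∃ ε : ℝ, 0 < ε ∧ ∃ M : ℝ, 0 < M ∧
    ∀ (k : E.α × E.O) (Q g r S : ℝ) (Sj : E.J → ℝ), 0 < r → 8 * r < g → 8 * r < 1 - g →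
      8 * r < Q → 8 * r < 1 - Q → r ≤ ε → E.AdI c ε k Q g r S Sj → 1 + β ≤ S →
      (∀ a w : ℝ, g - 8 * r ≤ w → w ≤ a → a ≤ g + 8 * r →
        |P a w - Q - (a - g) - (S - 1) * (w - g)| ≤ ε * r) →
      NfB ρ h (ε * r) (Q - M * r) (Q + M * r) → E.df k g r ≤ ε * r → False

theorem NoI.iso (h : E.NoI) : E.NoIS := by
  intro c β h' h1 h2 h3
  obtain ⟨ε, hε, M, hM, H⟩ := h c β h' h1 h2 h3
  exact ⟨ε, hε, M, hM, fun k Q g r S Sj k1 k2 k3 k4 k5 k6 k7 k8 _ k10 k11 =>
    H k Q g r S Sj k1 k2 k3 k4 k5 k6 k7 k8 k10 k11⟩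

theorem AdI.mono {E : IsoD P ρ} {c e e' : ℝ} {k : E.α × E.O} {Q g r S : ℝ} {Sj : E.J → ℝ}
    (h : E.AdI c e k Q g r S Sj) (he : e ≤ e') (hr : 0 ≤ r) : E.AdI c e' k Q g r S Sj := by
  have h1 : e * r ≤ e' * r := mul_le_mul_of_nonneg_right he hr
  exact { h with
    aff := fun w hw => (h.aff w hw).trans h1
    affj := fun j w hw => (h.affj j w hw).trans h1 }

/-- **The micro input of the iso windows** from the boxes. -/
theorem micR_iso (hP : Law P) (hP01 : ∀ a : ℝ, 0 ≤ a → a ≤ 1 → 0 ≤ P a a ∧ P a a ≤ 1)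
    (hρ : LipschitzWith 1 ρ) (hI : E.NoIS) : MicR P ρ (IsoAt P) := by
  filter_upwards [E.rowI hP hP01 hρ] with Q hQ a1 b1 c1 d1 e1 f1 g1 hiso
  refine wfu_of_lv hP a1 b1 rfl c1 (lv_lt_one hP d1 e1) d1 ?_
  by_contra hne
  obtain ⟨c, β, h, hc, hβ, hh, H⟩ := hQ a1 b1 c1 d1 e1 f1 g1 hne
  obtain ⟨ε, hε, M, hM, hI⟩ := hI c β h hc hβ hh
  obtain ⟨r₀, hr₀, H⟩ := H (ε / 5) M (by linarith) hM
  obtain ⟨r₁, hr₁, H'⟩ := hiso (ε / 5) (by linarith)
  obtain ⟨r, hr⟩ : ∃ r, r = min (r₀ / 2) (r₁ / 2) := ⟨_, rfl⟩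
  have hr0 : 0 < r := by rw [hr]; exact lt_min (by linarith) (by linarith)
  have hrr₀ : r < r₀ := by
    have : r ≤ r₀ / 2 := by rw [hr]; exact min_le_left _ _
    linarith
  have hrr₁ : r < r₁ := by
    have : r ≤ r₁ / 2 := by rw [hr]; exact min_le_right _ _
    linarith
  obtain ⟨k, S, Sj, k1, k2, k3, k4, k5, k6, k7, k8, k9⟩ := H r hr0 hrr₀
  have hεr : 0 < ε * r := mul_pos hε hr0
  have e1 : ε / 5 * r = ε * r / 5 := by ring
  refine hI k Q _ r S Sj hr0 k1 k2 k3 k4 (k5.trans (by linarith))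
    (k6.mono (by linarith) hr0.le) k7 (fun a w h1 h2 h3 => ?_)
    (fun Q₁ Q₂ h1 h2 h3 => (k8 Q₁ Q₂ h1 h2 h3).trans (by linarith)) (k9.trans (by linarith))
  have := iso_box (by linarith) hr0.le k6.aff (H' r hr0 hrr₁) a w h1 h2 h3
  linarith

end IsoD

/-! ### The dichotomy -/

/-- **Iso or static**, if the windows with macroscopic gain are static. -/
theorem iso_or_sta {P : ℝ → ℝ → ℝ} (hP : Law P) {Ψ : ℝ → Prop}
    (h : ∀ᵐ g : ℝ, 0 < g → g < 1 → P g g < 1 → Ψ g → Mac P g → StaAt P g) :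
    ∀ᵐ g : ℝ, 0 < g → g < 1 → P g g < 1 → Ψ g → IsoAt P g ∨ StaAt P g := by
  filter_upwards [h, isoS_or_mac hP] with g h1 h2 h3 h4 h5 h6
  rcases h2 h3 h4 h5 with h7 | h7
  · exact Or.inl h7
  · exact Or.inr (h1 h3 h4 h5 h6 h7)

end Pool.STR
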