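import Pool.Agent.H87.GEN.Shr

/-!
# Samples with the same code

`nbx_mv`: the labels are nearly constant on small boxes in the natural boxes. `Cod`: the exactly
closed code of a chain. `same_box`: a sample is in the natural box of another sample with the same
time and the same code. `near_x`: if moreover the coordinates before `c i` are near then the
coordinates `c i` are near. `near_z`: the same for the sheared coordinates
`x (c i) - v (c i) x (c l)`, where `v` is the direction of the shear.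
-/

set_option autoImplicit false

namespace Pool.PSI

open Finset Real MvPolynomial
open Pool.Agent.H49.Ent Pool.Agent.H32.Dense Pool.STK Pool.KA Pool.KSAT Pool.K2S Pool.PB Pool.S6C
open Pool.GEN Pool.CHT Pool.SHR

variable {m J : ℕ}

/-- The mean value inequality, with one bound for each direction. -/
theorem mv2 {σ : Type} [Fintype σ] (P : MvPolynomial σ ℝ) (a b : σ → ℝ) (M : σ → ℝ)
    (hM : ∀ y : σ → ℝ, (∀ j, |y j - a j| ≤ |b j - a j|) → ∀ i, b i ≠ a i →
      |eval y (pderiv i P)| ≤ M i) :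
    |eval b P - eval a P| ≤ ∑ i, M i * |b i - a i| := by
  classical
  obtain ⟨g, hg⟩ : ∃ g : σ → Polynomial ℝ, g = fun j =>
      Polynomial.C (a j) + Polynomial.C (b j - a j) * Polynomial.X := ⟨_, rfl⟩
  have hge : ∀ (Q : MvPolynomial σ ℝ) (t : ℝ), (MvPolynomial.aeval g Q).eval t =
      MvPolynomial.eval (fun j => a j + (b j - a j) * t) Q := by
    intro Q t
    rw [Pool.KBX.eval_aeval_poly]
    congr 1
    congr 1
    funext j
    rw [hg]
    simp
  have hd : ∀ t, (Polynomial.derivative (MvPolynomial.aeval g P)).eval t =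
      ∑ i, eval (fun j => a j + (b j - a j) * t) (pderiv i P) * (b i - a i) := by
    intro t
    rw [der_aevalσ, Polynomial.eval_finsetSum]
    refine Finset.sum_congr rfl fun i _ => ?_
    rw [Polynomial.eval_mul, hge]
    congr 1
    rw [hg]
    simp
  obtain ⟨c, hc, hcd⟩ := exists_deriv_eq_slope (fun t => (MvPolynomial.aeval g P).eval t)
    (zero_lt_one' ℝ) (Polynomial.continuous _).continuousOn
    (Polynomial.differentiable _).differentiableOn
  rw [Polynomial.deriv, hd, sub_zero, div_one, hge, hge] at hcd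
  have e1 : (fun j => a j + (b j - a j) * 1) = b := by
    funext j
    ring
  have e2 : (fun j => a j + (b j - a j) * 0) = a := by
    funext j
    ring
  rw [e1, e2] at hcd
  rw [← hcd]
  refine (Finset.abs_sum_le_sum_abs _ _).trans (Finset.sum_le_sum fun i _ => ?_)
  rw [abs_mul]
  rcases eq_or_ne (b i) (a i) with hi | hi
  · rw [hi, sub_self, abs_zero, mul_zero, mul_zero]
  refine mul_le_mul_of_nonneg_right (hM _ (fun j => ?_) i hi) (abs_nonneg _)
  have e3 : a j + (b j - a j) * c - a j = (b j - a j) * c := by ring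
  rw [e3, abs_mul, abs_of_pos hc.1]
  have := abs_nonneg (b j - a j)
  nlinarith [hc.2]

/-- **The labels on small boxes** in the natural boxes. -/
theorem nbx_mv (D r : ℕ) : ∃ C : ℕ, ∀ {m : ℕ} {c : ℕ → Fin m} {n : ℕ}
    {G : ℕ → MvPolynomial (Option (Fin m)) ℝ} {g δ : ℕ → ℕ} {a e y : ℕ} {t : ℝ}, n ≤ r →
    Set.InjOn c (Set.Iio n) → (∀ l, (G l).totalDegree ≤ D) → (∀ l, DepC c l (G l)) →
    (∀ i < n, ∀ b, NBx c G g a t i b → ∀ l < i,
      |eval b (pderiv (some (c l)) (G i))| ≤ 2 ^ (e + nlp g l i)) →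
    (∀ i < n, ∀ l < i, e + C * (y + 1) + (Finset.Icc l i).sup g ≤ δ l) →
    ∀ b₀ : Option (Fin m) → ℝ, |b₀ none - t| ≤ 1 / 2 ^ a →
    ∀ i < n, (∀ j < i, |b₀ (some (c j)) - eval b₀ (G j)| ≤ 2 ^ y / 2 ^ g j) →
    ∀ b₁ : Option (Fin m) → ℝ, b₁ none = b₀ none →
    (∀ j < i, |b₁ (some (c j)) - b₀ (some (c j))| ≤ 1 / 2 ^ δ j) →
      |eval b₁ (G i) - eval b₀ (G i)| ≤ 1 / 2 ^ g i := by
  classical
  obtain ⟨c₀, D₁, hD₁, hdil⟩ := nbx_dil r (fun _ => D)
  refine ⟨c₀ + 2 * D₁ + r + 1, ?_⟩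
  intro m c n G g δ a e y t hn hc hdeg hdep hlip hδ b₀ hb0 i
  induction i using Nat.strong_induction_on with
  | _ i ih =>
  intro hi hbx b₁ hb1 hd
  -- the point agrees with the first one outside of the chain
  obtain ⟨b, hb⟩ : ∃ b : Option (Fin m) → ℝ, b = fun o =>
      if ∃ j < i, o = some (c j) then b₁ o else b₀ o := ⟨_, rfl⟩
  have hbn : b none = b₀ none := by
    rw [hb]
    refine if_neg ?_
    rintro ⟨j, _, hj⟩
    exact absurd hj (by simp)
  have hbc : ∀ j < i, b (some (c j)) = b₁ (some (c j)) := by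
    intro j hj
    rw [hb]
    exact if_pos ⟨j, hj, rfl⟩
  have hbo : ∀ o, (¬ ∃ j < i, o = some (c j)) → b o = b₀ o := by
    intro o ho
    rw [hb]
    exact if_neg ho
  have e1 : eval b₁ (G i) = eval b (G i) := hdep i _ _ (by rw [hbn, hb1]) fun l hl =>
    (hbc l hl).symm
  rw [e1]
  -- the bounds of the derivatives
  have hM : ∀ x : Option (Fin m) → ℝ, (∀ o, |x o - b₀ o| ≤ |b o - b₀ o|) → ∀ l < i,
      |eval x (pderiv (some (c l)) (G i))| ≤ 2 ^ (c₀ + (y + 2) * D₁) * 2 ^ (e + nlp g l i) := by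
    intro x hx l hl
    have hxn : x none = b₀ none := by
      have h1 := hx none
      rw [hbn, sub_self, abs_zero] at h1
      exact sub_eq_zero.1 (abs_nonpos_iff.1 h1)
    have hxc : ∀ j < i, |x (some (c j)) - b₀ (some (c j))| ≤ 1 / 2 ^ δ j := by
      intro j hj
      refine (hx _).trans ?_
      rw [hbc j hj]
      exact hd j hj
    refine hdil (c := c) (i := i) (G := G) (Q := pderiv (some (c l)) (G i)) (g := g) (a := a)
      (t := t) (M := 2 ^ (e + nlp g l i)) (y + 2) (by omega)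
      (hc.mono (Set.Iio_subset_Iio hi.le)) hdeg hdep ((hdep i).pderiv l)
      (totalDegree_pdσ (hdeg i) _) (by positivity) (fun b hb => hlip i hi b hb l hl) x
      (by rw [hxn]; exact hb0) fun j hj => ?_
    have h1 := ih j hj (by omega) (fun j' hj' => hbx j' (hj'.trans hj)) x hxn
      (fun j' hj' => hxc j' (hj'.trans hj))
    have h2 := hxc j hj
    have h3 : (1 : ℝ) / 2 ^ δ j ≤ 1 / 2 ^ g j := by
      refine inv_mono ?_
      have h4 := hδ i hi j hj
      have h5 : g j ≤ (Finset.Icc j i).sup g := Finset.le_sup (f := g)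
        (Finset.mem_Icc.2 ⟨le_rfl, hj.le⟩)
      omega
    have h4 := hbx j hj
    have h5 : (2 : ℝ) ^ (y + 2) / 2 ^ g j = 4 * (2 ^ y / 2 ^ g j) := by rw [pow_add]; ring
    have h6 : (1 : ℝ) / 2 ^ g j ≤ 2 ^ y / 2 ^ g j :=
      div_le_div_of_nonneg_right (one_le_pow₀ (by norm_num)) (by positivity)
    rw [h5]
    rw [abs_le] at h1 h2 h4 ⊢
    constructor <;> linarith [h1.1, h1.2, h2.1, h2.2, h4.1, h4.2]
  obtain ⟨M, hMd⟩ : ∃ M : Option (Fin m) → ℝ, M = fun o =>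
      if h : ∃ l < i, o = some (c l) then
        2 ^ (c₀ + (y + 2) * D₁) * 2 ^ (e + nlp g h.choose i) else 0 := ⟨_, rfl⟩
  have hMc : ∀ l < i, M (some (c l)) = 2 ^ (c₀ + (y + 2) * D₁) * 2 ^ (e + nlp g l i) := by
    intro l hl
    have hex : ∃ l' < i, (some (c l) : Option (Fin m)) = some (c l') := ⟨l, hl, rfl⟩
    rw [hMd]
    simp only
    rw [dif_pos hex]
    have h1 := hex.choose_spec
    have h2 : c l = c hex.choose := Option.some.inj h1.2
    have h3 := hc (Set.mem_Iio.2 (hl.trans hi)) (Set.mem_Iio.2 (h1.1.trans hi)) h2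
    rw [← h3]
  have h1 := mv2 (G i) b₀ b M (fun x hx o ho => by
    have hex : ∃ l < i, o = some (c l) := by
      by_contra hcon
      exact ho (hbo o hcon)
    obtain ⟨l, hl, rfl⟩ := hex
    rw [hMc l hl]
    exact hM x hx l hl)
  refine h1.trans ?_
  have h2 : ∑ o, M o * |b o - b₀ o| = ∑ l ∈ range i, M (some (c l)) *
      |b (some (c l)) - b₀ (some (c l))| := by
    rw [← Finset.sum_image (f := fun o => M o * |b o - b₀ o|) (g := fun l => some (c l))
      (s := range i)]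
    · refine (Finset.sum_subset (Finset.subset_univ _) fun o _ ho => ?_).symm
      rw [hbo o, sub_self, abs_zero, mul_zero]
      rintro ⟨j, hj, rfl⟩
      exact ho (Finset.mem_image.2 ⟨j, Finset.mem_range.2 hj, rfl⟩)
    · intro l hl l' hl' he
      have hl2 := Finset.mem_range.1 (Finset.mem_coe.1 hl)
      have hl3 := Finset.mem_range.1 (Finset.mem_coe.1 hl')
      exact hc (Set.mem_Iio.2 (hl2.trans hi)) (Set.mem_Iio.2 (hl3.trans hi)) (Option.some.inj he)
  rw [h2]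
  have hr1 : (i : ℝ) ≤ 2 ^ r := by
    have : i < 2 ^ r := lt_of_lt_of_le Nat.lt_two_pow_self
      (Nat.pow_le_pow_right (by norm_num) (by omega))
    exact_mod_cast this.le
  calc ∑ l ∈ range i, M (some (c l)) * |b (some (c l)) - b₀ (some (c l))|
      ≤ ∑ _l ∈ range i, 1 / 2 ^ r * (1 / 2 ^ g i) := by
        refine Finset.sum_le_sum fun l hl => ?_
        have hl := Finset.mem_range.1 hl
        rw [hMc l hl, hbc l hl]
        refine (mul_le_mul_of_nonneg_left (hd l hl) (by positivity)).trans ?_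
        have h3 := hδ i hi l hl
        have h4 : g i ≤ (Finset.Icc l i).sup g := Finset.le_sup (f := g)
          (Finset.mem_Icc.2 ⟨hl.le, le_rfl⟩)
        have h5 : nlp g l i + g i = (Finset.Icc l i).sup g := by
          unfold nlp
          omega
        have h6 : (c₀ + (y + 2) * D₁) + (e + nlp g l i) + (r + g i) ≤ δ l := by
          have h7 : c₀ + (y + 2) * D₁ + r ≤ (c₀ + 2 * D₁ + r + 1) * (y + 1) := by nlinarith
          omega
        have e2 : (1 : ℝ) / 2 ^ r * (1 / 2 ^ g i) = 1 / 2 ^ (r + g i) := by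
          rw [pow_add, one_div_mul_one_div]
        rw [e2, ← pow_add, mul_one_div]
        rw [div_le_div_iff₀ (by positivity) (by positivity), one_mul, ← pow_add]
        exact pow_le_pow_right₀ (by norm_num) h6
    _ = i * (1 / 2 ^ r * (1 / 2 ^ g i)) := by
        rw [Finset.sum_const, Finset.card_range, nsmul_eq_mul]
    _ ≤ 2 ^ r * (1 / 2 ^ r * (1 / 2 ^ g i)) := mul_le_mul_of_nonneg_right hr1 (by positivity)
    _ = _ := by field_simp

/-- **The closed code of a chain**: polynomials which are exactly functions of the points and of the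
lines, near the labels of the chain. -/
structure Cod (F : Fam m J) (c : ℕ → Fin m) (n D k a w : ℕ) (g : ℕ → ℕ) (B : F.Ω → Prop)
    (G : PtT F → ℕ → MvPolynomial (Option (Fin m)) ℝ) {V : Type} (z : PtT F → V) (z' : LnT F → V)
    (P : V → ℕ → MvPolynomial (Option (Fin m)) ℝ) : Prop where
  cls : ∀ ω, B ω → z (ptr F J ω) = z' (slam F w ω)
  deg : ∀ v i, (P v i).totalDegree ≤ D
  dep : ∀ v i, DepC c i (P v i)
  near : ∀ ω, B ω → ∀ i < n, ∀ b : Option (Fin m) → ℝ, NBx c (G (ptr F J ω)) g a (F.t ω) i b →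
    |eval b (G (ptr F J ω) i) - eval b (P (z' (slam F w ω)) i)| ≤ 2 ^ k / 2 ^ g i

theorem Cod.sub {F : Fam m J} {c : ℕ → Fin m} {n D k a w : ℕ} {g : ℕ → ℕ} {B B' : F.Ω → Prop}
    {G : PtT F → ℕ → MvPolynomial (Option (Fin m)) ℝ} {V : Type} {z : PtT F → V} {z' : LnT F → V}
    {P : V → ℕ → MvPolynomial (Option (Fin m)) ℝ} (h : Cod F c n D k a w g B G z z' P)
    (hB : Sub B' B) : Cod F c n D k a w g B' G z z' P :=
  ⟨fun ω hω => h.cls ω (hB ω hω), h.deg, h.dep, fun ω hω => h.near ω (hB ω hω)⟩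

theorem Cod.mono {F : Fam m J} {c : ℕ → Fin m} {n n' D D' k k' a w : ℕ} {g : ℕ → ℕ}
    {B : F.Ω → Prop} {G : PtT F → ℕ → MvPolynomial (Option (Fin m)) ℝ} {V : Type} {z : PtT F → V}
    {z' : LnT F → V} {P : V → ℕ → MvPolynomial (Option (Fin m)) ℝ}
    (h : Cod F c n D k a w g B G z z' P) (hn : n' ≤ n) (hD : D ≤ D') (hk : k ≤ k') :
    Cod F c n' D' k' a w g B G z z' P :=
  ⟨h.cls, fun v i => (h.deg v i).trans hD, h.dep, fun ω hω i hi b hb =>
    (h.near ω hω i (hi.trans_le hn) b hb).trans (div_le_div_of_nonneg_right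
      (pow_le_pow_right₀ (by norm_num) hk) (by positivity))⟩

/-- **The natural box of a sample** contains the samples with the same time and the same code. -/
theorem same_box (D r : ℕ) : ∃ C : ℕ, ∀ {m J : ℕ} {F : Fam m J} {c : ℕ → Fin m}
    {n a w w' e k : ℕ} {g : ℕ → ℕ} {B : F.Ω → Prop}
    {G : PtT F → ℕ → MvPolynomial (Option (Fin m)) ℝ}
    {H : LnT F → ℕ → MvPolynomial (Option (Fin m)) ℝ} {V : Type} {z : PtT F → V} {z' : LnT F → V}
    {P : V → ℕ → MvPolynomial (Option (Fin m)) ℝ}, n ≤ r → Set.InjOn c (Set.Iio n) →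
    ChOK F c n (fun _ => D) a w e g B G H → Cod F c n D k a w' g B G z z' P →
    ∀ ω ω', B ω → B ω' → F.t ω = F.t ω' → z' (slam F w' ω) = z' (slam F w' ω') → ∀ j < n,
      |F.x ω' (c j) - eval (bt F ω') (G (ptr F J ω) j)| ≤ 2 ^ (C * (k + 1)) / 2 ^ g j := by
  obtain ⟨c₀, D₁, hD₁, hdil⟩ := nbx_dil r (fun _ => D)
  refine ⟨(c₀ + D₁ + 3) ^ (r + 1), ?_⟩
  intro m J F c n a w w' e k g B G H V z z' P hn hc hL hC ω ω' hω hω' ht hz
  have key : ∀ j < n, |F.x ω' (c j) - eval (bt F ω') (G (ptr F J ω) j)| ≤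
      2 ^ ((c₀ + D₁ + 3) ^ (j + 1) * (k + 1)) / 2 ^ g j := by
    intro j
    induction j using Nat.strong_induction_on with
    | _ j ih =>
    intro hj
    have h1 := hL.pos ω' hω' j hj
    have h2 := hC.near ω' hω' j hj (bt F ω') (hL.self hω' hj.le)
    obtain ⟨kj, hkj⟩ : ∃ kj, kj = (c₀ + D₁ + 3) ^ j * (k + 1) := ⟨_, rfl⟩
    have hkj1 : k + 1 ≤ kj := by
      rw [hkj]
      exact Nat.le_mul_of_pos_left _ (Nat.one_le_pow _ _ (by omega))
    have h3 := hdil (c := c) (i := j) (G := G (ptr F J ω))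
      (Q := G (ptr F J ω) j - P (z' (slam F w' ω)) j) (g := g) (a := a) (t := F.t ω)
      (M := 2 ^ k / 2 ^ g j) kj (by omega) (hc.mono (Set.Iio_subset_Iio hj.le)) (hL.degG _)
      (hL.depG _) (fun b b' hn hb => by
        rw [map_sub, map_sub, hL.depG _ j b b' hn hb, hC.dep _ j b b' hn hb])
      ((totalDegree_sub _ _).trans (max_le (hL.degG _ j) (hC.deg _ j))) (by positivity)
      (fun b hb => by
        rw [map_sub]
        exact hC.near ω hω j hj b hb) (bt F ω') (by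
          change |F.t ω' - F.t ω| ≤ _
          rw [ht, sub_self, abs_zero]
          positivity) (fun l hl => by
          refine (ih l hl (by omega)).trans ?_
          refine div_le_div_of_nonneg_right (pow_le_pow_right₀ (by norm_num) ?_) (by positivity)
          rw [hkj]
          exact Nat.mul_le_mul_right _ (Nat.pow_le_pow_right (by omega) (by omega)))
    rw [map_sub, hz] at h3
    have h4 : (2 : ℝ) ^ (c₀ + kj * D₁ + k + 2) / 2 ^ g j =
        4 * (2 ^ (c₀ + kj * D₁) * (2 ^ k / 2 ^ g j)) := by rw [pow_add, pow_add]; ring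
    have h5 : (2 : ℝ) ^ k / 2 ^ g j ≤ 2 ^ (c₀ + kj * D₁) * (2 ^ k / 2 ^ g j) :=
      le_mul_of_one_le_left (by positivity) (one_le_pow₀ (by norm_num))
    have h6 : (1 : ℝ) / 2 ^ g j ≤ 2 ^ k / 2 ^ g j :=
      div_le_div_of_nonneg_right (one_le_pow₀ (by norm_num)) (by positivity)
    have h7 : (2 : ℝ) ^ (c₀ + kj * D₁ + k + 2) / 2 ^ g j ≤
        2 ^ ((c₀ + D₁ + 3) ^ (j + 1) * (k + 1)) / 2 ^ g j := by
      refine div_le_div_of_nonneg_right (pow_le_pow_right₀ (by norm_num) ?_) (by positivity)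
      have h8 : (c₀ + D₁ + 3) ^ (j + 1) * (k + 1) = (c₀ + D₁ + 3) * kj := by
        rw [hkj, pow_succ]
        ring
      rw [h8]
      nlinarith
    refine le_trans ?_ h7
    rw [h4]
    rw [abs_le] at h1 h2 h3 ⊢
    constructor <;> linarith [h1.1, h1.2, h2.1, h2.2, h3.1, h3.2]
  intro j hj
  refine (key j hj).trans (div_le_div_of_nonneg_right (pow_le_pow_right₀ (by norm_num)
    (Nat.mul_le_mul_right _ (Nat.pow_le_pow_right (by omega) (by omega)))) (by positivity))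

/-- **Near coordinates.** -/
theorem near_x (D r : ℕ) : ∃ C : ℕ, ∀ {m J : ℕ} {F : Fam m J} {c : ℕ → Fin m}
    {n a w w' e k : ℕ} {g δ : ℕ → ℕ} {B : F.Ω → Prop}
    {G : PtT F → ℕ → MvPolynomial (Option (Fin m)) ℝ}
    {H : LnT F → ℕ → MvPolynomial (Option (Fin m)) ℝ} {V : Type} {z : PtT F → V} {z' : LnT F → V}
    {P : V → ℕ → MvPolynomial (Option (Fin m)) ℝ}, n ≤ r → Set.InjOn c (Set.Iio n) →
    ChOK F c n (fun _ => D) a w e g B G H → Cod F c n D k a w' g B G z z' P →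
    (∀ i < n, ∀ l < i, e + C + (Finset.Icc l i).sup g ≤ δ l) →
    ∀ ω ω', B ω → B ω' → F.t ω = F.t ω' → z' (slam F w' ω) = z' (slam F w' ω') → ∀ i < n,
    (∀ j < i, |F.x ω' (c j) - F.x ω (c j)| ≤ 1 / 2 ^ δ j) →
      |F.x ω' (c i) - F.x ω (c i)| ≤ 2 ^ (C * (k + 1)) / 2 ^ g i := by
  obtain ⟨C₁, hmv⟩ := nbx_mv D r
  obtain ⟨C₂, hbx⟩ := same_box D r
  refine ⟨C₁ + C₂ + 2, ?_⟩
  intro m J F c n a w w' e k g δ B G H V z z' P hn hc hL hC hδ ω ω' hω hω' ht hz i hi hx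
  have h1 := hmv (c := c) (n := n) (G := G (ptr F J ω)) (g := g) (δ := δ) (a := a) (e := e)
    (y := 0) (t := F.t ω) hn hc (hL.degG _) (hL.depG _)
    (fun i hi b hb l hl => hL.lip ω hω i hi b hb l hl)
    (fun i hi l hl => le_trans (by
      rw [zero_add, mul_one]
      omega) (hδ i hi l hl)) (bt F ω) (by
      change |F.t ω - F.t ω| ≤ _
      rw [sub_self, abs_zero]
      positivity) i hi (fun j hj => by
      rw [pow_zero]
      exact hL.pos ω hω j (hj.trans hi)) (bt F ω') ht.symm hx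
  have h2 := hbx hn hc hL hC ω ω' hω hω' ht hz i hi
  have h3 := hL.pos ω hω i hi
  obtain ⟨X, hX⟩ : ∃ X : ℝ, X = 2 ^ (C₂ * (k + 1)) / 2 ^ g i := ⟨_, rfl⟩
  rw [← hX] at h2
  have h5 : (1 : ℝ) / 2 ^ g i ≤ X := by
    rw [hX]
    exact div_le_div_of_nonneg_right (one_le_pow₀ (by norm_num)) (by positivity)
  have h4 : 4 * X ≤ 2 ^ ((C₁ + C₂ + 2) * (k + 1)) / 2 ^ g i := by
    have e1 : 4 * X = 2 ^ (C₂ * (k + 1) + 2) / 2 ^ g i := by
      rw [hX, pow_add 2 _ 2]
      ring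
    rw [e1]
    refine div_le_div_of_nonneg_right (pow_le_pow_right₀ (by norm_num) ?_) (by positivity)
    nlinarith
  refine le_trans ?_ h4
  rw [abs_le] at h1 h2 h3 ⊢
  constructor <;> linarith [h1.1, h1.2, h2.1, h2.2, h3.1, h3.2]

/-- **The shear for larger motions.** -/
theorem shr_grow (D : ℕ) : ∃ C : ℕ, ∀ {m J : ℕ} {F : Fam m J} {c : ℕ → Fin m}
    {l i a h k : ℕ} {g : ℕ → ℕ} {G : PtT F → ℕ → MvPolynomial (Option (Fin m)) ℝ}
    {v : PtT F → Fin m → ℝ} {ω : F.Ω}, (G (ptr F J ω) i).totalDegree ≤ D →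
    Shr F c l a g G v h i ω → ∀ b, NBx c (G (ptr F J ω)) g a (F.t ω) i b → ∀ s : ℝ,
    |s| ≤ 2 ^ k / 2 ^ g l →
      |eval (mvp (v (ptr F J ω)) s b) (G (ptr F J ω) i) - eval b (G (ptr F J ω) i) -
        s * v (ptr F J ω) (c i)| ≤ 2 ^ (C * (k + 1) + h) / 2 ^ g i := by
  obtain ⟨C, hC, hgr⟩ := grow_one (D + 1)
  obtain ⟨c₀, hc₀⟩ := pow_unbounded_of_one_lt C (one_lt_two (α := ℝ))
  refine ⟨c₀ + D + 1, ?_⟩
  intro m J F c l i a h k g G v ω hdeg hS b hb s hs
  obtain ⟨f, hf⟩ : ∃ f : Polynomial ℝ,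
      f = (MvPolynomial.aeval (lnv (v (ptr F J ω)) b) (G (ptr F J ω) i) -
        Polynomial.C (eval b (G (ptr F J ω) i)) -
        Polynomial.C (v (ptr F J ω) (c i)) * Polynomial.X).comp
        (Polynomial.C s * Polynomial.X) := ⟨_, rfl⟩
  have hfe : ∀ τ, f.eval τ = eval (mvp (v (ptr F J ω)) (s * τ) b) (G (ptr F J ω) i) -
      eval b (G (ptr F J ω) i) - s * τ * v (ptr F J ω) (c i) := by
    intro τ
    rw [hf, Polynomial.eval_comp, Polynomial.eval_sub, Polynomial.eval_sub, eval_lnv]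
    simp only [Polynomial.eval_mul, Polynomial.eval_C, Polynomial.eval_X]
    ring
  have hfd : f.natDegree ≤ D + 1 := by
    rw [hf]
    refine Polynomial.natDegree_comp_le.trans ?_
    have h1 : (MvPolynomial.aeval (lnv (v (ptr F J ω)) b) (G (ptr F J ω) i) -
        Polynomial.C (eval b (G (ptr F J ω) i)) -
        Polynomial.C (v (ptr F J ω) (c i)) * Polynomial.X).natDegree ≤ D + 1 := by
      refine (Polynomial.natDegree_sub_le _ _).trans (max_le ?_ ?_)
      · refine (Polynomial.natDegree_sub_le _ _).trans (max_le ?_ ?_)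
        · exact (natDegree_lnv _ b hdeg).trans (Nat.le_succ _)
        · rw [Polynomial.natDegree_C]
          exact Nat.zero_le _
      · exact ((Polynomial.natDegree_C_mul_le _ _).trans Polynomial.natDegree_X_le).trans
          (by omega)
    have h2 : (Polynomial.C s * Polynomial.X : Polynomial ℝ).natDegree ≤ 1 :=
      (Polynomial.natDegree_C_mul_le _ _).trans Polynomial.natDegree_X_le
    calc _ ≤ (D + 1) * 1 := Nat.mul_le_mul h1 h2
      _ = D + 1 := mul_one _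
  have h1 := hgr f (2 ^ h / 2 ^ g i) k (D + 1) hfd le_rfl (fun τ hτ => by
    rw [hfe]
    refine hS b hb _ ?_
    rw [abs_mul, abs_of_nonneg (div_nonneg hτ.1 (by positivity))]
    calc |s| * (τ / 2 ^ k) ≤ 2 ^ k / 2 ^ g l * (1 / 2 ^ k) :=
          mul_le_mul hs (div_le_div_of_nonneg_right hτ.2 (by positivity))
            (div_nonneg hτ.1 (by positivity)) (by positivity)
      _ = _ := by field_simp)
  rw [hfe, mul_one] at h1
  refine h1.trans ?_
  calc C * 2 ^ (k * (D + 1)) * (2 ^ h / 2 ^ g i)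
      ≤ 2 ^ c₀ * 2 ^ (k * (D + 1)) * (2 ^ h / 2 ^ g i) :=
        mul_le_mul_of_nonneg_right (mul_le_mul_of_nonneg_right hc₀.le (by positivity))
          (by positivity)
    _ = 2 ^ (c₀ + k * (D + 1) + h) / 2 ^ g i := by rw [pow_add, pow_add]; ring
    _ ≤ _ := div_le_div_of_nonneg_right (pow_le_pow_right₀ (by norm_num) (by nlinarith))
        (by positivity)

/-- **Near sheared coordinates.** -/
theorem near_z (D r : ℕ) : ∃ C : ℕ, ∀ {m J : ℕ} {F : Fam m J} {c : ℕ → Fin m}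
    {n a w w' e l h k : ℕ} {g δ : ℕ → ℕ} {B : F.Ω → Prop}
    {G : PtT F → ℕ → MvPolynomial (Option (Fin m)) ℝ}
    {H : LnT F → ℕ → MvPolynomial (Option (Fin m)) ℝ} {V : Type} {z : PtT F → V} {z' : LnT F → V}
    {P : V → ℕ → MvPolynomial (Option (Fin m)) ℝ} {v : PtT F → Fin m → ℝ}, n ≤ r →
    Set.InjOn c (Set.Iio n) → ChOK F c n (fun _ => D) a w e g B G H →
    Cod F c n D k a w' g B G z z' P →
    (∀ i < n, ∀ l < i, e + C * (h + k + 1) + (Finset.Icc l i).sup g ≤ δ l) →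
    (∀ ω, B ω → v (ptr F J ω) (c l) = 1 ∧ ∀ j < l, v (ptr F J ω) (c j) = 0) →
    (∀ ω, B ω → ∀ i, l < i → i < n → Shr F c l a g G v h i ω) →
    ∀ ω ω', B ω → B ω' → F.t ω = F.t ω' → z' (slam F w' ω) = z' (slam F w' ω') →
    ∀ i, l < i → i < n →
    (∀ j < l, |F.x ω' (c j) - F.x ω (c j)| ≤ 1 / 2 ^ δ j) →
    (∀ j < i, l < j → |F.x ω' (c j) - F.x ω (c j) -
      (F.x ω' (c l) - F.x ω (c l)) * v (ptr F J ω) (c j)| ≤ 1 / 2 ^ δ j) →
      |F.x ω' (c i) - F.x ω (c i) - (F.x ω' (c l) - F.x ω (c l)) * v (ptr F J ω) (c i)| ≤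
        2 ^ (C * (h + k + 1)) / 2 ^ g i := by
  obtain ⟨C₁, hnx⟩ := near_x D r
  obtain ⟨C₂, hgr⟩ := shr_grow D
  obtain ⟨C₃, hbx⟩ := same_box D r
  obtain ⟨C₄, hmv⟩ := nbx_mv D r
  obtain ⟨L, hLd⟩ : ∃ L, L = C₂ * (C₁ + 1) + C₁ + 3 := ⟨_, rfl⟩
  refine ⟨C₄ * L + C₃ + L, ?_⟩
  intro m J F c n a w w' e l h k g δ B G H V z z' P v hn hc hL hC hδ hv hS ω ω' hω hω' ht hz i
    hli hi hxl hzj
  obtain ⟨v1, v0⟩ := hv ω hω
  obtain ⟨s, hs⟩ : ∃ s, s = F.x ω' (c l) - F.x ω (c l) := ⟨_, rfl⟩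
  rw [← hs] at hzj ⊢
  obtain ⟨Z, hZ⟩ : ∃ Z, Z = h + k + 1 := ⟨_, rfl⟩
  rw [← hZ] at hδ ⊢
  have hZk : k + 1 ≤ Z := by omega
  have hZh : h + 1 ≤ Z := by omega
  obtain ⟨k₁, hk₁⟩ : ∃ k₁, k₁ = C₁ * (k + 1) := ⟨_, rfl⟩
  have hk₁Z : k₁ ≤ C₁ * Z := by rw [hk₁]; exact Nat.mul_le_mul_left _ hZk
  -- the coordinate `c l`
  have h1 : |s| ≤ 2 ^ k₁ / 2 ^ g l := by
    rw [hs, hk₁]
    refine hnx (n := n) hn hc hL hC (fun i hi l hl => ?_) ω ω' hω hω' ht hz l (by omega) hxl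
    have h2 := hδ i hi l hl
    have h3 : C₁ ≤ (C₄ * L + C₃ + L) * Z := by
      have h4 : C₁ ≤ L := by rw [hLd]; omega
      have h5 : L ≤ L * Z := Nat.le_mul_of_pos_right _ (by omega)
      have h6 : L * Z ≤ (C₄ * L + C₃ + L) * Z := Nat.mul_le_mul_right _ (by omega)
      omega
    omega
  -- the motion
  obtain ⟨y₀, hy₀⟩ : ∃ y₀, y₀ = C₂ * (k₁ + 1) + h + k₁ := ⟨_, rfl⟩
  have hy₀L : y₀ + 2 ≤ L * Z := by
    have h2 : C₂ * (k₁ + 1) ≤ C₂ * (C₁ + 1) * Z := by
      rw [mul_assoc]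
      refine Nat.mul_le_mul_left _ ?_
      nlinarith
    rw [hy₀, hLd]
    nlinarith
  have h2 : ∀ j, l < j → j ≤ i → |eval (mvp (v (ptr F J ω)) s (bt F ω)) (G (ptr F J ω) j) -
      eval (bt F ω) (G (ptr F J ω) j) - s * v (ptr F J ω) (c j)| ≤
        2 ^ (C₂ * (k₁ + 1) + h) / 2 ^ g j := fun j hlj hji =>
    hgr (hL.degG _ j) (hS ω hω j hlj (by omega)) (bt F ω) (hL.self hω (by omega)) s h1
  have hself : ∀ j < n, |F.x ω (c j) - eval (bt F ω) (G (ptr F J ω) j)| ≤ 1 / 2 ^ g j :=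
    fun j hj => hL.pos ω hω j hj
  have hbox : ∀ j < i, |mvp (v (ptr F J ω)) s (bt F ω) (some (c j)) -
      eval (mvp (v (ptr F J ω)) s (bt F ω)) (G (ptr F J ω) j)| ≤ 2 ^ (y₀ + 1) / 2 ^ g j := by
    intro j hj
    have h3 := hself j (by omega)
    rw [mvp_some]
    change |F.x ω (c j) + s * v (ptr F J ω) (c j) - _| ≤ _
    have h40 : (0 : ℝ) < 2 ^ g j := by positivity
    have hy2 : (2 : ℝ) ^ (y₀ + 1) / 2 ^ g j = 2 ^ y₀ / 2 ^ g j + 2 ^ y₀ / 2 ^ g j := by
      rw [pow_succ]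
      ring
    have hy3 : (1 : ℝ) / 2 ^ g j ≤ 2 ^ y₀ / 2 ^ g j :=
      div_le_div_of_nonneg_right (one_le_pow₀ (by norm_num)) h40.le
    have hy4 : (2 : ℝ) ^ k₁ / 2 ^ g j ≤ 2 ^ y₀ / 2 ^ g j :=
      div_le_div_of_nonneg_right (pow_le_pow_right₀ (by norm_num) (by omega)) h40.le
    have hy5 : (2 : ℝ) ^ (C₂ * (k₁ + 1) + h) / 2 ^ g j ≤ 2 ^ y₀ / 2 ^ g j :=
      div_le_div_of_nonneg_right (pow_le_pow_right₀ (by norm_num) (by omega)) h40.le
    rw [hy2]
    rcases lt_trichotomy j l with h6 | h6 | h6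
    · rw [dep_mvp (fun k hk => v0 k (hk.trans h6)) (hL.depG _ j), v0 j h6, mul_zero, add_zero]
      rw [abs_le] at h3 ⊢
      constructor <;> linarith [h3.1, h3.2]
    · subst h6
      rw [dep_mvp v0 (hL.depG _ j), v1, mul_one]
      rw [abs_le] at h3 h1 ⊢
      constructor <;> linarith [h3.1, h3.2, h1.1, h1.2]
    · have h7 := h2 j h6 hj.le
      rw [abs_le] at h3 h7 ⊢
      constructor <;> linarith [h3.1, h3.2, h7.1, h7.2]
  have h5 := hmv (c := c) (n := n) (G := G (ptr F J ω)) (g := g) (δ := δ) (a := a) (e := e)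
    (y := y₀ + 1) (t := F.t ω) hn hc (hL.degG _) (hL.depG _)
    (fun i hi b hb l hl => hL.lip ω hω i hi b hb l hl)
    (fun i hi l hl => by
      have h6 := hδ i hi l hl
      have h7 : C₄ * (y₀ + 1 + 1) ≤ (C₄ * L + C₃ + L) * Z := by
        calc C₄ * (y₀ + 1 + 1) ≤ C₄ * (L * Z) := Nat.mul_le_mul_left _ hy₀L
          _ = C₄ * L * Z := by ring
          _ ≤ _ := Nat.mul_le_mul_right _ (by omega)
      omega) (mvp (v (ptr F J ω)) s (bt F ω)) (by
      rw [mvp_none]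
      change |F.t ω - F.t ω| ≤ _
      rw [sub_self, abs_zero]
      positivity) i hi hbox (bt F ω') (by
      rw [mvp_none]
      exact ht.symm) (fun j hj => by
      rw [mvp_some]
      change |F.x ω' (c j) - (F.x ω (c j) + s * v (ptr F J ω) (c j))| ≤ _
      rcases lt_trichotomy j l with h6 | h6 | h6
      · rw [v0 j h6, mul_zero, add_zero]
        exact hxl j h6
      · subst h6
        rw [v1, mul_one, hs]
        have e1 : F.x ω' (c j) - (F.x ω (c j) + (F.x ω' (c j) - F.x ω (c j))) = 0 := by ring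
        rw [e1, abs_zero]
        positivity
      · have e1 : F.x ω' (c j) - (F.x ω (c j) + s * v (ptr F J ω) (c j)) =
            F.x ω' (c j) - F.x ω (c j) - s * v (ptr F J ω) (c j) := by ring
        rw [e1]
        exact hzj j hj h6)
  have h6 := hbx hn hc hL hC ω ω' hω hω' ht hz i hi
  have h7 := hself i hi
  have h8 := h2 i hli le_rfl
  obtain ⟨X, hX⟩ : ∃ X : ℝ, X = 2 ^ (C₂ * (k₁ + 1) + h + C₃ * (k + 1)) / 2 ^ g i := ⟨_, rfl⟩
  have hX1 : (1 : ℝ) / 2 ^ g i ≤ X := by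
    rw [hX]
    exact div_le_div_of_nonneg_right (one_le_pow₀ (by norm_num)) (by positivity)
  have hX2 : (2 : ℝ) ^ (C₃ * (k + 1)) / 2 ^ g i ≤ X := by
    rw [hX]
    exact div_le_div_of_nonneg_right (pow_le_pow_right₀ (by norm_num) (by omega)) (by positivity)
  have hX3 : (2 : ℝ) ^ (C₂ * (k₁ + 1) + h) / 2 ^ g i ≤ X := by
    rw [hX]
    exact div_le_div_of_nonneg_right (pow_le_pow_right₀ (by norm_num) (by omega)) (by positivity)
  have hX4 : 4 * X ≤ 2 ^ ((C₄ * L + C₃ + L) * Z) / 2 ^ g i := by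
    have e1 : 4 * X = 2 ^ (C₂ * (k₁ + 1) + h + C₃ * (k + 1) + 2) / 2 ^ g i := by
      rw [hX, pow_add 2 _ 2]
      ring
    rw [e1]
    refine div_le_div_of_nonneg_right (pow_le_pow_right₀ (by norm_num) ?_) (by positivity)
    have e2 : C₂ * (k₁ + 1) + h + 2 ≤ L * Z := by
      have : C₂ * (k₁ + 1) + h ≤ y₀ := by rw [hy₀]; omega
      omega
    have e3 : C₃ * (k + 1) ≤ C₃ * Z := Nat.mul_le_mul_left _ hZk
    have e4 : (C₄ * L + C₃ + L) * Z = C₄ * L * Z + C₃ * Z + L * Z := by ring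
    have e5 : 0 ≤ C₄ * L * Z := Nat.zero_le _
    omega
  refine le_trans ?_ hX4
  rw [abs_le] at h5 h6 h7 h8 ⊢
  constructor <;> linarith [h5.1, h5.2, h6.1, h6.2, h7.1, h7.2, h8.1, h8.2]

end Pool.PSI
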