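import Pool.Agent.H39.GEN.Strip

/-!
# Blow-up: quantitative differentiation of levels

`blow`: for every increasing function of two variables with Lipschitz constant one which increases
by at least `ε₀ r` on a segment of length `r` in the direction `q`, there is a cell of size `X`,
`δ r ≤ X`, with `δ` depending on `ε₀` and `ε` only, on which the function is affine up to `ε X`
and has a slope at least `ε₀ / 2` in the direction `q`.
-/

set_option autoImplicit false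

namespace Pool.STR

open MeasureTheory Set Filter Topology Pool.LEV

/-- Limits along an ultrafilter of bounded sequences. -/
theorem ulim (U : Ultrafilter ℕ) (x : ℕ → ℝ) (R : ℝ) (h : ∀ n, |x n| ≤ R) :
    ∃ y : ℝ, Tendsto x U (𝓝 y) := by
  have hc : IsCompact (Icc (-R) R) := isCompact_Icc
  have h1 : (U.map x : Filter ℝ) ≤ 𝓟 (Icc (-R) R) := by
    rw [le_principal_iff]
    show ∀ᶠ n in (U : Filter ℕ), x n ∈ Icc (-R) R
    exact Filter.Eventually.of_forall fun n => abs_le.1 (h n)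
  obtain ⟨y, -, hy⟩ := hc.ultrafilter_le_nhds (U.map x) h1
  exact ⟨y, hy⟩

/-- A class of functions with Lipschitz constant one is compact, in this sense: along an
ultrafilter there is a limit, and the convergence is uniform on balls. -/
theorem ulip (U : Ultrafilter ℕ) (b : ℕ → ℝ × ℝ → ℝ) (hb : ∀ n, LipschitzWith 1 (b n))
    (hb0 : ∀ n, b n (0, 0) = 0) (hm : ∀ n, Monotone (b n)) :
    ∃ f : ℝ × ℝ → ℝ, LipschitzWith 1 f ∧ Monotone f ∧ (∀ p, Tendsto (fun n => b n p) U (𝓝 (f p))) ∧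
      ∀ (p : ℝ × ℝ) (X η : ℝ), 0 < η → ∀ᶠ n in (U : Filter ℕ), ∀ p', dist p' p ≤ X →
        |b n p' - f p'| ≤ η := by
  have h1 : ∀ p : ℝ × ℝ, ∃ y : ℝ, Tendsto (fun n => b n p) U (𝓝 y) := by
    intro p
    refine ulim U _ (dist p (0, 0)) fun n => ?_
    have := (hb n).dist_le_mul p (0, 0)
    rw [hb0 n, Real.dist_eq, sub_zero, NNReal.coe_one, one_mul] at this
    exact this
  choose f hf using h1
  have hfl : LipschitzWith 1 f := by
    refine LipschitzWith.of_dist_le_mul fun p p' => ?_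
    have h2 : Tendsto (fun n => dist (b n p) (b n p')) U (𝓝 (dist (f p) (f p'))) :=
      (hf p).dist (hf p')
    exact le_of_tendsto h2 (Eventually.of_forall fun n => (hb n).dist_le_mul p p')
  refine ⟨f, hfl, fun p p' hp => ?_, hf, ?_⟩
  · exact le_of_tendsto_of_tendsto (hf p) (hf p') (Eventually.of_forall fun n => hm n hp)
  intro p X η hη
  have hc : IsCompact (Metric.closedBall p X) := isCompact_closedBall p X
  obtain ⟨t, -, ht1, ht2⟩ := hc.finite_cover_balls (by positivity : 0 < η / 3)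
  have h3 : ∀ᶠ n in (U : Filter ℕ), ∀ z ∈ t, |b n z - f z| < η / 3 := by
    rw [Filter.eventually_all_finite ht1]
    intro z _
    have := Metric.tendsto_nhds.1 (hf z) (η / 3) (by positivity)
    filter_upwards [this] with n hn
    rwa [Real.dist_eq] at hn
  filter_upwards [h3] with n hn p' hp'
  obtain ⟨z, hz, hz'⟩ := mem_iUnion₂.1 (ht2 (Metric.mem_closedBall.2 hp'))
  rw [Metric.mem_ball] at hz'
  have e1 := (hb n).dist_le_mul p' z
  have e2 := hfl.dist_le_mul p' z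
  rw [Real.dist_eq, NNReal.coe_one, one_mul] at e1 e2
  have e3 := hn z hz
  have e4 : b n p' - f p' = (b n p' - b n z) + (b n z - f z) - (f p' - f z) := by ring
  rw [e4]
  refine (abs_sub _ _).trans ?_
  have e5 := abs_add_le (b n p' - b n z) (b n z - f z)
  linarith

/-- A point with a large slope in the direction `q`. -/
theorem slope_pt {f : ℝ × ℝ → ℝ} (hf : LipschitzWith 1 f) {ε₀ : ℝ} (h0 : 0 < ε₀)
    (h : ε₀ ≤ f (0, 1) - f (0, 0)) : ∃ p : ℝ × ℝ, |p.1| < ε₀ / 8 ∧ 0 < p.2 ∧ p.2 < 1 ∧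
      DifferentiableAt ℝ f p ∧ ε₀ / 2 < fderiv ℝ f p (0, 1) := by
  by_contra hcon
  push Not at hcon
  have h1 : ∀ᵐ p : ℝ × ℝ, DifferentiableAt ℝ f p := hf.ae_differentiableAt
  rw [Measure.volume_eq_prod] at h1
  have h2 := Measure.ae_ae_of_ae_prod h1
  -- a good row
  have h3 : ∃ Q : ℝ, |Q| < ε₀ / 8 ∧ ∀ᵐ q : ℝ, DifferentiableAt ℝ f (Q, q) := by
    by_contra hc
    push Not at hc
    have h4 : volume (Ioo (-(ε₀ / 8)) (ε₀ / 8)) = 0 := by
      refine measure_mono_null ?_ h2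
      intro Q hQ hQ'
      have hQ'' : ∀ᵐ y : ℝ, DifferentiableAt ℝ f (Q, y) := hQ'
      exact hc Q (abs_lt.2 hQ) (hQ''.mono fun _ h => not_not.2 h)
    rw [Real.volume_Ioo, ENNReal.ofReal_eq_zero] at h4
    linarith
  obtain ⟨Q, hQ, hd⟩ := h3
  obtain ⟨g, hg⟩ : ∃ g : ℝ → ℝ, g = fun q => f (Q, q) := ⟨_, rfl⟩
  have hgl : LipschitzWith 1 g := by
    rw [hg]
    refine LipschitzWith.of_dist_le_mul fun x y => ?_
    refine (hf.dist_le_mul _ _).trans ?_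
    rw [Prod.dist_eq]
    simp
  have h5 := (hgl.lipschitzOnWith (s := uIcc 0 1)).absolutelyContinuousOnInterval.integral_deriv_eq_sub
  have h6 : ∫ q in (0 : ℝ)..1, deriv g q ≤ ∫ _ in (0 : ℝ)..1, ε₀ / 2 := by
    rw [intervalIntegral.integral_of_le zero_le_one, intervalIntegral.integral_of_le zero_le_one,
      integral_Ioc_eq_integral_Ioo, integral_Ioc_eq_integral_Ioo]
    refine setIntegral_mono_ae_restrict ?_ (integrableOn_const (by simp) (by simp)) ?_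
    · have h7 := (hgl.lipschitzOnWith (s := uIcc 0 1)).absolutelyContinuousOnInterval.intervalIntegrable_deriv
      exact ((intervalIntegrable_iff_integrableOn_Ioo_of_le zero_le_one).1 h7)
    · rw [Filter.EventuallyLE, ae_restrict_iff' measurableSet_Ioo]
      filter_upwards [hd] with q hq hqI
      have h8 : HasDerivAt g (fderiv ℝ f (Q, q) (0, 1)) q := by
        have h9 : HasDerivAt (fun t : ℝ => ((Q, t) : ℝ × ℝ)) (0, 1) q :=
          (hasDerivAt_const q Q).prodMk (hasDerivAt_id q)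
        rw [hg]
        exact hq.hasFDerivAt.comp_hasDerivAt q h9
      rw [h8.deriv]
      exact hcon (Q, q) hQ hqI.1 hqI.2 hq
  rw [h5, intervalIntegral.integral_const, smul_eq_mul, sub_zero, one_mul] at h6
  have e1 := hf.dist_le_mul (Q, 1) (0, 1)
  have e2 := hf.dist_le_mul (Q, 0) (0, 0)
  rw [Real.dist_eq, Prod.dist_eq, NNReal.coe_one, one_mul] at e1 e2
  simp only [Real.dist_eq, sub_zero, sub_self, abs_zero] at e1 e2
  rw [max_eq_left (abs_nonneg _)] at e1 e2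
  rw [hg] at h6
  have e3 := (abs_le.1 e1).1
  have e4 := (abs_le.1 e2).2
  simp only at h6
  linarith

/-- The rescaled function. -/
noncomputable def resc (a : ℝ × ℝ → ℝ) (Q r : ℝ) (p : ℝ × ℝ) : ℝ :=
  (a (Q + r * p.1, r * p.2) - a (Q, 0)) / r

theorem resc_lip {a : ℝ × ℝ → ℝ} (ha : LipschitzWith 1 a) (Q : ℝ) {r : ℝ} (hr : 0 < r) :
    LipschitzWith 1 (resc a Q r) := by
  refine LipschitzWith.of_dist_le_mul fun p p' => ?_
  rw [NNReal.coe_one, one_mul, Real.dist_eq]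
  have h1 := ha.dist_le_mul (Q + r * p.1, r * p.2) (Q + r * p'.1, r * p'.2)
  rw [NNReal.coe_one, one_mul, Real.dist_eq, Prod.dist_eq, Real.dist_eq, Real.dist_eq] at h1
  have e1 : resc a Q r p - resc a Q r p' =
      (a (Q + r * p.1, r * p.2) - a (Q + r * p'.1, r * p'.2)) / r := by
    unfold resc
    ring
  rw [e1, abs_div, abs_of_pos hr, div_le_iff₀ hr]
  refine h1.trans ?_
  rw [Prod.dist_eq, Real.dist_eq, Real.dist_eq]
  have e2 : Q + r * p.1 - (Q + r * p'.1) = r * (p.1 - p'.1) := by ring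
  have e3 : r * p.2 - r * p'.2 = r * (p.2 - p'.2) := by ring
  simp only [e2, e3, abs_mul, abs_of_pos hr]
  rw [← mul_max_of_nonneg _ _ hr.le, mul_comm]

theorem resc_mono {a : ℝ × ℝ → ℝ} (ha : Monotone a) (Q : ℝ) {r : ℝ} (hr : 0 < r) :
    Monotone (resc a Q r) := by
  intro p p' hp
  unfold resc
  refine div_le_div_of_nonneg_right (sub_le_sub_right (ha ⟨?_, ?_⟩) _) hr.le
  · exact add_le_add_right (mul_le_mul_of_nonneg_left hp.1 hr.le) Q
  · exact mul_le_mul_of_nonneg_left hp.2 hr.le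

/-- The function `a` is affine up to `ε X` on the ball of radius `X` around `p`, with the slopes
`al` and `be`. -/
def Affn (a : ℝ × ℝ → ℝ) (ε : ℝ) (p : ℝ × ℝ) (X al be : ℝ) : Prop :=
  ∀ p' : ℝ × ℝ, dist p' p ≤ X →
    |a p' - a p - (al * (p'.1 - p.1) + be * (p'.2 - p.2))| ≤ ε * X

/-- Rescaling an affine cell. -/
theorem Affn.resc {a : ℝ × ℝ → ℝ} {ε Q r X al be : ℝ} {p : ℝ × ℝ} (hr : 0 < r)
    (h : Affn (resc a Q r) ε p X al be) :
    Affn a ε (Q + r * p.1, r * p.2) (r * X) al be := by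
  intro p' hp'
  have h1 := h ((p'.1 - Q) / r, p'.2 / r) (by
    rw [Prod.dist_eq, Real.dist_eq, Real.dist_eq] at hp' ⊢
    simp only at hp' ⊢
    have e1 : (p'.1 - Q) / r - p.1 = (p'.1 - (Q + r * p.1)) / r := by field_simp; ring
    have e2 : p'.2 / r - p.2 = (p'.2 - r * p.2) / r := by field_simp
    rw [e1, e2, abs_div, abs_div, abs_of_pos hr]
    refine max_le ?_ ?_
    · rw [div_le_iff₀ hr, mul_comm X]
      exact (le_max_left _ _).trans hp'
    · rw [div_le_iff₀ hr, mul_comm X]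
      exact (le_max_right _ _).trans hp')
  unfold STR.resc at h1
  have e3 : Q + r * ((p'.1 - Q) / r) = p'.1 := by field_simp; ring
  have e4 : r * (p'.2 / r) = p'.2 := by field_simp
  simp only [e3, e4] at h1
  have e5 : a p' - a (Q + r * p.1, r * p.2) - (al * (p'.1 - (Q + r * p.1)) +
      be * (p'.2 - r * p.2)) =
      r * ((a (p'.1, p'.2) - a (Q, 0)) / r - (a (Q + r * p.1, r * p.2) - a (Q, 0)) / r -
        (al * ((p'.1 - Q) / r - p.1) + be * (p'.2 / r - p.2))) := by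
    field_simp
    ring
  show |a p' - a (Q + r * p.1, r * p.2) - (al * (p'.1 - (Q + r * p.1)) +
      be * (p'.2 - r * p.2))| ≤ ε * (r * X)
  rw [e5, abs_mul, abs_of_pos hr]
  calc _ ≤ r * (ε * X) := mul_le_mul_of_nonneg_left h1 hr.le
    _ = _ := by ring

/-- **Blow-up.** -/
theorem blow {ε₀ ε : ℝ} (h0 : 0 < ε₀) (hε : 0 < ε) : ∃ δ : ℝ, 0 < δ ∧
    ∀ a : ℝ × ℝ → ℝ, LipschitzWith 1 a → Monotone a → ∀ Q r : ℝ, 0 < r →
      ε₀ * r ≤ a (Q, r) - a (Q, 0) → ∃ (p : ℝ × ℝ) (X al be : ℝ), |p.1 - Q| ≤ r ∧ δ * r ≤ X ∧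
        X ≤ p.2 ∧ p.2 + X ≤ r ∧ 0 ≤ al ∧ ε₀ / 2 ≤ be ∧ al + be ≤ 1 ∧ Affn a ε p X al be := by
  -- the unit scale
  suffices H : ∃ δ : ℝ, 0 < δ ∧ ∀ b : ℝ × ℝ → ℝ, LipschitzWith 1 b → Monotone b →
      b (0, 0) = 0 → ε₀ ≤ b (0, 1) → ∃ (p : ℝ × ℝ) (X al be : ℝ), |p.1| ≤ 1 ∧ δ ≤ X ∧
        X ≤ p.2 ∧ p.2 + X ≤ 1 ∧ 0 ≤ al ∧ ε₀ / 2 ≤ be ∧ al + be ≤ 1 ∧ Affn b ε p X al be by
    obtain ⟨δ, hδ, H⟩ := H
    refine ⟨δ, hδ, fun a ha hm Q r hr hQ => ?_⟩
    obtain ⟨p, X, al, be, h1, h2, h3, h4, h5, h6, h7, h8⟩ := H (resc a Q r) (resc_lip ha Q hr)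
      (resc_mono hm Q hr) (by unfold resc; simp) (by
        unfold resc
        simp only [mul_zero, mul_one, add_zero]
        rw [le_div_iff₀ hr]
        exact hQ)
    refine ⟨(Q + r * p.1, r * p.2), r * X, al, be, ?_, ?_, ?_, ?_, h5, h6, h7, h8.resc hr⟩
    · show |Q + r * p.1 - Q| ≤ r
      rw [add_sub_cancel_left, abs_mul, abs_of_pos hr]
      calc r * |p.1| ≤ r * 1 := mul_le_mul_of_nonneg_left h1 hr.le
        _ = r := mul_one r
    · rw [mul_comm]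
      exact mul_le_mul_of_nonneg_left h2 hr.le
    · exact mul_le_mul_of_nonneg_left h3 hr.le
    · show r * p.2 + r * X ≤ r
      have := mul_le_mul_of_nonneg_left h4 hr.le
      rw [mul_one, mul_add] at this
      exact this
  by_contra hcon
  push Not at hcon
  have h1 : ∀ n : ℕ, ∃ b : ℝ × ℝ → ℝ, LipschitzWith 1 b ∧ Monotone b ∧ b (0, 0) = 0 ∧
      ε₀ ≤ b (0, 1) ∧ ∀ (p : ℝ × ℝ) (X al be : ℝ), |p.1| ≤ 1 → 1 / ((n : ℝ) + 1) ≤ X →
        X ≤ p.2 → p.2 + X ≤ 1 → 0 ≤ al → ε₀ / 2 ≤ be → al + be ≤ 1 → ¬ Affn b ε p X al be := by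
    intro n
    obtain ⟨b, k1, k2, k3, k4, k5⟩ := hcon (1 / ((n : ℝ) + 1)) (by positivity)
    exact ⟨b, k1, k2, k3, k4, k5⟩
  choose b k1 k2 k3 k4 k5 using h1
  obtain ⟨U, hU⟩ : ∃ U : Ultrafilter ℕ, U = hyperfilter ℕ := ⟨_, rfl⟩
  have hUt : (U : Filter ℕ) ≤ atTop := by
    rw [hU, ← Nat.cofinite_eq_atTop]
    exact hyperfilter_le_cofinite
  obtain ⟨f, f1, f2, f3, f4⟩ := ulip U b k1 k3 k2
  have f5 : f (0, 0) = 0 := by
    refine tendsto_nhds_unique (f3 (0, 0)) ?_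
    simp only [k3]
    exact tendsto_const_nhds
  have f6 : ε₀ ≤ f (0, 1) := ge_of_tendsto (f3 (0, 1)) (Eventually.of_forall k4)
  obtain ⟨p, p1, p2, p3, p4, p5⟩ := slope_pt f1 h0 (by rw [f5, sub_zero]; exact f6)
  have hε₀ : ε₀ ≤ 1 := by
    have := f1.dist_le_mul (0, 1) (0, 0)
    rw [Real.dist_eq, f5, sub_zero, NNReal.coe_one, one_mul, Prod.dist_eq] at this
    simp only [dist_self, Real.dist_eq, sub_zero, abs_one, zero_le_one, max_eq_right] at this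
    exact f6.trans ((le_abs_self _).trans this)
  obtain ⟨d, hd0, hd⟩ := aff p4 (half_pos hε)
  obtain ⟨X, hX⟩ : ∃ X, X = min d (min p.2 (1 - p.2)) := ⟨_, rfl⟩
  have hX0 : 0 < X := by
    rw [hX]
    exact lt_min hd0 (lt_min p2 (by linarith))
  have hXd : X ≤ d := by rw [hX]; exact min_le_left _ _
  have hX2 : X ≤ p.2 := by rw [hX]; exact (min_le_right _ _).trans (min_le_left _ _)
  have hX3 : X ≤ 1 - p.2 := by rw [hX]; exact (min_le_right _ _).trans (min_le_right _ _)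
  have al0 : 0 ≤ fderiv ℝ f p (1, 0) := fderiv_nonneg f2 ⟨zero_le_one, le_rfl⟩ p4
  have albe : fderiv ℝ f p (1, 0) + fderiv ℝ f p (0, 1) ≤ 1 := by
    have g1 : ‖fderiv ℝ f p‖ ≤ 1 := by
      have := norm_fderiv_le_of_lipschitz ℝ f1 (x₀ := p)
      simpa using this
    rw [← map_add]
    have g2 : ((1 : ℝ), (0 : ℝ)) + (0, 1) = (1, 1) := by ext <;> simp
    rw [g2]
    have g3 : ‖((1 : ℝ), (1 : ℝ))‖ = 1 := by simp [Prod.norm_def]
    have g4 := (fderiv ℝ f p).le_opNorm (1, 1)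
    rw [g3, mul_one, Real.norm_eq_abs] at g4
    exact (le_abs_self _).trans (g4.trans g1)
  have e1 := f4 p X (ε * X / 8) (by positivity)
  have e2 : ∀ᶠ n : ℕ in (U : Filter ℕ), 1 / ((n : ℝ) + 1) ≤ X := by
    have : Tendsto (fun n : ℕ => 1 / ((n : ℝ) + 1)) atTop (𝓝 0) :=
      tendsto_one_div_add_atTop_nhds_zero_nat
    have h6 := hUt ((tendsto_order.1 this).2 X hX0)
    filter_upwards [h6] with n hn using hn.le
  obtain ⟨n, e3, e4⟩ := (e1.and e2).exists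
  refine k5 n p X _ _ (by linarith) e4 hX2 (by linarith) al0 p5.le albe ?_
  intro p' hp'
  have e5 := hd p' (hp'.trans hXd)
  have e6 := e3 p' hp'
  have e7 := e3 p (by rw [dist_self]; exact hX0.le)
  have e8 : ε / 2 * dist p' p ≤ ε / 2 * X := mul_le_mul_of_nonneg_left hp' (half_pos hε).le
  have e9 : b n p' - b n p - (fderiv ℝ f p (1, 0) * (p'.1 - p.1) +
      fderiv ℝ f p (0, 1) * (p'.2 - p.2)) = (b n p' - f p') - (b n p - f p) +
      (f p' - f p - (fderiv ℝ f p (1, 0) * (p'.1 - p.1) +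
        fderiv ℝ f p (0, 1) * (p'.2 - p.2))) := by ring
  rw [e9]
  have t1 := abs_add_le ((b n p' - f p') - (b n p - f p)) (f p' - f p -
    (fderiv ℝ f p (1, 0) * (p'.1 - p.1) + fderiv ℝ f p (0, 1) * (p'.2 - p.2)))
  have t2 := abs_sub (b n p' - f p') (b n p - f p)
  have t3 : 0 ≤ ε * X := mul_nonneg hε.le hX0.le
  linarith

/-! ### The micro input in the form of cells -/

/-- **(M), in the form of cells.** At almost every row `Q` which is not full, with a positive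
diagonal slope, in all small boxes of size `r` there is no cell of size at least `δ r` on which
the level is affine with a positive slope in the direction `q`. -/
def MicB (P : ℝ → ℝ → ℝ) (ρ : ℝ → ℝ) : Prop :=
  ∀ h β : ℝ, 0 < h → 0 < β → ∃ ε : ℝ, 0 < ε ∧ ∀ δ : ℝ, 0 < δ → ∀ᵐ Q : ℝ, 0 < Q → Q < 1 →
    0 < Lv P (Q, 0) → DifferentiableAt ℝ (fun Q => Lv P (Q, 0)) Q →
    0 < deriv (fun Q => Lv P (Q, 0)) Q → DifferentiableAt ℝ ρ Q → deriv ρ Q < 1 - h →
    ∃ r₁ : ℝ, 0 < r₁ ∧ ∀ r : ℝ, 0 < r → r < r₁ → ∀ (p : ℝ × ℝ) (X al be : ℝ),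
      |p.1 - Q| ≤ r → δ * r ≤ X → X ≤ p.2 → p.2 + X ≤ r → 0 ≤ al → β ≤ be → al + be ≤ 1 →
      ¬ Affn (Lv P) ε p X al be

/-- Almost all rows of macroscopic windows are full. -/
theorem fullB {P : ℝ → ℝ → ℝ} (hP : Law P) {ρ : ℝ → ℝ} (hJ : JmpN P ρ) (hM : MicB P ρ)
    (hS : StaN P ρ) : ∀ᵐ Q : ℝ, 0 < Q → Q < 1 → 0 < Lv P (Q, 0) → DifferentiableAt ℝ ρ Q →
      1 ≤ deriv ρ Q := by
  have hn : ∀ n : ℕ, (0 : ℝ) < 1 / ((n : ℝ) + 1) := fun n => by positivity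
  have hM' : ∀ n m : ℕ, ∀ᵐ Q : ℝ, 0 < Q → Q < 1 → 0 < Lv P (Q, 0) →
      DifferentiableAt ℝ (fun Q => Lv P (Q, 0)) Q → 0 < deriv (fun Q => Lv P (Q, 0)) Q →
      DifferentiableAt ℝ ρ Q → deriv ρ Q < 1 - 1 / ((n : ℝ) + 1) →
      ∃ r₁ : ℝ, 0 < r₁ ∧ ∀ r : ℝ, 0 < r → r < r₁ →
        Lv P (Q, r) - Lv P (Q, 0) < 1 / ((m : ℝ) + 1) * r := by
    intro n m
    obtain ⟨ε, hε, h1⟩ := hM (1 / ((n : ℝ) + 1)) (1 / ((m : ℝ) + 1) / 2) (hn n) (half_pos (hn m))
    obtain ⟨δ, hδ, h2⟩ := blow (hn m) hε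
    filter_upwards [h1 δ hδ] with Q hQ a b c d e f g
    obtain ⟨r₁, hr₁, h3⟩ := hQ a b c d e f g
    refine ⟨r₁, hr₁, fun r hr0 hr => ?_⟩
    by_contra hc
    push Not at hc
    obtain ⟨p, X, al, be, e1, e2, e3, e4, e5, e6, e7, e8⟩ :=
      h2 (Lv P) (Lv_lip hP) (Lv_mono hP) Q r hr0 hc
    exact h3 r hr0 hr p X al be e1 e2 e3 e4 e5 e6 e7 e8
  have hg : ∀ᵐ Q : ℝ, DifferentiableAt ℝ (fun Q => Lv P (Q, 0)) Q := by
    have : LipschitzWith 1 (fun Q => Lv P (Q, 0)) := by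
      refine LipschitzWith.of_dist_le_mul fun x y => ?_
      refine ((Lv_lip hP).dist_le_mul _ _).trans ?_
      rw [Prod.dist_eq]
      simp
    exact this.ae_differentiableAt_real
  have hgm : Monotone (fun Q => Lv P (Q, 0)) := fun x y hxy => Lv_mono hP ⟨hxy, le_rfl⟩
  filter_upwards [ae_all_iff.2 fun n => ae_all_iff.2 (hM' n), hg,
    ae_all_iff.2 fun n => hJ _ (hn n), ae_all_iff.2 fun n => hS _ (hn n)]
    with Q k1 k2 k3 k4 h0 h1 hw hd
  by_contra hcon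
  push Not at hcon
  obtain ⟨n, hn'⟩ := exists_nat_one_div_lt (sub_pos.2 hcon)
  have h2 : deriv ρ Q < 1 - 1 / ((n : ℝ) + 1) := by linarith
  have hg0 : 0 ≤ deriv (fun Q => Lv P (Q, 0)) Q := hgm.deriv_nonneg
  rcases eq_or_lt_of_le hg0 with h3 | h3
  · exact absurd (k3 n h0 h1 hw k2 h3.symm hd) (not_le.2 h2)
  · refine absurd (k4 n h0 h1 hw ?_ hd) (not_le.2 h2)
    intro ε hε
    obtain ⟨m, hm⟩ := exists_nat_one_div_lt hε
    obtain ⟨r₁, hr₁, h4⟩ := k1 n m h0 h1 hw k2 h3 hd h2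
    refine ⟨r₁, hr₁, fun q hq hq' => ?_⟩
    have h5 := h4 q hq hq'
    have h6 : 1 / ((m : ℝ) + 1) * q ≤ ε * q := mul_le_mul_of_nonneg_right hm.le hq.le
    linarith

/-- **The assembly**, in the form of cells. -/
theorem rowsB {P : ℝ → ℝ → ℝ} (hP : Law P) {ρ : ℝ → ℝ} {w : ℝ} (hw : 0 < w) (hw1 : w ≤ 1)
    (hG0 : 0 ≤ P w w) (hG : P w w ≤ 1) (hr : MonotoneOn ρ (Icc (P w w) 1)) (hJ : JmpN P ρ)
    (hM : MicB P ρ) (hS : StaN P ρ) : 1 - P w w ≤ ρ 1 - ρ (P w w) := by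
  refine cost hr hG ?_
  filter_upwards [fullB hP hJ hM hS] with Q hQ h1 h2 hd
  have h0 : 0 < Q := hG0.trans_lt h1
  refine hQ h0 h2 ?_ hd
  rw [Lv_eq le_rfl zero_le_one h0.le h2.le]
  refine lt_of_lt_of_le hw (le_csInf ⟨1, one_mem zero_le_one⟩ ?_)
  rintro a ⟨a1, a2, a3⟩
  by_contra hc
  push Not at hc
  rcases a3 with a3 | a3
  · rw [sub_zero] at a3
    have := hP.mono a1 le_rfl hc.le hc.le le_rfl hw1
    linarith
  · linarith

end Pool.STR
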