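import Pool.Agent.H39.GEN.BlowM

/-!
# Joint blow-up with calm levels

A function is calm at a point if its increments from this point are at most `T` times the
distance, at all distances. For a bounded monotone function of two variables the points of a box
where it is not calm have area at most `20 C / T` (`nc_area`; rising sun lemma on the lines of
direction `(1, 1)`). So in the joint blow-up the cell can be chosen such that all the levels are
calm at all points of the cell, up to `ε X` (`blowK`).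
-/

set_option autoImplicit false


namespace Pool.STR

open MeasureTheory Set Filter Topology Pool.LEV
open scoped ENNReal NNReal

/-! ### One variable -/

/-- **Rising sun.** The points from which a bounded monotone function has fallen quickly. -/
theorem sun1 {g : ℝ → ℝ} (hg : Monotone g) {C T : ℝ} (hT : 0 < T) (hb : ∀ x, |g x| ≤ C)
    {a b : ℝ} (hab : a ≤ b) :
    volume {x | a ≤ x ∧ x ≤ b ∧ ∃ y ≤ x, T * (x - y) < g x - g y} ≤
      ENNReal.ofReal (2 * C / T) := by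
  have hC : 0 ≤ C := (abs_nonneg _).trans (hb 0)
  obtain ⟨u, hu⟩ : ∃ u : ℝ → ℝ, u = fun y => T * y - g y := ⟨_, rfl⟩
  have hux : ∀ y, u y = T * y - g y := fun y => by rw [hu]
  obtain ⟨M, hM⟩ : ∃ M : ℝ → ℝ, M = fun x => sSup (u '' Iic x) := ⟨_, rfl⟩
  have hMx : ∀ x, M x = sSup (u '' Iic x) := fun x => by rw [hM]
  have hbd : ∀ x, ∀ y ≤ x, u y ≤ T * x + C := by
    intro x y hy
    rw [hux]
    have h1 := (abs_le.1 (hb y)).1
    have h2 := mul_le_mul_of_nonneg_left hy hT.le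
    linarith
  have hbdd : ∀ x, BddAbove (u '' Iic x) := fun x => ⟨T * x + C, by
    rintro _ ⟨y, hy, rfl⟩
    exact hbd x y hy⟩
  have hle : ∀ x, ∀ y ≤ x, u y ≤ M x := fun x y hy => by
    rw [hMx]
    exact le_csSup (hbdd x) ⟨y, hy, rfl⟩
  have hsup : ∀ x c, (∀ y ≤ x, u y ≤ c) → M x ≤ c := fun x c h => by
    rw [hMx]
    refine csSup_le ⟨u x, x, self_mem_Iic, rfl⟩ ?_
    rintro _ ⟨y, hy, rfl⟩
    exact h y hy
  have hmono : ∀ x x', x ≤ x' → M x ≤ M x' := fun x x' h =>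
    hsup x _ fun y hy => hle x' y (hy.trans h)
  have hlip : ∀ x x', x ≤ x' → M x' ≤ M x + T * (x' - x) := by
    intro x x' h
    refine hsup x' _ fun y hy => ?_
    have h0 : 0 ≤ T * (x' - x) := mul_nonneg hT.le (sub_nonneg.2 h)
    rcases le_or_gt y x with h1 | h1
    · linarith [hle x y h1]
    · have h2 := hle x x le_rfl
      have h3 := hg h1.le
      have h4 := mul_le_mul_of_nonneg_left hy hT.le
      rw [hux] at h2 ⊢
      linarith
  have hML : LipschitzWith T.toNNReal M := by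
    refine LipschitzWith.of_dist_le_mul fun x y => ?_
    rw [Real.dist_eq, Real.dist_eq, Real.coe_toNNReal T hT.le]
    rcases le_total x y with h | h
    · rw [abs_sub_comm, abs_sub_comm x, abs_of_nonneg (sub_nonneg.2 (hmono _ _ h)),
        abs_of_nonneg (sub_nonneg.2 h)]
      linarith [hlip x y h]
    · rw [abs_of_nonneg (sub_nonneg.2 (hmono _ _ h)), abs_of_nonneg (sub_nonneg.2 h)]
      linarith [hlip y x h]
  obtain ⟨B, hB⟩ : ∃ B : Set ℝ, B = {x | u x < M x} ∩ Icc a b := ⟨_, rfl⟩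
  have hum : Measurable u := by
    rw [hu]
    exact (measurable_const.mul measurable_id).sub hg.measurable
  have hBm : MeasurableSet B := by
    rw [hB]
    exact (measurableSet_lt hum hML.continuous.measurable).inter measurableSet_Icc
  have hsub : {x | a ≤ x ∧ x ≤ b ∧ ∃ y ≤ x, T * (x - y) < g x - g y} ⊆ B := by
    rintro x ⟨h1, h2, y, h3, h4⟩
    rw [hB]
    refine ⟨?_, h1, h2⟩
    have h5 := hle x y h3
    rw [hux] at h5
    show u x < M x
    rw [hux]
    linarith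
  -- the derivative vanishes on the bad set
  have hder : ∀ᵐ x : ℝ, x ∈ B → deriv M x = 0 := by
    have h1 : {x | ¬ ContinuousAt g x}.Countable := hg.countable_not_continuousAt
    filter_upwards [h1.ae_notMem volume] with x hx hxB
    have hx : ContinuousAt g x := not_not.1 hx
    rw [hB] at hxB
    have h2 : u x < M x := hxB.1
    obtain ⟨c, hc1, hc2⟩ := exists_between h2
    have hcu : ContinuousAt u x := by
      rw [hu]
      exact (continuousAt_const.mul continuousAt_id).sub hx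
    have h3 : ∀ᶠ x' in 𝓝 x, u x' < c := hcu.eventually (eventually_lt_nhds hc1)
    obtain ⟨d, hd, h4⟩ := Metric.eventually_nhds_iff.1 h3
    have h5 : M =ᶠ[𝓝 x] fun _ => M x := by
      filter_upwards [Metric.ball_mem_nhds x hd] with x' hx'
      rw [Metric.mem_ball] at hx'
      rcases le_total x x' with h6 | h6
      · refine le_antisymm (hsup x' _ fun y hy => ?_) (hmono _ _ h6)
        rcases le_or_gt y x with h7 | h7
        · exact hle x y h7
        · have h8 := h4 (y := y) (by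
            rw [Real.dist_eq] at hx' ⊢
            rw [abs_of_nonneg (by linarith)] at hx' ⊢
            linarith)
          linarith
      · refine le_antisymm (hmono _ _ h6) ?_
        by_contra hcc
        push Not at hcc
        have h9 : M x ≤ max (M x') c := hsup x _ fun y hy => by
          rcases le_or_gt y x' with h7 | h7
          · exact (hle x' y h7).trans (le_max_left _ _)
          · have h8 := h4 (y := y) (by
              rw [Real.dist_eq] at hx' ⊢
              rw [abs_sub_comm, abs_of_nonneg (by linarith)] at hx' ⊢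
              linarith)
            exact h8.le.trans (le_max_right _ _)
        rcases le_max_iff.1 h9 with h10 | h10 <;> linarith
    rw [h5.deriv_eq, deriv_const]
  have hint := (hML.lipschitzOnWith
    (s := uIcc a b)).absolutelyContinuousOnInterval.integral_deriv_eq_sub
  obtain ⟨G, hG⟩ : ∃ G : Set ℝ, G = Icc a b \ B := ⟨_, rfl⟩
  have hGm : MeasurableSet G := by
    rw [hG]
    exact measurableSet_Icc.diff hBm
  have hGI : G ⊆ Icc a b := by
    rw [hG]
    exact sdiff_subset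
  have hGf : volume G ≠ ⊤ := ne_top_of_le_ne_top (by
    rw [Real.volume_Icc]; exact ENNReal.ofReal_ne_top) (measure_mono hGI)
  have h6 : ∫ x in a..b, deriv M x ≤ ∫ x in Icc a b, G.indicator (fun _ => T) x := by
    rw [intervalIntegral.integral_of_le hab, ← integral_Icc_eq_integral_Ioc]
    refine setIntegral_mono_ae_restrict ?_ ?_ ?_
    · have h7 := (hML.lipschitzOnWith
        (s := uIcc a b)).absolutelyContinuousOnInterval.intervalIntegrable_deriv
      exact ((intervalIntegrable_iff_integrableOn_Icc_of_le hab).1 h7)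
    · exact ((integrable_indicator_iff hGm).2
        (integrableOn_const (by exact hGf) (by simp))).integrableOn
    · rw [Filter.EventuallyLE, ae_restrict_iff' measurableSet_Icc]
      filter_upwards [hder] with x hx hxI
      by_cases hxG : x ∈ G
      · rw [indicator_of_mem hxG]
        have h10 := norm_deriv_le_of_lipschitz hML (x₀ := x)
        rw [Real.norm_eq_abs, Real.coe_toNNReal T hT.le] at h10
        exact (le_abs_self _).trans h10
      · rw [indicator_of_notMem hxG]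
        have : x ∈ B := by
          by_contra hc
          exact hxG (by rw [hG]; exact ⟨hxI, hc⟩)
        rw [hx this]
  have h7 : ∫ x in Icc a b, G.indicator (fun _ => T) x = (volume G).toReal * T := by
    rw [setIntegral_indicator hGm, inter_eq_self_of_subset_right hGI]
    simp [Measure.real]
  rw [hint, h7] at h6
  have h8 : T * (b - a) - 2 * C ≤ M b - M a := by
    have e1 := hle b b le_rfl
    have e2 : M a ≤ T * a + C := hsup a _ (hbd a)
    have e3 := (abs_le.1 (hb b)).2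
    rw [hux] at e1
    linarith
  have h9 : volume G + volume B = ENNReal.ofReal (b - a) := by
    rw [hG, ← Real.volume_Icc]
    have hBI : B ⊆ Icc a b := by
      rw [hB]
      exact inter_subset_right
    rw [add_comm, measure_add_sdiff hBm.nullMeasurableSet, union_eq_self_of_subset_left hBI]
  have hBf : volume B ≠ ⊤ := by
    intro hc
    rw [hc, add_top] at h9
    exact ENNReal.ofReal_ne_top h9.symm
  have h10 : (volume G).toReal + (volume B).toReal = b - a := by
    rw [← ENNReal.toReal_add hGf hBf, h9, ENNReal.toReal_ofReal (sub_nonneg.2 hab)]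
  refine (measure_mono hsub).trans ?_
  rw [← ENNReal.ofReal_toReal hBf]
  refine ENNReal.ofReal_le_ofReal ?_
  rw [le_div_iff₀ hT]
  nlinarith

/-- **Rising sun, both sides.** -/
theorem sun2 {g : ℝ → ℝ} (hg : Monotone g) {C T : ℝ} (hT : 0 < T) (hb : ∀ x, |g x| ≤ C)
    {a b : ℝ} (hab : a ≤ b) :
    volume {x | a ≤ x ∧ x ≤ b ∧ ∃ y, T * |x - y| < |g x - g y|} ≤
      ENNReal.ofReal (4 * C / T) := by
  have hC : 0 ≤ C := (abs_nonneg _).trans (hb 0)
  obtain ⟨B₁, hB₁⟩ : ∃ B : Set ℝ, B = {x | a ≤ x ∧ x ≤ b ∧ ∃ y ≤ x, T * (x - y) < g x - g y} :=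
    ⟨_, rfl⟩
  obtain ⟨h, hh⟩ : ∃ h : ℝ → ℝ, h = fun x => -g (-x) := ⟨_, rfl⟩
  have hhx : ∀ x, h x = -g (-x) := fun x => by rw [hh]
  have hhm : Monotone h := fun x y hxy => by
    rw [hhx, hhx]
    exact neg_le_neg (hg (neg_le_neg hxy))
  obtain ⟨B₂, hB₂⟩ : ∃ B : Set ℝ, B = {x | -b ≤ x ∧ x ≤ -a ∧ ∃ y ≤ x, T * (x - y) < h x - h y} :=
    ⟨_, rfl⟩
  have e1 : volume B₁ ≤ ENNReal.ofReal (2 * C / T) := by
    rw [hB₁]
    exact sun1 hg hT hb hab
  have e2 : volume B₂ ≤ ENNReal.ofReal (2 * C / T) := by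
    rw [hB₂]
    exact sun1 hhm hT (fun x => by rw [hhx, abs_neg]; exact hb _) (neg_le_neg hab)
  have hsub : {x | a ≤ x ∧ x ≤ b ∧ ∃ y, T * |x - y| < |g x - g y|} ⊆ B₁ ∪ Neg.neg ⁻¹' B₂ := by
    rintro x ⟨h1, h2, y, h3⟩
    rcases le_total y x with h4 | h4
    · left
      rw [hB₁]
      refine ⟨h1, h2, y, h4, ?_⟩
      rw [abs_of_nonneg (sub_nonneg.2 h4), abs_of_nonneg (sub_nonneg.2 (hg h4))] at h3
      exact h3
    · right
      rw [hB₂]
      show -b ≤ -x ∧ -x ≤ -a ∧ ∃ y ≤ -x, T * (-x - y) < h (-x) - h y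
      refine ⟨neg_le_neg h2, neg_le_neg h1, -y, neg_le_neg h4, ?_⟩
      rw [hhx, hhx, neg_neg, neg_neg]
      rw [abs_sub_comm, abs_of_nonneg (sub_nonneg.2 h4), abs_sub_comm,
        abs_of_nonneg (sub_nonneg.2 (hg h4))] at h3
      have e3 : -x - -y = y - x := by ring
      have e4 : -g x - -g y = g y - g x := by ring
      rw [e3, e4]
      exact h3
  refine (measure_mono hsub).trans ((measure_union_le _ _).trans ?_)
  rw [Measure.measure_preimage_neg]
  refine (add_le_add e1 e2).trans ?_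
  rw [← ENNReal.ofReal_add (by positivity) (by positivity)]
  refine ENNReal.ofReal_le_ofReal (le_of_eq ?_)
  ring

/-! ### Calm points -/

/-- **Calm point**: the increments from the point are at most `T` times the distance. -/
def Calm (R : ℝ × ℝ → ℝ) (T : ℝ) (p : ℝ × ℝ) : Prop := ∀ z, |R z - R p| ≤ T * dist z p

theorem calm_closed (R : ℝ × ℝ → ℝ) {T : ℝ} (hT : 0 ≤ T) : IsClosed {p | Calm R T p} := by
  refine isClosed_of_closure_subset fun p hp z => ?_
  refine le_of_forall_pos_le_add fun e he => ?_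
  obtain ⟨p', hp', hd⟩ := Metric.mem_closure_iff.1 hp (e / (2 * T + 1)) (by positivity)
  have h1 : Calm R T p' := hp'
  have h2 := h1 z
  have h3 := h1 p
  have h4 := abs_sub_le (R z) (R p') (R p)
  rw [abs_sub_comm (R p') (R p)] at h4
  have h5 := dist_triangle z p p'
  have h6 : T * dist z p' ≤ T * (dist z p + dist p p') := mul_le_mul_of_nonneg_left h5 hT
  rw [lt_div_iff₀ (by positivity)] at hd
  have h7 : 0 ≤ dist p p' := dist_nonneg
  nlinarith

/-- The points of the box where the level is not calm. -/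
def NC (R : ℝ × ℝ → ℝ) (T : ℝ) : Set (ℝ × ℝ) :=
  {p | p.1 ∈ Icc (-2 : ℝ) 2 ∧ p.2 ∈ Icc (0 : ℝ) 1 ∧ ¬ Calm R T p}

theorem nc_meas (R : ℝ × ℝ → ℝ) {T : ℝ} (hT : 0 ≤ T) : MeasurableSet (NC R T) := by
  have e : NC R T = (Prod.fst ⁻¹' Icc (-2 : ℝ) 2) ∩ ((Prod.snd ⁻¹' Icc (0 : ℝ) 1) ∩
      {p | Calm R T p}ᶜ) := rfl
  rw [e]
  exact (measurableSet_Icc.preimage measurable_fst).inter
    ((measurableSet_Icc.preimage measurable_snd).inter (calm_closed R hT).measurableSet.compl)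

/-- **The area of the points which are not calm.** -/
theorem nc_area {R : ℝ × ℝ → ℝ} (hR : Monotone R) {C T : ℝ} (hT : 0 < T)
    (hb : ∀ p, |R p| ≤ C) : volume (NC R T) ≤ ENNReal.ofReal (20 * C / T) := by
  have hC : 0 ≤ C := (abs_nonneg _).trans (hb (0, 0))
  have hm := nc_meas R hT.le
  have hΦ : MeasurePreserving (fun z : ℝ × ℝ => (z.1 + z.2, z.2)) volume volume := by
    rw [Measure.volume_eq_prod]
    exact measurePreserving_add_prod volume volume
  rw [← hΦ.measure_preimage hm.nullMeasurableSet]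
  have hm' : MeasurableSet ((fun z : ℝ × ℝ => (z.1 + z.2, z.2)) ⁻¹' NC R T) :=
    hΦ.measurable hm
  rw [Measure.volume_eq_prod, Measure.prod_apply hm']
  have key : ∀ c : ℝ, volume (Prod.mk c ⁻¹' ((fun z : ℝ × ℝ => (z.1 + z.2, z.2)) ⁻¹' NC R T)) ≤
      (Icc (-3 : ℝ) 2).indicator (fun _ => ENNReal.ofReal (4 * C / T)) c := by
    intro c
    by_cases hc : c ∈ Icc (-3 : ℝ) 2
    · rw [indicator_of_mem hc]
      refine (measure_mono ?_).trans (sun2 (g := fun v => R (c + v, v)) (fun v v' hv =>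
        hR ⟨by simp only; linarith, hv⟩) hT (fun v => hb _) (zero_le_one (α := ℝ)))
      rintro v ⟨-, h2, h3⟩
      refine ⟨h2.1, h2.2, ?_⟩
      unfold Calm at h3
      push Not at h3
      obtain ⟨z, hz⟩ := h3
      obtain ⟨ρ, hρ⟩ : ∃ ρ, ρ = dist z (c + v, v) := ⟨_, rfl⟩
      have hρ0 : 0 ≤ ρ := by rw [hρ]; exact dist_nonneg
      have z1 : |z.1 - (c + v)| ≤ ρ := by
        rw [hρ, Prod.dist_eq, Real.dist_eq]
        exact le_max_left _ _
      have z2 : |z.2 - v| ≤ ρ := by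
        rw [hρ, Prod.dist_eq, Real.dist_eq, Real.dist_eq]
        exact le_max_right _ _
      rw [abs_le] at z1 z2
      simp only at hz
      rw [← hρ] at hz
      rcases le_total (R (c + v, v)) (R z) with h4 | h4
      · refine ⟨v + ρ, ?_⟩
        have h5 : R z ≤ R (c + (v + ρ), v + ρ) := hR ⟨by simp only; linarith, by
          simp only; linarith⟩
        have e1 : v - (v + ρ) = -ρ := by ring
        rw [abs_of_nonneg (sub_nonneg.2 h4)] at hz
        rw [e1, abs_neg, abs_of_nonneg hρ0, abs_sub_comm]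
        refine lt_of_lt_of_le hz ?_
        exact (sub_le_sub_right h5 _).trans (le_abs_self _)
      · refine ⟨v - ρ, ?_⟩
        have h5 : R (c + (v - ρ), v - ρ) ≤ R z := hR ⟨by simp only; linarith, by
          simp only; linarith⟩
        have e1 : v - (v - ρ) = ρ := by ring
        rw [abs_sub_comm, abs_of_nonneg (sub_nonneg.2 h4)] at hz
        rw [e1, abs_of_nonneg hρ0]
        refine lt_of_lt_of_le hz ?_
        exact (sub_le_sub_left h5 _).trans (le_abs_self _)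
    · rw [indicator_of_notMem hc]
      have : Prod.mk c ⁻¹' ((fun z : ℝ × ℝ => (z.1 + z.2, z.2)) ⁻¹' NC R T) = ∅ := by
        ext v
        refine ⟨fun hv => absurd ?_ hc, fun hv => absurd hv (notMem_empty v)⟩
        obtain ⟨h1, h2, -⟩ := hv
        have h1' : c + v ∈ Icc (-2 : ℝ) 2 := h1
        have h2' : v ∈ Icc (0 : ℝ) 1 := h2
        constructor <;> linarith [h1'.1, h1'.2, h2'.1, h2'.2]
      rw [this, measure_empty]
  refine (lintegral_mono key).trans ?_
  rw [lintegral_indicator measurableSet_Icc, setLIntegral_const, Real.volume_Icc,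
    ← ENNReal.ofReal_mul (by positivity)]
  refine ENNReal.ofReal_le_ofReal (le_of_eq ?_)
  ring

/-- **A good point for all the levels.** -/
theorem slope_ptK {ι : Type*} [Fintype ι] {f : ℝ × ℝ → ℝ} (hf : LipschitzWith 1 f)
    (hm : Monotone f) (f0 : f (0, 0) = 0) {R : ι → ℝ × ℝ → ℝ} (hR : ∀ j, Monotone (R j))
    {ε₀ s T C : ℝ} (h0 : 0 < ε₀) (hs : 0 < s) (hT : 0 < T) (hC : 0 ≤ C)
    (hb : ∀ j p, |R j p| ≤ C)
    (hsm : Fintype.card ι * (20 * C / T) < s * (ε₀ / 4 * (ε₀ / 4)))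
    (h : ε₀ ≤ f (0, 1)) : ∃ p : ℝ × ℝ, |p.1| < ε₀ / 8 ∧ 0 < p.2 ∧ p.2 < 1 ∧
      DifferentiableAt ℝ f p ∧ ε₀ / 2 < fderiv ℝ f p (0, 1) ∧ (fderiv ℝ f p (1, 0) ≤ s ∨
        ∀ j, DifferentiableAt ℝ (R j) (f p - p.2, p.2) ∧
          Calm (R j) T (f p - p.2, p.2)) := by
  classical
  have hε₀ : ε₀ ≤ 1 := by
    have := hf.dist_le_mul (0, 1) (0, 0)
    rw [Real.dist_eq, f0, sub_zero, NNReal.coe_one, one_mul, Prod.dist_eq] at this
    simp only [dist_self, Real.dist_eq, sub_zero, abs_one, zero_le_one, max_eq_right] at this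
    exact h.trans ((le_abs_self _).trans this)
  obtain ⟨hW1, hWm⟩ := slope_area hf h0 (by rw [f0, sub_zero]; exact h)
  obtain ⟨W, hW⟩ : ∃ W : Set (ℝ × ℝ), W = {p : ℝ × ℝ | p.1 ∈ Ioo (-(ε₀ / 8)) (ε₀ / 8) ∧
    p.2 ∈ Ioo (0 : ℝ) 1 ∧ DifferentiableAt ℝ f p ∧ ε₀ / 2 < fderiv ℝ f p (0, 1)} := ⟨_, rfl⟩
  rw [← hW] at hW1 hWm
  obtain ⟨N₀, hN₀⟩ : ∃ N₀ : Set (ℝ × ℝ), N₀ = {p | ¬ ∀ j, DifferentiableAt ℝ (R j) p} :=
    ⟨_, rfl⟩
  have hN0 : volume N₀ = 0 := by
    have h1 : ∀ᵐ p : ℝ × ℝ, ∀ j, DifferentiableAt ℝ (R j) p :=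
      ae_all_iff.2 fun j => ae_diff2 (hR j)
    rw [hN₀]
    exact h1
  obtain ⟨A, hA⟩ : ∃ A : Set (ℝ × ℝ), A = (⋃ j, NC (R j) T) ∪ toMeasurable volume N₀ :=
    ⟨_, rfl⟩
  have hAm : MeasurableSet A := by
    rw [hA]
    exact (MeasurableSet.iUnion fun j => nc_meas (R j) hT.le).union
      (measurableSet_toMeasurable _ _)
  have hAv : volume A ≤ ENNReal.ofReal (Fintype.card ι * (20 * C / T)) := by
    rw [hA]
    refine (measure_union_le _ _).trans ?_
    rw [measure_toMeasurable, hN0, add_zero]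
    refine (measure_iUnion_le _).trans ?_
    rw [tsum_fintype]
    refine (Finset.sum_le_sum fun j _ => nc_area (hR j) hT (hb j)).trans (le_of_eq ?_)
    rw [Finset.sum_const, Finset.card_univ, nsmul_eq_mul,
      ← ENNReal.ofReal_natCast, ← ENNReal.ofReal_mul (Nat.cast_nonneg _)]
  by_contra hcon
  push Not at hcon
  have hc : ∀ p ∈ W, s < fderiv ℝ f p (1, 0) ∧ (f p - p.2, p.2) ∈ A := by
    intro p hp
    rw [hW] at hp
    obtain ⟨a1, a2, a3, a4⟩ := hp
    obtain ⟨b1, j, b2⟩ := hcon p (abs_lt.2 a1) a2.1 a2.2 a3 a4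
    refine ⟨b1, ?_⟩
    rw [hA]
    by_cases hd : DifferentiableAt ℝ (R j) (f p - p.2, p.2)
    · left
      refine mem_iUnion.2 ⟨j, ?_, ?_, b2 hd⟩
      · have e4 := hf.dist_le_mul p (0, 0)
        rw [Real.dist_eq, f0, sub_zero, NNReal.coe_one, one_mul, Prod.dist_eq, Real.dist_eq,
          Real.dist_eq] at e4
        simp only [sub_zero] at e4
        have e5 : max |p.1| |p.2| ≤ 1 := by
          refine max_le ?_ ?_
          · have := abs_lt.2 a1
            linarith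
          · rw [abs_of_pos a2.1]
            exact a2.2.le
        have e6 := abs_le.1 (e4.trans e5)
        show f p - p.2 ∈ Icc (-2 : ℝ) 2
        constructor <;> linarith [e6.1, e6.2, a2.1, a2.2]
      · exact ⟨a2.1.le, a2.2.le⟩
    · right
      refine subset_toMeasurable _ _ ?_
      rw [hN₀]
      exact fun hall => hd (hall j)
  have hq : ∀ q : ℝ, ENNReal.ofReal s * volume ((fun x => (x, q)) ⁻¹' W) ≤
      volume ((fun x => (x, q)) ⁻¹' A) := by
    intro q
    obtain ⟨S, hS⟩ : ∃ S : Set ℝ, S = (fun x => (x, q)) ⁻¹' W := ⟨_, rfl⟩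
    have hSm : MeasurableSet S := by
      rw [hS]
      exact measurable_prodMk_right hWm
    obtain ⟨g, hg⟩ : ∃ g : ℝ → ℝ, g = fun x => f (x, q) - q := ⟨_, rfl⟩
    have hgm : Monotone g := by
      rw [hg]
      intro x y hxy
      exact sub_le_sub_right (hm (show (x, q) ≤ (y, q) from ⟨hxy, le_rfl⟩)) q
    have hAq : MeasurableSet ((fun x => (x, q)) ⁻¹' A) := measurable_prodMk_right hAm
    have h3 := rows_le hgm hs (((fun x => (x, q)) ⁻¹' A).indicator fun _ => 1)
    have h4 : ∫⁻ a, ((fun x => (x, q)) ⁻¹' A).indicator (fun _ => (1 : ℝ≥0∞)) a =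
        volume ((fun x => (x, q)) ⁻¹' A) := by
      rw [lintegral_indicator hAq]
      simp
    rw [h4] at h3
    have h5 : volume S ≤ ∫⁻ x in {x | DifferentiableAt ℝ g x ∧ s < deriv g x},
        ((fun x => (x, q)) ⁻¹' A).indicator (fun _ => (1 : ℝ≥0∞)) (g x) := by
      have h6 : S ⊆ {x | DifferentiableAt ℝ g x ∧ s < deriv g x} := by
        intro x hx
        rw [hS] at hx
        have hx' : (x, q) ∈ W := hx
        have a3 := (hc (x, q) hx').1
        have a4 : DifferentiableAt ℝ f (x, q) := by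
          rw [hW] at hx'
          exact hx'.2.2.1
        have h7 : HasDerivAt g (fderiv ℝ f (x, q) (1, 0)) x := by
          rw [hg]
          exact (hasDerivAt_row a4).sub_const q
        exact ⟨h7.differentiableAt, by rw [h7.deriv]; exact a3⟩
      calc volume S = ∫⁻ _ in S, 1 := by rw [setLIntegral_one]
        _ ≤ ∫⁻ x in S, ((fun x => (x, q)) ⁻¹' A).indicator (fun _ => (1 : ℝ≥0∞)) (g x) := by
            refine setLIntegral_mono' hSm fun x hx => ?_
            rw [hS] at hx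
            have hx' : (x, q) ∈ W := hx
            have h8 : g x ∈ (fun x => (x, q)) ⁻¹' A := by
              rw [hg]
              exact (hc (x, q) hx').2
            rw [indicator_of_mem h8]
        _ ≤ _ := lintegral_mono_set h6
    rw [← hS]
    exact (mul_le_mul' le_rfl h5).trans h3
  have h9 : ENNReal.ofReal s * volume W ≤ volume A := by
    rw [Measure.volume_eq_prod, Measure.prod_apply_symm hWm, Measure.prod_apply_symm hAm,
      ← lintegral_const_mul' _ _ ENNReal.ofReal_ne_top]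
    exact lintegral_mono hq
  have h10 : ENNReal.ofReal (s * (ε₀ / 4 * (ε₀ / 4))) ≤
      ENNReal.ofReal (Fintype.card ι * (20 * C / T)) := by
    rw [ENNReal.ofReal_mul hs.le]
    exact (mul_le_mul' le_rfl hW1).trans (h9.trans hAv)
  rw [ENNReal.ofReal_le_ofReal_iff (by positivity)] at h10
  linarith



/-! ### Compactness -/

/-- The slopes at a calm point. -/
theorem calm_slope {R : ℝ × ℝ → ℝ} {T : ℝ} (hT : 0 ≤ T) {p : ℝ × ℝ}
    (hd : DifferentiableAt ℝ R p) (hc : Calm R T p) :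
    fderiv ℝ R p (1, 0) ≤ T ∧ fderiv ℝ R p (0, 1) ≤ T := by
  constructor
  · have h1 := hasDerivAt_row (x := p.1) (y := p.2) hd
    refine (le_abs_self _).trans (h1.le_of_lip' hT (Eventually.of_forall fun x => ?_))
    have h2 := hc (x, p.2)
    simp only [Prod.dist_eq, dist_self, Real.dist_eq] at h2
    rw [max_eq_left (abs_nonneg _)] at h2
    exact h2
  · have h1 := hasDerivAt_col (x := p.1) (y := p.2) hd
    refine (le_abs_self _).trans (h1.le_of_lip' hT (Eventually.of_forall fun x => ?_))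
    have h2 := hc (p.1, x)
    simp only [Prod.dist_eq, dist_self, Real.dist_eq] at h2
    rw [max_eq_right (abs_nonneg _)] at h2
    exact h2

/-- The grid between two points. -/
theorem grid_near {L κ : ℝ} (hκ : 0 < κ) : ∃ G : Finset (ℝ × ℝ), ∀ z : ℝ × ℝ, |z.1| ≤ L →
    |z.2| ≤ L → (∃ z' ∈ G, z ≤ z' ∧ dist z' z ≤ κ) ∧ ∃ z' ∈ G, z' ≤ z ∧ dist z' z ≤ κ := by
  classical
  obtain ⟨N, hN⟩ : ∃ N : ℤ, N = ⌈L / κ⌉ := ⟨_, rfl⟩
  refine ⟨(Finset.Icc (-N) N ×ˢ Finset.Icc (-N) N).image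
    fun i : ℤ × ℤ => (κ * (i.1 : ℝ), κ * (i.2 : ℝ)), fun z h1 h2 => ?_⟩
  have hmem : ∀ x : ℝ, |x| ≤ L → ⌈x / κ⌉ ∈ Finset.Icc (-N) N ∧ ⌊x / κ⌋ ∈ Finset.Icc (-N) N := by
    intro x hx
    rw [abs_le] at hx
    have e1 : x / κ ≤ L / κ := div_le_div_of_nonneg_right hx.2 hκ.le
    have e2 : -(L / κ) ≤ x / κ := by
      rw [← neg_div]
      exact div_le_div_of_nonneg_right hx.1 hκ.le
    have e3 : L / κ ≤ (N : ℝ) := by rw [hN]; exact Int.le_ceil _
    rw [Finset.mem_Icc, Finset.mem_Icc]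
    refine ⟨⟨?_, ?_⟩, ?_, ?_⟩
    · have : (((-N : ℤ)) : ℝ) ≤ ((⌈x / κ⌉ : ℤ) : ℝ) := by
        push_cast
        linarith [Int.le_ceil (x / κ)]
      exact_mod_cast this
    · rw [hN]
      exact Int.ceil_le_ceil e1
    · rw [Int.le_floor]
      push_cast
      linarith
    · have : ((⌊x / κ⌋ : ℤ) : ℝ) ≤ (N : ℝ) := (Int.floor_le _).trans (e1.trans e3)
      exact_mod_cast this
  have hce : ∀ x : ℝ, x ≤ κ * (⌈x / κ⌉ : ℝ) ∧ κ * (⌈x / κ⌉ : ℝ) ≤ x + κ := by
    intro x
    have e1 := Int.le_ceil (x / κ)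
    have e2 := (Int.ceil_lt_add_one (x / κ)).le
    have e3 : κ * (x / κ) = x := by field_simp
    have e4 := mul_le_mul_of_nonneg_left e1 hκ.le
    have e5 := mul_le_mul_of_nonneg_left e2 hκ.le
    rw [e3] at e4
    rw [mul_add, e3, mul_one] at e5
    exact ⟨e4, e5⟩
  have hfl : ∀ x : ℝ, κ * (⌊x / κ⌋ : ℝ) ≤ x ∧ x - κ ≤ κ * (⌊x / κ⌋ : ℝ) := by
    intro x
    have e1 := Int.floor_le (x / κ)
    have e2 := (Int.sub_one_lt_floor (x / κ)).le
    have e3 : κ * (x / κ) = x := by field_simp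
    have e4 := mul_le_mul_of_nonneg_left e1 hκ.le
    have e5 := mul_le_mul_of_nonneg_left e2 hκ.le
    rw [e3] at e4
    rw [mul_sub, e3, mul_one] at e5
    exact ⟨e4, e5⟩
  refine ⟨⟨(κ * (⌈z.1 / κ⌉ : ℝ), κ * (⌈z.2 / κ⌉ : ℝ)), ?_, ⟨(hce _).1, (hce _).1⟩, ?_⟩,
    (κ * (⌊z.1 / κ⌋ : ℝ), κ * (⌊z.2 / κ⌋ : ℝ)), ?_, ⟨(hfl _).1, (hfl _).1⟩, ?_⟩
  · exact Finset.mem_image.2 ⟨(⌈z.1 / κ⌉, ⌈z.2 / κ⌉), Finset.mem_product.2
      ⟨(hmem _ h1).1, (hmem _ h2).1⟩, rfl⟩
  · rw [Prod.dist_eq, Real.dist_eq, Real.dist_eq]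
    refine max_le ?_ ?_
    · have := hce z.1
      rw [abs_le]
      simp only
      constructor <;> linarith [this.1, this.2]
    · have := hce z.2
      rw [abs_le]
      simp only
      constructor <;> linarith [this.1, this.2]
  · exact Finset.mem_image.2 ⟨(⌊z.1 / κ⌋, ⌊z.2 / κ⌋), Finset.mem_product.2
      ⟨(hmem _ h1).2, (hmem _ h2).2⟩, rfl⟩
  · rw [Prod.dist_eq, Real.dist_eq, Real.dist_eq]
    refine max_le ?_ ?_
    · have := hfl z.1
      rw [abs_le]
      simp only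
      constructor <;> linarith [this.1, this.2]
    · have := hfl z.2
      rw [abs_le]
      simp only
      constructor <;> linarith [this.1, this.2]

/-- **Calm cell**: at all points of the cell the increments are at most `T` times the distance,
up to `ε X`. -/
def CalmB (R : ℝ × ℝ → ℝ) (ε T : ℝ) (y : ℝ × ℝ) (X : ℝ) : Prop :=
  ∀ y' z, dist y' y ≤ X → |R z - R y'| ≤ T * dist z y' + ε * X

/-- **Joint blow-up**, at the unit scale. -/
theorem blowK1 {ι : Type*} [Fintype ι] {ε₀ ε s T C : ℝ} (h0 : 0 < ε₀) (hε : 0 < ε)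
    (hs : 0 < s) (hT : 0 < T) (hC : 0 ≤ C)
    (hsm : Fintype.card ι * (20 * C / T) < s * (ε₀ / 4 * (ε₀ / 4))) : ∃ δ : ℝ, 0 < δ ∧
    ∀ (a : ℝ × ℝ → ℝ) (R : ι → ℝ × ℝ → ℝ), LipschitzWith 1 a → Monotone a → a (0, 0) = 0 →
      ε₀ ≤ a (0, 1) → (∀ j, Monotone (R j)) → (∀ j p, |R j p| ≤ C) →
      ∃ (p : ℝ × ℝ) (X al be : ℝ), |p.1| ≤ 1 / 8 ∧ δ ≤ X ∧ X ≤ p.2 ∧ p.2 + X ≤ 1 ∧
        X ≤ 1 / 2 ∧ 0 ≤ al ∧ ε₀ / 2 ≤ be ∧ al + be ≤ 1 ∧ Affn a ε p X al be ∧
        (al ≤ s ∨ ∀ j, (∃ lam mu : ℝ, 0 ≤ lam ∧ lam ≤ T ∧ 0 ≤ mu ∧ mu ≤ T ∧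
          Affn (R j) ε (a p - p.2, p.2) X lam mu) ∧
            CalmB (R j) ε (4 * T) (a p - p.2, p.2) X) := by
  by_contra hcon
  push Not at hcon
  have h1 : ∀ n : ℕ, ∃ (a : ℝ × ℝ → ℝ) (R : ι → ℝ × ℝ → ℝ), LipschitzWith 1 a ∧ Monotone a ∧
      a (0, 0) = 0 ∧ ε₀ ≤ a (0, 1) ∧ (∀ j, Monotone (R j)) ∧ (∀ j p, |R j p| ≤ C) ∧
      ∀ (p : ℝ × ℝ) (X al be : ℝ), |p.1| ≤ 1 / 8 → 1 / ((n : ℝ) + 1) ≤ X → X ≤ p.2 →
        p.2 + X ≤ 1 → X ≤ 1 / 2 → 0 ≤ al → ε₀ / 2 ≤ be → al + be ≤ 1 → Affn a ε p X al be →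
          ¬ (al ≤ s ∨ ∀ j, (∃ lam mu : ℝ, 0 ≤ lam ∧ lam ≤ T ∧ 0 ≤ mu ∧ mu ≤ T ∧
            Affn (R j) ε (a p - p.2, p.2) X lam mu) ∧
              CalmB (R j) ε (4 * T) (a p - p.2, p.2) X) := by
    intro n
    obtain ⟨a, R, k1, k2, k3, k4, k5, k6, k7⟩ := hcon (1 / ((n : ℝ) + 1)) (by positivity)
    refine ⟨a, R, k1, k2, k3, k4, k5, k6, fun p X al be e1 e2 e3 e4 e5 e6 e7 e8 e9 hc => ?_⟩
    obtain ⟨l1, j, l2⟩ := k7 p X al be e1 e2 e3 e4 e5 e6 e7 e8 e9
    rcases hc with hc | hc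
    · exact absurd hc (not_le.2 l1)
    · obtain ⟨⟨lam, mu, m1, m2, m3, m4, m5⟩, m6⟩ := hc j
      exact l2 ⟨lam, mu, m1, m2, m3, m4, m5⟩ m6
  choose a R k1 k2 k3 k4 k5 k6 k7 using h1
  obtain ⟨U, hU⟩ : ∃ U : Ultrafilter ℕ, U = hyperfilter ℕ := ⟨_, rfl⟩
  have hUt : (U : Filter ℕ) ≤ atTop := by
    rw [hU, ← Nat.cofinite_eq_atTop]
    exact hyperfilter_le_cofinite
  obtain ⟨f, f1, f2, f3, f4⟩ := ulip U a k1 k3 k2
  have hex : ∀ (j : ι) (p : ℝ × ℝ), ∃ y : ℝ, Tendsto (fun n => R n j p) U (𝓝 y) := fun j p =>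
    ulim U _ C fun n => k6 n j p
  choose Rb g1 using hex
  have g2 : ∀ j, Monotone (Rb j) := fun j p p' hp =>
    le_of_tendsto_of_tendsto (g1 j p) (g1 j p') (Eventually.of_forall fun n => k5 n j hp)
  have g3 : ∀ j p, |Rb j p| ≤ C := fun j p =>
    le_of_tendsto (g1 j p).abs (Eventually.of_forall fun n => k6 n j p)
  have f5 : f (0, 0) = 0 := by
    refine tendsto_nhds_unique (f3 (0, 0)) ?_
    simp only [k3]
    exact tendsto_const_nhds
  have f6 : ε₀ ≤ f (0, 1) := ge_of_tendsto (f3 (0, 1)) (Eventually.of_forall k4)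
  obtain ⟨p, p1, p2, p3, p4, p5, p6⟩ := slope_ptK f1 f2 f5 g2 h0 hs hT hC g3 hsm f6
  have hε₀ : ε₀ ≤ 1 := by
    have := f1.dist_le_mul (0, 1) (0, 0)
    rw [Real.dist_eq, f5, sub_zero, NNReal.coe_one, one_mul, Prod.dist_eq] at this
    simp only [dist_self, Real.dist_eq, sub_zero, abs_one, zero_le_one, max_eq_right] at this
    exact f6.trans ((le_abs_self _).trans this)
  obtain ⟨d, hd0, hd⟩ := aff p4 (half_pos hε)
  have al0 : 0 ≤ fderiv ℝ f p (1, 0) := fderiv_nonneg f2 ⟨zero_le_one, le_rfl⟩ p4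
  have albe : fderiv ℝ f p (1, 0) + fderiv ℝ f p (0, 1) ≤ 1 := by
    have g1 : ‖fderiv ℝ f p‖ ≤ 1 := by
      have := norm_fderiv_le_of_lipschitz ℝ f1 (x₀ := p)
      simpa using this
    rw [← map_add]
    have g2 : ((1 : ℝ), (0 : ℝ)) + (0, 1) = (1, 1) := by ext <;> simp
    rw [g2]
    have g3 : ‖((1 : ℝ), (1 : ℝ))‖ = 1 := by simp [Prod.norm_def]
    have g4 := (fderiv ℝ f p).le_opNorm (1, 1)
    rw [g3, mul_one, Real.norm_eq_abs] at g4
    exact (le_abs_self _).trans (g4.trans g1)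
  -- the affine cell of the target
  have hcell : ∀ X : ℝ, 0 < X → X ≤ d → ∀ᶠ n in (U : Filter ℕ),
      Affn (a n) ε p X (fderiv ℝ f p (1, 0)) (fderiv ℝ f p (0, 1)) := by
    intro X hX hXd
    filter_upwards [f4 p X (ε * X / 8) (by positivity)] with n e3 p' hp'
    have e5 := hd p' (hp'.trans hXd)
    have e6 := e3 p' hp'
    have e7 := e3 p (by rw [dist_self]; exact hX.le)
    have e8 : ε / 2 * dist p' p ≤ ε / 2 * X := mul_le_mul_of_nonneg_left hp' (half_pos hε).le
    have e9 : a n p' - a n p - (fderiv ℝ f p (1, 0) * (p'.1 - p.1) +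
        fderiv ℝ f p (0, 1) * (p'.2 - p.2)) = (a n p' - f p') - (a n p - f p) +
        (f p' - f p - (fderiv ℝ f p (1, 0) * (p'.1 - p.1) +
          fderiv ℝ f p (0, 1) * (p'.2 - p.2))) := by ring
    rw [e9]
    have t1 := abs_add_le ((a n p' - f p') - (a n p - f p)) (f p' - f p -
      (fderiv ℝ f p (1, 0) * (p'.1 - p.1) + fderiv ℝ f p (0, 1) * (p'.2 - p.2)))
    have t2 := abs_sub (a n p' - f p') (a n p - f p)
    have t3 : 0 ≤ ε * X := mul_nonneg hε.le hX.le
    linarith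
  have hsmall : ∀ X : ℝ, 0 < X → ∀ᶠ n : ℕ in (U : Filter ℕ), 1 / ((n : ℝ) + 1) ≤ X := by
    intro X hX
    have : Tendsto (fun n : ℕ => 1 / ((n : ℝ) + 1)) atTop (𝓝 0) :=
      tendsto_one_div_add_atTop_nhds_zero_nat
    have h6 := hUt ((tendsto_order.1 this).2 X hX)
    filter_upwards [h6] with n hn using hn.le
  have hle : ∀ c : ℝ, 0 < c → ∀ᶠ X in 𝓝[>] (0 : ℝ), X ≤ c := fun c hc =>
    (nhdsWithin_le_nhds (Iic_mem_nhds hc))
  rcases p6 with p6 | p6
  · have hXex : ∀ᶠ X in 𝓝[>] (0 : ℝ), 0 < X ∧ X ≤ d ∧ X ≤ p.2 ∧ X ≤ 1 - p.2 ∧ X ≤ 1 / 2 :=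
      (eventually_mem_nhdsWithin (s := Ioi (0 : ℝ))).and ((hle d hd0).and ((hle _ p2).and
        ((hle _ (by linarith)).and (hle _ (by norm_num)))))
    obtain ⟨X, hX0, hXd, hX2, hX3, hX1⟩ := hXex.exists
    obtain ⟨n, e1, e2⟩ := ((hcell X hX0 hXd).and (hsmall X hX0)).exists
    exact k7 n p X _ _ (by linarith) e2 hX2 (by linarith) hX1 al0 p5.le albe e1 (Or.inl p6)
  have hlev : ∀ j, ∃ X₀ : ℝ, 0 < X₀ ∧ ∀ X : ℝ, 0 < X → X ≤ X₀ →
      ∃ (G : Finset (ℝ × ℝ)) (η : ℝ), 0 < η ∧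
        (∀ z ∈ G, dist z (f p - p.2, p.2) ≤ 2 * X) ∧
        ∀ g : ℝ × ℝ → ℝ, (∀ y y', y ≤ y' → dist y (f p - p.2, p.2) ≤ 2 * X →
          dist y' (f p - p.2, p.2) ≤ 2 * X → g y ≤ g y') →
          (∀ z ∈ G, |g z - Rb j z| ≤ η) → ∀ p', dist p' (f p - p.2, p.2) ≤ X →
            |g p' - Rb j (f p - p.2, p.2) - (fderiv ℝ (Rb j) (f p - p.2, p.2) (1, 0) *
              (p'.1 - (f p - p.2)) + fderiv ℝ (Rb j) (f p - p.2, p.2) (0, 1) *
              (p'.2 - p.2))| ≤ ε / 8 * X := fun j =>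
    near_diff (p6 j).1 (by positivity)
  choose X₀ hX₀ hlev using hlev
  have hXex : ∀ᶠ X in 𝓝[>] (0 : ℝ), 0 < X ∧ X ≤ d ∧ X ≤ p.2 ∧ X ≤ 1 - p.2 ∧ X ≤ 1 / 2 ∧
      ∀ j, X ≤ X₀ j / 4 := by
    exact (eventually_mem_nhdsWithin (s := Ioi (0 : ℝ))).and ((hle d hd0).and ((hle _ p2).and
      ((hle _ (by linarith)).and ((hle _ (by norm_num)).and
        (Filter.eventually_all.2 fun j => hle _ (by have := hX₀ j; positivity))))))
  obtain ⟨X, hX0, hXd, hX2, hX3, hX1, hXj⟩ := hXex.exists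
  have hη := fun j => hlev j (4 * X) (by linarith) (by have := hXj j; linarith)
  choose G η hη0 hηd hη using hη
  -- the grid of the box
  obtain ⟨κ, hκ⟩ : ∃ κ, κ = min (ε * X / (4 * (T + 1))) X := ⟨_, rfl⟩
  have hκ0 : 0 < κ := by
    rw [hκ]
    exact lt_min (by positivity) hX0
  have hκ1 : T * κ ≤ ε * X / 4 := by
    have h1 : κ ≤ ε * X / (4 * (T + 1)) := by rw [hκ]; exact min_le_left _ _
    rw [le_div_iff₀ (by positivity)] at h1
    linarith
  obtain ⟨G₂, hG₂⟩ := grid_near (L := 4 + C / T) hκ0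
  have hεX : 0 < ε * X := by positivity
  have e1 : ∀ᶠ n in (U : Filter ℕ), ∀ j, ∀ z ∈ G j, |R n j z - Rb j z| ≤ η j := by
    refine Filter.eventually_all.2 fun j => ?_
    rw [Filter.eventually_all_finset]
    intro z _
    have := Metric.tendsto_nhds.1 (g1 j z) (η j) (hη0 j)
    filter_upwards [this] with n hn
    rw [Real.dist_eq] at hn
    exact hn.le
  have e1' : ∀ᶠ n in (U : Filter ℕ), ∀ j, ∀ z ∈ G₂, |R n j z - Rb j z| ≤ ε * X / 4 := by
    refine Filter.eventually_all.2 fun j => ?_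
    rw [Filter.eventually_all_finset]
    intro z _
    have := Metric.tendsto_nhds.1 (g1 j z) (ε * X / 4) (by positivity)
    filter_upwards [this] with n hn
    rw [Real.dist_eq] at hn
    exact hn.le
  have e2 : ∀ᶠ n in (U : Filter ℕ), ∀ p', dist p' p ≤ 0 → |a n p' - f p'| ≤ X := f4 p 0 X hX0
  obtain ⟨n, c1, c2, c3, c3', c4⟩ := ((hcell X hX0 hXd).and ((hsmall X hX0).and
    (e1.and (e1'.and e2)))).exists
  refine k7 n p X _ _ (by linarith) c2 hX2 (by linarith) hX1 al0 p5.le albe c1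
    (Or.inr fun j => ?_)
  obtain ⟨hder, hcalm⟩ := p6 j
  obtain ⟨hs1, hs2⟩ := calm_slope hT.le hder hcalm
  have c5 := c4 p (by rw [dist_self])
  obtain ⟨lam, hlam⟩ : ∃ lam, lam = fderiv ℝ (Rb j) (f p - p.2, p.2) (1, 0) := ⟨_, rfl⟩
  obtain ⟨mu, hmu⟩ : ∃ mu, mu = fderiv ℝ (Rb j) (f p - p.2, p.2) (0, 1) := ⟨_, rfl⟩
  have hA := hη j (R n j) (fun y y' hy _ _ => k5 n j hy) (c3 j)
  have l0 : 0 ≤ lam := by
    rw [hlam]
    exact fderiv_nonneg (g2 j) ⟨zero_le_one, le_rfl⟩ hder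
  have m0 : 0 ≤ mu := by
    rw [hmu]
    exact fderiv_nonneg (g2 j) ⟨le_rfl, zero_le_one⟩ hder
  rw [← hlam] at hs1
  rw [← hmu] at hs2
  rw [← hlam, ← hmu] at hA
  have d1 : dist (a n p - p.2, p.2) (f p - p.2, p.2) ≤ X := by
    rw [Prod.dist_eq, Real.dist_eq, Real.dist_eq]
    simp only [sub_self, abs_zero]
    refine max_le ?_ hX0.le
    have : a n p - p.2 - (f p - p.2) = a n p - f p := by ring
    rw [this]
    exact c5
  refine ⟨⟨lam, mu, l0, hs1, m0, hs2, fun p' hp' => ?_⟩, fun y' z hy' => ?_⟩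
  · have d2 : dist p' (f p - p.2, p.2) ≤ 2 * X :=
      (dist_triangle p' (a n p - p.2, p.2) _).trans (by linarith)
    have b1 := hA p' (by linarith)
    have b2 := hA (a n p - p.2, p.2) (by linarith)
    simp only at b1 b2 ⊢
    rw [abs_le] at b1 b2 ⊢
    constructor <;> linarith [b1.1, b1.2, b2.1, b2.2]
  · have d2 : dist y' (f p - p.2, p.2) ≤ 2 * X :=
      (dist_triangle y' (a n p - p.2, p.2) _).trans (by linarith)
    have b1 := hA y' (by linarith)
    have t0 : 0 ≤ T * dist z y' := mul_nonneg hT.le dist_nonneg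
    -- bound of an affine increment
    have haf : ∀ y₁ y₂ : ℝ × ℝ, |lam * (y₁.1 - y₂.1) + mu * (y₁.2 - y₂.2)| ≤
        2 * (T * dist y₁ y₂) := by
      intro y₁ y₂
      have i1 : |y₁.1 - y₂.1| ≤ dist y₁ y₂ := by
        rw [Prod.dist_eq, Real.dist_eq]
        exact le_max_left _ _
      have i2 : |y₁.2 - y₂.2| ≤ dist y₁ y₂ := by
        rw [Prod.dist_eq, Real.dist_eq, Real.dist_eq]
        exact le_max_right _ _
      refine (abs_add_le _ _).trans ?_
      rw [abs_mul, abs_mul, abs_of_nonneg l0, abs_of_nonneg m0]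
      have i3 := mul_le_mul hs1 i1 (abs_nonneg _) hT.le
      have i4 := mul_le_mul hs2 i2 (abs_nonneg _) hT.le
      linarith
    rcases le_or_gt (C / T) (dist z y') with hzz | hzz
    · rw [div_le_iff₀ hT] at hzz
      have i1 := abs_le.1 (k6 n j z)
      have i2 := abs_le.1 (k6 n j y')
      rw [abs_le]
      constructor <;> nlinarith [i1.1, i1.2, i2.1, i2.2]
    have hfp : |f p| ≤ 1 := by
      have i1 := f1.dist_le_mul p (0, 0)
      rw [Real.dist_eq, f5, sub_zero, NNReal.coe_one, one_mul, Prod.dist_eq, Real.dist_eq,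
        Real.dist_eq, sub_zero, sub_zero, abs_of_pos p2] at i1
      exact i1.trans (max_le (by linarith) p3.le)
    have hy4 : |y'.1| ≤ 4 ∧ |y'.2| ≤ 4 := by
      rw [Prod.dist_eq, Real.dist_eq, Real.dist_eq] at d2
      have i1 := abs_le.1 ((le_max_left _ _).trans d2)
      have i2 := abs_le.1 ((le_max_right _ _).trans d2)
      simp only at i1 i2
      rw [abs_le] at hfp
      rw [abs_le, abs_le]
      refine ⟨⟨?_, ?_⟩, ?_, ?_⟩ <;> linarith [i1.1, i1.2, i2.1, i2.2, hfp.1, hfp.2]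
    have hz4 : |z.1| ≤ 4 + C / T ∧ |z.2| ≤ 4 + C / T := by
      have i3 := hzz.le
      rw [Prod.dist_eq, Real.dist_eq, Real.dist_eq] at i3
      have i1 := (le_max_left _ _).trans i3
      have i2 := (le_max_right _ _).trans i3
      have i4 := abs_add_le (z.1 - y'.1) y'.1
      have i5 := abs_add_le (z.2 - y'.2) y'.2
      rw [sub_add_cancel] at i4 i5
      exact ⟨by linarith [hy4.1], by linarith [hy4.2]⟩
    rcases le_or_gt (dist z (f p - p.2, p.2)) (4 * X) with hz | hz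
    · have b2 := hA z hz
      have i1 := haf z y'
      rw [abs_le] at b1 b2 i1 ⊢
      constructor <;> nlinarith [b1.1, b1.2, b2.1, b2.2, i1.1, i1.2]
    · have i0 := dist_triangle z y' (f p - p.2, p.2)
      have i1 := haf y' (f p - p.2, p.2)
      have i2 : T * dist y' (f p - p.2, p.2) ≤ T * (2 * X) := mul_le_mul_of_nonneg_left d2 hT.le
      have i3 : T * (2 * X) ≤ T * dist z y' := mul_le_mul_of_nonneg_left (by linarith) hT.le
      -- the value at `z`
      obtain ⟨⟨z', hz', hz1, hz2⟩, z'', hz'', hz3, hz5⟩ := hG₂ z hz4.1 hz4.2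
      have j1 := c3' j z' hz'
      have j2 := c3' j z'' hz''
      have j3 := k5 n j hz1
      have j4 := k5 n j hz3
      have j5 := hcalm z'
      have j6 := hcalm z''
      have j7 : T * dist z' (f p - p.2, p.2) ≤ T * (dist z y' + 2 * X + κ) := by
        refine mul_le_mul_of_nonneg_left ?_ hT.le
        have := dist_triangle z' z (f p - p.2, p.2)
        linarith
      have j8 : T * dist z'' (f p - p.2, p.2) ≤ T * (dist z y' + 2 * X + κ) := by
        refine mul_le_mul_of_nonneg_left ?_ hT.le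
        have := dist_triangle z'' z (f p - p.2, p.2)
        linarith
      have j9 : T * (dist z y' + 2 * X + κ) = T * dist z y' + T * (2 * X) + T * κ := by ring
      rw [j9] at j7 j8
      simp only at b1 i1
      rw [abs_le] at b1 i1 j1 j2 j5 j6 ⊢
      constructor <;> linarith [b1.1, b1.2, i1.1, i1.2, j1.1, j1.2, j2.1, j2.2, j5.1, j5.2,
        j6.1, j6.2]

/-- **Joint blow-up** with calm levels. -/
theorem blowK {ι : Type*} [Fintype ι] {ε₀ ε s T C : ℝ} (h0 : 0 < ε₀) (hε : 0 < ε)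
    (hs : 0 < s) (hT : 0 < T) (hC : 0 ≤ C)
    (hsm : Fintype.card ι * (20 * C / T) < s * (ε₀ / 4 * (ε₀ / 4))) : ∃ δ : ℝ, 0 < δ ∧
    ∀ (a : ℝ × ℝ → ℝ) (R : ι → ℝ × ℝ → ℝ), LipschitzWith 1 a → Monotone a →
      ∀ (Q r : ℝ) (V : ι → ℝ), 0 < r → ε₀ * r ≤ a (Q, r) - a (Q, 0) →
      (∀ j, Monotone (R j)) → (∀ j p, |R j p - V j| ≤ C * r) →
      ∃ (p : ℝ × ℝ) (X al be : ℝ), |p.1 - Q| ≤ r ∧ δ * r ≤ X ∧ X ≤ p.2 ∧ p.2 + X ≤ r ∧
        |a p - p.2 - a (Q, 0)| + X ≤ 2 * r ∧ 0 ≤ al ∧ ε₀ / 2 ≤ be ∧ al + be ≤ 1 ∧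
        Affn a ε p X al be ∧ (al ≤ s ∨ ∀ j, (∃ lam mu : ℝ, 0 ≤ lam ∧ lam ≤ T ∧ 0 ≤ mu ∧
          mu ≤ T ∧ Affn (R j) ε (a p - p.2, p.2) X lam mu) ∧
            CalmB (R j) ε (4 * T) (a p - p.2, p.2) X) := by
  obtain ⟨δ, hδ, H⟩ := blowK1 (ι := ι) h0 hε hs hT hC hsm
  refine ⟨δ, hδ, fun a R ha hm Q r V hr hQ hR hRb => ?_⟩
  obtain ⟨g, hg⟩ : ∃ g, g = a (Q, 0) := ⟨_, rfl⟩
  rw [← hg] at hQ ⊢
  obtain ⟨p, X, al, be, h1, h2, h3, h4, h4', h5, h6, h7, h8, h9⟩ := H (resc a Q r)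
    (fun j => rsc (R j) g (V j) r) (resc_lip ha Q hr) (resc_mono hm Q hr)
    (by unfold resc; simp) (by
      unfold resc
      simp only [mul_zero, mul_one, add_zero]
      rw [le_div_iff₀ hr, ← hg]
      exact hQ) (fun j y y' hy => by
      unfold rsc
      refine div_le_div_of_nonneg_right (sub_le_sub_right (hR j ⟨?_, ?_⟩) _) hr.le
      · exact add_le_add_right (mul_le_mul_of_nonneg_left hy.1 hr.le) g
      · exact mul_le_mul_of_nonneg_left hy.2 hr.le) (fun j y => by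
      unfold rsc
      rw [abs_div, abs_of_pos hr, div_le_iff₀ hr]
      exact hRb j _)
  have hp2 : 0 < p.2 := lt_of_lt_of_le (hδ.trans_le h2) h3
  -- the window of the point
  have hres : resc a Q r p = (a (Q + r * p.1, r * p.2) - g) / r := by
    unfold resc
    rw [hg]
  have hap : a (Q + r * p.1, r * p.2) = g + r * resc a Q r p := by
    rw [hres]
    field_simp
    ring
  have hab : |resc a Q r p| ≤ 1 := by
    have e4 := (resc_lip ha Q hr).dist_le_mul p (0, 0)
    have e0 : resc a Q r (0, 0) = 0 := by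
      unfold resc
      simp
    rw [Real.dist_eq, e0, sub_zero, NNReal.coe_one, one_mul, Prod.dist_eq, Real.dist_eq,
      Real.dist_eq] at e4
    simp only [sub_zero] at e4
    refine e4.trans (max_le (by linarith) ?_)
    rw [abs_of_pos hp2]
    linarith
  have hlow : -(1 / 8) ≤ resc a Q r p := by
    have e5 : resc a Q r (-(1 / 8), 0) ≤ resc a Q r p := by
      refine resc_mono hm Q hr ⟨?_, ?_⟩
      · show -(1 / 8) ≤ p.1
        linarith [(abs_le.1 h1).1]
      · exact hp2.le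
    have e4 := (resc_lip ha Q hr).dist_le_mul (-(1 / 8), 0) (0, 0)
    have e0 : resc a Q r (0, 0) = 0 := by
      unfold resc
      simp
    rw [Real.dist_eq, e0, sub_zero, NNReal.coe_one, one_mul, Prod.dist_eq, Real.dist_eq,
      Real.dist_eq] at e4
    simp only [sub_zero, abs_zero, abs_neg] at e4
    have e6 : max |(1 : ℝ) / 8| 0 ≤ 1 / 8 := by
      rw [abs_of_pos (by norm_num)]
      exact max_le le_rfl (by norm_num)
    have := (abs_le.1 (e4.trans e6)).1
    linarith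
  have hwin : |resc a Q r p - p.2| + X ≤ 2 := by
    have e1 := (abs_le.1 hab).2
    have : |resc a Q r p - p.2| ≤ 3 / 2 := by
      rw [abs_le]
      constructor <;> linarith
    linarith
  refine ⟨(Q + r * p.1, r * p.2), r * X, al, be, ?_, ?_, ?_, ?_, ?_, h5, h6, h7, h8.resc hr, ?_⟩
  · show |Q + r * p.1 - Q| ≤ r
    rw [add_sub_cancel_left, abs_mul, abs_of_pos hr]
    calc r * |p.1| ≤ r * 1 := mul_le_mul_of_nonneg_left (by linarith) hr.le
      _ = r := mul_one r
  · rw [mul_comm]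
    exact mul_le_mul_of_nonneg_left h2 hr.le
  · exact mul_le_mul_of_nonneg_left h3 hr.le
  · show r * p.2 + r * X ≤ r
    have := mul_le_mul_of_nonneg_left h4 hr.le
    rw [mul_one, mul_add] at this
    exact this
  · show |a (Q + r * p.1, r * p.2) - r * p.2 - g| + r * X ≤ 2 * r
    rw [hap]
    have e1 : g + r * resc a Q r p - r * p.2 - g = r * (resc a Q r p - p.2) := by ring
    rw [e1, abs_mul, abs_of_pos hr]
    nlinarith
  · rcases h9 with h9 | h9
    · exact Or.inl h9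
    · refine Or.inr fun j => ?_
      obtain ⟨⟨lam, mu, c1, c2, c3, c4, c5⟩, d5⟩ := h9 j
      have e2 : g + r * (resc a Q r p - p.2) = a (Q + r * p.1, r * p.2) - r * p.2 := by
        rw [hap]
        ring
      refine ⟨⟨lam, mu, c1, c2, c3, c4, ?_⟩, ?_⟩
      · have c8 := c5.rsc hr
        simp only at c8
        rw [e2] at c8
        exact c8
      · intro y' z hy'
        -- the rescaled points
        have hd : ∀ u v : ℝ × ℝ, dist ((u.1 - g) / r, u.2 / r) ((v.1 - g) / r, v.2 / r) =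
            dist u v / r := by
          intro u v
          rw [Prod.dist_eq, Prod.dist_eq, Real.dist_eq, Real.dist_eq, Real.dist_eq,
            Real.dist_eq]
          simp only
          have e1 : (u.1 - g) / r - (v.1 - g) / r = (u.1 - v.1) / r := by ring
          have e3 : u.2 / r - v.2 / r = (u.2 - v.2) / r := by ring
          rw [e1, e3, abs_div, abs_div, abs_of_pos hr, max_div_div_right hr.le]
        have hb : ∀ u : ℝ × ℝ, (g + r * ((u.1 - g) / r), r * (u.2 / r)) = u := by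
          intro u
          ext
          · show g + r * ((u.1 - g) / r) = u.1
            field_simp
            ring
          · show r * (u.2 / r) = u.2
            field_simp
        have hyd : dist ((y'.1 - g) / r, y'.2 / r) (resc a Q r p - p.2, p.2) ≤ X := by
          have e3 : (resc a Q r p - p.2, p.2) =
              (((a (Q + r * p.1, r * p.2) - r * p.2) - g) / r, (r * p.2) / r) := by
            rw [← e2]
            ext
            · show resc a Q r p - p.2 = (g + r * (resc a Q r p - p.2) - g) / r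
              field_simp
              ring
            · show p.2 = r * p.2 / r
              field_simp
          rw [e3, hd y' (a (Q + r * p.1, r * p.2) - r * p.2, r * p.2), div_le_iff₀ hr,
            mul_comm X]
          exact hy'
        have d6 := d5 ((y'.1 - g) / r, y'.2 / r) ((z.1 - g) / r, z.2 / r) hyd
        unfold rsc at d6
        simp only [hb, hd] at d6
        have e7 : (R j z - V j) / r - (R j y' - V j) / r = (R j z - R j y') / r := by ring
        rw [e7, abs_div, abs_of_pos hr, div_le_iff₀ hr] at d6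
        have e8 : (4 * T * (dist z y' / r) + ε * X) * r = 4 * T * dist z y' + ε * (r * X) := by
          field_simp
        rw [e8] at d6
        exact d6

end Pool.STR
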