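import Pool.Agent.H76.GN.Lev

/-!
# Monotone functions of two variables

`ae_diff2`: a function of two variables which is monotone in each variable is differentiable almost
everywhere. The graph of `f (w, q) + w + q` is parametrised by a Lipschitz map.
`near_diff`: a sequence of monotone functions which converges at every point is, near a point where
the limit is differentiable, close to the derivative.
-/

set_option autoImplicit false

namespace Pool.STR

open MeasureTheory Set Filter Topology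
open scoped ENNReal NNReal

/-- Lipschitz maps of the plane map null sets to null sets. -/
theorem image_null2 {f : ℝ × ℝ → ℝ × ℝ} {K : ℝ≥0} (hl : LipschitzWith K f) {B : Set (ℝ × ℝ)}
    (hB : volume B = 0) : volume (f '' B) = 0 := by
  have h1 := hl.hausdorffMeasure_image_le (d := 2) zero_le_two B
  rw [hausdorffMeasure_prod_real, hB, mul_zero] at h1
  exact le_antisymm h1 zero_le

section

variable {F : ℝ × ℝ → ℝ}

/-- The parameter of the level `P.1` on the diagonal line `w - q = 2 P.2`. -/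
noncomputable def cpar (F : ℝ × ℝ → ℝ) (P : ℝ × ℝ) : ℝ :=
  sInf {x : ℝ | P.1 ≤ F (x + P.2, x - P.2)}

/-- The increase along the diagonal lines. -/
def Inc2 (F : ℝ × ℝ → ℝ) : Prop :=
  Monotone F ∧ ∀ w q v : ℝ, 0 ≤ v → F (w, q) + 2 * v ≤ F (w + v, q + v)

theorem Inc2.diag (hF : Inc2 F) (x t : ℝ) {v : ℝ} (hv : 0 ≤ v) :
    F (x + t, x - t) + 2 * v ≤ F (x + v + t, x + v - t) := by
  have h1 := hF.2 (x + t) (x - t) v hv
  have e1 : x + t + v = x + v + t := by ring
  have e2 : x - t + v = x + v - t := by ring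
  rwa [e1, e2] at h1

theorem cpar_ne (hF : Inc2 F) (P : ℝ × ℝ) : {x : ℝ | P.1 ≤ F (x + P.2, x - P.2)}.Nonempty := by
  obtain ⟨v, hv⟩ : ∃ v, v = |P.1 - F (0 + P.2, 0 - P.2)| := ⟨_, rfl⟩
  refine ⟨0 + v, ?_⟩
  have h0 : 0 ≤ v := by rw [hv]; exact abs_nonneg _
  have h1 := hF.diag 0 P.2 h0
  have h2 := le_abs_self (P.1 - F (0 + P.2, 0 - P.2))
  rw [← hv] at h2
  show P.1 ≤ F (0 + v + P.2, 0 + v - P.2)
  linarith

theorem cpar_bdd (hF : Inc2 F) (P : ℝ × ℝ) :
    BddBelow {x : ℝ | P.1 ≤ F (x + P.2, x - P.2)} := by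
  obtain ⟨v, hv⟩ : ∃ v, v = |P.1 - F (0 + P.2, 0 - P.2)| := ⟨_, rfl⟩
  have h0 : 0 ≤ v := by rw [hv]; exact abs_nonneg _
  refine ⟨-v, fun x hx => ?_⟩
  by_contra hc
  push Not at hc
  have hx' : P.1 ≤ F (x + P.2, x - P.2) := hx
  have h1 := hF.diag x P.2 (v := -x) (by linarith)
  have e1 : x + -x = 0 := by ring
  rw [e1] at h1
  have h2 := neg_abs_le (P.1 - F (0 + P.2, 0 - P.2))
  rw [← hv] at h2
  linarith

theorem lt_of_lt_cpar (hF : Inc2 F) {Q t x : ℝ} (h : x < cpar F (Q, t)) : F (x + t, x - t) < Q := by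
  by_contra hc
  push Not at hc
  exact absurd (csInf_le (cpar_bdd hF (Q, t)) hc) (not_le.2 h)

theorem le_of_cpar_lt (hF : Inc2 F) {Q t x : ℝ} (h : cpar F (Q, t) < x) :
    Q ≤ F (x + t, x - t) := by
  obtain ⟨y, hy, hyx⟩ := exists_lt_of_csInf_lt (cpar_ne hF (Q, t)) h
  have hy' : Q ≤ F (y + t, y - t) := hy
  refine hy'.trans (hF.1 ⟨?_, ?_⟩)
  · show y + t ≤ x + t
    linarith
  · show y - t ≤ x - t
    linarith

theorem cpar_self (hF : Inc2 F) (x t : ℝ) : cpar F (F (x + t, x - t), t) = x := by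
  refine le_antisymm (csInf_le (cpar_bdd hF _) (show F (x + t, x - t) ≤ F (x + t, x - t) from
    le_rfl)) (le_csInf (cpar_ne hF _) fun y hy => ?_)
  by_contra hc
  push Not at hc
  have hy' : F (x + t, x - t) ≤ F (y + t, y - t) := hy
  have h1 := hF.diag y t (v := x - y) (by linarith)
  have e1 : y + (x - y) = x := by ring
  rw [e1] at h1
  linarith

theorem cpar_le (hF : Inc2 F) (P P' : ℝ × ℝ) :
    cpar F P' ≤ cpar F P + (|P'.1 - P.1| / 2 + |P'.2 - P.2|) := by
  have h0 : cpar F P' - (|P'.1 - P.1| / 2 + |P'.2 - P.2|) ≤ cpar F P := by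
    refine le_csInf (cpar_ne hF P) fun x hx => ?_
    have hx' : P.1 ≤ F (x + P.2, x - P.2) := hx
    rw [sub_le_iff_le_add]
    refine csInf_le (cpar_bdd hF P') ?_
    show P'.1 ≤ F (x + (|P'.1 - P.1| / 2 + |P'.2 - P.2|) + P'.2,
      x + (|P'.1 - P.1| / 2 + |P'.2 - P.2|) - P'.2)
    have h1 := hF.diag x P.2 (v := |P'.1 - P.1| / 2) (by positivity)
    have h2 := le_abs_self (P'.1 - P.1)
    have h3 := abs_le.1 (le_refl |P'.2 - P.2|)
    have h4 : F (x + |P'.1 - P.1| / 2 + P.2, x + |P'.1 - P.1| / 2 - P.2) ≤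
        F (x + (|P'.1 - P.1| / 2 + |P'.2 - P.2|) + P'.2,
          x + (|P'.1 - P.1| / 2 + |P'.2 - P.2|) - P'.2) := hF.1 ⟨by
      show x + |P'.1 - P.1| / 2 + P.2 ≤ x + (|P'.1 - P.1| / 2 + |P'.2 - P.2|) + P'.2
      linarith [h3.1], by
      show x + |P'.1 - P.1| / 2 - P.2 ≤ x + (|P'.1 - P.1| / 2 + |P'.2 - P.2|) - P'.2
      linarith [h3.2]⟩
    linarith
  linarith

theorem cpar_lip (hF : Inc2 F) : LipschitzWith 2 (cpar F) := by
  refine LipschitzWith.of_dist_le_mul fun P P' => ?_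
  have h1 := cpar_le hF P P'
  have h2 := cpar_le hF P' P
  rw [Real.dist_eq, Prod.dist_eq, Real.dist_eq, Real.dist_eq]
  have h3 := le_max_left |P.1 - P'.1| |P.2 - P'.2|
  have h4 := le_max_right |P.1 - P'.1| |P.2 - P'.2|
  rw [abs_sub_comm P'.1 P.1, abs_sub_comm P'.2 P.2] at h1
  have h5 : (0 : ℝ) ≤ |P.1 - P'.1| := abs_nonneg _
  have e : ((2 : ℝ≥0) : ℝ) = 2 := rfl
  rw [e, abs_le]
  constructor <;> linarith

/-- The parametrisation. -/
noncomputable def parm (F : ℝ × ℝ → ℝ) (P : ℝ × ℝ) : ℝ × ℝ := (cpar F P + P.2, cpar F P - P.2)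

theorem parm_lip (hF : Inc2 F) : LipschitzWith 3 (parm F) := by
  refine LipschitzWith.of_dist_le_mul fun P P' => ?_
  have h1 := (cpar_lip hF).dist_le_mul P P'
  have e : ((2 : ℝ≥0) : ℝ) = 2 := rfl
  have e3 : ((3 : ℝ≥0) : ℝ) = 3 := rfl
  have h2 : |P.2 - P'.2| ≤ dist P P' := by
    rw [Prod.dist_eq, Real.dist_eq, Real.dist_eq]
    exact le_max_right _ _
  rw [e, Real.dist_eq] at h1
  rw [e3, Prod.dist_eq, Real.dist_eq, Real.dist_eq]
  show max |cpar F P + P.2 - (cpar F P' + P'.2)| |cpar F P - P.2 - (cpar F P' - P'.2)| ≤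
    3 * dist P P'
  rw [abs_le] at h1 h2
  refine max_le ?_ ?_
  · rw [abs_le]
    constructor <;> linarith [h1.1, h1.2, h2.1, h2.2]
  · rw [abs_le]
    constructor <;> linarith [h1.1, h1.2, h2.1, h2.2]

/-- The inverse. -/
noncomputable def pinv (F : ℝ × ℝ → ℝ) (y : ℝ × ℝ) : ℝ × ℝ := (F y, (y.1 - y.2) / 2)

theorem parm_pinv (hF : Inc2 F) (y : ℝ × ℝ) : parm F (pinv F y) = y := by
  obtain ⟨w, q⟩ := y
  have h1 := cpar_self hF ((w + q) / 2) ((w - q) / 2)
  have e1 : (w + q) / 2 + (w - q) / 2 = w := by ring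
  have e2 : (w + q) / 2 - (w - q) / 2 = q := by ring
  rw [e1, e2] at h1
  unfold parm pinv
  simp only
  rw [h1, e1, e2]

/-- Differentiability at the images of the points with an invertible derivative. -/
theorem diff_of_det (hF : Inc2 F) {y : ℝ × ℝ} (hd : DifferentiableAt ℝ (parm F) (pinv F y))
    (hdet : (fderiv ℝ (parm F) (pinv F y)).det ≠ 0) : DifferentiableAt ℝ F y := by
  obtain ⟨w, q⟩ := y
  obtain ⟨t, ht⟩ : ∃ t, t = (w - q) / 2 := ⟨_, rfl⟩
  obtain ⟨x, hx⟩ : ∃ x, x = (w + q) / 2 := ⟨_, rfl⟩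
  have hw : w = x + t := by rw [hx, ht]; ring
  have hq : q = x - t := by rw [hx, ht]; ring
  obtain ⟨Q, hQ⟩ : ∃ Q, Q = F (w, q) := ⟨_, rfl⟩
  have hP : pinv F (w, q) = (Q, t) := by
    unfold pinv
    rw [hQ, ht]
  rw [hP] at hd hdet
  obtain ⟨L, hL⟩ : ∃ L, L = fderiv ℝ (parm F) (Q, t) := ⟨_, rfl⟩
  have hd' : HasFDerivAt (parm F) L (Q, t) := by rw [hL]; exact hd.hasFDerivAt
  rw [← hL] at hdet
  -- the derivative of the parameter in the first direction
  have hc : HasDerivAt (fun s => cpar F (s, t)) (L (1, 0)).1 Q := by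
    have h1 : HasDerivAt (fun s : ℝ => ((s, t) : ℝ × ℝ)) (1, 0) Q :=
      (hasDerivAt_id Q).prodMk (hasDerivAt_const Q t)
    have h2 : HasDerivAt (fun s : ℝ => parm F (s, t)) (L (1, 0)) Q :=
      HasFDerivAt.comp_hasDerivAt (l := parm F) (l' := L) Q hd' h1
    have h3 : HasDerivAt (fun s : ℝ => (parm F (s, t)).1) (L (1, 0)).1 Q :=
      HasFDerivAt.comp_hasDerivAt (l := (Prod.fst : ℝ × ℝ → ℝ))
        (l' := ContinuousLinearMap.fst ℝ ℝ ℝ) Q hasFDerivAt_fst h2
    have h4 : (fun s : ℝ => (parm F (s, t)).1) = fun s => cpar F (s, t) + t := rfl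
    rw [h4] at h3
    have h5 := h3.sub_const t
    simpa using h5
  have hL2 : (L (1, 0)).1 = (L (1, 0)).2 := by
    have h1 : HasDerivAt (fun s : ℝ => ((s, t) : ℝ × ℝ)) (1, 0) Q :=
      (hasDerivAt_id Q).prodMk (hasDerivAt_const Q t)
    have h2 : HasDerivAt (fun s : ℝ => parm F (s, t)) (L (1, 0)) Q :=
      HasFDerivAt.comp_hasDerivAt (l := parm F) (l' := L) Q hd' h1
    have h3 : HasDerivAt (fun s : ℝ => (parm F (s, t)).2) (L (1, 0)).2 Q :=
      HasFDerivAt.comp_hasDerivAt (l := (Prod.snd : ℝ × ℝ → ℝ))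
        (l' := ContinuousLinearMap.snd ℝ ℝ ℝ) Q hasFDerivAt_snd h2
    have h4 : (fun s : ℝ => (parm F (s, t)).2) = fun s => cpar F (s, t) - t := rfl
    rw [h4] at h3
    have h5 := h3.add_const t
    have h6 : HasDerivAt (fun s => cpar F (s, t)) (L (1, 0)).2 Q := by simpa using h5
    exact hc.unique h6
  have hne : (L (1, 0)).1 ≠ 0 := by
    intro h0
    have h1 : L (1, 0) = 0 := by
      ext
      · exact h0
      · show (L (1, 0)).2 = 0
        rw [← hL2, h0]
    have h2 := (L.toContinuousLinearEquivOfDetNeZero hdet).injective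
    have h3 : (L.toContinuousLinearEquivOfDetNeZero hdet) (1, 0) =
        (L.toContinuousLinearEquivOfDetNeZero hdet) 0 := by
      rw [map_zero, ContinuousLinearMap.toContinuousLinearEquivOfDetNeZero_apply, h1]
    have h4 := h2 h3
    have h5 := congrArg Prod.fst h4
    simp at h5
  have hmono : Monotone fun s => cpar F (s, t) := by
    intro s s' hs
    refine csInf_le_csInf (cpar_bdd hF _) (cpar_ne hF _) fun z hz => ?_
    have hz' : s' ≤ F (z + t, z - t) := hz
    exact hs.trans hz'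
  have hpos : 0 < (L (1, 0)).1 := by
    refine lt_of_le_of_ne ?_ (Ne.symm hne)
    rw [← hc.deriv]
    exact hmono.deriv_nonneg
  have hcs : cpar F (Q, t) = x := by
    rw [hQ, hw, hq]
    exact cpar_self hF x t
  -- continuity
  have hcont : ContinuousAt F (w, q) := by
    rw [ContinuousAt, ← hQ]
    have hslope := hasDerivAt_iff_tendsto_slope.1 hc
    have hev : ∀ᶠ s in 𝓝[≠] Q, 0 < slope (fun s => cpar F (s, t)) Q s :=
      (tendsto_order.1 hslope).1 _ hpos
    have hcc : Continuous (cpar F) := (cpar_lip hF).continuous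
    refine tendsto_order.2 ⟨fun A hA => ?_, fun B hB => ?_⟩
    · -- below
      have h1 : ∃ s, A < s ∧ s < Q ∧ cpar F (s, t) < x := by
        have h2 : ∀ᶠ s in 𝓝[<] Q, 0 < slope (fun s => cpar F (s, t)) Q s :=
          hev.filter_mono (nhdsWithin_mono _ fun z hz => ne_of_lt hz)
        have h3 : ∀ᶠ s in 𝓝[<] Q, s ∈ Ioo A Q := Ioo_mem_nhdsLT hA
        obtain ⟨s, h4, h5⟩ := (h2.and h3).exists
        refine ⟨s, h5.1, h5.2, ?_⟩
        rw [slope_def_field, hcs] at h4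
        have h6 : s - Q < 0 := by linarith [h5.2]
        by_contra hcon
        push Not at hcon
        have : (cpar F (s, t) - x) / (s - Q) ≤ 0 := div_nonpos_of_nonneg_of_nonpos
          (by linarith) h6.le
        linarith
      obtain ⟨s, h1, h2, h3⟩ := h1
      have h4 : ∀ᶠ y in 𝓝 (w, q), cpar F (s, (y.1 - y.2) / 2) < (y.1 + y.2) / 2 := by
        have h5 : Tendsto (fun y : ℝ × ℝ => (y.1 + y.2) / 2 - cpar F (s, (y.1 - y.2) / 2))
            (𝓝 (w, q)) (𝓝 ((w + q) / 2 - cpar F (s, (w - q) / 2))) := by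
          have : Continuous fun y : ℝ × ℝ => (y.1 + y.2) / 2 - cpar F (s, (y.1 - y.2) / 2) :=
            ((continuous_fst.add continuous_snd).div_const 2).sub
              (hcc.comp (continuous_const.prodMk
                ((continuous_fst.sub continuous_snd).div_const 2)))
          exact this.tendsto (w, q)
        rw [← hx, ← ht] at h5
        filter_upwards [(tendsto_order.1 h5).1 0 (by linarith)] with y hy
        linarith
      filter_upwards [h4] with y hy
      have h5 := le_of_cpar_lt hF hy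
      have e1 : (y.1 + y.2) / 2 + (y.1 - y.2) / 2 = y.1 := by ring
      have e2 : (y.1 + y.2) / 2 - (y.1 - y.2) / 2 = y.2 := by ring
      rw [e1, e2] at h5
      exact lt_of_lt_of_le h1 h5
    · have h1 : ∃ s, s < B ∧ Q < s ∧ x < cpar F (s, t) := by
        have h2 : ∀ᶠ s in 𝓝[>] Q, 0 < slope (fun s => cpar F (s, t)) Q s :=
          hev.filter_mono (nhdsWithin_mono _ fun z hz => ne_of_gt hz)
        have h3 : ∀ᶠ s in 𝓝[>] Q, s ∈ Ioo Q B := Ioo_mem_nhdsGT hB
        obtain ⟨s, h4, h5⟩ := (h2.and h3).exists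
        refine ⟨s, h5.2, h5.1, ?_⟩
        rw [slope_def_field, hcs] at h4
        have h6 : 0 < s - Q := by linarith [h5.1]
        by_contra hcon
        push Not at hcon
        have : (cpar F (s, t) - x) / (s - Q) ≤ 0 := div_nonpos_of_nonpos_of_nonneg
          (by linarith) h6.le
        linarith
      obtain ⟨s, h1, h2, h3⟩ := h1
      have h4 : ∀ᶠ y in 𝓝 (w, q), (y.1 + y.2) / 2 < cpar F (s, (y.1 - y.2) / 2) := by
        have h5 : Tendsto (fun y : ℝ × ℝ => (y.1 + y.2) / 2 - cpar F (s, (y.1 - y.2) / 2))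
            (𝓝 (w, q)) (𝓝 ((w + q) / 2 - cpar F (s, (w - q) / 2))) := by
          have : Continuous fun y : ℝ × ℝ => (y.1 + y.2) / 2 - cpar F (s, (y.1 - y.2) / 2) :=
            ((continuous_fst.add continuous_snd).div_const 2).sub
              (hcc.comp (continuous_const.prodMk
                ((continuous_fst.sub continuous_snd).div_const 2)))
          exact this.tendsto (w, q)
        rw [← hx, ← ht] at h5
        filter_upwards [(tendsto_order.1 h5).2 0 (by linarith)] with y hy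
        linarith
      filter_upwards [h4] with y hy
      have h5 := lt_of_lt_cpar hF hy
      have e1 : (y.1 + y.2) / 2 + (y.1 - y.2) / 2 = y.1 := by ring
      have e2 : (y.1 + y.2) / 2 - (y.1 - y.2) / 2 = y.2 := by ring
      rw [e1, e2] at h5
      exact h5.trans h1
  have hpc : ContinuousAt (pinv F) (w, q) := by
    unfold pinv
    exact hcont.prodMk ((continuousAt_fst.sub continuousAt_snd).div_const 2)
  have hd'' : HasFDerivAt (parm F)
      ((L.toContinuousLinearEquivOfDetNeZero hdet : (ℝ × ℝ) ≃L[ℝ] (ℝ × ℝ)) :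
        (ℝ × ℝ) →L[ℝ] (ℝ × ℝ)) (pinv F (w, q)) := by
    rw [ContinuousLinearMap.coe_toContinuousLinearEquivOfDetNeZero, hP]
    exact hd'
  have h9 := HasFDerivAt.of_local_left_inverse hpc hd''
    (Eventually.of_forall fun y => parm_pinv hF y)
  have h10 : DifferentiableAt ℝ (fun y => (pinv F y).1) (w, q) :=
    h9.differentiableAt.fst
  exact h10

theorem ae_diff_inc (hF : Inc2 F) : ∀ᵐ y : ℝ × ℝ, DifferentiableAt ℝ F y := by
  have h1 : volume (parm F '' {P | ¬ DifferentiableAt ℝ (parm F) P}) = 0 := by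
    refine image_null2 (parm_lip hF) ?_
    have := (parm_lip hF).ae_differentiableAt (μ := volume)
    exact this
  have h2 : volume (parm F '' {P | DifferentiableAt ℝ (parm F) P ∧
      (fderiv ℝ (parm F) P).det = 0}) = 0 :=
    addHaar_image_eq_zero_of_det_fderivWithin_eq_zero volume
      (fun P hP => hP.1.hasFDerivAt.hasFDerivWithinAt) fun P hP => hP.2
  have h3 : volume {y | ¬ DifferentiableAt ℝ F y} = 0 := by
    refine measure_mono_null (fun y hy => ?_) (measure_union_null h1 h2)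
    by_cases h4 : DifferentiableAt ℝ (parm F) (pinv F y)
    · by_cases h5 : (fderiv ℝ (parm F) (pinv F y)).det = 0
      · exact Or.inr ⟨pinv F y, ⟨h4, h5⟩, parm_pinv hF y⟩
      · exact absurd (diff_of_det hF h4 h5) hy
    · exact Or.inl ⟨pinv F y, h4, parm_pinv hF y⟩
  exact h3

end

/-- **A function which is monotone in each of two variables is differentiable almost
everywhere.** -/
theorem ae_diff2 {f : ℝ × ℝ → ℝ} (hf : Monotone f) : ∀ᵐ y : ℝ × ℝ, DifferentiableAt ℝ f y := by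
  have hF : Inc2 fun y => f y + (y.1 + y.2) := by
    refine ⟨fun y y' hy => add_le_add (hf hy) (add_le_add hy.1 hy.2), fun w q v hv => ?_⟩
    have h1 : f (w, q) ≤ f (w + v, q + v) := hf ⟨by
      show w ≤ w + v
      linarith, by
      show q ≤ q + v
      linarith⟩
    show f (w, q) + (w + q) + 2 * v ≤ f (w + v, q + v) + (w + v + (q + v))
    linarith
  filter_upwards [ae_diff_inc hF] with y hy
  have h2 : DifferentiableAt ℝ (fun y : ℝ × ℝ => y.1 + y.2) y :=
    differentiableAt_fst.add differentiableAt_snd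
  have h3 := hy.sub h2
  have h4 : (fun y : ℝ × ℝ => f y + (y.1 + y.2)) - (fun y : ℝ × ℝ => y.1 + y.2) = f := by
    funext z
    show f z + (z.1 + z.2) - (z.1 + z.2) = f z
    ring
  rwa [h4] at h3


/-- **Monotone functions near a point of differentiability.** If a monotone function is close to
`f` at finitely many points, then it is close to the affine approximation of `f` on the ball. -/
theorem near_diff {f : ℝ × ℝ → ℝ} {P : ℝ × ℝ} (hd : DifferentiableAt ℝ f P) {ε : ℝ}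
    (hε : 0 < ε) : ∃ X₀ : ℝ, 0 < X₀ ∧ ∀ X : ℝ, 0 < X → X ≤ X₀ →
      ∃ (G : Finset (ℝ × ℝ)) (η : ℝ), 0 < η ∧ (∀ z ∈ G, dist z P ≤ 2 * X) ∧
        ∀ g : ℝ × ℝ → ℝ, (∀ y y', y ≤ y' → dist y P ≤ 2 * X → dist y' P ≤ 2 * X → g y ≤ g y') →
          (∀ z ∈ G, |g z - f z| ≤ η) → ∀ p', dist p' P ≤ X →
            |g p' - f P - (fderiv ℝ f P (1, 0) * (p'.1 - P.1) +
              fderiv ℝ f P (0, 1) * (p'.2 - P.2))| ≤ ε * X := by
  classical
  obtain ⟨al, hal⟩ : ∃ al, al = fderiv ℝ f P (1, 0) := ⟨_, rfl⟩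
  obtain ⟨be, hbe⟩ : ∃ be, be = fderiv ℝ f P (0, 1) := ⟨_, rfl⟩
  obtain ⟨d, hd0, hA⟩ := Pool.LEV.aff hd (show 0 < ε / 8 by positivity)
  rw [← hal, ← hbe] at hA ⊢
  obtain ⟨κ, hκ⟩ : ∃ κ, κ = min 1 (ε / (4 * (|al| + |be| + 1))) := ⟨_, rfl⟩
  have hab : 0 < |al| + |be| + 1 := by positivity
  have hκ0 : 0 < κ := by
    rw [hκ]
    exact lt_min one_pos (by positivity)
  have hκ1 : κ ≤ 1 := by rw [hκ]; exact min_le_left _ _
  have hκ2 : (|al| + |be|) * κ ≤ ε / 4 := by
    have h1 : κ ≤ ε / (4 * (|al| + |be| + 1)) := by rw [hκ]; exact min_le_right _ _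
    rw [le_div_iff₀ (by positivity)] at h1
    nlinarith
  obtain ⟨N, hN⟩ := exists_nat_ge (1 / κ)
  refine ⟨d / 2, half_pos hd0, fun X hX hXd => ?_⟩
  obtain ⟨s, hs⟩ : ∃ s, s = κ * X := ⟨_, rfl⟩
  have hs0 : 0 < s := by rw [hs]; positivity
  have hsX : s ≤ X := by rw [hs]; nlinarith
  obtain ⟨G, hG⟩ : ∃ G : Finset (ℝ × ℝ), G =
      (((Finset.Icc (-((N : ℤ) + 1)) ((N : ℤ) + 1)) ×ˢ
        (Finset.Icc (-((N : ℤ) + 1)) ((N : ℤ) + 1))).image
        fun i : ℤ × ℤ => ((P.1 + s * i.1, P.2 + s * i.2) : ℝ × ℝ)).filter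
        fun z => dist z P ≤ 2 * X := ⟨_, rfl⟩
  refine ⟨G, ε / 4 * X, by positivity, fun z hz => ?_, fun g hg hgf p' hp' => ?_⟩
  · rw [hG, Finset.mem_filter] at hz
    exact hz.2
  rw [Prod.dist_eq, Real.dist_eq, Real.dist_eq] at hp'
  have hp1 : |p'.1 - P.1| ≤ X := (le_max_left _ _).trans hp'
  have hp2 : |p'.2 - P.2| ≤ X := (le_max_right _ _).trans hp'
  -- the grid points around
  have key : ∀ x x₀ : ℝ, |x - x₀| ≤ X → ∃ i : ℤ, -(N : ℤ) ≤ i ∧ i ≤ (N : ℤ) ∧
      x₀ + s * i ≤ x ∧ x ≤ x₀ + s * (i + 1) := by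
    intro x x₀ hx
    refine ⟨⌊(x - x₀) / s⌋, ?_, ?_, ?_, ?_⟩
    · rw [Int.le_floor]
      push_cast
      rw [le_div_iff₀ hs0]
      have h1 : X ≤ N * s := by
        rw [div_le_iff₀ hκ0] at hN
        rw [hs]
        nlinarith
      nlinarith [(abs_le.1 hx).1]
    · have h2 : (⌊(x - x₀) / s⌋ : ℝ) ≤ N := by
        refine (Int.floor_le _).trans ?_
        rw [div_le_iff₀ hs0]
        have h1 : X ≤ N * s := by
          rw [div_le_iff₀ hκ0] at hN
          rw [hs]
          nlinarith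
        linarith [(abs_le.1 hx).2]
      exact_mod_cast h2
    · have h1 := Int.floor_le ((x - x₀) / s)
      rw [le_div_iff₀ hs0] at h1
      linarith
    · have h1 := (Int.lt_floor_add_one ((x - x₀) / s)).le
      rw [div_le_iff₀ hs0] at h1
      linarith
  obtain ⟨i, i1, i2, i3, i4⟩ := key p'.1 P.1 hp1
  obtain ⟨j, j1, j2, j3, j4⟩ := key p'.2 P.2 hp2
  obtain ⟨z, hz⟩ : ∃ z : ℝ × ℝ, z = (P.1 + s * i, P.2 + s * j) := ⟨_, rfl⟩
  obtain ⟨z', hz'⟩ : ∃ z : ℝ × ℝ, z = (P.1 + s * (i + 1), P.2 + s * (j + 1)) := ⟨_, rfl⟩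
  rw [abs_le] at hp1 hp2
  have hzd : |z.1 - p'.1| ≤ s ∧ |z.2 - p'.2| ≤ s ∧ dist z P ≤ 2 * X := by
    rw [hz, Prod.dist_eq, Real.dist_eq, Real.dist_eq]
    simp only
    refine ⟨?_, ?_, max_le ?_ ?_⟩ <;> rw [abs_le] <;> constructor <;> linarith
  have hzd' : |z'.1 - p'.1| ≤ s ∧ |z'.2 - p'.2| ≤ s ∧ dist z' P ≤ 2 * X := by
    rw [hz', Prod.dist_eq, Real.dist_eq, Real.dist_eq]
    simp only
    refine ⟨?_, ?_, max_le ?_ ?_⟩ <;> rw [abs_le] <;> constructor <;> linarith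
  have hzG : z ∈ G := by
    rw [hG, Finset.mem_filter, Finset.mem_image]
    refine ⟨⟨(i, j), ?_, hz.symm⟩, hzd.2.2⟩
    rw [Finset.mem_product, Finset.mem_Icc, Finset.mem_Icc]
    exact ⟨⟨by omega, by omega⟩, ⟨by omega, by omega⟩⟩
  have hzG' : z' ∈ G := by
    rw [hG, Finset.mem_filter, Finset.mem_image]
    refine ⟨⟨(i + 1, j + 1), ?_, ?_⟩, hzd'.2.2⟩
    · rw [Finset.mem_product, Finset.mem_Icc, Finset.mem_Icc]
      exact ⟨⟨by omega, by omega⟩, ⟨by omega, by omega⟩⟩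
    · rw [hz']
      push_cast
      rfl
  have hp'P : dist p' P ≤ 2 * X := by
    rw [Prod.dist_eq, Real.dist_eq, Real.dist_eq]
    refine max_le ?_ ?_ <;> rw [abs_le] <;> constructor <;> linarith
  have g1 : g z ≤ g p' := hg z p' (by rw [hz]; exact ⟨i3, j3⟩) hzd.2.2 hp'P
  have g2 : g p' ≤ g z' := hg p' z' (by rw [hz']; exact ⟨i4, j4⟩) hp'P hzd'.2.2
  have f1 := hgf z hzG
  have f2 := hgf z' hzG'
  have a1 := hA z (hzd.2.2.trans (by linarith))
  have a2 := hA z' (hzd'.2.2.trans (by linarith))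
  have b1 : ε / 8 * dist z P ≤ ε / 4 * X := by nlinarith [hzd.2.2]
  have b2 : ε / 8 * dist z' P ≤ ε / 4 * X := by nlinarith [hzd'.2.2]
  -- the linear part
  have lin : ∀ y : ℝ × ℝ, |y.1 - p'.1| ≤ s → |y.2 - p'.2| ≤ s →
      |al * (y.1 - P.1) + be * (y.2 - P.2) - (al * (p'.1 - P.1) + be * (p'.2 - P.2))| ≤
        ε / 4 * X := by
    intro y y1 y2
    have e1 : al * (y.1 - P.1) + be * (y.2 - P.2) - (al * (p'.1 - P.1) + be * (p'.2 - P.2)) =
        al * (y.1 - p'.1) + be * (y.2 - p'.2) := by ring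
    rw [e1]
    refine (abs_add_le _ _).trans ?_
    rw [abs_mul, abs_mul]
    have e2 : |al| * |y.1 - p'.1| ≤ |al| * s := mul_le_mul_of_nonneg_left y1 (abs_nonneg _)
    have e3 : |be| * |y.2 - p'.2| ≤ |be| * s := mul_le_mul_of_nonneg_left y2 (abs_nonneg _)
    have e4 : (|al| + |be|) * κ * X ≤ ε / 4 * X := mul_le_mul_of_nonneg_right hκ2 hX.le
    rw [hs] at e2 e3
    linarith
  have l1 := lin z hzd.1 hzd.2.1
  have l2 := lin z' hzd'.1 hzd'.2.1
  have hεX : 0 < ε * X := mul_pos hε hX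
  rw [abs_le] at f1 f2 a1 a2 l1 l2 ⊢
  constructor
  · linarith [f1.1, a1.1, l1.1]
  · linarith [f2.2, a2.2, l2.2]

end Pool.STR
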