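import Pool.Agent.H39.GEN.Blow
import Pool.Agent.H39.GEN.Mono

/-!
# Joint blow-up

The target is a level function `a` of the row `Q` and of the depth `q`: monotone and Lipschitz with
constant one. The other levels are functions of the window `w` and of the depth `q` which are
monotone in each variable and bounded by `C r` on the box of size `r`; nothing else is assumed.
If the target increases by at least `ε₀ r` on a segment of length `r` in the direction `q`, then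
there is a cell of size `X`, `δ r ≤ X`, on which the target is affine up to `ε X`, with a slope at
least `ε₀ / 2` in the direction `q`, and either its slope in the direction `Q` is at most `s` (a
front), or all the other levels are affine up to `ε X` on the corresponding cell in the plane
`(w, q)`, with slopes at most `T` (`blowM`). The bounds `s` and `T` do not depend on `ε`.
-/

set_option autoImplicit false

namespace Pool.STR

open MeasureTheory Set Filter Topology Pool.LEV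
open scoped ENNReal NNReal

/-! ### The area of the good points -/

/-- The derivative along a horizontal line. -/
theorem hasDerivAt_row {f : ℝ × ℝ → ℝ} {x y : ℝ} (h : DifferentiableAt ℝ f (x, y)) :
    HasDerivAt (fun t => f (t, y)) (fderiv ℝ f (x, y) (1, 0)) x :=
  h.hasFDerivAt.comp_hasDerivAt x ((hasDerivAt_id x).prodMk (hasDerivAt_const x y))

/-- The derivative along a vertical line. -/
theorem hasDerivAt_col {f : ℝ × ℝ → ℝ} {x y : ℝ} (h : DifferentiableAt ℝ f (x, y)) :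
    HasDerivAt (fun t => f (x, t)) (fderiv ℝ f (x, y) (0, 1)) y :=
  h.hasFDerivAt.comp_hasDerivAt y ((hasDerivAt_const y x).prodMk (hasDerivAt_id y))

/-- The set of the points with a large slope in the direction `q`. -/
theorem slope_area {f : ℝ × ℝ → ℝ} (hf : LipschitzWith 1 f) {ε₀ : ℝ} (h0 : 0 < ε₀)
    (h : ε₀ ≤ f (0, 1) - f (0, 0)) : ENNReal.ofReal (ε₀ / 4 * (ε₀ / 4)) ≤
      volume {p : ℝ × ℝ | p.1 ∈ Ioo (-(ε₀ / 8)) (ε₀ / 8) ∧ p.2 ∈ Ioo (0 : ℝ) 1 ∧
        DifferentiableAt ℝ f p ∧ ε₀ / 2 < fderiv ℝ f p (0, 1)} ∧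
      MeasurableSet {p : ℝ × ℝ | p.1 ∈ Ioo (-(ε₀ / 8)) (ε₀ / 8) ∧ p.2 ∈ Ioo (0 : ℝ) 1 ∧
        DifferentiableAt ℝ f p ∧ ε₀ / 2 < fderiv ℝ f p (0, 1)} := by
  obtain ⟨W, hW⟩ : ∃ W : Set (ℝ × ℝ), W = {p : ℝ × ℝ | p.1 ∈ Ioo (-(ε₀ / 8)) (ε₀ / 8) ∧
    p.2 ∈ Ioo (0 : ℝ) 1 ∧ DifferentiableAt ℝ f p ∧ ε₀ / 2 < fderiv ℝ f p (0, 1)} := ⟨_, rfl⟩
  have hWm : MeasurableSet W := by
    have e : W = (Prod.fst ⁻¹' Ioo (-(ε₀ / 8)) (ε₀ / 8)) ∩ ((Prod.snd ⁻¹' Ioo (0 : ℝ) 1) ∩
        ({p | DifferentiableAt ℝ f p} ∩ {p | ε₀ / 2 < fderiv ℝ f p (0, 1)})) := by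
      rw [hW]
      rfl
    rw [e]
    exact (measurableSet_Ioo.preimage measurable_fst).inter
      ((measurableSet_Ioo.preimage measurable_snd).inter
        ((measurableSet_of_differentiableAt ℝ f).inter
          (measurableSet_lt measurable_const (measurable_fderiv_apply_const ℝ f (0, 1)))))
  rw [← hW]
  refine ⟨?_, hWm⟩
  have h1 : ∀ᵐ p : ℝ × ℝ, DifferentiableAt ℝ f p := hf.ae_differentiableAt
  rw [Measure.volume_eq_prod] at h1 ⊢
  have h2 := Measure.ae_ae_of_ae_prod h1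
  rw [Measure.prod_apply hWm]
  have key : ∀ᵐ Q : ℝ, (Ioo (-(ε₀ / 8)) (ε₀ / 8)).indicator
      (fun _ => ENNReal.ofReal (ε₀ / 4)) Q ≤ volume (Prod.mk Q ⁻¹' W) := by
    filter_upwards [h2] with Q hd
    by_cases hQ : Q ∈ Ioo (-(ε₀ / 8)) (ε₀ / 8)
    swap
    · rw [indicator_of_notMem hQ]
      exact zero_le
    rw [indicator_of_mem hQ]
    obtain ⟨g, hg⟩ : ∃ g : ℝ → ℝ, g = fun q => f (Q, q) := ⟨_, rfl⟩
    have hgl : LipschitzWith 1 g := by
      rw [hg]
      refine LipschitzWith.of_dist_le_mul fun x y => ?_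
      refine (hf.dist_le_mul _ _).trans ?_
      rw [Prod.dist_eq]
      simp
    have h5 := (hgl.lipschitzOnWith
      (s := uIcc 0 1)).absolutelyContinuousOnInterval.integral_deriv_eq_sub
    obtain ⟨V, hV⟩ : ∃ V : Set ℝ, V = Prod.mk Q ⁻¹' W := ⟨_, rfl⟩
    have hVm : MeasurableSet V := by
      rw [hV]
      exact measurable_prodMk_left hWm
    have hVI : V ⊆ Ioo 0 1 := by
      rw [hV, hW]
      exact fun q hq => hq.2.1
    have hVf : volume V ≤ 1 := by
      refine (measure_mono hVI).trans ?_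
      rw [Real.volume_Ioo, sub_zero, ENNReal.ofReal_one]
    have hV1 : volume V ≠ ⊤ := ne_top_of_le_ne_top ENNReal.one_ne_top hVf
    have h6 : ∫ q in (0 : ℝ)..1, deriv g q ≤ ∫ q in Ioo (0 : ℝ) 1,
        (V.indicator (fun _ => (1 : ℝ)) q + ε₀ / 2) := by
      rw [intervalIntegral.integral_of_le zero_le_one, integral_Ioc_eq_integral_Ioo]
      refine setIntegral_mono_ae_restrict ?_ ?_ ?_
      · have h7 := (hgl.lipschitzOnWith
          (s := uIcc 0 1)).absolutelyContinuousOnInterval.intervalIntegrable_deriv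
        exact ((intervalIntegrable_iff_integrableOn_Ioo_of_le zero_le_one).1 h7)
      · refine Integrable.add ?_ (integrableOn_const (by simp) (by simp))
        exact ((integrable_indicator_iff hVm).2
          (integrableOn_const (by exact hV1) (by simp))).integrableOn
      · rw [Filter.EventuallyLE, ae_restrict_iff' measurableSet_Ioo]
        filter_upwards [hd] with q hq hqI
        have h8 : HasDerivAt g (fderiv ℝ f (Q, q) (0, 1)) q := by
          rw [hg]
          exact hasDerivAt_col hq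
        rw [h8.deriv]
        by_cases hqV : q ∈ V
        · rw [indicator_of_mem hqV]
          have h9 : fderiv ℝ f (Q, q) (0, 1) ≤ 1 := by
            have h10 := norm_deriv_le_of_lipschitz hgl (x₀ := q)
            rw [h8.deriv, Real.norm_eq_abs, NNReal.coe_one] at h10
            exact (le_abs_self _).trans h10
          linarith
        · rw [indicator_of_notMem hqV, zero_add]
          by_contra hc
          push Not at hc
          refine hqV ?_
          rw [hV, hW]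
          exact ⟨hQ, hqI, hq, hc⟩
    have h7 : ∫ q in Ioo (0 : ℝ) 1, (V.indicator (fun _ => (1 : ℝ)) q + ε₀ / 2) =
        (volume V).toReal + ε₀ / 2 := by
      rw [integral_add]
      · congr 1
        · rw [setIntegral_indicator hVm, inter_eq_self_of_subset_right hVI]
          simp [Measure.real]
        · simp
      · exact ((integrable_indicator_iff hVm).2
          (integrableOn_const (by exact hV1) (by simp))).integrableOn
      · exact integrableOn_const (by simp) (by simp)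
    rw [h5, h7] at h6
    have e1 := hf.dist_le_mul (Q, 1) (0, 1)
    have e2 := hf.dist_le_mul (Q, 0) (0, 0)
    rw [Real.dist_eq, Prod.dist_eq, NNReal.coe_one, one_mul] at e1 e2
    simp only [Real.dist_eq, sub_zero, sub_self, abs_zero] at e1 e2
    rw [max_eq_left (abs_nonneg _)] at e1 e2
    rw [hg] at h6
    have e3 := (abs_le.1 e1).1
    have e4 := (abs_le.1 e2).2
    have e5 : |Q| < ε₀ / 8 := abs_lt.2 hQ
    simp only at h6
    rw [← hV]
    refine ENNReal.ofReal_le_of_le_toReal ?_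
    linarith
  have h3 := lintegral_mono_ae key
  rw [lintegral_indicator measurableSet_Ioo, setLIntegral_const, Real.volume_Ioo,
    ← ENNReal.ofReal_mul (by positivity)] at h3
  have e6 : ε₀ / 4 * (ε₀ / 8 - -(ε₀ / 8)) = ε₀ / 4 * (ε₀ / 4) := by ring
  rwa [e6] at h3

/-! ### The area of the bad points -/

/-- The points with a large slope of a monotone function of one variable. -/
theorem slope_bd {g : ℝ → ℝ} (hg : Monotone g) {a b T M : ℝ} (hT : 0 < T)
    (hM : g b - g a ≤ M) {B : Set ℝ} (hB : ∀ x ∈ B, a ≤ x ∧ x ≤ b ∧ DifferentiableAt ℝ g x ∧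
      T < deriv g x) : volume B ≤ ENNReal.ofReal (M / T) := by
  obtain ⟨S, hS⟩ : ∃ S : Set ℝ, S = {x | DifferentiableAt ℝ g x ∧ T < deriv g x} ∩ Icc a b :=
    ⟨_, rfl⟩
  have hSm : MeasurableSet S := by
    rw [hS]
    exact (meas_pos g T).inter measurableSet_Icc
  have hBS : B ⊆ S := by
    rw [hS]
    exact fun x hx => ⟨(hB x hx).2.2, (hB x hx).1, (hB x hx).2.1⟩
  have h1 := rows_le hg hT ((Icc (g a) (g b)).indicator fun _ => 1)
  rw [lintegral_indicator measurableSet_Icc, setLIntegral_const, one_mul, Real.volume_Icc] at h1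
  have h2 : volume S ≤ ∫⁻ x in {x | DifferentiableAt ℝ g x ∧ T < deriv g x},
      (Icc (g a) (g b)).indicator (fun _ => (1 : ℝ≥0∞)) (g x) := by
    calc volume S = ∫⁻ _ in S, 1 := by rw [setLIntegral_one]
      _ ≤ ∫⁻ x in S, (Icc (g a) (g b)).indicator (fun _ => (1 : ℝ≥0∞)) (g x) := by
          refine setLIntegral_mono' hSm fun x hx => ?_
          rw [hS] at hx
          rw [indicator_of_mem (show g x ∈ Icc (g a) (g b) from ⟨hg hx.2.1, hg hx.2.2⟩)]
      _ ≤ _ := lintegral_mono_set (by rw [hS]; exact inter_subset_left)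
  have h3 : ENNReal.ofReal T * volume B ≤ ENNReal.ofReal M :=
    (mul_le_mul' le_rfl ((measure_mono hBS).trans h2)).trans
      (h1.trans (ENNReal.ofReal_le_ofReal hM))
  rw [ENNReal.ofReal_div_of_pos hT, ENNReal.le_div_iff_mul_le
    (Or.inl (by rw [Ne, ENNReal.ofReal_eq_zero, not_le]; exact hT))
    (Or.inl ENNReal.ofReal_ne_top), mul_comm]
  exact h3

/-- The bad points of a level. -/
def badS (R : ℝ × ℝ → ℝ) (T : ℝ) : Set (ℝ × ℝ) :=
  {p | p.1 ∈ Icc (-2 : ℝ) 2 ∧ p.2 ∈ Icc (0 : ℝ) 1 ∧ DifferentiableAt ℝ R p ∧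
    (T < fderiv ℝ R p (1, 0) ∨ T < fderiv ℝ R p (0, 1))}

theorem badS_meas (R : ℝ × ℝ → ℝ) (T : ℝ) : MeasurableSet (badS R T) := by
  have e : badS R T = (Prod.fst ⁻¹' Icc (-2 : ℝ) 2) ∩ ((Prod.snd ⁻¹' Icc (0 : ℝ) 1) ∩
      ({p | DifferentiableAt ℝ R p} ∩ ({p | T < fderiv ℝ R p (1, 0)} ∪
        {p | T < fderiv ℝ R p (0, 1)}))) := rfl
  rw [e]
  exact (measurableSet_Icc.preimage measurable_fst).inter
    ((measurableSet_Icc.preimage measurable_snd).inter
      ((measurableSet_of_differentiableAt ℝ R).inter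
        ((measurableSet_lt measurable_const (measurable_fderiv_apply_const ℝ R (1, 0))).union
          (measurableSet_lt measurable_const (measurable_fderiv_apply_const ℝ R (0, 1))))))

/-- **The area of the bad points.** -/
theorem bad_area {R : ℝ × ℝ → ℝ} (hR : Monotone R) {C T : ℝ} (hT : 0 < T) (hC : 0 ≤ C)
    (hb : ∀ p, |R p| ≤ C) : volume (badS R T) ≤ ENNReal.ofReal (10 * C / T) := by
  obtain ⟨B1, hB1⟩ : ∃ B1 : Set (ℝ × ℝ), B1 = {p : ℝ × ℝ | p.1 ∈ Icc (-2 : ℝ) 2 ∧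
    p.2 ∈ Icc (0 : ℝ) 1 ∧ DifferentiableAt ℝ R p ∧ T < fderiv ℝ R p (1, 0)} := ⟨_, rfl⟩
  obtain ⟨B2, hB2⟩ : ∃ B2 : Set (ℝ × ℝ), B2 = {p : ℝ × ℝ | p.1 ∈ Icc (-2 : ℝ) 2 ∧
    p.2 ∈ Icc (0 : ℝ) 1 ∧ DifferentiableAt ℝ R p ∧ T < fderiv ℝ R p (0, 1)} := ⟨_, rfl⟩
  have m1 : MeasurableSet B1 := by
    have e : B1 = (Prod.fst ⁻¹' Icc (-2 : ℝ) 2) ∩ ((Prod.snd ⁻¹' Icc (0 : ℝ) 1) ∩
        ({p | DifferentiableAt ℝ R p} ∩ {p | T < fderiv ℝ R p (1, 0)})) := by
      rw [hB1]
      rfl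
    rw [e]
    exact (measurableSet_Icc.preimage measurable_fst).inter
      ((measurableSet_Icc.preimage measurable_snd).inter
        ((measurableSet_of_differentiableAt ℝ R).inter
          (measurableSet_lt measurable_const (measurable_fderiv_apply_const ℝ R (1, 0)))))
  have m2 : MeasurableSet B2 := by
    have e : B2 = (Prod.fst ⁻¹' Icc (-2 : ℝ) 2) ∩ ((Prod.snd ⁻¹' Icc (0 : ℝ) 1) ∩
        ({p | DifferentiableAt ℝ R p} ∩ {p | T < fderiv ℝ R p (0, 1)})) := by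
      rw [hB2]
      rfl
    rw [e]
    exact (measurableSet_Icc.preimage measurable_fst).inter
      ((measurableSet_Icc.preimage measurable_snd).inter
        ((measurableSet_of_differentiableAt ℝ R).inter
          (measurableSet_lt measurable_const (measurable_fderiv_apply_const ℝ R (0, 1)))))
  have hsub : badS R T ⊆ B1 ∪ B2 := by
    rintro p ⟨h1, h2, h3, h4 | h4⟩
    · left
      rw [hB1]
      exact ⟨h1, h2, h3, h4⟩
    · right
      rw [hB2]
      exact ⟨h1, h2, h3, h4⟩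
  have hosc : ∀ p p', R p - R p' ≤ 2 * C := fun p p' => by
    have h1 := (abs_le.1 (hb p)).2
    have h2 := (abs_le.1 (hb p')).1
    linarith
  have v1 : volume B1 ≤ ENNReal.ofReal (2 * C / T) := by
    rw [Measure.volume_eq_prod, Measure.prod_apply_symm m1]
    have key : ∀ q : ℝ, volume ((fun x => (x, q)) ⁻¹' B1) ≤
        (Icc (0 : ℝ) 1).indicator (fun _ => ENNReal.ofReal (2 * C / T)) q := by
      intro q
      by_cases hq : q ∈ Icc (0 : ℝ) 1
      · rw [indicator_of_mem hq]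
        refine slope_bd (g := fun x => R (x, q)) (a := -2) (b := 2) (fun x y hxy =>
          hR (show (x, q) ≤ (y, q) from ⟨hxy, le_rfl⟩)) hT (hosc _ _) fun x hx => ?_
        rw [hB1] at hx
        obtain ⟨h1, -, h3, h4⟩ := hx
        have h5 := hasDerivAt_row h3
        exact ⟨h1.1, h1.2, h5.differentiableAt, by rw [h5.deriv]; exact h4⟩
      · rw [indicator_of_notMem hq]
        have : (fun x : ℝ => (x, q)) ⁻¹' B1 = ∅ := by
          ext x
          rw [hB1]
          exact ⟨fun hx => absurd hx.2.1 hq, fun hx => absurd hx (notMem_empty x)⟩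
        rw [this, measure_empty]
    refine (lintegral_mono key).trans ?_
    rw [lintegral_indicator measurableSet_Icc, setLIntegral_const, Real.volume_Icc, sub_zero,
      ENNReal.ofReal_one, mul_one]
  have v2 : volume B2 ≤ ENNReal.ofReal (8 * C / T) := by
    rw [Measure.volume_eq_prod, Measure.prod_apply m2]
    have key : ∀ w : ℝ, volume (Prod.mk w ⁻¹' B2) ≤
        (Icc (-2 : ℝ) 2).indicator (fun _ => ENNReal.ofReal (2 * C / T)) w := by
      intro w
      by_cases hw : w ∈ Icc (-2 : ℝ) 2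
      · rw [indicator_of_mem hw]
        refine slope_bd (g := fun y => R (w, y)) (a := 0) (b := 1) (fun x y hxy =>
          hR (show (w, x) ≤ (w, y) from ⟨le_rfl, hxy⟩)) hT (hosc _ _) fun y hy => ?_
        rw [hB2] at hy
        obtain ⟨-, h2, h3, h4⟩ := hy
        have h5 := hasDerivAt_col h3
        exact ⟨h2.1, h2.2, h5.differentiableAt, by rw [h5.deriv]; exact h4⟩
      · rw [indicator_of_notMem hw]
        have : Prod.mk w ⁻¹' B2 = ∅ := by
          ext x
          rw [hB2]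
          exact ⟨fun hx => absurd hx.1 hw, fun hx => absurd hx (notMem_empty x)⟩
        rw [this, measure_empty]
    refine (lintegral_mono key).trans ?_
    rw [lintegral_indicator measurableSet_Icc, setLIntegral_const, Real.volume_Icc,
      ← ENNReal.ofReal_mul (by positivity)]
    refine ENNReal.ofReal_le_ofReal (le_of_eq ?_)
    ring
  refine (measure_mono hsub).trans ((measure_union_le _ _).trans ?_)
  refine (add_le_add v1 v2).trans ?_
  rw [← ENNReal.ofReal_add (by positivity) (by positivity)]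
  refine ENNReal.ofReal_le_ofReal (le_of_eq ?_)
  ring

/-- **A good point for all the levels.** -/
theorem slope_ptM {ι : Type*} [Fintype ι] {f : ℝ × ℝ → ℝ} (hf : LipschitzWith 1 f)
    (hm : Monotone f) (f0 : f (0, 0) = 0) {R : ι → ℝ × ℝ → ℝ} (hR : ∀ j, Monotone (R j))
    {ε₀ s T C : ℝ} (h0 : 0 < ε₀) (hs : 0 < s) (hT : 0 < T) (hC : 0 ≤ C)
    (hb : ∀ j p, |R j p| ≤ C)
    (hsm : Fintype.card ι * (10 * C / T) < s * (ε₀ / 4 * (ε₀ / 4)))
    (h : ε₀ ≤ f (0, 1)) : ∃ p : ℝ × ℝ, |p.1| < ε₀ / 8 ∧ 0 < p.2 ∧ p.2 < 1 ∧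
      DifferentiableAt ℝ f p ∧ ε₀ / 2 < fderiv ℝ f p (0, 1) ∧ (fderiv ℝ f p (1, 0) ≤ s ∨
        ∀ j, DifferentiableAt ℝ (R j) (f p - p.2, p.2) ∧
          fderiv ℝ (R j) (f p - p.2, p.2) (1, 0) ≤ T ∧
          fderiv ℝ (R j) (f p - p.2, p.2) (0, 1) ≤ T) := by
  classical
  have hε₀ : ε₀ ≤ 1 := by
    have := hf.dist_le_mul (0, 1) (0, 0)
    rw [Real.dist_eq, f0, sub_zero, NNReal.coe_one, one_mul, Prod.dist_eq] at this
    simp only [dist_self, Real.dist_eq, sub_zero, abs_one, zero_le_one, max_eq_right] at this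
    exact h.trans ((le_abs_self _).trans this)
  obtain ⟨hW1, hWm⟩ := slope_area hf h0 (by rw [f0, sub_zero]; exact h)
  obtain ⟨W, hW⟩ : ∃ W : Set (ℝ × ℝ), W = {p : ℝ × ℝ | p.1 ∈ Ioo (-(ε₀ / 8)) (ε₀ / 8) ∧
    p.2 ∈ Ioo (0 : ℝ) 1 ∧ DifferentiableAt ℝ f p ∧ ε₀ / 2 < fderiv ℝ f p (0, 1)} := ⟨_, rfl⟩
  rw [← hW] at hW1 hWm
  obtain ⟨N₀, hN₀⟩ : ∃ N₀ : Set (ℝ × ℝ), N₀ = {p | ¬ ∀ j, DifferentiableAt ℝ (R j) p} :=
    ⟨_, rfl⟩
  have hN0 : volume N₀ = 0 := by
    have h1 : ∀ᵐ p : ℝ × ℝ, ∀ j, DifferentiableAt ℝ (R j) p :=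
      ae_all_iff.2 fun j => ae_diff2 (hR j)
    rw [hN₀]
    exact h1
  obtain ⟨A, hA⟩ : ∃ A : Set (ℝ × ℝ), A = (⋃ j, badS (R j) T) ∪ toMeasurable volume N₀ :=
    ⟨_, rfl⟩
  have hAm : MeasurableSet A := by
    rw [hA]
    exact (MeasurableSet.iUnion fun j => badS_meas (R j) T).union
      (measurableSet_toMeasurable _ _)
  have hAv : volume A ≤ ENNReal.ofReal (Fintype.card ι * (10 * C / T)) := by
    rw [hA]
    refine (measure_union_le _ _).trans ?_
    rw [measure_toMeasurable, hN0, add_zero]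
    refine (measure_iUnion_le _).trans ?_
    rw [tsum_fintype]
    refine (Finset.sum_le_sum fun j _ => bad_area (hR j) hT hC (hb j)).trans (le_of_eq ?_)
    rw [Finset.sum_const, Finset.card_univ, nsmul_eq_mul,
      ← ENNReal.ofReal_natCast, ← ENNReal.ofReal_mul (Nat.cast_nonneg _)]
  by_contra hcon
  push Not at hcon
  have hc : ∀ p ∈ W, s < fderiv ℝ f p (1, 0) ∧ (f p - p.2, p.2) ∈ A := by
    intro p hp
    rw [hW] at hp
    obtain ⟨a1, a2, a3, a4⟩ := hp
    obtain ⟨b1, j, b2⟩ := hcon p (abs_lt.2 a1) a2.1 a2.2 a3 a4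
    refine ⟨b1, ?_⟩
    rw [hA]
    by_cases hd : DifferentiableAt ℝ (R j) (f p - p.2, p.2)
    · left
      refine mem_iUnion.2 ⟨j, ?_, ?_, hd, ?_⟩
      · have e4 := hf.dist_le_mul p (0, 0)
        rw [Real.dist_eq, f0, sub_zero, NNReal.coe_one, one_mul, Prod.dist_eq, Real.dist_eq,
          Real.dist_eq] at e4
        simp only [sub_zero] at e4
        have e5 : max |p.1| |p.2| ≤ 1 := by
          refine max_le ?_ ?_
          · have := abs_lt.2 a1
            linarith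
          · rw [abs_of_pos a2.1]
            exact a2.2.le
        have e6 := abs_le.1 (e4.trans e5)
        show f p - p.2 ∈ Icc (-2 : ℝ) 2
        constructor <;> linarith [e6.1, e6.2, a2.1, a2.2]
      · exact ⟨a2.1.le, a2.2.le⟩
      · by_contra hcc
        push Not at hcc
        have := b2 hd hcc.1
        linarith [hcc.2]
    · right
      refine subset_toMeasurable _ _ ?_
      rw [hN₀]
      exact fun hall => hd (hall j)
  have hq : ∀ q : ℝ, ENNReal.ofReal s * volume ((fun x => (x, q)) ⁻¹' W) ≤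
      volume ((fun x => (x, q)) ⁻¹' A) := by
    intro q
    obtain ⟨S, hS⟩ : ∃ S : Set ℝ, S = (fun x => (x, q)) ⁻¹' W := ⟨_, rfl⟩
    have hSm : MeasurableSet S := by
      rw [hS]
      exact measurable_prodMk_right hWm
    obtain ⟨g, hg⟩ : ∃ g : ℝ → ℝ, g = fun x => f (x, q) - q := ⟨_, rfl⟩
    have hgm : Monotone g := by
      rw [hg]
      intro x y hxy
      exact sub_le_sub_right (hm (show (x, q) ≤ (y, q) from ⟨hxy, le_rfl⟩)) q
    have hAq : MeasurableSet ((fun x => (x, q)) ⁻¹' A) := measurable_prodMk_right hAm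
    have h3 := rows_le hgm hs (((fun x => (x, q)) ⁻¹' A).indicator fun _ => 1)
    have h4 : ∫⁻ a, ((fun x => (x, q)) ⁻¹' A).indicator (fun _ => (1 : ℝ≥0∞)) a =
        volume ((fun x => (x, q)) ⁻¹' A) := by
      rw [lintegral_indicator hAq]
      simp
    rw [h4] at h3
    have h5 : volume S ≤ ∫⁻ x in {x | DifferentiableAt ℝ g x ∧ s < deriv g x},
        ((fun x => (x, q)) ⁻¹' A).indicator (fun _ => (1 : ℝ≥0∞)) (g x) := by
      have h6 : S ⊆ {x | DifferentiableAt ℝ g x ∧ s < deriv g x} := by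
        intro x hx
        rw [hS] at hx
        have hx' : (x, q) ∈ W := hx
        have a3 := (hc (x, q) hx').1
        have a4 : DifferentiableAt ℝ f (x, q) := by
          rw [hW] at hx'
          exact hx'.2.2.1
        have h7 : HasDerivAt g (fderiv ℝ f (x, q) (1, 0)) x := by
          rw [hg]
          exact (hasDerivAt_row a4).sub_const q
        exact ⟨h7.differentiableAt, by rw [h7.deriv]; exact a3⟩
      calc volume S = ∫⁻ _ in S, 1 := by rw [setLIntegral_one]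
        _ ≤ ∫⁻ x in S, ((fun x => (x, q)) ⁻¹' A).indicator (fun _ => (1 : ℝ≥0∞)) (g x) := by
            refine setLIntegral_mono' hSm fun x hx => ?_
            rw [hS] at hx
            have hx' : (x, q) ∈ W := hx
            have h8 : g x ∈ (fun x => (x, q)) ⁻¹' A := by
              rw [hg]
              exact (hc (x, q) hx').2
            rw [indicator_of_mem h8]
        _ ≤ _ := lintegral_mono_set h6
    rw [← hS]
    exact (mul_le_mul' le_rfl h5).trans h3
  have h9 : ENNReal.ofReal s * volume W ≤ volume A := by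
    rw [Measure.volume_eq_prod, Measure.prod_apply_symm hWm, Measure.prod_apply_symm hAm,
      ← lintegral_const_mul' _ _ ENNReal.ofReal_ne_top]
    exact lintegral_mono hq
  have h10 : ENNReal.ofReal (s * (ε₀ / 4 * (ε₀ / 4))) ≤
      ENNReal.ofReal (Fintype.card ι * (10 * C / T)) := by
    rw [ENNReal.ofReal_mul hs.le]
    exact (mul_le_mul' le_rfl hW1).trans (h9.trans hAv)
  rw [ENNReal.ofReal_le_ofReal_iff (by positivity)] at h10
  linarith


/-! ### Compactness -/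

/-- **Joint blow-up**, at the unit scale. -/
theorem blowM1 {ι : Type*} [Fintype ι] {ε₀ ε s T C : ℝ} (h0 : 0 < ε₀) (hε : 0 < ε)
    (hs : 0 < s) (hT : 0 < T) (hC : 0 ≤ C)
    (hsm : Fintype.card ι * (10 * C / T) < s * (ε₀ / 4 * (ε₀ / 4))) : ∃ δ : ℝ, 0 < δ ∧
    ∀ (a : ℝ × ℝ → ℝ) (R : ι → ℝ × ℝ → ℝ), LipschitzWith 1 a → Monotone a → a (0, 0) = 0 →
      ε₀ ≤ a (0, 1) → (∀ j, Monotone (R j)) → (∀ j p, |R j p| ≤ C) →
      ∃ (p : ℝ × ℝ) (X al be : ℝ), |p.1| ≤ 1 / 8 ∧ δ ≤ X ∧ X ≤ p.2 ∧ p.2 + X ≤ 1 ∧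
        X ≤ 1 / 2 ∧ 0 ≤ al ∧ ε₀ / 2 ≤ be ∧ al + be ≤ 1 ∧ Affn a ε p X al be ∧
        (al ≤ s ∨ ∀ j, ∃ lam mu : ℝ, 0 ≤ lam ∧ lam ≤ T ∧ 0 ≤ mu ∧ mu ≤ T ∧
          Affn (R j) ε (a p - p.2, p.2) X lam mu) := by
  by_contra hcon
  push Not at hcon
  have h1 : ∀ n : ℕ, ∃ (a : ℝ × ℝ → ℝ) (R : ι → ℝ × ℝ → ℝ), LipschitzWith 1 a ∧ Monotone a ∧
      a (0, 0) = 0 ∧ ε₀ ≤ a (0, 1) ∧ (∀ j, Monotone (R j)) ∧ (∀ j p, |R j p| ≤ C) ∧
      ∀ (p : ℝ × ℝ) (X al be : ℝ), |p.1| ≤ 1 / 8 → 1 / ((n : ℝ) + 1) ≤ X → X ≤ p.2 →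
        p.2 + X ≤ 1 → X ≤ 1 / 2 → 0 ≤ al → ε₀ / 2 ≤ be → al + be ≤ 1 → Affn a ε p X al be →
          ¬ (al ≤ s ∨ ∀ j, ∃ lam mu : ℝ, 0 ≤ lam ∧ lam ≤ T ∧ 0 ≤ mu ∧ mu ≤ T ∧
            Affn (R j) ε (a p - p.2, p.2) X lam mu) := by
    intro n
    obtain ⟨a, R, k1, k2, k3, k4, k5, k6, k7⟩ := hcon (1 / ((n : ℝ) + 1)) (by positivity)
    refine ⟨a, R, k1, k2, k3, k4, k5, k6, fun p X al be e1 e2 e3 e4 e5 e6 e7 e8 e9 hc => ?_⟩
    obtain ⟨l1, j, l2⟩ := k7 p X al be e1 e2 e3 e4 e5 e6 e7 e8 e9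
    rcases hc with hc | hc
    · exact absurd hc (not_le.2 l1)
    · obtain ⟨lam, mu, m1, m2, m3, m4, m5⟩ := hc j
      exact l2 lam mu m1 m2 m3 m4 m5
  choose a R k1 k2 k3 k4 k5 k6 k7 using h1
  obtain ⟨U, hU⟩ : ∃ U : Ultrafilter ℕ, U = hyperfilter ℕ := ⟨_, rfl⟩
  have hUt : (U : Filter ℕ) ≤ atTop := by
    rw [hU, ← Nat.cofinite_eq_atTop]
    exact hyperfilter_le_cofinite
  obtain ⟨f, f1, f2, f3, f4⟩ := ulip U a k1 k3 k2
  have hex : ∀ (j : ι) (p : ℝ × ℝ), ∃ y : ℝ, Tendsto (fun n => R n j p) U (𝓝 y) := fun j p =>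
    ulim U _ C fun n => k6 n j p
  choose Rb g1 using hex
  have g2 : ∀ j, Monotone (Rb j) := fun j p p' hp =>
    le_of_tendsto_of_tendsto (g1 j p) (g1 j p') (Eventually.of_forall fun n => k5 n j hp)
  have g3 : ∀ j p, |Rb j p| ≤ C := fun j p =>
    le_of_tendsto (g1 j p).abs (Eventually.of_forall fun n => k6 n j p)
  have f5 : f (0, 0) = 0 := by
    refine tendsto_nhds_unique (f3 (0, 0)) ?_
    simp only [k3]
    exact tendsto_const_nhds
  have f6 : ε₀ ≤ f (0, 1) := ge_of_tendsto (f3 (0, 1)) (Eventually.of_forall k4)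
  obtain ⟨p, p1, p2, p3, p4, p5, p6⟩ := slope_ptM f1 f2 f5 g2 h0 hs hT hC g3 hsm f6
  have hε₀ : ε₀ ≤ 1 := by
    have := f1.dist_le_mul (0, 1) (0, 0)
    rw [Real.dist_eq, f5, sub_zero, NNReal.coe_one, one_mul, Prod.dist_eq] at this
    simp only [dist_self, Real.dist_eq, sub_zero, abs_one, zero_le_one, max_eq_right] at this
    exact f6.trans ((le_abs_self _).trans this)
  obtain ⟨d, hd0, hd⟩ := aff p4 (half_pos hε)
  have al0 : 0 ≤ fderiv ℝ f p (1, 0) := fderiv_nonneg f2 ⟨zero_le_one, le_rfl⟩ p4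
  have albe : fderiv ℝ f p (1, 0) + fderiv ℝ f p (0, 1) ≤ 1 := by
    have g1 : ‖fderiv ℝ f p‖ ≤ 1 := by
      have := norm_fderiv_le_of_lipschitz ℝ f1 (x₀ := p)
      simpa using this
    rw [← map_add]
    have g2 : ((1 : ℝ), (0 : ℝ)) + (0, 1) = (1, 1) := by ext <;> simp
    rw [g2]
    have g3 : ‖((1 : ℝ), (1 : ℝ))‖ = 1 := by simp [Prod.norm_def]
    have g4 := (fderiv ℝ f p).le_opNorm (1, 1)
    rw [g3, mul_one, Real.norm_eq_abs] at g4
    exact (le_abs_self _).trans (g4.trans g1)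
  -- the affine cell of the target
  have hcell : ∀ X : ℝ, 0 < X → X ≤ d → ∀ᶠ n in (U : Filter ℕ),
      Affn (a n) ε p X (fderiv ℝ f p (1, 0)) (fderiv ℝ f p (0, 1)) := by
    intro X hX hXd
    filter_upwards [f4 p X (ε * X / 8) (by positivity)] with n e3 p' hp'
    have e5 := hd p' (hp'.trans hXd)
    have e6 := e3 p' hp'
    have e7 := e3 p (by rw [dist_self]; exact hX.le)
    have e8 : ε / 2 * dist p' p ≤ ε / 2 * X := mul_le_mul_of_nonneg_left hp' (half_pos hε).le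
    have e9 : a n p' - a n p - (fderiv ℝ f p (1, 0) * (p'.1 - p.1) +
        fderiv ℝ f p (0, 1) * (p'.2 - p.2)) = (a n p' - f p') - (a n p - f p) +
        (f p' - f p - (fderiv ℝ f p (1, 0) * (p'.1 - p.1) +
          fderiv ℝ f p (0, 1) * (p'.2 - p.2))) := by ring
    rw [e9]
    have t1 := abs_add_le ((a n p' - f p') - (a n p - f p)) (f p' - f p -
      (fderiv ℝ f p (1, 0) * (p'.1 - p.1) + fderiv ℝ f p (0, 1) * (p'.2 - p.2)))
    have t2 := abs_sub (a n p' - f p') (a n p - f p)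
    have t3 : 0 ≤ ε * X := mul_nonneg hε.le hX.le
    linarith
  have hsmall : ∀ X : ℝ, 0 < X → ∀ᶠ n : ℕ in (U : Filter ℕ), 1 / ((n : ℝ) + 1) ≤ X := by
    intro X hX
    have : Tendsto (fun n : ℕ => 1 / ((n : ℝ) + 1)) atTop (𝓝 0) :=
      tendsto_one_div_add_atTop_nhds_zero_nat
    have h6 := hUt ((tendsto_order.1 this).2 X hX)
    filter_upwards [h6] with n hn using hn.le
  have hle : ∀ c : ℝ, 0 < c → ∀ᶠ X in 𝓝[>] (0 : ℝ), X ≤ c := fun c hc =>
    (nhdsWithin_le_nhds (Iic_mem_nhds hc))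
  rcases p6 with p6 | p6
  · have hXex : ∀ᶠ X in 𝓝[>] (0 : ℝ), 0 < X ∧ X ≤ d ∧ X ≤ p.2 ∧ X ≤ 1 - p.2 ∧ X ≤ 1 / 2 :=
      (eventually_mem_nhdsWithin (s := Ioi (0 : ℝ))).and ((hle d hd0).and ((hle _ p2).and
        ((hle _ (by linarith)).and (hle _ (by norm_num)))))
    obtain ⟨X, hX0, hXd, hX2, hX3, hX1⟩ := hXex.exists
    obtain ⟨n, e1, e2⟩ := ((hcell X hX0 hXd).and (hsmall X hX0)).exists
    exact k7 n p X _ _ (by linarith) e2 hX2 (by linarith) hX1 al0 p5.le albe e1 (Or.inl p6)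
  have hlev : ∀ j, ∃ X₀ : ℝ, 0 < X₀ ∧ ∀ X : ℝ, 0 < X → X ≤ X₀ →
      ∃ (G : Finset (ℝ × ℝ)) (η : ℝ), 0 < η ∧
        (∀ z ∈ G, dist z (f p - p.2, p.2) ≤ 2 * X) ∧
        ∀ g : ℝ × ℝ → ℝ, (∀ y y', y ≤ y' → dist y (f p - p.2, p.2) ≤ 2 * X →
          dist y' (f p - p.2, p.2) ≤ 2 * X → g y ≤ g y') →
          (∀ z ∈ G, |g z - Rb j z| ≤ η) → ∀ p', dist p' (f p - p.2, p.2) ≤ X →
            |g p' - Rb j (f p - p.2, p.2) - (fderiv ℝ (Rb j) (f p - p.2, p.2) (1, 0) *
              (p'.1 - (f p - p.2)) + fderiv ℝ (Rb j) (f p - p.2, p.2) (0, 1) *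
              (p'.2 - p.2))| ≤ ε / 4 * X := fun j =>
    near_diff (p6 j).1 (by positivity)
  choose X₀ hX₀ hlev using hlev
  have hXex : ∀ᶠ X in 𝓝[>] (0 : ℝ), 0 < X ∧ X ≤ d ∧ X ≤ p.2 ∧ X ≤ 1 - p.2 ∧ X ≤ 1 / 2 ∧
      ∀ j, X ≤ X₀ j / 2 := by
    exact (eventually_mem_nhdsWithin (s := Ioi (0 : ℝ))).and ((hle d hd0).and ((hle _ p2).and
      ((hle _ (by linarith)).and ((hle _ (by norm_num)).and
        (Filter.eventually_all.2 fun j => hle _ (half_pos (hX₀ j)))))))
  obtain ⟨X, hX0, hXd, hX2, hX3, hX1, hXj⟩ := hXex.exists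
  have hη := fun j => hlev j (2 * X) (by linarith) (by have := hXj j; linarith)
  choose G η hη0 hηd hη using hη
  have e1 : ∀ᶠ n in (U : Filter ℕ), ∀ j, ∀ z ∈ G j, |R n j z - Rb j z| ≤ η j := by
    refine Filter.eventually_all.2 fun j => ?_
    rw [Filter.eventually_all_finset]
    intro z _
    have := Metric.tendsto_nhds.1 (g1 j z) (η j) (hη0 j)
    filter_upwards [this] with n hn
    rw [Real.dist_eq] at hn
    exact hn.le
  have e2 : ∀ᶠ n in (U : Filter ℕ), ∀ p', dist p' p ≤ 0 → |a n p' - f p'| ≤ X := f4 p 0 X hX0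
  obtain ⟨n, c1, c2, c3, c4⟩ := ((hcell X hX0 hXd).and ((hsmall X hX0).and (e1.and e2))).exists
  refine k7 n p X _ _ (by linarith) c2 hX2 (by linarith) hX1 al0 p5.le albe c1
    (Or.inr fun j => ?_)
  have hder := p6 j
  have c5 := c4 p (by rw [dist_self])
  obtain ⟨lam, hlam⟩ : ∃ lam, lam = fderiv ℝ (Rb j) (f p - p.2, p.2) (1, 0) := ⟨_, rfl⟩
  obtain ⟨mu, hmu⟩ : ∃ mu, mu = fderiv ℝ (Rb j) (f p - p.2, p.2) (0, 1) := ⟨_, rfl⟩
  have hA := hη j (R n j) (fun y y' hy _ _ => k5 n j hy) (c3 j)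
  rw [← hlam, ← hmu] at hA
  refine ⟨lam, mu, ?_, ?_, ?_, ?_, fun p' hp' => ?_⟩
  · rw [hlam]
    exact fderiv_nonneg (g2 j) ⟨zero_le_one, le_rfl⟩ hder.1
  · rw [hlam]
    exact hder.2.1
  · rw [hmu]
    exact fderiv_nonneg (g2 j) ⟨le_rfl, zero_le_one⟩ hder.1
  · rw [hmu]
    exact hder.2.2
  have d1 : dist (a n p - p.2, p.2) (f p - p.2, p.2) ≤ X := by
    rw [Prod.dist_eq, Real.dist_eq, Real.dist_eq]
    simp only [sub_self, abs_zero]
    refine max_le ?_ hX0.le
    have : a n p - p.2 - (f p - p.2) = a n p - f p := by ring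
    rw [this]
    exact c5
  have d2 : dist p' (f p - p.2, p.2) ≤ 2 * X :=
    (dist_triangle p' (a n p - p.2, p.2) _).trans (by linarith)
  have b1 := hA p' d2
  have b2 := hA (a n p - p.2, p.2) (by linarith)
  simp only at b1 b2 ⊢
  rw [abs_le] at b1 b2 ⊢
  constructor <;> linarith [b1.1, b1.2, b2.1, b2.2]

/-- The clamp to the box. -/
noncomputable def cbx (p : ℝ × ℝ) : ℝ × ℝ := (max (-2) (min 2 p.1), max 0 (min 1 p.2))

theorem cbx_mono : Monotone cbx := fun _ _ hp =>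
  ⟨max_le_max le_rfl (min_le_min le_rfl hp.1), max_le_max le_rfl (min_le_min le_rfl hp.2)⟩

theorem cbx_of {p : ℝ × ℝ} (h1 : |p.1| ≤ 2) (h2 : 0 ≤ p.2) (h3 : p.2 ≤ 1) : cbx p = p := by
  rw [abs_le] at h1
  unfold cbx
  rw [min_eq_right h1.2, max_eq_right h1.1, min_eq_right h3, max_eq_right h2]

theorem cbx_mem (p : ℝ × ℝ) : |(cbx p).1| ≤ 2 ∧ 0 ≤ (cbx p).2 ∧ (cbx p).2 ≤ 1 := by
  refine ⟨?_, le_max_left _ _, max_le zero_le_one (min_le_left _ _)⟩
  rw [abs_le]
  exact ⟨le_max_left _ _, max_le (by norm_num) (min_le_left _ _)⟩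

/-- The rescaled function, with any base point. -/
noncomputable def rsc (a : ℝ × ℝ → ℝ) (Q v r : ℝ) (p : ℝ × ℝ) : ℝ :=
  (a (Q + r * p.1, r * p.2) - v) / r

/-- Rescaling an affine cell. -/
theorem Affn.rsc {a : ℝ × ℝ → ℝ} {ε Q v r X al be : ℝ} {p : ℝ × ℝ} (hr : 0 < r)
    (h : Affn (rsc a Q v r) ε p X al be) :
    Affn a ε (Q + r * p.1, r * p.2) (r * X) al be := by
  intro p' hp'
  have h1 := h ((p'.1 - Q) / r, p'.2 / r) (by
    rw [Prod.dist_eq, Real.dist_eq, Real.dist_eq] at hp' ⊢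
    simp only at hp' ⊢
    have e1 : (p'.1 - Q) / r - p.1 = (p'.1 - (Q + r * p.1)) / r := by field_simp; ring
    have e2 : p'.2 / r - p.2 = (p'.2 - r * p.2) / r := by field_simp
    rw [e1, e2, abs_div, abs_div, abs_of_pos hr]
    refine max_le ?_ ?_
    · rw [div_le_iff₀ hr, mul_comm X]
      exact (le_max_left _ _).trans hp'
    · rw [div_le_iff₀ hr, mul_comm X]
      exact (le_max_right _ _).trans hp')
  unfold STR.rsc at h1
  have e3 : Q + r * ((p'.1 - Q) / r) = p'.1 := by field_simp; ring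
  have e4 : r * (p'.2 / r) = p'.2 := by field_simp
  simp only [e3, e4] at h1
  have e5 : a p' - a (Q + r * p.1, r * p.2) - (al * (p'.1 - (Q + r * p.1)) +
      be * (p'.2 - r * p.2)) =
      r * ((a (p'.1, p'.2) - v) / r - (a (Q + r * p.1, r * p.2) - v) / r -
        (al * ((p'.1 - Q) / r - p.1) + be * (p'.2 / r - p.2))) := by
    field_simp
    ring
  show |a p' - a (Q + r * p.1, r * p.2) - (al * (p'.1 - (Q + r * p.1)) +
      be * (p'.2 - r * p.2))| ≤ ε * (r * X)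
  rw [e5, abs_mul, abs_of_pos hr]
  calc _ ≤ r * (ε * X) := mul_le_mul_of_nonneg_left h1 hr.le
    _ = _ := by ring

/-- The box of size `r` in the plane `(w, q)` around the window `g`. -/
def WBox (g r : ℝ) (y : ℝ × ℝ) : Prop := |y.1 - g| ≤ 2 * r ∧ 0 ≤ y.2 ∧ y.2 ≤ r

/-- The levels are monotone and bounded on the box of size `r`. -/
structure LvBox (R : ℝ × ℝ → ℝ) (g V C r : ℝ) : Prop where
  mono : ∀ y y', y ≤ y' → WBox g r y → WBox g r y' → R y ≤ R y'
  bd : ∀ y, WBox g r y → |R y - V| ≤ C * r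

/-- **Joint blow-up.** -/
theorem blowM {ι : Type*} [Fintype ι] {ε₀ ε s T C : ℝ} (h0 : 0 < ε₀) (hε : 0 < ε)
    (hs : 0 < s) (hT : 0 < T) (hC : 0 ≤ C)
    (hsm : Fintype.card ι * (10 * C / T) < s * (ε₀ / 4 * (ε₀ / 4))) : ∃ δ : ℝ, 0 < δ ∧
    ∀ (a : ℝ × ℝ → ℝ) (R : ι → ℝ × ℝ → ℝ), LipschitzWith 1 a → Monotone a →
      ∀ (Q r : ℝ) (V : ι → ℝ), 0 < r → ε₀ * r ≤ a (Q, r) - a (Q, 0) →
      (∀ j, LvBox (R j) (a (Q, 0)) (V j) C r) →
      ∃ (p : ℝ × ℝ) (X al be : ℝ), |p.1 - Q| ≤ r ∧ δ * r ≤ X ∧ X ≤ p.2 ∧ p.2 + X ≤ r ∧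
        |a p - p.2 - a (Q, 0)| + X ≤ 2 * r ∧ 0 ≤ al ∧ ε₀ / 2 ≤ be ∧ al + be ≤ 1 ∧
        Affn a ε p X al be ∧ (al ≤ s ∨ ∀ j, ∃ lam mu : ℝ, 0 ≤ lam ∧ lam ≤ T ∧ 0 ≤ mu ∧
          mu ≤ T ∧ Affn (R j) ε (a p - p.2, p.2) X lam mu) := by
  obtain ⟨δ, hδ, H⟩ := blowM1 (ι := ι) h0 hε hs hT hC hsm
  refine ⟨δ, hδ, fun a R ha hm Q r V hr hQ hR => ?_⟩
  obtain ⟨g, hg⟩ : ∃ g, g = a (Q, 0) := ⟨_, rfl⟩
  rw [← hg] at hR hQ ⊢
  have hbox : ∀ y, WBox g r (g + r * (cbx y).1, r * (cbx y).2) := by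
    intro y
    obtain ⟨h1, h2, h3⟩ := cbx_mem y
    refine ⟨?_, by positivity, ?_⟩
    · show |g + r * (cbx y).1 - g| ≤ 2 * r
      rw [add_sub_cancel_left, abs_mul, abs_of_pos hr, mul_comm]
      exact mul_le_mul_of_nonneg_right h1 hr.le
    · show r * (cbx y).2 ≤ r
      nlinarith
  obtain ⟨p, X, al, be, h1, h2, h3, h4, h4', h5, h6, h7, h8, h9⟩ := H (resc a Q r)
    (fun j y => rsc (R j) g (V j) r (cbx y)) (resc_lip ha Q hr) (resc_mono hm Q hr)
    (by unfold resc; simp) (by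
      unfold resc
      simp only [mul_zero, mul_one, add_zero]
      rw [le_div_iff₀ hr, ← hg]
      exact hQ) (fun j y y' hy => by
      unfold rsc
      refine div_le_div_of_nonneg_right (sub_le_sub_right ((hR j).mono _ _ ⟨?_, ?_⟩
        (hbox y) (hbox y')) _) hr.le
      · exact add_le_add_right (mul_le_mul_of_nonneg_left (cbx_mono hy).1 hr.le) g
      · exact mul_le_mul_of_nonneg_left (cbx_mono hy).2 hr.le) (fun j y => by
      unfold rsc
      rw [abs_div, abs_of_pos hr, div_le_iff₀ hr]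
      exact (hR j).bd _ (hbox y))
  have hp2 : 0 < p.2 := lt_of_lt_of_le (hδ.trans_le h2) h3
  -- the window of the point
  have hres : resc a Q r p = (a (Q + r * p.1, r * p.2) - g) / r := by
    unfold resc
    rw [hg]
  have hap : a (Q + r * p.1, r * p.2) = g + r * resc a Q r p := by
    rw [hres]
    field_simp
    ring
  have hab : |resc a Q r p| ≤ 1 := by
    have e4 := (resc_lip ha Q hr).dist_le_mul p (0, 0)
    have e0 : resc a Q r (0, 0) = 0 := by
      unfold resc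
      simp
    rw [Real.dist_eq, e0, sub_zero, NNReal.coe_one, one_mul, Prod.dist_eq, Real.dist_eq,
      Real.dist_eq] at e4
    simp only [sub_zero] at e4
    refine e4.trans (max_le (by linarith) ?_)
    rw [abs_of_pos hp2]
    linarith
  have hlow : -(1 / 8) ≤ resc a Q r p := by
    have e5 : resc a Q r (-(1 / 8), 0) ≤ resc a Q r p := by
      refine resc_mono hm Q hr ⟨?_, ?_⟩
      · show -(1 / 8) ≤ p.1
        linarith [(abs_le.1 h1).1]
      · exact hp2.le
    have e4 := (resc_lip ha Q hr).dist_le_mul (-(1 / 8), 0) (0, 0)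
    have e0 : resc a Q r (0, 0) = 0 := by
      unfold resc
      simp
    rw [Real.dist_eq, e0, sub_zero, NNReal.coe_one, one_mul, Prod.dist_eq, Real.dist_eq,
      Real.dist_eq] at e4
    simp only [sub_zero, abs_zero, abs_neg] at e4
    have e6 : max |(1 : ℝ) / 8| 0 ≤ 1 / 8 := by
      rw [abs_of_pos (by norm_num)]
      exact max_le le_rfl (by norm_num)
    have := (abs_le.1 (e4.trans e6)).1
    linarith
  have hwin : |resc a Q r p - p.2| + X ≤ 2 := by
    have e1 := (abs_le.1 hab).2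
    have : |resc a Q r p - p.2| ≤ 3 / 2 := by
      rw [abs_le]
      constructor <;> linarith
    linarith
  refine ⟨(Q + r * p.1, r * p.2), r * X, al, be, ?_, ?_, ?_, ?_, ?_, h5, h6, h7, h8.resc hr, ?_⟩
  · show |Q + r * p.1 - Q| ≤ r
    rw [add_sub_cancel_left, abs_mul, abs_of_pos hr]
    calc r * |p.1| ≤ r * 1 := mul_le_mul_of_nonneg_left (by linarith) hr.le
      _ = r := mul_one r
  · rw [mul_comm]
    exact mul_le_mul_of_nonneg_left h2 hr.le
  · exact mul_le_mul_of_nonneg_left h3 hr.le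
  · show r * p.2 + r * X ≤ r
    have := mul_le_mul_of_nonneg_left h4 hr.le
    rw [mul_one, mul_add] at this
    exact this
  · show |a (Q + r * p.1, r * p.2) - r * p.2 - g| + r * X ≤ 2 * r
    rw [hap]
    have e1 : g + r * resc a Q r p - r * p.2 - g = r * (resc a Q r p - p.2) := by ring
    rw [e1, abs_mul, abs_of_pos hr]
    nlinarith
  · rcases h9 with h9 | h9
    · exact Or.inl h9
    · refine Or.inr fun j => ?_
      obtain ⟨lam, mu, c1, c2, c3, c4, c5⟩ := h9 j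
      refine ⟨lam, mu, c1, c2, c3, c4, ?_⟩
      have c6 : Affn (rsc (R j) g (V j) r) ε (resc a Q r p - p.2, p.2) X lam mu := by
        have hin : ∀ y : ℝ × ℝ, dist y (resc a Q r p - p.2, p.2) ≤ X → cbx y = y := by
          intro y hy
          rw [Prod.dist_eq, Real.dist_eq, Real.dist_eq] at hy
          have y1 : |y.1 - (resc a Q r p - p.2)| ≤ X := (le_max_left _ _).trans hy
          have y2 : |y.2 - p.2| ≤ X := (le_max_right _ _).trans hy
          refine cbx_of ?_ ?_ ?_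
          · have := abs_add_le (y.1 - (resc a Q r p - p.2)) (resc a Q r p - p.2)
            rw [sub_add_cancel] at this
            linarith
          · linarith [(abs_le.1 y2).1]
          · linarith [(abs_le.1 y2).2]
        intro y hy
        have c7 := c5 y hy
        simp only at c7
        have hX0 : 0 ≤ X := hδ.le.trans h2
        rw [hin y hy, hin (resc a Q r p - p.2, p.2) (by rw [dist_self]; exact hX0)] at c7
        exact c7
      have c8 := c6.rsc hr
      have e2 : g + r * (resc a Q r p - p.2) = a (Q + r * p.1, r * p.2) - r * p.2 := by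
        rw [hap]
        ring
      simp only at c8
      rw [e2] at c8
      exact c8

end Pool.STR
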