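import Pool.Agent.H39.GEN.DichF
import Pool.Agent.H29.REC.Iso

/-!
# The dichotomy with several slopes and affine levels of the base

As in the file on the dichotomy, but near a window which is not static the threshold of the target
over the order may be affine with any slope `lam l` of a countable family in the radius, `l : L`, and
the levels of the base are affine too, with the slopes `la o j g` in the radius and `sg o j g` in the
window (the fattest boxes: `1` and `S j - 1`).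

`CellD.NoBL`: there are no boxes where the threshold of the target is
`Q + lam (a - g) + (S - lam) (w - g)`, with `S > lam` and nonfull rows. `CellD.micW_dichL`,
`CellD.dichL_full`: the micro statement; the charts and orders of `Pool.STR.CellD.FullI`.
-/

set_option autoImplicit false

namespace Pool.STR

open MeasureTheory Set Filter Topology Pool.LEV

/-- The threshold is affine on the box of size `8 r`, up to `d`. -/
def AfE (P : ℝ → ℝ → ℝ) (lam mu g r d : ℝ) : Prop :=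
  ∀ a w : ℝ, g - 8 * r ≤ w → w ≤ a → a ≤ g + 8 * r →
    |P a w - P g g - lam * (a - g) - mu * (w - g)| ≤ d

/-- **The threshold is affine near the window `g`.** -/
def AfAt (P : ℝ → ℝ → ℝ) (lam mu g : ℝ) : Prop :=
  ∀ e : ℝ, 0 < e → ∃ r₀ : ℝ, 0 < r₀ ∧ ∀ r : ℝ, 0 < r → r < r₀ → AfE P lam mu g r (e * r)

theorem AfE.mono {P : ℝ → ℝ → ℝ} {lam mu g r d d' : ℝ} (hd : d ≤ d') (h : AfE P lam mu g r d) :
    AfE P lam mu g r d' := fun a w h1 h2 h3 => (h a w h1 h2 h3).trans hd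

/-- **No front cell** where the threshold is affine. -/
theorem aff_noF {P : ℝ → ℝ → ℝ} (hP : Law P) {c Q g r ε β s X al be S lm : ℝ} {p : ℝ × ℝ}
    (hc0 : 0 < c) (hS : 1 ≤ S) (hcS : c * S ≤ 1)
    (hε0 : 0 < ε) (hε1 : ε ≤ 1 / 80) (hε : 12 * ε ≤ c) (hs : 4 * s ≤ c) (hX : 0 < X)
    (h1 : 8 * r < g) (h2 : 8 * r < 1 - g) (h3 : 8 * r < Q) (h4 : 8 * r < 1 - Q)
    (hlv : Lv P (Q, 0) = g) (hc : FrCell P Q r ε β s p X al be)
    (hI : ∀ a w : ℝ, g - 7 * r ≤ w → w ≤ a → a ≤ g + 7 * r →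
      |P a w - Q - lm * (a - g) - (S - lm) * (w - g)| ≤ 10 * (ε * X)) : False := by
  have hd1 := hc.dep
  have hd2 := hc.dep'
  have hXr : X ≤ r := by linarith
  have hεX : 0 < ε * X := mul_pos hε0 hX
  have hεX1 : ε * X ≤ 1 / 80 * X := mul_le_mul_of_nonneg_right hε1 hX.le
  have hrow := abs_le.1 hc.row
  obtain ⟨Q', q, rfl⟩ : ∃ Q' q : ℝ, p = (Q', q) := ⟨p.1, p.2, rfl⟩
  simp only at hd1 hd2 hrow
  have hL := abs_le.1 (lv_near hP hlv hc.row (by linarith) (by linarith))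
  -- the direction of smaller rows, or of larger rows
  have haf := (abs_le.1 (hc.aff (Q' + X, q) (by
    rw [Prod.dist_eq, Real.dist_eq, Real.dist_eq]
    simp only [sub_self, abs_zero, add_sub_cancel_left, abs_of_pos hX]
    exact (max_eq_left hX.le).le))).2
  simp only [sub_self, mul_zero, add_zero, add_sub_cancel_left] at haf
  obtain ⟨L₁, hL₁⟩ : ∃ L₁, L₁ = Lv P (Q', q) := ⟨_, rfl⟩
  obtain ⟨L₂, hL₂⟩ : ∃ L₂, L₂ = Lv P (Q' + X, q) := ⟨_, rfl⟩
  rw [← hL₁, ← hL₂] at haf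
  rw [← hL₁] at hL
  have hlip : |L₂ - L₁| ≤ X := by
    have h5 := (Lv_lip hP).dist_le_mul (Q' + X, q) (Q', q)
    rw [Real.dist_eq, ← hL₁, ← hL₂, NNReal.coe_one, one_mul, Prod.dist_eq, Real.dist_eq,
      Real.dist_eq] at h5
    simp only [sub_self, abs_zero, add_sub_cancel_left, abs_of_pos hX] at h5
    exact h5.trans (max_le le_rfl hX.le)
  have hlip' := abs_le.1 hlip
  obtain ⟨a, ha⟩ : ∃ a, a = L₂ + ε * X := ⟨_, rfl⟩
  obtain ⟨a', ha'⟩ : ∃ a', a' = L₁ - ε * X := ⟨_, rfl⟩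
  have hlow : q ≤ L₁ := by
    rw [hL₁]
    have := le_lev (P := P) (Q := cl Q') (q := cl q) (cl_le_one _)
    rw [cl_of_mem (by linarith) (by linarith), cl_of_mem (by linarith) (by linarith)] at this
    show q ≤ lev P (cl Q') (cl q)
    rw [cl_of_mem (by linarith) (by linarith), cl_of_mem (by linarith) (by linarith)]
    exact this
  have b1 : cl (Q' + X) ≤ P a (a - cl q) :=
    le_of_lev_lt hP (cl_nonneg _) (cl_le_one _) (show Lv P (Q' + X, q) < a by
      rw [← hL₂]; linarith) (by linarith)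
  rw [cl_of_mem (by linarith) (by linarith), cl_of_mem (by linarith) (by linarith)] at b1
  have b2 : P a' (a' - cl q) < cl Q' :=
    lt_of_lt_lev (cl_le_one _) (by
      rw [cl_of_mem (by linarith) (by linarith)]
      linarith) (show a' < Lv P (Q', q) by rw [← hL₁]; linarith)
  rw [cl_of_mem (by linarith) (by linarith), cl_of_mem (by linarith) (by linarith)] at b2
  have k1 := (abs_le.1 (hI a (a - q) (by linarith) (by linarith) (by linarith))).2
  have k2 := (abs_le.1 (hI a' (a' - q) (by linarith) (by linarith) (by linarith))).1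
  have e1 : (S - lm) * (a - q - g) - (S - lm) * (a' - q - g) = S * (a - a') - lm * (a - a') := by
    ring
  have e0 : lm * (a - g) - lm * (a' - g) = lm * (a - a') := by ring
  have k3 : X - 20 * (ε * X) ≤ S * (a - a') := by linarith
  have hda : 0 ≤ a - a' ∨ a - a' < 0 := le_or_gt 0 (a - a')
  have hS0 : 0 < S := by linarith
  have k4 : 0 < a - a' := by
    rcases hda with h | h
    · rcases h.eq_or_lt with h' | h'
      · rw [← h', mul_zero] at k3
        linarith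
      · exact h'
    · have := mul_neg_of_pos_of_neg hS0 h
      linarith
  have k5 : c * (X - 20 * (ε * X)) ≤ a - a' := by
    have h5 := mul_le_mul_of_nonneg_left k3 hc0.le
    have h6 := mul_le_mul_of_nonneg_right hcS k4.le
    have e2 : c * (S * (a - a')) = c * S * (a - a') := by ring
    linarith
  have k6 : 3 / 4 * X ≤ X - 20 * (ε * X) := by linarith
  have k7 := mul_le_mul_of_nonneg_left k6 hc0.le
  have hcX : 0 < c * X := mul_pos hc0 hX
  have k8 : al * X ≤ s * X := mul_le_mul_of_nonneg_right hc.als hX.le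
  have k9 : 4 * s * X ≤ c * X := mul_le_mul_of_nonneg_right hs hX.le
  have k10 : 12 * ε * X ≤ c * X := mul_le_mul_of_nonneg_right hε hX.le
  have e3 : c * (3 / 4 * X) = 3 / 4 * (c * X) := by ring
  have e4 : 4 * s * X = 4 * (s * X) := by ring
  have e5 : 12 * ε * X = 12 * (ε * X) := by ring
  linarith

theorem fin_low {L : Type*} {F : Set L} (hF : F.Finite) {E : L → ℝ} (hE : ∀ l, 0 < E l) :
    ∃ ε : ℝ, 0 < ε ∧ ε ≤ 1 ∧ ∀ l ∈ F, ε ≤ E l := by
  induction F, hF using Set.Finite.induction_on with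
  | empty => exact ⟨1, one_pos, le_rfl, fun l hl => absurd hl (notMem_empty l)⟩
  | @insert a F _ _ ih =>
    obtain ⟨ε, h1, h2, h3⟩ := ih
    refine ⟨min ε (E a), lt_min h1 (hE a), (min_le_left _ _).trans h2, fun l hl => ?_⟩
    rcases hl with rfl | hl
    · exact min_le_right _ _
    · exact (min_le_left _ _).trans (h3 l hl)

theorem fin_up {L : Type*} {F : Set L} (hF : F.Finite) (E : L → ℝ) :
    ∃ M : ℝ, 0 < M ∧ ∀ l ∈ F, E l ≤ M := by
  induction F, hF using Set.Finite.induction_on with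
  | empty => exact ⟨1, one_pos, fun l hl => absurd hl (notMem_empty l)⟩
  | @insert a F _ _ ih =>
    obtain ⟨M, h1, h2⟩ := ih
    refine ⟨max M (E a), lt_max_of_lt_left h1, fun l hl => ?_⟩
    rcases hl with rfl | hl
    · exact le_max_right _ _
    · exact (h2 l hl).trans (le_max_left _ _)

/-! ### Affine windows -/

/-- The threshold over the fattest boxes is affine where its diagonal is differentiable. -/
theorem afAt_iso {D : ℝ → ℝ} {g : ℝ} (hd : DifferentiableAt ℝ D g) (hlt : D g < 1) :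
    AfAt (RTS.iso D) 1 (deriv D g - 1) g := by
  intro e he
  obtain ⟨r₀, hr₀, h1⟩ := affB_of hd (M := 8) (e := e) (by norm_num) he
  obtain ⟨C, hC⟩ : ∃ C, C = 8 * (|deriv D g| + 2) + e := ⟨_, rfl⟩
  have hC0 : 0 < C := by rw [hC]; positivity
  refine ⟨min r₀ ((1 - D g) / (2 * C)), lt_min hr₀ (by
    have : 0 < 1 - D g := by linarith
    positivity), fun r hr hr' a w k1 k2 k3 => ?_⟩
  have m1 : r < r₀ := hr'.trans_le (min_le_left _ _)
  have m2 : r < (1 - D g) / (2 * C) := hr'.trans_le (min_le_right _ _)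
  rw [lt_div_iff₀ (by positivity)] at m2
  have hw : |w - g| ≤ 8 * r := by rw [abs_le]; constructor <;> linarith
  have h2 := abs_le.1 (h1 r hr m1 w hw)
  have h3 : deriv D g * (w - g) ≤ |deriv D g| * (8 * r) :=
    (le_abs_self _).trans (by
      rw [abs_mul]
      exact mul_le_mul_of_nonneg_left hw (abs_nonneg _))
  have e1 : |deriv D g| * (8 * r) = 8 * |deriv D g| * r := by ring
  have hCr : 2 * (C * r) = 16 * |deriv D g| * r + 32 * r + 2 * (e * r) := by rw [hC]; ring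
  have her : 0 < e * r := mul_pos he hr
  have h0 : 0 ≤ |deriv D g| * r := by positivity
  have hCr' : r * (2 * C) = 2 * (C * r) := by ring
  have hle : D w + (a - w) ≤ 1 := by linarith
  have hgg : RTS.iso D g g = D g := by
    unfold RTS.iso
    rw [sub_self, add_zero, min_eq_right hlt.le]
  rw [hgg]
  unfold RTS.iso
  rw [min_eq_right hle, abs_le]
  have e2 : (deriv D g - 1) * (w - g) = deriv D g * (w - g) - (w - g) := by ring
  rw [e2]
  constructor <;> linarith [h2.1, h2.2]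

/-- The box form of the quantisation. -/
theorem afAt_of {P : ℝ → ℝ → ℝ} {lam mu g : ℝ}
    (h : ∀ e : ℝ, 0 < e → ∃ r₀ : ℝ, 0 < r₀ ∧ ∀ r : ℝ, 0 < r → r < r₀ → ∀ a w : ℝ, g - r ≤ w →
      w ≤ a → a ≤ g + r → |P a w - P g g - lam * (a - g) - mu * (w - g)| ≤ e * r) :
    AfAt P lam mu g := by
  intro e he
  obtain ⟨r₀, hr₀, h1⟩ := h (e / 8) (by linarith)
  refine ⟨r₀ / 8, by linarith, fun r hr hr' a w k1 k2 k3 => ?_⟩
  have := h1 (8 * r) (by linarith) (by linarith) a w k1 k2 k3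
  have e1 : e / 8 * (8 * r) = e * r := by ring
  linarith

namespace CellD

variable {P : ℝ → ℝ → ℝ} {ρ : ℝ → ℝ} (E : CellD P ρ)

/-- **The numbers of the orders**: the threshold of the target over the order, the slopes `lam l` of
this threshold in the radius, the levels of the base and their slopes. -/
structure Num where
  /-- the kinds of windows -/
  L : Type
  cL : Countable L
  /-- the slope of the threshold of the target in the radius -/
  lam : L → ℝ
  /-- the threshold of the target over the order -/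
  PT : E.O → ℝ → ℝ → ℝ
  hPT : ∀ x o, E.PB (x, o) = PT o
  /-- the levels of the base -/
  bT : E.O → Fin E.m → ℝ → ℝ → ℝ
  hbT : ∀ x o j, E.be (x, o) j = bT o j
  /-- the slopes of the levels of the base in the radius -/
  la : E.O → Fin E.m → ℝ → ℝ
  /-- the slopes of the levels of the base in the window -/
  sg : E.O → Fin E.m → ℝ → ℝ

variable {E}

namespace Num

variable (X : E.Num)

/-- **The windows of the kind `l`** of an order. -/
def Gl (o : E.O) (l : X.L) : Set ℝ := {g | g ∈ E.G o ∧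
  AfAt (X.PT o) (X.lam l) (deriv (fun a => P a a) g - X.lam l) g ∧
  ∀ j, 0 ≤ X.la o j g ∧ 0 ≤ X.sg o j g ∧ AfAt (X.bT o j) (X.la o j g) (X.sg o j g) g}

/-- **Affine or static** at almost every window. -/
def Dic : Prop := ∀ᵐ g : ℝ, 0 < g → g < 1 →
  (∃ a', g < a' ∧ a' ≤ 1 ∧ ρ 1 - ρ (P a' a') < 1 - P a' a') →
    ∀ o, g ∈ E.G o → (∃ l, g ∈ X.Gl o l) ∨ StaAt (X.PT o) g

/-- **The properties of the selected charts** at a window of the kind `l`, with the error `e r` on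
the box; `S` is the slope of the target. -/
structure AdL (l : X.L) (c e : ℝ) (k : E.α × E.O) (Q g r S : ℝ) : Prop where
  ade : E.AdE c e k Q g r
  val : P g g = Q
  S1 : 1 ≤ S
  cS : c * S ≤ 1
  dgP : AffB (fun w => P w w) Q S g (8 * r) (e * r)
  dgB : AffB (fun w => E.PB k w w) Q S g (7 * r) (e * r)
  aff : ∀ a w : ℝ, g - 7 * r ≤ w → w ≤ a → a ≤ g + 7 * r →
    |E.PB k a w - Q - X.lam l * (a - g) - (S - X.lam l) * (w - g)| ≤ e * r
  la0 : ∀ j, 0 ≤ X.la k.2 j g
  sg0 : ∀ j, 0 ≤ X.sg k.2 j g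
  cla : ∀ j, c * X.la k.2 j g ≤ 1
  csg : ∀ j, c * X.sg k.2 j g ≤ 1
  bas : ∀ j, AfE (E.be k j) (X.la k.2 j g) (X.sg k.2 j g) g r (e * r)

/-- **No boxes** of the kind `l` with nonfull rows. -/
def NoBL (l : X.L) : Prop :=
  ∀ c β h : ℝ, 0 < c → 0 < β → 0 < h → ∃ ε : ℝ, 0 < ε ∧ ε ≤ 1 ∧ ∃ M : ℝ, 0 < M ∧
    ∀ (k : E.α × E.O) (Q g r S : ℝ), 0 < r → 8 * r < g → 8 * r < 1 - g →
      8 * r < Q → 8 * r < 1 - Q → r ≤ ε → X.AdL l c ε k Q g r S → X.lam l + β ≤ S →
      NfB ρ h (ε * r) (Q - M * r) (Q + M * r) → E.dfr k g r ≤ ε * r → False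

/-- The bounds of the slopes of the base. -/
def SlB (f : Option X.L) (c g : ℝ) (o : E.O) : Prop := ∀ l, f = some l → ∀ j,
  0 ≤ X.la o j g ∧ 0 ≤ X.sg o j g ∧ c * X.la o j g ≤ 1 ∧ c * X.sg o j g ≤ 1

/-- All properties on the box with the error `d`; the flag `none` is the one of a static window. -/
structure Fx (f : Option X.L) (g r : ℝ) (k : E.α × E.O) (d : ℝ) : Prop where
  pos : 0 < d
  bx : E.BxF g r k d
  aff : ∀ l, f = some l → AfE (E.PB k) (X.lam l) (deriv (fun a => P a a) g - X.lam l) g r d ∧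
    ∀ j, AfE (E.be k j) (X.la k.2 j g) (X.sg k.2 j g) g r d
  sta : f = none → StaD (E.PB k) g r d
  nf : NfB ρ (1 - deriv ρ (P g g)) d (P g g - r * r / d) (P g g + r * r / d)

variable {X}

theorem Fx.mono {f : Option X.L} {g r d d' : ℝ} {k : E.α × E.O}
    (h : X.Fx f g r k d) (hd : d ≤ d') : X.Fx f g r k d' := by
  have h0 := h.pos
  have h1 : r * r / d' ≤ r * r / d :=
    div_le_div_of_nonneg_left (mul_self_nonneg r) h0 hd
  exact ⟨h0.trans_le hd, h.bx.mono hd, fun l hl => ⟨AfE.mono hd (h.aff l hl).1,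
    fun j => AfE.mono hd ((h.aff l hl).2 j)⟩, fun hb => StaD.mono hd (h.sta hb),
    fun Q₁ Q₂ k1 k2 k3 => (h.nf Q₁ Q₂ (by linarith) k2 (by linarith)).trans (by linarith)⟩

variable (X)

/-- **The orders with the flag of the window.** -/
noncomputable def dic (N' : Set ℝ) (hN' : volume N' = 0) (hsub : E.N ⊆ N') (hord : E.OrdP N')
    (hC : X.Dic) : CellD P ρ where
  α := E.α
  O := E.O × Option X.L
  J := E.J
  cα := E.cα
  cO := by
    have := E.cO
    have := X.cL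
    infer_instance
  fJ := E.fJ
  m := E.m
  PB k := E.PB (k.1, k.2.1)
  be k := E.be (k.1, k.2.1)
  D o := E.D o.1
  f o := E.f o.1
  G o := {g | g ∈ E.G o.1 ∧ (∀ l, o.2 = some l → g ∈ X.Gl o.1 l) ∧
    (o.2 = none → StaAt (X.PT o.1) g)}
  Ad' c k Q g r := E.Ad' c (k.1, k.2.1) Q g r ∧ E.OrF c Q g k.2.1 ∧
    SlpL (fun w => E.PB (k.1, k.2.1) w w) c g r ∧ c ≤ 1 - deriv ρ Q ∧ X.SlB k.2.2 c g k.2.1
  df k g r := max (E.df (k.1, k.2.1) g r) (dfi (X.Fx k.2.2 g r (k.1, k.2.1)))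
  N := N'
  hPB k := E.hPB _
  hle k := E.hle _
  hbe k := E.hbe _
  hdia x o := E.hdia x o.1
  hDm o := E.hDm o.1
  hD0 o := E.hD0 o.1
  hD1 o := E.hD1 o.1
  hG := by
    filter_upwards [E.hG, hC] with g h1 h2 h3 h4 h5
    obtain ⟨o, ho⟩ := h1 h3 h4 h5
    rcases h2 h3 h4 h5 o ho with ⟨l, h6⟩ | h6
    · refine ⟨(o, some l), ho, fun l' hl' => ?_, fun h => absurd h (by simp)⟩
      rw [← Option.some.inj hl']
      exact h6
    · exact ⟨(o, none), ho, fun l h => absurd h (by simp), fun _ => h6⟩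
  hPG x o g hg := E.hPG x o.1 g hg.1
  hN := hN'
  hch := by
    filter_upwards [E.hch] with Q hQ hrow o ho
    have hrow' : RowD P ρ E.Nᶜ Q := { hrow with mem := fun h => hrow.mem (hsub h) }
    obtain ⟨cA, hcA, hA⟩ := hQ hrow' o.1 ho.1
    obtain ⟨c₁, hc₁, hOr, hsl, hbx⟩ := hord Q hrow o.1 ho.1
    have hh : 0 < 1 - deriv ρ Q := by linarith [hrow.rlt]
    obtain ⟨g, hg⟩ : ∃ g, g = Lv P (Q, 0) := ⟨_, rfl⟩
    rw [← hg] at hOr hsl hbx hA ho ⊢
    -- the slopes of the base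
    obtain ⟨c₂, hc₂, hslb⟩ : ∃ c₂ : ℝ, 0 < c₂ ∧ ∀ c' : ℝ, 0 < c' → c' ≤ c₂ →
        X.SlB o.2 c' g o.1 := by
      obtain ⟨c₂, hc₂⟩ : ∃ c₂, c₂ = 1 / (1 + ∑ j, (|X.la o.1 j g| + |X.sg o.1 j g|)) := ⟨_, rfl⟩
      have hs0 : 0 ≤ ∑ j, (|X.la o.1 j g| + |X.sg o.1 j g|) :=
        Finset.sum_nonneg fun j _ => add_nonneg (abs_nonneg _) (abs_nonneg _)
      refine ⟨c₂, by rw [hc₂]; positivity, fun c' h1 h2 l hl j => ?_⟩
      have h3 := (ho.2.1 l hl).2.2 j
      have h4 : |X.la o.1 j g| + |X.sg o.1 j g| ≤ ∑ j, (|X.la o.1 j g| + |X.sg o.1 j g|) :=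
        Finset.single_le_sum (f := fun j => |X.la o.1 j g| + |X.sg o.1 j g|)
          (fun j _ => add_nonneg (abs_nonneg _) (abs_nonneg _)) (Finset.mem_univ j)
      have h5 : c' * (1 + ∑ j, (|X.la o.1 j g| + |X.sg o.1 j g|)) ≤ 1 := by
        rw [hc₂] at h2
        rwa [le_div_iff₀ (by positivity)] at h2
      have h6 := le_abs_self (X.la o.1 j g)
      have h7 := le_abs_self (X.sg o.1 j g)
      have h8 := abs_nonneg (X.la o.1 j g)
      have h9 := abs_nonneg (X.sg o.1 j g)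
      refine ⟨h3.1, h3.2.1, ?_, ?_⟩
      · exact (mul_le_mul_of_nonneg_left (by linarith) h1.le).trans h5
      · exact (mul_le_mul_of_nonneg_left (by linarith) h1.le).trans h5
    refine ⟨min (min cA c₂) (min c₁ (1 - deriv ρ Q)), lt_min (lt_min hcA hc₂) (lt_min hc₁ hh),
      fun c' hc' hc'' e he => ?_⟩
    have m1 : c' ≤ cA := (hc''.trans (min_le_left _ _)).trans (min_le_left _ _)
    have m0 : c' ≤ c₂ := (hc''.trans (min_le_left _ _)).trans (min_le_right _ _)
    have m2 : c' ≤ c₁ := (hc''.trans (min_le_right _ _)).trans (min_le_left _ _)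
    have m3 : c' ≤ 1 - deriv ρ Q := (hc''.trans (min_le_right _ _)).trans (min_le_right _ _)
    obtain ⟨k, r₀, hr₀, hk⟩ := hA c' hc' m1 e he
    obtain ⟨r₁, hr₁, hsl⟩ := hsl c' hc' m2
    obtain ⟨r₂, hr₂, hbx⟩ := hbx e he
    obtain ⟨r₃, hr₃, hfl⟩ : ∃ r₃ : ℝ, 0 < r₃ ∧ ∀ r : ℝ, 0 < r → r < r₃ →
        (∀ l, o.2 = some l → AfE (X.PT o.1) (X.lam l) (deriv (fun a => P a a) g - X.lam l) g r
          (e * r) ∧ ∀ j, AfE (X.bT o.1 j) (X.la o.1 j g) (X.sg o.1 j g) g r (e * r)) ∧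
        (o.2 = none → StaD (X.PT o.1) g r (e * r)) := by
      rcases hb : o.2 with _ | l
      · obtain ⟨r₃, hr₃, h⟩ := ho.2.2 hb e he
        exact ⟨r₃, hr₃, fun r h1 h2 => ⟨fun l h => absurd h (by simp), fun _ => h r h1 h2⟩⟩
      · obtain ⟨-, h1, h2⟩ := ho.2.1 l hb
        obtain ⟨r₃, hr₃, h3⟩ := h1 e he
        have h4 : ∀ j, ∃ r₀ : ℝ, 0 < r₀ ∧ ∀ r : ℝ, 0 < r → r < r₀ →
          AfE (X.bT o.1 j) (X.la o.1 j g) (X.sg o.1 j g) g r (e * r) := fun j => (h2 j).2.2 e he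
        choose rJ hrJ hJ using h4
        have hfin' : (Set.range fun j : Option (Fin E.m) => j.elim r₃ rJ).Finite :=
          Set.finite_range _
        refine ⟨⨅ j : Option (Fin E.m), j.elim r₃ rJ, ?_, fun r h5 h6 => ⟨fun l' hl' => ?_,
          fun h => absurd h (by simp)⟩⟩
        · obtain ⟨j, hj⟩ := exists_eq_ciInf_of_finite
            (f := fun j : Option (Fin E.m) => j.elim r₃ rJ)
          rw [← hj]
          cases j with
          | none => exact hr₃
          | some j => exact hrJ j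
        · rw [← Option.some.inj hl']
          exact ⟨h3 r h5 (h6.trans_le (ciInf_le hfin'.bddBelow none)), fun j => hJ j r h5
            (h6.trans_le (ciInf_le hfin'.bddBelow (some j)))⟩
    obtain ⟨r₄, hr₄, hnf⟩ := nfB_of hrow.rdif hrow.rlt le_rfl (η := e) (M := 1 / e) he
      (by positivity)
    refine ⟨k, min (min r₀ r₁) (min r₂ (min r₃ r₄)),
      lt_min (lt_min hr₀ hr₁) (lt_min hr₂ (lt_min hr₃ hr₄)), fun r hr hr' => ?_⟩
    have n1 : r < r₀ := (hr'.trans_le (min_le_left _ _)).trans_le (min_le_left _ _)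
    have n2 : r < r₁ := (hr'.trans_le (min_le_left _ _)).trans_le (min_le_right _ _)
    have n3 := hr'.trans_le (min_le_right _ _)
    have n4 : r < r₂ := n3.trans_le (min_le_left _ _)
    have n5 : r < r₃ := (n3.trans_le (min_le_right _ _)).trans_le (min_le_left _ _)
    have n6 : r < r₄ := (n3.trans_le (min_le_right _ _)).trans_le (min_le_right _ _)
    obtain ⟨h1, h2⟩ := hk r hr n1
    obtain ⟨h3, h4⟩ := hfl r hr n5
    refine ⟨⟨h1, hOr.mono m2, hsl r hr n2 (k r), m3, hslb c' hc' m0⟩, max_le h2 ?_⟩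
    have her : 0 < e * r := mul_pos he hr
    refine dfi_le her.le ⟨her, hbx r hr n4 (k r), fun l hl => ?_, fun hb => ?_, ?_⟩
    · rw [X.hPT]
      refine ⟨(h3 l hl).1, fun j => ?_⟩
      rw [X.hbT]
      exact (h3 l hl).2 j
    · rw [X.hPT]
      exact h4 hb
    · rw [hOr.val]
      have e1 : r * r / (e * r) = 1 / e * r := by
        field_simp
      rw [e1]
      exact hnf r hr n6

section dic

variable {N' : Set ℝ} {hN' : volume N' = 0} {hsub : E.N ⊆ N'} {hord : E.OrdP N'} {hC : X.Dic}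

/-- The properties of the selected charts of the order with the flag. -/
theorem dic_ad {c : ℝ} {k : E.α × E.O × Option X.L} {Q g r : ℝ}
    (h : (X.dic N' hN' hsub hord hC).Ad c k Q g r) :
    E.Ad c (k.1, k.2.1) Q g r ∧ E.OrF c Q g k.2.1 ∧
      SlpL (fun w => E.PB (k.1, k.2.1) w w) c g r ∧ c ≤ 1 - deriv ρ Q ∧
      X.SlB k.2.2 c g k.2.1 := by
  obtain ⟨h1, h2, h3, h4, h5, h6⟩ := h
  exact ⟨⟨h1, h2, h3, h4.1, h5⟩, h6⟩

theorem dic_dfr (k : E.α × E.O × Option X.L) (g r : ℝ) :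
    E.dfr (k.1, k.2.1) g r ≤ (X.dic N' hN' hsub hord hC).dfr k g r :=
  max_le ((le_max_left _ _).trans (le_max_left _ _)) (le_max_right _ _)

theorem dic_dfi (k : E.α × E.O × Option X.L) (g r : ℝ) :
    dfi (X.Fx k.2.2 g r (k.1, k.2.1)) ≤ (X.dic N' hN' hsub hord hC).dfr k g r :=
  (le_max_right _ _).trans (le_max_left _ _)

/-- All properties on the box, from the defect. -/
theorem dic_fx {k : E.α × E.O × Option X.L} {g r d : ℝ} (hd : 0 < d) (hd1 : 2 * d ≤ 1)
    (h : (X.dic N' hN' hsub hord hC).dfr k g r ≤ d) :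
    X.Fx k.2.2 g r (k.1, k.2.1) (2 * d) :=
  dfi_spec (fun _ _ hdd hx => hx.mono hdd)
    (lt_of_le_of_lt ((dic_dfi X k g r).trans h) (by linarith)) hd1

/-- The properties at a window of the kind `l`. -/
theorem adl_of {l : X.L} {c e d : ℝ} {k : E.α × E.O} {Q g r : ℝ} (hr : 0 < r)
    (he : 0 < e) (he1 : e ≤ 1) (hd0 : 0 ≤ d) (hde : 5 * d ≤ e * r)
    (had : E.Ad c k Q g r) (hor : E.OrF c Q g k.2) (hsl : SlpL (fun w => E.PB k w w) c g r)
    (hx : E.BxF g r k d)
    (hi : AfE (E.PB k) (X.lam l) (deriv (fun a => P a a) g - X.lam l) g r d)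
    (hb : ∀ j, 0 ≤ X.la k.2 j g ∧ 0 ≤ X.sg k.2 j g ∧ c * X.la k.2 j g ≤ 1 ∧
      c * X.sg k.2 j g ≤ 1) (hb' : ∀ j, AfE (E.be k j) (X.la k.2 j g) (X.sg k.2 j g) g r d) :
    X.AdL l c e k Q g r (deriv (fun a => P a a) g) := by
  have hP8 : AffB (fun w => P w w) Q (deriv (fun a => P a a) g) g (8 * r) (e * r) :=
    fun w hw => by
      have := hx.dgP w hw
      rw [hor.val] at this
      linarith
  have hB7 : AffB (fun w => E.PB k w w) Q (deriv (fun a => P a a) g) g (7 * r) (e * r) :=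
    fun w hw => by
      have := hx.dgB w hw
      rw [hor.val] at this
      linarith
  refine ⟨⟨had, he, he1, hor.lv k.1, ⟨_, hor.S1, hor.cS, hP8, hB7⟩, hsl, fun j => ⟨_, hor.S0j j,
    hor.cSj j, fun w hw => (hx.dj j w hw).trans (by linarith)⟩⟩, hor.val, hor.S1, hor.cS, hP8, hB7,
    fun a w k1 k2 k3 => ?_, fun j => (hb j).1, fun j => (hb j).2.1, fun j => (hb j).2.2.1,
    fun j => (hb j).2.2.2, fun j => AfE.mono (by linarith) (hb' j)⟩
  -- the threshold of the chart is affine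
  have j1 := abs_le.1 (hi a w (by linarith) k2 (by linarith))
  have j4 := abs_le.1 (hx.dgB g (by rw [sub_self, abs_zero]; linarith))
  simp only [sub_self, mul_zero, sub_zero] at j4
  rw [hor.val] at j4
  rw [abs_le]
  constructor <;> linarith [j1.1, j1.2, j4.1, j4.2]

/-- **No front cells.** -/
theorem dic_noF : (X.dic N' hN' hsub hord hC).NoF := by
  intro c β h' h1 h2 h3
  obtain ⟨ε, hε⟩ : ∃ ε, ε = min (min (β / 8) (c / 12)) (1 / 80) := ⟨_, rfl⟩
  have hε0 : 0 < ε := by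
    rw [hε]
    exact lt_min (lt_min (by linarith) (by linarith)) (by norm_num)
  have hε1 : ε ≤ 1 / 80 := by rw [hε]; exact min_le_right _ _
  have hε2 : ε ≤ β / 8 := by rw [hε]; exact (min_le_left _ _).trans (min_le_left _ _)
  have hε3 : ε ≤ c / 12 := by rw [hε]; exact (min_le_left _ _).trans (min_le_right _ _)
  refine ⟨c / 4, by linarith, 1, one_pos, ε, hε0,
    fun k Q g r p Y al be k0 hX k2 k3 k4 k5 k6 k7 k8 k9 => ?_⟩
  have hXr : Y ≤ r := by linarith [k7.dep, k7.dep']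
  have hεX : 0 < ε * Y := mul_pos hε0 hX
  have hεX1 : ε * Y ≤ 1 / 80 * Y := mul_le_mul_of_nonneg_right hε1 hX.le
  have hfx := dic_fx X hεX (by linarith) k9
  obtain ⟨had, hor, hsl, hcρ, hslb⟩ := dic_ad X k6
  have hL : Law (E.PB (k.1, k.2.1)) := E.hPB _
  have hlv := hor.lv k.1
  rcases hb : k.2.2 with _ | l
  · exact sta_noF hL hε0 (by linarith) (by linarith) h2 hX k2 k3 k4 k5 hlv k7 (hfx.sta hb)
  · obtain ⟨hi, hi'⟩ := hfx.aff l hb
    have hS := adl_of X k0 (e := 10 * (ε * Y) / r) (by positivity) (by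
      rw [div_le_one k0]
      linarith) (by linarith) (by
      rw [div_mul_cancel₀ _ k0.ne']
      linarith) had hor hsl hfx.bx hi (hslb l hb) hi'
    refine aff_noF hL h1 hS.S1 hS.cS hε0 hε1 (by linarith) (by linarith) hX k2 k3 k4 k5 hlv k7
      (lm := X.lam l) fun a w j1 j2 j3 => ?_
    have := hS.aff a w j1 j2 j3
    rwa [div_mul_cancel₀ _ k0.ne'] at this

/-- **No joint cells**, if there are no boxes. -/
theorem dic_noJB (hJ : ∀ l, X.NoBL l) (hfin : ∀ B : ℝ, {l | X.lam l ≤ B}.Finite) :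
    (X.dic N' hN' hsub hord hC).NoJ := by
  classical
  intro c β T h' h1 h2 h3 h4
  have hJ' := fun l => hJ l c (β / 2) c h1 (by linarith) h1
  choose E₀ hE₀ hE₀1 M₀ hM₀ H using hJ'
  obtain ⟨ε₀, hε₀, hε₀1, hε₀E⟩ := fin_low (hfin (1 / c)) hE₀
  obtain ⟨M, hM, hMM⟩ := fin_up (hfin (1 / c)) M₀
  obtain ⟨ε, hε⟩ : ∃ ε, ε = min (min (β / 80) (ε₀ / 10)) (min (1 / 80) (1 / (2 * M))) := ⟨_, rfl⟩
  have hε0 : 0 < ε := by
    rw [hε]
    exact lt_min (lt_min (by linarith) (by linarith)) (lt_min (by norm_num) (by positivity))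
  have hε1 : ε ≤ 1 / 80 := by rw [hε]; exact (min_le_right _ _).trans (min_le_left _ _)
  have hε4 : ε ≤ 1 / (2 * M) := by rw [hε]; exact (min_le_right _ _).trans (min_le_right _ _)
  have hε2 : ε ≤ β / 80 := by rw [hε]; exact (min_le_left _ _).trans (min_le_left _ _)
  have hε3 : ε ≤ ε₀ / 10 := by rw [hε]; exact (min_le_left _ _).trans (min_le_right _ _)
  refine ⟨ε, hε0, fun k Q g r y Y lamN muN lam mu k1 k2 k3 k4 k5 k6 k7 k8 k9 => ?_⟩
  have hX := k7.pos
  have hdep := k7.dep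
  have hdep' := k7.dep'
  have hXr : Y ≤ r := by linarith
  have hεX : 0 < ε * Y := mul_pos hε0 hX
  have hεX1 : ε * Y ≤ 1 / 80 * Y := mul_le_mul_of_nonneg_right hε1 hX.le
  have hεXr : ε * Y ≤ ε * r := mul_le_mul_of_nonneg_left hXr hε0.le
  have hεr : ε * r ≤ ε₀ / 10 * r := mul_le_mul_of_nonneg_right hε3 k1.le
  have hε₀r : 0 < ε₀ * r := mul_pos hε₀ k1
  have e3 : ε₀ / 10 * r = ε₀ * r / 10 := by ring
  have hfx := dic_fx X hεX (by linarith) k9
  obtain ⟨had, hor, hsl, hcρ, hslb⟩ := dic_ad X k6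
  have hL : Law (E.PB (k.1, k.2.1)) := E.hPB _
  rcases hb : k.2.2 with _ | l
  · exact sta_noJ hL (by linarith) h2 k2 k3 k7.toJCell (hfx.sta hb)
  obtain ⟨hi, hi'⟩ := hfx.aff l hb
  have hS := adl_of X k1 (e := 10 * (ε * Y) / r) (by positivity) (by
    rw [div_le_one k1]
    linarith) (by linarith) (by
    rw [div_mul_cancel₀ _ k1.ne']
    linarith) had hor hsl hfx.bx hi (hslb l hb) hi'
  obtain ⟨S, hSS⟩ : ∃ S, S = deriv (fun a => P a a) g := ⟨_, rfl⟩
  rw [← hSS] at hS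
  -- the slope of the target
  have hβS : X.lam l + β / 2 ≤ S := by
    have hw := abs_le.1 (le_trans (by linarith) k7.win : |y.1 - g| ≤ 3 * r)
    have haf := (abs_le.1 (k7.aff (y.1 + Y, y.2 - Y) (by
      rw [Prod.dist_eq, Real.dist_eq, Real.dist_eq]
      simp only [add_sub_cancel_left, sub_sub_cancel_left, abs_neg, abs_of_pos hX, max_self,
        le_refl]))).1
    simp only [Nw, add_sub_cancel_left, sub_sub_cancel_left] at haf
    have e1 : y.1 + Y + (y.2 - Y) = y.1 + y.2 := by ring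
    rw [e1] at haf
    have i1 := (abs_le.1 (hS.aff (y.1 + y.2) (y.1 + Y) (by linarith) (by linarith)
      (by linarith))).2
    have i2 := (abs_le.1 (hS.aff (y.1 + y.2) y.1 (by linarith) (by linarith) (by linarith))).1
    rw [div_mul_cancel₀ _ k1.ne'] at i1 i2
    have hgam := mul_le_mul_of_nonneg_right k7.gam hX.le
    have e2 : (muN + β) * Y = muN * Y + β * Y := by ring
    have e4 : muN * (-Y) = -(muN * Y) := by ring
    have e5 : (S - X.lam l) * (y.1 + Y - g) =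
        (S - X.lam l) * (y.1 - g) + (S - X.lam l) * Y := by ring
    have hPB : (X.dic N' hN' hsub hord hC).PB k = E.PB (k.1, k.2.1) := rfl
    rw [hPB] at haf
    have hβX : ε * Y ≤ β / 80 * Y := mul_le_mul_of_nonneg_right hε2 hX.le
    have e6 : β / 80 * Y = β * Y / 80 := by ring
    have hβX0 : 0 < β * Y := mul_pos h2 hX
    have k10 : (β / 2) * Y ≤ (S - X.lam l) * Y := by linarith
    have := le_of_mul_le_mul_right k10 hX
    linarith
  have hlc : l ∈ {l | X.lam l ≤ 1 / c} := by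
    have h5 : S ≤ 1 / c := by
      rw [le_div_iff₀ h1]
      linarith [hS.cS]
    show X.lam l ≤ 1 / c
    linarith
  -- the rows
  have hdfr := (dic_dfr X k g r).trans k9
  have hrε : r ≤ ε₀ := by
    have h5 : r * r ≤ ε * Y := (le_max_right _ _).trans hdfr
    have h6 : r * r ≤ ε * r := h5.trans hεXr
    have h7 := le_of_mul_le_mul_right h6 k1
    linarith
  have hEr : ε₀ * r ≤ E₀ l * r := mul_le_mul_of_nonneg_right (hε₀E l hlc) k1.le
  refine H l (k.1, k.2.1) Q g r S k1 k2 k3 k4 k5 (hrε.trans (hε₀E l hlc)) ?_ hβS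
    (fun Q₁ Q₂ j1 j2 j3 => ?_) (hdfr.trans (by linarith))
  · -- the error
    have hee : 10 * (ε * Y) / r ≤ E₀ l := by
      rw [div_le_iff₀ k1]
      linarith
    have hee' : 10 * (ε * Y) / r * r ≤ E₀ l * r := mul_le_mul_of_nonneg_right hee k1.le
    exact ⟨⟨hS.ade.ad, hE₀ l, hE₀1 l, hS.ade.lv, by
      obtain ⟨S', a1, a2, a3, a4⟩ := hS.ade.dg
      exact ⟨S', a1, a2, fun w hw => (a3 w hw).trans hee', fun w hw => (a4 w hw).trans hee'⟩,
      hS.ade.sl, fun j => by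
      obtain ⟨S', a1, a2, a3⟩ := hS.ade.dj j
      exact ⟨S', a1, a2, fun w hw => (a3 w hw).trans hee'⟩⟩, hS.val, hS.S1, hS.cS,
      fun w hw => (hS.dgP w hw).trans hee', fun w hw => (hS.dgB w hw).trans hee',
      fun a w a1 a2 a3 => (hS.aff a w a1 a2 a3).trans hee', hS.la0, hS.sg0, hS.cla, hS.csg,
      fun j => AfE.mono hee' (hS.bas j)⟩
  · have h5 := hfx.nf Q₁ Q₂
    rw [hor.val] at h5
    have h6 : M * r ≤ r * r / (2 * (ε * Y)) := by
      rw [le_div_iff₀ (by linarith)]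
      have h7 : ε * (2 * M) ≤ 1 := by rwa [le_div_iff₀ (by positivity)] at hε4
      have h8 : M * r * (2 * (ε * Y)) = ε * (2 * M) * (r * Y) := by ring
      have h9 : ε * (2 * M) * (r * Y) ≤ 1 * (r * r) :=
        mul_le_mul h7 (mul_le_mul_of_nonneg_left hXr k1.le) (by positivity) zero_le_one
      linarith
    have h6' : M₀ l * r ≤ M * r := mul_le_mul_of_nonneg_right (hMM l hlc) k1.le
    have h7 := h5 (by linarith) j2 (by linarith)
    have h8 : (1 - (1 - deriv ρ Q)) * (Q₂ - Q₁) ≤ (1 - c) * (Q₂ - Q₁) :=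
      mul_le_mul_of_nonneg_right (by linarith) (by linarith)
    linarith

end dic

/-- **The micro input.** -/
theorem micW (hP : Law P) (hP01 : ∀ a : ℝ, 0 ≤ a → a ≤ 1 → 0 ≤ P a a ∧ P a a ≤ 1)
    (hρ : LipschitzWith 1 ρ) (hfin : ∀ B : ℝ, {l | X.lam l ≤ B}.Finite) (hJ : ∀ l, X.NoBL l) (hC : X.Dic) :
    MicW P ρ := by
  obtain ⟨N', h1, h2, h3⟩ := E.ordE hP
  exact (X.dic N' h1 h2 h3 hC).mic hP hP01 hρ (dic_noJB X hJ hfin) (dic_noF X)

/-- **The charts and orders with the same strategy.** -/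
theorem full (hP : Law P) (hfin : ∀ B : ℝ, {l | X.lam l ≤ B}.Finite) (hJ : ∀ l, X.NoBL l)
    (nn : ∀ k a, 0 ≤ a → a ≤ 1 → 0 ≤ E.PB k a a)
    (play : ∃ (W' : E.O → Set ℝ) (Att : E.O → E.α → Set (ℝ × ℝ)) (Z : Set ℝ),
      (∀ o, MeasurableSet (W' o)) ∧ (∀ o, ∀ᵐ g : ℝ, g ∈ E.G o → 0 < g → g < 1 → g ∈ W' o) ∧
      (∀ o x, AttN (Att o x)) ∧ volume Z = 0 ∧
      (∀ᵐ Q : ℝ, RowD P ρ Zᶜ Q → ∀ o, Lv P (Q, 0) ∈ E.G o → ∀ j,
        E.D o (E.f o j) (Lv P (Q, 0)) < 1 ∧ (deriv (E.D o (E.f o j)) (Lv P (Q, 0)) = 1 ∨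
          ∀ x a w, 0 ≤ w → w ≤ a → a ≤ 1 → E.be (x, o) j a w ≤ E.be (x, o) j w w + (a - w))) ∧
      ∀ᵐ Q : ℝ, RowD P ρ Zᶜ Q → E.PlayI W' Att Q)
    (hC : X.Dic) : ∃ E' : CellD P ρ, E'.FullI := by
  obtain ⟨N', h1, h2, h3⟩ := E.ordE hP
  refine ⟨X.dic N' h1 h2 h3 hC, dic_noJB X hJ hfin, dic_noF X, fun k a h0 h1' => nn _ a h0 h1', ?_⟩
  obtain ⟨W', Att, Z, p1, p2, p3, p4, p5, p6⟩ := play
  refine ⟨fun o => W' o.1, fun o => Att o.1, Z, fun o => p1 o.1, fun o => ?_, fun o => p3 o.1, p4,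
    ?_, ?_⟩
  · filter_upwards [p2 o.1] with g hg h
    exact hg h.1
  · filter_upwards [p5] with Q hQ hrow o ho
    exact hQ hrow o.1 ho.1
  · filter_upwards [p6] with Q hQ hrow o c g hO hσ
    have hO' : E.RowO W' Q o.1 c g :=
      ⟨hO.eq, hO.g0, hO.g1, hO.val, hO.mem.1, hO.dns, hO.dif, hO.der, hO.difD, hO.c0⟩
    refine gmI_anti (fun x e r hx => ?_) (hQ hrow o.1 c g hO' hσ)
    exact ⟨(dic_ad X hx.1).1, (dic_dfr X (x, o) g _).trans hx.2⟩

end Num

end CellD

end Pool.STR
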