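import Pool.Agent.H60.GEN.MicF

/-!
# No fronts, from statement R at fixed depth

`RowQ`: between two windows `w₀ ≤ w₁` of the box of a row, at the SAME depth `q`, the rows between
the thresholds of the tubes `(w₀ + q, w₀)` and `(w₁ + q, w₁)` are full up to a set of measure
`C (w₁ - w₀)`, up to an error `ζ X`; `C` does not depend on `ζ`. Then there is no front cell with
a small slope (`noFB_of_rowQ`): nothing is needed in the direction of the radius, the front may be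
slanted.
-/

set_option autoImplicit false

namespace Pool.STR

open MeasureTheory Set Filter Topology Pool.LEV

/-- **Statement R at fixed depth**, box form. -/
def RowQ {κ : Type*} (ρ : ℝ → ℝ) (PB : κ → ℝ → ℝ → ℝ) (Ad : ℝ → κ → ℝ → ℝ → ℝ → Prop)
    (df : κ → ℝ → ℝ → ℝ) : Prop :=
  ∀ c h : ℝ, 0 < c → 0 < h → ∃ C : ℝ, 0 < C ∧ ∀ ζ : ℝ, 0 < ζ → ∃ M : ℝ, 0 < M ∧ ∃ ε : ℝ, 0 < ε ∧
    ∀ (k : κ) (Q g r X : ℝ), 0 < r → 0 < X → X ≤ r → 8 * r < g → 8 * r < 1 - g → 8 * r < Q →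
      8 * r < 1 - Q → Ad c k Q g r → NfB ρ h (ε * X) (Q - M * r) (Q + M * r) →
      df k g r ≤ ε * X → ∀ w₀ w₁ q : ℝ, g - 5 * r ≤ w₀ → w₀ < w₁ → w₁ - w₀ ≤ X → X ≤ q →
        q ≤ r → w₁ + q ≤ g + 4 * r →
        PB k (w₁ + q) w₁ - PB k (w₀ + q) w₀ ≤
          C * (w₁ - w₀) + ζ * X + (ρ (PB k (w₁ + q) w₁) - ρ (PB k (w₀ + q) w₀))

/-- The thresholds near the row. -/
def NearQ {κ : Type*} (PB : κ → ℝ → ℝ → ℝ) (Ad : ℝ → κ → ℝ → ℝ → ℝ → Prop) : Prop :=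
  ∀ c : ℝ, 0 < c → ∃ M : ℝ, 0 < M ∧ ∀ (k : κ) (Q g r : ℝ), 0 < r → 8 * r < g → 8 * r < 1 - g →
    8 * r < Q → 8 * r < 1 - Q → Ad c k Q g r → Law (PB k) ∧ |Lv (PB k) (Q, 0) - g| ≤ r ∧
      ∀ w q : ℝ, g - 5 * r ≤ w → 0 ≤ q → w + q ≤ g + 4 * r → |PB k (w + q) w - Q| ≤ M * r

/-- **No front cells.** -/
theorem noFB_of_rowQ {κ : Type*} {ρ : ℝ → ℝ} {PB : κ → ℝ → ℝ → ℝ}
    {Ad : ℝ → κ → ℝ → ℝ → ℝ → Prop} {df : κ → ℝ → ℝ → ℝ} (hA : NearQ PB Ad)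
    (hR : RowQ ρ PB Ad df) : NoFB ρ PB Ad df := by
  intro c β h hc hβ hh
  obtain ⟨MA, hMA, hA⟩ := hA c hc
  obtain ⟨C, hC, hR⟩ := hR c h hc hh
  obtain ⟨MR, hMR, εR, hεR, hR⟩ := hR (h / 4) (by positivity)
  obtain ⟨s, hs⟩ : ∃ s, s = min (h / (16 * C)) (1 / 8) := ⟨_, rfl⟩
  have hs0 : 0 < s := by rw [hs]; exact lt_min (by positivity) (by norm_num)
  have hs1 : s ≤ h / (16 * C) := by rw [hs]; exact min_le_left _ _
  have hs2 : s ≤ 1 / 8 := by rw [hs]; exact min_le_right _ _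
  have hsC : C * s ≤ h / 16 := by
    rw [le_div_iff₀ (by positivity)] at hs1
    linarith
  obtain ⟨ε, hε⟩ : ∃ ε, ε = min εR (min (s / 8) (h / 8)) := ⟨_, rfl⟩
  have hε0 : 0 < ε := by
    rw [hε]
    exact lt_min hεR (lt_min (by positivity) (by positivity))
  have hε1 : ε ≤ εR := by rw [hε]; exact min_le_left _ _
  have hε2 : ε ≤ s / 8 := by rw [hε]; exact (min_le_right _ _).trans (min_le_left _ _)
  have hε3 : ε ≤ h / 8 := by rw [hε]; exact (min_le_right _ _).trans (min_le_right _ _)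
  refine ⟨s, hs0, MA + MR, by positivity, ε, hε0, fun k Q g r p X al be hr hX l1 l2 l3 l4 had hF
    hN hdf => ?_⟩
  obtain ⟨hL, hLg, hbd⟩ := hA k Q g r hr l1 l2 l3 l4 had
  have hXr : X ≤ r := by linarith [hF.dep, hF.dep', hX]
  have hXr2 : X ≤ r / 2 := by linarith [hF.dep, hF.dep', hX]
  have hpQ := abs_le.1 hF.row
  have hq0 : 0 ≤ p.2 := by linarith [hF.dep]
  have hq1 : p.2 ≤ 1 := by linarith [hF.dep']
  have hqr : p.2 ≤ r := by linarith [hF.dep']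
  have hεX : 0 < ε * X := mul_pos hε0 hX
  -- the two rows of the front
  have hval : ∀ t : ℝ, |t| ≤ X / 2 → |Lv (PB k) (p.1 + t, p.2) - Lv (PB k) p - al * t| ≤
      ε * X := by
    intro t ht
    have e1 := hF.aff (p.1 + t, p.2) (by
      rw [Prod.dist_eq, Real.dist_eq, dist_self]
      simp only [add_sub_cancel_left]
      exact max_le (by linarith) hX.le)
    simp only [add_sub_cancel_left, sub_self, mul_zero, add_zero] at e1
    exact e1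
  have hlip : ∀ t : ℝ, |t| ≤ X / 2 → |Lv (PB k) (p.1 + t, p.2) - g| ≤ 4 * r - r / 2 := by
    intro t ht
    have e1 := (Lv_lip hL).dist_le_mul (p.1 + t, p.2) (Q, 0)
    rw [Real.dist_eq, NNReal.coe_one, one_mul, Prod.dist_eq, Real.dist_eq, Real.dist_eq,
      sub_zero, abs_of_nonneg hq0] at e1
    have e2 : |p.1 + t - Q| ≤ 2 * r + X / 2 := by
      have : p.1 + t - Q = (p.1 - Q) + t := by ring
      rw [this]
      exact (abs_add_le _ _).trans (add_le_add hF.row ht)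
    have e3 : max |p.1 + t - Q| p.2 ≤ 2 * r + X / 2 := max_le e2 (by linarith)
    have e4 := abs_sub_le (Lv (PB k) (p.1 + t, p.2)) (Lv (PB k) (Q, 0)) g
    linarith
  have ht1 : |X / 2| ≤ X / 2 := le_of_eq (abs_of_pos (by positivity))
  have ht2 : |(-(X / 2))| ≤ X / 2 := by rw [abs_neg]; exact ht1
  obtain ⟨a₁, ha₁⟩ : ∃ a₁, a₁ = Lv (PB k) (p.1 + X / 2, p.2) := ⟨_, rfl⟩
  obtain ⟨a₀, ha₀⟩ : ∃ a₀, a₀ = Lv (PB k) (p.1 + -(X / 2), p.2) := ⟨_, rfl⟩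
  have v1 := hval (X / 2) ht1
  have v0 := hval (-(X / 2)) ht2
  have g1 := hlip (X / 2) ht1
  have g0 := hlip (-(X / 2)) ht2
  have hm : a₀ ≤ a₁ := by
    rw [ha₀, ha₁]
    refine Lv_mono hL ⟨?_, le_rfl⟩
    show p.1 + -(X / 2) ≤ p.1 + X / 2
    linarith
  rw [← ha₁] at v1 g1
  rw [← ha₀] at v0 g0
  rw [abs_le] at v1 v0 g1 g0
  have hals : al * X ≤ s * X := mul_le_mul_of_nonneg_right hF.als hX.le
  have hdiff : a₁ - a₀ ≤ s * X + 2 * (ε * X) := by linarith [v1.2, v0.1]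
  -- the two windows
  obtain ⟨w₁, hw₁⟩ : ∃ w₁, w₁ = a₁ + ε * X - p.2 := ⟨_, rfl⟩
  obtain ⟨w₀, hw₀⟩ : ∃ w₀, w₀ = a₀ - ε * X - p.2 := ⟨_, rfl⟩
  have hεX2 : ε * X ≤ s / 8 * X := mul_le_mul_of_nonneg_right hε2 hX.le
  have hsX : s * X ≤ 1 / 8 * X := mul_le_mul_of_nonneg_right hs2 hX.le
  have hww : w₀ < w₁ := by rw [hw₀, hw₁]; linarith
  have hwX : w₁ - w₀ ≤ 2 * (s * X) := by
    rw [hw₀, hw₁]
    linarith
  have hεr : ε * X ≤ r / 4 := by linarith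
  have b0 : g - 5 * r ≤ w₀ := by rw [hw₀]; linarith [g0.1]
  have b1 : w₁ + p.2 ≤ g + 4 * r := by rw [hw₁]; linarith [g1.2]
  have hQ1 : 0 ≤ p.1 + X / 2 := by linarith [hpQ.1]
  have hQ1' : p.1 + X / 2 ≤ 1 := by linarith [hpQ.2]
  have hQ0 : 0 ≤ p.1 + -(X / 2) := by linarith [hpQ.1]
  have hQ0' : p.1 + -(X / 2) ≤ 1 := by linarith [hpQ.2]
  have c1 : p.1 + X / 2 ≤ PB k (w₁ + p.2) w₁ := by
    have e1 : lev (PB k) (p.1 + X / 2) p.2 < w₁ + p.2 := by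
      rw [← Lv_eq hq0 hq1 hQ1 hQ1', ← ha₁, hw₁]
      linarith
    have e2 := le_of_lev_lt hL hq0 hq1 e1 (by linarith)
    rwa [add_sub_cancel_right] at e2
  have c0 : PB k (w₀ + p.2) w₀ < p.1 + -(X / 2) := by
    have e1 : w₀ + p.2 < lev (PB k) (p.1 + -(X / 2)) p.2 := by
      rw [← Lv_eq hq0 hq1 hQ0 hQ0', ← ha₀, hw₀]
      linarith
    have e2 := lt_of_lt_lev (P := PB k) hq1 (by linarith) e1
    rwa [add_sub_cancel_right] at e2
  -- statement R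
  have hMr : MA * r ≤ (MA + MR) * r := by
    rw [add_mul]
    have := mul_pos hMR hr
    linarith
  have hMr' : MR * r ≤ (MA + MR) * r := by
    rw [add_mul]
    have := mul_pos hMA hr
    linarith
  have hεRX : ε * X ≤ εR * X := mul_le_mul_of_nonneg_right hε1 hX.le
  have hN' : NfB ρ h (εR * X) (Q - MR * r) (Q + MR * r) := fun Q₁ Q₂ k1 k2 k3 =>
    (hN Q₁ Q₂ (by linarith) k2 (by linarith)).trans (by linarith)
  have hR' := hR k Q g r X hr hX hXr l1 l2 l3 l4 had hN' (hdf.trans hεRX) w₀ w₁ p.2 b0 hww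
    (by linarith) hF.dep hqr b1
  have m1 := abs_le.1 (hbd w₁ p.2 (by linarith) hq0 b1)
  have m0 := abs_le.1 (hbd w₀ p.2 b0 hq0 (by linarith))
  have hNf := hN (PB k (w₀ + p.2) w₀) (PB k (w₁ + p.2) w₁) (by linarith [m0.1])
    (by linarith) (by linarith [m1.2])
  have f1 : C * (w₁ - w₀) ≤ h / 8 * X := by
    have e1 := mul_le_mul_of_nonneg_left hwX hC.le
    have e2 := mul_le_mul_of_nonneg_right hsC hX.le
    linarith
  have f2 : ε * X ≤ h / 8 * X := mul_le_mul_of_nonneg_right hε3 hX.le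
  have f3 : h * X < h * (PB k (w₁ + p.2) w₁ - PB k (w₀ + p.2) w₀) :=
    mul_lt_mul_of_pos_left (by linarith) hh
  have f4 : 0 < h * X := mul_pos hh hX
  nlinarith

end Pool.STR
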