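import Pool.Agent.H60.GEN.MicT
import Pool.Agent.H39.GEN.FroR

/-!
# The micro statement from the joint cells and statement R at fixed depth

The data `CellD` of charts and orders. At almost every row the selected charts have more properties,
uniformly on the box of size `8 r` (`AdE`): the diagonals are affine up to `e r`, also the diagonal
of the threshold `PB` of the chart, whose level at the row is the window `g`; its slopes across `g`
are bounded at all scales. The error `e r` is put into the defect (`df2`).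

`CellD.micE`: it is enough to exclude joint cells (`NoJ2`) and to prove statement R at fixed depth
(`RoQ`) for the charts with these properties. `mic_of_cellQ`: `CellQ n` gives `Mic n`.
-/

set_option autoImplicit false

namespace Pool.STR

open MeasureTheory Set Filter Topology Pool.LEV

/-- The function `D` is affine on the box of size `M` around `g`, up to `e`. -/
def AffB (D : ℝ → ℝ) (V S g M e : ℝ) : Prop := ∀ w : ℝ, |w - g| ≤ M → |D w - V - S * (w - g)| ≤ e

/-- The slopes across the window `g` between `g - c` and `g + 8 r`. -/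
def SlpL (D : ℝ → ℝ) (c g r : ℝ) : Prop :=
  ∀ u v : ℝ, g - c ≤ u → u ≤ g → g ≤ v → v ≤ g + 8 * r → c * (D v - D u) ≤ v - u

/-- A differentiable function is affine on the small boxes. -/
theorem affB_of {D : ℝ → ℝ} {g : ℝ} (hd : DifferentiableAt ℝ D g) {M e : ℝ} (hM : 0 < M)
    (he : 0 < e) : ∃ r₀ : ℝ, 0 < r₀ ∧ ∀ r : ℝ, 0 < r → r < r₀ →
      AffB D (D g) (deriv D g) g (M * r) (e * r) := by
  have h1 := hd.hasDerivAt.isLittleO.def (show 0 < e / M by positivity)
  obtain ⟨η, hη, h2⟩ := Metric.eventually_nhds_iff.1 h1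
  refine ⟨η / M, by positivity, fun r hr hr' w hw => ?_⟩
  rw [lt_div_iff₀ hM] at hr'
  have h3 := h2 (y := w) (by rw [Real.dist_eq]; linarith)
  rw [Real.norm_eq_abs, Real.norm_eq_abs, smul_eq_mul] at h3
  rw [mul_comm (deriv D g)]
  refine h3.trans ((mul_le_mul_of_nonneg_left hw (by positivity)).trans (le_of_eq ?_))
  field_simp

/-- The slope of an increasing function is not negative. -/
theorem deriv_nn_of {D : ℝ → ℝ} {g t : ℝ} (ht : 0 < t) (hd : DifferentiableAt ℝ D g)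
    (hm : ∀ x : ℝ, g ≤ x → x ≤ g + t → D g ≤ D x) : 0 ≤ deriv D g := by
  by_contra hc
  push Not at hc
  obtain ⟨r₀, hr₀, h⟩ := affB_of hd (M := 1) (e := -deriv D g / 2) one_pos (by linarith)
  obtain ⟨r, hr⟩ : ∃ r, r = min (r₀ / 2) t := ⟨_, rfl⟩
  have hr0 : 0 < r := by rw [hr]; exact lt_min (by linarith) ht
  have hr1 : r < r₀ := by
    have : r ≤ r₀ / 2 := by rw [hr]; exact min_le_left _ _
    linarith
  have hr2 : r ≤ t := by rw [hr]; exact min_le_right _ _
  have h1 := h r hr0 hr1 (g + r) (by rw [add_sub_cancel_left, abs_of_pos hr0, one_mul])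
  rw [add_sub_cancel_left, abs_le] at h1
  have h2 := hm (g + r) (by linarith) (by linarith)
  have h3 : -deriv D g / 2 * r = -(deriv D g * r) / 2 := by ring
  rw [h3] at h1
  have h4 : deriv D g * r < 0 := mul_neg_of_neg_of_pos hc hr0
  linarith [h1.2]

/-- At a point of density there are points of the set in all small intervals. -/
theorem dens_pt {W : Set ℝ} {g : ℝ}
    (hW : Tendsto (fun r => volume (W ∩ Metric.closedBall g r) / volume (Metric.closedBall g r))
      (𝓝[>] 0) (𝓝 1)) {η : ℝ} (hη : 0 < η) (hη1 : η ≤ 1) :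
    ∃ t₀ : ℝ, 0 < t₀ ∧ ∀ t : ℝ, 0 < t → t < t₀ → ∀ x : ℝ, |x - g| ≤ t →
      ∃ x' ∈ W, x - η * t ≤ x' ∧ x' ≤ x := by
  have h1 : ∀ᶠ r in 𝓝[>] (0 : ℝ), ENNReal.ofReal (1 - η / 4) <
      volume (W ∩ Metric.closedBall g r) / volume (Metric.closedBall g r) := by
    refine hW.eventually_const_lt ?_
    rw [ENNReal.ofReal_lt_one]
    linarith
  obtain ⟨r₂, hr₂, h2⟩ := mem_nhdsGT_iff_exists_Ioo_subset.1 h1
  have hr₂' : (0 : ℝ) < r₂ := hr₂
  refine ⟨r₂ / 2, by linarith, fun t ht ht' x hx => ?_⟩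
  have h3 := h2 (show 2 * t ∈ Ioo 0 r₂ from ⟨by linarith, by linarith⟩)
  simp only [Set.mem_ofPred_eq, Real.volume_closedBall] at h3
  by_contra hcon
  push Not at hcon
  have hxx := abs_le.1 hx
  have hηt : η * t ≤ 1 * t := mul_le_mul_of_nonneg_right hη1 ht.le
  have hηt0 : 0 < η * t := mul_pos hη ht
  have h4 : W ∩ Metric.closedBall g (2 * t) ⊆
      Icc (g - 2 * t) (x - η * t) ∪ Icc x (g + 2 * t) := by
    rintro y ⟨hy, hyb⟩
    rw [Metric.mem_closedBall, Real.dist_eq] at hyb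
    have hyb' := abs_le.1 hyb
    by_cases hy1 : x - η * t ≤ y
    · exact Or.inr ⟨(hcon y hy hy1).le, by linarith⟩
    · push Not at hy1
      exact Or.inl ⟨by linarith, hy1.le⟩
  have h5 : volume (W ∩ Metric.closedBall g (2 * t)) ≤
      ENNReal.ofReal ((1 - η / 4) * (2 * (2 * t))) := by
    refine (measure_mono h4).trans ((measure_union_le _ _).trans ?_)
    rw [Real.volume_Icc, Real.volume_Icc, ← ENNReal.ofReal_add (by linarith) (by linarith)]
    refine ENNReal.ofReal_le_ofReal ?_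
    nlinarith
  have h7 : volume (W ∩ Metric.closedBall g (2 * t)) / ENNReal.ofReal (2 * (2 * t)) ≤
      ENNReal.ofReal (1 - η / 4) := by
    refine ENNReal.div_le_of_le_mul ?_
    rwa [← ENNReal.ofReal_mul (by linarith)]
  exact absurd h3 (not_lt.2 h7)

/-- A function on the diagonal of a chart: below `P`, equal to it on `W`. -/
structure DgC (P : ℝ → ℝ → ℝ) (W : Set ℝ) (B : ℝ → ℝ) : Prop where
  mono : ∀ x y : ℝ, 0 ≤ x → x ≤ y → y ≤ 1 → B x ≤ B y
  le : ∀ x : ℝ, 0 < x → x ≤ 1 → B x ≤ P x x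
  ge : ∀ x : ℝ, x ∈ W → P x x ≤ B x

/-- **The diagonal of the chart is affine on the box.** -/
theorem dgC_aff {P : ℝ → ℝ → ℝ} {W : Set ℝ} {g Q S : ℝ} (hg0 : 0 < g) (hg1 : g < 1)
    (hd : DifferentiableAt ℝ (fun a => P a a) g) (hQ : P g g = Q) (hS : S = deriv (fun a => P a a) g)
    (hS0 : 0 ≤ S)
    (hW : Tendsto (fun r => volume (W ∩ Metric.closedBall g r) / volume (Metric.closedBall g r))
      (𝓝[>] 0) (𝓝 1)) {e : ℝ} (he : 0 < e) :
    ∃ r₀ : ℝ, 0 < r₀ ∧ ∀ r : ℝ, 0 < r → r < r₀ →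
      AffB (fun a => P a a) Q S g (8 * r) (e * r) ∧
      ∀ B : ℝ → ℝ, DgC P W B → AffB B Q S g (7 * r) (e * r) := by
  obtain ⟨r₁, hr₁, h1⟩ := affB_of hd (M := 8) (e := e / 2) (by norm_num) (by linarith)
  obtain ⟨η, hη⟩ : ∃ η, η = min (1 / 8) (e / (16 * (S + 1))) := ⟨_, rfl⟩
  have hη0 : 0 < η := by rw [hη]; exact lt_min (by norm_num) (by positivity)
  have hη1 : η ≤ 1 / 8 := by rw [hη]; exact min_le_left _ _
  have hη2 : S * (8 * η) ≤ e / 2 := by
    have h3 : η ≤ e / (16 * (S + 1)) := by rw [hη]; exact min_le_right _ _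
    rw [le_div_iff₀ (by positivity)] at h3
    linarith
  obtain ⟨t₀, ht₀, h2⟩ := dens_pt hW hη0 (by linarith)
  refine ⟨min (min r₁ (t₀ / 8)) (min (g / 8) ((1 - g) / 8)), lt_min (lt_min hr₁ (by linarith))
    (lt_min (by linarith) (by linarith)), fun r hr hr' => ?_⟩
  have m1 : r < r₁ := (hr'.trans_le (min_le_left _ _)).trans_le (min_le_left _ _)
  have m2 : r < t₀ / 8 := (hr'.trans_le (min_le_left _ _)).trans_le (min_le_right _ _)
  have m3 : r < g / 8 := (hr'.trans_le (min_le_right _ _)).trans_le (min_le_left _ _)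
  have m4 : r < (1 - g) / 8 := (hr'.trans_le (min_le_right _ _)).trans_le (min_le_right _ _)
  have hP := h1 r hr m1
  rw [← hS] at hP
  simp only [hQ] at hP
  have her : 0 < e * r := mul_pos he hr
  refine ⟨fun w hw => (hP w hw).trans (by linarith), fun B hB w hw => ?_⟩
  obtain ⟨w1, w2⟩ := abs_le.1 hw
  have h3 := abs_le.1 (hP w (by linarith))
  have h4 := hB.le w (by linarith) (by linarith)
  obtain ⟨x', k1, k2, k3⟩ := h2 (8 * r) (by linarith) (by linarith) w (by linarith)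
  have hηr : η * (8 * r) ≤ r := by
    have := mul_le_mul_of_nonneg_right hη1 (show (0 : ℝ) ≤ 8 * r by linarith)
    linarith
  have h5 := abs_le.1 (hP x' (by rw [abs_le]; constructor <;> linarith))
  have h6 := hB.ge x' k1
  have h7 := hB.mono x' w (by linarith) k3 (by linarith)
  have h8 : S * (w - x') ≤ S * (η * (8 * r)) := mul_le_mul_of_nonneg_left (by linarith) hS0
  have h9 : S * (8 * η) * r ≤ e / 2 * r := mul_le_mul_of_nonneg_right hη2 hr.le
  have e1 : S * (η * (8 * r)) = S * (8 * η) * r := by ring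
  have e2 : S * (w - x') = S * (w - g) - S * (x' - g) := by ring
  rw [e1] at h8
  rw [abs_le]
  simp only at h3 h5 ⊢
  constructor <;> linarith [h3.1, h3.2, h5.1, h5.2]

/-- **The slopes of the diagonal of the chart across the window.** -/
theorem dgC_slp {P : ℝ → ℝ → ℝ} {W : Set ℝ} {g Q S : ℝ} (hg0 : 0 < g) (hg1 : g < 1) (hgW : g ∈ W)
    (hd : DifferentiableAt ℝ (fun a => P a a) g) (hQ : P g g = Q) (hS : S = deriv (fun a => P a a) g)
    (hS0 : 0 ≤ S)
    (hW : Tendsto (fun r => volume (W ∩ Metric.closedBall g r) / volume (Metric.closedBall g r))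
      (𝓝[>] 0) (𝓝 1)) :
    ∃ c : ℝ, 0 < c ∧ ∃ r₀ : ℝ, 0 < r₀ ∧ ∀ r : ℝ, 0 < r → r < r₀ → ∀ c' : ℝ, 0 < c' → c' ≤ c →
      ∀ B : ℝ → ℝ, DgC P W B → SlpL B c' g r := by
  obtain ⟨r₁, hr₁, h1⟩ := affB_of hd (M := 1) (e := 1) one_pos one_pos
  obtain ⟨t₀, ht₀, h2⟩ := dens_pt hW one_pos le_rfl
  have key : ∀ x : ℝ, |x - g| < r₁ → |P x x - Q| ≤ (S + 1) * |x - g| := by
    intro x hx
    rcases eq_or_lt_of_le (abs_nonneg (x - g)) with h0 | h0
    · have : x = g := by
        have := abs_eq_zero.1 h0.symm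
        linarith
      rw [this, hQ, sub_self, abs_zero, sub_self, abs_zero, mul_zero]
    · have h3 := h1 |x - g| h0 hx x (by rw [one_mul])
      rw [← hS] at h3
      simp only [hQ, one_mul] at h3
      have h4 := abs_add_le (P x x - Q - S * (x - g)) (S * (x - g))
      rw [sub_add_cancel, abs_mul, abs_of_nonneg hS0] at h4
      have h5 : (S + 1) * |x - g| = |x - g| + S * |x - g| := by ring
      linarith
  obtain ⟨c, hc⟩ : ∃ c, c = min (1 / (2 * (S + 1))) (min (g / 2) (min (t₀ / 2) (r₁ / 4))) :=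
    ⟨_, rfl⟩
  have hc0 : 0 < c := by
    rw [hc]
    exact lt_min (by positivity) (lt_min (by linarith) (lt_min (by linarith) (by linarith)))
  have c1 : c * (2 * (S + 1)) ≤ 1 := by
    have : c ≤ 1 / (2 * (S + 1)) := by rw [hc]; exact min_le_left _ _
    rwa [le_div_iff₀ (by positivity)] at this
  have c2 : c ≤ g / 2 := by rw [hc]; exact (min_le_right _ _).trans (min_le_left _ _)
  have c3 : c ≤ t₀ / 2 := by
    rw [hc]
    exact (min_le_right _ _).trans ((min_le_right _ _).trans (min_le_left _ _))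
  have c4 : c ≤ r₁ / 4 := by
    rw [hc]
    exact (min_le_right _ _).trans ((min_le_right _ _).trans (min_le_right _ _))
  refine ⟨c, hc0, min (r₁ / 8) ((1 - g) / 8), lt_min (by linarith) (by linarith),
    fun r hr hr' c' hc'0 hc' B hB u v k1 k2 k3 k4 => ?_⟩
  have m1 : r < r₁ / 8 := hr'.trans_le (min_le_left _ _)
  have m2 : r < (1 - g) / 8 := hr'.trans_le (min_le_right _ _)
  have hS1 : 0 < S + 1 := by linarith
  have h3 : B v ≤ Q + (S + 1) * (v - g) := by
    have h4 := hB.le v (by linarith) (by linarith)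
    have h5 := (abs_le.1 (key v (by rw [abs_of_nonneg (by linarith)]; linarith))).2
    rw [abs_of_nonneg (by linarith : 0 ≤ v - g)] at h5
    linarith
  have h4 : Q - 2 * (S + 1) * (g - u) ≤ B u := by
    rcases eq_or_lt_of_le k2 with h0 | h0
    · have := hB.ge g hgW
      rw [h0, sub_self, mul_zero]
      linarith
    · obtain ⟨x', l1, l2, l3⟩ := h2 (g - u) (by linarith) (by linarith) u (by
        rw [abs_sub_comm, abs_of_pos (by linarith)])
      have h5 := hB.ge x' l1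
      have h6 := hB.mono x' u (by linarith) l3 (by linarith)
      have h7 := (abs_le.1 (key x' (by
        rw [abs_sub_comm, abs_of_nonneg (by linarith)]
        linarith))).1
      rw [abs_sub_comm, abs_of_nonneg (by linarith : 0 ≤ g - x')] at h7
      have h8 : (S + 1) * (g - x') ≤ (S + 1) * (2 * (g - u)) :=
        mul_le_mul_of_nonneg_left (by linarith) hS1.le
      linarith
  have h5 : B v - B u ≤ 2 * (S + 1) * (v - u) := by
    have h6 : (S + 1) * (v - g) ≤ 2 * (S + 1) * (v - g) := by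
      have : 0 ≤ (S + 1) * (v - g) := mul_nonneg hS1.le (by linarith)
      linarith
    have h7 : 2 * (S + 1) * (v - u) = 2 * (S + 1) * (v - g) + 2 * (S + 1) * (g - u) := by ring
    linarith
  have h6 : 0 ≤ 2 * (S + 1) * (v - u) := mul_nonneg (by positivity) (by linarith)
  have h7 : c' * (B v - B u) ≤ c' * (2 * (S + 1) * (v - u)) := mul_le_mul_of_nonneg_left h5 hc'0.le
  have h8 : c' * (2 * (S + 1) * (v - u)) ≤ c * (2 * (S + 1) * (v - u)) :=
    mul_le_mul_of_nonneg_right hc' h6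
  have h9 : c * (2 * (S + 1)) * (v - u) ≤ 1 * (v - u) :=
    mul_le_mul_of_nonneg_right c1 (by linarith)
  have h10 : c * (2 * (S + 1) * (v - u)) = c * (2 * (S + 1)) * (v - u) := by ring
  linarith

namespace CellD

variable {P : ℝ → ℝ → ℝ} {ρ : ℝ → ℝ} (E : CellD P ρ)

/-- **The properties of the selected charts**, with the error `e r` on the box. -/
structure AdE (c e : ℝ) (k : E.α × E.O) (Q g r : ℝ) : Prop where
  ad : E.Ad c k Q g r
  e0 : 0 < e
  e1 : e ≤ 1
  lv : Lv (E.PB k) (Q, 0) = g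
  dg : ∃ S : ℝ, 1 ≤ S ∧ c * S ≤ 1 ∧ AffB (fun w => P w w) Q S g (8 * r) (e * r) ∧
    AffB (fun w => E.PB k w w) Q S g (7 * r) (e * r)
  sl : SlpL (fun w => E.PB k w w) c g r
  dj : ∀ j : E.J, ∃ S : ℝ, 0 ≤ S ∧ c * S ≤ 1 ∧
    AffB (E.D k.2 j) (E.D k.2 j g) S g (8 * r) (e * r)

/-- The thresholds; the chart, the order and the error. -/
def PB2 (k : (E.α × E.O) × ℝ) : ℝ → ℝ → ℝ := E.PB k.1

/-- The levels; the chart, the order and the error. -/
def R2 (k : (E.α × E.O) × ℝ) (j : Fin E.m) : ℝ × ℝ → ℝ := E.R k.1 j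

/-- The properties; the chart, the order and the error. -/
def Ad2 (c : ℝ) (k : (E.α × E.O) × ℝ) (Q g r : ℝ) : Prop := E.AdE c k.2 k.1 Q g r

/-- The defects, at least the error. -/
noncomputable def df2 (k : (E.α × E.O) × ℝ) (g r : ℝ) : ℝ := max (E.dfr k.1 g r) (k.2 * r)

/-- No chart has a joint cell. -/
def NoJ2 : Prop := NoJB2 ρ E.PB2 E.R2 E.Ad2 E.df2

/-- Statement R at fixed depth. -/
def RoQ : Prop := RowQ ρ E.PB2 E.Ad2 E.df2

theorem NoJ.two (h : E.NoJ) : E.NoJ2 := by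
  intro c β T h' h1 h2 h3 h4
  obtain ⟨ε, hε, H⟩ := h c β T h' h1 h2 h3 h4
  exact ⟨ε, hε, fun k Q g r y X lamN muN lam mu k1 k2 k3 k4 k5 k6 k7 k8 k9 =>
    H k.1 Q g r y X lamN muN lam mu k1 k2 k3 k4 k5 k6.ad k7 k8 ((le_max_left _ _).trans k9)⟩

/-- The thresholds near the row. -/
theorem near2 : NearQ E.PB2 E.Ad2 := by
  intro c hc
  refine ⟨11 + 9 / c, by positivity, fun k Q g r hr l1 l2 l3 l4 had => ?_⟩
  have hL := E.hPB k.1
  obtain ⟨S, hS1, hcS, hP, hB⟩ := had.dg
  refine ⟨hL, ?_, fun w q h1 h2 h3 => ?_⟩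
  · rw [show E.PB2 k = E.PB k.1 from rfl, had.lv, sub_self, abs_zero]
    exact hr.le
  have her : k.2 * r ≤ 1 * r := mul_le_mul_of_nonneg_right had.e1 hr.le
  have hw0 : 0 < w := by linarith
  have u1 : E.PB k.1 w w ≤ E.PB k.1 (w + q) w :=
    hL.mono (by linarith) le_rfl (by linarith) le_rfl (by linarith) (by linarith)
  have u2 : E.PB k.1 (w + q) w ≤ E.PB k.1 (w + q) (w + q) :=
    hL.mono (by linarith) (by linarith) le_rfl (by linarith) le_rfl (by linarith)
  have v1 := (abs_le.1 (hB w (by rw [abs_le]; constructor <;> linarith))).1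
  have v2 := (abs_le.1 (hB (w + q) (by rw [abs_le]; constructor <;> linarith))).2
  simp only at v1 v2
  have hSc : S ≤ 1 / c := by rw [le_div_iff₀ hc]; linarith
  have hS0 : 0 ≤ S := by linarith
  have s1 : S * (g - w) ≤ 1 / c * (5 * r) := by
    have h4 : S * (g - w) ≤ S * (5 * r) := mul_le_mul_of_nonneg_left (by linarith) hS0
    have h5 : S * (5 * r) ≤ 1 / c * (5 * r) := mul_le_mul_of_nonneg_right hSc (by linarith)
    exact h4.trans h5
  have s2 : S * (w + q - g) ≤ 1 / c * (4 * r) := by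
    have h4 : S * (w + q - g) ≤ S * (4 * r) := mul_le_mul_of_nonneg_left (by linarith) hS0
    have h5 : S * (4 * r) ≤ 1 / c * (4 * r) := mul_le_mul_of_nonneg_right hSc (by linarith)
    exact h4.trans h5
  have e3 : (11 + 9 / c) * r = 11 * r + 9 * (1 / c * r) := by ring
  have e4 : 0 < 1 / c * r := by positivity
  have e5 : 1 / c * (5 * r) = 5 * (1 / c * r) := by ring
  have e6 : 1 / c * (4 * r) = 4 * (1 / c * r) := by ring
  have e7 : S * (g - w) = -(S * (w - g)) := by ring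
  rw [show E.PB2 k = E.PB k.1 from rfl, e3, abs_le]
  constructor <;> linarith

/-- **The selection**, with the properties on the box. -/
theorem selE (hP : Law P) (hP01 : ∀ a : ℝ, 0 ≤ a → a ≤ 1 → 0 ≤ P a a ∧ P a a ≤ 1)
    (hρ : LipschitzWith 1 ρ) : ∃ N' : Set ℝ, volume N' = 0 ∧
      ∀ᵐ Q : ℝ, RowD P ρ N'ᶜ Q → ∃ C c : ℝ, 0 ≤ C ∧ 0 < c ∧ ∀ e : ℝ, 0 < e →
        ∃ (k : ℝ → (E.α × E.O) × ℝ) (V : ℝ → Fin E.m → ℝ),
          FamBox P (Lv P (Q, 0)) C (fun r => E.PB2 (k r)) (fun r => E.R2 (k r)) V ∧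
          FamDg P (Lv P (Q, 0)) e (fun r => E.PB2 (k r)) ∧
          ∃ r₀ : ℝ, 0 < r₀ ∧ ∀ r : ℝ, 0 < r → r < r₀ → E.Ad2 c (k r) Q (Lv P (Q, 0)) r ∧
            E.df2 (k r) (Lv P (Q, 0)) r ≤ e * r := by
  obtain ⟨α, O, J, cα, cO, fJ, m, PB, be, D, f, G, Ad', df, N, hPB, hle, hbe, hdia, hDm, hD0, hD1,
    hG, hPG, hN, hch⟩ := E
  simp only [CellD.PB2, CellD.Ad2, CellD.df2]
  classical
  obtain ⟨B, hB⟩ : ∃ B : α × O → ℝ → ℝ, B = fun k a => PB k (cl a) (cl a) := ⟨_, rfl⟩
  have hBm : ∀ k, Monotone (B k) := by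
    intro k x y hxy
    rw [hB]
    exact (hPB k).mono (cl_nonneg _) le_rfl (cl_mono hxy) (cl_mono hxy) le_rfl (cl_le_one _)
  obtain ⟨W, hW⟩ : ∃ W : O → Set ℝ, W = fun o =>
    {a | a ∈ G o ∧ 0 < a ∧ a < 1 ∧ ∀ x, ContinuousAt (B (x, o)) a} := ⟨_, rfl⟩
  have hWd : ∀ x o, ∀ a ∈ W o, P a a ≤ PB (x, o) a a := by
    intro x o a ha
    rw [hW] at ha
    obtain ⟨h1, h2, h3, h4⟩ := ha
    have h5 : Tendsto (B (x, o)) (𝓝[>] a) (𝓝 (B (x, o) a)) := (h4 x).tendsto.mono_left
      nhdsWithin_le_nhds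
    have h6 : ∀ᶠ y in 𝓝[>] a, P a a ≤ B (x, o) y := by
      filter_upwards [Ioo_mem_nhdsGT h3] with y hy
      rw [hB]
      simp only
      rw [cl_of_mem (by linarith [hy.1]) hy.2.le]
      exact hPG x o a h1 h2 h3 y hy.1 hy.2.le
    have h7 := ge_of_tendsto h5 h6
    rw [hB] at h7
    simp only at h7
    rwa [cl_of_mem h2.le h3.le] at h7
  have hDgC : ∀ x o, DgC P (W o) (fun a => PB (x, o) a a) := fun x o =>
    ⟨fun u v h0 h1 h2 => (hPB (x, o)).mono h0 le_rfl h1 h1 le_rfl h2,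
      fun u h0 h1 => hle (x, o) u u h0 le_rfl h1, fun u hu => hWd x o u hu⟩
  -- the windows without exceptions
  have hDc : ∀ o j, Monotone fun a => D o j (cl a) := fun o j x y hxy =>
    hDm o j _ _ (cl_nonneg _) (cl_mono hxy) (cl_le_one _)
  have hfa : ∀ᵐ g : ℝ, (0 < g → g < 1 →
      (∃ a', g < a' ∧ a' ≤ 1 ∧ ρ 1 - ρ (P a' a') < 1 - P a' a') → ∃ o, g ∈ G o) ∧
      (∀ o, g ∈ W o → Tendsto (fun r => volume (W o ∩ Metric.closedBall g r) /
        volume (Metric.closedBall g r)) (𝓝[>] 0) (𝓝 1)) ∧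
      (∀ k, ContinuousAt (B k) g) ∧ (∀ p : O × J, 0 < g → g < 1 → DifferentiableAt ℝ (D p.1 p.2) g) ∧
      (0 < g → g < 1 → DifferentiableAt ℝ (fun a => P a a) g) := by
    have h1 := ae_all_iff.2 fun o : O =>
      ae_imp_of_ae_restrict (Besicovitch.ae_tendsto_measure_inter_div volume (W o))
    have h2 : ∀ᵐ g : ℝ, ∀ k, ContinuousAt (B k) g := ae_all_iff.2 fun k => by
      filter_upwards [(hBm k).ae_differentiableAt] with g hg
      exact hg.continuousAt
    have h3 : ∀ᵐ g : ℝ, ∀ p : O × J, 0 < g → g < 1 → DifferentiableAt ℝ (D p.1 p.2) g :=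
      ae_all_iff.2 fun p => by
        filter_upwards [(hDc p.1 p.2).ae_differentiableAt] with g hg h0 h1
        refine hg.congr_of_eventuallyEq ?_
        filter_upwards [Ioo_mem_nhds h0 h1] with x hx
        rw [cl_of_mem hx.1.le hx.2.le]
    filter_upwards [hG, h1, h2, h3, diag_aeC hP] with g k1 k2 k3 k4 k5
    exact ⟨k1, k2, k3, k4, k5⟩
  obtain ⟨N', hN'⟩ : ∃ N' : Set ℝ, N' = N ∪ {g : ℝ | ¬ ((0 < g → g < 1 →
      (∃ a', g < a' ∧ a' ≤ 1 ∧ ρ 1 - ρ (P a' a') < 1 - P a' a') → ∃ o, g ∈ G o) ∧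
      (∀ o, g ∈ W o → Tendsto (fun r => volume (W o ∩ Metric.closedBall g r) /
        volume (Metric.closedBall g r)) (𝓝[>] 0) (𝓝 1)) ∧
      (∀ k, ContinuousAt (B k) g) ∧ (∀ p : O × J, 0 < g → g < 1 → DifferentiableAt ℝ (D p.1 p.2) g) ∧
      (0 < g → g < 1 → DifferentiableAt ℝ (fun a => P a a) g))} := ⟨_, rfl⟩
  have hN'0 : volume N' = 0 := by
    rw [hN']
    exact measure_union_null hN (ae_iff.1 hfa)
  refine ⟨N', hN'0, ?_⟩
  filter_upwards [hch] with Q hQ hrow
  have hmem := hrow.mem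
  rw [hN'] at hmem
  simp only [compl_union, mem_inter_iff, mem_compl_iff, mem_ofPred_eq, not_not] at hmem
  obtain ⟨hgN, f1, f2, f3, f4, f5⟩ := hmem
  have hrow' : RowD P ρ Nᶜ Q := { hrow with mem := hgN }
  have hg0 := hrow.g0
  have hg1 := hrow.g1
  obtain ⟨g, hg⟩ : ∃ g, g = Lv P (Q, 0) := ⟨_, rfl⟩
  obtain ⟨cR, hcR, hR⟩ := adR_of hP hρ hrow
  obtain ⟨Cd, hCd, rd, hrd, hbd⟩ := diag_bdB hP hrow.Q0 hrow.Q1 hg (by rw [hg]; exact hg0)
    (by rw [hg]; exact hg1) hrow.dif hrow.dpos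
  have hQ := hQ hrow'
  rw [← hg] at hg0 hg1 f1 f2 f3 f4 f5 hR hQ ⊢
  -- the value on the diagonal
  have hPg : P g g = Q := by
    have h1 : |P g g - Q| ≤ 0 := by
      refine le_of_forall_pos_le_add fun d hd => ?_
      obtain ⟨r, hr⟩ : ∃ r, r = min (rd / 2) (d / Cd) := ⟨_, rfl⟩
      have hr0 : 0 < r := by rw [hr]; exact lt_min (by linarith) (by positivity)
      have hr1 : r < rd := by
        have : r ≤ rd / 2 := by rw [hr]; exact min_le_left _ _
        linarith
      have hr2 : r ≤ d / Cd := by rw [hr]; exact min_le_right _ _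
      rw [le_div_iff₀ hCd] at hr2
      have := hbd r hr0 hr1 g (by rw [sub_self, abs_zero]; exact hr0.le)
      linarith
    have h2 := abs_nonneg (P g g - Q)
    have h3 := abs_eq_zero.1 (le_antisymm h1 h2)
    linarith
  obtain ⟨S, hS⟩ : ∃ S, S = deriv (fun a => P a a) g := ⟨_, rfl⟩
  have hdif := f5 hg0 hg1
  have hS1 : 1 ≤ S := by
    by_contra hc
    push Not at hc
    obtain ⟨r₁, hr₁, h1⟩ := affB_of hdif (M := 1) (e := (1 - S) / 2) one_pos (by linarith)
    obtain ⟨r, hr⟩ : ∃ r, r = min (r₁ / 2) (min (1 - g) (1 - Q)) := ⟨_, rfl⟩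
    have hQ1 := hrow.Q1
    have hr0 : 0 < r := by
      rw [hr]
      exact lt_min (by linarith) (lt_min (by linarith) (by linarith))
    have hr1 : r < r₁ := by
      have : r ≤ r₁ / 2 := by rw [hr]; exact min_le_left _ _
      linarith
    have hr2 : r ≤ 1 - g := by rw [hr]; exact (min_le_right _ _).trans (min_le_left _ _)
    have hr3 : r ≤ 1 - Q := by rw [hr]; exact (min_le_right _ _).trans (min_le_right _ _)
    have h2 := (abs_le.1 (h1 r hr0 hr1 (g + r) (by
      rw [add_sub_cancel_left, abs_of_pos hr0, one_mul]))).2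
    rw [← hS, add_sub_cancel_left, hPg] at h2
    have h3 := hP.slope g g r hg0.le le_rfl hr0.le (by linarith)
    rw [hPg, min_eq_right (by linarith)] at h3
    have h4 := hP.mono_w (g + r) g (g + r) hg0.le (by linarith) le_rfl (by linarith)
    have h5 : (1 - S) / 2 * r = r / 2 - S * r / 2 := by ring
    have h6 : S * r < 1 * r := mul_lt_mul_of_pos_right hc hr0
    linarith
  have hS0 : 0 ≤ S := by linarith
  -- the order
  obtain ⟨o, ho⟩ := f1 hg0 hg1 (by
    obtain ⟨r₀, hr₀, h1⟩ := hR cR hcR le_rfl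
    obtain ⟨r, hr⟩ : ∃ r, r = min (r₀ / 2) ((1 - g) / 8) := ⟨_, rfl⟩
    have hr0 : 0 < r := by rw [hr]; exact lt_min (by linarith) (by linarith)
    have hr1 : r < r₀ := by
      have : r ≤ r₀ / 2 := by rw [hr]; exact min_le_left _ _
      linarith
    have hr2 : r ≤ (1 - g) / 8 := by rw [hr]; exact min_le_right _ _
    have h2 := h1 r hr0 hr1
    have h3 := h2.row (g + r) (by rw [add_sub_cancel_left, abs_of_pos hr0]; linarith)
    have h4 := h2.pos (P (g + r) (g + r)) (by linarith)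
    exact ⟨g + r, by linarith, by linarith, by linarith⟩)
  have hWo : g ∈ W o := by
    rw [hW]
    exact ⟨ho, hg0, hg1, fun x => f3 (x, o)⟩
  have hdens := f2 o hWo
  -- the slopes
  obtain ⟨cP, hcP, rP, hrP, hsP⟩ := slp_of (D := fun a => P a a)
    (fun x h0 h1 => (hP01 x h0 h1).1)
    (fun x h0 h1 => (hP01 x h0 h1).2) hg0 hg1 hdif
  obtain ⟨cB, hcB, rB, hrB, hsB⟩ := dgC_slp hg0 hg1 hWo hdif hPg hS hS0 hdens
  have hsD : ∀ j : J, ∃ c : ℝ, 0 < c ∧ ∃ r₀ : ℝ, 0 < r₀ ∧ ∀ r : ℝ, 0 < r → r < r₀ →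
      ∀ c' : ℝ, 0 < c' → c' ≤ c → Slp (D o j) c' g r := fun j =>
    slp_of (hD0 o j) (hD1 o j) hg0 hg1 (f4 (o, j) hg0 hg1)
  choose cD hcD rD hrD hsD using hsD
  have hSD0 : ∀ j, 0 ≤ deriv (D o j) g := fun j =>
    deriv_nn_of (t := 1 - g) (by linarith) (f4 (o, j) hg0 hg1)
      (fun x h0 h1 => hDm o j g x hg0.le h0 (by linarith))
  obtain ⟨cA, hcA, hA⟩ := hQ o ho
  obtain ⟨cD', hcD'⟩ : ∃ cD' : J → ℝ, cD' = fun j => min (cD j) (1 / (deriv (D o j) g + 1)) :=
    ⟨_, rfl⟩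
  have hcD'0 : ∀ j, 0 < cD' j := fun j => by
    rw [hcD']
    have := hSD0 j
    exact lt_min (hcD j) (by positivity)
  obtain ⟨c, hcdef⟩ : ∃ c, c = min (min (min cR cP) (min cB (1 / S)))
    (min cA (⨅ j : Option J, j.elim 1 cD')) := ⟨_, rfl⟩
  have hfin : (Set.range fun j : Option J => j.elim 1 cD').Finite := Set.finite_range _
  have hinf0 : 0 < ⨅ j : Option J, j.elim 1 cD' := by
    obtain ⟨j, hj⟩ := exists_eq_ciInf_of_finite (f := fun j : Option J => j.elim 1 cD')
    rw [← hj]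
    cases j with
    | none => exact one_pos
    | some j => exact hcD'0 j
  have hinf : ∀ j : J, (⨅ j : Option J, j.elim 1 cD') ≤ cD' j := fun j =>
    ciInf_le hfin.bddBelow (some j)
  have hSp : 0 < S := by linarith
  have hc0 : 0 < c := by
    rw [hcdef]
    exact lt_min (lt_min (lt_min hcR hcP) (lt_min hcB (by positivity))) (lt_min hcA hinf0)
  have cc0 : c ≤ min (min cR cP) (min cB (1 / S)) := by rw [hcdef]; exact min_le_left _ _
  have cc1 : c ≤ cR := (cc0.trans (min_le_left _ _)).trans (min_le_left _ _)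
  have cc2 : c ≤ cP := (cc0.trans (min_le_left _ _)).trans (min_le_right _ _)
  have ccB : c ≤ cB := (cc0.trans (min_le_right _ _)).trans (min_le_left _ _)
  have ccS : c * S ≤ 1 := by
    have := (cc0.trans (min_le_right _ _)).trans (min_le_right _ _)
    rwa [le_div_iff₀ hSp] at this
  have cc3 : c ≤ cA := by rw [hcdef]; exact (min_le_right _ _).trans (min_le_left _ _)
  have cc4' : ∀ j, c ≤ cD' j := fun j => by
    rw [hcdef]
    exact ((min_le_right _ _).trans (min_le_right _ _)).trans (hinf j)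
  have cc4 : ∀ j, c ≤ cD j := fun j => (cc4' j).trans (by rw [hcD']; exact min_le_left _ _)
  have cc5 : ∀ j, c * deriv (D o j) g ≤ 1 := fun j => by
    have h1 : c ≤ 1 / (deriv (D o j) g + 1) := (cc4' j).trans (by rw [hcD']; exact min_le_right _ _)
    have h2 := hSD0 j
    rw [le_div_iff₀ (by linarith)] at h1
    linarith
  obtain ⟨r₁, hr₁, hR⟩ := hR c hc0 cc1
  -- a common scale
  obtain ⟨r₂, hr₂, hS2⟩ : ∃ r₂ : ℝ, 0 < r₂ ∧ ∀ r : ℝ, 0 < r → r < r₂ →
      Slp (fun a => P a a) c g r ∧ ∀ j, Slp (D o j) c g r := by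
    have hfin' : (Set.range fun j : Option J => j.elim rP rD).Finite := Set.finite_range _
    refine ⟨⨅ j : Option J, j.elim rP rD, ?_, fun r hr hr' => ⟨hsP r hr (hr'.trans_le
      (ciInf_le hfin'.bddBelow none)) c hc0 cc2, fun j => hsD j r hr (hr'.trans_le
      (ciInf_le hfin'.bddBelow (some j))) c hc0 (cc4 j)⟩⟩
    obtain ⟨j, hj⟩ := exists_eq_ciInf_of_finite (f := fun j : Option J => j.elim rP rD)
    rw [← hj]
    cases j with
    | none => exact hrP
    | some j => exact hrD j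
  refine ⟨3 / c, c, by positivity, hc0, fun e he => ?_⟩
  -- the error
  obtain ⟨e', he'⟩ : ∃ e', e' = min e 1 := ⟨_, rfl⟩
  have he'0 : 0 < e' := by rw [he']; exact lt_min he one_pos
  have he'e : e' ≤ e := by rw [he']; exact min_le_left _ _
  have he'1 : e' ≤ 1 := by rw [he']; exact min_le_right _ _
  obtain ⟨r₄, hr₄, hAf⟩ := dgC_aff hg0 hg1 hdif hPg hS hS0 hdens he'0
  obtain ⟨r₅, hr₅, hDf⟩ : ∃ r₅ : ℝ, 0 < r₅ ∧ ∀ r : ℝ, 0 < r → r < r₅ → ∀ j,
      AffB (D o j) (D o j g) (deriv (D o j) g) g (8 * r) (e' * r) := by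
    have h1 : ∀ j : J, ∃ r₀ : ℝ, 0 < r₀ ∧ ∀ r : ℝ, 0 < r → r < r₀ →
      AffB (D o j) (D o j g) (deriv (D o j) g) g (8 * r) (e' * r) := fun j =>
      affB_of (f4 (o, j) hg0 hg1) (by norm_num) he'0
    choose rJ hrJ hJ using h1
    have hfin' : (Set.range fun j : Option J => j.elim 1 rJ).Finite := Set.finite_range _
    refine ⟨⨅ j : Option J, j.elim 1 rJ, ?_, fun r hr hr' j => hJ j r hr (hr'.trans_le
      (ciInf_le hfin'.bddBelow (some j)))⟩
    obtain ⟨j, hj⟩ := exists_eq_ciInf_of_finite (f := fun j : Option J => j.elim 1 rJ)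
    rw [← hj]
    cases j with
    | none => exact one_pos
    | some j => exact hrJ j
  obtain ⟨k, r₃, hr₃, hA⟩ := hA c hc0 cc3 e he
  refine ⟨fun r => ((k r, o), e'), fun r j => D o (f o j) g, ?_, ?_,
    min (min (min r₁ r₂) (min r₃ e)) (min rB (min r₄ r₅)),
    lt_min (lt_min (lt_min hr₁ hr₂) (lt_min hr₃ he)) (lt_min hrB (lt_min hr₄ hr₅)),
    fun r hr hr' => ?_⟩
  · -- the boxes
    refine ⟨min r₂ (min (g / 8) ((1 - g) / 8)), lt_min hr₂ (lt_min (by linarith) (by linarith)),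
      fun r hr hr' => ?_⟩
    have m1 : r < r₂ := hr'.trans_le (min_le_left _ _)
    have m2 : r < g / 8 := (hr'.trans_le (min_le_right _ _)).trans_le (min_le_left _ _)
    have m3 : r < (1 - g) / 8 := (hr'.trans_le (min_le_right _ _)).trans_le (min_le_right _ _)
    refine ⟨hPB _, fun a w h1 h2 h3 => hle _ a w (by linarith) h2 (by linarith), fun j => ?_⟩
    have hSj := (hS2 r hr m1).2 (f o j)
    have hbox : ∀ y : ℝ × ℝ, WBox g (2 * r) y → g - 4 * r ≤ y.1 ∧ y.1 ≤ g + 4 * r ∧ 0 ≤ y.2 ∧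
        y.2 ≤ 2 * r := by
      intro y hy
      have := abs_le.1 hy.1
      exact ⟨by linarith, by linarith, hy.2.1, hy.2.2⟩
    refine ⟨fun y y' hy h1 h2 => ?_, fun y h1 => ?_⟩
    · obtain ⟨a1, a2, a3, a4⟩ := hbox y h1
      obtain ⟨b1, b2, b3, b4⟩ := hbox y' h2
      exact (hbe (k r, o) j).mono (by linarith) (by linarith) (by linarith [hy.1, hy.2]) hy.1
        (by linarith) (by linarith)
    · obtain ⟨a1, a2, a3, a4⟩ := hbox y h1
      have u1 : be (k r, o) j y.1 y.1 ≤ be (k r, o) j (y.1 + y.2) y.1 :=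
        (hbe (k r, o) j).mono (by linarith) le_rfl (by linarith) le_rfl (by linarith)
          (by linarith)
      have u2 : be (k r, o) j (y.1 + y.2) y.1 ≤ be (k r, o) j (y.1 + y.2) (y.1 + y.2) :=
        (hbe (k r, o) j).mono (by linarith) (by linarith) le_rfl (by linarith) le_rfl
          (by linarith)
      rw [hdia (k r) o j _ (by linarith) (by linarith)] at u1 u2
      have u3 : D o (f o j) (y.1 + y.2) ≤ D o (f o j) (g + 6 * r) :=
        hDm o _ _ _ (by linarith) (by linarith) (by linarith)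
      have u4 : D o (f o j) (g - 4 * r) ≤ D o (f o j) y.1 :=
        hDm o _ _ _ (by linarith) (by linarith) (by linarith)
      have u5 := hSj g (g + 6 * r) hg0.le le_rfl (by linarith) (by linarith)
      have u6 := hSj (g - 4 * r) g (by linarith) (by linarith) le_rfl (by linarith)
      show |be (k r, o) j (y.1 + y.2) y.1 - D o (f o j) g| ≤ 3 / c * (2 * r)
      have e1 : 3 / c * (2 * r) = (6 * r) / c := by ring
      have e2 : ∀ z : ℝ, |z| * c = |c * z| := fun z => by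
        rw [abs_mul, abs_of_pos hc0, mul_comm]
      rw [e1, le_div_iff₀ hc0, e2, abs_le]
      constructor
      · have := mul_le_mul_of_nonneg_left (u4.trans u1) hc0.le
        linarith
      · have := mul_le_mul_of_nonneg_left (u2.trans u3) hc0.le
        linarith
  · -- the diagonal
    refine famDg_of_density hdens he ⟨min (g / 8) ((1 - g) / 8), lt_min (by linarith)
      (by linarith), fun r hr hr' a ha _ => ?_⟩
    have := hWd (k r) o a ha
    have := mul_pos he hr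
    linarith
  · have n1 := hr'.trans_le (min_le_left _ _)
    have n2 := hr'.trans_le (min_le_right _ _)
    have m1 : r < r₁ := (n1.trans_le (min_le_left _ _)).trans_le (min_le_left _ _)
    have m2 : r < r₂ := (n1.trans_le (min_le_left _ _)).trans_le (min_le_right _ _)
    have m3 : r < r₃ := (n1.trans_le (min_le_right _ _)).trans_le (min_le_left _ _)
    have m4 : r < e := (n1.trans_le (min_le_right _ _)).trans_le (min_le_right _ _)
    have m5 : r < rB := n2.trans_le (min_le_left _ _)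
    have m6 : r < r₄ := (n2.trans_le (min_le_right _ _)).trans_le (min_le_left _ _)
    have m7 : r < r₅ := (n2.trans_le (min_le_right _ _)).trans_le (min_le_right _ _)
    obtain ⟨h1, h2⟩ := hA r hr m3
    obtain ⟨hP8, hB7⟩ := hAf r hr m6
    refine ⟨⟨⟨hR r hr m1, (hS2 r hr m2).1, (hS2 r hr m2).2, ho, h1⟩, he'0, he'1, ?_,
      ⟨S, hS1, ccS, hP8, hB7 _ (hDgC (k r) o)⟩, hsB r hr m5 c hc0 ccB _ (hDgC (k r) o),
      fun j => ⟨_, hSD0 j, cc5 j, hDf r hr m7 j⟩⟩, ?_⟩
    · -- the level of the row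
      show Lv (PB (k r, o)) (Q, 0) = g
      refine le_antisymm ?_ ?_
      · refine lev_le (P := PB (k r, o)) (Q := cl Q) (q := cl 0) ⟨?_, hg1.le, Or.inl ?_⟩
        · rw [cl_of_mem le_rfl zero_le_one]
          exact hg0.le
        · rw [cl_of_mem le_rfl zero_le_one, sub_zero, cl_of_mem hrow.Q0.le hrow.Q1.le, ← hPg]
          exact hWd (k r) o g hWo
      · rw [hg]
        exact lv_anti (hPB (k r, o)) (hle (k r, o)) (Q, 0)
    · refine max_le (max_le h2 (mul_le_mul_of_nonneg_right m4.le hr.le)) ?_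
      exact mul_le_mul_of_nonneg_right he'e hr.le

/-- **The micro input from the charts and statement R at fixed depth.** -/
theorem micE (hP : Law P) (hP01 : ∀ a : ℝ, 0 ≤ a → a ≤ 1 → 0 ≤ P a a ∧ P a a ≤ 1)
    (hρ : LipschitzWith 1 ρ) (hJ : E.NoJ2) (hF : E.RoQ) : MicW P ρ := by
  obtain ⟨N', h1, h2⟩ := E.selE hP hP01 hρ
  exact micW_of_box2 hP h1 hJ (noFB_of_rowQ E.near2 hF) h2

end CellD

end Pool.STR

namespace Pool.ONE

open Set Pool.KA Pool.GEN Pool.STR Pool.LEV Pool.ALL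

/-- **Charts without joint cells and with statement R at fixed depth.** -/
def CellQ (n : ℕ) : Prop := LocN n fun P r => ∃ E : CellD P r, E.NoJ2 ∧ E.RoQ

/-- **The micro statement from the joint cells and statement R.** -/
theorem mic_of_cellQ {n : ℕ} (h : CellQ n) : Mic n := by
  refine LocN.mono h fun P r h1 h2 h3 _ _ h6 => ?_
  obtain ⟨E, hJ, hF⟩ := h6
  exact E.micE h1 (fun a h0 h1' => ⟨h0.trans (h2 a a h0 le_rfl h1').1, (h2 a a h0 le_rfl h1').2⟩)
    h3 hJ hF

end Pool.ONE
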