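import Pool.Agent.H39.GEN.FroT

/-!
# The micro statement when all boxes are the fattest ones

The threshold of the target over the boxes is the number `P w w + (a - w)`. Then no cells are
needed. `SloW`: at almost all rows which are not full the slope of the diagonal is one; this gives
`MicW` (`SloW.micW`), because a row where the slope of the diagonal is one is free from the window
(`wfu_of_one`).

`IsoD`: the data of the charts and the orders (no thresholds off the diagonal). `IsoD.NoI`: there is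
no box on which all diagonals are affine, the slope of the target is larger than one and the rows
are not full. `CellJ n` gives `Mic n` (`mic_of_cellJ`) and the slopes (`slo_of_cellJ`).
-/

set_option autoImplicit false

namespace Pool.STR

open MeasureTheory Set Filter Topology Pool.LEV

/-- **The slope of the diagonal is one** at almost all rows which are not full. -/
def SloW (P : ℝ → ℝ → ℝ) (ρ : ℝ → ℝ) : Prop :=
  ∀ᵐ Q : ℝ, 0 < Q → Q < 1 → 0 < Lv P (Q, 0) → DifferentiableAt ℝ (fun Q => Lv P (Q, 0)) Q →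
    0 < deriv (fun Q => Lv P (Q, 0)) Q → DifferentiableAt ℝ ρ Q → deriv ρ Q < 1 →
      deriv (fun Q => Lv P (Q, 0)) Q = 1

/-- **(S) at the rows where the slope of the diagonal is one.** -/
def StaE (P : ℝ → ℝ → ℝ) (ρ : ℝ → ℝ) : Prop :=
  ∀ h : ℝ, 0 < h → ∀ᵐ Q : ℝ, 0 < Q → Q < 1 → 0 < Lv P (Q, 0) →
    DifferentiableAt ℝ (fun Q => Lv P (Q, 0)) Q → deriv (fun Q => Lv P (Q, 0)) Q = 1 →
    DifferentiableAt ℝ ρ Q → 1 - h ≤ deriv ρ Q

/-- A row where the level grows at most like the row is uniformly free from the window. -/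
theorem wfu_of_lv {P : ℝ → ℝ → ℝ} (hP : Law P) {Q g : ℝ} (hQ0 : 0 < Q) (hQ1 : Q < 1)
    (hg : g = Lv P (Q, 0)) (hg0 : 0 < g) (hg1 : g < 1)
    (hd : DifferentiableAt ℝ (fun Q => Lv P (Q, 0)) Q)
    (h1 : deriv (fun Q => Lv P (Q, 0)) Q = 1) : WfU P Q := by
  intro ε hε
  obtain ⟨e, he⟩ : ∃ e, e = ε / 4 := ⟨_, rfl⟩
  have he0 : 0 < e := by rw [he]; linarith
  obtain ⟨r₁, hr₁, haf⟩ := affB_of hd (M := 4) (e := e) (by norm_num) he0
  rw [h1] at haf
  simp only [← hg] at haf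
  obtain ⟨e₂, he₂⟩ : ∃ e₂, e₂ = min e 1 := ⟨_, rfl⟩
  have he₂0 : 0 < e₂ := by rw [he₂]; exact lt_min he0 one_pos
  have he₂e : e₂ ≤ e := by rw [he₂]; exact min_le_left _ _
  have he₂1 : e₂ ≤ 1 := by rw [he₂]; exact min_le_right _ _
  refine ⟨min r₁ (min (min (g / 8) ((1 - g) / (8 * (1 + e)))) (min (Q / 8) ((1 - Q) / 8))), ?_,
    fun r hr hr' Q' hQ' => ?_⟩
  · exact lt_min hr₁ (lt_min (lt_min (by linarith) (div_pos (by linarith) (by positivity)))
      (lt_min (by linarith) (by linarith)))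
  have m1 : r < r₁ := hr'.trans_le (min_le_left _ _)
  have n1 := hr'.trans_le (min_le_right _ _)
  have m2 : r < g / 8 := (n1.trans_le (min_le_left _ _)).trans_le (min_le_left _ _)
  have m3 : r < (1 - g) / (8 * (1 + e)) := (n1.trans_le (min_le_left _ _)).trans_le
    (min_le_right _ _)
  have m4 : r < Q / 8 := (n1.trans_le (min_le_right _ _)).trans_le (min_le_left _ _)
  have m5 : r < (1 - Q) / 8 := (n1.trans_le (min_le_right _ _)).trans_le (min_le_right _ _)
  rw [lt_div_iff₀ (by positivity)] at m3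
  have her : 0 < e * r := mul_pos he0 hr
  have m3' : 8 * r + 8 * (e * r) < 1 - g := by linarith
  obtain ⟨q1, q2⟩ := abs_le.1 hQ'
  have haf' := haf r hr m1
  -- the level of the row at depth zero
  have b0 := abs_le.1 (haf' Q' (by linarith [abs_le.1 hQ']))
  simp only at b0
  -- the diagonal at a radius a little below
  obtain ⟨Q₂, hQ₂⟩ : ∃ Q₂, Q₂ = Q' - r + e₂ * r := ⟨_, rfl⟩
  have hek : e₂ * r ≤ 1 * r := mul_le_mul_of_nonneg_right he₂1 hr.le
  have hek0 : 0 < e₂ * r := mul_pos he₂0 hr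
  have hek' : e₂ * r ≤ e * r := mul_le_mul_of_nonneg_right he₂e hr.le
  have b2 := abs_le.1 (haf' Q₂ (by rw [hQ₂, abs_le]; constructor <;> linarith))
  simp only at b2
  -- the radius
  obtain ⟨w, hw⟩ : ∃ w, w = g + (Q₂ - Q) + 2 * (e * r) := ⟨_, rfl⟩
  have hlw : Lv P (Q₂, 0) < w := by rw [hw]; linarith [b2.2]
  have hw0 : 0 ≤ w := by
    rw [hw, hQ₂]
    linarith
  have hw1 : w + r ≤ 1 := by
    rw [hw, hQ₂]
    linarith
  have c1 : cl Q₂ ≤ P w (w - cl 0) :=
    le_of_lev_lt hP (cl_nonneg _) (cl_le_one _) hlw (by linarith)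
  rw [cl_of_mem (by rw [hQ₂]; linarith) (by rw [hQ₂]; linarith), cl_of_mem le_rfl zero_le_one,
    sub_zero] at c1
  have c2 := hP.slope w w r hw0 le_rfl hr.le hw1
  have c3 : Q' ≤ P (w + r) w := by
    refine le_trans (le_min (by linarith) ?_) c2
    rw [hQ₂] at c1
    linarith
  have c4 : Lv P (Q', r) ≤ w + r := by
    refine lev_le (P := P) (Q := cl Q') (q := cl r) ⟨?_, hw1, Or.inl ?_⟩
    · rw [cl_of_mem hr.le (by linarith)]
      linarith
    · rw [cl_of_mem hr.le (by linarith), add_sub_cancel_right, cl_of_mem (by linarith)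
        (by linarith)]
      exact c3
  have c5 : Lv P (Q', r) - Lv P (Q', 0) ≤ 4 * (e * r) := by
    rw [hw, hQ₂] at c4
    linarith [b0.1]
  have c6 : 4 * (e * r) = ε * r := by rw [he]; ring
  rw [c6] at c5
  exact c5

/-- **The micro input from the slopes.** -/
theorem SloW.micW {P : ℝ → ℝ → ℝ} {ρ : ℝ → ℝ} (hP : Law P) (h : SloW P ρ) : MicW P ρ := by
  filter_upwards [h] with Q hQ a1 b1 c1 d1 e1 f1 g1
  exact wfu_of_lv hP a1 b1 rfl c1 (lv_lt_one hP d1 e1) d1 (hQ a1 b1 c1 d1 e1 f1 g1)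

/-- The static input is needed only at the rows where the slope is one. -/
theorem StaU.staE {P : ℝ → ℝ → ℝ} {ρ : ℝ → ℝ} (hP : Law P) (h : StaU P ρ) : StaE P ρ := by
  intro h' hh'
  filter_upwards [h h' hh'] with Q hQ a1 b1 c1 d1 e1 f1
  have e2 : 0 < deriv (fun Q => Lv P (Q, 0)) Q := by rw [e1]; exact one_pos
  exact hQ a1 b1 c1 d1 e2 (wfu_of_lv hP a1 b1 rfl c1 (lv_lt_one hP d1 e2) d1 e1) f1

/-- **The static input of the assembly**, from the slopes. -/
theorem staU_of_slo {P : ℝ → ℝ → ℝ} {ρ : ℝ → ℝ} (h : SloW P ρ) (hS : StaE P ρ) : StaU P ρ := by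
  intro h' hh'
  filter_upwards [h, hS h' hh'] with Q k1 k2 a1 b1 c1 d1 e1 _ f1
  by_contra hc
  push Not at hc
  exact absurd (k2 a1 b1 c1 d1 (k1 a1 b1 c1 d1 e1 f1 (by linarith)) f1) (not_le.2 hc)

/-! ### The box form -/

/-- **The data of the charts and orders**, without thresholds off the diagonal. -/
structure IsoD (P : ℝ → ℝ → ℝ) (ρ : ℝ → ℝ) where
  /-- the charts -/
  α : Type
  /-- the orders -/
  O : Type
  /-- the diagonals -/
  J : Type
  cO : Countable O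
  fJ : Fintype J
  /-- the diagonals -/
  D : O → J → ℝ → ℝ
  /-- the windows of an order -/
  G : O → Set ℝ
  /-- further properties of the selected charts: `Ad' c k Q g r` -/
  Ad' : ℝ → α × O → ℝ → ℝ → ℝ → Prop
  /-- the defects -/
  df : α × O → ℝ → ℝ → ℝ
  /-- windows which are left out -/
  N : Set ℝ
  hDm : ∀ o j, ∀ x y : ℝ, 0 ≤ x → x ≤ y → y ≤ 1 → D o j x ≤ D o j y
  hD0 : ∀ o j, ∀ x : ℝ, 0 ≤ x → x ≤ 1 → 0 ≤ D o j x
  hD1 : ∀ o j, ∀ x : ℝ, 0 ≤ x → x ≤ 1 → D o j x ≤ 1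
  hG : ∀ᵐ g : ℝ, 0 < g → g < 1 →
    (∃ a', g < a' ∧ a' ≤ 1 ∧ ρ 1 - ρ (P a' a') < 1 - P a' a') → ∃ o, g ∈ G o
  hN : volume N = 0
  hch : ∀ᵐ Q : ℝ, RowD P ρ Nᶜ Q → ∀ o, Lv P (Q, 0) ∈ G o → ∃ c : ℝ, 0 < c ∧
    ∀ c' : ℝ, 0 < c' → c' ≤ c → ∀ e : ℝ, 0 < e → ∃ (k : ℝ → α) (r₀ : ℝ), 0 < r₀ ∧
      ∀ r : ℝ, 0 < r → r < r₀ → Ad' c' (k r, o) Q (Lv P (Q, 0)) r ∧
        df (k r, o) (Lv P (Q, 0)) r ≤ e * r

namespace IsoD

variable {P : ℝ → ℝ → ℝ} {ρ : ℝ → ℝ} (E : IsoD P ρ)

/-- **The box of the row `Q` at the window `g`**: all diagonals are affine, up to `e r`, with the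
slopes `S` of the target and `Sj j`. -/
structure AdI (c e : ℝ) (k : E.α × E.O) (Q g r S : ℝ) (Sj : E.J → ℝ) : Prop where
  row : AdR P ρ c Q g r
  mem : g ∈ E.G k.2
  ad : E.Ad' c k Q g r
  slP : Slp (fun a => P a a) c g r
  slD : ∀ j, Slp (E.D k.2 j) c g r
  cS : c * S ≤ 1
  aff : AffB (fun a => P a a) Q S g (8 * r) (e * r)
  S0 : ∀ j, 0 ≤ Sj j
  cSj : ∀ j, c * Sj j ≤ 1
  affj : ∀ j, AffB (E.D k.2 j) (E.D k.2 j g) (Sj j) g (8 * r) (e * r)

/-- **No box** with a slope of the target larger than one and nonfull rows. -/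
def NoI : Prop :=
  ∀ c β h : ℝ, 0 < c → 0 < β → 0 < h → ∃ ε : ℝ, 0 < ε ∧ ∃ M : ℝ, 0 < M ∧
    ∀ (k : E.α × E.O) (Q g r S : ℝ) (Sj : E.J → ℝ), 0 < r → 8 * r < g → 8 * r < 1 - g →
      8 * r < Q → 8 * r < 1 - Q → r ≤ ε → E.AdI c ε k Q g r S Sj → 1 + β ≤ S →
      NfB ρ h (ε * r) (Q - M * r) (Q + M * r) → E.df k g r ≤ ε * r → False

/-- **Boxes at the rows where the slope is not one.** -/
theorem rowI (hP : Law P) (hP01 : ∀ a : ℝ, 0 ≤ a → a ≤ 1 → 0 ≤ P a a ∧ P a a ≤ 1)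
    (hρ : LipschitzWith 1 ρ) : ∀ᵐ Q : ℝ, 0 < Q → Q < 1 → 0 < Lv P (Q, 0) →
      DifferentiableAt ℝ (fun Q => Lv P (Q, 0)) Q → 0 < deriv (fun Q => Lv P (Q, 0)) Q →
      DifferentiableAt ℝ ρ Q → deriv ρ Q < 1 → deriv (fun Q => Lv P (Q, 0)) Q ≠ 1 →
      ∃ c β h : ℝ, 0 < c ∧ 0 < β ∧ 0 < h ∧ ∀ ε M : ℝ, 0 < ε → 0 < M → ∃ r₀ : ℝ, 0 < r₀ ∧
        ∀ r : ℝ, 0 < r → r < r₀ → ∃ (k : E.α × E.O) (S : ℝ) (Sj : E.J → ℝ),
          8 * r < Lv P (Q, 0) ∧ 8 * r < 1 - Lv P (Q, 0) ∧ 8 * r < Q ∧ 8 * r < 1 - Q ∧ r ≤ ε ∧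
          E.AdI c ε k Q (Lv P (Q, 0)) r S Sj ∧ 1 + β ≤ S ∧
          NfB ρ h (ε * r) (Q - M * r) (Q + M * r) ∧ E.df k (Lv P (Q, 0)) r ≤ ε * r := by
  obtain ⟨α, O, J, cO, fJ, D, G, Ad', df, N, hDm, hD0, hD1, hG, hN, hch⟩ := E
  classical
  have hDc : ∀ o j, Monotone fun a => D o j (cl a) := fun o j x y hxy =>
    hDm o j _ _ (cl_nonneg _) (cl_mono hxy) (cl_le_one _)
  have hfa : ∀ᵐ g : ℝ, (0 < g → g < 1 →
      (∃ a', g < a' ∧ a' ≤ 1 ∧ ρ 1 - ρ (P a' a') < 1 - P a' a') → ∃ o, g ∈ G o) ∧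
      (∀ p : O × J, 0 < g → g < 1 → DifferentiableAt ℝ (D p.1 p.2) g) ∧
      (0 < g → g < 1 → DifferentiableAt ℝ (fun a => P a a) g) := by
    have h3 : ∀ᵐ g : ℝ, ∀ p : O × J, 0 < g → g < 1 → DifferentiableAt ℝ (D p.1 p.2) g :=
      ae_all_iff.2 fun p => by
        filter_upwards [(hDc p.1 p.2).ae_differentiableAt] with g hg h0 h1
        refine hg.congr_of_eventuallyEq ?_
        filter_upwards [Ioo_mem_nhds h0 h1] with x hx
        rw [cl_of_mem hx.1.le hx.2.le]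
    filter_upwards [hG, h3, diag_aeC hP] with g k1 k4 k5
    exact ⟨k1, k4, k5⟩
  obtain ⟨N', hN'⟩ : ∃ N' : Set ℝ, N' = N ∪ {g : ℝ | ¬ ((0 < g → g < 1 →
      (∃ a', g < a' ∧ a' ≤ 1 ∧ ρ 1 - ρ (P a' a') < 1 - P a' a') → ∃ o, g ∈ G o) ∧
      (∀ p : O × J, 0 < g → g < 1 → DifferentiableAt ℝ (D p.1 p.2) g) ∧
      (0 < g → g < 1 → DifferentiableAt ℝ (fun a => P a a) g))} := ⟨_, rfl⟩
  have hN'0 : volume N' = 0 := by
    rw [hN']
    exact measure_union_null hN (ae_iff.1 hfa)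
  have hgm : Monotone (fun Q => Lv P (Q, 0)) := fun x y hxy => Lv_mono hP ⟨hxy, le_rfl⟩
  filter_upwards [ae_notMem_of_null hgm hN'0, hch] with Q hQm hQ a1 b1 c1 d1 e1 f1 g1 hne
  have hlt := lv_lt_one hP d1 e1
  have hmem := hQm d1 e1
  have hrow : RowD P ρ N'ᶜ Q := ⟨a1, b1, c1, hlt, hmem, d1, e1, f1, g1⟩
  rw [hN'] at hmem
  simp only [mem_union, mem_ofPred_eq, not_or, not_not] at hmem
  obtain ⟨hgN, k1, k4, k5⟩ := hmem
  have hrow' : RowD P ρ Nᶜ Q := { hrow with mem := hgN }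
  obtain ⟨g, hg⟩ : ∃ g, g = Lv P (Q, 0) := ⟨_, rfl⟩
  obtain ⟨cR, hcR, hR⟩ := adR_of hP hρ hrow
  obtain ⟨Cd, hCd, rd, hrd, hbd⟩ := diag_bdB hP hrow.Q0 hrow.Q1 hg (by rw [hg]; exact c1)
    (by rw [hg]; exact hlt) hrow.dif hrow.dpos
  have hQ := hQ hrow'
  have hg0 := c1
  have hg1 := hlt
  have hd1 := d1
  rw [← hg] at hg0 hg1 k1 k4 k5 hR hQ
  -- the value on the diagonal
  have hPg : P g g = Q := by
    have h1 : |P g g - Q| ≤ 0 := by
      refine le_of_forall_pos_le_add fun d hd => ?_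
      obtain ⟨r, hr⟩ : ∃ r, r = min (rd / 2) (d / Cd) := ⟨_, rfl⟩
      have hr0 : 0 < r := by rw [hr]; exact lt_min (by linarith) (by positivity)
      have hr1 : r < rd := by
        have : r ≤ rd / 2 := by rw [hr]; exact min_le_left _ _
        linarith
      have hr2 : r ≤ d / Cd := by rw [hr]; exact min_le_right _ _
      rw [le_div_iff₀ hCd] at hr2
      have := hbd r hr0 hr1 g (by rw [sub_self, abs_zero]; exact hr0.le)
      linarith
    have h2 := abs_nonneg (P g g - Q)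
    have h3 := abs_eq_zero.1 (le_antisymm h1 h2)
    linarith
  obtain ⟨S, hS⟩ : ∃ S, S = deriv (fun a => P a a) g := ⟨_, rfl⟩
  obtain ⟨d, hdd⟩ : ∃ d, d = deriv (fun Q => Lv P (Q, 0)) Q := ⟨_, rfl⟩
  have hdif := k5 hg0 hg1
  -- the slope of the level is at most one
  have hd_le : d ≤ 1 := by
    have hlip : LipschitzWith 1 (fun Q => Lv P (Q, 0)) := by
      refine LipschitzWith.of_dist_le_mul fun x y => ?_
      refine ((Lv_lip hP).dist_le_mul _ _).trans ?_
      rw [Prod.dist_eq]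
      simp
    have h1 := norm_deriv_le_of_lipschitz hlip (x₀ := Q)
    rw [Real.norm_eq_abs, ← hdd, NNReal.coe_one] at h1
    exact (le_abs_self d).trans h1
  rw [← hdd] at e1
  -- the product of the slopes
  have hkey : ∀ e : ℝ, 0 < e → e ≤ d / 4 → |S * d - 1| ≤ e * (2 * |S| + 1) := by
    intro e he hed
    obtain ⟨r₁, hr₁, hA⟩ := affB_of hd1 (M := 1) (e := e) one_pos he
    obtain ⟨r₂, hr₂, hB⟩ := affB_of hdif (M := 2) (e := e) (by norm_num) he
    rw [← hdd] at hA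
    rw [← hS] at hB
    simp only [← hg, hPg] at hA hB
    obtain ⟨r, hr⟩ : ∃ r, r = min (min (r₁ / 2) (r₂ / 2)) (min (min (g / 4) ((1 - g) / 4))
      (min (Q / 2) ((1 - Q) / 2))) := ⟨_, rfl⟩
    have hr0 : 0 < r := by
      rw [hr]
      exact lt_min (lt_min (by linarith) (by linarith)) (lt_min (lt_min (by linarith)
        (by linarith)) (lt_min (by linarith) (by linarith)))
    have m1 : r ≤ r₁ / 2 := by rw [hr]; exact (min_le_left _ _).trans (min_le_left _ _)
    have m2 : r ≤ r₂ / 2 := by rw [hr]; exact (min_le_left _ _).trans (min_le_right _ _)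
    have m3 : r ≤ g / 4 := by
      rw [hr]; exact (min_le_right _ _).trans ((min_le_left _ _).trans (min_le_left _ _))
    have m4 : r ≤ (1 - g) / 4 := by
      rw [hr]; exact (min_le_right _ _).trans ((min_le_left _ _).trans (min_le_right _ _))
    have m5 : r ≤ Q / 2 := by
      rw [hr]; exact (min_le_right _ _).trans ((min_le_right _ _).trans (min_le_left _ _))
    have m6 : r ≤ (1 - Q) / 2 := by
      rw [hr]; exact (min_le_right _ _).trans ((min_le_right _ _).trans (min_le_right _ _))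
    have her : 0 < e * r := mul_pos he hr0
    have hdr : d * r ≤ 1 * r := mul_le_mul_of_nonneg_right hd_le hr0.le
    have hdr0 : 0 < d * r := mul_pos e1 hr0
    have hed' : e * r ≤ d / 4 * r := mul_le_mul_of_nonneg_right hed hr0.le
    have hed2 : d / 4 * r = d * r / 4 := by ring
    -- the level of the row `Q + r`
    have n1 := abs_le.1 (hA r hr0 (by linarith) (Q + r) (by
      rw [add_sub_cancel_left, abs_of_pos hr0, one_mul]))
    rw [add_sub_cancel_left] at n1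
    -- radii on both sides
    obtain ⟨x, hx⟩ : ∃ x, x = g + d * r + 2 * (e * r) := ⟨_, rfl⟩
    obtain ⟨y, hy⟩ : ∃ y, y = g + d * r - 2 * (e * r) := ⟨_, rfl⟩
    have x1 : cl (Q + r) ≤ P x (x - cl 0) :=
      le_of_lev_lt hP (cl_nonneg _) (cl_le_one _) (by
        show Lv P (Q + r, 0) < x
        rw [hx]; linarith [n1.2]) (by rw [hx]; linarith)
    rw [cl_of_mem (by linarith) (by linarith), cl_of_mem le_rfl zero_le_one, sub_zero] at x1
    have y1 : P y y ≤ Q + r := by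
      by_contra hc
      push Not at hc
      have : Lv P (Q + r, 0) ≤ y := by
        refine lev_le (P := P) (Q := cl (Q + r)) (q := cl 0) ⟨?_, ?_, Or.inl ?_⟩
        · rw [cl_of_mem le_rfl zero_le_one, hy]
          linarith
        · rw [hy]
          linarith
        · rw [cl_of_mem le_rfl zero_le_one, sub_zero, cl_of_mem (by linarith) (by linarith)]
          exact hc.le
      rw [hy] at this
      linarith [n1.1]
    have x2 := abs_le.1 (hB r hr0 (by linarith) x (by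
      rw [hx, abs_of_pos (by linarith)]; linarith))
    have y2 := abs_le.1 (hB r hr0 (by linarith) y (by
      rw [hy, abs_of_pos (by linarith)]; linarith))
    simp only at x2 y2
    have hx' : x - g = d * r + 2 * (e * r) := by rw [hx]; ring
    have hy' : y - g = d * r - 2 * (e * r) := by rw [hy]; ring
    rw [hx'] at x2
    rw [hy'] at y2
    have z1 : r ≤ S * (d * r) + 2 * (S * (e * r)) + e * r := by
      have : S * (d * r + 2 * (e * r)) = S * (d * r) + 2 * (S * (e * r)) := by ring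
      linarith [x2.2]
    have z2 : S * (d * r) - 2 * (S * (e * r)) - e * r ≤ r := by
      have : S * (d * r - 2 * (e * r)) = S * (d * r) - 2 * (S * (e * r)) := by ring
      linarith [y2.1]
    have z3 : S * (e * r) ≤ |S| * (e * r) := mul_le_mul_of_nonneg_right (le_abs_self S) her.le
    have z5 : |S * d - 1| * r ≤ e * (2 * |S| + 1) * r := by
      have e3 : |S * d - 1| * r = |(S * d - 1) * r| := by rw [abs_mul, abs_of_pos hr0]
      rw [e3, abs_le]
      have e4 : (S * d - 1) * r = S * (d * r) - r := by ring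
      have e5 : e * (2 * |S| + 1) * r = 2 * (|S| * (e * r)) + e * r := by ring
      rw [e4, e5]
      constructor <;> linarith
    exact le_of_mul_le_mul_right z5 hr0
  have hSd : S * d = 1 := by
    have h1 : |S * d - 1| ≤ 0 := by
      refine le_of_forall_pos_le_add fun t ht => ?_
      obtain ⟨e, he⟩ : ∃ e, e = min (d / 4) (t / (2 * |S| + 1)) := ⟨_, rfl⟩
      have hp : 0 < 2 * |S| + 1 := by positivity
      have he0 : 0 < e := by rw [he]; exact lt_min (by linarith) (by positivity)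
      have he1 : e ≤ d / 4 := by rw [he]; exact min_le_left _ _
      have he2 : e ≤ t / (2 * |S| + 1) := by rw [he]; exact min_le_right _ _
      rw [le_div_iff₀ hp] at he2
      linarith [hkey e he0 he1]
    have h2 := abs_eq_zero.1 (le_antisymm h1 (abs_nonneg _))
    linarith
  -- a slope larger than one
  rw [← hdd] at hne
  rw [← hg]
  have hd1' : d < 1 := lt_of_le_of_ne hd_le hne
  have hSp : 0 < S := by
    by_contra hc
    push Not at hc
    have := mul_nonpos_of_nonpos_of_nonneg hc e1.le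
    linarith
  have hS1 : 1 < S := by
    by_contra hc
    push Not at hc
    have := mul_le_mul_of_nonneg_right hc e1.le
    linarith
  obtain ⟨h, hh⟩ : ∃ h, h = 1 - deriv ρ Q := ⟨_, rfl⟩
  have hh0 : 0 < h := by rw [hh]; linarith
  -- the order
  obtain ⟨o, ho⟩ := k1 hg0 hg1 (by
    obtain ⟨r₀, hr₀, h1⟩ := hR cR hcR le_rfl
    obtain ⟨r, hr⟩ : ∃ r, r = min (r₀ / 2) ((1 - g) / 8) := ⟨_, rfl⟩
    have hr0 : 0 < r := by rw [hr]; exact lt_min (by linarith) (by linarith)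
    have hr1 : r < r₀ := by
      have : r ≤ r₀ / 2 := by rw [hr]; exact min_le_left _ _
      linarith
    have hr2 : r ≤ (1 - g) / 8 := by rw [hr]; exact min_le_right _ _
    have h2 := h1 r hr0 hr1
    have h3 := h2.row (g + r) (by rw [add_sub_cancel_left, abs_of_pos hr0]; linarith)
    have h4 := h2.pos (P (g + r) (g + r)) (by linarith)
    exact ⟨g + r, by linarith, by linarith, by linarith⟩)
  obtain ⟨cA, hcA, hA⟩ := hQ o ho
  obtain ⟨cP, hcP, rP, hrP, hsP⟩ := slp_of (D := fun a => P a a)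
    (fun x h0 h1 => (hP01 x h0 h1).1)
    (fun x h0 h1 => (hP01 x h0 h1).2) hg0 hg1 hdif
  have hsD : ∀ j : J, ∃ c : ℝ, 0 < c ∧ ∃ r₀ : ℝ, 0 < r₀ ∧ ∀ r : ℝ, 0 < r → r < r₀ →
      ∀ c' : ℝ, 0 < c' → c' ≤ c → Slp (D o j) c' g r := fun j =>
    slp_of (hD0 o j) (hD1 o j) hg0 hg1 (k4 (o, j) hg0 hg1)
  choose cD hcD rD hrD hsD using hsD
  have hSD0 : ∀ j, 0 ≤ deriv (D o j) g := fun j =>
    deriv_nn_of (t := 1 - g) (by linarith) (k4 (o, j) hg0 hg1)
      (fun x h0 h1 => hDm o j g x hg0.le h0 (by linarith))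
  obtain ⟨cD', hcD'⟩ : ∃ cD' : J → ℝ, cD' = fun j => min (cD j) (1 / (deriv (D o j) g + 1)) :=
    ⟨_, rfl⟩
  have hcD'0 : ∀ j, 0 < cD' j := fun j => by
    rw [hcD']
    have := hSD0 j
    exact lt_min (hcD j) (by positivity)
  obtain ⟨c, hcdef⟩ : ∃ c, c = min (min (min cR cP) (1 / S))
    (min cA (⨅ j : Option J, j.elim 1 cD')) := ⟨_, rfl⟩
  have hfin : (Set.range fun j : Option J => j.elim 1 cD').Finite := Set.finite_range _
  have hinf0 : 0 < ⨅ j : Option J, j.elim 1 cD' := by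
    obtain ⟨j, hj⟩ := exists_eq_ciInf_of_finite (f := fun j : Option J => j.elim 1 cD')
    rw [← hj]
    cases j with
    | none => exact one_pos
    | some j => exact hcD'0 j
  have hinf : ∀ j : J, (⨅ j : Option J, j.elim 1 cD') ≤ cD' j := fun j =>
    ciInf_le hfin.bddBelow (some j)
  have hc0 : 0 < c := by
    rw [hcdef]
    exact lt_min (lt_min (lt_min hcR hcP) (by positivity)) (lt_min hcA hinf0)
  have cc0 : c ≤ min (min cR cP) (1 / S) := by rw [hcdef]; exact min_le_left _ _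
  have cc1 : c ≤ cR := (cc0.trans (min_le_left _ _)).trans (min_le_left _ _)
  have cc2 : c ≤ cP := (cc0.trans (min_le_left _ _)).trans (min_le_right _ _)
  have ccS : c * S ≤ 1 := by
    have := cc0.trans (min_le_right _ _)
    rwa [le_div_iff₀ hSp] at this
  have cc3 : c ≤ cA := by rw [hcdef]; exact (min_le_right _ _).trans (min_le_left _ _)
  have cc4' : ∀ j, c ≤ cD' j := fun j => by
    rw [hcdef]
    exact ((min_le_right _ _).trans (min_le_right _ _)).trans (hinf j)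
  have cc4 : ∀ j, c ≤ cD j := fun j => (cc4' j).trans (by rw [hcD']; exact min_le_left _ _)
  have cc5 : ∀ j, c * deriv (D o j) g ≤ 1 := fun j => by
    have h1 : c ≤ 1 / (deriv (D o j) g + 1) := (cc4' j).trans (by rw [hcD']; exact min_le_right _ _)
    have h2 := hSD0 j
    rw [le_div_iff₀ (by linarith)] at h1
    linarith
  obtain ⟨r₁, hr₁, hR⟩ := hR c hc0 cc1
  -- a common scale
  obtain ⟨r₂, hr₂, hS2⟩ : ∃ r₂ : ℝ, 0 < r₂ ∧ ∀ r : ℝ, 0 < r → r < r₂ →
      Slp (fun a => P a a) c g r ∧ ∀ j, Slp (D o j) c g r := by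
    have hfin' : (Set.range fun j : Option J => j.elim rP rD).Finite := Set.finite_range _
    refine ⟨⨅ j : Option J, j.elim rP rD, ?_, fun r hr hr' => ⟨hsP r hr (hr'.trans_le
      (ciInf_le hfin'.bddBelow none)) c hc0 cc2, fun j => hsD j r hr (hr'.trans_le
      (ciInf_le hfin'.bddBelow (some j))) c hc0 (cc4 j)⟩⟩
    obtain ⟨j, hj⟩ := exists_eq_ciInf_of_finite (f := fun j : Option J => j.elim rP rD)
    rw [← hj]
    cases j with
    | none => exact hrP
    | some j => exact hrD j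
  refine ⟨c, S - 1, h, hc0, by linarith, hh0, fun ε M hε hM => ?_⟩
  obtain ⟨r₅, hr₅, hDf⟩ : ∃ r₅ : ℝ, 0 < r₅ ∧ ∀ r : ℝ, 0 < r → r < r₅ → ∀ j,
      AffB (D o j) (D o j g) (deriv (D o j) g) g (8 * r) (ε * r) := by
    have h1 : ∀ j : J, ∃ r₀ : ℝ, 0 < r₀ ∧ ∀ r : ℝ, 0 < r → r < r₀ →
      AffB (D o j) (D o j g) (deriv (D o j) g) g (8 * r) (ε * r) := fun j =>
      affB_of (k4 (o, j) hg0 hg1) (by norm_num) hε
    choose rJ hrJ hJ using h1
    have hfin' : (Set.range fun j : Option J => j.elim 1 rJ).Finite := Set.finite_range _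
    refine ⟨⨅ j : Option J, j.elim 1 rJ, ?_, fun r hr hr' j => hJ j r hr (hr'.trans_le
      (ciInf_le hfin'.bddBelow (some j)))⟩
    obtain ⟨j, hj⟩ := exists_eq_ciInf_of_finite (f := fun j : Option J => j.elim 1 rJ)
    rw [← hj]
    cases j with
    | none => exact one_pos
    | some j => exact hrJ j
  obtain ⟨r₄, hr₄, hPf⟩ := affB_of hdif (M := 8) (e := ε) (by norm_num) hε
  obtain ⟨r₆, hr₆, hnf⟩ := nfB_of f1 g1 hh.le (η := ε) (M := M) hε hM
  obtain ⟨k, r₃, hr₃, hA⟩ := hA c hc0 cc3 ε hε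
  obtain ⟨R, hR'⟩ : ∃ R, R = min (min (min r₁ r₂) (min r₃ ε)) (min (min r₄ (min r₅ r₆))
    (min (min (g / 8) ((1 - g) / 8)) (min (Q / 8) ((1 - Q) / 8)))) := ⟨_, rfl⟩
  have hRp : 0 < R := by
    rw [hR']
    exact lt_min (lt_min (lt_min hr₁ hr₂) (lt_min hr₃ hε)) (lt_min (lt_min hr₄ (lt_min hr₅ hr₆))
      (lt_min (lt_min (by linarith) (by linarith)) (lt_min (by linarith) (by linarith))))
  refine ⟨R, hRp, fun r hr0 hrR => ?_⟩
  have n1 : r < min (min r₁ r₂) (min r₃ ε) := hrR.trans_le (by rw [hR']; exact min_le_left _ _)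
  have n2 := hrR.trans_le (by rw [hR']; exact min_le_right _ _ : R ≤ min (min r₄ (min r₅ r₆))
    (min (min (g / 8) ((1 - g) / 8)) (min (Q / 8) ((1 - Q) / 8))))
  have m1 : r < r₁ := (n1.trans_le (min_le_left _ _)).trans_le (min_le_left _ _)
  have m2 : r < r₂ := (n1.trans_le (min_le_left _ _)).trans_le (min_le_right _ _)
  have m3 : r < r₃ := (n1.trans_le (min_le_right _ _)).trans_le (min_le_left _ _)
  have m3' : r < ε := (n1.trans_le (min_le_right _ _)).trans_le (min_le_right _ _)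
  have m4 : r < r₄ := (n2.trans_le (min_le_left _ _)).trans_le (min_le_left _ _)
  have m5 : r < r₅ := ((n2.trans_le (min_le_left _ _)).trans_le (min_le_right _ _)).trans_le
    (min_le_left _ _)
  have m6 : r < r₆ := ((n2.trans_le (min_le_left _ _)).trans_le (min_le_right _ _)).trans_le
    (min_le_right _ _)
  have n3 := n2.trans_le (min_le_right _ _)
  have m7 : r < g / 8 := (n3.trans_le (min_le_left _ _)).trans_le (min_le_left _ _)
  have m8 : r < (1 - g) / 8 := (n3.trans_le (min_le_left _ _)).trans_le (min_le_right _ _)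
  have m9 : r < Q / 8 := (n3.trans_le (min_le_right _ _)).trans_le (min_le_left _ _)
  have m10 : r < (1 - Q) / 8 := (n3.trans_le (min_le_right _ _)).trans_le (min_le_right _ _)
  obtain ⟨h1, h2⟩ := hA r hr0 m3
  have hPf' := hPf r hr0 m4
  rw [← hS] at hPf'
  simp only [hPg] at hPf'
  exact ⟨(k r, o), S, fun j => deriv (D o j) g, by linarith, by linarith, by linarith,
    by linarith, m3'.le, ⟨hR r hr0 m1, ho, h1, (hS2 r hr0 m2).1, (hS2 r hr0 m2).2, ccS, hPf', hSD0,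
      cc5, hDf r hr0 m5⟩, by linarith, hnf r hr0 m6, h2⟩

/-- **The slopes from the boxes.** -/
theorem sloW (hP : Law P) (hP01 : ∀ a : ℝ, 0 ≤ a → a ≤ 1 → 0 ≤ P a a ∧ P a a ≤ 1)
    (hρ : LipschitzWith 1 ρ) (hI : E.NoI) : SloW P ρ := by
  filter_upwards [E.rowI hP hP01 hρ] with Q hQ a1 b1 c1 d1 e1 f1 g1
  by_contra hne
  obtain ⟨c, β, h, hc, hβ, hh, H⟩ := hQ a1 b1 c1 d1 e1 f1 g1 hne
  obtain ⟨ε, hε, M, hM, hI⟩ := hI c β h hc hβ hh
  obtain ⟨r₀, hr₀, H⟩ := H ε M hε hM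
  obtain ⟨k, S, Sj, k1, k2, k3, k4, k5, k6, k7, k8, k9⟩ := H (r₀ / 2) (by linarith) (by linarith)
  exact hI k Q _ (r₀ / 2) S Sj (by linarith) k1 k2 k3 k4 k5 k6 k7 k8 k9

end IsoD

end Pool.STR

namespace Pool.ONE

open Set Pool.KA Pool.GEN Pool.STR Pool.LEV Pool.ALL

/-- **Charts without boxes** where the slope of the target is larger than one. -/
def CellJ (n : ℕ) : Prop := LocN n fun P r => ∃ E : IsoD P r, E.NoI

/-- **The slope of the diagonal is one** at almost all rows which are not full. -/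
def Slo (n : ℕ) : Prop := LocN n SloW

/-- **The static statement at the rows where the slope is one.** -/
def StE (n : ℕ) : Prop := LocN n StaE

theorem slo_of_cellJ {n : ℕ} (h : CellJ n) : Slo n := by
  refine LocN.mono h fun P r h1 h2 h3 _ _ h6 => ?_
  obtain ⟨E, hI⟩ := h6
  exact E.sloW h1 (fun a h0 h1' => ⟨h0.trans (h2 a a h0 le_rfl h1').1, (h2 a a h0 le_rfl h1').2⟩)
    h3 hI

/-- **The micro statement from the slopes.** -/
theorem mic_of_slo {n : ℕ} (h : Slo n) : Mic n :=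
  LocN.mono h fun _ _ h1 _ _ _ _ h6 => SloW.micW h1 h6

/-- **The static statement from the slopes** and its part at the rows where the slope is one. -/
theorem sta_of_slo {n : ℕ} (h : Slo n) (hS : StE n) : Sta n :=
  LocN.mono (LocN.and h hS) fun _ _ _ _ _ _ _ h6 => staU_of_slo h6.1 h6.2

/-- **The micro statement from the boxes.** -/
theorem mic_of_cellJ {n : ℕ} (h : CellJ n) : Mic n := mic_of_slo (slo_of_cellJ h)

end Pool.ONE
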