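import Pool.Agent.H39.GEN.Psa
import Pool.Agent.H8.OCS.Round

/-!
# The entropy of the sheared coordinates

`psi2_fam`: the entropy of the sheared coordinates and of the coordinate `x (c l)`, given a closed
record at the window `w1`, for one family: from the closed records of chains at two windows, the
shear at the second window, the exactness of the list at the second window and the rates of the
target.
-/

set_option autoImplicit false

namespace Pool.PSI

open Finset Real MvPolynomial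
open Pool.Agent.H49.Ent Pool.Agent.H32.Dense Pool.STK Pool.KA Pool.KSAT Pool.K2S Pool.PB Pool.S6C
open Pool.GEN Pool.CHT Pool.SHR

variable {m J : ℕ}

/-! ### Entropies -/

section

variable {Ω T : Type} [Fintype Ω] {q : Ω → ℝ}

/-- Equal cells. -/
theorem fl_near {p : ℕ} {x y : ℝ} (h : ⌊(2 : ℝ) ^ p * x⌋ = ⌊(2 : ℝ) ^ p * y⌋) :
    |x - y| ≤ 1 / 2 ^ p := by
  have h1 := Int.abs_sub_lt_one_of_floor_eq_floor h
  rw [← mul_sub, abs_mul, abs_of_pos (by positivity)] at h1
  rw [le_div_iff₀ (by positivity)]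
  linarith

/-- The cells of near numbers. -/
theorem ch_fl (hq : IsLaw q) (x : Ω → ℝ) (p k : ℕ) (Z : Ω → T)
    (h : ∀ ω ω', 0 < q ω → 0 < q ω' → Z ω = Z ω' → |x ω' - x ω| ≤ 2 ^ k / 2 ^ p) :
    CH q (fun ω => ⌊(2 : ℝ) ^ p * x ω⌋) Z ≤ (k + 3) * Real.log 2 := by
  have hp : (0 : ℝ) < 2 ^ p := by positivity
  have h1 := Pool.OCSR.Ocs.CH_int hq (fun ω => ⌊(2 : ℝ) ^ p * x ω⌋) Z (c := 2 ^ k + 1) (by
    intro ω ω' hω hω' hz
    have h2 := h ω ω' hω hω' hz
    rw [abs_sub_comm, le_div_iff₀ hp] at h2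
    have h3 : |(2 : ℝ) ^ p * x ω - 2 ^ p * x ω'| ≤ 2 ^ k := by
      rw [← mul_sub, abs_mul, abs_of_pos hp, mul_comm]
      exact h2
    have f1 := Int.floor_le ((2 : ℝ) ^ p * x ω)
    have f2 := Int.lt_floor_add_one ((2 : ℝ) ^ p * x ω)
    have f3 := Int.floor_le ((2 : ℝ) ^ p * x ω')
    have f4 := Int.lt_floor_add_one ((2 : ℝ) ^ p * x ω')
    push_cast
    rw [abs_le] at h3 ⊢
    constructor <;> linarith [h3.1, h3.2])
  refine h1.trans ?_
  have h2 : (2 : ℝ) * (2 ^ k + 1) + 1 ≤ 2 ^ (k + 3) := by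
    rw [pow_add]
    have : (1 : ℝ) ≤ 2 ^ k := one_le_pow₀ (by norm_num)
    linarith
  calc Real.log (2 * (2 ^ k + 1) + 1) ≤ Real.log (2 ^ (k + 3)) :=
        Real.log_le_log (by positivity) h2
    _ = _ := by
        rw [Real.log_pow]
        push_cast
        ring

/-- The chain rule for a list of numbers. -/
theorem rng_le (h0 : ∀ ω, 0 ≤ q ω) (X : ℕ → Ω → ℤ) (Z : Ω → T) (b : ℕ → ℝ) (i : ℕ)
    (h : ∀ l < i, CH q (X l) (fun ω => ((fun l' : Fin l => X l' ω), Z ω)) ≤ b l) :
    CH q (fun ω (l : Fin i) => X l ω) Z ≤ ∑ l ∈ range i, b l := by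
  induction i with
  | zero =>
    rw [Finset.sum_range_zero]
    refine le_of_eq (CH_eq_zero h0 fun ω ω' _ _ _ => ?_)
    funext l
    exact l.elim0
  | succ i ih =>
    have h1 := ih fun l hl => h l (by omega)
    have h2 := h i (by omega)
    have h3 := CH_chain h0 (X i) (fun ω (l : Fin i) => X l ω) Z
    have h4 : CH q (fun ω (l : Fin (i + 1)) => X l ω) Z ≤
        CH q (fun ω => (X i ω, fun l : Fin i => X l ω)) Z := by
      refine CH_mono_left h0 fun ω ω' _ _ hh => ?_
      have h5 := Prod.ext_iff.mp hh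
      have h6 := Prod.ext_iff.mp h5.1
      funext l
      rcases Nat.lt_or_ge (l : ℕ) i with h7 | h7
      · exact congrFun h6.2 ⟨l, h7⟩
      · have h8 : (l : ℕ) = i := by have := l.2; omega
        change X l ω = X l ω'
        rw [h8]
        exact h6.1
    rw [Finset.sum_range_succ]
    linarith

/-- The chain rule for a list of numbers, bounds which do not use the numbers before. -/
theorem rng_le' (h0 : ∀ ω, 0 ≤ q ω) (X : ℕ → Ω → ℤ) (Z : Ω → T) (b : ℕ → ℝ) (i : ℕ)
    (h : ∀ l < i, CH q (X l) Z ≤ b l) :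
    CH q (fun ω (l : Fin i) => X l ω) Z ≤ ∑ l ∈ range i, b l :=
  rng_le h0 X Z b i fun l hl => (CH_mono_cond h0 fun _ _ _ _ hh =>
    (Prod.ext_iff.mp hh).2).trans (h l hl)

end

/-! ### The sheared coordinates -/

/-- The sheared coordinate. -/
noncomputable def zco (F : Fam m J) (c : ℕ → Fin m) (l : ℕ) (v : PtT F → Fin m → ℝ) (i : ℕ)
    (ω : F.Ω) : ℝ := F.x ω (c i) - v (ptr F J ω) (c i) * F.x ω (c l)

/-- The cell of the sheared coordinate, except for the coordinate `c l`. -/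
noncomputable def Cz (F : Fam m J) (c : ℕ → Fin m) (l : ℕ) (v : PtT F → Fin m → ℝ) (M : ℕ → ℕ)
    (i : ℕ) (ω : F.Ω) : ℤ := if i = l then 0 else ⌊(2 : ℝ) ^ (J - M i) * zco F c l v i ω⌋

theorem Cz_ne {F : Fam m J} {c : ℕ → Fin m} {l : ℕ} {v : PtT F → Fin m → ℝ} {M : ℕ → ℕ} {i : ℕ}
    (h : i ≠ l) (ω : F.Ω) : Cz F c l v M i ω = ⌊(2 : ℝ) ^ (J - M i) * zco F c l v i ω⌋ :=
  if_neg h

theorem zco_sub {F : Fam m J} {c : ℕ → Fin m} {l : ℕ} {v : PtT F → Fin m → ℝ} {i : ℕ}
    {ω ω' : F.Ω} (h : v (ptr F J ω) = v (ptr F J ω')) :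
    zco F c l v i ω' - zco F c l v i ω = F.x ω' (c i) - F.x ω (c i) -
      (F.x ω' (c l) - F.x ω (c l)) * v (ptr F J ω) (c i) := by
  unfold zco
  rw [h]
  ring

/-- **The entropy of the sheared coordinates**, for one family. -/
theorem psi2_fam (D r : ℕ) : ∃ C : ℕ, ∀ {m J : ℕ} {F : Fam m J} {c : ℕ → Fin m}
    {l a1 x1 w1 e1 a2 x2 w2 e2 h k Q : ℕ} {g1 g2 M : ℕ → ℕ} {B : F.Ω → Prop}
    {G1 G2 : PtT F → ℕ → MvPolynomial (Option (Fin m)) ℝ}
    {H1 H2 : LnT F → ℕ → MvPolynomial (Option (Fin m)) ℝ} {V1 V2 : Type}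
    {z1 : PtT F → V1} {z1' : LnT F → V1} {P1 : V1 → ℕ → MvPolynomial (Option (Fin m)) ℝ}
    {z2 : PtT F → V2} {z2' : LnT F → V2} {P2 : V2 → ℕ → MvPolynomial (Option (Fin m)) ℝ}
    {v : PtT F → Fin m → ℝ} {v' : V1 → Fin m → ℝ} {q : F.Ω → ℝ} {E R : ℝ},
    l < r → Set.InjOn c (Set.Iio (r + 1)) → IsLaw q → (∀ ω, 0 < q ω → B ω) →
    ChOK F c (r + 1) (fun _ => D) a1 x1 e1 g1 B G1 H1 →
    Cod F c (r + 1) D k a1 w1 g1 B G1 z1 z1' P1 →
    (∀ i < r + 1, ∀ j < i, e1 + C + (Finset.Icc j i).sup g1 ≤ J) →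
    ChOK F c (r + 1) (fun _ => D) a2 x2 e2 g2 B G2 H2 →
    Cod F c (r + 1) D k a2 w2 g2 B G2 z2 z2' P2 →
    (∀ i < r + 1, ∀ j < i, e2 + C * (h + k + 1) + (Finset.Icc j i).sup g2 + M j ≤ J) →
    g2 r + M r ≤ J → g1 r ≤ g2 r →
    (∀ ω, B ω → v (ptr F J ω) = v' (z1' (slam F w1 ω))) →
    (∀ ω, B ω → v (ptr F J ω) (c l) = 1 ∧ ∀ j < l, v (ptr F J ω) (c j) = 0) →
    (∀ ω, B ω → ∀ i, l < i → i ≤ r → |v (ptr F J ω) (c i)| ≤ 2 ^ M i) → (∀ j ≤ l, M j = 0) →
    (∀ ω, B ω → ∀ i, l < i → i ≤ r → Shr F c l a2 g2 G2 v h i ω) →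
    w1 ≤ w2 → w2 ≤ J → Q ≤ J →
    (∀ (V : Type) (z : PtT F → V) (z' : LnT F → V), (∀ ω, B ω → z (ptr F J ω) =
      z' (slam F w2 ω)) → E ≤ CH q (fun ω (j : Fin r) => F.X J ω (c j))
        (fun ω => (z' (slam F w2 ω), F.W ω))) →
    CH q (fun ω => F.X (g2 r) ω (c r)) (fun ω => ((fun j : Fin r => F.X J ω (c j)), F.W ω)) ≤
      R + CH q (fun ω => F.X (g1 r) ω (c r))
        (fun ω => ((fun j : Fin r => F.X J ω (c j)), F.W ω)) →
    CH q (fun ω => (F.X Q ω (c l), fun i : Fin (r + 1) => Cz F c l v M i ω))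
      (fun ω => (z1' (slam F w1 ω), F.W ω)) ≤
      R - E + (((J : ℝ) - M r - g2 r) + ∑ i ∈ range r, ((J : ℝ) - g1 i) +
        ∑ i ∈ (range r).erase l, ((J : ℝ) - g2 i) + ((Q - g2 l : ℕ) : ℝ) +
        C * (h + k + 1)) * Real.log 2 := by
  classical
  obtain ⟨C₁, hnx⟩ := near_x D (r + 1)
  obtain ⟨C₂, hnz⟩ := near_z D (r + 1)
  refine ⟨(4 * r + 8) * (C₁ + C₂ + 4), ?_⟩
  intro m J F c l a1 x1 w1 e1 a2 x2 w2 e2 h k Q g1 g2 M B G1 G2 H1 H2 V1 V2 z1 z1' P1 z2 z2' P2 v
    v' q E R hl hc hq hqB hL1 hC1 hcd1 hL2 hC2 hcd2 hgM hg12 hvc hv1 hvM hM0 hS hw12 hw2 hQ hex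
    hrat
  have h0 := hq.nonneg
  have hl2 : 0 < Real.log 2 := Real.log_pos one_lt_two
  obtain ⟨Z, hZ⟩ : ∃ Z, Z = h + k + 1 := ⟨_, rfl⟩
  obtain ⟨C', hC'⟩ : ∃ C', C' = C₁ + C₂ := ⟨_, rfl⟩
  have hCge : C' ≤ (4 * r + 8) * (C₁ + C₂ + 4) := by rw [hC']; nlinarith
  have hk1 : C₁ * (k + 1) ≤ C' * Z := Nat.mul_le_mul (by omega) (by omega)
  have hk2 : C₂ * (h + k + 1) ≤ C' * Z := Nat.mul_le_mul (by omega) (by omega)
  rw [← hZ] at hcd2
  -- the sides
  have hg1J : ∀ i < r + 1, g1 i ≤ J := by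
    intro i hi
    rcases Nat.lt_or_ge i r with h1 | h1
    · have h2 := hcd1 r (by omega) i h1
      have h3 : g1 i ≤ (Finset.Icc i r).sup g1 := Finset.le_sup (f := g1)
        (Finset.mem_Icc.2 ⟨le_rfl, h1.le⟩)
      omega
    · have h2 := hcd1 r (by omega) l hl
      have h3 : g1 i ≤ (Finset.Icc l r).sup g1 := Finset.le_sup (f := g1)
        (Finset.mem_Icc.2 ⟨by omega, by omega⟩)
      omega
  have hg2J : ∀ i < r, g2 i + M i ≤ J := by
    intro i h1
    have h2 := hcd2 r (by omega) i h1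
    have h3 : g2 i ≤ (Finset.Icc i r).sup g2 := Finset.le_sup (f := g2)
      (Finset.mem_Icc.2 ⟨le_rfl, h1.le⟩)
    omega
  have hMJ : ∀ i ≤ r, M i ≤ J := by
    intro i hi
    rcases Nat.lt_or_ge i r with h1 | h1
    · have := hg2J i h1
      omega
    · have : i = r := by omega
      subst this
      omega
  -- the variables
  obtain ⟨W1, hW1⟩ : ∃ W1 : F.Ω → V1 × (ℕ × F.ζ), W1 = fun ω => (z1' (slam F w1 ω), F.W ω) :=
    ⟨_, rfl⟩
  obtain ⟨K2, hK2⟩ : ∃ K2 : F.Ω → V2 × (V1 × (ℕ × F.ζ)), K2 = fun ω =>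
    (z2' (slam F w2 ω), W1 ω) := ⟨_, rfl⟩
  obtain ⟨XV, hXV⟩ : ∃ XV : F.Ω → Fin r → ℤ, XV = fun ω (j : Fin r) => F.X J ω (c j) := ⟨_, rfl⟩
  obtain ⟨U, hU⟩ : ∃ U : F.Ω → ℤ, U = fun ω => F.X J ω (c l) := ⟨_, rfl⟩
  obtain ⟨UQ, hUQ⟩ : ∃ UQ : F.Ω → ℤ, UQ = fun ω => F.X Q ω (c l) := ⟨_, rfl⟩
  obtain ⟨N', hN'⟩ : ∃ N' : F.Ω → ℤ, N' = fun ω => ⌊(2 : ℝ) ^ g2 r * zco F c l v r ω⌋ := ⟨_, rfl⟩
  obtain ⟨Cr, hCr⟩ : ∃ Cr : F.Ω → Fin r → ℤ, Cr = fun ω (i : Fin r) => Cz F c l v M i ω :=
    ⟨_, rfl⟩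
  obtain ⟨N2, hN2⟩ : ∃ N2 : F.Ω → ℤ, N2 = fun ω => F.X (g2 r) ω (c r) := ⟨_, rfl⟩
  obtain ⟨N1, hN1⟩ : ∃ N1 : F.Ω → ℤ, N1 = fun ω => F.X (g1 r) ω (c r) := ⟨_, rfl⟩
  have dW : ∀ {ω ω' : F.Ω}, 0 < q ω → 0 < q ω' → W1 ω = W1 ω' →
      z1' (slam F w1 ω) = z1' (slam F w1 ω') ∧ F.W ω = F.W ω' ∧ F.t ω = F.t ω' ∧
        v (ptr F J ω) = v (ptr F J ω') := by
    intro ω ω' hω hω' hh
    rw [hW1] at hh
    have h1 := Prod.ext_iff.mp hh
    have h2 : F.W ω = F.W ω' := h1.2
    have h3 : F.T ω = F.T ω' := congrArg Prod.fst h2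
    refine ⟨h1.1, h2, ?_, ?_⟩
    · unfold Fam.t
      rw [h3]
    · rw [hvc ω (hqB ω hω), hvc ω' (hqB ω' hω')]
      exact congrArg v' h1.1
  have dK : ∀ {ω ω' : F.Ω}, K2 ω = K2 ω' → z2' (slam F w2 ω) = z2' (slam F w2 ω') ∧
      W1 ω = W1 ω' := by
    intro ω ω' hh
    rw [hK2] at hh
    exact Prod.ext_iff.mp hh
  -- the coordinates are near if the cells of the list are equal
  have vJ : ∀ {ω ω' : F.Ω}, 0 < q ω → 0 < q ω' → v (ptr F J ω) = v (ptr F J ω') → ∀ i ≤ r,
      i ≠ l → F.X J ω (c l) = F.X J ω' (c l) → ∀ X : ℝ, |F.x ω' (c i) - F.x ω (c i)| ≤ X →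
      |zco F c l v i ω' - zco F c l v i ω| ≤ X + 1 / 2 ^ (J - M i) := by
    intro ω ω' hω hω' hv i hi hil hxl X hX
    rw [zco_sub hv]
    have h2 : |(F.x ω' (c l) - F.x ω (c l)) * v (ptr F J ω) (c i)| ≤ 1 / 2 ^ (J - M i) := by
      rcases Nat.lt_or_ge i l with h3 | h3
      · rw [(hv1 ω (hqB ω hω)).2 i h3, mul_zero, abs_zero]
        positivity
      · have h4 := hvM ω (hqB ω hω) i (by omega) hi
        have h5 : |F.x ω' (c l) - F.x ω (c l)| ≤ 1 / 2 ^ J := by
          rw [abs_sub_comm]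
          exact fl_near hxl
        rw [abs_mul]
        calc |F.x ω' (c l) - F.x ω (c l)| * |v (ptr F J ω) (c i)| ≤ 1 / 2 ^ J * 2 ^ M i :=
              mul_le_mul h5 h4 (abs_nonneg _) (by positivity)
          _ = 1 / 2 ^ (J - M i) := by
              have h6 : (2 : ℝ) ^ J = 2 ^ (J - M i) * 2 ^ M i := by
                rw [← pow_add, Nat.sub_add_cancel (hMJ i hi)]
              rw [h6]
              field_simp
    have h3 := abs_sub (F.x ω' (c i) - F.x ω (c i))
      ((F.x ω' (c l) - F.x ω (c l)) * v (ptr F J ω) (c i))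
    linarith
  -- (S1)
  have s1 : CH q (fun ω => (F.X Q ω (c l), fun i : Fin (r + 1) => Cz F c l v M i ω)) W1 ≤
      CH q (fun ω => (UQ ω, (Cr ω, N' ω))) W1 + ((J - M r - g2 r : ℕ) + 3) * Real.log 2 := by
    have h1 : CH q (fun ω => (F.X Q ω (c l), fun i : Fin (r + 1) => Cz F c l v M i ω)) W1 ≤
        CH q (fun ω => (Cz F c l v M r ω, (UQ ω, (Cr ω, N' ω)))) W1 := by
      refine CH_mono_left h0 fun ω ω' _ _ hh => ?_
      have a1 := Prod.ext_iff.mp (Prod.ext_iff.mp hh).1
      have a2 := Prod.ext_iff.mp a1.2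
      have a3 := Prod.ext_iff.mp a2.2
      have a4 : UQ ω = UQ ω' := a2.1
      have a5 : Cr ω = Cr ω' := a3.1
      rw [hUQ] at a4
      rw [hCr] at a5
      refine Prod.ext a4 (funext fun i => ?_)
      rcases Nat.lt_or_ge (i : ℕ) r with a6 | a6
      · exact congrFun a5 ⟨i, a6⟩
      · have a7 : (i : ℕ) = r := by have := i.2; omega
        change Cz F c l v M i ω = Cz F c l v M i ω'
        rw [a7]
        exact a1.1
    have h2 := CH_chain h0 (Cz F c l v M r) (fun ω => (UQ ω, (Cr ω, N' ω))) W1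
    have h3 : CH q (Cz F c l v M r) (fun ω => ((UQ ω, (Cr ω, N' ω)), W1 ω)) ≤
        ((J - M r - g2 r : ℕ) + 3) * Real.log 2 := by
      have h4 := ch_fl hq (zco F c l v r) (J - M r) (J - M r - g2 r)
        (fun ω => ((UQ ω, (Cr ω, N' ω)), W1 ω)) (fun ω ω' _ _ hh => by
          have a1 := Prod.ext_iff.mp (Prod.ext_iff.mp hh).1
          have a2 := Prod.ext_iff.mp a1.2
          have a3 : N' ω = N' ω' := a2.2
          rw [hN'] at a3
          have a4 := fl_near a3
          rw [abs_sub_comm]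
          refine a4.trans (le_of_eq ?_)
          have h6 : (2 : ℝ) ^ (J - M r) = 2 ^ (J - M r - g2 r) * 2 ^ g2 r := by
            rw [← pow_add]
            congr 1
            omega
          rw [h6]
          field_simp)
      refine le_trans (le_of_eq ?_) h4
      congr 1
      funext ω
      exact Cz_ne (by omega) ω
    linarith
  -- (S2)
  have s2 : CH q (fun ω => (UQ ω, (Cr ω, N' ω))) W1 +
      CH q U (fun ω => ((UQ ω, (Cr ω, N' ω)), W1 ω)) ≤
      CH q (fun ω => (N2 ω, XV ω)) W1 + (4 * r + 4) * Real.log 2 := by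
    rw [← CH_chain h0 U (fun ω => (UQ ω, (Cr ω, N' ω))) W1]
    refine (CH_le_add h0 (fun ω => (U ω, (UQ ω, (Cr ω, N' ω)))) (fun ω => (N2 ω, XV ω))
      W1).trans ?_
    obtain ⟨Y, hY⟩ : ∃ Y : F.Ω → (ℤ × (Fin r → ℤ)) × (V1 × (ℕ × F.ζ)),
      Y = fun ω => ((N2 ω, XV ω), W1 ω) := ⟨_, rfl⟩
    rw [← hY]
    have dY : ∀ {ω ω' : F.Ω}, Y ω = Y ω' → N2 ω = N2 ω' ∧ (∀ i < r, F.X J ω (c i) =
        F.X J ω' (c i)) ∧ W1 ω = W1 ω' := by
      intro ω ω' hh
      rw [hY] at hh
      have a1 := Prod.ext_iff.mp hh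
      have a2 := Prod.ext_iff.mp a1.1
      refine ⟨a2.1, fun i hi => ?_, a1.2⟩
      have a3 : XV ω = XV ω' := a2.2
      rw [hXV] at a3
      exact congrFun a3 ⟨i, hi⟩
    have h1 : CH q U Y = 0 := CH_eq_zero h0 fun ω ω' _ _ hh => by
      rw [hU]
      exact (dY hh).2.1 l hl
    have h2 : CH q UQ Y = 0 := CH_eq_zero h0 fun ω ω' _ _ hh => by
      have a1 := (dY hh).2.1 l hl
      rw [hUQ]
      have e1 : ∀ ω, F.X Q ω (c l) = ⌊((2 : ℝ) ^ J * F.x ω (c l)) / ((2 ^ (J - Q) : ℕ) : ℝ)⌋ := by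
        intro ω
        change ⌊(2 : ℝ) ^ Q * F.x ω (c l)⌋ = _
        congr 1
        have e2 : (2 : ℝ) ^ J = 2 ^ Q * 2 ^ (J - Q) := by
          rw [← pow_add]
          congr 1
          omega
        rw [e2]
        push_cast
        field_simp
      simp only
      rw [e1, e1, Int.floor_div_natCast, Int.floor_div_natCast]
      have e3 : ⌊(2 : ℝ) ^ J * F.x ω (c l)⌋ = ⌊(2 : ℝ) ^ J * F.x ω' (c l)⌋ := a1
      rw [e3]
    have h3 : CH q Cr Y ≤ 4 * r * Real.log 2 := by
      have h4 := rng_le' (q := q) h0 (fun i ω => Cz F c l v M i ω) Y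
        (fun _ => 4 * Real.log 2) r (fun i hi => by
          rcases eq_or_ne i l with rfl | hil
          · refine le_trans (le_of_eq (CH_eq_zero h0 fun ω ω' _ _ _ => ?_)) (by positivity)
            unfold Cz
            rw [if_pos rfl, if_pos rfl]
          · have h5 := ch_fl hq (zco F c l v i) (J - M i) 1 Y (fun ω ω' hω hω' hh => by
              obtain ⟨b1, b2, b3⟩ := dY hh
              obtain ⟨-, -, -, b4⟩ := dW hω hω' b3
              have b5 := vJ hω hω' b4 i hi.le hil (b2 l hl) (1 / 2 ^ J) (by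
                rw [abs_sub_comm]
                exact fl_near (b2 i hi))
              refine b5.trans ?_
              have b6 : (1 : ℝ) / 2 ^ J ≤ 1 / 2 ^ (J - M i) := inv_mono (Nat.sub_le _ _)
              have b7 : (2 : ℝ) ^ 1 / 2 ^ (J - M i) = 1 / 2 ^ (J - M i) + 1 / 2 ^ (J - M i) := by
                ring
              rw [b7]
              linarith)
            have h6 : CH q (fun ω => Cz F c l v M i ω) Y = CH q (fun ω =>
                ⌊(2 : ℝ) ^ (J - M i) * zco F c l v i ω⌋) Y := by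
              congr 1
              funext ω
              exact Cz_ne hil ω
            rw [h6]
            refine h5.trans (le_of_eq ?_)
            push_cast
            ring)
      rw [Finset.sum_const, Finset.card_range, nsmul_eq_mul] at h4
      rw [hCr]
      refine h4.trans (le_of_eq ?_)
      ring
    have h4 : CH q N' Y ≤ 4 * Real.log 2 := by
      have h5 := ch_fl hq (zco F c l v r) (g2 r) 1 Y (fun ω ω' hω hω' hh => by
        obtain ⟨b1, b2, b3⟩ := dY hh
        obtain ⟨-, -, -, b4⟩ := dW hω hω' b3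
        have b5 := vJ hω hω' b4 r le_rfl (by omega) (b2 l hl) (1 / 2 ^ g2 r) (by
          rw [hN2] at b1
          rw [abs_sub_comm]
          exact fl_near b1)
        refine b5.trans ?_
        have b6 : (1 : ℝ) / 2 ^ (J - M r) ≤ 1 / 2 ^ g2 r := inv_mono (by omega)
        have b7 : (2 : ℝ) ^ 1 / 2 ^ g2 r = 1 / 2 ^ g2 r + 1 / 2 ^ g2 r := by ring
        rw [b7]
        linarith)
      rw [hN']
      refine h5.trans (le_of_eq ?_)
      push_cast
      ring
    have h5 := CH_subadd h0 U (fun ω => (UQ ω, (Cr ω, N' ω))) Y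
    have h6 := CH_subadd h0 UQ (fun ω => (Cr ω, N' ω)) Y
    have h7 := CH_subadd h0 Cr N' Y
    have h8 : (4 * (r : ℝ) + 4) * Real.log 2 = 4 * r * Real.log 2 + 4 * Real.log 2 := by ring
    rw [h8]
    linarith
  -- (S3)
  have s3 : CH q (fun ω => (N2 ω, XV ω)) W1 ≤
      ((∑ i ∈ range r, ((J : ℝ) - g1 i)) + (r + 1) * (C' * Z + 3)) * Real.log 2 + R := by
    rw [CH_chain h0 N2 XV W1]
    have h1 : CH q XV W1 ≤ ∑ i ∈ range r, (((J : ℝ) - g1 i) + (C' * Z + 3)) * Real.log 2 := by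
      rw [hXV]
      refine rng_le h0 (fun i ω => F.X J ω (c i)) W1 _ r fun i hi => ?_
      have h2 := ch_fl hq (fun ω => F.x ω (c i)) J (J - g1 i + C' * Z)
        (fun ω => ((fun l' : Fin i => F.X J ω (c l')), W1 ω)) (fun ω ω' hω hω' hh => by
          have a1 := Prod.ext_iff.mp hh
          have a2 : W1 ω = W1 ω' := a1.2
          obtain ⟨b1, -, b3, -⟩ := dW hω hω' a2
          have a3 := hnx (n := r + 1) (δ := fun _ => J) le_rfl hc hL1 hC1
            (fun i hi j hj => le_trans (by omega) (hcd1 i hi j hj)) ω ω' (hqB ω hω) (hqB ω' hω')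
            b3 b1 i (by omega) (fun j hj => by
              rw [abs_sub_comm]
              exact fl_near (congrFun a1.1 ⟨j, hj⟩))
          refine a3.trans ?_
          have h6 : (2 : ℝ) ^ (J - g1 i + C' * Z) / 2 ^ J = 2 ^ (C' * Z) / 2 ^ g1 i := by
            have h7 : (2 : ℝ) ^ J = 2 ^ (J - g1 i) * 2 ^ g1 i := by
              rw [← pow_add, Nat.sub_add_cancel (hg1J i (by omega))]
            rw [h7, pow_add]
            field_simp
          rw [h6]
          exact div_le_div_of_nonneg_right (pow_le_pow_right₀ (by norm_num) hk1) (by positivity))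
      refine h2.trans (le_of_eq ?_)
      rw [Nat.cast_add, Nat.cast_sub (hg1J i (by omega))]
      push_cast
      ring
    have h2 : CH q N1 (fun ω => (XV ω, W1 ω)) ≤ (C' * Z + 3) * Real.log 2 := by
      have h3 := ch_fl hq (fun ω => F.x ω (c r)) (g1 r) (C' * Z)
        (fun ω => (XV ω, W1 ω)) (fun ω ω' hω hω' hh => by
          have a1 := Prod.ext_iff.mp hh
          have a2 : W1 ω = W1 ω' := a1.2
          obtain ⟨b1, -, b3, -⟩ := dW hω hω' a2
          have a4 : XV ω = XV ω' := a1.1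
          rw [hXV] at a4
          have a3 := hnx (n := r + 1) (δ := fun _ => J) le_rfl hc hL1 hC1
            (fun i hi j hj => le_trans (by omega) (hcd1 i hi j hj)) ω ω' (hqB ω hω) (hqB ω' hω')
            b3 b1 r (by omega) (fun j hj => by
              rw [abs_sub_comm]
              exact fl_near (congrFun a4 ⟨j, hj⟩))
          exact a3.trans (div_le_div_of_nonneg_right (pow_le_pow_right₀ (by norm_num) hk1)
            (by positivity)))
      rw [hN1]
      refine h3.trans (le_of_eq ?_)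
      push_cast
      ring
    have h3 : CH q N2 (fun ω => (XV ω, W1 ω)) ≤ CH q N1 (fun ω => (XV ω, W1 ω)) + R := by
      have h4 := CH_le_add h0 N2 N1 (fun ω => (XV ω, W1 ω))
      have h5 : CH q N2 (fun ω => (N1 ω, (XV ω, W1 ω))) ≤
          CH q N2 (fun ω => (N1 ω, (XV ω, F.W ω))) := by
        refine CH_mono_cond h0 fun ω ω' hω hω' hh => ?_
        have a1 := Prod.ext_iff.mp hh
        have a2 := Prod.ext_iff.mp a1.2
        have a3 : W1 ω = W1 ω' := a2.2
        exact Prod.ext a1.1 (Prod.ext a2.1 (dW hω hω' a3).2.1)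
      have h6 := CH_chain h0 N2 N1 (fun ω => (XV ω, F.W ω))
      have h7 : CH q (fun ω => (N2 ω, N1 ω)) (fun ω => (XV ω, F.W ω)) ≤
          CH q N2 (fun ω => (XV ω, F.W ω)) := by
        refine CH_mono_left h0 fun ω ω' _ _ hh => ?_
        have a1 : N2 ω = N2 ω' := (Prod.ext_iff.mp hh).1
        refine Prod.ext a1 ?_
        rw [hN2] at a1
        rw [hN1]
        have e1 : ∀ ω, F.X (g1 r) ω (c r) =
            ⌊((2 : ℝ) ^ g2 r * F.x ω (c r)) / ((2 ^ (g2 r - g1 r) : ℕ) : ℝ)⌋ := by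
          intro ω
          change ⌊(2 : ℝ) ^ g1 r * F.x ω (c r)⌋ = _
          congr 1
          have e2 : (2 : ℝ) ^ g2 r = 2 ^ g1 r * 2 ^ (g2 r - g1 r) := by
            rw [← pow_add]
            congr 1
            omega
          rw [e2]
          push_cast
          field_simp
        simp only
        rw [e1, e1, Int.floor_div_natCast, Int.floor_div_natCast]
        have e3 : ⌊(2 : ℝ) ^ g2 r * F.x ω (c r)⌋ = ⌊(2 : ℝ) ^ g2 r * F.x ω' (c r)⌋ := a1
        rw [e3]
      rw [← hN2, ← hN1] at hrat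
      have h8 : CH q N2 (fun ω => (XV ω, F.W ω)) ≤ R + CH q N1 (fun ω => (XV ω, F.W ω)) := by
        rw [hXV]
        exact hrat
      linarith
    rw [← Finset.sum_mul, Finset.sum_add_distrib, Finset.sum_const, Finset.card_range,
      nsmul_eq_mul] at h1
    have h4 : ((∑ i ∈ range r, ((J : ℝ) - g1 i)) + (r + 1) * (C' * Z + 3)) * Real.log 2 =
        ((∑ i ∈ range r, ((J : ℝ) - g1 i)) + r * (C' * Z + 3)) * Real.log 2 +
        (C' * Z + 3) * Real.log 2 := by ring
    rw [h4]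
    linarith
  -- (S4)
  have s4 : CH q U (fun ω => (Cr ω, K2 ω)) ≤ CH q U (fun ω => ((UQ ω, (Cr ω, N' ω)), W1 ω)) +
      (((Q - g2 l : ℕ) : ℝ) + 2 * (C' * Z + 3)) * Real.log 2 := by
    have dC : ∀ {ω ω' : F.Ω}, 0 < q ω → 0 < q ω' → Cr ω = Cr ω' → W1 ω = W1 ω' →
        (∀ j < l, |F.x ω' (c j) - F.x ω (c j)| ≤ 1 / 2 ^ (J - M j)) ∧
        ∀ j < r, l < j → |F.x ω' (c j) - F.x ω (c j) -
          (F.x ω' (c l) - F.x ω (c l)) * v (ptr F J ω) (c j)| ≤ 1 / 2 ^ (J - M j) := by
      intro ω ω' hω hω' a1 a2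
      obtain ⟨-, -, -, b4⟩ := dW hω hω' a2
      rw [hCr] at a1
      have key : ∀ j < r, j ≠ l → |F.x ω' (c j) - F.x ω (c j) -
          (F.x ω' (c l) - F.x ω (c l)) * v (ptr F J ω) (c j)| ≤ 1 / 2 ^ (J - M j) := by
        intro j hj hjl
        have a3 : Cz F c l v M j ω = Cz F c l v M j ω' := congrFun a1 ⟨j, hj⟩
        rw [Cz_ne hjl, Cz_ne hjl] at a3
        have a4 := fl_near a3
        rw [abs_sub_comm, zco_sub b4] at a4
        exact a4
      refine ⟨fun j hj => ?_, fun j hj hlj => key j hj (by omega)⟩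
      have a3 := key j (by omega) (by omega)
      rw [(hv1 ω (hqB ω hω)).2 j hj, mul_zero, sub_zero] at a3
      exact a3
    have h1 : CH q UQ (fun ω => (Cr ω, K2 ω)) ≤
        (((Q - g2 l : ℕ) : ℝ) + (C' * Z + 3)) * Real.log 2 := by
      have h2 := ch_fl hq (fun ω => F.x ω (c l)) Q (Q - g2 l + C' * Z)
        (fun ω => (Cr ω, K2 ω)) (fun ω ω' hω hω' hh => by
          have a1 := Prod.ext_iff.mp hh
          obtain ⟨a2, a3⟩ := dK a1.2
          obtain ⟨-, -, b3, -⟩ := dW hω hω' a3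
          have a4 := hnx (n := r + 1) (δ := fun j => J - M j) le_rfl hc hL2 hC2
            (fun i hi j hj => by
              have h6 := hcd2 i hi j hj
              have h7 : C₁ ≤ (4 * r + 8) * (C₁ + C₂ + 4) * Z := by
                have h8 : C₁ ≤ (4 * r + 8) * (C₁ + C₂ + 4) := by nlinarith
                exact h8.trans (Nat.le_mul_of_pos_right _ (by omega))
              omega) ω ω' (hqB ω hω) (hqB ω' hω')
            b3 a2 l (by omega) (fun j hj => (dC hω hω' a1.1 a3).1 j hj)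
          refine a4.trans ?_
          rw [div_le_div_iff₀ (by positivity) (by positivity), ← pow_add, ← pow_add]
          exact pow_le_pow_right₀ (by norm_num) (by omega))
      rw [hUQ]
      refine h2.trans (le_of_eq ?_)
      push_cast
      ring
    have h2 : CH q N' (fun ω => (Cr ω, K2 ω)) ≤ (C' * Z + 3) * Real.log 2 := by
      have h3 := ch_fl hq (zco F c l v r) (g2 r) (C' * Z)
        (fun ω => (Cr ω, K2 ω)) (fun ω ω' hω hω' hh => by
          have a1 := Prod.ext_iff.mp hh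
          obtain ⟨a2, a3⟩ := dK a1.2
          obtain ⟨-, -, b3, b4⟩ := dW hω hω' a3
          rw [zco_sub b4]
          have a4 := hnz (n := r + 1) (l := l) (h := h) (k := k) (δ := fun j => J - M j) le_rfl
            hc hL2 hC2
            (fun i hi j hj => by
              have h6 := hcd2 i hi j hj
              have h7 : C₂ * (h + k + 1) ≤ (4 * r + 8) * (C₁ + C₂ + 4) * Z := by
                rw [← hZ]
                exact Nat.mul_le_mul_right _ (by nlinarith)
              omega) hv1 (fun ω hω i hi1 hi2 => hS ω hω i hi1 (by omega)) ω ω' (hqB ω hω)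
            (hqB ω' hω') b3 a2 r hl (by omega) (dC hω hω' a1.1 a3).1
            (fun j hj hlj => (dC hω hω' a1.1 a3).2 j hj hlj)
          exact a4.trans (div_le_div_of_nonneg_right (pow_le_pow_right₀ (by norm_num) hk2)
            (by positivity)))
      rw [hN']
      refine h3.trans (le_of_eq ?_)
      push_cast
      ring
    have h3 : CH q U (fun ω => ((UQ ω, N' ω), (Cr ω, K2 ω))) ≤
        CH q U (fun ω => ((UQ ω, (Cr ω, N' ω)), W1 ω)) := by
      refine CH_mono_cond h0 fun ω ω' _ _ hh => ?_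
      have a1 := Prod.ext_iff.mp hh
      have a2 := Prod.ext_iff.mp a1.1
      have a3 := Prod.ext_iff.mp a1.2
      exact Prod.ext (Prod.ext a2.1 (Prod.ext a3.1 a2.2)) (dK a3.2).2
    have h4 := CH_chain h0 U (fun ω => (UQ ω, N' ω)) (fun ω => (Cr ω, K2 ω))
    have h5 : CH q U (fun ω => (Cr ω, K2 ω)) ≤
        CH q (fun ω => (U ω, (UQ ω, N' ω))) (fun ω => (Cr ω, K2 ω)) :=
      CH_mono_left h0 fun ω ω' _ _ hh => (Prod.ext_iff.mp (Prod.ext_iff.mp hh).1).1
    have h6 := CH_subadd h0 UQ N' (fun ω => (Cr ω, K2 ω))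
    have h7 : (((Q - g2 l : ℕ) : ℝ) + 2 * (C' * Z + 3)) * Real.log 2 =
        (((Q - g2 l : ℕ) : ℝ) + (C' * Z + 3)) * Real.log 2 + (C' * Z + 3) * Real.log 2 := by ring
    rw [h7]
    linarith
  -- (S5)
  have s5 : E ≤ CH q U (fun ω => (Cr ω, K2 ω)) +
      ((∑ i ∈ (range r).erase l, ((J : ℝ) - g2 i)) + r * (C' * Z + 7)) * Real.log 2 := by
    have h1 : E ≤ CH q XV K2 := by
      have h2 := hex (V2 × V1) (fun p => (z2 p, z1 p))
        (fun s => (z2' s, z1' (s.1, s.2.1, s.2.2 / 2 ^ (w2 - w1)))) (fun ω hω => by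
          refine Prod.ext (hC2.cls ω hω) ?_
          change z1 (ptr F J ω) = z1' _
          rw [hC1.cls ω hω, slam_coarse F hw12 hw2 ω])
      rw [← hXV] at h2
      refine h2.trans (CH_mono_cond h0 fun ω ω' _ _ hh => ?_)
      have a1 := Prod.ext_iff.mp hh
      have a2 := Prod.ext_iff.mp a1.1
      have a3 : z1' (slam F w1 ω) = z1' (slam F w1 ω') := by
        rw [slam_coarse F hw12 hw2 ω, slam_coarse F hw12 hw2 ω']
        exact a2.2
      rw [hK2, hW1]
      exact Prod.ext a2.1 (Prod.ext a3 a1.2)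
    have h2 : CH q XV K2 ≤ CH q (fun ω => (U ω, Cr ω)) K2 +
        CH q XV (fun ω => ((U ω, Cr ω), K2 ω)) := CH_le_add h0 XV (fun ω => (U ω, Cr ω)) K2
    have h3 := CH_chain h0 U Cr K2
    have h4 : CH q XV (fun ω => ((U ω, Cr ω), K2 ω)) ≤
        ∑ i ∈ range r, (if i = l then 0 else ((M i : ℝ) + 4) * Real.log 2) := by
      rw [hXV]
      refine rng_le' h0 (fun i ω => F.X J ω (c i)) _ _ r fun i hi => ?_
      rcases eq_or_ne i l with rfl | hil
      · rw [if_pos rfl]
        refine le_of_eq (CH_eq_zero h0 fun ω ω' _ _ hh => ?_)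
        have a1 := Prod.ext_iff.mp (Prod.ext_iff.mp hh).1
        have a2 : U ω = U ω' := a1.1
        rw [hU] at a2
        exact a2
      · rw [if_neg hil]
        have h5 := ch_fl hq (fun ω => F.x ω (c i)) J (M i + 1)
          (fun ω => ((U ω, Cr ω), K2 ω)) (fun ω ω' hω hω' hh => by
            have a1 := Prod.ext_iff.mp hh
            have a2 := Prod.ext_iff.mp a1.1
            obtain ⟨-, a3⟩ := dK a1.2
            obtain ⟨-, -, -, b4⟩ := dW hω hω' a3
            have a4 : Cr ω = Cr ω' := a2.2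
            rw [hCr] at a4
            have a5 : Cz F c l v M i ω = Cz F c l v M i ω' := congrFun a4 ⟨i, hi⟩
            rw [Cz_ne hil, Cz_ne hil] at a5
            have a6 := fl_near a5
            rw [abs_sub_comm, zco_sub b4] at a6
            have a7 : U ω = U ω' := a2.1
            rw [hU] at a7
            have a8 : |(F.x ω' (c l) - F.x ω (c l)) * v (ptr F J ω) (c i)| ≤
                1 / 2 ^ (J - M i) := by
              rcases Nat.lt_or_ge i l with h3 | h3
              · rw [(hv1 ω (hqB ω hω)).2 i h3, mul_zero, abs_zero]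
                positivity
              · have h4 := hvM ω (hqB ω hω) i (by omega) hi.le
                have h5 : |F.x ω' (c l) - F.x ω (c l)| ≤ 1 / 2 ^ J := by
                  rw [abs_sub_comm]
                  exact fl_near a7
                rw [abs_mul]
                calc |F.x ω' (c l) - F.x ω (c l)| * |v (ptr F J ω) (c i)| ≤
                      1 / 2 ^ J * 2 ^ M i := mul_le_mul h5 h4 (abs_nonneg _) (by positivity)
                  _ = 1 / 2 ^ (J - M i) := by
                      have h6 : (2 : ℝ) ^ J = 2 ^ (J - M i) * 2 ^ M i := by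
                        rw [← pow_add, Nat.sub_add_cancel (hMJ i hi.le)]
                      rw [h6]
                      field_simp
            have a9 : (2 : ℝ) ^ (M i + 1) / 2 ^ J = 1 / 2 ^ (J - M i) + 1 / 2 ^ (J - M i) := by
              have h6 : (2 : ℝ) ^ J = 2 ^ (J - M i) * 2 ^ M i := by
                rw [← pow_add, Nat.sub_add_cancel (hMJ i hi.le)]
              rw [h6, pow_succ]
              field_simp
              ring
            rw [a9]
            rw [abs_le] at a6 a8 ⊢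
            constructor <;> linarith [a6.1, a6.2, a8.1, a8.2])
        refine h5.trans (le_of_eq ?_)
        push_cast
        ring
    have h5 : CH q Cr K2 ≤ ∑ i ∈ range r, (if i = l then 0 else
        ((J : ℝ) - M i - g2 i + (C' * Z + 3)) * Real.log 2) := by
      rw [hCr]
      refine rng_le h0 (fun i ω => Cz F c l v M i ω) K2 _ r fun i hi => ?_
      rcases eq_or_ne i l with rfl | hil
      · rw [if_pos rfl]
        refine le_of_eq (CH_eq_zero h0 fun ω ω' _ _ _ => ?_)
        unfold Cz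
        rw [if_pos rfl, if_pos rfl]
      · rw [if_neg hil]
        have h6 := ch_fl hq (zco F c l v i) (J - M i) (J - M i - g2 i + C' * Z)
          (fun ω => ((fun l' : Fin i => Cz F c l v M l' ω), K2 ω)) (fun ω ω' hω hω' hh => by
            have a1 := Prod.ext_iff.mp hh
            obtain ⟨a2, a3⟩ := dK a1.2
            obtain ⟨-, -, b3, b4⟩ := dW hω hω' a3
            have key : ∀ j < i, j ≠ l → |F.x ω' (c j) - F.x ω (c j) -
                (F.x ω' (c l) - F.x ω (c l)) * v (ptr F J ω) (c j)| ≤ 1 / 2 ^ (J - M j) := by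
              intro j hj hjl
              have a5 : Cz F c l v M j ω = Cz F c l v M j ω' := congrFun a1.1 ⟨j, hj⟩
              rw [Cz_ne hjl, Cz_ne hjl] at a5
              have a6 := fl_near a5
              rw [abs_sub_comm, zco_sub b4] at a6
              exact a6
            have key2 : ∀ j < i, j < l → |F.x ω' (c j) - F.x ω (c j)| ≤ 1 / 2 ^ (J - M j) := by
              intro j hj hjl
              have a5 := key j hj (by omega)
              rw [(hv1 ω (hqB ω hω)).2 j hjl, mul_zero, sub_zero] at a5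
              exact a5
            have hgJ := hg2J i hi
            have hpow : ∀ K : ℕ, K ≤ C' * Z → (2 : ℝ) ^ K / 2 ^ g2 i ≤
                2 ^ (J - M i - g2 i + C' * Z) / 2 ^ (J - M i) := by
              intro K hK
              rw [div_le_div_iff₀ (by positivity) (by positivity), ← pow_add, ← pow_add]
              exact pow_le_pow_right₀ (by norm_num) (by omega)
            rw [zco_sub b4]
            rcases Nat.lt_or_ge i l with h3 | h3
            · rw [(hv1 ω (hqB ω hω)).2 i h3, mul_zero, sub_zero]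
              have a4 := hnx (n := r + 1) (δ := fun j => J - M j) le_rfl hc hL2 hC2
                (fun i hi j hj => by
                  have h6 := hcd2 i hi j hj
                  have h7 : C₁ ≤ (4 * r + 8) * (C₁ + C₂ + 4) * Z := by
                    have h8 : C₁ ≤ (4 * r + 8) * (C₁ + C₂ + 4) := by nlinarith
                    exact h8.trans (Nat.le_mul_of_pos_right _ (by omega))
                  omega) ω ω' (hqB ω hω) (hqB ω' hω')
                b3 a2 i (by omega) (fun j hj => key2 j hj (by omega))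
              exact a4.trans (hpow _ hk1)
            · have a4 := hnz (n := r + 1) (l := l) (h := h) (k := k) (δ := fun j => J - M j)
                le_rfl hc hL2 hC2
                (fun i hi j hj => by
                  have h6 := hcd2 i hi j hj
                  have h7 : C₂ * (h + k + 1) ≤ (4 * r + 8) * (C₁ + C₂ + 4) * Z := by
                    rw [← hZ]
                    exact Nat.mul_le_mul_right _ (by nlinarith)
                  omega) hv1 (fun ω hω i hi1 hi2 => hS ω hω i hi1 (by omega)) ω ω' (hqB ω hω)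
                (hqB ω' hω') b3 a2 i (by omega) (by omega)
                (fun j hj => key2 j (by omega) hj) (fun j hj hlj => key j hj (by omega))
              exact a4.trans (hpow _ hk2))
        have h7 : CH q (fun ω => Cz F c l v M i ω)
            (fun ω => ((fun l' : Fin i => Cz F c l v M l' ω), K2 ω)) =
            CH q (fun ω => ⌊(2 : ℝ) ^ (J - M i) * zco F c l v i ω⌋)
            (fun ω => ((fun l' : Fin i => Cz F c l v M l' ω), K2 ω)) := by
          congr 1
          funext ω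
          exact Cz_ne hil ω
        rw [h7]
        refine h6.trans (le_of_eq ?_)
        have hgJ := hg2J i hi
        rw [Nat.cast_add, Nat.cast_sub (by omega), Nat.cast_sub (hMJ i hi.le)]
        push_cast
        ring
    have h6 : (∑ i ∈ range r, (if i = l then (0 : ℝ) else ((M i : ℝ) + 4) * Real.log 2)) +
        ∑ i ∈ range r, (if i = l then (0 : ℝ) else
        ((J : ℝ) - M i - g2 i + (C' * Z + 3)) * Real.log 2) ≤
        ((∑ i ∈ (range r).erase l, ((J : ℝ) - g2 i)) + r * (C' * Z + 7)) * Real.log 2 := by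
      rw [← Finset.sum_add_distrib]
      have e1 : ∀ i ∈ range r, ((if i = l then (0 : ℝ) else ((M i : ℝ) + 4) * Real.log 2) +
          (if i = l then (0 : ℝ) else ((J : ℝ) - M i - g2 i + (C' * Z + 3)) * Real.log 2)) ≤
          (if i = l then (0 : ℝ) else ((J : ℝ) - g2 i) * Real.log 2) +
            (C' * Z + 7) * Real.log 2 := by
        intro i _
        split_ifs
        · rw [add_zero, zero_add]
          positivity
        · refine le_of_eq ?_
          ring
      refine (Finset.sum_le_sum e1).trans (le_of_eq ?_)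
      rw [Finset.sum_add_distrib, Finset.sum_const, Finset.card_range, nsmul_eq_mul]
      have e2 : ∑ i ∈ range r, (if i = l then (0 : ℝ) else ((J : ℝ) - g2 i) * Real.log 2) =
          (∑ i ∈ (range r).erase l, ((J : ℝ) - g2 i)) * Real.log 2 := by
        rw [← Finset.add_sum_erase _ _ (mem_range.2 hl), if_pos rfl, zero_add, Finset.sum_mul]
        refine Finset.sum_congr rfl fun i hi => ?_
        rw [if_neg (Finset.ne_of_mem_erase hi)]
      rw [e2]
      ring
    linarith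
  -- the sum
  have hcast : (((J - M r - g2 r : ℕ) : ℝ)) = (J : ℝ) - M r - g2 r := by
    rw [Nat.cast_sub (by omega), Nat.cast_sub (hMJ r le_rfl)]
  rw [hcast] at s1
  have hfin : ((((J : ℝ) - M r - g2 r) + 3) + (4 * r + 4) +
      ((∑ i ∈ range r, ((J : ℝ) - g1 i)) + (r + 1) * (C' * Z + 3)) +
      (((Q - g2 l : ℕ) : ℝ) + 2 * (C' * Z + 3)) +
      ((∑ i ∈ (range r).erase l, ((J : ℝ) - g2 i)) + r * (C' * Z + 7))) ≤
      (((J : ℝ) - M r - g2 r) + ∑ i ∈ range r, ((J : ℝ) - g1 i) +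
        ∑ i ∈ (range r).erase l, ((J : ℝ) - g2 i) + ((Q - g2 l : ℕ) : ℝ) +
        (((4 * r + 8) * (C₁ + C₂ + 4) : ℕ) : ℝ) * (h + k + 1)) := by
    have hZr : (Z : ℝ) = h + k + 1 := by
      rw [hZ]
      push_cast
      ring
    rw [← hZr]
    have hC'r : (C' : ℝ) = C₁ + C₂ := by
      rw [hC']
      push_cast
      ring
    have hZ1 : (1 : ℝ) ≤ Z := by
      rw [hZ]
      push_cast
      have a1 : (0 : ℝ) ≤ h := Nat.cast_nonneg h
      have a2 : (0 : ℝ) ≤ k := Nat.cast_nonneg k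
      linarith
    push_cast
    rw [← hC'r]
    have hr0 : (0 : ℝ) ≤ r := Nat.cast_nonneg r
    have hC0 : (0 : ℝ) ≤ C' := Nat.cast_nonneg C'
    nlinarith [mul_nonneg hr0 (sub_nonneg.2 hZ1), mul_nonneg hC0 (by linarith : (0 : ℝ) ≤ Z),
      mul_nonneg hr0 (mul_nonneg hC0 (by linarith : (0 : ℝ) ≤ Z))]
  have hfin' := mul_le_mul_of_nonneg_right hfin hl2.le
  rw [← hW1]
  linarith

end Pool.PSI
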