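import Pool.Agent.H39.GEN.Psc
import Pool.Agent.H80.GEN.NumA
import Pool.Agent.H90.STAT.FulC
import Pool.Agent.H80.ZC.Zco
import Pool.Agent.H87.GEN.Pkg

/-!
# The entropy of the coordinates in the zooms, class level

`PsO`, `PsD`: the data: closed records of chains at two windows, the shear at the second window, the
coordinates of the zoom near the sheared coordinates.
`psi2_zpr`: the entropy of the coordinates of the zooms, from the exactness of the list at the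
second window and the rates of the target.
-/

set_option autoImplicit false

namespace Pool.PSI

open Finset Real MvPolynomial
open Pool.Agent.H49.Ent Pool.Agent.H32.Dense Pool.STK Pool.KA Pool.KSAT Pool.K2S Pool.PB Pool.S6C
open Pool.GEN Pool.CHT Pool.SHR Pool.ZCL Pool.ZLC Pool.ZCO Pool.ONE
open Pool.PKG (bse)
open Pool.ALL (RateOf)
open Pool.STAT (ExW)

variable {m n : ℕ}

/-- **The data of the shear**, one family: closed records of chains at the windows `w₁` and `wb`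
with the sides `(b i - d i) J`, the shear `v`, closed at the window `w₁`, its size `2 ^ M`, and the
coordinates of the zoom. -/
structure PsO (w₁ wb : ℝ) (c : ℕ → Fin m) (l r D k : ℕ) (b1 d1 b2 d2 : ℕ → ℝ)
    (xs δ μ η Qb : ℝ) (e : Fin n → Fin m) (lt : Fin n) {J : ℕ} (F : Fam m J) (A : F.Ω → Prop)
    (κ : Type) (C : Crd m κ) (z' : LnT F → κ) : Type 1 where
  /-- the sizes of the shear -/
  M : ℕ → ℕ
  /-- the radius of the first chain -/
  a1 : ℕ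
  /-- the window of the first chain -/
  x1 : ℕ
  /-- the growth of the first chain -/
  e1 : ℕ
  /-- the radius of the second chain -/
  a2 : ℕ
  /-- the window of the second chain -/
  x2 : ℕ
  /-- the growth of the second chain -/
  e2 : ℕ
  /-- the loss of the shear -/
  h : ℕ
  /-- the number of the coordinate of the shear -/
  Q : ℕ
  /-- the loss of the coordinates of the zoom -/
  c₀ : ℕ
  /-- the labels of the first chain -/
  G1 : PtT F → ℕ → MvPolynomial (Option (Fin m)) ℝ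
  /-- the labels of the first chain, closed -/
  H1 : LnT F → ℕ → MvPolynomial (Option (Fin m)) ℝ
  /-- the labels of the second chain -/
  G2 : PtT F → ℕ → MvPolynomial (Option (Fin m)) ℝ
  /-- the labels of the second chain, closed -/
  H2 : LnT F → ℕ → MvPolynomial (Option (Fin m)) ℝ
  /-- the first record -/
  z1 : PtT F → κ
  /-- the polynomials of the first record -/
  P1 : κ → ℕ → MvPolynomial (Option (Fin m)) ℝ
  /-- the values of the second record -/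
  V2 : Type
  /-- the second record -/
  z2 : PtT F → V2
  /-- the second record, closed -/
  z2' : LnT F → V2
  /-- the polynomials of the second record -/
  P2 : V2 → ℕ → MvPolynomial (Option (Fin m)) ℝ
  /-- the shear -/
  v : PtT F → Fin m → ℝ
  /-- the shear as a function of the record -/
  v' : κ → Fin m → ℝ
  ch1 : ChOK F c (r + 1) (fun _ => D) a1 x1 e1 (fun i => ⌊(b1 i - d1 i) * J⌋₊) A G1 H1
  cd1 : Cod F c (r + 1) D k a1 ⌊w₁ * J⌋₊ (fun i => ⌊(b1 i - d1 i) * J⌋₊) A G1 z1 z' P1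
  sz1 : ∀ i ≤ r, (e1 : ℝ) + ⌊(b1 i - d1 i) * J⌋₊ ≤ (1 - μ) * J
  ch2 : ChOK F c (r + 1) (fun _ => D) a2 x2 e2 (fun i => ⌊(b2 i - d2 i) * J⌋₊) A G2 H2
  cd2 : Cod F c (r + 1) D k a2 ⌊wb * J⌋₊ (fun i => ⌊(b2 i - d2 i) * J⌋₊) A G2 z2 z2' P2
  sz2 : ∀ i ≤ r, ∀ j < r, (e2 : ℝ) + ⌊(b2 i - d2 i) * J⌋₊ + M j ≤ (1 - μ) * J
  hM : ⌊(b2 r - d2 r) * J⌋₊ + M r ≤ J
  hMx : (xs - δ) * J ≤ (M r : ℝ) + 2
  hη : (h : ℝ) ≤ η * J
  vcl : ∀ ω, A ω → v (ptr F J ω) = v' (z' (slam F ⌊w₁ * J⌋₊ ω))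
  v1 : ∀ ω, A ω → v (ptr F J ω) (c l) = 1 ∧ ∀ j < l, v (ptr F J ω) (c j) = 0
  vM : ∀ ω, A ω → ∀ i, l < i → i ≤ r → |v (ptr F J ω) (c i)| ≤ 2 ^ M i
  M0 : ∀ j ≤ l, M j = 0
  shr : ∀ ω, A ω → ∀ i, l < i → i ≤ r →
    Shr F c l a2 (fun i => ⌊(b2 i - d2 i) * J⌋₊) G2 v h i ω
  hQ : (Q : ℝ) ≤ (b2 l + δ) * J + 2
  hQJ : Q ≤ J
  hc₀ : (c₀ : ℝ) ≤ δ * J + k
  nea : ∀ ω, A ω → Nea C (z' (slam F ⌊w₁ * J⌋₊ ω)) (v (ptr F J ω)) c l r M e lt J Q
    (⌊w₁ * J⌋₊ + ⌊Qb * ((J - ⌊w₁ * J⌋₊ : ℕ) : ℝ)⌋₊) c₀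

/-- **The data of the shear.** -/
def PsD (w₁ wb : ℝ) (c : ℕ → Fin m) (l r D k : ℕ) (b1 d1 b2 d2 : ℕ → ℝ)
    (xs δ μ η Qb : ℝ) (e : Fin n → Fin m) (lt : Fin n) : DtP m := fun _ F A κ C z' =>
  Nonempty (PsO w₁ wb c l r D k b1 d1 b2 d2 xs δ μ η Qb e lt F A κ C z')

/-- The other coordinates. -/
theorem oth_eq {J : ℕ} {F : Fam m J} {c : ℕ → Fin m} {r : ℕ} (hc : Set.InjOn c (Set.Iio (r + 1)))
    (hcs : ∀ i : Fin m, ∃ j ≤ r, c j = i) {q : F.Ω → ℝ} (h0 : ∀ ω, 0 ≤ q ω) {α : Type}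
    (X : F.Ω → α) :
    CH q X (fun ω => ((fun j : Fin r => F.X J ω (c j)), F.W ω)) =
      CH q X (fun ω => Pool.GEN.N83.oth (c r) J F (ptr F J ω)) := by
  refine le_antisymm (CH_mono_cond h0 fun ω ω' _ _ hh => ?_)
    (CH_mono_cond h0 fun ω ω' _ _ hh => ?_)
  · obtain ⟨h1, h2⟩ := Prod.ext_iff.mp hh
    have h1' : (fun j : Fin r => F.X J ω (c j)) = fun j : Fin r => F.X J ω' (c j) := h1
    have h2' : F.W ω = F.W ω' := h2
    refine Prod.ext (funext fun i => ?_) h2'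
    change Function.update (F.X J ω) (c r) 0 i = Function.update (F.X J ω') (c r) 0 i
    obtain ⟨j, hj, rfl⟩ := hcs i
    rcases eq_or_ne (c j) (c r) with h3 | h3
    · rw [h3, Function.update_self, Function.update_self]
    · rw [Function.update_of_ne h3, Function.update_of_ne h3]
      have h4 : j ≠ r := fun h => h3 (by rw [h])
      exact congrFun h1' ⟨j, by omega⟩
  · obtain ⟨h1, h2⟩ := Prod.ext_iff.mp hh
    have h1' : Function.update (F.X J ω) (c r) 0 = Function.update (F.X J ω') (c r) 0 := h1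
    have h2' : F.W ω = F.W ω' := h2
    refine Prod.ext (funext fun j => ?_) h2'
    have h3 : c j ≠ c r := fun h => by
      have h4 := hc (show (j : ℕ) ∈ Set.Iio (r + 1) from by
        have := j.2
        exact Set.mem_Iio.2 (by omega)) (Set.mem_Iio.2 (by omega)) h
      have := j.2
      omega
    have h4 := congrFun h1' (c j)
    rw [Function.update_of_ne h3, Function.update_of_ne h3] at h4
    exact h4

/-- **The entropy of the coordinates of the zooms.** -/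
theorem psi2_zpr {S : PCl m} {C₀ : ℝ} (htm : TmC S C₀) {c : ℕ → Fin m} {l r : ℕ} (hl : l < r)
    (hc : Set.InjOn c (Set.Iio (r + 1))) (hcs : ∀ i : Fin m, ∃ j ≤ r, c j = i)
    {w₁ wb : ℝ} (hw0 : 0 ≤ w₁) (hwb : w₁ ≤ wb) (hwb1 : wb ≤ 1) (hw1 : w₁ < 1)
    {b1 b2 : ℕ → ℝ} {xs Qb eb : ℝ} {rr : ℝ → ℝ} (hr : RateOf S (c r) rr)
    (hb1 : b1 r ≤ 1) (hb2 : b2 r ≤ 1)
    (hex : ∀ ρ : ℝ, 0 < ρ → Bas S (fun J F A => ExW F A (fun j : Fin r => c j) ⌊wb * J⌋₊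
      (((∑ j ∈ range r, (1 - b2 j)) - ρ) * Real.log 2 * J)))
    (heb : (1 - xs - b2 r) + ∑ i ∈ range r, (1 - b1 i) + rr (b2 r) - rr (b1 r) - (1 - b2 l) ≤
      eb * (1 - w₁)) (hQb1 : Qb ≤ 1) (hn : 2 ≤ n) (e : Fin n → Fin m)
    {h : ℝ} (hh : 0 < h) :
    ∃ σ₀ : ℝ, 0 < σ₀ ∧ ∀ (D k : ℕ) (μ : ℝ), 0 < μ → ∃ η₀ : ℝ, 0 < η₀ ∧
      ∀ {d1 d2 : ℕ → ℝ} {δ η : ℝ},
      (∀ i ≤ r, 0 ≤ d1 i ∧ d1 i ≤ σ₀) → (∀ i ≤ r, 0 ≤ d2 i ∧ d2 i ≤ σ₀) →
      d1 r ≤ b1 r → b1 r - d1 r ≤ b2 r - d2 r → 0 ≤ δ → δ ≤ σ₀ → 0 ≤ η → η ≤ η₀ →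
      ZPr S w₁ e (PsD w₁ wb c l r D k b1 d1 b2 d2 xs δ μ η Qb e (lst hn))
        (fun J G A => CH (Pool.Agent.H49.Ent.cond G.p A True)
          (fun ω => (G.X ⌊Qb * J⌋₊ ω (lst hn), fun i : Fin (n - 1) => G.X J ω (bse i))) G.W ≤
          (eb + h) * Real.log 2 * J) := by
  classical
  have hl2 : 0 < Real.log 2 := Real.log_pos one_lt_two
  have h1w : 0 < 1 - w₁ := by linarith
  obtain ⟨u, hu⟩ : ∃ u : ℝ, u = h * (1 - w₁) / 8 := ⟨_, rfl⟩
  have hu0 : 0 < u := by rw [hu]; positivity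
  obtain ⟨σ, hσ⟩ : ∃ σ : ℝ, σ = u / (2 * r + n + 6) := ⟨_, rfl⟩
  have hr0 : (0 : ℝ) ≤ r := Nat.cast_nonneg r
  have hσ0 : 0 < σ := by rw [hσ]; positivity
  have hσu : (2 * r + n + 6) * σ = u := by
    rw [hσ]
    field_simp
  refine ⟨σ, hσ0, fun D k μ hμ => ?_⟩
  obtain ⟨C, hfam⟩ := psi2_fam D r
  have hC0 : (0 : ℝ) ≤ C := Nat.cast_nonneg C
  obtain ⟨η₀, hη₀⟩ : ∃ η₀ : ℝ, η₀ = min (u / (C + 1)) (μ / (4 * (C + 1))) := ⟨_, rfl⟩
  refine ⟨η₀, by rw [hη₀]; exact lt_min (by positivity) (by positivity), ?_⟩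
  intro d1 d2 δ η hd1 hd2 hd1r hdd hδ0 hδ hη0 hη
  have hη1 : (C + 1) * η ≤ u := by
    have h1 : η ≤ u / (C + 1) := hη.trans (by rw [hη₀]; exact min_le_left _ _)
    rw [le_div_iff₀ (by positivity)] at h1
    linarith
  have hη2 : (C + 1) * η ≤ μ / 4 := by
    have h1 : η ≤ μ / (4 * (C + 1)) := hη.trans (by rw [hη₀]; exact min_le_right _ _)
    rw [le_div_iff₀ (by positivity)] at h1
    linarith
  obtain ⟨p1, q1⟩ := hd1 r le_rfl
  obtain ⟨p2, q2⟩ := hd2 r le_rfl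
  -- the statements of the class
  have hR1 := hr.num (b1 r - d1 r) (by linarith) (by linarith) (u * Real.log 2 / 2)
    (by positivity)
  have hR2 := hr.num (b2 r - d2 r) (by linarith) (by linarith) (u * Real.log 2 / 2)
    (by positivity)
  obtain ⟨τ, hτ, J₀, hall⟩ := ((hex u hu0).and hR1).and hR2
  obtain ⟨Kc, hKc⟩ : ∃ Kc : ℝ, Kc = 2 * r + 8 + C * (k + 1) + (n + 1) * (k + 6) + |eb| :=
    ⟨_, rfl⟩
  obtain ⟨J₁, hJ₁⟩ := Pool.GEN.lin Kc hu0
  obtain ⟨J₂, hJ₂⟩ := Pool.GEN.lin (C * (k + 1) + C) (half_pos hμ)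
  refine ⟨τ / 6, by positivity, τ / 2, by positivity, max J₀ (max J₁ J₂), ?_⟩
  intro J hJ F A hS κ C' z z' hcl hDt hlw J' hJJ B hBA hPB
  simp only [ge_iff_le, max_le_iff] at hJ
  obtain ⟨hJ0, hJ1, hJ2⟩ := hJ
  replace hJ1 := hJ₁ J hJ1
  replace hJ2 := hJ₂ J hJ2
  obtain ⟨O⟩ := hDt
  have hJr : (0 : ℝ) ≤ J := Nat.cast_nonneg J
  obtain ⟨W, hW⟩ : ∃ W, W = ⌊w₁ * (J : ℝ)⌋₊ := ⟨_, rfl⟩
  have hWr : (W : ℝ) ≤ w₁ * J := by rw [hW]; exact Nat.floor_le (by positivity)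
  have hWr' : w₁ * (J : ℝ) < W + 1 := by rw [hW]; exact Nat.lt_floor_add_one _
  have hsumN : W + J' = J := by rw [hW]; exact hJJ
  have hsum : (W : ℝ) + J' = J := by exact_mod_cast hsumN
  have hJ'0 : (0 : ℝ) ≤ J' := Nat.cast_nonneg J'
  have hJ'1 : (1 - w₁) * J ≤ (J' : ℝ) := by
    have : (1 - w₁) * (J : ℝ) = J - w₁ * J := by ring
    linarith
  have hJ'2 : (J' : ℝ) ≤ (1 - w₁) * J + 1 := by
    have : (1 - w₁) * (J : ℝ) = J - w₁ * J := by ring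
    linarith
  have hJ'J : (J' : ℝ) ≤ J := by
    have := Nat.cast_nonneg (α := ℝ) W
    linarith
  -- the event
  have hA0 : 0 ≤ Pe F.p A := Pe_nonneg F.isLaw A
  have hSB : S.St (τ / 2 + τ / 2) J F B := by
    refine S.res (by positivity) hS hBA (le_trans ?_ hPB)
    refine mul_le_mul_of_nonneg_right (Real.exp_le_exp.2 ?_) hA0
    have e1 : 3 * (τ / 6) * (J' : ℝ) = τ / 2 * J' := by ring
    rw [e1]
    have := mul_le_mul_of_nonneg_left hJ'J (show 0 ≤ τ / 2 by linarith)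
    linarith
  rw [add_halves] at hSB
  obtain ⟨hB0, -⟩ := htm _ J F B (by linarith) hSB
  have hA0' : 0 < Pe F.p A := hB0.trans_le (Pe_mono F.isLaw hBA)
  obtain ⟨⟨hE, hR1⟩, hR2⟩ := hall J hJ0 F B hSB
  obtain ⟨q, hq⟩ : ∃ q, q = Pool.Agent.H49.Ent.cond F.p B True := ⟨_, rfl⟩
  have hql : IsLaw q := by rw [hq]; exact isLaw_cond F.isLaw hB0
  have hqB : ∀ ω, 0 < q ω → B ω := by
    intro ω hω
    rw [hq] at hω
    exact cond_pos hω
  have h0 := hql.nonneg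
  have ecnd : Pool.Agent.H49.Ent.cond (Pool.Agent.H49.Ent.cond F.p A True) B True = q := by
    rw [hq, Pool.ZCL.cond_and F.p hA0'.ne']
    congr 1
    funext ω
    exact propext ⟨fun h => h.2, fun h => ⟨hBA ω h, h⟩⟩
  rw [← hq] at hR1 hR2
  rw [← oth_eq hc hcs h0] at hR1 hR2
  -- the numbers
  obtain ⟨g1, hg1⟩ : ∃ g1 : ℕ → ℕ, g1 = fun i => ⌊(b1 i - d1 i) * J⌋₊ := ⟨_, rfl⟩
  obtain ⟨g2, hg2⟩ : ∃ g2 : ℕ → ℕ, g2 = fun i => ⌊(b2 i - d2 i) * J⌋₊ := ⟨_, rfl⟩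
  obtain ⟨X1, hX1⟩ : ∃ X1, X1 = CH q (fun ω => F.X (g1 r) ω (c r))
    (fun ω => ((fun j : Fin r => F.X J ω (c j)), F.W ω)) := ⟨_, rfl⟩
  obtain ⟨X2, hX2⟩ : ∃ X2, X2 = CH q (fun ω => F.X (g2 r) ω (c r))
    (fun ω => ((fun j : Fin r => F.X J ω (c j)), F.W ω)) := ⟨_, rfl⟩
  obtain ⟨Ev, hEv⟩ : ∃ Ev : ℝ, Ev = ((∑ j ∈ range r, (1 - b2 j)) - u) * Real.log 2 * J :=
    ⟨_, rfl⟩
  have cd1 := O.cd1.sub hBA
  have ch1 := O.ch1.sub hBA
  have cd2 := O.cd2.sub hBA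
  have ch2 := O.ch2.sub hBA
  have sz1 := O.sz1
  have sz2 := O.sz2
  have hM := O.hM
  have hshr := O.shr
  have vcl := O.vcl
  have hnea := O.nea
  have hJJ' : J - W = J' := by omega
  rw [← hW] at cd1 vcl hnea
  rw [hJJ'] at hnea
  rw [← hg1] at cd1 ch1
  rw [← hg2] at cd2 ch2 hshr
  have sz1' : ∀ i ≤ r, (O.e1 : ℝ) + g1 i ≤ (1 - μ) * J := by
    rw [hg1]
    exact sz1
  have sz2' : ∀ i ≤ r, ∀ j < r, (O.e2 : ℝ) + g2 i + O.M j ≤ (1 - μ) * J := by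
    rw [hg2]
    exact sz2
  have hM' : g2 r + O.M r ≤ J := by
    rw [hg2]
    exact hM
  have hCk : 0 ≤ C * ((k : ℝ) + 1) := by positivity
  have hμJ : (1 - μ) * (J : ℝ) = J - μ * J := by ring
  have hμJ2 : μ / 2 * (J : ℝ) = μ * J / 2 := by ring
  have sup_ok : ∀ (g : ℕ → ℕ) (x : ℕ) (i j : ℕ), j < i → i < r + 1 → (∀ t ≤ r, j ≤ t →
      x + g t ≤ J) → x + (Finset.Icc j i).sup g ≤ J := by
    intro g x i j hji hi ht
    have h1 : (Finset.Icc j i).sup g ≤ J - x := Finset.sup_le fun t h => by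
      obtain ⟨h2, h3⟩ := Finset.mem_Icc.1 h
      have := ht t (by omega) h2
      omega
    have := ht j (by omega) le_rfl
    omega
  have c1 : ∀ i < r + 1, ∀ j < i, O.e1 + C + (Finset.Icc j i).sup g1 ≤ J := by
    intro i hi j hj
    refine sup_ok g1 _ i j hj hi fun t ht _ => ?_
    have h1 := sz1' t ht
    have h2 : ((O.e1 + C + g1 t : ℕ) : ℝ) ≤ J := by
      push_cast
      have : 0 ≤ μ * (J : ℝ) := by positivity
      linarith
    exact_mod_cast h2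
  have hhr := O.hη
  have hCh : C * ((O.h : ℝ) + k + 1) ≤ C * η * J + C * (k + 1) := by
    have h1 := mul_le_mul_of_nonneg_left hhr hC0
    have e1 : C * ((O.h : ℝ) + k + 1) = C * O.h + C * (k + 1) := by ring
    rw [e1]
    linarith
  have eCη : (C + 1) * η = C * η + η := by ring
  have hCη : C * η ≤ u := by linarith
  have hCη2 : C * η ≤ μ / 4 := by linarith
  have hCη3 : C * η * J ≤ μ / 4 * J := mul_le_mul_of_nonneg_right hCη2 hJr
  have hCη4 : C * η * J ≤ u * J := mul_le_mul_of_nonneg_right hCη hJr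
  have c2 : ∀ i < r + 1, ∀ j < i, O.e2 + C * (O.h + k + 1) + (Finset.Icc j i).sup g2 + O.M j ≤
      J := by
    intro i hi j hj
    have h3 := sup_ok g2 (O.e2 + C * (O.h + k + 1) + O.M j) i j hj hi fun t ht _ => by
      have h1 := sz2' t ht j (by omega)
      have h2 : ((O.e2 + C * (O.h + k + 1) + O.M j + g2 t : ℕ) : ℝ) ≤ J := by
        push_cast
        have : 0 ≤ μ * (J : ℝ) := by positivity
        linarith
      exact_mod_cast h2
    omega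
  have hg12 : g1 r ≤ g2 r := by
    rw [hg1, hg2]
    exact Nat.floor_le_floor (mul_le_mul_of_nonneg_right hdd hJr)
  have hw2 : W ≤ ⌊wb * (J : ℝ)⌋₊ := by
    rw [hW]
    exact Nat.floor_le_floor (mul_le_mul_of_nonneg_right hwb hJr)
  have hw2J : ⌊wb * (J : ℝ)⌋₊ ≤ J := by
    have h1 : ⌊wb * (J : ℝ)⌋₊ ≤ ⌊(J : ℝ)⌋₊ :=
      Nat.floor_le_floor (mul_le_of_le_one_left hJr hwb1)
    rwa [Nat.floor_natCast] at h1
  have hf := hfam (E := Ev) (R := X2 - X1) hl hc hql hqB ch1 cd1 c1 ch2 cd2 c2 hM' hg12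
    (fun ω hω => vcl ω (hBA ω hω)) (fun ω hω => O.v1 ω (hBA ω hω))
    (fun ω hω => O.vM ω (hBA ω hω)) O.M0 (fun ω hω => hshr ω (hBA ω hω)) hw2 hw2J O.hQJ
    (fun V z z' hz => by
      rw [hEv, hq]
      exact hE V z z' hz) (by rw [hX1, hX2]; linarith)
  have hQz : ⌊Qb * (J' : ℝ)⌋₊ ≤ J' := by
    have h1 : ⌊Qb * (J' : ℝ)⌋₊ ≤ ⌊(J' : ℝ)⌋₊ :=
      Nat.floor_le_floor (mul_le_of_le_one_left hJ'0 hQb1)
    rwa [Nat.floor_natCast] at h1
  have hz := zoom_ch hsumN C' z' e hql (b := bse) (lt := lst hn) (fun i => Pool.PKG.bse_ne hn i)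
    hQz (fun ω hω => vcl ω (hBA ω (hqB ω hω))) (fun ω hω => hnea ω (hBA ω (hqB ω hω)))
  -- the sums
  have s1 : ∑ i ∈ range r, ((J : ℝ) - g1 i) ≤ (∑ i ∈ range r, (1 - b1 i)) * J + r * σ * J + r := by
    have h1 : ∀ i ∈ range r, (J : ℝ) - g1 i ≤ (1 - b1 i) * J + (σ * J + 1) := by
      intro i hi
      have h2 := Nat.lt_floor_add_one ((b1 i - d1 i) * (J : ℝ))
      have h3 : d1 i * (J : ℝ) ≤ σ * J := mul_le_mul_of_nonneg_right
        (hd1 i (mem_range.1 hi).le).2 hJr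
      have h4 : g1 i = ⌊(b1 i - d1 i) * (J : ℝ)⌋₊ := by rw [hg1]
      rw [h4]
      have e1 : (b1 i - d1 i) * (J : ℝ) = b1 i * J - d1 i * J := by ring
      rw [e1] at h2 ⊢
      have e2 : (1 - b1 i) * (J : ℝ) = J - b1 i * J := by ring
      rw [e2]
      linarith
    refine (Finset.sum_le_sum h1).trans (le_of_eq ?_)
    rw [Finset.sum_add_distrib, ← Finset.sum_mul, Finset.sum_const, card_range, nsmul_eq_mul]
    ring
  have s2 : ∑ i ∈ (range r).erase l, ((J : ℝ) - g2 i) ≤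
      ((∑ i ∈ range r, (1 - b2 i)) - (1 - b2 l)) * J + r * σ * J + r := by
    have h1 : ∀ i ∈ (range r).erase l, (J : ℝ) - g2 i ≤ (1 - b2 i) * J + (σ * J + 1) := by
      intro i hi
      have h2 := Nat.lt_floor_add_one ((b2 i - d2 i) * (J : ℝ))
      have h3 : d2 i * (J : ℝ) ≤ σ * J := mul_le_mul_of_nonneg_right
        (hd2 i (mem_range.1 (mem_of_mem_erase hi)).le).2 hJr
      have h4 : g2 i = ⌊(b2 i - d2 i) * (J : ℝ)⌋₊ := by rw [hg2]
      rw [h4]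
      have e1 : (b2 i - d2 i) * (J : ℝ) = b2 i * J - d2 i * J := by ring
      rw [e1] at h2 ⊢
      have e2 : (1 - b2 i) * (J : ℝ) = J - b2 i * J := by ring
      rw [e2]
      linarith
    refine (Finset.sum_le_sum h1).trans ?_
    have h5 : ∑ i ∈ (range r).erase l, (1 - b2 i) = (∑ i ∈ range r, (1 - b2 i)) - (1 - b2 l) := by
      rw [eq_sub_iff_add_eq, Finset.sum_erase_add _ _ (mem_range.2 hl)]
    rw [Finset.sum_add_distrib, ← Finset.sum_mul, h5, Finset.sum_const, nsmul_eq_mul]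
    have h6 : (((range r).erase l).card : ℝ) ≤ r := by
      have := Finset.card_erase_le (s := range r) (a := l)
      rw [card_range] at this
      exact_mod_cast this
    have h7 : (((range r).erase l).card : ℝ) * (σ * J + 1) ≤ r * (σ * J + 1) :=
      mul_le_mul_of_nonneg_right h6 (by positivity)
    linarith
  have s3 : ((O.Q - g2 l : ℕ) : ℝ) ≤ 2 * σ * J + 3 := by
    rcases Nat.lt_or_ge (g2 l) O.Q with h1 | h1
    · rw [Nat.cast_sub h1.le]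
      have h2 := Nat.lt_floor_add_one ((b2 l - d2 l) * (J : ℝ))
      have h3 : d2 l * (J : ℝ) ≤ σ * J := mul_le_mul_of_nonneg_right (hd2 l hl.le).2 hJr
      have h4 : g2 l = ⌊(b2 l - d2 l) * (J : ℝ)⌋₊ := by rw [hg2]
      have h5 : δ * (J : ℝ) ≤ σ * J := mul_le_mul_of_nonneg_right hδ hJr
      have h6 := O.hQ
      rw [h4]
      have e1 : (b2 l - d2 l) * (J : ℝ) = b2 l * J - d2 l * J := by ring
      rw [e1] at h2 ⊢
      have e2 : (b2 l + δ) * (J : ℝ) = b2 l * J + δ * J := by ring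
      rw [e2] at h6
      linarith
    · rw [Nat.sub_eq_zero_of_le h1]
      push_cast
      positivity
  have s4 : (J : ℝ) - O.M r - g2 r ≤ (1 - xs - b2 r) * J + 2 * σ * J + 3 := by
    have h2 := Nat.lt_floor_add_one ((b2 r - d2 r) * (J : ℝ))
    have h3 : d2 r * (J : ℝ) ≤ σ * J := mul_le_mul_of_nonneg_right q2 hJr
    have h4 : g2 r = ⌊(b2 r - d2 r) * (J : ℝ)⌋₊ := by rw [hg2]
    have h5 : δ * (J : ℝ) ≤ σ * J := mul_le_mul_of_nonneg_right hδ hJr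
    have h6 := O.hMx
    rw [h4]
    have e1 : (b2 r - d2 r) * (J : ℝ) = b2 r * J - d2 r * J := by ring
    rw [e1] at h2 ⊢
    have e2 : (xs - δ) * (J : ℝ) = xs * J - δ * J := by ring
    rw [e2] at h6
    have e3 : (1 - xs - b2 r) * (J : ℝ) = J - xs * J - b2 r * J := by ring
    rw [e3]
    linarith
  -- the rates
  have s5 : X2 - X1 ≤ (rr (b2 r) - rr (b1 r) + σ + u) * J * Real.log 2 := by
    have h1 : X1 = CH q (fun ω => F.X ⌊(b1 r - d1 r) * (J : ℝ)⌋₊ ω (c r))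
      (fun ω => ((fun j : Fin r => F.X J ω (c j)), F.W ω)) := by rw [hX1, hg1]
    have h2 : X2 = CH q (fun ω => F.X ⌊(b2 r - d2 r) * (J : ℝ)⌋₊ ω (c r))
      (fun ω => ((fun j : Fin r => F.X J ω (c j)), F.W ω)) := by rw [hX2, hg2]
    rw [← h1] at hR1
    rw [← h2] at hR2
    have h3 := (abs_le.1 hR1).1
    have h4 := (abs_le.1 hR2).2
    have h5 : rr (b2 r - d2 r) ≤ rr (b2 r) := hr.mono (by linarith)
    have h6 : rr (b1 r) - rr (b1 r - d1 r) ≤ σ := by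
      have h7 := hr.lip.dist_le_mul (b1 r) (b1 r - d1 r)
      rw [Real.dist_eq, Real.dist_eq] at h7
      have h8 := (abs_le.1 h7).2
      have e1 : b1 r - (b1 r - d1 r) = d1 r := by ring
      rw [e1, abs_of_nonneg p1] at h8
      push_cast at h8
      linarith
    have h7 : 0 ≤ Real.log 2 * (J : ℝ) := by positivity
    have h8 := mul_le_mul_of_nonneg_right h5 h7
    have h9 := mul_le_mul_of_nonneg_right h6 h7
    have e1 : (rr (b2 r) - rr (b1 r) + σ + u) * J * Real.log 2 = rr (b2 r) * (Real.log 2 * J) -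
      rr (b1 r) * (Real.log 2 * J) + σ * (Real.log 2 * J) + u * (Real.log 2 * J) := by ring
    rw [e1]
    have e2 : rr (b2 r - d2 r) * Real.log 2 * (J : ℝ) = rr (b2 r - d2 r) * (Real.log 2 * J) := by
      ring
    have e3 : rr (b1 r - d1 r) * Real.log 2 * (J : ℝ) = rr (b1 r - d1 r) * (Real.log 2 * J) := by
      ring
    rw [e2] at h4
    rw [e3] at h3
    linarith
  have s6 : eb * (1 - w₁) * J ≤ eb * J' + |eb| := by
    have h1 : eb * ((1 - w₁) * J - J') ≤ |eb| * 1 := by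
      refine (le_abs_self _).trans ?_
      rw [abs_mul]
      refine mul_le_mul_of_nonneg_left ?_ (abs_nonneg eb)
      rw [abs_le]
      constructor <;> linarith
    linarith
  have s7 : ((1 - xs - b2 r) + ∑ i ∈ range r, (1 - b1 i) + rr (b2 r) - rr (b1 r) -
      (1 - b2 l)) * J ≤ eb * (1 - w₁) * J := mul_le_mul_of_nonneg_right heb hJr
  have s8 : 8 * u * J ≤ h * J' := by
    rw [hu]
    have := mul_le_mul_of_nonneg_left hJ'1 hh.le
    linarith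
  have s9 : (2 * r + n + 6) * σ * J = u * J := by rw [hσu]
  have hn1 : (((n - 1 : ℕ) : ℝ) + 1) * ((O.c₀ : ℝ) + 6) ≤
      (n + 1) * (σ * J) + (n + 1) * (k + 6) := by
    have h1 : ((n - 1 : ℕ) : ℝ) ≤ n := by exact_mod_cast Nat.sub_le n 1
    have h2 : (O.c₀ : ℝ) + 6 ≤ σ * J + (k + 6) := by
      have h3 := O.hc₀
      have h4 : δ * (J : ℝ) ≤ σ * J := mul_le_mul_of_nonneg_right hδ hJr
      linarith
    calc (((n - 1 : ℕ) : ℝ) + 1) * ((O.c₀ : ℝ) + 6) ≤ (n + 1) * (σ * J + (k + 6)) :=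
          mul_le_mul (by linarith) h2 (by positivity) (by positivity)
      _ = _ := by ring
  have tot : (((J : ℝ) - O.M r - g2 r) + ∑ i ∈ range r, ((J : ℝ) - g1 i) +
      ∑ i ∈ (range r).erase l, ((J : ℝ) - g2 i) + ((O.Q - g2 l : ℕ) : ℝ) +
      C * ((O.h : ℝ) + k + 1)) + (rr (b2 r) - rr (b1 r) + σ + u) * J -
      ((∑ j ∈ range r, (1 - b2 j)) - u) * J + (((n - 1 : ℕ) : ℝ) + 1) * ((O.c₀ : ℝ) + 6) ≤
      (eb + h) * J' := by
    rw [hKc] at hJ1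
    have huJ : 0 ≤ u * J := by positivity
    have hσJ : 0 ≤ σ * J := by positivity
    linarith
  have key : CH q (fun ω => ((zfc F W J' hsumN.le C' (fun ω => z' (slam F W ω)) e).X
      ⌊Qb * (J' : ℝ)⌋₊ ω (lst hn), fun i => (zfc F W J' hsumN.le C'
        (fun ω => z' (slam F W ω)) e).X J' ω (bse i)))
      (zfc F W J' hsumN.le C' (fun ω => z' (slam F W ω)) e).W ≤ (eb + h) * Real.log 2 * J' := by
    refine hz.trans ?_
    have h1 := mul_le_mul_of_nonneg_right tot hl2.le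
    have e1 : (eb + h) * Real.log 2 * (J' : ℝ) = (eb + h) * J' * Real.log 2 := by ring
    rw [e1]
    refine le_trans ?_ h1
    have e2 : ((((J : ℝ) - O.M r - g2 r) + ∑ i ∈ range r, ((J : ℝ) - g1 i) +
      ∑ i ∈ (range r).erase l, ((J : ℝ) - g2 i) + ((O.Q - g2 l : ℕ) : ℝ) +
      C * ((O.h : ℝ) + k + 1)) + (rr (b2 r) - rr (b1 r) + σ + u) * J -
      ((∑ j ∈ range r, (1 - b2 j)) - u) * J + (((n - 1 : ℕ) : ℝ) + 1) * ((O.c₀ : ℝ) + 6)) *
      Real.log 2 = (rr (b2 r) - rr (b1 r) + σ + u) * J * Real.log 2 - Ev +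
      (((J : ℝ) - O.M r - g2 r) + ∑ i ∈ range r, ((J : ℝ) - g1 i) +
      ∑ i ∈ (range r).erase l, ((J : ℝ) - g2 i) + ((O.Q - g2 l : ℕ) : ℝ) +
      C * ((O.h : ℝ) + k + 1)) * Real.log 2 + (((n - 1 : ℕ) : ℝ) + 1) *
        (((O.c₀ : ℝ) + 6) * Real.log 2) := by
      rw [hEv]
      ring
    rw [e2]
    linarith
  subst hW
  change CH (Pool.Agent.H49.Ent.cond (Pool.Agent.H49.Ent.cond F.p A True) B True) _ _ ≤ _
  rw [ecnd]
  exact key

end Pool.PSI
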