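import Pool.Agent.H39.GEN.Psd

/-!
# The closed codes of the nodes

`codes_fam`: the closed codes of finitely many chains on one event, for one family; the codes of the
chains with the window `w1` are added to the given closed value.
`codes_bas`: the same for a class.
-/

set_option autoImplicit false

namespace Pool.PSI

open Finset Real MvPolynomial
open Pool.Agent.H49.Ent Pool.Agent.H32.Dense Pool.STK Pool.KA Pool.KSAT Pool.K2S Pool.PB Pool.S6C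
open Pool.GEN Pool.CHT
open Pool.STAT.CLO

variable {m : ℕ}

/-- A finer record. -/
theorem Cod.comp {J : ℕ} {F : Fam m J} {c : ℕ → Fin m} {n D k a w : ℕ} {g : ℕ → ℕ}
    {B : F.Ω → Prop} {G : PtT F → ℕ → MvPolynomial (Option (Fin m)) ℝ} {V V₁ : Type}
    {z : PtT F → V} {z' : LnT F → V} {P : V → ℕ → MvPolynomial (Option (Fin m)) ℝ}
    (h : Cod F c n D k a w g B G z z' P) {z₁ : PtT F → V₁} {z₁' : LnT F → V₁} (f : V₁ → V)
    (h1 : ∀ ω, B ω → z₁ (ptr F J ω) = z₁' (slam F w ω)) (h2 : ∀ s, f (z₁' s) = z' s) :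
    Cod F c n D k a w g B G z₁ z₁' (fun v => P (f v)) :=
  ⟨h1, fun v i => h.deg _ i, fun v i => h.dep _ i, fun ω hω i hi b hb => by
    have h3 := h.near ω hω i hi b hb
    rw [← h2] at h3
    exact h3⟩

/-- **The closed codes of finitely many chains**, one family. -/
theorem codes_fam (n K : ℕ) : ∃ C : ℕ, 1 ≤ C ∧ ∀ {m J : ℕ} {F : Fam m J} {c : ℕ → Fin m}
    {ι : Type} {D a w e : ι → ℕ} {g : ι → ℕ → ℕ}
    {T : ι → PtT F → ℕ → MvPolynomial (Option (Fin m)) ℝ}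
    {TH : ι → LnT F → ℕ → MvPolynomial (Option (Fin m)) ℝ} {w1 : ℕ} (p : ι → Prop) (L : List ι),
    Set.InjOn c (Set.Iio n) → ∀ {B : F.Ω → Prop} {V : Type} {z : PtT F → V} {z' : LnT F → V},
    (∀ q ∈ L, D q ≤ K ∧ w q ≤ a q ∧ a q ≤ J ∧
      ChOK F c n (fun _ => D q) (a q) (w q) (e q) (g q) B (T q) (TH q)) →
    (∀ q ∈ L, p q → a q = w1) → (∀ ω, B ω → z (ptr F J ω) = z' (slam F w1 ω)) →
    ∃ (B' : F.Ω → Prop) (V₁ : Type) (z₁ : PtT F → V₁) (z₁' : LnT F → V₁) (f : V₁ → V),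
      Sub B' B ∧ Pe F.p B ≤ (C : ℝ) ^ L.length * Pe F.p B' ∧
      (∀ ω, B' ω → z₁ (ptr F J ω) = z₁' (slam F w1 ω)) ∧ (∀ y, f (z₁ y) = z y) ∧
      (∀ s, f (z₁' s) = z' s) ∧ ∀ q ∈ L,
        (∃ (V₂ : Type) (z₂ : PtT F → V₂) (z₂' : LnT F → V₂)
          (P₂ : V₂ → ℕ → MvPolynomial (Option (Fin m)) ℝ),
          Cod F c n C C (a q) (a q) (g q) B' (T q) z₂ z₂' P₂) ∧
        (p q → ∃ P₁ : V₁ → ℕ → MvPolynomial (Option (Fin m)) ℝ,
          Cod F c n C C (a q) w1 (g q) B' (T q) z₁ z₁' P₁) := by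
  classical
  obtain ⟨C, hC, hco⟩ := cod_of n K
  refine ⟨C, hC, ?_⟩
  intro m J F c ι D a w e g T TH w1 p L hc
  induction L with
  | nil =>
    intro B V z z' _ _ hz
    refine ⟨B, V, z, z', id, fun _ h => h, by simp, hz, fun _ => rfl, fun _ => rfl, ?_⟩
    intro q hq
    exact absurd hq List.not_mem_nil
  | cons q L ih =>
    intro B V z z' hL hp hz
    obtain ⟨B₁, V₁, z₁, z₁', f, hB₁, hP₁, hz₁, hf, hf', hall⟩ := ih
      (fun x hx => hL x (List.mem_cons_of_mem q hx)) (fun x hx => hp x (List.mem_cons_of_mem q hx))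
      hz
    obtain ⟨h1, h2, h3, h4⟩ := hL q List.mem_cons_self
    obtain ⟨B₂, zq, zq', Pq, hB₂, hP₂, hcod⟩ := hco h1 h2 h3 hc (h4.sub hB₁)
    have hPP : Pe F.p B ≤ (C : ℝ) ^ (q :: L).length * Pe F.p B₂ := by
      rw [List.length_cons, pow_succ, mul_assoc]
      exact hP₁.trans (mul_le_mul_of_nonneg_left hP₂ (by positivity))
    by_cases hpq : p q
    · have haq := hp q List.mem_cons_self hpq
      have hcl : ∀ ω, B₂ ω → (z₁ (ptr F J ω), zq (ptr F J ω)) =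
          (z₁' (slam F w1 ω), zq' (slam F w1 ω)) := by
        intro ω hω
        have h5 := hcod.cls ω hω
        rw [haq] at h5
        rw [hz₁ ω (hB₂ ω hω), h5]
      refine ⟨B₂, V₁ × LV, fun y => (z₁ y, zq y), fun s => (z₁' s, zq' s), fun v => f v.1,
        fun ω hω => hB₁ ω (hB₂ ω hω), hPP, hcl, fun y => hf y, fun s => hf' s, ?_⟩
      intro x hx
      rcases List.mem_cons.1 hx with rfl | hx
      · refine ⟨⟨_, _, _, _, hcod⟩, fun _ => ⟨fun v => Pq v.2, ?_⟩⟩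
        have h6 : Cod F c n C C (a x) w1 (g x) B₂ (T x) zq zq' Pq := by
          have h7 := hcod
          rw [haq] at h7 ⊢
          exact h7
        exact h6.comp Prod.snd hcl fun _ => rfl
      · obtain ⟨⟨V₂, z₂, z₂', P₂, h5⟩, h6⟩ := hall x hx
        refine ⟨⟨V₂, z₂, z₂', P₂, h5.sub hB₂⟩, fun hpx => ?_⟩
        obtain ⟨P₁, h7⟩ := h6 hpx
        exact ⟨fun v => P₁ v.1, (h7.sub hB₂).comp Prod.fst hcl fun _ => rfl⟩
    · refine ⟨B₂, V₁, z₁, z₁', f, fun ω hω => hB₁ ω (hB₂ ω hω), hPP,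
        fun ω hω => hz₁ ω (hB₂ ω hω), hf, hf', ?_⟩
      intro x hx
      rcases List.mem_cons.1 hx with rfl | hx
      · exact ⟨⟨_, _, _, _, hcod⟩, fun h => absurd h hpq⟩
      · obtain ⟨⟨V₂, z₂, z₂', P₂, h5⟩, h6⟩ := hall x hx
        refine ⟨⟨V₂, z₂, z₂', P₂, h5.sub hB₂⟩, fun hpx => ?_⟩
        obtain ⟨P₁, h7⟩ := h6 hpx
        exact ⟨P₁, h7.sub hB₂⟩

/-- **The closed codes of the nodes**, class form. The value `v` is a function of the closed value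
`z`; the codes of the nodes with the radius `w₁` become a part of `z`. -/
theorem codes_bas (n K : ℕ) : ∃ C : ℕ, 1 ≤ C ∧ ∀ {m : ℕ} {S : PCl m} {c : ℕ → Fin m} {w₁ : ℝ}
    {ι : Type} (L : List ι) {D : ι → ℕ} {a w : ι → ℝ} {e : ι → ℕ → ℕ} {g : ι → ℕ → ℕ → ℕ}
    {Φ Φ' : ∀ (J : ℕ) (F : Fam m J), (F.Ω → Prop) → (PtT F → Fin m → ℝ) →
      (LnT F → Fin m → ℝ) → Prop}
    {M M' : ι → ∀ (J : ℕ) (F : Fam m J), (F.Ω → Prop) → (PtT F → Fin m → ℝ) →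
      (LnT F → Fin m → ℝ) → (PtT F → ℕ → MvPolynomial (Option (Fin m)) ℝ) →
      (LnT F → ℕ → MvPolynomial (Option (Fin m)) ℝ) → Prop}
    {K₁ : ℝ}, 0 < K₁ → Set.InjOn c (Set.Iio n) →
    (∀ q ∈ L, D q ≤ K ∧ w q ≤ a q ∧ a q ≤ 1) →
    (∀ κ : ℝ, 0 < κ → ∃ J₀ : ℕ, ∀ J ≥ J₀, ∀ (F : Fam m J) (B B' : F.Ω → Prop)
      (v : PtT F → Fin m → ℝ) (v' : LnT F → Fin m → ℝ), Φ J F B v v' → Sub B' B →
      κ * Pe F.p B ≤ Pe F.p B' → Φ' J F B' v v') →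
    (∀ q ∈ L, ∀ κ : ℝ, 0 < κ → ∃ J₀ : ℕ, ∀ J ≥ J₀, ∀ (F : Fam m J) (B B' : F.Ω → Prop)
      (v : PtT F → Fin m → ℝ) (v' : LnT F → Fin m → ℝ)
      (T : PtT F → ℕ → MvPolynomial (Option (Fin m)) ℝ)
      (TH : LnT F → ℕ → MvPolynomial (Option (Fin m)) ℝ), M q J F B v v' T TH → Sub B' B →
      κ * Pe F.p B ≤ Pe F.p B' → M' q J F B' v v' T TH) →
    (∀ q ∈ L, ∀ (J : ℕ) (F : Fam m J) (B : F.Ω → Prop) (v : PtT F → Fin m → ℝ)
      (v' : LnT F → Fin m → ℝ) (T : PtT F → ℕ → MvPolynomial (Option (Fin m)) ℝ)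
      (TH : LnT F → ℕ → MvPolynomial (Option (Fin m)) ℝ), M q J F B v v' T TH →
      ChOK F c n (fun _ => D q) ⌊a q * J⌋₊ ⌊w q * J⌋₊ (e q J) (g q J) B T TH) →
    Bas S (fun J F A => ∃ B : F.Ω → Prop, Sub B A ∧ Pe F.p A ≤ K₁ * Pe F.p B ∧
      ∃ (V : Type) (z : PtT F → V) (z' : LnT F → V) (cb : V → Fin m → ℝ),
        (∀ ω, B ω → z (ptr F J ω) = z' (slam F ⌊w₁ * J⌋₊ ω)) ∧
        Φ J F B (fun y => cb (z y)) (fun s => cb (z' s)) ∧
        ∀ q ∈ L, ∃ T TH, M q J F B (fun y => cb (z y)) (fun s => cb (z' s)) T TH) →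
    ∃ K₂ : ℝ, 0 < K₂ ∧ Bas S (fun J F A => ∃ B : F.Ω → Prop, Sub B A ∧
      Pe F.p A ≤ K₂ * Pe F.p B ∧
      ∃ (V : Type) (z : PtT F → V) (z' : LnT F → V) (cb : V → Fin m → ℝ),
        (∀ ω, B ω → z (ptr F J ω) = z' (slam F ⌊w₁ * J⌋₊ ω)) ∧
        Φ' J F B (fun y => cb (z y)) (fun s => cb (z' s)) ∧
        ∀ q ∈ L, ∃ T TH, M' q J F B (fun y => cb (z y)) (fun s => cb (z' s)) T TH ∧
          (∃ (V₂ : Type) (z₂ : PtT F → V₂) (z₂' : LnT F → V₂)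
            (P₂ : V₂ → ℕ → MvPolynomial (Option (Fin m)) ℝ),
            Cod F c n C C ⌊a q * J⌋₊ ⌊a q * J⌋₊ (g q J) B T z₂ z₂' P₂) ∧
          (a q = w₁ → ∃ P₁ : V → ℕ → MvPolynomial (Option (Fin m)) ℝ,
            Cod F c n C C ⌊w₁ * J⌋₊ ⌊w₁ * J⌋₊ (g q J) B T z z' P₁)) := by
  classical
  obtain ⟨C, hC, hfam⟩ := codes_fam n K
  refine ⟨C, hC, ?_⟩
  intro m S c w₁ ι L D a w e g Φ Φ' M M' K₁ hK₁ hc hL hΦ hM hch hbas
  have hCr : (1 : ℝ) ≤ C := by exact_mod_cast hC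
  have hκ : (0 : ℝ) < 1 / (C : ℝ) ^ L.length := by positivity
  obtain ⟨JΦ, hJΦ⟩ := hΦ _ hκ
  have hMall : ∀ L' : List ι, (∀ q ∈ L', q ∈ L) → ∃ J₀ : ℕ, ∀ q ∈ L', ∀ J ≥ J₀,
      ∀ (F : Fam m J) (B B' : F.Ω → Prop) (v : PtT F → Fin m → ℝ) (v' : LnT F → Fin m → ℝ)
      (T : PtT F → ℕ → MvPolynomial (Option (Fin m)) ℝ)
      (TH : LnT F → ℕ → MvPolynomial (Option (Fin m)) ℝ), M q J F B v v' T TH → Sub B' B →
      1 / (C : ℝ) ^ L.length * Pe F.p B ≤ Pe F.p B' → M' q J F B' v v' T TH := by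
    intro L'
    induction L' with
    | nil => exact fun _ => ⟨0, fun q hq => absurd hq List.not_mem_nil⟩
    | cons q L' ih =>
      intro hs
      obtain ⟨J₁, h1⟩ := ih fun x hx => hs x (List.mem_cons_of_mem q hx)
      obtain ⟨J₂, h2⟩ := hM q (hs q List.mem_cons_self) _ hκ
      refine ⟨max J₁ J₂, fun x hx J hJ => ?_⟩
      rcases List.mem_cons.1 hx with rfl | hx
      · exact h2 J ((le_max_right _ _).trans hJ)
      · exact h1 x hx J ((le_max_left _ _).trans hJ)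
  obtain ⟨JM, hJM⟩ := hMall L fun _ h => h
  refine ⟨K₁ * (C : ℝ) ^ L.length, by positivity, ?_⟩
  refine Bas.mono (max JΦ JM) hbas ?_
  rintro J hJ F A ⟨B, hBA, hPB, V, z, z', cb, hz, hphi, hq⟩
  have hJ1 : JΦ ≤ J := (le_max_left _ _).trans hJ
  have hJ2 : JM ≤ J := (le_max_right _ _).trans hJ
  have hJr : (0 : ℝ) ≤ J := Nat.cast_nonneg J
  choose! T TH hq using hq
  obtain ⟨B', V₁, z₁, z₁', f, hB', hP', hz₁, hf, hf', hall⟩ := hfam (F := F) (c := c)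
    (D := D) (a := fun q => ⌊a q * J⌋₊) (w := fun q => ⌊w q * J⌋₊) (e := fun q => e q J)
    (g := fun q => g q J) (T := T) (TH := TH) (w1 := ⌊w₁ * J⌋₊) (fun q => a q = w₁) L hc
    (B := B) (z := z) (z' := z') (fun q hqL => by
      obtain ⟨h1, h2, h3⟩ := hL q hqL
      refine ⟨h1, Nat.floor_le_floor (mul_le_mul_of_nonneg_right h2 hJr), ?_,
        hch q hqL J F B _ _ _ _ (hq q hqL)⟩
      have h4 : ⌊a q * (J : ℝ)⌋₊ ≤ ⌊(J : ℝ)⌋₊ :=
        Nat.floor_le_floor (mul_le_of_le_one_left hJr h3)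
      rwa [Nat.floor_natCast] at h4)
    (fun q _ h => by rw [h]) hz
  have e1 : (fun y => cb (f (z₁ y))) = fun y => cb (z y) := funext fun y => by rw [hf]
  have e2 : (fun s => cb (f (z₁' s))) = fun s => cb (z' s) := funext fun s => by rw [hf']
  have hsh : 1 / (C : ℝ) ^ L.length * Pe F.p B ≤ Pe F.p B' := by
    rw [one_div, inv_mul_le_iff₀ (by positivity)]
    exact hP'
  refine ⟨B', fun ω h => hBA ω (hB' ω h), ?_, V₁, z₁, z₁', fun v => cb (f v), hz₁, ?_, ?_⟩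
  · rw [mul_assoc]
    exact hPB.trans (mul_le_mul_of_nonneg_left hP' hK₁.le)
  · rw [e1, e2]
    exact hJΦ J hJ1 F B B' _ _ hphi hB' hsh
  · intro q hqL
    obtain ⟨h1, h2⟩ := hall q hqL
    refine ⟨T q, TH q, ?_, h1, fun h => ?_⟩
    · rw [e1, e2]
      exact hJM q hqL J hJ2 F B B' _ _ _ _ (hq q hqL) hB' hsh
    · obtain ⟨P₁, h3⟩ := h2 h
      simp only [h] at h3
      exact ⟨P₁, h3⟩

end Pool.PSI
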