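import Pool.Agent.H39.GEN.Pse
import Pool.Agent.H80.ZC.Slp

/-!
# The data of the shear from the nodes

`psD_A`, `psD_B`: the data `PsD` of `psi2_zpr` from closed codes of the nodes at the windows `w₁`
and `wb`, the shear at the second window, in the cases A (the shear of the last coordinate is at
most one) and B (it is at least one).
-/

set_option autoImplicit false

namespace Pool.PSI

open Finset Real MvPolynomial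
open Pool.Agent.H49.Ent Pool.Agent.H32.Dense Pool.STK Pool.KA Pool.KSAT Pool.K2S Pool.PB Pool.S6C
open Pool.GEN Pool.CHT Pool.SHR Pool.ZCL Pool.ZLC Pool.ZCO Pool.ONE Pool.PKG
open Pool.STAT.CLO

/-- The property `Shr` at a sample uses the direction at this sample. -/
theorem shr_congr {m J : ℕ} {F : Fam m J} {c : ℕ → Fin m} {l a : ℕ} {g : ℕ → ℕ}
    {G : PtT F → ℕ → MvPolynomial (Option (Fin m)) ℝ} {v v₁ : PtT F → Fin m → ℝ} {h i : ℕ}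
    {ω : F.Ω} (hv : v (ptr F J ω) = v₁ (ptr F J ω)) (h1 : Shr F c l a g G v h i ω) :
    Shr F c l a g G v₁ h i ω := by
  intro b hb s hs
  rw [← hv]
  exact h1 b hb s hs

/-- Sides in units of `J`. -/
theorem fl_side {b d : ℝ} {J : ℕ} (hb : 0 ≤ b) (hd : 0 ≤ d) :
    ((⌊(b - d) * (J : ℝ)⌋₊ : ℕ) : ℝ) ≤ b * J := by
  have hJ : (0 : ℝ) ≤ J := Nat.cast_nonneg J
  have h1 : ⌊(b - d) * (J : ℝ)⌋₊ ≤ ⌊b * (J : ℝ)⌋₊ :=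
    Nat.floor_le_floor (mul_le_mul_of_nonneg_right (by linarith) hJ)
  have h2 : ((⌊(b - d) * (J : ℝ)⌋₊ : ℕ) : ℝ) ≤ (⌊b * (J : ℝ)⌋₊ : ℕ) := by exact_mod_cast h1
  exact h2.trans (Nat.floor_le (by positivity))

variable {n : ℕ}

/-- **Case A**: the shear of the last coordinate is at most one. -/
theorem psD_A {hn : 2 ≤ n} {σ : Equiv.Perm (Fin (n - 1))} {l : ℕ} (hl : l < n - 1)
    {w₁ wb : ℝ} (hw0 : 0 ≤ w₁) (hw1 : w₁ ≤ 1) {D k D₁ D₂ k₀ : ℕ} (hD₁ : D₁ ≤ D) (hD₂ : D₂ ≤ D)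
    (hk₀ : k₀ ≤ D) (hk : k₀ ≤ k) {b1 d1 b2 d2 : ℕ → ℝ} {E₁ E₂ x δ μ η Qb : ℝ} (hE₁ : 0 ≤ E₁)
    (hE₂ : 0 ≤ E₂) (hx : 0 ≤ x) (hη : 0 ≤ η) (hδ : 0 ≤ δ) (hμ : 0 ≤ μ)
    (hb1 : ∀ i ≤ n - 1, 0 ≤ b1 i ∧ 0 ≤ d1 i ∧ E₁ + b1 i ≤ 1 - μ)
    (hb2 : ∀ i ≤ n - 1, 0 ≤ b2 i ∧ 0 ≤ d2 i ∧ E₂ + b2 i + x ≤ 1 - μ) (hQ0 : 0 ≤ Qb)
    (hQ1 : Qb ≤ 1) (hQb : Qb * (1 - w₁) ≤ b2 l - w₁)
    {J : ℕ} {F : Fam n J} {A : F.Ω → Prop} {V : Type} {z : PtT F → V} {z' : LnT F → V}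
    {cb : V → Fin n → ℝ} {Lt : Finset (Fin n)} {hu : cc hn σ l ∉ Lt} {M : Fin n → ℕ}
    (hLt : ∀ i ≤ n - 1, cc hn σ i ∈ Lt ↔ l < i)
    (hM : ∀ i, l < i → i < n - 1 → ⌊x * J⌋₊ ≤ M (cc hn σ i))
    (hz : ∀ ω, A ω → z (ptr F J ω) = z' (slam F ⌊w₁ * J⌋₊ ω))
    (hcb : ∀ ω, A ω → ∀ i, l < i → i < n - 1 → |cb (z (ptr F J ω)) (cc hn σ i)| ≤ 2 ^ ⌊x * J⌋₊)
    (hcN : ∀ ω, A ω → |cb (z (ptr F J ω)) (lst hn)| ≤ 1)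
    {T₁ T₂ : PtT F → ℕ → MvPolynomial (Option (Fin n)) ℝ}
    {TH₁ TH₂ : LnT F → ℕ → MvPolynomial (Option (Fin n)) ℝ}
    {P₁ : V → ℕ → MvPolynomial (Option (Fin n)) ℝ} {V₂ : Type} {z₂ : PtT F → V₂}
    {z₂' : LnT F → V₂} {P₂ : V₂ → ℕ → MvPolynomial (Option (Fin n)) ℝ}
    (ch1 : ChOK F (cc hn σ) (n - 1 + 1) (fun _ => D₁) ⌊w₁ * J⌋₊ ⌊w₁ * J⌋₊ ⌊E₁ * J⌋₊
      (fun i => ⌊(b1 i - d1 i) * J⌋₊) A T₁ TH₁)
    (cd1 : Cod F (cc hn σ) (n - 1 + 1) k₀ k₀ ⌊w₁ * J⌋₊ ⌊w₁ * J⌋₊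
      (fun i => ⌊(b1 i - d1 i) * J⌋₊) A T₁ z z' P₁)
    (ch2 : ChOK F (cc hn σ) (n - 1 + 1) (fun _ => D₂) ⌊wb * J⌋₊ ⌊wb * J⌋₊ ⌊E₂ * J⌋₊
      (fun i => ⌊(b2 i - d2 i) * J⌋₊) A T₂ TH₂)
    (cd2 : Cod F (cc hn σ) (n - 1 + 1) k₀ k₀ ⌊wb * J⌋₊ ⌊wb * J⌋₊
      (fun i => ⌊(b2 i - d2 i) * J⌋₊) A T₂ z₂ z₂' P₂)
    {v₀ : PtT F → Fin n → ℝ} (hv₀ : ∀ ω, A ω → v₀ (ptr F J ω) (cc hn σ l) = 1 ∧
      (∀ j < l, v₀ (ptr F J ω) (cc hn σ j) = 0) ∧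
      ∀ i, l < i → i ≤ n - 1 → v₀ (ptr F J ω) (cc hn σ i) = cb (z (ptr F J ω)) (cc hn σ i))
    (shr : ∀ ω, A ω → ∀ i, l < i → i ≤ n - 1 → Shr F (cc hn σ) l ⌊wb * J⌋₊
      (fun i => ⌊(b2 i - d2 i) * J⌋₊) T₂ v₀ ⌊η * J⌋₊ i ω) :
    PsD w₁ wb (cc hn σ) l (n - 1) D k b1 d1 b2 d2 0 δ μ η Qb (ez hn σ l) (lst hn) J F A V
      (shC cb (cc hn σ l) Lt hu M) z' := by
  have hJ : (0 : ℝ) ≤ J := Nat.cast_nonneg J
  have hNc : cc hn σ (n - 1) = lst hn := cc_ge hn σ le_rfl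
  have hdir : ∀ ω, A ω → v₀ (ptr F J ω) = dirA cb (cc hn σ l) Lt M (z (ptr F J ω)) := by
    intro ω hω
    obtain ⟨h1, h2, h3⟩ := hv₀ ω hω
    funext y
    obtain ⟨i, hi, rfl⟩ : ∃ i, i ≤ n - 1 ∧ cc hn σ i = y := by
      by_cases hy : y = lst hn
      · exact ⟨n - 1, le_rfl, by rw [hNc, hy]⟩
      · obtain ⟨j, hj, h4⟩ := cc_all hn σ hy
        exact ⟨j, hj.le, h4⟩
    unfold dirA
    rcases lt_trichotomy i l with h4 | h4 | h4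
    · have h5 : cc hn σ i ≠ cc hn σ l := fun h => by
        have := cc_inj' hn σ (by omega) (by omega) h
        omega
      have h6 : cc hn σ i ∉ Lt := fun h => by
        have := (hLt i hi).1 h
        omega
      rw [if_neg h5, if_neg h6, h2 i h4]
    · subst h4
      rw [if_pos rfl, h1]
    · have h5 : cc hn σ i ≠ cc hn σ l := fun h => by
        have := cc_inj' hn σ (by omega) (by omega) h
        omega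
      rw [if_neg h5, if_pos ((hLt i hi).2 h4), h3 i h4 hi]
      refine (clp_of ?_).symm
      rcases Nat.lt_or_ge i (n - 1) with h6 | h6
      · exact (hcb ω hω i h4 h6).trans (pow_le_pow_right₀ one_le_two (hM i h4 h6))
      · have h7 : i = n - 1 := by omega
        rw [h7, hNc]
        exact (hcN ω hω).trans (one_le_pow₀ one_le_two)
  obtain ⟨Mi, hMi⟩ : ∃ Mi : ℕ → ℕ, Mi = fun i => if l < i ∧ i < n - 1 then ⌊x * (J : ℝ)⌋₊ else 0 :=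
    ⟨_, rfl⟩
  have hMi1 : ∀ i, l < i → i < n - 1 → Mi i = ⌊x * (J : ℝ)⌋₊ := by
    intro i h1 h2
    rw [hMi]
    exact if_pos ⟨h1, h2⟩
  have hMi0 : ∀ i, ¬ (l < i ∧ i < n - 1) → Mi i = 0 := by
    intro i h1
    rw [hMi]
    exact if_neg h1
  have hxJ : ((⌊x * (J : ℝ)⌋₊ : ℕ) : ℝ) ≤ x * J := Nat.floor_le (by positivity)
  have hMx : ∀ i, (Mi i : ℝ) ≤ x * J := by
    intro i
    by_cases h1 : l < i ∧ i < n - 1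
    · rw [hMi1 i h1.1 h1.2]
      exact hxJ
    · rw [hMi0 i h1]
      push_cast
      positivity
  have hWr : ((⌊w₁ * (J : ℝ)⌋₊ : ℕ) : ℝ) ≤ w₁ * J := Nat.floor_le (by positivity)
  have hWr' := Nat.lt_floor_add_one (w₁ * (J : ℝ))
  obtain ⟨W, hW⟩ : ∃ W, W = ⌊w₁ * (J : ℝ)⌋₊ := ⟨_, rfl⟩
  have hWJ : W ≤ J := by
    have h1 : ⌊w₁ * (J : ℝ)⌋₊ ≤ ⌊(J : ℝ)⌋₊ := Nat.floor_le_floor (mul_le_of_le_one_left hJ hw1)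
    rw [Nat.floor_natCast] at h1
    rw [hW]
    exact h1
  have hJ' : ((J - W : ℕ) : ℝ) = J - W := by rw [Nat.cast_sub hWJ]
  have hQf : ((⌊Qb * ((J - W : ℕ) : ℝ)⌋₊ : ℕ) : ℝ) ≤ Qb * ((J - W : ℕ) : ℝ) :=
    Nat.floor_le (by positivity)
  have hQf' : ⌊Qb * ((J - W : ℕ) : ℝ)⌋₊ ≤ J - W := by
    have h1 : ⌊Qb * ((J - W : ℕ) : ℝ)⌋₊ ≤ ⌊((J - W : ℕ) : ℝ)⌋₊ :=
      Nat.floor_le_floor (mul_le_of_le_one_left (Nat.cast_nonneg _) hQ1)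
    rwa [Nat.floor_natCast] at h1
  have hsz1 : ∀ i ≤ n - 1, ((⌊E₁ * (J : ℝ)⌋₊ : ℕ) : ℝ) + ⌊(b1 i - d1 i) * (J : ℝ)⌋₊ ≤
      (1 - μ) * J := by
    intro i hi
    obtain ⟨h1, h2, h3⟩ := hb1 i hi
    have h4 := fl_side (J := J) h1 h2
    have h5 : ((⌊E₁ * (J : ℝ)⌋₊ : ℕ) : ℝ) ≤ E₁ * J := Nat.floor_le (by positivity)
    have h6 := mul_le_mul_of_nonneg_right h3 hJ
    linarith
  have hsz2 : ∀ i ≤ n - 1, ∀ j < n - 1, ((⌊E₂ * (J : ℝ)⌋₊ : ℕ) : ℝ) +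
      ⌊(b2 i - d2 i) * (J : ℝ)⌋₊ + Mi j ≤ (1 - μ) * J := by
    intro i hi j _
    obtain ⟨h1, h2, h3⟩ := hb2 i hi
    have h4 := fl_side (J := J) h1 h2
    have h5 : ((⌊E₂ * (J : ℝ)⌋₊ : ℕ) : ℝ) ≤ E₂ * J := Nat.floor_le (by positivity)
    have h6 := mul_le_mul_of_nonneg_right h3 hJ
    have h7 := hMx j
    linarith
  refine ⟨{
    M := Mi
    a1 := ⌊w₁ * J⌋₊
    x1 := ⌊w₁ * J⌋₊
    e1 := ⌊E₁ * J⌋₊
    a2 := ⌊wb * J⌋₊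
    x2 := ⌊wb * J⌋₊
    e2 := ⌊E₂ * J⌋₊
    h := ⌊η * J⌋₊
    Q := W + ⌊Qb * ((J - W : ℕ) : ℝ)⌋₊
    c₀ := 0
    G1 := T₁
    H1 := TH₁
    G2 := T₂
    H2 := TH₂
    z1 := z
    P1 := P₁
    V2 := V₂
    z2 := z₂
    z2' := z₂'
    P2 := P₂
    v := fun y => dirA cb (cc hn σ l) Lt M (z y)
    v' := fun y => dirA cb (cc hn σ l) Lt M y
    ch1 := ch1.mono le_rfl (fun _ => hD₁) le_rfl le_rfl
    cd1 := cd1.mono le_rfl hk₀ hk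
    sz1 := hsz1
    ch2 := ch2.mono le_rfl (fun _ => hD₂) le_rfl le_rfl
    cd2 := cd2.mono le_rfl hk₀ hk
    sz2 := hsz2
    hM := ?_
    hMx := ?_
    hη := Nat.floor_le (by positivity)
    vcl := fun ω hω => by simp only [hz ω hω]
    v1 := ?_
    vM := ?_
    M0 := fun j hj => hMi0 j (by omega)
    shr := fun ω hω i h1 h2 => shr_congr (hdir ω hω) (shr ω hω i h1 h2)
    hQ := ?_
    hQJ := by omega
    hc₀ := by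
      rw [Nat.cast_zero]
      positivity
    nea := ?_ }⟩
  · rw [hMi0 (n - 1) (by omega)]
    obtain ⟨h1, h2, h3⟩ := hb2 (n - 1) le_rfl
    have h4 := fl_side (J := J) h1 h2
    have h5 : b2 (n - 1) * (J : ℝ) ≤ J := mul_le_of_le_one_left hJ (by linarith)
    have h6 : ((⌊(b2 (n - 1) - d2 (n - 1)) * (J : ℝ)⌋₊ : ℕ) : ℝ) ≤ J := h4.trans h5
    have h7 : ⌊(b2 (n - 1) - d2 (n - 1)) * (J : ℝ)⌋₊ ≤ J := by exact_mod_cast h6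
    omega
  · have h1 : (0 - δ) * (J : ℝ) ≤ 0 := by
      have : 0 ≤ δ * (J : ℝ) := by positivity
      linarith
    exact h1.trans (by positivity)
  · intro ω hω
    rw [← hdir ω hω]
    exact ⟨(hv₀ ω hω).1, (hv₀ ω hω).2.1⟩
  · intro ω hω i h1 h2
    rw [← hdir ω hω, (hv₀ ω hω).2.2 i h1 h2]
    rcases Nat.lt_or_ge i (n - 1) with h3 | h3
    · rw [hMi1 i h1 h3]
      exact hcb ω hω i h1 h3
    · have h4 : i = n - 1 := by omega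
      rw [hMi0 i (by omega), h4, hNc, pow_zero]
      exact hcN ω hω
  · push_cast
    rw [hJ'] at hQf ⊢
    have h1 : Qb * ((J : ℝ) - W) ≤ Qb * (1 - w₁) * J + 1 := by
      have h2 : Qb * ((J : ℝ) - W) ≤ Qb * ((1 - w₁) * J + 1) :=
        mul_le_mul_of_nonneg_left (by rw [hW]; linarith) hQ0
      linarith
    have h3 := mul_le_mul_of_nonneg_right hQb hJ
    have h4 : 0 ≤ δ * (J : ℝ) := by positivity
    rw [← hW] at hWr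
    linarith
  · intro ω hω
    rw [hz ω hω, ← hW]
    refine nea_shC hn σ hl ?_ ?_ _ (Nat.le_add_right _ _)
    · intro i hi hk
      have h1 := (hLt i hi).1 hk
      rcases Nat.lt_or_ge i (n - 1) with h2 | h2
      · rw [hMi1 i h1 h2]
        exact hM i h1 h2
      · rw [hMi0 i (by omega)]
        exact Nat.zero_le _
    · intro i hi hk
      refine hMi0 i fun h => hk ((hLt i hi).2 h.1)

/-- **Case B**: the shear of the last coordinate is at least one. -/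
theorem psD_B {hn : 2 ≤ n} {σ : Equiv.Perm (Fin (n - 1))} {l : ℕ} (hl : l < n - 1)
    {w₁ wb : ℝ} (hw0 : 0 ≤ w₁) (hw1 : w₁ ≤ 1) {D k D₁ D₂ k₀ : ℕ} (hD₁ : D₁ ≤ D) (hD₂ : D₂ ≤ D)
    (hk₀ : k₀ ≤ D) (hk : k₀ ≤ k) {b1 d1 b2 d2 : ℕ → ℝ} {E₁ E₂ x xs δ δ₀ μ η Qb : ℝ} (hE₁ : 0 ≤ E₁)
    (hE₂ : 0 ≤ E₂) (hx : 0 ≤ x) (hη : 0 ≤ η) (hxs : 0 ≤ xs) (hδ₀ : 0 ≤ δ₀)
    (hδ : 3 * δ₀ ≤ δ)
    (hb1 : ∀ i ≤ n - 1, 0 ≤ b1 i ∧ 0 ≤ d1 i ∧ E₁ + b1 i ≤ 1 - μ)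
    (hb2 : ∀ i ≤ n - 1, 0 ≤ b2 i ∧ 0 ≤ d2 i ∧ E₂ + b2 i + x ≤ 1 - μ) (hQ0 : 0 ≤ Qb)
    (hQb : Qb * (1 - w₁) ≤ b2 l - xs - w₁) (hQ1 : Qb ≤ 1) (hbl : b2 l + 2 * δ₀ ≤ 1)
    (hbN : b2 (n - 1) + xs + 2 * δ₀ ≤ 1) {J : ℕ} (hJ₀ : 4 ≤ δ₀ * J) {F : Fam n J} {A : F.Ω → Prop} {V : Type} {z : PtT F → V} {z' : LnT F → V}
    {cb : V → Fin n → ℝ} {Lt : Finset (Fin n)} (hu : cc hn σ l ∉ Lt)
    {huN : cc hn σ l ≠ lst hn} {M : Fin n → ℕ}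
    (hLt : ∀ i ≤ n - 1, cc hn σ i ∈ Lt ↔ l < i ∧ i < n - 1)
    (hM : ∀ i, l < i → i < n - 1 → ⌊x * J⌋₊ ≤ M (cc hn σ i))
    (hz : ∀ ω, A ω → z (ptr F J ω) = z' (slam F ⌊w₁ * J⌋₊ ω))
    (hcb : ∀ ω, A ω → ∀ i, l < i → i < n - 1 → |cb (z (ptr F J ω)) (cc hn σ i)| ≤ 2 ^ ⌊x * J⌋₊)
    (hcN : ∀ ω, A ω → 1 ≤ |cb (z (ptr F J ω)) (lst hn)| ∧
      2 ^ ⌊(xs - δ₀) * J⌋₊ ≤ |cb (z (ptr F J ω)) (lst hn)| ∧
      |cb (z (ptr F J ω)) (lst hn)| ≤ 4 * 2 ^ ⌊(xs + δ₀) * J⌋₊)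
    {T₁ T₂ : PtT F → ℕ → MvPolynomial (Option (Fin n)) ℝ}
    {TH₁ TH₂ : LnT F → ℕ → MvPolynomial (Option (Fin n)) ℝ}
    {P₁ : V → ℕ → MvPolynomial (Option (Fin n)) ℝ} {V₂ : Type} {z₂ : PtT F → V₂}
    {z₂' : LnT F → V₂} {P₂ : V₂ → ℕ → MvPolynomial (Option (Fin n)) ℝ}
    (ch1 : ChOK F (cc hn σ) (n - 1 + 1) (fun _ => D₁) ⌊w₁ * J⌋₊ ⌊w₁ * J⌋₊ ⌊E₁ * J⌋₊
      (fun i => ⌊(b1 i - d1 i) * J⌋₊) A T₁ TH₁)
    (cd1 : Cod F (cc hn σ) (n - 1 + 1) k₀ k₀ ⌊w₁ * J⌋₊ ⌊w₁ * J⌋₊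
      (fun i => ⌊(b1 i - d1 i) * J⌋₊) A T₁ z z' P₁)
    (ch2 : ChOK F (cc hn σ) (n - 1 + 1) (fun _ => D₂) ⌊wb * J⌋₊ ⌊wb * J⌋₊ ⌊E₂ * J⌋₊
      (fun i => ⌊(b2 i - d2 i) * J⌋₊) A T₂ TH₂)
    (cd2 : Cod F (cc hn σ) (n - 1 + 1) k₀ k₀ ⌊wb * J⌋₊ ⌊wb * J⌋₊
      (fun i => ⌊(b2 i - d2 i) * J⌋₊) A T₂ z₂ z₂' P₂)
    {v₀ : PtT F → Fin n → ℝ} (hv₀ : ∀ ω, A ω → v₀ (ptr F J ω) (cc hn σ l) = 1 ∧
      (∀ j < l, v₀ (ptr F J ω) (cc hn σ j) = 0) ∧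
      ∀ i, l < i → i ≤ n - 1 → v₀ (ptr F J ω) (cc hn σ i) = cb (z (ptr F J ω)) (cc hn σ i))
    (shr : ∀ ω, A ω → ∀ i, l < i → i ≤ n - 1 → Shr F (cc hn σ) l ⌊wb * J⌋₊
      (fun i => ⌊(b2 i - d2 i) * J⌋₊) T₂ v₀ ⌊η * J⌋₊ i ω) :
    PsD w₁ wb (cc hn σ) l (n - 1) D k b1 d1 b2 d2 xs δ μ η Qb (ez hn σ l) (lst hn) J F A V
      (swC cb (cc hn σ l) (lst hn) Lt huN M) z' := by
  have hJ : (0 : ℝ) ≤ J := Nat.cast_nonneg J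
  have hNc : cc hn σ (n - 1) = lst hn := cc_ge hn σ le_rfl
  have hdir : ∀ ω, A ω → v₀ (ptr F J ω) = dirB cb (cc hn σ l) (lst hn) Lt M (z (ptr F J ω)) := by
    intro ω hω
    obtain ⟨h1, h2, h3⟩ := hv₀ ω hω
    funext y
    obtain ⟨i, hi, rfl⟩ : ∃ i, i ≤ n - 1 ∧ cc hn σ i = y := by
      by_cases hy : y = lst hn
      · exact ⟨n - 1, le_rfl, by rw [hNc, hy]⟩
      · obtain ⟨j, hj, h4⟩ := cc_all hn σ hy
        exact ⟨j, hj.le, h4⟩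
    unfold dirB
    rcases lt_trichotomy i l with h4 | h4 | h4
    · have h5 : cc hn σ i ≠ cc hn σ l := fun h => by
        have := cc_inj' hn σ (by omega) (by omega) h
        omega
      have h6 : cc hn σ i ∉ Lt := fun h => by
        have := (hLt i hi).1 h
        omega
      rw [if_neg h5, if_neg (cc_ne hn σ (by omega)), if_neg h6, h2 i h4]
    · subst h4
      rw [if_pos rfl, h1]
    · have h5 : cc hn σ i ≠ cc hn σ l := fun h => by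
        have := cc_inj' hn σ (by omega) (by omega) h
        omega
      rw [if_neg h5, h3 i h4 hi]
      rcases Nat.lt_or_ge i (n - 1) with h6 | h6
      · rw [if_neg (cc_ne hn σ h6), if_pos ((hLt i hi).2 ⟨h4, h6⟩)]
        exact (clp_of ((hcb ω hω i h4 h6).trans
          (pow_le_pow_right₀ one_le_two (hM i h4 h6)))).symm
      · have h7 : i = n - 1 := by omega
        rw [h7, hNc, if_pos rfl]
  obtain ⟨MN, hMN⟩ : ∃ MN, MN = ⌊(xs + δ₀) * (J : ℝ)⌋₊ + 2 := ⟨_, rfl⟩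
  obtain ⟨Mi, hMi⟩ : ∃ Mi : ℕ → ℕ, Mi = fun i => if l < i ∧ i < n - 1 then ⌊x * (J : ℝ)⌋₊
    else if i = n - 1 then MN else 0 := ⟨_, rfl⟩
  have hMi1 : ∀ i, l < i → i < n - 1 → Mi i = ⌊x * (J : ℝ)⌋₊ := by
    intro i h1 h2
    rw [hMi]
    exact if_pos ⟨h1, h2⟩
  have hMiN : Mi (n - 1) = MN := by
    have h1 : Mi (n - 1) = if l < n - 1 ∧ n - 1 < n - 1 then ⌊x * (J : ℝ)⌋₊
      else if n - 1 = n - 1 then MN else 0 := by rw [hMi]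
    rw [h1, if_neg (by omega), if_pos rfl]
  have hMi0 : ∀ i, i ≠ n - 1 → ¬ (l < i ∧ i < n - 1) → Mi i = 0 := by
    intro i h2 h1
    rw [hMi]
    simp only
    rw [if_neg h1]
    exact if_neg h2
  have hMNr : (MN : ℝ) ≤ (xs + δ₀) * J + 2 := by
    rw [hMN]
    push_cast
    have : ((⌊(xs + δ₀) * (J : ℝ)⌋₊ : ℕ) : ℝ) ≤ (xs + δ₀) * J := Nat.floor_le (by positivity)
    linarith
  have hMNr' : (xs + δ₀) * J + 1 ≤ MN := by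
    rw [hMN]
    push_cast
    have := Nat.lt_floor_add_one ((xs + δ₀) * (J : ℝ))
    linarith
  obtain ⟨Mx, hMxd⟩ : ∃ Mx, Mx = ⌊(xs - δ₀) * (J : ℝ)⌋₊ := ⟨_, rfl⟩
  have hMx1 : (xs - δ₀) * J - 1 ≤ (Mx : ℝ) := by
    rw [hMxd]
    have := Nat.lt_floor_add_one ((xs - δ₀) * (J : ℝ))
    linarith
  have hδJ : 3 * (δ₀ * (J : ℝ)) ≤ δ * J := by
    have := mul_le_mul_of_nonneg_right hδ hJ
    linarith
  have eδ1 : (xs + δ₀) * (J : ℝ) = xs * J + δ₀ * J := by ring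
  have eδ2 : (xs - δ₀) * (J : ℝ) = xs * J - δ₀ * J := by ring
  have eδ3 : (xs - δ) * (J : ℝ) = xs * J - δ * J := by ring
  have hxJ : ((⌊x * (J : ℝ)⌋₊ : ℕ) : ℝ) ≤ x * J := Nat.floor_le (by positivity)
  have hMx : ∀ i < n - 1, (Mi i : ℝ) ≤ x * J := by
    intro i hi
    by_cases h1 : l < i ∧ i < n - 1
    · rw [hMi1 i h1.1 h1.2]
      exact hxJ
    · rw [hMi0 i hi.ne h1]
      push_cast
      positivity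
  have hWr : ((⌊w₁ * (J : ℝ)⌋₊ : ℕ) : ℝ) ≤ w₁ * J := Nat.floor_le (by positivity)
  have hWr' := Nat.lt_floor_add_one (w₁ * (J : ℝ))
  obtain ⟨W, hW⟩ : ∃ W, W = ⌊w₁ * (J : ℝ)⌋₊ := ⟨_, rfl⟩
  have hWJ : W ≤ J := by
    have h1 : ⌊w₁ * (J : ℝ)⌋₊ ≤ ⌊(J : ℝ)⌋₊ := Nat.floor_le_floor (mul_le_of_le_one_left hJ hw1)
    rw [Nat.floor_natCast] at h1
    rw [hW]
    exact h1
  have hJ' : ((J - W : ℕ) : ℝ) = J - W := by rw [Nat.cast_sub hWJ]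
  have hQf : ((⌊Qb * ((J - W : ℕ) : ℝ)⌋₊ : ℕ) : ℝ) ≤ Qb * ((J - W : ℕ) : ℝ) :=
    Nat.floor_le (by positivity)
  have hQf' : ⌊Qb * ((J - W : ℕ) : ℝ)⌋₊ ≤ J - W := by
    have h1 : ⌊Qb * ((J - W : ℕ) : ℝ)⌋₊ ≤ ⌊((J - W : ℕ) : ℝ)⌋₊ :=
      Nat.floor_le_floor (mul_le_of_le_one_left (Nat.cast_nonneg _) hQ1)
    rwa [Nat.floor_natCast] at h1
  have hsz1 : ∀ i ≤ n - 1, ((⌊E₁ * (J : ℝ)⌋₊ : ℕ) : ℝ) + ⌊(b1 i - d1 i) * (J : ℝ)⌋₊ ≤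
      (1 - μ) * J := by
    intro i hi
    obtain ⟨h1, h2, h3⟩ := hb1 i hi
    have h4 := fl_side (J := J) h1 h2
    have h5 : ((⌊E₁ * (J : ℝ)⌋₊ : ℕ) : ℝ) ≤ E₁ * J := Nat.floor_le (by positivity)
    have h6 := mul_le_mul_of_nonneg_right h3 hJ
    linarith
  have hsz2 : ∀ i ≤ n - 1, ∀ j < n - 1, ((⌊E₂ * (J : ℝ)⌋₊ : ℕ) : ℝ) +
      ⌊(b2 i - d2 i) * (J : ℝ)⌋₊ + Mi j ≤ (1 - μ) * J := by
    intro i hi j hj
    obtain ⟨h1, h2, h3⟩ := hb2 i hi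
    have h4 := fl_side (J := J) h1 h2
    have h5 : ((⌊E₂ * (J : ℝ)⌋₊ : ℕ) : ℝ) ≤ E₂ * J := Nat.floor_le (by positivity)
    have h6 := mul_le_mul_of_nonneg_right h3 hJ
    have h7 := hMx j hj
    linarith
  have hQr : ((W + ⌊Qb * ((J - W : ℕ) : ℝ)⌋₊ + MN + 1 : ℕ) : ℝ) ≤ (b2 l + δ₀) * J + 4 := by
    push_cast
    rw [hJ'] at hQf ⊢
    have h1 : Qb * ((J : ℝ) - W) ≤ Qb * (1 - w₁) * J + 1 := by
      have h2 : Qb * ((J : ℝ) - W) ≤ Qb * ((1 - w₁) * J + 1) :=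
        mul_le_mul_of_nonneg_left (by rw [hW]; linarith) hQ0
      linarith
    have h3 := mul_le_mul_of_nonneg_right hQb hJ
    rw [← hW] at hWr
    linarith
  have hblJ := mul_le_mul_of_nonneg_right hbl hJ
  have hbNJ := mul_le_mul_of_nonneg_right hbN hJ
  refine ⟨{
    M := Mi
    a1 := ⌊w₁ * J⌋₊
    x1 := ⌊w₁ * J⌋₊
    e1 := ⌊E₁ * J⌋₊
    a2 := ⌊wb * J⌋₊
    x2 := ⌊wb * J⌋₊
    e2 := ⌊E₂ * J⌋₊
    h := ⌊η * J⌋₊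
    Q := W + ⌊Qb * ((J - W : ℕ) : ℝ)⌋₊ + MN + 1
    c₀ := MN - Mx
    G1 := T₁
    H1 := TH₁
    G2 := T₂
    H2 := TH₂
    z1 := z
    P1 := P₁
    V2 := V₂
    z2 := z₂
    z2' := z₂'
    P2 := P₂
    v := fun y => dirB cb (cc hn σ l) (lst hn) Lt M (z y)
    v' := fun y => dirB cb (cc hn σ l) (lst hn) Lt M y
    ch1 := ch1.mono le_rfl (fun _ => hD₁) le_rfl le_rfl
    cd1 := cd1.mono le_rfl hk₀ hk
    sz1 := hsz1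
    ch2 := ch2.mono le_rfl (fun _ => hD₂) le_rfl le_rfl
    cd2 := cd2.mono le_rfl hk₀ hk
    sz2 := hsz2
    hM := ?_
    hMx := ?_
    hη := Nat.floor_le (by positivity)
    vcl := fun ω hω => by simp only [hz ω hω]
    v1 := ?_
    vM := ?_
    M0 := fun j hj => hMi0 j (by omega) (by omega)
    shr := fun ω hω i h1 h2 => shr_congr (hdir ω hω) (shr ω hω i h1 h2)
    hQ := ?_
    hQJ := ?_
    hc₀ := ?_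
    nea := ?_ }⟩
  · rw [hMiN]
    obtain ⟨h1, h2, h3⟩ := hb2 (n - 1) le_rfl
    have h4 := fl_side (J := J) h1 h2
    have h6 : ((⌊(b2 (n - 1) - d2 (n - 1)) * (J : ℝ)⌋₊ + MN : ℕ) : ℝ) ≤ J := by
      push_cast
      linarith
    exact_mod_cast h6
  · rw [hMiN]
    have : 0 ≤ δ₀ * (J : ℝ) := by positivity
    linarith
  · intro ω hω
    rw [← hdir ω hω]
    exact ⟨(hv₀ ω hω).1, (hv₀ ω hω).2.1⟩
  · intro ω hω i h1 h2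
    rw [← hdir ω hω, (hv₀ ω hω).2.2 i h1 h2]
    rcases Nat.lt_or_ge i (n - 1) with h3 | h3
    · rw [hMi1 i h1 h3]
      exact hcb ω hω i h1 h3
    · have h4 : i = n - 1 := by omega
      rw [h4, hMiN, hNc, hMN, pow_add]
      refine (hcN ω hω).2.2.trans (le_of_eq ?_)
      ring
  · have h1 : (b2 l + δ) * (J : ℝ) = b2 l * J + δ * J := by ring
    rw [h1]
    linarith
  · have h1 : ((W + ⌊Qb * ((J - W : ℕ) : ℝ)⌋₊ + MN + 1 : ℕ) : ℝ) ≤ J := by linarith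
    exact_mod_cast h1
  · have hk0 : (0 : ℝ) ≤ k := Nat.cast_nonneg k
    rcases Nat.lt_or_ge Mx MN with h1 | h1
    · rw [Nat.cast_sub h1.le]
      linarith
    · rw [Nat.sub_eq_zero_of_le h1, Nat.cast_zero]
      linarith
  · intro ω hω
    obtain ⟨h1, h2, h3⟩ := hcN ω hω
    rw [hz ω hω, ← hW] at h1 h2 h3
    rw [hz ω hω, ← hW]
    refine nea_swC hn σ hu ?_ hl ?_ ?_ h1 ?_ ?_ ?_ ?_
    · intro h
      rw [← hNc] at h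
      have := (hLt (n - 1) le_rfl).1 h
      omega
    · intro i hi hk
      have h1 := ((hLt i hi.le).1 hk).1
      rw [hMi1 i h1 hi]
      exact hM i h1 hi
    · intro i hi hk
      exact hMi0 i hi.ne fun h => hk ((hLt i hi.le).2 h)
    · rw [hMiN]
      have h4 : (2 : ℝ) ^ MN ≤ 2 ^ (MN - Mx) * 2 ^ Mx := by
        rw [← pow_add]
        exact pow_le_pow_right₀ one_le_two (by omega)
      rw [hMxd] at h4 ⊢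
      exact h4.trans (mul_le_mul_of_nonneg_left h2 (by positivity))
    · rw [hMiN, hMN, pow_add]
      refine h3.trans (le_of_eq ?_)
      ring
    · rw [hMiN]
      omega
    · rw [hMiN]
      have h4 : ((W + ⌊Qb * ((J - W : ℕ) : ℝ)⌋₊ + MN + 1 : ℕ) : ℝ) ≤ J := by linarith
      have h5 : W + ⌊Qb * ((J - W : ℕ) : ℝ)⌋₊ + MN + 1 ≤ J := by exact_mod_cast h4
      omega

end Pool.PSI
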