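import Pool.Agent.H39.GEN.Psf
import Pool.Agent.H77.Z4.Zin

/-!
# The entropy of the coordinates in the zooms, in the numbers of a class

`Pk.exw`: the exactness of the list at a good window.
`Pk.psi2`: the input (Psi2) of the inequality between two windows, for the data `PsD`.
-/

set_option autoImplicit false

namespace Pool.PKG

open MeasureTheory Set Filter Topology
open Finset (range)
open Pool.Agent.H49.Ent Pool.Agent.H32.Dense Pool.STK Pool.KA Pool.KSAT Pool.K2S Pool.PB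
open Pool.GEN Pool.S6C Pool.STAT Pool.CHT Pool.GRW Pool.ONE Pool.STA
open Pool.LBT (LSys ThrOf)
open Pool.LBN (cof)
open Pool.ALL (RateOf)
open Pool.ZCO (ZPr)
open Pool.Z4 (nmz nmz_mul ebz)
open Pool.PSI (PsD psi2_zpr)

variable {n : ℕ} {hn : 2 ≤ n} {S : PCl n} {P : ℝ → ℝ → ℝ} {r : ℝ → ℝ}
  {P' : ℕ → List (Fin n) × Fin n → ℝ → ℝ → ℝ} {Λ : Finset (Fin n) → Fin n → ℝ → ℝ → ℝ}

/-- **The exactness of the list** at a good window. -/
theorem Pk.exw (H : Pk hn S P r P' Λ) (hF : FZX (n - 1)) {o : Od n} {w α Q c : ℝ}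
    (hw : w ∈ Gs P r P' Λ o) (Fc : Fac hn S P r P' o w α Q c) {ρ : ℝ} (hρ : 0 < ρ) :
    Bas S (fun J F A => ExW F A (fun j : Fin (n - 1) => cc hn o.1.1 j) ⌊w * J⌋₊
      (((∑ j ∈ range (n - 1), (1 - LL hn P P' o (j + 1) w w)) - ρ) * Real.log 2 * J)) := by
  classical
  obtain ⟨al, g₀, s, d, e₀, K₀, N, hal, hg₀, hC⟩ := H.cl
  have hW := hw.1
  have hw0 := hW.1.1
  have hw1 := hW.1.2.1
  have hth := tht_pos o.2
  have hcε : ∀ i : Fin (n - 1), cc hn o.1.1 i = bse (o.1.1 i) := fun i => cc_lt hn _ i.2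
  have hinj : Function.Injective (fun i => bse (o.1.1 i) : Fin (n - 1) → Fin n) :=
    bse_inj.comp o.1.1.injective
  have hex : VExa S Λ (fun i => bse (o.1.1 i)) w := by
    intro ρ hρ
    refine vst_exa hF hC.ne (C₀ := 6) (by norm_num) H.tmc H.lam hal hg₀ hC.actm H.pos
      hinj (fun k hk => hC.actb _ ?_) hw0 hw1 hW.1.2.2.1 hW.1.2.2.2 hρ
    exact o.1.2 k hk
  have hbet : ∀ j < n - 1, bet (P' o.2) (cc hn o.1.1) j w w < 1 - tht o.2 * w := by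
    intro j hj
    have h1 := Fc.le j hj w w hw0 le_rfl Fc.gα
    have h2 : tht o.2 * w ≤ tht o.2 := mul_le_of_le_one_right hth.le hw1.le
    have h3 := Fc.thc
    linarith
  have hvs : ∀ j, (hj : j < n - 1) → vs Λ (fun i => bse (o.1.1 i)) w (j + 1) =
      bet (P' o.2) (cc hn o.1.1) j w w := by
    intro j hj
    have h1 := (bet_lt_iff hth hC.ne (C₀ := 6) (by norm_num) H.tmc H.lam (H.cht o.2) hinj hcε hW
      hex hj).1 (hbet j hj)
    exact (bet_eq_vst hth hC.ne (C₀ := 6) (by norm_num) H.tmc H.lam (H.cht o.2) hinj hcε hW hex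
      hj h1).symm
  have hsum : ∑ j : Fin (n - 1), (1 - vs Λ (fun i => bse (o.1.1 i)) w (j + 1)) =
      ∑ j ∈ range (n - 1), (1 - LL hn P P' o (j + 1) w w) := by
    rw [Finset.sum_range]
    refine Finset.sum_congr rfl fun j _ => ?_
    rw [hvs j j.2, LL_low (by omega) (by omega)]
    rfl
  refine (hex ρ hρ).mono 0 fun J _ F A h V z z' hz => ?_
  have h1 := h V z z' hz
  rw [hsum] at h1
  have e1 : (fun ω (j : Fin (n - 1)) => F.X J ω (cc hn o.1.1 j)) =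
      fun ω (j : Fin (n - 1)) => F.X J ω (bse (o.1.1 j)) := by
    funext ω j
    rw [hcε]
  rw [e1]
  exact h1

/-- **(Psi2): the entropy of the coordinates in the zooms**, with the numbers of the order. -/
theorem Pk.psi2 (H : Pk hn S P r P' Λ) (hTop : Pool.TOP.TopS n) (hF : FZX (n - 1)) {o : Od n}
    {l : ℕ} (hl : l < n - 1) {w₁ wb xs : ℝ} (hw0 : 0 < w₁) (hwb : w₁ < wb)
    (hw : wb ∈ Gs P r P' Λ o) (hx0 : 0 ≤ xs) {b1 b2 : ℕ → ℝ}
    (hb1 : ∀ i ≤ n - 1, b1 i = LL hn P P' o (i + 1) w₁ w₁)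
    (hb2 : ∀ i ≤ n - 1, b2 i = LL hn P P' o (i + 1) wb wb) (e : Fin n → Fin n)
    {h : ℝ} (hh : 0 < h) :
    ∃ σ₀ : ℝ, 0 < σ₀ ∧ ∀ (D k : ℕ) (μ : ℝ), 0 < μ → ∃ η₀ : ℝ, 0 < η₀ ∧
      ∀ {d1 d2 : ℕ → ℝ} {δ η : ℝ},
      (∀ i ≤ n - 1, 0 ≤ d1 i ∧ d1 i ≤ σ₀) → (∀ i ≤ n - 1, 0 ≤ d2 i ∧ d2 i ≤ σ₀) →
      d1 (n - 1) ≤ b1 (n - 1) → b1 (n - 1) - d1 (n - 1) ≤ b2 (n - 1) - d2 (n - 1) →
      0 ≤ δ → δ ≤ σ₀ → 0 ≤ η → η ≤ η₀ →
      ZPr S w₁ e (PsD w₁ wb (cc hn o.1.1) l (n - 1) D k b1 d1 b2 d2 xs δ μ η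
        (nmz w₁ xs (LL hn P P' o (l + 1) wb wb)) e (lst hn))
        (fun J G A => CH (Pool.Agent.H49.Ent.cond G.p A True)
          (fun ω => (G.X ⌊nmz w₁ xs (LL hn P P' o (l + 1) wb wb) * J⌋₊ ω (lst hn),
            fun i : Fin (n - 1) => G.X J ω (bse i))) G.W ≤
          (ebz hn P r P' o l w₁ wb xs + h) * Real.log 2 * J) := by
  obtain ⟨α, Q, c, Fc⟩ := H.fac hTop hF hw
  have hwb1 := Fc.g1
  have h1w : 0 < 1 - w₁ := by linarith
  have hNc : cc hn o.1.1 (n - 1) = lst hn := cc_ge hn _ le_rfl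
  have hlaw := H.tgs.law ()
  have hP1 : P w₁ w₁ ≤ 1 := H.tgs.up () w₁ w₁ hw0.le le_rfl (by linarith)
  have hP2 : P wb wb ≤ 1 := H.tgs.up () wb wb (hw0.trans hwb).le le_rfl hwb1.le
  have e1 : b1 (n - 1) = P w₁ w₁ := by rw [hb1 _ le_rfl, LL_lst]
  have e2 : b2 (n - 1) = P wb wb := by rw [hb2 _ le_rfl, LL_lst]
  have e3 : b2 l = LL hn P P' o (l + 1) wb wb := hb2 l hl.le
  have hQb1 : nmz w₁ xs (LL hn P P' o (l + 1) wb wb) ≤ 1 := by
    unfold nmz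
    rw [div_le_one h1w, LL_low (by omega) (by omega)]
    have : bet (P' o.2) (cc hn o.1.1) (l + 1 - 1) wb wb ≤ 1 :=
      (H.cht o.2).up _ wb wb (hw0.trans hwb).le le_rfl hwb1.le
    linarith
  refine psi2_zpr (C₀ := 6) H.tmc hl (by
      have : n - 1 + 1 = n := by omega
      rw [this]
      exact cc_inj hn _) (fun i => ?_) hw0.le hwb.le hwb1.le (by linarith) (rr := r)
    (by rw [hNc]; exact H.rate) (by rw [e1]; exact hP1) (by rw [e2]; exact hP2) (fun ρ hρ => ?_)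
    ?_ hQb1 hn e hh
  · by_cases hi : i = lst hn
    · exact ⟨n - 1, le_rfl, by rw [hNc, hi]⟩
    · obtain ⟨j, hj, h4⟩ := cc_all hn o.1.1 hi
      exact ⟨j, hj.le, h4⟩
  · have h1 := H.exw hF hw Fc hρ
    have h2 : ∑ j ∈ range (n - 1), (1 - b2 j) =
        ∑ j ∈ range (n - 1), (1 - LL hn P P' o (j + 1) wb wb) :=
      Finset.sum_congr rfl fun j hj => by rw [hb2 j (Finset.mem_range.1 hj).le]
    rw [h2]
    exact h1
  · have h2 : ∑ j ∈ range (n - 1), (1 - b1 j) =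
        ∑ j ∈ range (n - 1), (1 - LL hn P P' o (j + 1) w₁ w₁) :=
      Finset.sum_congr rfl fun j hj => by rw [hb1 j (Finset.mem_range.1 hj).le]
    rw [h2, e1, e2, e3]
    unfold ebz
    rw [div_mul_cancel₀ _ h1w.ne']
    linarith

end Pool.PKG
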