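import Pool.Agent.H39.GEN.RowC

/-!
# Cells at a row, for families of thresholds

The numbers used in the cells may depend on the scale: at the scale `r` the threshold `P` is
replaced by a threshold `P'` below `P` on the box of the row which is close to `P` on the
diagonal. `cell_box` is the statement at one scale, uniform in all the thresholds and levels.
`cell_famB`: let the row `Q` be not uniformly free from the window for `P`. Then there are
arbitrarily small scales `r` such that for ALL thresholds `P'` of this kind and all levels `R j`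
which are monotone and bounded by `C r` on the box there is a front cell or a joint cell. The
numbers are chosen in the order `β`, `C`, `s`, `T`, `ε`, `δ`, `r`, and then `P'`, `R`.

`extB b c P` extends a threshold from the triangle `b ≤ w ≤ a ≤ c`: the laws are needed on the box
only.
-/

set_option autoImplicit false

namespace Pool.STR

open MeasureTheory Set Filter Topology Pool.LEV

/-! ### Changes of cells -/

/-- The same cell in a larger box. -/
theorem JCell.scale {ι : Type*} {P : ℝ → ℝ → ℝ} {R : ι → ℝ × ℝ → ℝ}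
    {Q Q' g g' r r' ε β β' T : ℝ} {y : ℝ × ℝ} {X lamN muN : ℝ} {lam mu : ι → ℝ}
    (H : JCell P R Q g r ε β T y X lamN muN lam mu) (hQ : |Q - Q'| + 3 * r ≤ 3 * r')
    (hg : |g - g'| + 3 * r ≤ 3 * r') (hr : r ≤ r') (hβ : β' ≤ β) :
    JCell P R Q' g' r' ε β' T y X lamN muN lam mu where
  pos := H.pos
  row := (abs_sub_le _ Q _).trans (by linarith [H.row])
  win := by
    have := abs_sub_le y.1 g g'
    linarith [H.win]
  dep := H.dep
  dep' := H.dep'.trans hr
  aff := H.aff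
  one := H.one
  gam := by linarith [H.gam]
  top := H.top
  affs := H.affs
  lam0 := H.lam0
  lamT := H.lamT
  mu0 := H.mu0
  muT := H.muT

theorem Affn.congr {a a' : ℝ × ℝ → ℝ} {ε X al be : ℝ} {p : ℝ × ℝ} (h : Affn a ε p X al be)
    (hX : 0 ≤ X) (he : ∀ p', dist p' p ≤ X → a' p' = a p') : Affn a' ε p X al be := by
  intro p' hp'
  rw [he p' hp', he p (by rw [dist_self]; exact hX)]
  exact h p' hp'

/-- A cell depends on the values on the cell only. -/
theorem JCell.congr {ι : Type*} {P P' : ℝ → ℝ → ℝ} {R R' : ι → ℝ × ℝ → ℝ} {Q g r ε β T : ℝ}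
    {y : ℝ × ℝ} {X lamN muN : ℝ} {lam mu : ι → ℝ} (H : JCell P R Q g r ε β T y X lamN muN lam mu)
    (hP : ∀ w q, |w - g| ≤ 3 * r → 0 ≤ q → q ≤ r → P' (w + q) w = P (w + q) w)
    (hR : ∀ j w q, |w - g| ≤ 3 * r → 0 ≤ q → q ≤ r → R' j (w, q) = R j (w, q)) :
    JCell P' R' Q g r ε β T y X lamN muN lam mu := by
  have hX := H.pos.le
  have hb : ∀ p', dist p' y ≤ X → |p'.1 - g| ≤ 3 * r ∧ 0 ≤ p'.2 ∧ p'.2 ≤ r := by
    intro p' hp'
    rw [Prod.dist_eq, Real.dist_eq, Real.dist_eq] at hp'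
    have h1 := (le_max_left _ _).trans hp'
    have h2 := (le_max_right _ _).trans hp'
    have h3 := abs_sub_le p'.1 y.1 g
    rw [abs_le] at h2
    refine ⟨by linarith [H.win], ?_, ?_⟩
    · linarith [H.dep]
    · linarith [H.dep']
  have hN : ∀ p', dist p' y ≤ X → Nw P' p' = Nw P p' := by
    intro p' hp'
    obtain ⟨h1, h2, h3⟩ := hb p' hp'
    exact hP p'.1 p'.2 h1 h2 h3
  refine ⟨H.pos, ?_, H.win, H.dep, H.dep', H.aff.congr hX hN, H.one, H.gam, H.top,
    fun j => (H.affs j).congr hX fun p' hp' => ?_, H.lam0, H.lamT, H.mu0, H.muT⟩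
  · rw [hN y (by rw [dist_self]; exact hX)]
    exact H.row
  · obtain ⟨h1, h2, h3⟩ := hb p' hp'
    exact hR j p'.1 p'.2 h1 h2 h3

/-! ### One scale -/

/-- **Cells at one scale**, uniformly in the threshold and in the levels. -/
theorem cell_box {ι : Type*} [Fintype ι] {ε₀ C s : ℝ} (hε₀ : 0 < ε₀) (hC : 0 ≤ C) (hs : 0 < s) :
    ∃ T : ℝ, 0 < T ∧ ∀ ε : ℝ, 0 < ε → ∃ δ : ℝ, 0 < δ ∧
      ∀ (P : ℝ → ℝ → ℝ) (R : ι → ℝ × ℝ → ℝ) (V : ι → ℝ) (Q r : ℝ), Law P → 0 < r →
        3 * r ≤ Q → Q + 3 * r ≤ 1 → 3 * r ≤ Lv P (Q, 0) → Lv P (Q, 0) + 4 * r ≤ 1 →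
        (∀ j, LvBox (R j) (Lv P (Q, 0)) (V j) C r) → ε₀ * r ≤ Lv P (Q, r) - Lv P (Q, 0) →
        ((∃ (p : ℝ × ℝ) (X al be : ℝ), |p.1 - Q| ≤ r ∧ δ * r ≤ X ∧ X ≤ p.2 ∧ p.2 + X ≤ r ∧
          |Lv P p - p.2 - Lv P (Q, 0)| + X ≤ 2 * r ∧
          0 ≤ al ∧ al ≤ s ∧ ε₀ / 2 ≤ be ∧ al + be ≤ 1 ∧ Affn (Lv P) ε p X al be) ∨
        ∃ (y : ℝ × ℝ) (X lamN muN : ℝ) (lam mu : ι → ℝ), δ * r ≤ X ∧
          JCell P R Q (Lv P (Q, 0)) r ε (ε₀ / 2) T y X lamN muN lam mu) := by
  obtain ⟨s', hs'⟩ : ∃ s', s' = min s 1 := ⟨_, rfl⟩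
  have hs'0 : 0 < s' := by rw [hs']; exact lt_min hs one_pos
  have hs's : s' ≤ s := by rw [hs']; exact min_le_left _ _
  have hs'1 : s' ≤ 1 := by rw [hs']; exact min_le_right _ _
  -- the bound of the slopes
  have hTex : ∃ T : ℝ, 0 < T ∧ 1 / s' ≤ T ∧
      Fintype.card ι * (10 * C / T) < s' * (ε₀ / 4 * (ε₀ / 4)) := by
    obtain ⟨c, hc⟩ : ∃ c, c = s' * (ε₀ / 4 * (ε₀ / 4)) := ⟨_, rfl⟩
    have hc0 : 0 < c := by rw [hc]; positivity
    obtain ⟨A, hA⟩ : ∃ A, A = (Fintype.card ι : ℝ) * (10 * C) := ⟨_, rfl⟩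
    have hA0 : 0 ≤ A := by rw [hA]; positivity
    obtain ⟨T, hT⟩ : ∃ T, T = 1 / s' + (A + 1) / c := ⟨_, rfl⟩
    have h1 : 0 < 1 / s' := by positivity
    have h2 : 0 < (A + 1) / c := by positivity
    have hT0 : 0 < T := by rw [hT]; linarith
    refine ⟨T, hT0, by rw [hT]; linarith, ?_⟩
    rw [← hc]
    have e1 : (Fintype.card ι : ℝ) * (10 * C / T) = A / T := by rw [hA]; ring
    rw [e1, div_lt_iff₀ hT0]
    have e2 : c * ((A + 1) / c) = A + 1 := by field_simp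
    have e3 : c * T = c * (1 / s') + (A + 1) := by rw [hT, mul_add, e2]
    have e4 : 0 < c * (1 / s') := by positivity
    linarith
  obtain ⟨T, hT, hT1, hT2⟩ := hTex
  refine ⟨T, hT, fun ε hε => ?_⟩
  obtain ⟨ε₁, hε₁⟩ : ∃ ε₁, ε₁ = min (s' / 8) (ε * s' ^ 2 / 32) := ⟨_, rfl⟩
  have hε₁0 : 0 < ε₁ := by
    rw [hε₁]
    exact lt_min (by positivity) (by positivity)
  have hε₁1 : ε₁ ≤ s' / 8 := by rw [hε₁]; exact min_le_left _ _
  have hε₁2 : ε₁ ≤ ε * s' ^ 2 / 32 := by rw [hε₁]; exact min_le_right _ _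
  have hss : s' ^ 2 ≤ s' := by nlinarith
  have hε₁3 : ε₁ ≤ ε * s' / 8 := by nlinarith
  have hε₁4 : ε₁ ≤ ε := by nlinarith
  obtain ⟨δ, hδ, H⟩ := blowM (ι := ι) hε₀ hε₁0 hs'0 hT hC hT2
  refine ⟨s' / 8 * δ, by positivity, fun P R V Q r hP hr l3 l4 l5 l6 hlv hinc => ?_⟩
  obtain ⟨g, hg⟩ : ∃ g, g = Lv P (Q, 0) := ⟨_, rfl⟩
  rw [← hg] at l5 l6 hlv hinc ⊢
  obtain ⟨p, X, al, be, c1, c2, c3, c4, c5, c6, c7, c8, c9, c10⟩ :=
    H (Lv P) R (Lv_lip hP) (Lv_mono hP) Q r V hr (by rw [← hg]; exact hinc)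
      (by rw [← hg]; exact hlv)
  rw [← hg] at c5
  have hX0 : 0 < X := lt_of_lt_of_le (by positivity) c2
  have hδX : s' / 8 * δ * r ≤ s' / 8 * X := by
    have := mul_le_mul_of_nonneg_left c2 (show (0 : ℝ) ≤ s' / 8 by positivity)
    linarith
  have hsX : s' / 8 * X ≤ X := by nlinarith
  rcases le_or_gt al s' with hal | hal
  · left
    refine ⟨p, X, al, be, c1, by linarith, c3, c4, c5, c6, hal.trans hs's, c7, c8,
      c9.shrink le_rfl (mul_le_mul_of_nonneg_right hε₁4 hX0.le)⟩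
  · right
    rcases c10 with c10 | c10
    · exact absurd c10 (not_le.2 hal)
    choose lam mu m1 m2 m3 m4 m5 using c10
    have hXr : X ≤ r := by linarith
    have hab := abs_le.1 c1
    have hwd1 : |Lv P p - p.2 - g| ≤ 2 * r - X := by linarith
    rw [abs_le] at hwd1
    obtain ⟨k1, k2⟩ := Affn.chart hP c9 hX0 hs'0 hal.le hε₁0 hε₁1 (by linarith) c8
      (by linarith) (by linarith) c3 (by linarith) (by linarith)
    have hal0 : 0 < al := hs'0.trans hal
    refine ⟨(Lv P p - p.2, p.2), s' / 8 * X, 1 / al, (1 - be) / al, lam, mu, hδX, ?_, ?_, ?_, ?_,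
      ?_, ?_, ?_, ?_, ?_, fun j => ?_, m1, m2, m3, m4⟩
    · positivity
    · refine (abs_sub_le _ p.1 _).trans ?_
      have e1 : 2 * ε₁ * X / s' ≤ r := by
        rw [div_le_iff₀ hs'0]
        nlinarith
      linarith
    · show |Lv P p - p.2 - g| + s' / 8 * X ≤ 3 * r
      linarith
    · show s' / 8 * X ≤ p.2
      linarith
    · show p.2 + s' / 8 * X ≤ r
      linarith
    · refine k1.shrink le_rfl (mul_le_mul_of_nonneg_right ?_ (by positivity))
      rw [div_le_iff₀ (by positivity)]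
      linarith
    · rw [le_div_iff₀ hal0]
      linarith
    · rw [div_add' _ _ _ hal0.ne', div_le_div_iff_of_pos_right hal0]
      nlinarith
    · refine le_trans ?_ hT1
      exact one_div_le_one_div_of_le hs'0 hal.le
    · refine (m5 j).shrink hsX ?_
      have e1 : ε * (s' / 8 * X) = ε * s' / 8 * X := by ring
      rw [e1]
      exact mul_le_mul_of_nonneg_right hε₁3 hX0.le

/-! ### Extension of a threshold from the box -/

/-- The extension of a threshold from the triangle `b ≤ w ≤ a ≤ c`. -/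
noncomputable def extB (b c : ℝ) (P : ℝ → ℝ → ℝ) (a w : ℝ) : ℝ :=
  P (max b (min c a)) (max b (min c w)) + (a - max b (min c a))

theorem extB_eq {b c a w : ℝ} (P : ℝ → ℝ → ℝ) (h1 : b ≤ w) (h2 : w ≤ a) (h3 : a ≤ c) :
    extB b c P a w = P a w := by
  unfold extB
  rw [min_eq_right h3, min_eq_right (h2.trans h3), max_eq_right h1, max_eq_right (h1.trans h2)]
  ring

/-- The laws on the triangle are enough. -/
theorem extB_law {b c : ℝ} {P : ℝ → ℝ → ℝ} (hbc : b ≤ c)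
    (h1 : ∀ a a' w, b ≤ w → w ≤ a → a ≤ a' → a' ≤ c → P a w ≤ P a' w)
    (h2 : ∀ a w w', b ≤ w → w ≤ w' → w' ≤ a → a ≤ c → P a w ≤ P a w')
    (h3 : ∀ a w v, b ≤ w → w ≤ a → 0 ≤ v → a + v ≤ c → min 1 (P a w + v) ≤ P (a + v) w) :
    Law (extB b c P) := by
  have k0 : ∀ x, b ≤ max b (min c x) := fun x => le_max_left _ _
  have k1 : ∀ x, max b (min c x) ≤ c := fun x => max_le hbc (min_le_left _ _)
  have k2 : ∀ x x', x ≤ x' → max b (min c x) ≤ max b (min c x') := fun x x' h =>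
    max_le_max le_rfl (min_le_min le_rfl h)
  have k3 : ∀ x x', x ≤ x' → max b (min c x') - max b (min c x) ≤ x' - x := by
    intro x x' h
    rcases le_total b (min c x') with h5 | h5
    · rw [max_eq_right h5]
      rcases le_total c x with h6 | h6
      · rw [min_eq_left (h6.trans h), min_eq_left h6, max_eq_right hbc]
        linarith
      · have := min_le_right c x'
        have h7 : x ≤ max b (min c x) := by
          rw [min_eq_right h6]
          exact le_max_right _ _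
        linarith
    · have h6 := min_le_min (le_refl c) h
      rw [max_eq_left h5, max_eq_left (h6.trans h5)]
      linarith
  refine ⟨fun a a' w _ hwa haa' _ => ?_, fun a w w' _ hww' hw'a _ => ?_,
    fun a w v _ hwa hv _ => ?_⟩
  · unfold extB
    have e1 := h1 _ _ _ (k0 w) (k2 w a hwa) (k2 a a' haa') (k1 a')
    have e2 := k3 a a' haa'
    linarith
  · unfold extB
    have e1 := h2 _ _ _ (k0 w) (k2 w w' hww') (k2 w' a hw'a) (k1 a)
    linarith
  · unfold extB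
    obtain ⟨A, hA⟩ : ∃ A, A = max b (min c a) := ⟨_, rfl⟩
    obtain ⟨A', hA'⟩ : ∃ A', A' = max b (min c (a + v)) := ⟨_, rfl⟩
    obtain ⟨W, hW⟩ : ∃ W, W = max b (min c w) := ⟨_, rfl⟩
    have e1 : A ≤ A' := by rw [hA, hA']; exact k2 _ _ (by linarith)
    have e2 : A' - A ≤ v := by
      have := k3 a (a + v) (by linarith)
      rw [← hA, ← hA'] at this
      linarith
    have e3 := h3 A W (A' - A) (by rw [hW]; exact k0 w) (by rw [hW, hA]; exact k2 w a hwa)
      (by linarith) (by rw [add_sub_cancel, hA']; exact k1 _)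
    rw [add_sub_cancel] at e3
    rw [← hA, ← hA', ← hW]
    rcases le_total (P A W + (A' - A)) 1 with h | h
    · rw [min_eq_right h] at e3
      refine (min_le_right _ _).trans ?_
      linarith
    · rw [min_eq_left h] at e3
      rcases le_total b (a + v) with hb | hb
      · refine (min_le_left _ _).trans ?_
        have h7 : A' ≤ a + v := by
          rw [hA']
          exact max_le hb (min_le_right _ _)
        linarith
      · -- nothing changes below the box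
        have h8 : A' = b := by
          rw [hA', max_eq_left ((min_le_right _ _).trans hb)]
        have h9 : A = b := le_antisymm (h8 ▸ e1) (by rw [hA]; exact k0 a)
        refine (min_le_right _ _).trans ?_
        rw [h8, h9]
        linarith

/-! ### Families -/

/-- **The threshold `P'` at the scale `r`** is below `P` on the box of the window `g`, and close
to `P` on the diagonal. -/
structure NearB (P P' : ℝ → ℝ → ℝ) (g β r : ℝ) : Prop where
  le : ∀ a w, g - 3 * r ≤ w → w ≤ a → a ≤ g + 3 * r → P' a w ≤ P a w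
  dg : ∀ a, |a - g| ≤ 2 * r → ∃ a', a ≤ a' ∧ a' ≤ a + β * r ∧ P a a ≤ P' a' a' + β * r

/-- The thresholds are close on the diagonal: the simple form. -/
theorem NearB.of {P P' : ℝ → ℝ → ℝ} {g β r : ℝ} (hβ : 0 ≤ β) (hr : 0 ≤ r)
    (h1 : ∀ a w, g - 3 * r ≤ w → w ≤ a → a ≤ g + 3 * r → P' a w ≤ P a w)
    (h2 : ∀ a, |a - g| ≤ 2 * r → P a a ≤ P' a a + β * r) : NearB P P' g β r :=
  ⟨h1, fun a ha => ⟨a, le_rfl, by linarith [mul_nonneg hβ hr], h2 a ha⟩⟩

/-- The row is not reached earlier by `P'`. -/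
theorem NearB.lv_ge {P P' : ℝ → ℝ → ℝ} {g β r Q q : ℝ} (H : NearB P P' g β r) (hPl : Law P)
    (hP : Law P') (hr : 0 < r) (hQ0 : 0 ≤ Q) (hQ1 : Q ≤ 1) (hg : |Lv P (Q, 0) - g| ≤ r)
    (hg0 : 3 * r ≤ g) (hg1 : g + 3 * r ≤ 1) (hq0 : 0 ≤ q) (hqr : q ≤ r) :
    Lv P (Q, q) ≤ Lv P' (Q, q) := by
  have hq1 : q ≤ 1 := by linarith
  have hLip : Lv P (Q, q) ≤ Lv P (Q, 0) + r := by
    have h1 := (Lv_lip hPl).dist_le_mul (Q, q) (Q, 0)
    rw [Real.dist_eq, NNReal.coe_one, one_mul, Prod.dist_eq, dist_self, Real.dist_eq, sub_zero,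
      abs_of_nonneg hq0, max_eq_right hq0] at h1
    linarith [(abs_le.1 h1).2]
  rw [abs_le] at hg
  rw [Lv_eq (P := P) hq0 hq1 hQ0 hQ1] at hLip ⊢
  rw [Lv_eq (P := P') hq0 hq1 hQ0 hQ1]
  rw [Lv_eq (P := P) le_rfl zero_le_one hQ0 hQ1] at hg hLip
  refine le_csInf ⟨1, one_mem hq1⟩ ?_
  rintro a ⟨h1, h2, h3⟩
  by_contra hc
  push Not at hc
  have ha1 : a ≠ 1 := by
    rintro rfl
    exact absurd (lev_le_one hq1) (not_le.2 hc)
  have h4 : Q ≤ P' a (a - q) := h3.resolve_right ha1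
  rcases le_or_gt (g - 3 * r) (a - q) with h5 | h5
  · have h6 := H.le a (a - q) h5 (by linarith) (by linarith)
    have h7 := lt_of_lt_lev (P := P) hq1 h1 hc
    linarith
  · obtain ⟨x, hx⟩ : ∃ x, x = max a (g - 3 * r) := ⟨_, rfl⟩
    have hx1 : a ≤ x := by rw [hx]; exact le_max_left _ _
    have hx2 : g - 3 * r ≤ x := by rw [hx]; exact le_max_right _ _
    have hx3 : x < lev P Q 0 := by
      rw [hx]
      exact max_lt (by linarith) (by linarith)
    have h6 := hP.mono (a := a) (a' := x) (w := a - q) (w' := x) (by linarith) (by linarith) hx1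
      (by linarith) le_rfl (by linarith)
    have h7 := H.le x x hx2 le_rfl (by linarith)
    have h8 := lt_of_lt_lev (P := P) zero_le_one (by linarith : (0 : ℝ) ≤ x) hx3
    rw [sub_zero] at h8
    linarith

/-- The row is reached on the diagonal by `P'` soon after. -/
theorem NearB.lv_le {P P' : ℝ → ℝ → ℝ} {g β r Q : ℝ} (H : NearB P P' g β r) (hPl : Law P)
    (hP : Law P') (hr : 0 < r) (hβ : 0 ≤ β) (hβ1 : 2 * β ≤ 1) (hQ0 : 0 ≤ Q) (hQ1 : Q ≤ 1)
    (hg : |Lv P (Q, 0) - g| ≤ r) (hg0 : 3 * r ≤ g) (hg1 : g + 3 * r ≤ 1) :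
    Lv P' (Q, 0) ≤ Lv P (Q, 0) + 2 * β * r := by
  rw [abs_le] at hg
  have hβr : 2 * β * r ≤ 1 * r := mul_le_mul_of_nonneg_right hβ1 hr.le
  have hβr0 : 0 ≤ β * r := by positivity
  rw [Lv_eq (P := P) le_rfl zero_le_one hQ0 hQ1] at hg ⊢
  rw [Lv_eq (P := P') le_rfl zero_le_one hQ0 hQ1]
  have h0 : 0 ≤ lev P Q 0 := le_lev zero_le_one
  refine le_of_forall_pos_le_add fun η hη => ?_
  obtain ⟨a, ha⟩ : ∃ a, a = lev P Q 0 + min η r := ⟨_, rfl⟩
  have hm : 0 < min η r := lt_min hη hr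
  have hm1 : min η r ≤ η := min_le_left _ _
  have hm2 : min η r ≤ r := min_le_right _ _
  have h1 := le_of_lev_lt hPl le_rfl zero_le_one (show lev P Q 0 < a by rw [ha]; linarith)
    (by linarith)
  rw [sub_zero] at h1
  obtain ⟨a', k1, k2, h2⟩ := H.dg a (by rw [abs_le]; constructor <;> linarith)
  have h3 := hP.slope a' a' (β * r) (by linarith) le_rfl hβr0 (by linarith)
  have h4 := hP.mono_w (a' + β * r) a' (a' + β * r) (by linarith) (by linarith) le_rfl
    (by linarith)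
  have h5 : Q ≤ min 1 (P' a' a' + β * r) := le_min hQ1 (by linarith)
  refine (lev_le ⟨by linarith, by linarith, Or.inl ?_⟩ : lev P' Q 0 ≤ a' + β * r).trans
    (by linarith)
  rw [sub_zero]
  linarith

/-- **A front cell** of the row `Q` at the scale `r`, in the plane of the rows and depths. -/
structure FroC (P : ℝ → ℝ → ℝ) (Q g r ε s β : ℝ) (p : ℝ × ℝ) (X al be : ℝ) : Prop where
  pos : 0 < X
  row : |p.1 - Q| ≤ 2 * r
  win : |Lv P p - p.2 - g| + X ≤ 3 * r
  dep : X ≤ p.2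
  dep' : p.2 + X ≤ r
  al0 : 0 ≤ al
  als : al ≤ s
  beβ : β ≤ be
  sum : al + be ≤ 1
  aff : Affn (Lv P) ε p X al be

/-- **Cells at a row which is not free from the window, for families.** -/
theorem cell_famB {ι : Type*} [Fintype ι] {P : ℝ → ℝ → ℝ} (hP : Law P) {Q g : ℝ} (hQ0 : 0 < Q)
    (hQ1 : Q < 1) (hg : g = Lv P (Q, 0)) (hg0 : 0 < g) (hg1 : g < 1) (hW : ¬ WfU P Q) :
    ∃ β : ℝ, 0 < β ∧ ∀ C : ℝ, 0 ≤ C → ∀ s : ℝ, 0 < s → ∃ T : ℝ, 0 < T ∧ ∀ ε : ℝ, 0 < ε →
      ∃ δ : ℝ, 0 < δ ∧ ∀ r₁ : ℝ, 0 < r₁ → ∃ r : ℝ, 0 < r ∧ r < r₁ ∧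
        ∀ (P' : ℝ → ℝ → ℝ) (R : ι → ℝ × ℝ → ℝ) (V : ι → ℝ), Law P' → NearB P P' g β r →
          (∀ j, LvBox (R j) g (V j) C r) →
          ((∃ (p : ℝ × ℝ) (X al be : ℝ), δ * r ≤ X ∧ FroC P' Q g r ε s β p X al be) ∨
          ∃ (y : ℝ × ℝ) (X lamN muN : ℝ) (lam mu : ι → ℝ), δ * r ≤ X ∧
            JCell P' R Q g r ε β T y X lamN muN lam mu) := by
  unfold WfU at hW
  push Not at hW
  obtain ⟨ε₀, hε₀, hW⟩ := hW
  obtain ⟨β, hβ⟩ : ∃ β, β = min (ε₀ / 8) (1 / 4) := ⟨_, rfl⟩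
  have hβ0 : 0 < β := by rw [hβ]; exact lt_min (by positivity) (by norm_num)
  have hβ1 : β ≤ ε₀ / 8 := by rw [hβ]; exact min_le_left _ _
  have hβ2 : β ≤ 1 / 4 := by rw [hβ]; exact min_le_right _ _
  refine ⟨β, hβ0, fun C hC s hs => ?_⟩
  obtain ⟨T, hT, H⟩ := cell_box (ι := ι) (half_pos hε₀) (show 0 ≤ 2 * C by positivity) hs
  refine ⟨T, hT, fun ε hε => ?_⟩
  obtain ⟨δ, hδ, H⟩ := H ε hε
  refine ⟨δ / 2, half_pos hδ, fun r₁ hr₁ => ?_⟩
  obtain ⟨u, hu⟩ : ∃ u, u = min (r₁ / 2) (min (Q / 8) (min ((1 - Q) / 8)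
    (min (g / 8) ((1 - g) / 8)))) := ⟨_, rfl⟩
  have hu0 : 0 < u := by
    rw [hu]
    exact lt_min (by linarith) (lt_min (by linarith) (lt_min (by linarith)
      (lt_min (by linarith) (by linarith))))
  obtain ⟨ρ, hρ, hρu, Q', hQ', hgr⟩ := hW u hu0
  have l1 : ρ < r₁ / 2 := lt_of_lt_of_le hρu (by rw [hu]; exact min_le_left _ _)
  have l3 : ρ < Q / 8 := lt_of_lt_of_le hρu (by
    rw [hu]; exact (min_le_right _ _).trans (min_le_left _ _))
  have l4 : ρ < (1 - Q) / 8 := lt_of_lt_of_le hρu (by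
    rw [hu]
    exact (min_le_right _ _).trans ((min_le_right _ _).trans (min_le_left _ _)))
  have l5 : ρ < g / 8 := lt_of_lt_of_le hρu (by
    rw [hu]
    exact (min_le_right _ _).trans ((min_le_right _ _).trans ((min_le_right _ _).trans
      (min_le_left _ _))))
  have l6 : ρ < (1 - g) / 8 := lt_of_lt_of_le hρu (by
    rw [hu]
    exact (min_le_right _ _).trans ((min_le_right _ _).trans ((min_le_right _ _).trans
      (min_le_right _ _))))
  refine ⟨2 * ρ, by positivity, by linarith, fun P' R V hP' hN hR => ?_⟩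
  have hQa := abs_le.1 hQ'
  have hg' : |Lv P (Q', 0) - g| ≤ ρ := by
    have h1 := (Lv_lip hP).dist_le_mul (Q', 0) (Q, 0)
    rw [Real.dist_eq, NNReal.coe_one, one_mul, Prod.dist_eq, ← hg] at h1
    refine h1.trans (max_le ?_ ?_)
    · exact hQ'
    · rw [dist_self]; exact hρ.le
  have e1 := hN.lv_le hP hP' (by positivity) hβ0.le (by linarith) (Q := Q') (by linarith)
    (by linarith) (hg'.trans (by linarith)) (by linarith) (by linarith)
  have e2 := hN.lv_ge hP hP' (q := 0) (by positivity) (Q := Q') (by linarith)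
    (by linarith) (hg'.trans (by linarith)) (by linarith) (by linarith) le_rfl (by linarith)
  have e3 := hN.lv_ge hP hP' (q := ρ) (by positivity) (Q := Q') (by linarith)
    (by linarith) (hg'.trans (by linarith)) (by linarith) (by linarith) hρ.le (by linarith)
  have hga := abs_le.1 hg'
  obtain ⟨g₂, hg₂⟩ : ∃ g₂, g₂ = Lv P' (Q', 0) := ⟨_, rfl⟩
  have hβρ : β * (2 * ρ) ≤ 1 / 4 * (2 * ρ) := mul_le_mul_of_nonneg_right hβ2 (by positivity)
  have hβε : β * (2 * ρ) ≤ ε₀ / 8 * (2 * ρ) := mul_le_mul_of_nonneg_right hβ1 (by positivity)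
  have hg₂g : |g₂ - g| ≤ 2 * ρ := by
    rw [abs_le, hg₂]
    constructor <;> linarith
  have hg₂a := abs_le.1 hg₂g
  have hR' : ∀ j, LvBox (R j) g₂ (V j) (2 * C) ρ := by
    intro j
    have hb : ∀ y, WBox g₂ ρ y → WBox g (2 * ρ) y := by
      intro y hy
      refine ⟨?_, hy.2.1, hy.2.2.trans (by linarith)⟩
      have := abs_sub_le y.1 g₂ g
      linarith [hy.1]
    refine ⟨fun y y' hy h h' => (hR j).mono y y' hy (hb y h) (hb y' h'), fun y hy => ?_⟩
    refine ((hR j).bd y (hb y hy)).trans (le_of_eq ?_)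
    ring
  have hinc : ε₀ / 2 * ρ ≤ Lv P' (Q', ρ) - Lv P' (Q', 0) := by linarith
  rcases H P' R V Q' ρ hP' hρ (by linarith) (by linarith) (by rw [← hg₂]; linarith)
    (by rw [← hg₂]; linarith) (by rw [← hg₂]; exact hR') hinc with
    ⟨p, X, al, be, f1, f2, f3, f4, f5, f6, f7, f8, f9, f10⟩ |
    ⟨y, X, lamN, muN, lam, mu, f1, f2⟩
  · left
    rw [← hg₂] at f5
    refine ⟨p, X, al, be, by linarith, lt_of_lt_of_le (by positivity) f2, ?_, ?_, f3,
      by linarith, f6, f7, by linarith, f9, f10⟩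
    · have := abs_sub_le p.1 Q' Q
      linarith
    · have := abs_sub_le (Lv P' p - p.2) g₂ g
      linarith
  · right
    refine ⟨y, X, lamN, muN, lam, mu, by linarith, f2.scale ?_ ?_ (by linarith) (by linarith)⟩
    · linarith
    · rw [← hg₂]
      linarith

end Pool.STR
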