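import Pool.Agent.H39.GEN.RowB
import Pool.Agent.H39.GEN.BlowK

/-!
# Calm cells at a row

The joint cells of `RowB` with calm levels: from each point of the cell the increments of the
target and of all the levels, in all directions and at all distances inside the box, are at most
`T` times the distance, up to `ε X`. The bound `T` is chosen before `ε` (`cell_boxK`,
`cell_famK`). Outside the box the increments are controlled by the diagonals (`diag_of_row`,
`lvBox_near` give the box of the target).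
-/

set_option autoImplicit false

namespace Pool.STR

open MeasureTheory Set Filter Topology Pool.LEV

/-! ### The clamp -/

/-- The clamp to the box of size `r` around `g`. -/
noncomputable def clB (g r : ℝ) (p : ℝ × ℝ) : ℝ × ℝ :=
  (max (g - 2 * r) (min (g + 2 * r) p.1), max 0 (min r p.2))

theorem clB_mono (g r : ℝ) : Monotone (clB g r) := fun _ _ hp =>
  ⟨max_le_max le_rfl (min_le_min le_rfl hp.1), max_le_max le_rfl (min_le_min le_rfl hp.2)⟩

theorem clB_eq {g r : ℝ} {p : ℝ × ℝ} (h : WBox g r p) : clB g r p = p := by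
  obtain ⟨h1, h2, h3⟩ := h
  rw [abs_le] at h1
  unfold clB
  rw [min_eq_right (by linarith), max_eq_right (by linarith), min_eq_right h3, max_eq_right h2]

theorem clB_mem {g r : ℝ} (hr : 0 ≤ r) (p : ℝ × ℝ) : WBox g r (clB g r p) := by
  refine ⟨?_, le_max_left _ _, max_le hr (min_le_left _ _)⟩
  have h1 : g - 2 * r ≤ max (g - 2 * r) (min (g + 2 * r) p.1) := le_max_left _ _
  have h2 : max (g - 2 * r) (min (g + 2 * r) p.1) ≤ g + 2 * r :=
    max_le (by linarith) (min_le_left _ _)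
  show |max (g - 2 * r) (min (g + 2 * r) p.1) - g| ≤ 2 * r
  rw [abs_le]
  constructor <;> linarith

/-! ### Calm cells -/

/-- **Calm cell** in the box of size `r` around the window `g`. -/
def CalmW (R : ℝ × ℝ → ℝ) (g r ε T : ℝ) (y : ℝ × ℝ) (X : ℝ) : Prop :=
  ∀ y' z, dist y' y ≤ X → WBox g r z → |R z - R y'| ≤ T * dist z y' + ε * X

/-- From the clamped level. -/
theorem CalmB.toW {R : ℝ × ℝ → ℝ} {g r ε ε' T X X' : ℝ} {y : ℝ × ℝ}
    (h : CalmB (fun p => R (clB g r p)) ε T y X) (hy : ∀ y', dist y' y ≤ X → WBox g r y')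
    (hX : X' ≤ X) (hε : ε * X ≤ ε' * X') : CalmW R g r ε' T y X' := by
  intro y' z hy' hz
  have h1 := h y' z (hy'.trans hX)
  simp only at h1
  rw [clB_eq hz, clB_eq (hy y' (hy'.trans hX))] at h1
  linarith

theorem CalmW.mono {R : ℝ × ℝ → ℝ} {g r ε T T' X : ℝ} {y : ℝ × ℝ} (h : CalmW R g r ε T y X)
    (hT : T ≤ T') : CalmW R g r ε T' y X := fun y' z hy' hz =>
  (h y' z hy' hz).trans (by
    have := mul_le_mul_of_nonneg_right hT (dist_nonneg (x := z) (y := y'))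
    linarith)

/-- **A calm cell** of the row `Q` at the scale `r`. -/
structure KCell {ι : Type*} (P : ℝ → ℝ → ℝ) (R : ι → ℝ × ℝ → ℝ) (Q g r ε β T : ℝ) (y : ℝ × ℝ)
    (X lamN muN : ℝ) (lam mu : ι → ℝ) : Prop
    extends JCell P R Q g r ε β T y X lamN muN lam mu where
  clm : ∀ j, CalmW (R j) g (2 * r) ε T y X
  clmN : CalmW (Nw P) g (2 * r) ε T y X

/-- The bound of the slopes. -/
theorem slope_TK {N C s' ε₀ : ℝ} (hN : 0 ≤ N) (hC : 0 ≤ C) (hs' : 0 < s') (hε₀ : 0 < ε₀) :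
    ∃ T : ℝ, 0 < T ∧ 1 / s' ≤ T ∧ N * (20 * C / T) < s' * (ε₀ / 4 * (ε₀ / 4)) := by
  obtain ⟨c, hc⟩ : ∃ c, c = s' * (ε₀ / 4 * (ε₀ / 4)) := ⟨_, rfl⟩
  have hc0 : 0 < c := by rw [hc]; positivity
  obtain ⟨A, hA⟩ : ∃ A, A = N * (20 * C) := ⟨_, rfl⟩
  have hA0 : 0 ≤ A := by rw [hA]; positivity
  obtain ⟨T, hT⟩ : ∃ T, T = 1 / s' + (A + 1) / c := ⟨_, rfl⟩
  have h1 : 0 < 1 / s' := by positivity
  have h2 : 0 < (A + 1) / c := by positivity
  have hT0 : 0 < T := by rw [hT]; linarith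
  refine ⟨T, hT0, by rw [hT]; linarith, ?_⟩
  rw [← hc]
  have e1 : N * (20 * C / T) = A / T := by rw [hA]; ring
  rw [e1, div_lt_iff₀ hT0]
  have e2 : c * ((A + 1) / c) = A + 1 := by field_simp
  have e3 : c * T = c * (1 / s') + (A + 1) := by rw [hT, mul_add, e2]
  have e4 : 0 < c * (1 / s') := by positivity
  linarith

/-- **Calm cells at one scale**, uniformly in the threshold and in the levels. The levels and the
target are monotone and bounded on the box of size `r'` around `g₀`. -/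
theorem cell_boxK {ι : Type*} [Fintype ι] {ε₀ C s : ℝ} (hε₀ : 0 < ε₀) (hC : 0 ≤ C)
    (hs : 0 < s) : ∃ T : ℝ, 0 < T ∧ ∀ ε : ℝ, 0 < ε → ∃ δ : ℝ, 0 < δ ∧
      ∀ (P : ℝ → ℝ → ℝ) (R : ι → ℝ × ℝ → ℝ) (V : ι → ℝ) (Q r g₀ r' C' VN : ℝ), Law P → 0 < r →
        3 * r ≤ Q → Q + 3 * r ≤ 1 → 3 * r ≤ Lv P (Q, 0) → Lv P (Q, 0) + 4 * r ≤ 1 →
        r ≤ r' → |Lv P (Q, 0) - g₀| + 2 * r ≤ 2 * r' → C' * r' ≤ C * r →
        (∀ j, LvBox (R j) g₀ (V j) C' r') → LvBox (Nw P) g₀ VN C' r' →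
        ε₀ * r ≤ Lv P (Q, r) - Lv P (Q, 0) →
        ((∃ (p : ℝ × ℝ) (X al be : ℝ), |p.1 - Q| ≤ r ∧ δ * r ≤ X ∧ X ≤ p.2 ∧ p.2 + X ≤ r ∧
          |Lv P p - p.2 - Lv P (Q, 0)| + X ≤ 2 * r ∧
          0 ≤ al ∧ al ≤ s ∧ ε₀ / 2 ≤ be ∧ al + be ≤ 1 ∧ Affn (Lv P) ε p X al be) ∨
        ∃ (y : ℝ × ℝ) (X lamN muN : ℝ) (lam mu : ι → ℝ), δ * r ≤ X ∧
          JCell P R Q (Lv P (Q, 0)) r ε (ε₀ / 2) T y X lamN muN lam mu ∧
          (∀ j, CalmW (R j) g₀ r' ε T y X) ∧ CalmW (Nw P) g₀ r' ε T y X) := by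
  obtain ⟨s', hs'⟩ : ∃ s', s' = min s 1 := ⟨_, rfl⟩
  have hs'0 : 0 < s' := by rw [hs']; exact lt_min hs one_pos
  have hs's : s' ≤ s := by rw [hs']; exact min_le_left _ _
  have hs'1 : s' ≤ 1 := by rw [hs']; exact min_le_right _ _
  obtain ⟨T, hT, hT1, hT2⟩ := slope_TK (N := Fintype.card (Option ι)) (Nat.cast_nonneg _) hC
    hs'0 hε₀
  refine ⟨4 * T, by positivity, fun ε hε => ?_⟩
  obtain ⟨ε₁, hε₁⟩ : ∃ ε₁, ε₁ = min (s' / 8) (ε * s' ^ 2 / 32) := ⟨_, rfl⟩
  have hε₁0 : 0 < ε₁ := by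
    rw [hε₁]
    exact lt_min (by positivity) (by positivity)
  have hε₁1 : ε₁ ≤ s' / 8 := by rw [hε₁]; exact min_le_left _ _
  have hε₁2 : ε₁ ≤ ε * s' ^ 2 / 32 := by rw [hε₁]; exact min_le_right _ _
  have hss : s' ^ 2 ≤ s' := by nlinarith
  have hε₁3 : ε₁ ≤ ε * s' / 8 := by nlinarith
  have hε₁4 : ε₁ ≤ ε := by nlinarith
  obtain ⟨δ, hδ, H⟩ := blowK (ι := Option ι) hε₀ hε₁0 hs'0 hT hC hT2
  refine ⟨s' / 8 * δ, by positivity, fun P R V Q r g₀ r' C' VN hP hr l3 l4 l5 l6 hrr hgg hCC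
    hlv hlvN hinc => ?_⟩
  obtain ⟨g, hg⟩ : ∃ g, g = Lv P (Q, 0) := ⟨_, rfl⟩
  rw [← hg] at l5 l6 hgg hinc ⊢
  have hr'0 : 0 < r' := hr.trans_le hrr
  -- the levels, with the target, clamped to the box
  obtain ⟨R₁, hR₁⟩ : ∃ R₁ : Option ι → ℝ × ℝ → ℝ, R₁ = fun o => o.elim (Nw P) R := ⟨_, rfl⟩
  obtain ⟨V₁, hV₁⟩ : ∃ V₁ : Option ι → ℝ, V₁ = fun o => o.elim VN V := ⟨_, rfl⟩
  have hlv₁ : ∀ o, LvBox (R₁ o) g₀ (V₁ o) C' r' := by
    intro o
    rw [hR₁, hV₁]
    cases o with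
    | none => exact hlvN
    | some j => exact hlv j
  have hmono : ∀ o, Monotone fun p => R₁ o (clB g₀ r' p) := fun o p p' hp =>
    (hlv₁ o).mono _ _ (clB_mono g₀ r' hp) (clB_mem hr'0.le p) (clB_mem hr'0.le p')
  have hbd : ∀ o p, |R₁ o (clB g₀ r' p) - V₁ o| ≤ C * r := fun o p =>
    ((hlv₁ o).bd _ (clB_mem hr'0.le p)).trans hCC
  obtain ⟨p, X, al, be, c1, c2, c3, c4, c5, c6, c7, c8, c9, c10⟩ :=
    H (Lv P) (fun o p => R₁ o (clB g₀ r' p)) (Lv_lip hP) (Lv_mono hP) Q r V₁ hr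
      (by rw [← hg]; exact hinc) hmono hbd
  rw [← hg] at c5
  have hX0 : 0 < X := lt_of_lt_of_le (by positivity) c2
  have hδX : s' / 8 * δ * r ≤ s' / 8 * X := by
    have := mul_le_mul_of_nonneg_left c2 (show (0 : ℝ) ≤ s' / 8 by positivity)
    linarith
  have hsX : s' / 8 * X ≤ X := by nlinarith
  rcases le_or_gt al s' with hal | hal
  · left
    refine ⟨p, X, al, be, c1, by linarith, c3, c4, c5, c6, hal.trans hs's, c7, c8,
      c9.shrink le_rfl (mul_le_mul_of_nonneg_right hε₁4 hX0.le)⟩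
  · right
    rcases c10 with c10 | c10
    · exact absurd c10 (not_le.2 hal)
    have hXr : X ≤ r := by linarith
    have hab := abs_le.1 c1
    have hwd1 : |Lv P p - p.2 - g| ≤ 2 * r - X := by linarith
    rw [abs_le] at hwd1
    -- the cell is in the box
    have hin : ∀ y', dist y' (Lv P p - p.2, p.2) ≤ X → WBox g₀ r' y' := by
      intro y' hy'
      rw [Prod.dist_eq, Real.dist_eq, Real.dist_eq] at hy'
      have y1 : |y'.1 - (Lv P p - p.2)| ≤ X := (le_max_left _ _).trans hy'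
      have y2 : |y'.2 - p.2| ≤ X := (le_max_right _ _).trans hy'
      have y3 := abs_sub_le y'.1 (Lv P p - p.2) g
      have y4 := abs_sub_le y'.1 g g₀
      rw [abs_le] at y2
      exact ⟨by linarith, by linarith [y2.1], by linarith [y2.2]⟩
    choose c10 c11 using c10
    have c10' : ∀ j : ι, ∃ lam mu : ℝ, 0 ≤ lam ∧ lam ≤ T ∧ 0 ≤ mu ∧ mu ≤ T ∧
        Affn (R j) ε₁ (Lv P p - p.2, p.2) X lam mu := by
      intro j
      obtain ⟨lam, mu, m1, m2, m3, m4, m5⟩ := c10 (some j)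
      refine ⟨lam, mu, m1, m2, m3, m4, m5.congr hX0.le fun y' hy' => ?_⟩
      rw [clB_eq (hin y' hy'), hR₁]
      rfl
    choose lam mu m1 m2 m3 m4 m5 using c10'
    obtain ⟨k1, k2⟩ := Affn.chart hP c9 hX0 hs'0 hal.le hε₁0 hε₁1 (by linarith) c8
      (by linarith) (by linarith) c3 (by linarith) (by linarith)
    have hal0 : 0 < al := hs'0.trans hal
    have hεX : ε₁ * X ≤ ε * (s' / 8 * X) := by
      have e1 : ε * (s' / 8 * X) = ε * s' / 8 * X := by ring
      rw [e1]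
      exact mul_le_mul_of_nonneg_right hε₁3 hX0.le
    have h4T : T ≤ 4 * T := by linarith
    refine ⟨(Lv P p - p.2, p.2), s' / 8 * X, 1 / al, (1 - be) / al, lam, mu, hδX,
      ⟨?_, ?_, ?_, ?_, ?_, ?_, ?_, ?_, ?_, fun j => (m5 j).shrink hsX hεX, m1,
        fun j => (m2 j).trans h4T, m3, fun j => (m4 j).trans h4T⟩, fun j => ?_, ?_⟩
    · positivity
    · refine (abs_sub_le _ p.1 _).trans ?_
      have e1 : 2 * ε₁ * X / s' ≤ r := by
        rw [div_le_iff₀ hs'0]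
        nlinarith
      linarith
    · show |Lv P p - p.2 - g| + s' / 8 * X ≤ 3 * r
      linarith
    · show s' / 8 * X ≤ p.2
      linarith
    · show p.2 + s' / 8 * X ≤ r
      linarith
    · refine k1.shrink le_rfl (mul_le_mul_of_nonneg_right ?_ (by positivity))
      rw [div_le_iff₀ (by positivity)]
      linarith
    · rw [le_div_iff₀ hal0]
      linarith
    · rw [div_add' _ _ _ hal0.ne', div_le_div_iff_of_pos_right hal0]
      nlinarith
    · refine le_trans ?_ (hT1.trans h4T)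
      exact one_div_le_one_div_of_le hs'0 hal.le
    · have h1 := (c11 (some j)).toW (g := g₀) (r := r') hin hsX hεX
      rw [hR₁] at h1
      exact h1
    · have h1 := (c11 none).toW (g := g₀) (r := r') hin hsX hεX
      rw [hR₁] at h1
      exact h1

/-! ### The box of the target -/

/-- **The diagonal at a row** whose level has a positive derivative. -/
theorem diag_of_row {P : ℝ → ℝ → ℝ} (hP : Law P) {Q g : ℝ} (hQ0 : 0 < Q) (hQ1 : Q < 1)
    (hg : g = Lv P (Q, 0)) (hg0 : 0 < g) (hg1 : g < 1)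
    (hd : DifferentiableAt ℝ (fun Q => Lv P (Q, 0)) Q)
    (hd' : 0 < deriv (fun Q => Lv P (Q, 0)) Q) :
    ∃ C r₀ : ℝ, 0 < C ∧ 0 < r₀ ∧ ∀ w : ℝ, |w - g| ≤ r₀ → |P w w - Q| ≤ C * |w - g| := by
  obtain ⟨σ, hσ⟩ : ∃ σ, σ = deriv (fun Q => Lv P (Q, 0)) Q := ⟨_, rfl⟩
  have h1 := hd.hasDerivAt
  rw [← hσ] at h1 hd'
  have h2 := h1.isLittleO.def (show (0 : ℝ) < σ / 2 by positivity)
  obtain ⟨d, hd0, h3⟩ := Metric.eventually_nhds_iff.1 h2
  have h4 : ∀ Q', |Q' - Q| < d → |Lv P (Q', 0) - g - (Q' - Q) * σ| ≤ σ / 2 * |Q' - Q| := by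
    intro Q' hQ'
    have h5 := h3 (y := Q') (by rw [Real.dist_eq]; exact hQ')
    rw [Real.norm_eq_abs, Real.norm_eq_abs, smul_eq_mul, ← hg] at h5
    exact h5
  obtain ⟨r₀, hr₀⟩ : ∃ r₀, r₀ = min (σ * d / 4) (min (g / 2) (min ((1 - g) / 2)
    (min (σ * Q / 4) (σ * (1 - Q) / 4)))) := ⟨_, rfl⟩
  have hr₀0 : 0 < r₀ := by
    rw [hr₀]
    have : 0 < 1 - Q := by linarith
    exact lt_min (by positivity) (lt_min (by linarith) (lt_min (by linarith)
      (lt_min (by positivity) (by positivity))))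
  refine ⟨2 / σ, r₀, by positivity, hr₀0, fun w hw => ?_⟩
  have k1 : |w - g| ≤ σ * d / 4 := hw.trans (by rw [hr₀]; exact min_le_left _ _)
  have k2 : |w - g| ≤ g / 2 := hw.trans (by
    rw [hr₀]; exact (min_le_right _ _).trans (min_le_left _ _))
  have k3 : |w - g| ≤ (1 - g) / 2 := hw.trans (by
    rw [hr₀]; exact (min_le_right _ _).trans ((min_le_right _ _).trans (min_le_left _ _)))
  have k4 : |w - g| ≤ σ * Q / 4 := hw.trans (by
    rw [hr₀]
    exact (min_le_right _ _).trans ((min_le_right _ _).trans ((min_le_right _ _).trans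
      (min_le_left _ _))))
  have k5 : |w - g| ≤ σ * (1 - Q) / 4 := hw.trans (by
    rw [hr₀]
    exact (min_le_right _ _).trans ((min_le_right _ _).trans ((min_le_right _ _).trans
      (min_le_right _ _))))
  obtain ⟨t, ht⟩ : ∃ t, t = 2 / σ * |w - g| := ⟨_, rfl⟩
  rw [← ht]
  have hσt : σ / 2 * t = |w - g| := by
    rw [ht]
    field_simp
  have ht0 : 0 ≤ t := by rw [ht]; positivity
  have htd : t ≤ d / 2 := by
    have : σ / 2 * t ≤ σ / 2 * (d / 2) := by rw [hσt]; linarith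
    exact le_of_mul_le_mul_left this (by positivity)
  have htQ : t ≤ Q / 2 := by
    have : σ / 2 * t ≤ σ / 2 * (Q / 2) := by rw [hσt]; linarith
    exact le_of_mul_le_mul_left this (by positivity)
  have htQ' : t ≤ (1 - Q) / 2 := by
    have : σ / 2 * t ≤ σ / 2 * ((1 - Q) / 2) := by rw [hσt]; linarith
    exact le_of_mul_le_mul_left this (by positivity)
  have hwa := abs_le.1 (le_refl |w - g|)
  have hw0 : 0 ≤ w := by linarith [hwa.1]
  have hw1 : w ≤ 1 := by linarith [hwa.2]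
  rw [abs_le]
  constructor
  · by_contra hcon
    push Not at hcon
    obtain ⟨Q', h5, h6⟩ := exists_between (show max (P w w) (max (Q - d) 0) < Q - t from
      max_lt (by linarith) (max_lt (by linarith) (by linarith)))
    have q1 : P w w < Q' := (le_max_left _ _).trans_lt h5
    have q2 : Q - d < Q' := (le_max_left _ _).trans_lt ((le_max_right _ _).trans_lt h5)
    have q3 : 0 < Q' := (le_max_right _ _).trans_lt ((le_max_right _ _).trans_lt h5)
    have h7 := h4 Q' (by rw [abs_lt]; constructor <;> linarith)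
    have e1 : |Q' - Q| = Q - Q' := by rw [abs_sub_comm, abs_of_nonneg (by linarith)]
    rw [e1, Lv_eq le_rfl zero_le_one q3.le (by linarith)] at h7
    have h8 := (abs_le.1 h7).2
    have h9 : lev P Q' 0 < w := by
      have : σ / 2 * t < σ / 2 * (Q - Q') :=
        mul_lt_mul_of_pos_left (by linarith) (by positivity)
      nlinarith
    have h10 := le_of_lev_lt hP le_rfl zero_le_one h9 hw1
    rw [sub_zero] at h10
    linarith
  · by_contra hcon
    push Not at hcon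
    obtain ⟨Q', h5, h6⟩ := exists_between (show Q + t < min (P w w) (min (Q + d) 1) from
      lt_min (by linarith) (lt_min (by linarith) (by linarith)))
    have q1 : Q' < P w w := h6.trans_le (min_le_left _ _)
    have q2 : Q' < Q + d := h6.trans_le ((min_le_right _ _).trans (min_le_left _ _))
    have q3 : Q' < 1 := h6.trans_le ((min_le_right _ _).trans (min_le_right _ _))
    have h7 := h4 Q' (by rw [abs_lt]; constructor <;> linarith)
    have e1 : |Q' - Q| = Q' - Q := abs_of_nonneg (by linarith)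
    rw [e1, Lv_eq le_rfl zero_le_one (by linarith) q3.le] at h7
    have h8 := (abs_le.1 h7).1
    have h9 : lev P Q' 0 ≤ w := lev_le ⟨hw0, hw1, Or.inl (by rw [sub_zero]; exact q1.le)⟩
    have : σ / 2 * t < σ / 2 * (Q' - Q) := mul_lt_mul_of_pos_left (by linarith) (by positivity)
    nlinarith

/-- **The threshold `P'` at the scale `r`** is below `P` on the box of the window `g`, and close
to `P` on the diagonal; the larger box. -/
structure NearK (P P' : ℝ → ℝ → ℝ) (g β r : ℝ) : Prop where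
  le : ∀ a w, g - 4 * r ≤ w → w ≤ a → a ≤ g + 6 * r → P' a w ≤ P a w
  dg : ∀ a, |a - g| ≤ 5 * r → ∃ a', a ≤ a' ∧ a' ≤ a + β * r ∧ P a a ≤ P' a' a' + β * r

theorem NearK.toB {P P' : ℝ → ℝ → ℝ} {g β r : ℝ} (H : NearK P P' g β r) (hr : 0 ≤ r) :
    NearB P P' g β r :=
  ⟨fun a w h1 h2 h3 => H.le a w (by linarith) h2 (by linarith),
    fun a ha => H.dg a (ha.trans (by linarith))⟩

/-- The box of the target. -/
theorem lvBox_near {P P' : ℝ → ℝ → ℝ} (hP : Law P) (hP' : Law P') {Q g β r C : ℝ}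
    (H : NearK P P' g β r) (hr : 0 < r) (hβ0 : 0 ≤ β) (hβ1 : β ≤ 1) (hg0 : 6 * r ≤ g)
    (hg1 : g + 6 * r ≤ 1) (hC : 0 ≤ C)
    (hdg : ∀ w : ℝ, |w - g| ≤ 6 * r → |P w w - Q| ≤ C * |w - g|) :
    LvBox (Nw P') g Q (3 * C + 1) (2 * r) := by
  refine ⟨fun y y' hy h h' => ?_, fun y h => ?_⟩
  · obtain ⟨a1, a2, a3⟩ := h
    obtain ⟨b1, b2, b3⟩ := h'
    rw [abs_le] at a1 b1
    have c1 : y.1 ≤ y'.1 := hy.1
    have c2 : y.2 ≤ y'.2 := hy.2
    exact hP'.mono (by linarith [a1.1]) (by linarith) (by linarith) c1 (by linarith)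
      (by linarith [b1.2])
  · obtain ⟨a1, a2, a3⟩ := h
    rw [abs_le] at a1
    have hβr : β * r ≤ 1 * r := mul_le_mul_of_nonneg_right hβ1 hr.le
    have hβr0 : 0 ≤ β * r := by positivity
    -- above
    have h1 : Nw P' y ≤ Q + C * (6 * r) := by
      have e1 := H.le (y.1 + y.2) y.1 (by linarith [a1.1]) (by linarith) (by linarith [a1.2])
      have e2 := hP.mono_w (y.1 + y.2) y.1 (y.1 + y.2) (by linarith [a1.1]) (by linarith)
        le_rfl (by linarith [a1.2])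
      have e3 : |y.1 + y.2 - g| ≤ 6 * r := by
        rw [abs_le]
        constructor <;> linarith [a1.1, a1.2]
      have e4 := (abs_le.1 (hdg (y.1 + y.2) e3)).2
      have e5 := mul_le_mul_of_nonneg_left e3 hC
      unfold Nw
      linarith
    -- below
    have h2 : Q - C * (6 * r) - β * r ≤ Nw P' y := by
      have e3 : |y.1 - β * r - g| ≤ 5 * r := by
        rw [abs_le]
        constructor <;> linarith [a1.1, a1.2]
      obtain ⟨a', k1, k2, k3⟩ := H.dg (y.1 - β * r) e3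
      have e4 := (abs_le.1 (hdg (y.1 - β * r) (e3.trans (by linarith)))).1
      have e5 := mul_le_mul_of_nonneg_left (e3.trans (by linarith : 5 * r ≤ 6 * r)) hC
      have e6 : P' a' a' ≤ P' (y.1 + y.2) y.1 :=
        hP'.mono (by linarith [a1.1]) le_rfl (by linarith) (by linarith) (by linarith)
          (by linarith [a1.2])
      unfold Nw
      linarith
    rw [abs_le]
    constructor <;> nlinarith

/-! ### Families -/

/-- **Calm cells at a row which is not free from the window, for families.** -/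
theorem cell_famK {ι : Type*} [Fintype ι] {P : ℝ → ℝ → ℝ} (hP : Law P) {Q g : ℝ} (hQ0 : 0 < Q)
    (hQ1 : Q < 1) (hg : g = Lv P (Q, 0)) (hg0 : 0 < g) (hg1 : g < 1)
    (hd : DifferentiableAt ℝ (fun Q => Lv P (Q, 0)) Q)
    (hd' : 0 < deriv (fun Q => Lv P (Q, 0)) Q) (hW : ¬ WfU P Q) :
    ∃ β : ℝ, 0 < β ∧ ∀ C : ℝ, 0 ≤ C → ∀ s : ℝ, 0 < s → ∃ T : ℝ, 0 < T ∧ ∀ ε : ℝ, 0 < ε →
      ∃ δ : ℝ, 0 < δ ∧ ∀ r₁ : ℝ, 0 < r₁ → ∃ r : ℝ, 0 < r ∧ r < r₁ ∧
        ∀ (P' : ℝ → ℝ → ℝ) (R : ι → ℝ × ℝ → ℝ) (V : ι → ℝ), Law P' → NearK P P' g β r →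
          (∀ j, LvBox (R j) g (V j) C (2 * r)) →
          ((∃ (p : ℝ × ℝ) (X al be : ℝ), δ * r ≤ X ∧ FroC P' Q g r ε s β p X al be) ∨
          ∃ (y : ℝ × ℝ) (X lamN muN : ℝ) (lam mu : ι → ℝ), δ * r ≤ X ∧
            KCell P' R Q g r ε β T y X lamN muN lam mu) := by
  obtain ⟨CN, r₀, hCN, hr₀, hdiag⟩ := diag_of_row hP hQ0 hQ1 hg hg0 hg1 hd hd'
  unfold WfU at hW
  push Not at hW
  obtain ⟨ε₀, hε₀, hW⟩ := hW
  obtain ⟨β, hβ⟩ : ∃ β, β = min (ε₀ / 8) (1 / 4) := ⟨_, rfl⟩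
  have hβ0 : 0 < β := by rw [hβ]; exact lt_min (by positivity) (by norm_num)
  have hβ1 : β ≤ ε₀ / 8 := by rw [hβ]; exact min_le_left _ _
  have hβ2 : β ≤ 1 / 4 := by rw [hβ]; exact min_le_right _ _
  refine ⟨β, hβ0, fun C hC s hs => ?_⟩
  obtain ⟨C', hC'⟩ : ∃ C', C' = max C (3 * CN + 1) := ⟨_, rfl⟩
  have hC'C : C ≤ C' := by rw [hC']; exact le_max_left _ _
  have hC'N : 3 * CN + 1 ≤ C' := by rw [hC']; exact le_max_right _ _
  have hC'0 : 0 ≤ C' := hC.trans hC'C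
  obtain ⟨T, hT, H⟩ := cell_boxK (ι := ι) (half_pos hε₀) (show 0 ≤ 4 * C' by positivity) hs
  refine ⟨T, hT, fun ε hε => ?_⟩
  obtain ⟨δ, hδ, H⟩ := H ε hε
  refine ⟨δ / 2, half_pos hδ, fun r₁ hr₁ => ?_⟩
  obtain ⟨u, hu⟩ : ∃ u, u = min (r₁ / 2) (min (Q / 8) (min ((1 - Q) / 8)
    (min (g / 16) (min ((1 - g) / 16) (r₀ / 16))))) := ⟨_, rfl⟩
  have hu0 : 0 < u := by
    rw [hu]
    exact lt_min (by linarith) (lt_min (by linarith) (lt_min (by linarith)
      (lt_min (by linarith) (lt_min (by linarith) (by linarith)))))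
  obtain ⟨ρ, hρ, hρu, Q', hQ', hgr⟩ := hW u hu0
  have l1 : ρ < r₁ / 2 := lt_of_lt_of_le hρu (by rw [hu]; exact min_le_left _ _)
  have l3 : ρ < Q / 8 := lt_of_lt_of_le hρu (by
    rw [hu]; exact (min_le_right _ _).trans (min_le_left _ _))
  have l4 : ρ < (1 - Q) / 8 := lt_of_lt_of_le hρu (by
    rw [hu]
    exact (min_le_right _ _).trans ((min_le_right _ _).trans (min_le_left _ _)))
  have l5 : ρ < g / 16 := lt_of_lt_of_le hρu (by
    rw [hu]
    exact (min_le_right _ _).trans ((min_le_right _ _).trans ((min_le_right _ _).trans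
      (min_le_left _ _))))
  have l6 : ρ < (1 - g) / 16 := lt_of_lt_of_le hρu (by
    rw [hu]
    exact (min_le_right _ _).trans ((min_le_right _ _).trans ((min_le_right _ _).trans
      ((min_le_right _ _).trans (min_le_left _ _)))))
  have l7 : ρ < r₀ / 16 := lt_of_lt_of_le hρu (by
    rw [hu]
    exact (min_le_right _ _).trans ((min_le_right _ _).trans ((min_le_right _ _).trans
      ((min_le_right _ _).trans (min_le_right _ _)))))
  refine ⟨2 * ρ, by positivity, by linarith, fun P' R V hP' hK hR => ?_⟩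
  have hN := hK.toB (by positivity)
  have hRN := lvBox_near hP hP' hK (by positivity) hβ0.le (by linarith) (by linarith)
    (by linarith) hCN.le fun w hw => hdiag w (hw.trans (by linarith))
  have hQa := abs_le.1 hQ'
  have hg' : |Lv P (Q', 0) - g| ≤ ρ := by
    have h1 := (Lv_lip hP).dist_le_mul (Q', 0) (Q, 0)
    rw [Real.dist_eq, NNReal.coe_one, one_mul, Prod.dist_eq, ← hg] at h1
    refine h1.trans (max_le ?_ ?_)
    · exact hQ'
    · rw [dist_self]; exact hρ.le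
  have e1 := hN.lv_le hP hP' (by positivity) hβ0.le (by linarith) (Q := Q') (by linarith)
    (by linarith) (hg'.trans (by linarith)) (by linarith) (by linarith)
  have e2 := hN.lv_ge hP hP' (q := 0) (by positivity) (Q := Q') (by linarith)
    (by linarith) (hg'.trans (by linarith)) (by linarith) (by linarith) le_rfl (by linarith)
  have e3 := hN.lv_ge hP hP' (q := ρ) (by positivity) (Q := Q') (by linarith)
    (by linarith) (hg'.trans (by linarith)) (by linarith) (by linarith) hρ.le (by linarith)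
  have hga := abs_le.1 hg'
  obtain ⟨g₂, hg₂⟩ : ∃ g₂, g₂ = Lv P' (Q', 0) := ⟨_, rfl⟩
  have hβρ : β * (2 * ρ) ≤ 1 / 4 * (2 * ρ) := mul_le_mul_of_nonneg_right hβ2 (by positivity)
  have hβε : β * (2 * ρ) ≤ ε₀ / 8 * (2 * ρ) := mul_le_mul_of_nonneg_right hβ1 (by positivity)
  have hg₂g : |g₂ - g| ≤ 2 * ρ := by
    rw [abs_le, hg₂]
    constructor <;> linarith
  have hg₂a := abs_le.1 hg₂g
  have hinc : ε₀ / 2 * ρ ≤ Lv P' (Q', ρ) - Lv P' (Q', 0) := by linarith
  have hr4 : 0 < 2 * (2 * ρ) := by positivity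
  rcases H P' R V Q' ρ g (2 * (2 * ρ)) C' Q hP' hρ (by linarith) (by linarith)
    (by rw [← hg₂]; linarith) (by rw [← hg₂]; linarith) (by linarith)
    (by rw [← hg₂]; linarith) (le_of_eq (by ring))
    (fun j => ⟨(hR j).mono, fun y hy => ((hR j).bd y hy).trans
      (mul_le_mul_of_nonneg_right hC'C hr4.le)⟩)
    ⟨hRN.mono, fun y hy => (hRN.bd y hy).trans (mul_le_mul_of_nonneg_right hC'N hr4.le)⟩
    hinc with
    ⟨p, X, al, be, f1, f2, f3, f4, f5, f6, f7, f8, f9, f10⟩ |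
    ⟨y, X, lamN, muN, lam, mu, f1, f2, f3, f4⟩
  · left
    rw [← hg₂] at f5
    refine ⟨p, X, al, be, by linarith, lt_of_lt_of_le (by positivity) f2, ?_, ?_, f3,
      by linarith, f6, f7, by linarith, f9, f10⟩
    · have := abs_sub_le p.1 Q' Q
      linarith
    · have := abs_sub_le (Lv P' p - p.2) g₂ g
      linarith
  · right
    refine ⟨y, X, lamN, muN, lam, mu, by linarith, f2.scale ?_ ?_ (by linarith) (by linarith),
      f3, f4⟩
    · linarith
    · rw [← hg₂]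
      linarith

end Pool.STR
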