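import Mathlib
import Pool.Agent.H76.GN.Lev

/-!
# The rows of a class in the strip

The chart is `(Q, q)`: row and velocity depth; `Lv P (Q, q)` is the radius of the level curve.
If, for small `q`, the level curves of the rows which are not full are vertical outside sets `B q`
of radii of measure `O(q)`, and increasing in `q`, then for almost every such row
`Lv P (Q, q) - Lv P (Q, 0) = o(q)`.
-/

set_option autoImplicit false

namespace Pool.STR

open MeasureTheory Set Filter Topology Pool.LEV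
open scoped ENNReal

/-! ### The path bound -/

/-- A monotone function is injective on the set of the points with a positive derivative. -/
theorem inj_pos {f : ℝ → ℝ} (hf : Monotone f) :
    InjOn f {x | DifferentiableAt ℝ f x ∧ 0 < deriv f x} := by
  have key : ∀ x y : ℝ, x < y → f x = f y → DifferentiableAt ℝ f x → deriv f x = 0 := by
    intro x y hxy h hd
    have h1 : HasDerivWithinAt f (deriv f x) (Ioi x) x := hd.hasDerivAt.hasDerivWithinAt
    have h2 : HasDerivWithinAt f 0 (Ioi x) x := by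
      refine (hasDerivWithinAt_const x (Ioi x) (f x)).congr_of_eventuallyEq ?_ rfl
      filter_upwards [Ioo_mem_nhdsGT hxy] with z hz
      exact le_antisymm (h ▸ hf hz.2.le) (hf hz.1.le)
    exact (uniqueDiffWithinAt_Ioi x).eq_deriv _ h1 h2
  rintro x ⟨hx1, hx2⟩ y ⟨hy1, hy2⟩ hxy
  rcases lt_trichotomy x y with h | h | h
  · exact absurd (key x y h hxy hx1) hx2.ne'
  · exact h
  · exact absurd (key y x h hxy.symm hy1) hy2.ne'

/-- The set of the points with a derivative at least `e > 0` is measurable. -/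
theorem meas_pos (f : ℝ → ℝ) (e : ℝ) :
    MeasurableSet {x | DifferentiableAt ℝ f x ∧ e < deriv f x} := by
  have h1 : MeasurableSet {x | DifferentiableAt ℝ f x} := measurableSet_of_differentiableAt ℝ f
  have h2 : MeasurableSet {x | e < deriv f x} := measurableSet_lt measurable_const
    (measurable_deriv f)
  exact h1.inter h2

/-- **The path bound.** A monotone Lipschitz function whose derivative vanishes at almost all
points which are not mapped to `E` increases at most by the measure of the part of `E` in its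
range. -/
theorem path {f : ℝ → ℝ} {K : NNReal} (hf : Monotone f) (hl : LipschitzWith K f) {b : ℝ}
    (hb : 0 ≤ b) {E : Set ℝ} (hE : MeasurableSet E)
    (h : ∀ᵐ x : ℝ, x ∈ Ioo 0 b → f x ∉ E → ¬ 0 < deriv f x) :
    ENNReal.ofReal (f b - f 0) ≤ volume (E ∩ Icc (f 0) (f b)) := by
  classical
  have h1 := (hl.lipschitzOnWith (s := uIcc 0 b)).absolutelyContinuousOnInterval.integral_deriv_eq_sub
  rw [intervalIntegral.integral_of_le hb, integral_Ioc_eq_integral_Ioo] at h1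
  obtain ⟨S, hS⟩ : ∃ S : Set ℝ, S = {x | DifferentiableAt ℝ f x ∧ 0 < deriv f x} ∩ f ⁻¹' E ∩
    Ioo 0 b := ⟨_, rfl⟩
  have hSm : MeasurableSet S := by
    rw [hS]
    exact ((meas_pos f 0).inter (hl.continuous.measurable hE)).inter measurableSet_Ioo
  have hd0 : ∀ x, 0 ≤ deriv f x := fun x => hf.deriv_nonneg
  have h2 : ENNReal.ofReal (f b - f 0) = ∫⁻ x in Ioo 0 b, ENNReal.ofReal (deriv f x) := by
    rw [← h1, ofReal_integral_eq_lintegral_ofReal]
    · have h3 := (hl.lipschitzOnWith (s := uIcc 0 b)).absolutelyContinuousOnInterval.intervalIntegrable_deriv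
      exact ((intervalIntegrable_iff_integrableOn_Ioo_of_le hb).1 h3)
    · exact Eventually.of_forall hd0
  rw [h2]
  have h3 : ∫⁻ x in Ioo 0 b, ENNReal.ofReal (deriv f x) =
      ∫⁻ x in S, ENNReal.ofReal |deriv f x| := by
    have hsub : S ⊆ Ioo 0 b := by
      rw [hS]
      exact inter_subset_right
    rw [← lintegral_indicator measurableSet_Ioo, ← lintegral_indicator hSm]
    refine lintegral_congr_ae ?_
    filter_upwards [h] with x hx
    by_cases hxS : x ∈ S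
    · rw [indicator_of_mem (hsub hxS), indicator_of_mem hxS, abs_of_nonneg (hd0 x)]
    · rw [indicator_of_notMem hxS]
      by_cases hxI : x ∈ Ioo 0 b
      · rw [indicator_of_mem hxI]
        have h4 : deriv f x = 0 := by
          by_contra hc
          have h5 : 0 < deriv f x := lt_of_le_of_ne (hd0 x) (Ne.symm hc)
          have h6 : DifferentiableAt ℝ f x := differentiableAt_of_deriv_ne_zero hc
          by_cases h7 : f x ∈ E
          · exact hxS (hS ▸ ⟨⟨⟨h6, h5⟩, h7⟩, hxI⟩)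
          · exact hx hxI h7 h5
        rw [h4, ENNReal.ofReal_zero]
      · rw [indicator_of_notMem hxI]
  rw [h3]
  have h4 := lintegral_image_eq_lintegral_abs_deriv_mul (s := S) (f := f) (f' := deriv f) hSm
    (fun x hx => by
      rw [hS] at hx
      exact hx.1.1.1.hasDerivAt.hasDerivWithinAt)
    ((inj_pos hf).mono (by rw [hS]; exact fun x hx => hx.1.1)) (fun _ => 1)
  simp only [mul_one, lintegral_const, one_mul, Measure.restrict_apply MeasurableSet.univ,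
    univ_inter] at h4
  rw [← h4]
  refine measure_mono ?_
  rintro _ ⟨x, hx, rfl⟩
  rw [hS] at hx
  exact ⟨hx.1.2, hf hx.2.1.le, hf hx.2.2.le⟩

/-- The mean over the rows is at most the mean over the radii. -/
theorem rows_le {g : ℝ → ℝ} (hg : Monotone g) {e : ℝ} (he : 0 < e) (φ : ℝ → ℝ≥0∞) :
    ENNReal.ofReal e * ∫⁻ x in {x | DifferentiableAt ℝ g x ∧ e < deriv g x}, φ (g x) ≤
      ∫⁻ a, φ a := by
  obtain ⟨S, hS⟩ : ∃ S : Set ℝ, S = {x | DifferentiableAt ℝ g x ∧ e < deriv g x} := ⟨_, rfl⟩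
  have hSm : MeasurableSet S := by rw [hS]; exact meas_pos g e
  have h4 := lintegral_image_eq_lintegral_abs_deriv_mul (s := S) (f := g) (f' := deriv g) hSm
    (fun x hx => by
      rw [hS] at hx
      exact hx.1.hasDerivAt.hasDerivWithinAt)
    ((inj_pos hg).mono (by rw [hS]; exact fun x hx => ⟨hx.1, he.trans hx.2⟩)) φ
  rw [← hS]
  calc ENNReal.ofReal e * ∫⁻ x in S, φ (g x) = ∫⁻ x in S, ENNReal.ofReal e * φ (g x) := by
        rw [lintegral_const_mul' _ _ ENNReal.ofReal_ne_top]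
    _ ≤ ∫⁻ x in S, ENNReal.ofReal |deriv g x| * φ (g x) := by
        refine setLIntegral_mono' hSm fun x hx => ?_
        rw [hS] at hx
        exact mul_le_mul' (ENNReal.ofReal_le_ofReal (hx.2.le.trans (le_abs_self _))) le_rfl
    _ = ∫⁻ a in g '' S, φ a := h4.symm
    _ ≤ ∫⁻ a, φ a := setLIntegral_le_lintegral _ _

/-- The measure of the part in an interval, as an integral. -/
theorem part {E : Set ℝ} (hE : MeasurableSet E) (q a : ℝ) :
    volume (E ∩ Icc a (a + q)) =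
      ∫⁻ x, E.indicator (fun _ => (1 : ℝ≥0∞)) x * (Icc (x - q) x).indicator (fun _ => 1) a := by
  classical
  rw [← lintegral_indicator_one (hE.inter measurableSet_Icc)]
  refine lintegral_congr fun x => ?_
  by_cases hx : x ∈ E
  · by_cases hxa : x ∈ Icc a (a + q)
    · have h2 : a ∈ Icc (x - q) x := ⟨by linarith [hxa.2], hxa.1⟩
      have h3 : x ∈ (E ∩ Icc a (a + q) : Set ℝ) := ⟨hx, hxa⟩
      rw [indicator_of_mem h3, indicator_of_mem hx, indicator_of_mem h2, mul_one,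
        Pi.one_apply]
    · have h2 : a ∉ Icc (x - q) x := fun h => hxa ⟨h.2, by linarith [h.1]⟩
      rw [indicator_of_notMem (fun h => hxa h.2), indicator_of_notMem h2, mul_zero]
  · rw [indicator_of_notMem (fun h => hx h.1), indicator_of_notMem hx, zero_mul]

theorem part_meas {E : Set ℝ} (hE : MeasurableSet E) (q : ℝ) :
    Measurable (Function.uncurry fun a x => E.indicator (fun _ => (1 : ℝ≥0∞)) x *
        (Icc (x - q) x).indicator (fun _ => 1) a) := by
  have hm : MeasurableSet {p : ℝ × ℝ | p.2 ∈ E ∧ p.1 ∈ Icc (p.2 - q) p.2} := by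
    refine (hE.preimage measurable_snd).inter ?_
    have e1 : {p : ℝ × ℝ | p.1 ∈ Icc (p.2 - q) p.2} =
        {p : ℝ × ℝ | p.2 - q ≤ p.1} ∩ {p | p.1 ≤ p.2} := by
      ext p
      exact Iff.rfl
    show MeasurableSet {p : ℝ × ℝ | p.1 ∈ Icc (p.2 - q) p.2}
    rw [e1]
    exact (measurableSet_le (measurable_snd.sub_const q) measurable_fst).inter
      (measurableSet_le measurable_fst measurable_snd)
  have e2 : (Function.uncurry fun a x => E.indicator (fun _ => (1 : ℝ≥0∞)) x *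
      (Icc (x - q) x).indicator (fun _ => 1) a) =
      {p : ℝ × ℝ | p.2 ∈ E ∧ p.1 ∈ Icc (p.2 - q) p.2}.indicator (fun _ => 1) := by
    funext p
    obtain ⟨a, x⟩ := p
    show E.indicator (fun _ => (1 : ℝ≥0∞)) x * (Icc (x - q) x).indicator (fun _ => 1) a = _
    by_cases hx : x ∈ E
    · by_cases ha : a ∈ Icc (x - q) x
      · rw [indicator_of_mem hx, indicator_of_mem ha, mul_one, indicator_of_mem]
        exact ⟨hx, ha⟩
      · rw [indicator_of_notMem ha, mul_zero, indicator_of_notMem]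
        exact fun h => ha h.2
    · rw [indicator_of_notMem hx, zero_mul, indicator_of_notMem]
      exact fun h => hx h.1
  rw [e2]
  exact measurable_const.indicator hm

theorem mean_meas {E : Set ℝ} (hE : MeasurableSet E) (q : ℝ) :
    Measurable fun a => volume (E ∩ Icc a (a + q)) := by
  simp_rw [part hE q]
  exact (part_meas hE q).lintegral_prod_right

/-- The mean over the radii. -/
theorem mean {E : Set ℝ} (hE : MeasurableSet E) (q : ℝ) :
    ∫⁻ a, volume (E ∩ Icc a (a + q)) = ENNReal.ofReal q * volume E := by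
  simp_rw [part hE q]
  rw [lintegral_lintegral_swap]
  · have h2 : ∀ x, ∫⁻ a, E.indicator (fun _ => (1 : ℝ≥0∞)) x *
        (Icc (x - q) x).indicator (fun _ => 1) a =
        E.indicator (fun _ => (1 : ℝ≥0∞)) x * ENNReal.ofReal q := by
      intro x
      rw [lintegral_const_mul']
      · congr 1
        have : (Icc (x - q) x).indicator (fun _ => (1 : ℝ≥0∞)) =
            (Icc (x - q) x).indicator 1 := rfl
        rw [this, lintegral_indicator_one measurableSet_Icc, Real.volume_Icc]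
        congr 1
        ring
      · by_cases hx : x ∈ E
        · rw [indicator_of_mem hx]
          exact ENNReal.one_ne_top
        · rw [indicator_of_notMem hx]
          exact ENNReal.zero_ne_top
    simp_rw [h2]
    rw [lintegral_mul_const' _ _ ENNReal.ofReal_ne_top]
    have : E.indicator (fun _ => (1 : ℝ≥0∞)) = E.indicator 1 := rfl
    rw [this, lintegral_indicator_one hE, mul_comm]
  · exact (part_meas hE q).aemeasurable

/-! ### The strip -/

/-- **The strip.** -/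
theorem strip {P : ℝ → ℝ → ℝ} (hP : Law P) {ρ : ℝ → ℝ} {h w₁ : ℝ}
    (hJ : ∀ᵐ Q : ℝ, 0 < Q → Q < 1 → w₁ < Lv P (Q, 0) →
      DifferentiableAt ℝ (fun Q => Lv P (Q, 0)) Q → deriv (fun Q => Lv P (Q, 0)) Q = 0 →
      DifferentiableAt ℝ ρ Q → 1 - h ≤ deriv ρ Q)
    (hM : ∃ (B : ℝ → Set ℝ) (C q₀ : ℝ), 0 < q₀ ∧
      (∀ q q', 0 < q → q ≤ q' → q' < q₀ → B q ⊆ B q') ∧
      (∀ q, 0 < q → q < q₀ → volume (B q) ≤ ENNReal.ofReal (C * q)) ∧
      ∀ᵐ p : ℝ × ℝ, 0 < p.1 → p.1 < 1 → 0 < p.2 → p.2 < q₀ → w₁ < Lv P p - p.2 →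
        Lv P p ∉ B p.2 → DifferentiableAt ℝ (Lv P) p → 0 < fderiv ℝ (Lv P) p (0, 1) →
        DifferentiableAt ℝ ρ p.1 → 1 - h ≤ deriv ρ p.1)
    (hS : ∀ᵐ Q : ℝ, 0 < Q → Q < 1 → w₁ < Lv P (Q, 0) →
      (∀ ε : ℝ, 0 < ε → ∃ q₁ : ℝ, 0 < q₁ ∧ ∀ q : ℝ, 0 < q → q < q₁ →
        Lv P (Q, q) - Lv P (Q, 0) ≤ ε * q) →
      DifferentiableAt ℝ ρ Q → 1 - h ≤ deriv ρ Q) :
    ∀ᵐ Q : ℝ, 0 < Q → Q < 1 → w₁ < Lv P (Q, 0) → DifferentiableAt ℝ ρ Q →
      1 - h ≤ deriv ρ Q := by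
  classical
  obtain ⟨B, C, q₀, hq₀, hB, hBm, hM⟩ := hM
  obtain ⟨g, hg⟩ : ∃ g : ℝ → ℝ, g = fun Q => Lv P (Q, 0) := ⟨_, rfl⟩
  have hgl : LipschitzWith 1 g := by
    rw [hg]
    refine LipschitzWith.of_dist_le_mul fun x y => ?_
    refine ((Lv_lip hP).dist_le_mul _ _).trans ?_
    rw [Prod.dist_eq]
    simp
  have hgm : Monotone g := by
    rw [hg]
    exact fun x y hxy => Lv_mono hP ⟨hxy, le_rfl⟩
  obtain ⟨qk, hqk⟩ : ∃ qk : ℕ → ℝ, qk = fun k => q₀ / 2 * (1 / 2) ^ k := ⟨_, rfl⟩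
  have hqk0 : ∀ k, 0 < qk k := fun k => by rw [hqk]; positivity
  have hqk1 : ∀ k, qk k < q₀ := by
    intro k
    have h1 : ((1 : ℝ) / 2) ^ k ≤ 1 := pow_le_one₀ (by norm_num) (by norm_num)
    rw [hqk]
    show q₀ / 2 * (1 / 2) ^ k < q₀
    nlinarith
  have hqkt : Tendsto qk atTop (𝓝 0) := by
    rw [hqk]
    have := (tendsto_pow_atTop_nhds_zero_of_lt_one (r := (1 : ℝ) / 2) (by norm_num)
      (by norm_num)).const_mul (q₀ / 2)
    simpa using this
  obtain ⟨E, hE⟩ : ∃ E : ℕ → Set ℝ, E = fun k => toMeasurable volume (B (qk k)) := ⟨_, rfl⟩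
  have hEm : ∀ k, MeasurableSet (E k) := fun k => by
    rw [hE]
    exact measurableSet_toMeasurable _ _
  have hEB : ∀ k, B (qk k) ⊆ E k := fun k => by
    rw [hE]
    exact subset_toMeasurable _ _
  have hEv : ∀ k, volume (E k) ≤ ENNReal.ofReal (C * qk k) := fun k => by
    rw [hE]
    show volume (toMeasurable volume (B (qk k))) ≤ _
    rw [measure_toMeasurable]
    exact hBm _ (hqk0 k) (hqk1 k)
  obtain ⟨φ, hφ⟩ : ∃ φ : ℕ → ℝ → ℝ≥0∞, φ = fun k a =>
    volume (E k ∩ Icc a (a + qk k)) / ENNReal.ofReal (qk k) := ⟨_, rfl⟩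
  have hφm : ∀ k, Measurable (φ k) := fun k => by
    rw [hφ]
    exact (mean_meas (hEm k) (qk k)).div_const _
  have hqe : ∀ k, ENNReal.ofReal (qk k) ≠ 0 := fun k => by
    rw [Ne, ENNReal.ofReal_eq_zero, not_le]
    exact hqk0 k
  have hφi : ∀ k, ∫⁻ a, φ k a ≤ ENNReal.ofReal (C * qk k) := by
    intro k
    have h1 : ∫⁻ a, φ k a = volume (E k) := by
      rw [hφ]
      show ∫⁻ a, volume (E k ∩ Icc a (a + qk k)) / ENNReal.ofReal (qk k) = _
      simp_rw [div_eq_mul_inv]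
      rw [lintegral_mul_const' _ _ (ENNReal.inv_ne_top.2 (hqe k)), mean (hEm k) (qk k),
        mul_comm (ENNReal.ofReal (qk k)), mul_assoc,
        ENNReal.mul_inv_cancel (hqe k) ENNReal.ofReal_ne_top, mul_one]
    rw [h1]
    exact hEv k
  obtain ⟨ψ, hψ⟩ : ∃ ψ : ℝ → ℝ≥0∞, ψ = fun a => ∑' k, φ k a := ⟨_, rfl⟩
  have hψm : Measurable ψ := by
    rw [hψ]
    exact Measurable.tsum hφm
  have hψi : ∫⁻ a, ψ a ≠ ⊤ := by
    rw [hψ]
    show ∫⁻ a, ∑' k, φ k a ≠ ⊤
    rw [lintegral_tsum fun k => (hφm k).aemeasurable]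
    refine ne_top_of_le_ne_top ?_ (ENNReal.tsum_le_tsum hφi)
    have h1 : ∀ k, ENNReal.ofReal (C * qk k) ≤ ENNReal.ofReal (|C| * qk k) := fun k =>
      ENNReal.ofReal_le_ofReal (mul_le_mul_of_nonneg_right (le_abs_self C) (hqk0 k).le)
    refine ne_top_of_le_ne_top ?_ (ENNReal.tsum_le_tsum h1)
    rw [← ENNReal.ofReal_tsum_of_nonneg]
    · exact ENNReal.ofReal_ne_top
    · intro k
      exact mul_nonneg (abs_nonneg _) (hqk0 k).le
    · rw [hqk]
      exact ((summable_geometric_of_lt_one (by norm_num) (by norm_num)).mul_left _).mul_left _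
  -- the rows with a positive slope
  have hpos : ∀ n : ℕ, ∀ᵐ x : ℝ, x ∈ {x | DifferentiableAt ℝ g x ∧
      1 / ((n : ℝ) + 1) < deriv g x} → ψ (g x) < ⊤ := by
    intro n
    have he : (0 : ℝ) < 1 / ((n : ℝ) + 1) := by positivity
    have h1 := rows_le hgm he ψ
    have h2 : ∫⁻ x in {x | DifferentiableAt ℝ g x ∧ 1 / ((n : ℝ) + 1) < deriv g x},
        ψ (g x) ≠ ⊤ := by
      intro hc
      rw [hc, ENNReal.mul_top] at h1
      · exact hψi (top_le_iff.1 h1)
      · rw [Ne, ENNReal.ofReal_eq_zero, not_le]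
        exact he
    have h3 := ae_lt_top (hψm.comp hgl.continuous.measurable) h2
    rw [ae_restrict_iff' (meas_pos g _)] at h3
    exact h3
  have hpos' := ae_all_iff.2 hpos
  -- Fubini
  have hF : ∀ᵐ p : ℝ × ℝ, DifferentiableAt ℝ (Lv P) p ∧ (0 < p.1 → p.1 < 1 → 0 < p.2 →
      p.2 < q₀ → w₁ < Lv P p - p.2 → Lv P p ∉ B p.2 → DifferentiableAt ℝ (Lv P) p →
      0 < fderiv ℝ (Lv P) p (0, 1) → DifferentiableAt ℝ ρ p.1 → 1 - h ≤ deriv ρ p.1) := by
    filter_upwards [Lv_ae hP, hM] with p a b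
    exact ⟨a, b⟩
  rw [Measure.volume_eq_prod] at hF
  filter_upwards [hJ, hS, hpos', Measure.ae_ae_of_ae_prod hF, hgl.ae_differentiableAt_real]
    with Q k1 k2 k3 k4 k5 hQ0 hQ1 hw hd
  by_contra hcon
  have hg0 : 0 ≤ deriv g Q := hgm.deriv_nonneg
  rcases eq_or_lt_of_le hg0 with h0 | h0
  · refine hcon (k1 hQ0 hQ1 hw ?_ ?_ hd)
    · rw [hg] at k5
      exact k5
    · rw [hg] at h0
      exact h0.symm
  refine hcon (k2 hQ0 hQ1 hw ?_ hd)
  intro ε hε
  -- the values of the means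
  have hfin : ψ (g Q) < ⊤ := by
    obtain ⟨n, hn⟩ := exists_nat_one_div_lt h0
    exact k3 n ⟨k5, hn⟩
  have ht : Tendsto (fun k => φ k (g Q)) atTop (𝓝 0) := by
    rw [hψ] at hfin
    exact ENNReal.tendsto_atTop_zero_of_tsum_ne_top hfin.ne
  have e1 : ∀ᶠ k in atTop, φ k (g Q) < ENNReal.ofReal (ε / 2) :=
    (tendsto_order.1 ht).2 _ (ENNReal.ofReal_pos.2 (half_pos hε))
  have e3 : ∀ᶠ k in atTop, qk k < Lv P (Q, 0) - w₁ :=
    (tendsto_order.1 hqkt).2 _ (by linarith)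
  obtain ⟨k₀, hk₀⟩ := eventually_atTop.1 (e1.and e3)
  -- the path
  obtain ⟨f, hf⟩ : ∃ f : ℝ → ℝ, f = fun q => Lv P (Q, q) := ⟨_, rfl⟩
  have hfl : LipschitzWith 1 f := by
    rw [hf]
    refine LipschitzWith.of_dist_le_mul fun x y => ?_
    refine ((Lv_lip hP).dist_le_mul _ _).trans ?_
    rw [Prod.dist_eq]
    simp
  have hfm : Monotone f := by
    rw [hf]
    exact fun x y hxy => Lv_mono hP ⟨le_rfl, hxy⟩
  have main : ∀ k ≥ k₀, f (qk k) - f 0 ≤ ε / 2 * qk k := by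
   intro k hk
   obtain ⟨m1, m3⟩ := hk₀ k hk
   have hpath := path hfm hfl (hqk0 k).le (hEm k) (by
    filter_upwards [k4] with q hq hqI hqE hder
    obtain ⟨hq1, hq2⟩ := hq
    have h1 : HasDerivAt f (fderiv ℝ (Lv P) (Q, q) (0, 1)) q := by
      have h2 : HasDerivAt (fun t : ℝ => ((Q, t) : ℝ × ℝ)) (0, 1) q :=
        (hasDerivAt_const q Q).prodMk (hasDerivAt_id q)
      have h3 := hq1.hasFDerivAt.comp_hasDerivAt q h2
      rw [hf]
      exact h3
    have h4 : Lv P (Q, 0) ≤ Lv P (Q, q) := Lv_mono hP ⟨le_rfl, hqI.1.le⟩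
    refine hcon (hq2 hQ0 hQ1 hqI.1 (hqI.2.trans (hqk1 k)) ?_ ?_ hq1 ?_ hd)
    · show w₁ < Lv P (Q, q) - q
      linarith [hqI.2]
    · intro hmem
      refine hqE (hEB k (hB q (qk k) hqI.1 hqI.2.le (hqk1 k) ?_))
      rw [hf]
      exact hmem
    · rw [← h1.deriv]
      exact hder)
   have hstep : f (qk k) ≤ f 0 + qk k := by
     have := hfl.dist_le_mul (qk k) 0
     rw [Real.dist_eq, Real.dist_eq, NNReal.coe_one, one_mul, sub_zero,
       abs_of_pos (hqk0 k)] at this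
     linarith [(abs_le.1 this).2]
   have h5 : ENNReal.ofReal (f (qk k) - f 0) ≤
       ENNReal.ofReal (ε / 2) * ENNReal.ofReal (qk k) := by
     refine hpath.trans ?_
     have h6 : volume (E k ∩ Icc (f 0) (f (qk k))) ≤
         volume (E k ∩ Icc (g Q) (g Q + qk k)) := by
       refine measure_mono (inter_subset_inter_right _ (Icc_subset_Icc ?_ ?_))
       · rw [hf, hg]
       · rw [hf] at hstep ⊢
         rw [hg]
         exact hstep
     refine h6.trans ?_
     have h7 : volume (E k ∩ Icc (g Q) (g Q + qk k)) =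
         φ k (g Q) * ENNReal.ofReal (qk k) := by
       rw [hφ]
       show _ = volume (E k ∩ Icc (g Q) (g Q + qk k)) / ENNReal.ofReal (qk k) *
         ENNReal.ofReal (qk k)
       rw [ENNReal.div_mul_cancel (hqe k) ENNReal.ofReal_ne_top]
     rw [h7]
     exact mul_le_mul' m1.le le_rfl
   rw [← ENNReal.ofReal_mul (half_pos hε).le] at h5
   exact (ENNReal.ofReal_le_ofReal_iff (mul_nonneg (half_pos hε).le (hqk0 k).le)).1 h5
  refine ⟨qk k₀, hqk0 k₀, fun q hq hqk' => ?_⟩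
  have hy : q / qk k₀ ≤ 1 := (div_le_one (hqk0 k₀)).2 hqk'.le
  obtain ⟨n, hn1, hn2⟩ := exists_nat_pow_near_of_lt_one (div_pos hq (hqk0 k₀)) hy
    (by norm_num : (0 : ℝ) < 1 / 2) (by norm_num)
  have e4 : qk (k₀ + n) = qk k₀ * (1 / 2) ^ n := by
    rw [hqk]
    show q₀ / 2 * (1 / 2) ^ (k₀ + n) = q₀ / 2 * (1 / 2) ^ k₀ * (1 / 2) ^ n
    rw [pow_add, mul_assoc]
  have e5 : q ≤ qk (k₀ + n) := by
    rw [e4, mul_comm]
    exact (div_le_iff₀ (hqk0 k₀)).1 hn2
  have e6 : qk (k₀ + n) < 2 * q := by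
    rw [e4]
    have := (lt_div_iff₀ (hqk0 k₀)).1 hn1
    rw [pow_succ] at this
    linarith
  have e7 := main (k₀ + n) (Nat.le_add_right _ _)
  have e8 : f q ≤ f (qk (k₀ + n)) := hfm e5
  have e9 : ε / 2 * qk (k₀ + n) ≤ ε / 2 * (2 * q) :=
    mul_le_mul_of_nonneg_left e6.le (half_pos hε).le
  rw [hf] at e7 e8
  show Lv P (Q, q) - Lv P (Q, 0) ≤ ε * q
  simp only at e7 e8
  linarith

/-! ### The numbers of a class -/

/-- **(J)** Rows in the jumps and in the singular part of the diagonal threshold are full. -/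
def JmpN (P : ℝ → ℝ → ℝ) (ρ : ℝ → ℝ) : Prop :=
  ∀ h : ℝ, 0 < h → ∀ᵐ Q : ℝ, 0 < Q → Q < 1 → 0 < Lv P (Q, 0) →
    DifferentiableAt ℝ (fun Q => Lv P (Q, 0)) Q → deriv (fun Q => Lv P (Q, 0)) Q = 0 →
    DifferentiableAt ℝ ρ Q → 1 - h ≤ deriv ρ Q

/-- **(M)** In the strip, outside small sets of radii which are increasing in `q`, the rows of
thresholds which depend on the window are full. -/
def MicN (P : ℝ → ℝ → ℝ) (ρ : ℝ → ℝ) : Prop :=
  ∀ h w₁ : ℝ, 0 < h → 0 < w₁ → ∃ (B : ℝ → Set ℝ) (C q₀ : ℝ), 0 < q₀ ∧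
    (∀ q q', 0 < q → q ≤ q' → q' < q₀ → B q ⊆ B q') ∧
    (∀ q, 0 < q → q < q₀ → volume (B q) ≤ ENNReal.ofReal (C * q)) ∧
    ∀ᵐ p : ℝ × ℝ, 0 < p.1 → p.1 < 1 → 0 < p.2 → p.2 < q₀ → w₁ < Lv P p - p.2 →
      Lv P p ∉ B p.2 → DifferentiableAt ℝ (Lv P) p → 0 < fderiv ℝ (Lv P) p (0, 1) →
      DifferentiableAt ℝ ρ p.1 → 1 - h ≤ deriv ρ p.1

/-- The thresholds of the row `Q` do not depend on the window, in the limit `q → 0`. -/
def WfN (P : ℝ → ℝ → ℝ) (Q : ℝ) : Prop :=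
  ∀ ε : ℝ, 0 < ε → ∃ q₁ : ℝ, 0 < q₁ ∧ ∀ q : ℝ, 0 < q → q < q₁ →
    Lv P (Q, q) - Lv P (Q, 0) ≤ ε * q

/-- **(S)** Window free rows are full. -/
def StaN (P : ℝ → ℝ → ℝ) (ρ : ℝ → ℝ) : Prop :=
  ∀ h : ℝ, 0 < h → ∀ᵐ Q : ℝ, 0 < Q → Q < 1 → 0 < Lv P (Q, 0) → WfN P Q →
    DifferentiableAt ℝ ρ Q → 1 - h ≤ deriv ρ Q

/-- **The rows in the strip**: almost all rows of macroscopic windows are full. -/
theorem full {P : ℝ → ℝ → ℝ} (hP : Law P) {ρ : ℝ → ℝ} (hJ : JmpN P ρ) (hM : MicN P ρ)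
    (hS : StaN P ρ) : ∀ᵐ Q : ℝ, 0 < Q → Q < 1 → 0 < Lv P (Q, 0) → DifferentiableAt ℝ ρ Q →
      1 ≤ deriv ρ Q := by
  have h1 : ∀ n : ℕ, ∀ᵐ Q : ℝ, 0 < Q → Q < 1 → 1 / ((n : ℝ) + 1) < Lv P (Q, 0) →
      DifferentiableAt ℝ ρ Q → 1 - 1 / ((n : ℝ) + 1) ≤ deriv ρ Q := by
    intro n
    have hn : (0 : ℝ) < 1 / ((n : ℝ) + 1) := by positivity
    refine strip hP ?_ (hM _ _ hn hn) ?_
    · filter_upwards [hJ _ hn] with Q hQ a b c
      exact hQ a b (hn.trans c)
    · filter_upwards [hS _ hn] with Q hQ a b c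
      exact hQ a b (hn.trans c)
  filter_upwards [ae_all_iff.2 h1] with Q hQ a b c d
  by_contra hcon
  push Not at hcon
  obtain ⟨n, hn⟩ := exists_nat_one_div_lt (lt_min c (sub_pos.2 hcon))
  have h2 := hQ n a b (hn.trans_le (min_le_left _ _)) d
  have h3 := hn.trans_le (min_le_right _ _)
  linarith

/-- Rows which are almost all full cost the full price. -/
theorem cost {ρ : ℝ → ℝ} {G : ℝ} (hr : MonotoneOn ρ (Icc G 1)) (hG : G ≤ 1)
    (h : ∀ᵐ Q : ℝ, G < Q → Q < 1 → DifferentiableAt ℝ ρ Q → 1 ≤ deriv ρ Q) :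
    1 - G ≤ ρ 1 - ρ G := by
  have hr' : MonotoneOn ρ (uIcc G 1) := by rwa [uIcc_of_le hG]
  have h1 := hr'.intervalIntegral_deriv_mem_uIcc
  have h2 : ρ G ≤ ρ 1 := hr (left_mem_Icc.2 hG) (right_mem_Icc.2 hG) hG
  rw [uIcc_of_le (by linarith)] at h1
  have h3 : ∀ᵐ Q : ℝ, Q ∈ Icc G 1 → (1 : ℝ) ≤ deriv ρ Q := by
    have h4 : ∀ᵐ Q : ℝ, Q ∈ Icc G 1 → DifferentiableWithinAt ℝ ρ (Icc G 1) Q :=
      hr.ae_differentiableWithinAt_of_mem
    have h5 : ∀ᵐ Q : ℝ, Q ≠ G ∧ Q ≠ 1 := by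
      have h6 : ∀ᵐ Q : ℝ, Q ≠ G := by simp [ae_iff, measure_singleton]
      have h7 : ∀ᵐ Q : ℝ, Q ≠ 1 := by simp [ae_iff, measure_singleton]
      filter_upwards [h6, h7] with Q a b using ⟨a, b⟩
    filter_upwards [h, h4, h5] with Q hQ hQ4 hQ5 hQI
    have h6 : G < Q := lt_of_le_of_ne hQI.1 (Ne.symm hQ5.1)
    have h7 : Q < 1 := lt_of_le_of_ne hQI.2 hQ5.2
    exact hQ h6 h7 ((hQ4 hQI).differentiableAt (Icc_mem_nhds h6 h7))
  have h4 : ∫ _ in G..1, (1 : ℝ) ≤ ∫ Q in G..1, deriv ρ Q := by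
    rw [intervalIntegral.integral_of_le hG, intervalIntegral.integral_of_le hG,
      ← integral_Icc_eq_integral_Ioc, ← integral_Icc_eq_integral_Ioc]
    refine setIntegral_mono_ae_restrict ?_ ?_ ?_
    · exact (integrableOn_const (by simp) (by simp))
    · have h5 := hr'.intervalIntegrable_deriv
      exact (intervalIntegrable_iff_integrableOn_Icc_of_le hG).1 h5
    · rw [Filter.EventuallyLE, ae_restrict_iff' measurableSet_Icc]
      exact h3
  rw [intervalIntegral.integral_const, smul_eq_mul, mul_one] at h4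
  linarith only [h1.2, h4]

/-- **The assembly in the strip.** The rows above the diagonal threshold of a macroscopic window
cost the full price. -/
theorem rows {P : ℝ → ℝ → ℝ} (hP : Law P) {ρ : ℝ → ℝ} {w : ℝ} (hw : 0 < w) (hw1 : w ≤ 1)
    (hG0 : 0 ≤ P w w) (hG : P w w ≤ 1) (hr : MonotoneOn ρ (Icc (P w w) 1)) (hJ : JmpN P ρ)
    (hM : MicN P ρ) (hS : StaN P ρ) : 1 - P w w ≤ ρ 1 - ρ (P w w) := by
  refine cost hr hG ?_
  filter_upwards [full hP hJ hM hS] with Q hQ h1 h2 hd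
  have h0 : 0 < Q := hG0.trans_lt h1
  refine hQ h0 h2 ?_ hd
  rw [Lv_eq le_rfl zero_le_one h0.le h2.le]
  refine lt_of_lt_of_le hw (le_csInf ⟨1, one_mem zero_le_one⟩ ?_)
  rintro a ⟨a1, a2, a3⟩
  by_contra hc
  push Not at hc
  rcases a3 with a3 | a3
  · rw [sub_zero] at a3
    have := hP.mono a1 le_rfl hc.le hc.le le_rfl hw1
    linarith
  · linarith

/-- The contradiction. -/
theorem asm {P : ℝ → ℝ → ℝ} (hP : Law P) {ρ : ℝ → ℝ} {w c : ℝ} (hw : 0 < w) (hw1 : w ≤ 1)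
    (hG0 : 0 ≤ P w w) (hG : P w w < 1) (hr : MonotoneOn ρ (Icc (P w w) 1)) (hc : 0 < c)
    (F1 : ρ 1 - ρ (P w w) ≤ (1 - c) * (1 - P w w)) (hJ : JmpN P ρ) (hM : MicN P ρ)
    (hS : StaN P ρ) : False := by
  have h1 := rows hP hw hw1 hG0 hG.le hr hJ hM hS
  have h2 : 0 < c * (1 - P w w) := mul_pos hc (by linarith)
  linarith only [h1, h2, F1]

end Pool.STR
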