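import Pool.Agent.H39.GEN.Zfin

/-!
# Rows at the windows with slope `λ` in the radius and a positive slope in the window

`UpS P g D σ λ`: near the window `g` the threshold is at most the affine number with the slope `σ` on
the diagonal and `λ` in the radius (`λ = 1`: `RgUp`). The rows of such windows, `λ < σ`, are not free
from the window (`not_wfuS`). `zfinL`: the theorem `zfin` for such windows.
-/

set_option autoImplicit false

namespace Pool.ZFN

open MeasureTheory Set Filter Topology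
open Finset (range univ)
open Pool.Agent.H49.Ent Pool.Agent.H32.Dense Pool.STK Pool.KA Pool.KSAT Pool.K2S Pool.PB Pool.S6C
open Pool.GEN Pool.ONE Pool.EXW Pool.TOP
open Pool.LEV (Law Lv lev lset Lv_eq lev_le le_lev lev_le_one lset_bdd one_mem Lv_lip Lv_mono)
open Pool.STR
open Pool.LBT (LSys ThrOf)
open Pool.ALL (RateOf numxI)
open Pool.GRW (ini_fam)
open Pool.GEN.N83 (oth)

section

variable {P : ℝ → ℝ → ℝ} {ρ : ℝ → ℝ}

/-- **The upper number** near the window `g`: slope `σ` on the diagonal, `lm` in the radius. -/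
def UpS (P : ℝ → ℝ → ℝ) (g D σ lm : ℝ) : Prop :=
  ∀ e : ℝ, 0 < e → ∃ r₁ : ℝ, 0 < r₁ ∧ ∀ r : ℝ, 0 < r → r < r₁ → ∀ a w : ℝ, g - r ≤ w → w ≤ a →
    a ≤ g + r → P a w ≤ D + σ * (w - g) + lm * (a - w) + e * r

theorem ups_one {g D σ : ℝ} : UpS P g D σ 1 ↔ RgUp P g D σ := by
  unfold UpS RgUp
  simp only [one_mul]

/-- The level of the rows near `D`. -/
theorem lev_nearS (hP : Law P) {g D σ lm : ℝ} (hg0 : 0 < g) (hg1 : g < 1) (hσ : 0 < σ) (hD0 : 0 < D)
    (hD1 : D < 1) (hU : UpS P g D σ lm) (hL : DgLo P g D σ) {ε : ℝ} (hε : 0 < ε) (hε1 : ε ≤ 1 / 2) :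
    ∃ r₁ : ℝ, 0 < r₁ ∧ ∀ r : ℝ, 0 < r → r < r₁ → ∀ Q : ℝ, |Q - D| ≤ σ * r / 2 →
      |Lv P (Q, 0) - (g + (Q - D) / σ)| ≤ ε * r := by
  obtain ⟨r₂, hr₂, h2⟩ := hU (σ * ε / 2) (by positivity)
  obtain ⟨r₃, hr₃, h3⟩ := hL (σ * ε / 2) (by positivity)
  refine ⟨min (min r₂ r₃) (min (min g (1 - g)) (min (D / σ) ((1 - D) / σ))), ?_,
    fun r hr hr' Q hQ => ?_⟩
  · exact lt_min (lt_min hr₂ hr₃) (lt_min (lt_min hg0 (by linarith))
      (lt_min (by positivity) (div_pos (by linarith) hσ)))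
  have m1 : r < r₂ := (hr'.trans_le (min_le_left _ _)).trans_le (min_le_left _ _)
  have m2 : r < r₃ := (hr'.trans_le (min_le_left _ _)).trans_le (min_le_right _ _)
  have m3 := hr'.trans_le (min_le_right _ _)
  have m4 : r < g := (m3.trans_le (min_le_left _ _)).trans_le (min_le_left _ _)
  have m5 : r < 1 - g := (m3.trans_le (min_le_left _ _)).trans_le (min_le_right _ _)
  have m6 : r < D / σ := (m3.trans_le (min_le_right _ _)).trans_le (min_le_left _ _)
  have m7 : r < (1 - D) / σ := (m3.trans_le (min_le_right _ _)).trans_le (min_le_right _ _)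
  rw [lt_div_iff₀ hσ] at m6 m7
  obtain ⟨x, hx⟩ : ∃ x, x = (Q - D) / σ := ⟨_, rfl⟩
  have hxσ : σ * x = Q - D := by
    rw [hx]
    field_simp
  have hx1 : |x| ≤ r / 2 := by
    have h4 : |σ * x| ≤ σ * r / 2 := by rw [hxσ]; exact hQ
    rw [abs_mul, abs_of_pos hσ] at h4
    have h5 : σ * |x| ≤ σ * (r / 2) := by linarith
    exact le_of_mul_le_mul_left h5 hσ
  have hx2 := abs_le.1 hx1
  have hQ2 := abs_le.1 hQ
  have hQ0 : 0 ≤ Q := by nlinarith
  have hQ1 : Q ≤ 1 := by nlinarith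
  have hεr : ε * r ≤ r / 2 := by nlinarith
  have hεr0 : 0 < ε * r := mul_pos hε hr
  rw [← hx, Lv_eq le_rfl zero_le_one hQ0 hQ1, abs_le]
  constructor
  · -- the lower bound
    obtain ⟨v, hv⟩ : ∃ v, v = g + x - ε * r := ⟨_, rfl⟩
    have h4 := h2 r hr m1 v v (by linarith) le_rfl (by linarith)
    have h5 : P v v < Q := by
      have h6 : D + σ * (v - g) = Q - σ * (ε * r) := by
        rw [hv]
        linear_combination hxσ
      have h7 : 0 < σ * (ε * r) := by positivity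
      have h8 : σ * ε / 2 * r = σ * (ε * r) / 2 := by ring
      linarith
    have h6 : v ≤ lev P Q 0 := by
      refine le_csInf ⟨1, one_mem zero_le_one⟩ ?_
      rintro a ⟨k1, k2, k3⟩
      by_contra hcon
      push Not at hcon
      rcases k3 with k3 | k3
      · rw [sub_zero] at k3
        have h7 := hP.mono (a := a) (a' := v) (w := a) (w' := v) k1 le_rfl hcon.le hcon.le le_rfl
          (by linarith)
        linarith
      · linarith
    linarith
  · -- the upper bound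
    obtain ⟨v, hv⟩ : ∃ v, v = g + x + ε * r := ⟨_, rfl⟩
    have h4 := h3 r hr m2 v (by linarith) (by linarith)
    have h5 : Q ≤ P v v := by
      have h6 : D + σ * (v - g) = Q + σ * (ε * r) := by
        rw [hv]
        linear_combination hxσ
      have h7 : 0 < σ * (ε * r) := by positivity
      have h8 : σ * ε / 2 * r = σ * (ε * r) / 2 := by ring
      linarith
    have h6 : lev P Q 0 ≤ v := by
      refine lev_le ⟨by linarith, by linarith, Or.inl ?_⟩
      rw [sub_zero]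
      exact h5
    linarith

/-- **The level of a rough row.** -/
theorem lv_eqS (hP : Law P) {g D σ lm : ℝ} (hg0 : 0 < g) (hg1 : g < 1) (hσ : 0 < σ) (hD0 : 0 < D)
    (hD1 : D < 1) (hU : UpS P g D σ lm) (hL : DgLo P g D σ) : Lv P (D, 0) = g := by
  by_contra hne
  have hpos : 0 < |Lv P (D, 0) - g| := abs_pos.2 (sub_ne_zero.2 hne)
  obtain ⟨r₁, hr₁, h1⟩ := lev_nearS hP hg0 hg1 hσ hD0 hD1 hU hL (ε := 1 / 2) (by norm_num) le_rfl
  have h2 := h1 (min (r₁ / 2) |Lv P (D, 0) - g|) (lt_min (by linarith) hpos)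
    (lt_of_le_of_lt (min_le_left _ _) (by linarith)) D (by
      rw [sub_self, abs_zero]
      have : 0 < min (r₁ / 2) |Lv P (D, 0) - g| := lt_min (by linarith) hpos
      positivity)
  rw [sub_self, zero_div, add_zero] at h2
  have h3 : min (r₁ / 2) |Lv P (D, 0) - g| ≤ |Lv P (D, 0) - g| := min_le_right _ _
  linarith

/-- **The derivative of the level at a rough row.** -/
theorem lv_derivS (hP : Law P) {g D σ lm : ℝ} (hg0 : 0 < g) (hg1 : g < 1) (hσ : 0 < σ) (hD0 : 0 < D)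
    (hD1 : D < 1) (hU : UpS P g D σ lm) (hL : DgLo P g D σ) :
    HasDerivAt (fun Q => Lv P (Q, 0)) (1 / σ) D := by
  rw [hasDerivAt_iff_isLittleO, Asymptotics.isLittleO_iff]
  intro c hc
  obtain ⟨ε, hε⟩ : ∃ ε, ε = min (1 / 2) (c * σ / 2) := ⟨_, rfl⟩
  have hε0 : 0 < ε := by rw [hε]; exact lt_min (by norm_num) (by positivity)
  have hε1 : ε ≤ 1 / 2 := by rw [hε]; exact min_le_left _ _
  have hε2 : ε ≤ c * σ / 2 := by rw [hε]; exact min_le_right _ _
  obtain ⟨r₁, hr₁, h1⟩ := lev_nearS hP hg0 hg1 hσ hD0 hD1 hU hL hε0 hε1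
  have h2 : ∀ᶠ Q in 𝓝 D, |Q - D| < σ * r₁ / 2 := by
    have h3 : Tendsto (fun Q : ℝ => |Q - D|) (𝓝 D) (𝓝 |D - D|) := by
      have : Continuous fun Q : ℝ => |Q - D| := by fun_prop
      exact this.tendsto D
    rw [sub_self, abs_zero] at h3
    exact h3.eventually (gt_mem_nhds (by positivity))
  filter_upwards [h2] with Q hQ
  rw [lv_eqS hP hg0 hg1 hσ hD0 hD1 hU hL, Real.norm_eq_abs, Real.norm_eq_abs, smul_eq_mul]
  by_cases hQD : Q = D
  · subst hQD
    rw [lv_eqS hP hg0 hg1 hσ hD0 hD1 hU hL]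
    simp
  have hpos : 0 < |Q - D| := abs_pos.2 (sub_ne_zero.2 hQD)
  obtain ⟨r, hr⟩ : ∃ r, r = 2 * |Q - D| / σ := ⟨_, rfl⟩
  have hrσ : σ * r = 2 * |Q - D| := by
    rw [hr]
    field_simp
  have hr0 : 0 < r := by rw [hr]; positivity
  have hr1 : r < r₁ := by
    have h4 : σ * r < σ * r₁ := by linarith
    exact lt_of_mul_lt_mul_left h4 hσ.le
  have h4 := h1 r hr0 hr1 Q (by linarith)
  have h5 : Lv P (Q, 0) - g - (Q - D) * (1 / σ) = Lv P (Q, 0) - (g + (Q - D) / σ) := by ring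
  rw [h5]
  refine h4.trans ?_
  calc ε * r ≤ c * σ / 2 * r := mul_le_mul_of_nonneg_right hε2 hr0.le
    _ = c / 2 * (σ * r) := by ring
    _ = c * |Q - D| := by rw [hrσ]; ring

/-- **Such a row is not free from the window.** -/
theorem not_wfuS (hP : Law P) {g D σ lm : ℝ} (hg0 : 0 < g) (hg1 : g < 1) (hlm : 0 ≤ lm)
    (hσ : lm < σ) (hD0 : 0 < D) (hD1 : D < 1) (hU : UpS P g D σ lm) (hL : DgLo P g D σ) :
    ¬ WfU P D := by
  intro hW
  obtain ⟨c, hc⟩ : ∃ c, c = (σ - lm) / (2 * σ) := ⟨_, rfl⟩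
  have hσ0 : 0 < σ := by linarith
  have hc0 : 0 < c := by rw [hc]; exact div_pos (by linarith) (by linarith)
  have hcσ : σ * c = (σ - lm) / 2 := by
    rw [hc]
    field_simp
  have hc1 : c ≤ 1 := by
    by_contra h
    push Not at h
    have : σ * 1 < σ * c := mul_lt_mul_of_pos_left h hσ0
    linarith
  obtain ⟨r₁, hr₁, h1⟩ := hW (c / 2) (by linarith)
  obtain ⟨r₂, hr₂, h2⟩ := hU ((σ - lm) / 8) (by linarith)
  obtain ⟨r, hr⟩ : ∃ r, r = min (min (r₁ / 2) (r₂ / 4)) (min (g / 2) ((1 - g) / 4)) := ⟨_, rfl⟩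
  have hr0 : 0 < r := by
    rw [hr]
    exact lt_min (lt_min (by linarith) (by linarith)) (lt_min (by linarith) (by linarith))
  have hr1 : r ≤ r₁ / 2 := by
    rw [hr]
    exact (min_le_left _ _).trans (min_le_left _ _)
  have hr2 : r ≤ r₂ / 4 := by
    rw [hr]
    exact (min_le_left _ _).trans (min_le_right _ _)
  have hr3 : r ≤ g / 2 := by
    rw [hr]
    exact (min_le_right _ _).trans (min_le_left _ _)
  have hr4 : r ≤ (1 - g) / 4 := by
    rw [hr]
    exact (min_le_right _ _).trans (min_le_right _ _)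
  have h3 := h1 r hr0 (by linarith) D (by rw [sub_self, abs_zero]; exact hr0.le)
  rw [lv_eqS hP hg0 hg1 hσ0 hD0 hD1 hU hL] at h3
  have hcr : c * r ≤ r := by nlinarith
  have h4 : g + c * r ≤ Lv P (D, r) := by
    rw [Lv_eq hr0.le (by linarith) hD0.le hD1.le]
    refine le_csInf ⟨1, one_mem (by linarith)⟩ ?_
    rintro a ⟨k1, k2, k3⟩
    by_contra hcon
    push Not at hcon
    rcases k3 with k3 | k3
    · obtain ⟨v, hv⟩ : ∃ v, v = g + c * r := ⟨_, rfl⟩
      have h5 := hP.mono (a := a) (a' := v) (w := a - r) (w' := v - r) (by linarith) (by linarith)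
        (by linarith) (by linarith) (by linarith) (by linarith)
      have hcr0 : 0 < c * r := mul_pos hc0 hr0
      have h6 := h2 (2 * r) (by linarith) (by linarith) v (v - r) (by linarith) (by linarith)
        (by linarith)
      have h7 : σ * (v - r - g) = (σ - lm) / 2 * r - σ * r := by
        rw [hv]
        linear_combination r * hcσ
      have h8 : 0 < (σ - lm) * r := mul_pos (by linarith) hr0
      have h9 : v - (v - r) = r := by ring
      rw [h7, h9] at h6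
      nlinarith
    · linarith
  have h5 : 0 < c * r := mul_pos hc0 hr0
  linarith

/-- **The rows of the windows** in `E` with the slope `lm` in the radius and a larger slope on the
diagonal have deficits at most `h`. -/
def RgFullL (P : ℝ → ℝ → ℝ) (ρ : ℝ → ℝ) (h : ℝ) (lm : ℝ → ℝ) (E : Set ℝ) : Prop :=
  ∀ᵐ Q : ℝ, 0 < Q → Q < 1 → ∀ g ∈ E, ∀ σ : ℝ, 0 < g → g < 1 → 0 ≤ lm g → lm g < σ →
    UpS P g Q σ (lm g) → DgLo P g Q σ → 1 - h ≤ deriv ρ Q

theorem RgFullL.one {h : ℝ} {E : Set ℝ} : RgFullL P ρ h (fun _ => 1) E ↔ RgFull P ρ h E := by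
  unfold RgFullL RgFull
  simp only [ups_one]
  constructor
  · intro H
    filter_upwards [H] with Q h1 h2 h3 g hg σ h4 h5 h6 h7 h8
    exact h1 h2 h3 g hg σ h4 h5 zero_le_one h6 h7 h8
  · intro H
    filter_upwards [H] with Q h1 h2 h3 g hg σ h4 h5 _ h6 h7 h8
    exact h1 h2 h3 g hg σ h4 h5 h6 h7 h8

theorem rgFullL_micE {h : ℝ} (hP : Law P) (hρ : LipschitzWith 1 ρ) (hM : MicE P ρ h)
    (lm : ℝ → ℝ) (E : Set ℝ) : RgFullL P ρ h lm E := by
  filter_upwards [hM, hρ.ae_differentiableAt_real] with Q h1 h2 h3 h4 g _ σ h5 h6 hlm h7 h8 h9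
  by_contra hcon
  push Not at hcon
  have hσ : 0 < σ := by linarith
  have k1 := lv_eqS hP h5 h6 hσ h3 h4 h8 h9
  have k2 := lv_derivS hP h5 h6 hσ h3 h4 h8 h9
  refine not_wfuS hP h5 h6 hlm h7 h3 h4 h8 h9 (h1 h3 h4 ?_ k2.differentiableAt ?_ h2 hcon)
  · rw [k1]
    exact h5
  · rw [k2.deriv]
    positivity

theorem rgFullL_micW (hP : Law P) (hρ : LipschitzWith 1 ρ) (hM : MicW P ρ) (lm : ℝ → ℝ)
    (E : Set ℝ) : RgFullL P ρ 0 lm E := by
  filter_upwards [hM, hρ.ae_differentiableAt] with Q h1 h2 h3 h4 g _ σ h5 h6 hlm h7 h8 h9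
  rw [sub_zero]
  by_contra hcon
  push Not at hcon
  have hσ : 0 < σ := by linarith
  have k1 := lv_eqS hP h5 h6 hσ h3 h4 h8 h9
  have k2 := lv_derivS hP h5 h6 hσ h3 h4 h8 h9
  refine not_wfuS hP h5 h6 hlm h7 h3 h4 h8 h9 (h1 h3 h4 ?_ k2.differentiableAt ?_ h2 hcon)
  · rw [k1]
    exact h5
  · rw [k2.deriv]
    positivity

/-- From the micro input for the rows of large deficit. -/
theorem rgFullL_rt {h : ℝ} (hP : Law P) (hρ : LipschitzWith 1 ρ) (hρm : Monotone ρ) (hh : 0 ≤ h)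
    (hM : MicW P (rt ρ h)) (lm : ℝ → ℝ) (E : Set ℝ) : RgFullL P ρ h lm E := by
  filter_upwards [rgFullL_micW hP (rt_lip hρ hρm) hM lm E, rt_deriv (h := h) hρ hρm] with Q h1 h2
    h3 h4 g hg σ h5 h6 hlm h7 h8 h9
  have h10 := h1 h3 h4 g hg σ h5 h6 hlm h7 h8 h9
  rw [sub_zero, h2.deriv] at h10
  unfold rtd at h10
  split_ifs at h10
  · assumption
  · linarith

/-- **There are many rows of small deficit.** -/
theorem rg_mainL {h : ℝ} (hP : Law P) (hρ : LipschitzWith 1 ρ) (hρm : Monotone ρ) {E : Set ℝ}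
    {lm : ℝ → ℝ} (hM : RgFullL P ρ h lm E) (hh : h ≤ 1) {D σ : ℝ → ℝ} {s₀ Q₀ Qb : ℝ} (hs : 1 < s₀) (h0 : 0 ≤ Q₀)
    (h01 : Q₀ ≤ Qb) (hb : Qb ≤ 1) (hE : ∀ w ∈ E, 0 < w ∧ w < 1 ∧ s₀ ≤ σ w ∧
      0 ≤ lm w ∧ lm w < σ w ∧
      UpS P w (D w) (σ w) (lm w) ∧ DgLo P w (D w) (σ w) ∧ Q₀ < D w ∧ D w < Qb) :
    ENNReal.ofReal ((1 - h) * s₀) * volume E ≤ ENNReal.ofReal (ρ Qb - ρ Q₀) := by
  obtain ⟨f, hf⟩ : ∃ f : ℝ → ℝ, f = fun Q => Lv P (Q, 0) := ⟨_, rfl⟩
  have hs0 : 0 < s₀ := by linarith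
  have hder : ∀ w ∈ E, HasDerivAt f (1 / σ w) (D w) ∧ f (D w) = w := by
    intro w hw
    obtain ⟨h1, h2, h3, -, -, h4, h5, h6, h7⟩ := hE w hw
    rw [hf]
    exact ⟨lv_derivS hP h1 h2 (by linarith) (by linarith) (by linarith) h4 h5,
      lv_eqS hP h1 h2 (by linarith) (by linarith) (by linarith) h4 h5⟩
  have h1 : volume E ≤ ENNReal.ofReal (1 / s₀) * volume (D '' E) := by
    refine (measure_mono (t := f '' (D '' E)) fun w hw => ?_).trans (image_le ?_)
    · exact ⟨D w, ⟨w, hw, rfl⟩, (hder w hw).2⟩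
    · rintro _ ⟨w, hw, rfl⟩
      refine ⟨(hder w hw).1.differentiableAt, ?_⟩
      have h2 := (hE w hw).2.2.1
      have h3 : 0 < σ w := by linarith
      rw [(hder w hw).1.deriv, abs_of_pos (by positivity)]
      exact one_div_le_one_div_of_le hs0 h2
  obtain ⟨M, hMd⟩ : ∃ M, M = Ioo Q₀ Qb ∩ {Q | 1 - h ≤ deriv ρ Q} := ⟨_, rfl⟩
  have hMm : MeasurableSet M := by
    rw [hMd]
    exact measurableSet_Ioo.inter (measurableSet_le measurable_const (measurable_deriv ρ))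
  have h2 : volume (D '' E) ≤ volume M := by
    refine measure_mono_ae ?_
    filter_upwards [hM] with Q hQ
    rintro ⟨w, hw, rfl⟩
    obtain ⟨a1, a2, a3, b1, b2, a4, a5, a6, a7⟩ := hE w hw
    rw [hMd]
    exact ⟨⟨a6, a7⟩, hQ (by linarith) (by linarith) w hw (σ w) a1 a2 b1 b2 a4 a5⟩
  have hAC := (hρ.lipschitzOnWith (s := uIcc Q₀ Qb)).absolutelyContinuousOnInterval
  have hint : ∫ Q in Q₀..Qb, deriv ρ Q = ρ Qb - ρ Q₀ := hAC.integral_deriv_eq_sub
  have hii : IntegrableOn (deriv ρ) (Ioc Q₀ Qb) := by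
    have h3 := hAC.intervalIntegrable_deriv
    rwa [intervalIntegrable_iff_integrableOn_Ioc_of_le h01] at h3
  have h3 : ENNReal.ofReal (1 - h) * volume M ≤ ENNReal.ofReal (ρ Qb - ρ Q₀) := by
    rw [← hint, intervalIntegral.integral_of_le h01,
      ofReal_integral_eq_lintegral_ofReal hii (Eventually.of_forall fun Q => hρm.deriv_nonneg)]
    calc ENNReal.ofReal (1 - h) * volume M = ∫⁻ _ in M, ENNReal.ofReal (1 - h) := by
          rw [setLIntegral_const]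
      _ ≤ ∫⁻ Q in M, ENNReal.ofReal (deriv ρ Q) := by
          refine setLIntegral_mono' hMm fun Q hQ => ?_
          rw [hMd] at hQ
          exact ENNReal.ofReal_le_ofReal hQ.2
      _ ≤ ∫⁻ Q in Ioc Q₀ Qb, ENNReal.ofReal (deriv ρ Q) := by
          refine lintegral_mono_set fun Q hQ => ?_
          rw [hMd] at hQ
          exact ⟨hQ.1.1, hQ.1.2.le⟩
  calc ENNReal.ofReal ((1 - h) * s₀) * volume E ≤
        ENNReal.ofReal ((1 - h) * s₀) * (ENNReal.ofReal (1 / s₀) * volume (D '' E)) := by gcongr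
    _ = ENNReal.ofReal (1 - h) * volume (D '' E) := by
        rw [← mul_assoc, ← ENNReal.ofReal_mul (mul_nonneg (by linarith) hs0.le), mul_assoc,
          mul_one_div_cancel hs0.ne', mul_one]
    _ ≤ ENNReal.ofReal (1 - h) * volume M := by gcongr
    _ ≤ _ := h3

end

variable {n : ℕ}

/-- **The deficit of the target goes to a rough coordinate.** -/
theorem zfinL (hn : 2 ≤ n) (hF : FZX 1) (hW : ∀ k, 2 ≤ k → k < n → RW k) {al : ℝ} {g₀ : ℝ → ℝ}
    (hal : 0 < al) (hg₀ : ∀ ε : ℝ, 0 < ε → 0 < g₀ ε) {N : ℚ → ℚ → ℝ} (hN : ActM N al g₀)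
    {S : PCl n} (hB : ClB N S) {v : ℕ → Fin n} (hv0 : (v 0 : ℕ) = 0)
    (hvi : ∀ i < n - 1, ∀ j < n - 1, v i = v j → i = j) (hvl : ∀ i < n - 1, v i ≠ lst hn)
    {Q : ℕ → ℝ} (hQ0 : ∀ i, 0 ≤ Q i) {R : ℝ} (hR : 0 ≤ R)
    (hΦ₂ : ∀ i, 1 ≤ i → i < n - 1 → ∀ h : ℝ, 0 < h → Q i + h ≤ 1 → ∃ d : ℝ, 0 < d ∧ ∀ K : ℕ,
      Bas S (fun J F A =>
        ¬ LbR R F ((range i).image v) (v i) K ⌊d * J⌋₊ ⌊(Q i + h) * J⌋₊ A))
    {U : ℝ → ℝ → ℝ} {D σ : ℝ → ℝ} {b₁ : ℝ} (hb₁ : b₁ ≤ 1)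
    (hΦ₁ : ∀ a w : ℚ, 0 < w → w ≤ a → (a : ℝ) < b₁ → ∀ (K : ℕ) (h : ℝ), 0 < h →
      Bas S (fun J F A => ¬ (tgs (lst hn)).T () K ⌊(a : ℝ) * J⌋₊ ⌊(w : ℝ) * J⌋₊
        ⌊(U a w + h) * J⌋₊ J F A))
    (hΨ₁ : ∀ w : ℚ, 0 < w → (w : ℝ) < b₁ → D w ≤ 1 ∧ ∀ h : ℝ, 0 < h → ∃ K : ℕ,
      ∀ τ : ℝ, 0 < τ → Bas S (fun J F A => ∃ B : F.Ω → Prop, Sub B A ∧
        Real.exp (-(τ * J)) * Pe F.p A ≤ Pe F.p B ∧
        (tgs (lst hn)).T () K ⌊(w : ℝ) * J⌋₊ ⌊(w : ℝ) * J⌋₊ ⌊(D w - h) * J⌋₊ J F B))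
    {Qb eb : ℝ} (hQb0 : 0 ≤ Qb) (hQb1 : Qb ≤ 1)
    (hΨ₂ : ∀ h : ℝ, 0 < h → Bas S (fun J F A =>
      CH (Pool.Agent.H49.Ent.cond F.p A True)
        (fun ω => (F.X ⌊Qb * J⌋₊ ω (lst hn), fun l : Fin (n - 1) => F.X J ω (v l))) F.W ≤
        (eb + h) * Real.log 2 * J))
    {E : Set ℝ} {lm : ℝ → ℝ} {s₀ h₀ : ℝ} (hs : 1 < s₀) (hh₀ : h₀ ≤ 1)
    (hE : ∀ w ∈ E, 0 < w ∧ w < b₁ ∧ s₀ ≤ σ w ∧ 0 ≤ lm w ∧ lm w < σ w ∧
      UpS U w (D w) (σ w) (lm w) ∧ DgLo (fun _ w => D w) w (D w) (σ w) ∧ 0 < D w ∧ D w < Qb)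
    (hM : ∀ (S' : PCl n) (P : ℝ → ℝ → ℝ) (r : ℝ → ℝ), ClX (fun _ => 0) (fun _ => 1) al g₀ 2 0 N S' →
      (∀ (τ : ℝ) (J : ℕ) (F : Fam n J) (A : F.Ω → Prop), S'.St τ J F A → S.St τ J F A) →
      ThrOf (tgs (lst hn)) S' (fun _ => P) → RateOf S' (lst hn) r →
        RgFullL P r h₀ lm E) :
    ENNReal.ofReal ((1 - h₀) * s₀) * volume E ≤
      ENNReal.ofReal (eb - (1 + ∑ i ∈ range (n - 2), (1 - Q (i + 1)))) := by
  have hl2 : 0 < Real.log 2 := Real.log_pos one_lt_two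
  obtain ⟨S₁, h1, h2, hlow⟩ := v_low hn hF hW hal hg₀ hN hB hv0 hvi hQ0 hR hΦ₂
  have hC₁ := (hB.clx hN).sub h1 h2
  obtain ⟨S₂, P, rr, hC, h3, hT, hrr⟩ := numxI (hasThr_tgs (lst hn)) hC₁
  have hsub : ∀ (τ : ℝ) (J : ℕ) (F : Fam n J) (A : F.Ω → Prop), S₂.St τ J F A → S.St τ J F A :=
    fun τ J F A hA => h2 τ J F A (h3 τ J F A hA)
  have hpos : Bas S₂ (fun _ F A => 0 < Pe F.p A) :=
    ⟨1, one_pos, 0, fun J _ F A hA => hC.pos 1 J F A hA⟩
  obtain ⟨r, hr⟩ : ∃ r, r = rr (lst hn) (univ.erase (lst hn)) := ⟨_, rfl⟩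
  have hrate : RateOf S₂ (lst hn) r := by
    rw [hr]
    exact (hrr _ _).of
  have hL : Law (P ()) := hT.law ()
  have hFull := hM S₂ (P ()) r hC hsub hT hrate
  -- the thresholds are rough
  have hup : ∀ a w : ℚ, 0 < w → w ≤ a → (a : ℝ) < b₁ → P () a w ≤ U a w := by
    intro a w hw hwa ha
    by_contra hcon
    push Not at hcon
    have hw' : (0 : ℝ) < w := by exact_mod_cast hw
    have hwa' : (w : ℝ) ≤ a := by exact_mod_cast hwa
    have hPa : (a : ℝ) ≤ P () a w := hT.low () a w hw'.le hwa' (by linarith)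
    obtain ⟨h, hh⟩ : ∃ h, h = min ((P () a w - U a w) / 2) (P () a w / 2) := ⟨_, rfl⟩
    have hh0 : 0 < h := by
      rw [hh]
      exact lt_min (by linarith) (by linarith)
    have hh1 : h ≤ (P () a w - U a w) / 2 := by rw [hh]; exact min_le_left _ _
    have hh2 : h ≤ P () a w / 2 := by rw [hh]; exact min_le_right _ _
    obtain ⟨K, hK⟩ := hT.att () a w h hw' hwa' (by linarith) hh0 (by linarith)
    have hno := Bas.sub hsub (hΦ₁ a w hw hwa ha K h hh0)
    refine bas_no hC.ne ((hK.and hno).mono 0 ?_)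
    rintro J - F A ⟨k1, k2⟩
    refine k2 ((tgs (lst hn)).anti (Nat.floor_le_floor (mul_le_mul_of_nonneg_right ?_
      (Nat.cast_nonneg J))) k1)
    linarith
  have hlo : ∀ w : ℚ, 0 < w → (w : ℝ) < b₁ → D w ≤ P () w w := by
    intro w hw hw1
    by_contra hcon
    push Not at hcon
    have hw' : (0 : ℝ) < w := by exact_mod_cast hw
    obtain ⟨hD1, hlab⟩ := hΨ₁ w hw hw1
    obtain ⟨h, hh⟩ : ∃ h, h = (D w - P () w w) / 2 := ⟨_, rfl⟩
    have hh0 : 0 < h := by rw [hh]; linarith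
    obtain ⟨K, hK⟩ := hlab h hh0
    have hno := hT.no () K w w h hw.le le_rfl (by
      have : (w : ℝ) ≤ 1 := by linarith
      exact_mod_cast this) hh0 (by linarith)
    obtain ⟨τ, hτ, hno⟩ := bas_sh hno
    refine bas_no hC.ne (((Bas.sub hsub (hK τ hτ)).and hno).mono 0 ?_)
    rintro J - F A ⟨⟨B, k1, k2, k3⟩, k4⟩
    refine k4 B k1 k2 ((tgs (lst hn)).anti (Nat.floor_le_floor (mul_le_mul_of_nonneg_right ?_
      (Nat.cast_nonneg J))) k3)
    linarith
  -- the windows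
  have hE' : ∀ w ∈ E, 0 < w ∧ w < 1 ∧ s₀ ≤ σ w ∧ 0 ≤ lm w ∧ lm w < σ w ∧
      UpS (P ()) w (D w) (σ w) (lm w) ∧
      DgLo (P ()) w (D w) (σ w) ∧ 0 < D w ∧ D w < Qb := by
    intro g hg
    obtain ⟨h4, h5, h6, hl0, hl1, h7, h8, h9, h10⟩ := hE g hg
    have hσ : 0 < σ g := by linarith
    refine ⟨h4, by linarith, h6, hl0, hl1, fun e he => ?_, fun e he => ?_, h9, h10⟩
    · obtain ⟨r₁, hr₁, k1⟩ := h7 (e / 8) (by linarith)
      refine ⟨min (r₁ / 2) (min (g / 4) ((b₁ - g) / 4)), lt_min (by linarith)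
        (lt_min (by linarith) (by linarith)), fun r hr0 hr' a w hw hwa ha => ?_⟩
      have m1 : r < r₁ / 2 := hr'.trans_le (min_le_left _ _)
      have m2 : r < g / 4 := (hr'.trans_le (min_le_right _ _)).trans_le (min_le_left _ _)
      have m3 : r < (b₁ - g) / 4 := (hr'.trans_le (min_le_right _ _)).trans_le (min_le_right _ _)
      obtain ⟨δ, hδ⟩ : ∃ δ, δ = min (r / 2) (e * r / (4 * (σ g + 1))) := ⟨_, rfl⟩
      have hδ0 : 0 < δ := by
        rw [hδ]
        exact lt_min (by linarith) (by positivity)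
      have hδ1 : δ ≤ r / 2 := by rw [hδ]; exact min_le_left _ _
      have hδ2 : δ ≤ e * r / (4 * (σ g + 1)) := by rw [hδ]; exact min_le_right _ _
      rw [le_div_iff₀ (by linarith)] at hδ2
      obtain ⟨w', hw1, hw2⟩ := exists_rat_btwn (show w < w + δ by linarith)
      obtain ⟨a', ha1, ha2⟩ := exists_rat_btwn (show max a w' < max a w' + δ by linarith)
      have j1 := le_max_left a (w' : ℝ)
      have j2 := le_max_right a (w' : ℝ)
      have j3 : max a (w' : ℝ) ≤ a + δ := max_le (by linarith) (by linarith)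
      have hw'0 : (0 : ℝ) < w' := by linarith
      have k2 := hup a' w' (by exact_mod_cast hw'0) (by
        have : (w' : ℝ) ≤ a' := by linarith
        exact_mod_cast this) (by linarith)
      have k3 := hL.mono (a := a) (a' := a') (w := w) (w' := w') (by linarith) hwa (by linarith)
        hw1.le (by linarith) (by linarith)
      have k4 := k1 (2 * r) (by linarith) (by linarith) a' w' (by linarith) (by linarith)
        (by linarith)
      have k5 : σ g * ((w' : ℝ) - g) ≤ σ g * (w - g) + σ g * δ := by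
        have := mul_le_mul_of_nonneg_left (show (w' : ℝ) - g ≤ w - g + δ by linarith) hσ.le
        linarith
      have k6 : lm g * ((a' : ℝ) - w') ≤ lm g * (a - w) + 2 * (σ g * δ) := by
        have := mul_le_mul_of_nonneg_left (show (a' : ℝ) - w' ≤ a - w + 2 * δ by linarith) hl0
        have := mul_le_mul_of_nonneg_right hl1.le hδ0.le
        linarith
      have k7 : δ * (4 * (σ g + 1)) = 4 * (σ g * δ) + 4 * δ := by ring
      rw [k7] at hδ2
      have k8 : e / 8 * (2 * r) = e * r / 4 := by ring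
      have k9 : 0 ≤ σ g * δ := by positivity
      linarith
    · obtain ⟨r₁, hr₁, k1⟩ := h8 (e / 4) (by linarith)
      refine ⟨min (r₁ / 2) (min (g / 4) ((b₁ - g) / 4)), lt_min (by linarith)
        (lt_min (by linarith) (by linarith)), fun r hr0 hr' u hu1 hu2 => ?_⟩
      have m1 : r < r₁ / 2 := hr'.trans_le (min_le_left _ _)
      have m2 : r < g / 4 := (hr'.trans_le (min_le_right _ _)).trans_le (min_le_left _ _)
      have m3 : r < (b₁ - g) / 4 := (hr'.trans_le (min_le_right _ _)).trans_le (min_le_right _ _)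
      obtain ⟨δ, hδ⟩ : ∃ δ, δ = min (r / 2) (e * r / (4 * (σ g + 1))) := ⟨_, rfl⟩
      have hδ0 : 0 < δ := by
        rw [hδ]
        exact lt_min (by linarith) (by positivity)
      have hδ1 : δ ≤ r / 2 := by rw [hδ]; exact min_le_left _ _
      have hδ2 : δ ≤ e * r / (4 * (σ g + 1)) := by rw [hδ]; exact min_le_right _ _
      rw [le_div_iff₀ (by linarith)] at hδ2
      obtain ⟨u', hv1, hv2⟩ := exists_rat_btwn (show u - δ < u by linarith)
      have hu'0 : (0 : ℝ) < u' := by linarith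
      have k2 := hlo u' (by exact_mod_cast hu'0) (by linarith)
      have k3 := hL.mono (a := u') (a' := u) (w := u') (w' := u) hu'0.le le_rfl hv2.le hv2.le
        le_rfl (by linarith)
      have k4 := k1 (2 * r) (by linarith) (by linarith) u' (by linarith) (by linarith)
      simp only at k4
      have k5 : σ g * (u - g) - σ g * δ ≤ σ g * ((u' : ℝ) - g) := by
        have := mul_le_mul_of_nonneg_left (show u - g - δ ≤ (u' : ℝ) - g by linarith) hσ.le
        linarith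
      have k7 : δ * (4 * (σ g + 1)) = 4 * (σ g * δ) + 4 * δ := by ring
      rw [k7] at hδ2
      have k8 : e / 4 * (2 * r) = e * r / 2 := by ring
      have k9 : 0 < e * r := mul_pos he hr0
      linarith
  have hmain := rg_mainL hL hrate.lip hrate.mono hFull hh₀ hs le_rfl hQb0 hQb1 hE'
  refine hmain.trans (ENNReal.ofReal_le_ofReal ?_)
  rw [hrate.zero, sub_zero]
  -- the count
  obtain ⟨vv, hvv⟩ : ∃ vv, vv = 1 + ∑ i ∈ range (n - 2), (1 - Q (i + 1)) := ⟨_, rfl⟩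
  rw [← hvv] at hlow ⊢
  by_contra hcon
  push Not at hcon
  obtain ⟨x, hx⟩ : ∃ x, x = (r Qb - (eb - vv)) / 4 := ⟨_, rfl⟩
  have hx0 : 0 < x := by rw [hx]; linarith
  have hnum := hrate.num Qb hQb0 hQb1 (x * Real.log 2) (by positivity)
  refine bas_no hC.ne ((((Bas.sub h3 (hlow x hx0)).and (Bas.sub hsub (hΨ₂ x hx0))).and
    (hnum.and hpos)).mono 1 ?_)
  rintro J hJ F A ⟨⟨k1, k2⟩, k3, hA⟩
  have hJ0 : (0 : ℝ) < J := by exact_mod_cast hJ
  have hq := isLaw_cond F.isLaw hA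
  have hch := CH_chain hq.nonneg (fun ω => F.X ⌊Qb * J⌋₊ ω (lst hn))
    (fun ω (l : Fin (n - 1)) => F.X J ω (v l)) F.W
  have hoth : CH (Pool.Agent.H49.Ent.cond F.p A True) (fun ω => F.X ⌊Qb * J⌋₊ ω (lst hn))
      (fun ω => oth (lst hn) J F (ptr F J ω)) ≤
      CH (Pool.Agent.H49.Ent.cond F.p A True) (fun ω => F.X ⌊Qb * J⌋₊ ω (lst hn))
        (fun ω => ((fun l : Fin (n - 1) => F.X J ω (v l)), F.W ω)) := by
    refine CH_mono_cond hq.nonneg fun ω ω' _ _ hh => ?_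
    have h4 : oth (lst hn) J F (ptr F J ω) = oth (lst hn) J F (ptr F J ω') := hh
    have h5 := Prod.ext_iff.mp h4
    refine Prod.ext (funext fun l => ?_) h5.2
    have h6 := congrFun h5.1 (v l)
    have h7 : Function.update (F.X J ω) (lst hn) 0 (v l) =
      Function.update (F.X J ω') (lst hn) 0 (v l) := h6
    rwa [Function.update_of_ne (hvl l l.2), Function.update_of_ne (hvl l l.2)] at h7
  rw [abs_le] at k3
  have k4 : (vv - x) * Real.log 2 * J + (r Qb * Real.log 2 * J - x * Real.log 2 * J) ≤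
      (eb + x) * Real.log 2 * J := by linarith [k3.1]
  have k5 : r Qb = eb - vv + 4 * x := by rw [hx]; ring
  rw [k5] at k4
  have k6 : 0 < x * Real.log 2 * J := by positivity
  have k7 : (vv - x) * Real.log 2 * J + ((eb - vv + 4 * x) * Real.log 2 * J -
      x * Real.log 2 * J) = (eb + x) * Real.log 2 * J + x * Real.log 2 * J := by ring
  linarith

end Pool.ZFN
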